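import Pool.Agent.Helper65.TR.JDT

/-!
# TRL JDG : the Jacobian determinant, change of gauge and of coordinates

(See `JDT`: `Lmat` is the matrix of
`Λ_u : h ↦ dom u h (A (2i)) (A (2i+1)))_i, (h_k · x)_k, (h_k · y)_k` in the basis `bas (kap n c)`.)

PROOFS.
`jj_gauge`: let `M = Lmat .. x y u`, `M' = Lmat .. x' y' u` and let `H` be the matrix with the columns
`act (single k l) u`.  `M H = (0 ; V)`, `M' H = (0 ; V')` with `det V = (om u x y)^2`.  If `M` is
invertible, then `M' M⁻¹ = (1 0 ; P Q)`, so `det M' = det Q det M` and `V' = Q V`.  Symmetrically if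
`M'` is invertible; if none is, both sides vanish.
`jj_gl`: `Λ'_(u')(h) = Λ_u (h ∘ G)`, and `h ↦ h ∘ G` has determinant `(det G)^2`.
-/

set_option autoImplicit false

open Matrix

namespace Pool.Agent.TR

namespace JDG

/-- the functional `h ↦ h_k · x`. -/
def dotL {m : ℕ} (x : Fin m → ℝ) (k : Fin 2) : (Fin 2 → Fin m → ℝ) →ₗ[ℝ] ℝ where
  toFun h := h k ⬝ᵥ x
  map_add' h h' := by simp [add_dotProduct]
  map_smul' c h := by simp [smul_dotProduct]

theorem dotL_apply {m : ℕ} (x : Fin m → ℝ) (k : Fin 2) (h : Fin 2 → Fin m → ℝ) :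
    dotL x k h = h k ⬝ᵥ x := rfl

/-- the functional `h ↦ dom u h x y`. -/
noncomputable def domL {m : ℕ} (u : Fin 2 → Fin m → ℝ) (x y : Fin m → ℝ) :
    (Fin 2 → Fin m → ℝ) →ₗ[ℝ] ℝ :=
  (u 0 ⬝ᵥ x) • dotL y 1 + (u 1 ⬝ᵥ y) • dotL x 0 - (u 1 ⬝ᵥ x) • dotL y 0 - (u 0 ⬝ᵥ y) • dotL x 1

theorem domL_apply {m : ℕ} (u : Fin 2 → Fin m → ℝ) (x y : Fin m → ℝ) (h : Fin 2 → Fin m → ℝ) :
    domL u x y h = dom u h x y := by
  simp only [domL, LinearMap.sub_apply, LinearMap.add_apply, LinearMap.smul_apply, dotL_apply,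
    smul_eq_mul, dom]
  ring

/-- the rows as functionals. -/
noncomputable def rowF (n : ℕ) (A : ℕ → Fin (n + 2) → ℝ) (x y : Fin (n + 2) → ℝ)
    (u : Fin 2 → Fin (n + 2) → ℝ) :
    Fin (2 * n) ⊕ (Fin 2 × Fin 2) → ((Fin 2 → Fin (n + 2) → ℝ) →ₗ[ℝ] ℝ)
  | Sum.inl i => domL u (A (2 * i)) (A (2 * i + 1))
  | Sum.inr (k, l) => dotL (if l = 0 then x else y) k

theorem Lmat_eq (n : ℕ) (A : ℕ → Fin (n + 2) → ℝ) (x y : Fin (n + 2) → ℝ)
    (u : Fin 2 → Fin (n + 2) → ℝ) (r c : Fin (2 * n) ⊕ (Fin 2 × Fin 2)) :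
    Lmat n A x y u r c = rowF n A x y u r (bas (kap n c)) := by
  rcases r with i | ⟨k, l⟩
  · simp only [Lmat, rowF, domL_apply]
  · simp only [Lmat, rowF, dotL_apply]

theorem expand {n : ℕ} (h : Fin 2 → Fin (n + 2) → ℝ) :
    h = ∑ c, h (kap n c).1 (kap n c).2 • bas (kap n c) := by
  have e := (Equiv.ofBijective (kap n) (kap_bij n)).sum_comp
    (fun p : Fin 2 × Fin (n + 2) => h p.1 p.2 • (bas p : Fin 2 → Fin (n + 2) → ℝ))
  simp only [Equiv.ofBijective_apply] at e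
  rw [e]
  funext k j
  rw [Finset.sum_apply, Finset.sum_apply, Finset.sum_eq_single (k, j)]
  · simp [bas]
  · rintro ⟨k', j'⟩ _ hne
    simp only [Pi.smul_apply, bas, smul_eq_mul]
    rw [if_neg (fun h => hne h.symm), mul_zero]
  · intro h; exact absurd (Finset.mem_univ _) h

theorem sum_row {n : ℕ} (L : (Fin 2 → Fin (n + 2) → ℝ) →ₗ[ℝ] ℝ) (h : Fin 2 → Fin (n + 2) → ℝ) :
    ∑ c, L (bas (kap n c)) * h (kap n c).1 (kap n c).2 = L h := by
  conv_rhs => rw [expand h, map_sum]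
  refine Finset.sum_congr rfl fun c _ => ?_
  rw [map_smul, smul_eq_mul, mul_comm]

/-- the direction `act (single k l) u`. -/
def dir {m : ℕ} (u : Fin 2 → Fin m → ℝ) (p : Fin 2 × Fin 2) : Fin 2 → Fin m → ℝ :=
  fun k => if k = p.1 then u p.2 else 0

theorem dom_dir {m : ℕ} (u : Fin 2 → Fin m → ℝ) {x y : Fin m → ℝ} (h : om u x y = 0)
    (p : Fin 2 × Fin 2) : dom u (dir u p) x y = 0 := by
  obtain ⟨k, l⟩ := p
  unfold om at h
  fin_cases k <;> fin_cases l <;> simp [dom, dir] <;> linarith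

/-- the coordinates of the directions. -/
def Hm {n : ℕ} (u : Fin 2 → Fin (n + 2) → ℝ) :
    Matrix (Fin (2 * n) ⊕ (Fin 2 × Fin 2)) (Fin 2 × Fin 2) ℝ :=
  fun c p => dir u p (kap n c).1 (kap n c).2

theorem mul_Hm {n : ℕ} (A : ℕ → Fin (n + 2) → ℝ) (x y : Fin (n + 2) → ℝ)
    (u : Fin 2 → Fin (n + 2) → ℝ) (r : Fin (2 * n) ⊕ (Fin 2 × Fin 2)) (p : Fin 2 × Fin 2) :
    (Lmat n A x y u * Hm u) r p = rowF n A x y u r (dir u p) := by
  rw [Matrix.mul_apply, ← sum_row (rowF n A x y u r) (dir u p)]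
  refine Finset.sum_congr rfl fun c _ => ?_
  rw [Lmat_eq]; rfl

/-- the block of values. -/
def Vm {m : ℕ} (x y : Fin m → ℝ) (u : Fin 2 → Fin m → ℝ) :
    Matrix (Fin 2 × Fin 2) (Fin 2 × Fin 2) ℝ :=
  Matrix.kroneckerMap (· * ·) (1 : Matrix (Fin 2) (Fin 2) ℝ)
    (Matrix.of fun l l' : Fin 2 => u l' ⬝ᵥ (if l = 0 then x else y))

theorem det_Vm {m : ℕ} (x y : Fin m → ℝ) (u : Fin 2 → Fin m → ℝ) :
    (Vm x y u).det = om u x y ^ 2 := by
  unfold Vm
  rw [Matrix.det_kronecker, Matrix.det_one, one_pow, one_mul, Fintype.card_fin,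
    Matrix.det_fin_two]
  simp only [Matrix.of_apply, om, if_true, Fin.isValue, one_ne_zero, if_false]

theorem row_inl {n : ℕ} {A : ℕ → Fin (n + 2) → ℝ} (x y : Fin (n + 2) → ℝ)
    {u : Fin 2 → Fin (n + 2) → ℝ} (hs : Sol n A u) (i : Fin (2 * n)) (p : Fin 2 × Fin 2) :
    rowF n A x y u (Sum.inl i) (dir u p) = 0 := by
  simp only [rowF, domL_apply]
  exact dom_dir u (hs i i.2) p

theorem row_inr {n : ℕ} {A : ℕ → Fin (n + 2) → ℝ} (x y : Fin (n + 2) → ℝ)
    (u : Fin 2 → Fin (n + 2) → ℝ) (q p : Fin 2 × Fin 2) :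
    rowF n A x y u (Sum.inr q) (dir u p) = Vm x y u q p := by
  obtain ⟨k, l⟩ := q
  obtain ⟨k', l'⟩ := p
  simp only [rowF, dotL_apply, Vm, Matrix.kroneckerMap_apply, Matrix.of_apply, dir,
    Matrix.one_apply]
  split_ifs <;> simp

theorem gauge_aux {n : ℕ} {A : ℕ → Fin (n + 2) → ℝ} (x y x' y' : Fin (n + 2) → ℝ)
    {u : Fin 2 → Fin (n + 2) → ℝ} (hs : Sol n A u) (h0 : JJ n A x y u ≠ 0) :
    JJ n A x y u * om u x' y' ^ 2 = JJ n A x' y' u * om u x y ^ 2 := by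
  unfold JJ at *
  set M := Lmat n A x y u with hM
  set M' := Lmat n A x' y' u with hM'
  have hu : IsUnit M.det := isUnit_iff_ne_zero.mpr h0
  set R := M' * M⁻¹ with hR
  have hRM : R * M = M' := by rw [hR, Matrix.mul_assoc, Matrix.nonsing_inv_mul M hu,
    Matrix.mul_one]
  have hrow : ∀ (i : Fin (2 * n)) c, M' (Sum.inl i) c = M (Sum.inl i) c := fun i c => rfl
  have hR1 : ∀ (i : Fin (2 * n)) c, R (Sum.inl i) c
      = (1 : Matrix (Fin (2 * n) ⊕ (Fin 2 × Fin 2)) (Fin (2 * n) ⊕ (Fin 2 × Fin 2)) ℝ)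
        (Sum.inl i) c := by
    intro i c
    rw [← Matrix.mul_nonsing_inv M hu, hR, Matrix.mul_apply, Matrix.mul_apply]
    refine Finset.sum_congr rfl fun k _ => ?_
    rw [hrow]
  have hRb : R = Matrix.fromBlocks 1 0 R.toBlocks₂₁ R.toBlocks₂₂ := by
    ext r c
    rcases r with i | q
    · rcases c with j | p
      · rw [hR1, Matrix.fromBlocks_apply₁₁]
        simp [Matrix.one_apply]
      · rw [hR1, Matrix.fromBlocks_apply₁₂]
        simp
    · rcases c with j | p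
      · rfl
      · rfl
  have hdetR : R.det = R.toBlocks₂₂.det := by
    rw [hRb, Matrix.det_fromBlocks_zero₁₂, Matrix.det_one, one_mul, Matrix.toBlocks_fromBlocks₂₂]
  have hdet : M'.det = R.toBlocks₂₂.det * M.det := by
    rw [← hRM, Matrix.det_mul, hdetR]
  have hV : Vm x' y' u = R.toBlocks₂₂ * Vm x y u := by
    ext q p
    have h1 : (M' * Hm u) (Sum.inr q) p = Vm x' y' u q p := by
      rw [hM', mul_Hm, row_inr]
    rw [← h1, ← hRM, Matrix.mul_assoc, Matrix.mul_apply, Fintype.sum_sum_type,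
      Matrix.mul_apply]
    have h2 : ∑ i : Fin (2 * n), R (Sum.inr q) (Sum.inl i) * (M * Hm u) (Sum.inl i) p = 0 := by
      refine Finset.sum_eq_zero fun i _ => ?_
      rw [hM, mul_Hm, row_inl x y hs, mul_zero]
    rw [h2, zero_add]
    refine Finset.sum_congr rfl fun p' _ => ?_
    rw [hM, mul_Hm, row_inr]
    rfl
  have hdV : om u x' y' ^ 2 = R.toBlocks₂₂.det * om u x y ^ 2 := by
    rw [← det_Vm, ← det_Vm, hV, Matrix.det_mul]
  rw [hdV, hdet]; ring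

end JDG

open JDG in
theorem jj_gauge {n : ℕ} {A : ℕ → Fin (n + 2) → ℝ} (x y x' y' : Fin (n + 2) → ℝ)
    {u : Fin 2 → Fin (n + 2) → ℝ} (hs : Sol n A u) :
    JJ n A x y u * om u x' y' ^ 2 = JJ n A x' y' u * om u x y ^ 2 := by
  by_cases h : JJ n A x y u = 0
  · by_cases h' : JJ n A x' y' u = 0
    · rw [h, h', zero_mul, zero_mul]
    · exact (gauge_aux x' y' x y hs h').symm
  · exact gauge_aux x y x' y' hs h

open JDG in
theorem jj_gl {n : ℕ} {A : ℕ → Fin (n + 2) → ℝ} {x y : Fin (n + 2) → ℝ}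
    {u u' : Fin 2 → Fin (n + 2) → ℝ} (G : Matrix (Fin (n + 2)) (Fin (n + 2)) ℝ)
    (hu : ∀ k, (u' k) ᵥ* G = u k) :
    JJ n (fun j => G *ᵥ A j) (G *ᵥ x) (G *ᵥ y) u' = G.det ^ 2 * JJ n A x y u := by
  let e := Equiv.ofBijective (kap n) (kap_bij n)
  let C : Matrix (Fin 2 × Fin (n + 2)) (Fin 2 × Fin (n + 2)) ℝ :=
    Matrix.kroneckerMap (· * ·) (1 : Matrix (Fin 2) (Fin 2) ℝ) Gᵀ
  have hC : C.det = G.det ^ 2 := by
    simp only [C]
    rw [Matrix.det_kronecker, Matrix.det_one, one_pow, one_mul, Matrix.det_transpose,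
      Fintype.card_fin]
  have hdot : ∀ (h : Fin (n + 2) → ℝ) (z : Fin (n + 2) → ℝ), h ⬝ᵥ (G *ᵥ z) = (h ᵥ* G) ⬝ᵥ z :=
    fun h z => Matrix.dotProduct_mulVec h G z
  have hrow : ∀ r (h : Fin 2 → Fin (n + 2) → ℝ),
      rowF n (fun j => G *ᵥ A j) (G *ᵥ x) (G *ᵥ y) u' r h
        = rowF n A x y u r (fun k => h k ᵥ* G) := by
    intro r h
    rcases r with i | ⟨k, l⟩
    · simp only [rowF, domL_apply, dom, hdot, hu]
    · simp only [rowF, dotL_apply]
      split_ifs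
      · exact hdot _ _
      · exact hdot _ _
  have hmul : Lmat n (fun j => G *ᵥ A j) (G *ᵥ x) (G *ᵥ y) u'
      = Lmat n A x y u * C.submatrix e e := by
    ext r c
    rw [Lmat_eq, hrow, Matrix.mul_apply, ← sum_row]
    refine Finset.sum_congr rfl fun c' _ => ?_
    rw [Lmat_eq]
    congr 1
    simp only [C, Matrix.submatrix_apply, e, Equiv.ofBijective_apply, Matrix.kroneckerMap_apply,
      Matrix.one_apply, Matrix.transpose_apply, Matrix.vecMul, dotProduct]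
    rw [Finset.sum_eq_single (kap n c).2]
    · simp only [bas]
      by_cases h : (kap n c').1 = (kap n c).1
      · rw [if_pos h, if_pos (show ((kap n c').1, (kap n c).2) = kap n c from Prod.ext h rfl)]
      · rw [if_neg h, if_neg (show ¬ ((kap n c').1, (kap n c).2) = kap n c from
          fun h2 => h (Prod.ext_iff.mp h2).1)]
    · intro j _ hj
      simp only [bas]
      rw [if_neg (fun h2 => hj (congrArg Prod.snd h2)), zero_mul]
    · intro h; exact absurd (Finset.mem_univ _) h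
  unfold JJ
  rw [hmul, Matrix.det_mul, Matrix.det_submatrix_equiv_self, hC, mul_comm]

end Pool.Agent.TR
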