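import Pool.Agent.Helper65.TR.Defs

/-!
# TRL JDT : the Jacobian determinant

PROOFS.  `kap n` is a bijection, so `bas (kap n c)` is a basis of the space of pairs and `Lmat` is the
matrix of the linear map `Λ_u : h ↦ (dom u h (A (2i)) (A (2i+1)))_i, (h_k · x)_k, (h_k · y)_k`.
`jj_ne_zero`: determinant `≠ 0` iff the kernel is `0`.
`jj_act`: `Λ_(gu)(g h) = T (Λ_u h)` where `T` multiplies the `2 n` first coordinates by `det g`
(`dom (act g u) (act g h) x y = det g * dom u h x y`) and acts by `g` on `(h_k · x)_k` and on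
`(h_k · y)_k`; `det T = (det g)^(2n) (det g)^2`; `h ↦ act g h` has determinant `(det g)^(n+2)`.
(Both are block computations; one can also prove the identity for `g` diagonal / elementary, or
argue by `LinearMap.det` of compositions.)
`jj_ndc`: let `h` be complex with all `dom = 0`; choose a complex `g` with `g u(x) = h(x)`,
`g u(y) = h(y)` (`om u x y ≠ 0`); `dom u (act g u) = tr(g) om u = 0` on the pairs, so
`h' = h - act g u` is killed by all rows of the real matrix `Lmat`, so `h' = 0`.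
-/

set_option autoImplicit false

open Matrix

namespace Pool.Agent.TR

theorem kap_bij (n : ℕ) : Function.Bijective (kap n) := by
  rw [Fintype.bijective_iff_injective_and_card]
  refine ⟨?_, ?_⟩
  · rintro (i | ⟨k, l⟩) (j | ⟨k', l'⟩) h
    · have hi := i.2
      have hj := j.2
      simp only [kap] at h
      by_cases h1 : (i : ℕ) < n <;> by_cases h2 : (j : ℕ) < n <;>
        simp only [h1, h2, dif_pos, dif_neg, not_false_iff, Prod.mk.injEq, Fin.mk.injEq,
          zero_ne_one, one_ne_zero, false_and, true_and] at h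
      · congr 1; apply Fin.ext; omega
      · congr 1; apply Fin.ext; omega
    · exfalso
      have hi := i.2
      simp only [kap] at h
      by_cases h1 : (i : ℕ) < n
      · simp only [h1, dif_pos, Prod.mk.injEq] at h
        have := congrArg Fin.val h.2
        by_cases hl : l' = 0
        · simp [hl] at this
        · simp [hl] at this; omega
      · simp only [h1, dif_neg, not_false_iff, Prod.mk.injEq] at h
        have := congrArg Fin.val h.2
        by_cases hl : l' = 0
        · simp [hl] at this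
        · simp [hl] at this; omega
    · exfalso
      have hj := j.2
      simp only [kap] at h
      by_cases h1 : (j : ℕ) < n
      · simp only [h1, dif_pos, Prod.mk.injEq] at h
        have := congrArg Fin.val h.2
        by_cases hl : l = 0
        · simp [hl] at this
        · simp [hl] at this; omega
      · simp only [h1, dif_neg, not_false_iff, Prod.mk.injEq] at h
        have := congrArg Fin.val h.2
        by_cases hl : l = 0
        · simp [hl] at this
        · simp [hl] at this; omega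
    · simp only [kap, Prod.mk.injEq] at h
      obtain ⟨h1, h2⟩ := h
      subst h1
      have : l = l' := by
        fin_cases l <;> fin_cases l' <;> simp_all [Fin.ext_iff]
      rw [this]
  · simp only [Fintype.card_sum, Fintype.card_prod, Fintype.card_fin]
    ring

namespace JDT

variable {n : ℕ}

/-- the coordinates. -/
noncomputable def E (n : ℕ) : Fin (2 * n) ⊕ (Fin 2 × Fin 2) ≃ Fin 2 × Fin (n + 2) :=
  Equiv.ofBijective (kap n) (kap_bij n)

/-- the pair with given coordinates. -/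
noncomputable def tp (t : Fin (2 * n) ⊕ (Fin 2 × Fin 2) → ℝ) : Fin 2 → Fin (n + 2) → ℝ :=
  fun k j => t ((E n).symm (k, j))

/-- the rows. -/
noncomputable def row (A : ℕ → Fin (n + 2) → ℝ) (x y : Fin (n + 2) → ℝ)
    (u h : Fin 2 → Fin (n + 2) → ℝ) : Fin (2 * n) ⊕ (Fin 2 × Fin 2) → ℝ :=
  fun r => match r with
    | Sum.inl i => dom u h (A (2 * i)) (A (2 * i + 1))
    | Sum.inr (k, l) => h k ⬝ᵥ (if l = 0 then x else y)

theorem lmat_eq (A : ℕ → Fin (n + 2) → ℝ) (x y : Fin (n + 2) → ℝ)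
    (u : Fin 2 → Fin (n + 2) → ℝ) (r c) :
    Lmat n A x y u r c = row A x y u (bas (kap n c)) r := by
  rcases r with i | ⟨k, l⟩ <;> rfl

theorem row_add (A : ℕ → Fin (n + 2) → ℝ) (x y : Fin (n + 2) → ℝ)
    (u h h' : Fin 2 → Fin (n + 2) → ℝ) (r) :
    row A x y u (h + h') r = row A x y u h r + row A x y u h' r := by
  rcases r with i | ⟨k, l⟩
  · simp only [row, dom, Pi.add_apply, add_dotProduct]; ring
  · simp only [row, Pi.add_apply, add_dotProduct]

theorem row_smul (A : ℕ → Fin (n + 2) → ℝ) (x y : Fin (n + 2) → ℝ)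
    (u h : Fin 2 → Fin (n + 2) → ℝ) (a : ℝ) (r) :
    row A x y u (a • h) r = a * row A x y u h r := by
  rcases r with i | ⟨k, l⟩
  · simp only [row, dom, Pi.smul_apply, smul_dotProduct, smul_eq_mul]; ring
  · simp only [row, Pi.smul_apply, smul_dotProduct, smul_eq_mul]

/-- the rows as a linear map. -/
noncomputable def rowL (A : ℕ → Fin (n + 2) → ℝ) (x y : Fin (n + 2) → ℝ)
    (u : Fin 2 → Fin (n + 2) → ℝ) (r : Fin (2 * n) ⊕ (Fin 2 × Fin 2)) :
    (Fin 2 → Fin (n + 2) → ℝ) →ₗ[ℝ] ℝ where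
  toFun h := row A x y u h r
  map_add' h h' := row_add A x y u h h' r
  map_smul' a h := row_smul A x y u h a r

theorem tp_eq (t : Fin (2 * n) ⊕ (Fin 2 × Fin 2) → ℝ) :
    tp t = ∑ c, t c • (bas (kap n c) : Fin 2 → Fin (n + 2) → ℝ) := by
  funext k j
  simp only [Finset.sum_apply, Pi.smul_apply, smul_eq_mul, bas, mul_ite, mul_one, mul_zero]
  rw [Finset.sum_eq_single ((E n).symm (k, j))]
  · have : kap n ((E n).symm (k, j)) = (k, j) := (E n).apply_symm_apply (k, j)
    simp [tp, this]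
  · intro c _ hc
    rw [if_neg]
    intro h
    apply hc
    rw [h]
    exact ((E n).symm_apply_apply c).symm
  · intro h; exact absurd (Finset.mem_univ _) h

theorem mulVec_eq (A : ℕ → Fin (n + 2) → ℝ) (x y : Fin (n + 2) → ℝ)
    (u : Fin 2 → Fin (n + 2) → ℝ) (t : Fin (2 * n) ⊕ (Fin 2 × Fin 2) → ℝ) :
    Lmat n A x y u *ᵥ t = row A x y u (tp t) := by
  funext r
  have : row A x y u (tp t) r = rowL A x y u r (tp t) := rfl
  rw [this, tp_eq, map_sum]
  simp only [map_smul, smul_eq_mul, Matrix.mulVec, dotProduct]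
  apply Finset.sum_congr rfl
  intro c _
  rw [lmat_eq, mul_comm]; rfl

/-- the coordinates of a pair. -/
noncomputable def co (h : Fin 2 → Fin (n + 2) → ℝ) : Fin (2 * n) ⊕ (Fin 2 × Fin 2) → ℝ :=
  fun c => h (kap n c).1 (kap n c).2

theorem tp_co (h : Fin 2 → Fin (n + 2) → ℝ) : tp (co h) = h := by
  funext k j
  have : kap n ((E n).symm (k, j)) = (k, j) := (E n).apply_symm_apply (k, j)
  simp [tp, co, this]

theorem co_tp (t : Fin (2 * n) ⊕ (Fin 2 × Fin 2) → ℝ) : co (tp t) = t := by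
  funext c
  have : (E n).symm (kap n c) = c := (E n).symm_apply_apply c
  simp [tp, co, this]

theorem act_dot {m : ℕ} {R : Type*} [CommRing R] (g : Matrix (Fin 2) (Fin 2) R)
    (u : Fin 2 → Fin m → R) (k : Fin 2) (x : Fin m → R) :
    act g u k ⬝ᵥ x = g k 0 * (u 0 ⬝ᵥ x) + g k 1 * (u 1 ⬝ᵥ x) := by
  simp only [act, add_dotProduct, smul_dotProduct, smul_eq_mul]

theorem dom_act {m : ℕ} {R : Type*} [CommRing R] (g : Matrix (Fin 2) (Fin 2) R)
    (u h : Fin 2 → Fin m → R) (x y : Fin m → R) :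
    dom (act g u) (act g h) x y = g.det * dom u h x y := by
  simp only [dom, act_dot, Matrix.det_fin_two]; ring

theorem dom_act_self {m : ℕ} {R : Type*} [CommRing R] (g : Matrix (Fin 2) (Fin 2) R)
    (u : Fin 2 → Fin m → R) (x y : Fin m → R) :
    dom u (act g u) x y = (g 0 0 + g 1 1) * om u x y := by
  simp only [dom, act_dot, om]; ring

/-- the action in coordinates. -/
noncomputable def G (n : ℕ) (g : Matrix (Fin 2) (Fin 2) ℝ) :
    Matrix (Fin (2 * n) ⊕ (Fin 2 × Fin 2)) (Fin (2 * n) ⊕ (Fin 2 × Fin 2)) ℝ :=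
  (Matrix.kroneckerMap (· * ·) g (1 : Matrix (Fin (n + 2)) (Fin (n + 2)) ℝ)).submatrix (E n) (E n)

theorem det_G (n : ℕ) (g : Matrix (Fin 2) (Fin 2) ℝ) : (G n g).det = g.det ^ (n + 2) := by
  unfold G
  rw [Matrix.det_submatrix_equiv_self, Matrix.det_kronecker]
  simp

theorem G_mulVec (g : Matrix (Fin 2) (Fin 2) ℝ) (t : Fin (2 * n) ⊕ (Fin 2 × Fin 2) → ℝ) :
    tp (G n g *ᵥ t) = act g (tp t) := by
  funext k j
  simp only [tp, act, Pi.add_apply, Pi.smul_apply, smul_eq_mul, Matrix.mulVec, dotProduct, G,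
    Matrix.submatrix_apply, Equiv.apply_symm_apply, Matrix.kroneckerMap_apply]
  rw [← (E n).symm.sum_comp]
  simp only [Equiv.apply_symm_apply]
  rw [Fintype.sum_prod_type, Fin.sum_univ_two]
  simp [Matrix.one_apply]

/-- the target transformation. -/
noncomputable def T (n : ℕ) (g : Matrix (Fin 2) (Fin 2) ℝ) :
    Matrix (Fin (2 * n) ⊕ (Fin 2 × Fin 2)) (Fin (2 * n) ⊕ (Fin 2 × Fin 2)) ℝ :=
  Matrix.fromBlocks (g.det • (1 : Matrix (Fin (2 * n)) (Fin (2 * n)) ℝ)) 0 0
    (Matrix.kroneckerMap (· * ·) g (1 : Matrix (Fin 2) (Fin 2) ℝ))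

theorem det_T (n : ℕ) (g : Matrix (Fin 2) (Fin 2) ℝ) :
    (T n g).det = g.det ^ (2 * n) * g.det ^ 2 := by
  unfold T
  rw [Matrix.det_fromBlocks_zero₂₁, Matrix.det_kronecker, Matrix.det_smul]
  simp

theorem T_mulVec (g : Matrix (Fin 2) (Fin 2) ℝ) (A : ℕ → Fin (n + 2) → ℝ)
    (x y : Fin (n + 2) → ℝ) (u h : Fin 2 → Fin (n + 2) → ℝ) :
    T n g *ᵥ (row A x y u h) = row A x y (act g u) (act g h) := by
  funext r
  rcases r with i | ⟨k, l⟩
  · simp only [T, Matrix.mulVec, dotProduct, Fintype.sum_sum_type, Matrix.fromBlocks_apply₁₁,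
      Matrix.fromBlocks_apply₁₂, Matrix.smul_apply, Matrix.one_apply, Matrix.zero_apply, row,
      dom_act]
    simp
  · simp only [T, Matrix.mulVec, dotProduct, Fintype.sum_sum_type, Matrix.fromBlocks_apply₂₁,
      Matrix.fromBlocks_apply₂₂, Matrix.zero_apply, Matrix.kroneckerMap_apply, zero_mul,
      Finset.sum_const_zero, zero_add]
    rw [Fintype.sum_prod_type, Fin.sum_univ_two]
    have := act_dot g h k (if l = 0 then x else y)
    simp only [JDT.row]
    rw [this]
    simp [Matrix.one_apply]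

end JDT

open JDT in
theorem jj_ne_zero {n : ℕ} {A : ℕ → Fin (n + 2) → ℝ} {x y : Fin (n + 2) → ℝ}
    {u : Fin 2 → Fin (n + 2) → ℝ} :
    JJ n A x y u ≠ 0 ↔ ∀ h : Fin 2 → Fin (n + 2) → ℝ,
      (∀ i < 2 * n, dom u h (A (2 * i)) (A (2 * i + 1)) = 0) → (∀ k, h k ⬝ᵥ x = 0) →
      (∀ k, h k ⬝ᵥ y = 0) → h = 0 := by
  unfold JJ
  rw [ne_eq, ← Matrix.exists_mulVec_eq_zero_iff]
  constructor
  · intro H h h1 h2 h3
    by_contra hne
    apply H
    refine ⟨co h, ?_, ?_⟩
    · intro h0
      apply hne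
      rw [← tp_co h, h0]
      rfl
    · rw [mulVec_eq, tp_co]
      funext r
      rcases r with i | ⟨k, l⟩
      · exact h1 i i.2
      · simp only [JDT.row]
        by_cases hl : l = 0
        · simp only [hl, if_true]; exact h2 k
        · simp only [hl, if_false]; exact h3 k
  · rintro H ⟨t, ht, hM⟩
    apply ht
    rw [mulVec_eq] at hM
    have := H (tp t) (fun i hi => congrFun hM (Sum.inl ⟨i, hi⟩))
      (fun k => by simpa [JDT.row] using congrFun hM (Sum.inr (k, 0)))
      (fun k => by simpa [JDT.row] using congrFun hM (Sum.inr (k, 1)))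
    rw [← co_tp t, this]
    rfl

open JDT in
theorem jj_act {n : ℕ} {A : ℕ → Fin (n + 2) → ℝ} {x y : Fin (n + 2) → ℝ}
    {u : Fin 2 → Fin (n + 2) → ℝ} (g : Matrix (Fin 2) (Fin 2) ℝ) (hg : g.det ≠ 0) :
    JJ n A x y (act g u) = g.det ^ n * JJ n A x y u := by
  have hmat : Lmat n A x y (act g u) * G n g = T n g * Lmat n A x y u := by
    apply Matrix.ext_of_mulVec_single
    intro c
    rw [← Matrix.mulVec_mulVec, ← Matrix.mulVec_mulVec, mulVec_eq, mulVec_eq, G_mulVec, T_mulVec]
  have hdet := congrArg Matrix.det hmat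
  rw [Matrix.det_mul, Matrix.det_mul, det_G, det_T] at hdet
  unfold JJ
  have h1 : g.det ^ (n + 2) ≠ 0 := pow_ne_zero _ hg
  apply mul_right_cancel₀ h1
  rw [hdet]
  ring

open JDT in
theorem jj_ndc {n : ℕ} {A : ℕ → Fin (n + 2) → ℝ} {x y : Fin (n + 2) → ℝ}
    {u : Fin 2 → Fin (n + 2) → ℝ} (hs : Sol n A u) (ho : om u x y ≠ 0) (hJ : JJ n A x y u ≠ 0) :
    NDC n A (cu u) := by
  intro h hh
  have hcc : ∀ (k : Fin 2) (p : Fin (n + 2) → ℝ), cu u k ⬝ᵥ cv p = ((u k ⬝ᵥ p : ℝ) : ℂ) := by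
    intro k p
    simp [cu, cv, dotProduct]
  set M : Matrix (Fin 2) (Fin 2) ℂ :=
    !![((u 0 ⬝ᵥ x : ℝ) : ℂ), ((u 0 ⬝ᵥ y : ℝ) : ℂ); ((u 1 ⬝ᵥ x : ℝ) : ℂ), ((u 1 ⬝ᵥ y : ℝ) : ℂ)]
    with hM
  have hMdet : M.det = ((om u x y : ℝ) : ℂ) := by
    rw [hM, Matrix.det_fin_two_of]
    simp only [om]
    push_cast; ring
  have hMu : IsUnit M.det := by
    rw [hMdet]
    exact isUnit_iff_ne_zero.2 (by exact_mod_cast ho)
  set H : Matrix (Fin 2) (Fin 2) ℂ :=
    !![h 0 ⬝ᵥ cv x, h 0 ⬝ᵥ cv y; h 1 ⬝ᵥ cv x, h 1 ⬝ᵥ cv y] with hH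
  set g : Matrix (Fin 2) (Fin 2) ℂ := H * M⁻¹ with hg
  have hgM : g * M = H := by
    rw [hg, Matrix.mul_assoc, Matrix.nonsing_inv_mul M hMu, Matrix.mul_one]
  refine ⟨g, ?_⟩
  set h' : Fin 2 → Fin (n + 2) → ℂ := fun k j => h k j - act g (cu u) k j with hh'
  have hx : ∀ k, h' k ⬝ᵥ cv x = 0 := by
    intro k
    have e1 : h' k = h k - act g (cu u) k := rfl
    have e2 := congrFun (congrFun hgM k) 0
    rw [Matrix.mul_apply, Fin.sum_univ_two] at e2
    rw [e1, sub_dotProduct, act_dot, hcc, hcc]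
    fin_cases k <;> simp [hM, hH] at e2 ⊢ <;> rw [← e2] <;> ring
  have hy : ∀ k, h' k ⬝ᵥ cv y = 0 := by
    intro k
    have e1 : h' k = h k - act g (cu u) k := rfl
    have e2 := congrFun (congrFun hgM k) 1
    rw [Matrix.mul_apply, Fin.sum_univ_two] at e2
    rw [e1, sub_dotProduct, act_dot, hcc, hcc]
    fin_cases k <;> simp [hM, hH] at e2 ⊢ <;> rw [← e2] <;> ring
  have hd : ∀ i < 2 * n, dom (cu u) h' (cv (A (2 * i))) (cv (A (2 * i + 1))) = 0 := by
    intro i hi
    have e1 : dom (cu u) h' (cv (A (2 * i))) (cv (A (2 * i + 1))) =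
        dom (cu u) h (cv (A (2 * i))) (cv (A (2 * i + 1))) -
        dom (cu u) (act g (cu u)) (cv (A (2 * i))) (cv (A (2 * i + 1))) := by
      have e0 : ∀ k, h' k = h k - act g (cu u) k := fun k => rfl
      simp only [dom, e0, sub_dotProduct]; ring
    have e2 : om (cu u) (cv (A (2 * i))) (cv (A (2 * i + 1))) =
        ((om u (A (2 * i)) (A (2 * i + 1)) : ℝ) : ℂ) := by
      simp only [om, hcc]; push_cast; ring
    rw [e1, hh i hi, dom_act_self, e2, hs i hi]
    simp
  -- real and imaginary parts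
  have hre : ∀ (k : Fin 2) (p : Fin (n + 2) → ℝ),
      (h' k ⬝ᵥ cv p).re = (fun j => (h' k j).re) ⬝ᵥ p := by
    intro k p
    simp [dotProduct, cv]
  have him : ∀ (k : Fin 2) (p : Fin (n + 2) → ℝ),
      (h' k ⬝ᵥ cv p).im = (fun j => (h' k j).im) ⬝ᵥ p := by
    intro k p
    simp [dotProduct, cv]
  have key := jj_ne_zero.1 hJ
  have hr0 : (fun k j => (h' k j).re : Fin 2 → Fin (n + 2) → ℝ) = 0 := by
    apply key
    · intro i hi
      have := congrArg Complex.re (hd i hi)
      simp only [dom, hcc, Complex.add_re, Complex.sub_re, Complex.re_ofReal_mul,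
        Complex.re_mul_ofReal, hre, Complex.zero_re] at this
      simp only [dom]
      linarith
    · intro k; rw [← hre k x, hx k]; rfl
    · intro k; rw [← hre k y, hy k]; rfl
  have hi0 : (fun k j => (h' k j).im : Fin 2 → Fin (n + 2) → ℝ) = 0 := by
    apply key
    · intro i hi
      have := congrArg Complex.im (hd i hi)
      simp only [dom, hcc, Complex.add_im, Complex.sub_im, Complex.im_ofReal_mul,
        Complex.im_mul_ofReal, him, Complex.zero_im] at this
      simp only [dom]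
      linarith
    · intro k; rw [← him k x, hx k]; rfl
    · intro k; rw [← him k y, hy k]; rfl
  funext k j
  have a1 := congrFun (congrFun hr0 k) j
  have a2 := congrFun (congrFun hi0 k) j
  have a3 : h' k j = 0 := Complex.ext a1 a2
  have a4 : h k j - act g (cu u) k j = 0 := a3
  exact sub_eq_zero.1 a4

end Pool.Agent.TR
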