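import Pool.Agent.Helper65.TR.SGA

/-!
# TRL SGL : the twisted sign is invariant under `GL_2(ℝ)` with positive determinant

PROOF. On `ℂ = ℝ^2` the matrix `g` acts as `w ↦ a w + b conj(w)` with complex numbers `a, b`,
`det g = |a|^2 - |b|^2 > 0`.  For `t ∈ [0, 1]` let `g_t w = a w + t b conj(w)`, an invertible
real-linear map (`|a|^2 - t^2 |b|^2 > 0`).  An invertible linear map keeps nonzero and not a
nonpositive multiple: `g_t w(j+1) / g_t w(j)` is in the slit plane for all `t` (a quotient `z'/z` of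
nonzero numbers is not in the slit plane iff `z' = - r z` with `r > 0`).  `g_t w K =
(-1)^(m-1) g_t w 0`.  So `t ↦ sg (g_t w)` is locally constant on `[0, 1]` (`sg_cont`), hence constant
(connectedness), and for `t = 0` the quotients are those of `w`.
The second theorem is the same for `wv`.
-/

set_option autoImplicit false

open Matrix

namespace Pool.Agent.TR

theorem sg_gl {m K : ℕ} {w w' : ℕ → ℂ} (g : Matrix (Fin 2) (Fin 2) ℝ) (hg : 0 < g.det)
    (hw' : ∀ j, w' j = ⟨g 0 0 * (w j).re + g 0 1 * (w j).im, g 1 0 * (w j).re + g 1 1 * (w j).im⟩)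
    (hw : ∀ j < K, w (j + 1) / w j ∈ Complex.slitPlane) (hK : w K = (-1) ^ (m - 1) * w 0) :
    sg m K w' = sg m K w := by
  sorry

theorem sgA_act {n : ℕ} {A : ℕ → Fin (n + 2) → ℝ} {u : Fin 2 → Fin (n + 2) → ℝ}
    (g : Matrix (Fin 2) (Fin 2) ℝ) (hg : 0 < g.det)
    (hw : ∀ j < 4 * n, wv u (ext (n + 2) (4 * n) A) (j + 1) / wv u (ext (n + 2) (4 * n) A) j ∈
      Complex.slitPlane) : sgA n A (act g u) = sgA n A u := by
  sorry

end Pool.Agent.TR
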