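import Pool.Agent.Helper65.TR.GOOD
import Pool.Agent.Helper65.TR.SGL
import Pool.Agent.Helper65.TR.JDT
import Pool.Agent.Helper65.TR.JDG

/-!
# TRL NRM : invariance of the notions and normal frames

PROOFS. Congruence: everything depends only on the columns `j < 4 n` (`ext` too; `1, 2 < 4 n`).
`right_act`: `om (act g u) x y = det g * om u x y`, `sgA_act` (slit plane by `good_slit`; `u` is
linearly independent because `om u (A 1) (A 2) > 0`), `jj_act`.
`exists_nf`: `g` = inverse of the matrix with the columns `u(A 1)`, `u(A 2)`, `det g = 1 / om`.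
`nf_unique`: `act g u` and `u` both normal gives `g = 1`.
`tpos_gl`, `right_gl`: `det (G x_1, ..., G x_m) = det G det (x_1, ..., x_m)`; with `u' ∘ G = u` the
numbers `u' · (G A j) = u · A j` are the same, so `Sol`, `om`, `sgA` do not change; `jj_gl`.
`rr_gl`: map the finite set by `u ↦ u ∘ G⁻¹`.
-/

set_option autoImplicit false

open Matrix

namespace Pool.Agent.TR

theorem om_act {m : ℕ} {R : Type*} [CommRing R] (g : Matrix (Fin 2) (Fin 2) R)
    (u : Fin 2 → Fin m → R) (x y : Fin m → R) : om (act g u) x y = g.det * om u x y := by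
  simp only [om, act, add_dotProduct, smul_dotProduct, smul_eq_mul, Matrix.det_fin_two]
  ring

theorem li_of_om {m : ℕ} {u : Fin 2 → Fin m → ℝ} {x y : Fin m → ℝ} (h : om u x y ≠ 0) :
    LinearIndependent ℝ u := by
  rw [Fintype.linearIndependent_iff]
  intro g hg
  rw [Fin.sum_univ_two] at hg
  have hx : g 0 * (u 0 ⬝ᵥ x) + g 1 * (u 1 ⬝ᵥ x) = 0 := by
    have := congrArg (fun v => v ⬝ᵥ x) hg
    simpa [add_dotProduct, smul_dotProduct] using this
  have hy : g 0 * (u 0 ⬝ᵥ y) + g 1 * (u 1 ⬝ᵥ y) = 0 := by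
    have := congrArg (fun v => v ⬝ᵥ y) hg
    simpa [add_dotProduct, smul_dotProduct] using this
  have h0 : g 0 * om u x y = 0 := by
    unfold om
    linear_combination (u 1 ⬝ᵥ y) * hx - (u 1 ⬝ᵥ x) * hy
  have h1 : g 1 * om u x y = 0 := by
    unfold om
    linear_combination (u 0 ⬝ᵥ x) * hy - (u 0 ⬝ᵥ y) * hx
  intro i
  fin_cases i
  · exact (mul_eq_zero.mp h0).resolve_right h
  · exact (mul_eq_zero.mp h1).resolve_right h

theorem act_act {m : ℕ} {R : Type*} [CommRing R] (g g' : Matrix (Fin 2) (Fin 2) R)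
    (u : Fin 2 → Fin m → R) : act g (act g' u) = act (g * g') u := by
  funext k
  simp only [act, Matrix.mul_apply, Fin.sum_univ_two]
  module

theorem tpos_congr {m M : ℕ} {A B : ℕ → Fin m → ℝ} (h : ∀ j < M, A j = B j)
    (hA : TPos m M A) : TPos m M B := by
  intro s hs hM
  have := hA s hs hM
  have e : (fun i => A (s i)) = fun i => B (s i) := by
    funext i
    exact h _ (hM i)
  rwa [e] at this

private theorem ext_congr {n : ℕ} (hn : 1 ≤ n) {A B : ℕ → Fin (n + 2) → ℝ}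
    (h : ∀ j < 4 * n, A j = B j) {j : ℕ} (hj : j ≤ 4 * n) :
    ext (n + 2) (4 * n) A j = ext (n + 2) (4 * n) B j := by
  unfold ext
  split_ifs with hj'
  · exact h j hj'
  · have : j - 4 * n = 0 := by omega
    rw [this, h 0 (by omega)]

private theorem sg_congr {m K : ℕ} {w w' : ℕ → ℂ} (h : ∀ j ≤ K, w j = w' j) :
    sg m K w = sg m K w' := by
  have : rot K w = rot K w' := by
    unfold rot
    apply Finset.sum_congr rfl
    intro j hj
    rw [Finset.mem_range] at hj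
    rw [h j hj.le, h (j + 1) hj]
  unfold sg
  rw [this]

private theorem JJ_congr {n : ℕ} {A B : ℕ → Fin (n + 2) → ℝ}
    (h : ∀ j < 4 * n, A j = B j) (x y : Fin (n + 2) → ℝ) (u : Fin 2 → Fin (n + 2) → ℝ) :
    JJ n A x y u = JJ n B x y u := by
  unfold JJ
  congr 1
  funext r c
  unfold Lmat
  rcases r with i | ⟨k, l⟩
  · have hi := i.2
    simp only
    rw [h (2 * i) (by omega), h (2 * i + 1) (by omega)]
  · rfl

theorem right_congr {n : ℕ} (hn : 1 ≤ n) {σ : ℝ} {A B : ℕ → Fin (n + 2) → ℝ}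
    (h : ∀ j < 4 * n, A j = B j) {u : Fin 2 → Fin (n + 2) → ℝ} (hu : RightS n σ A u) :
    RightS n σ B u := by
  obtain ⟨h1, h2, h3⟩ := hu
  refine ⟨?_, ?_, ?_⟩
  · intro i hi
    rw [← h (2 * i) (by omega), ← h (2 * i + 1) (by omega)]
    exact h1 i hi
  · rw [← h 1 (by omega), ← h 2 (by omega)]
    exact h2
  · rw [← h 1 (by omega), ← h 2 (by omega), ← JJ_congr h]
    have : sgA n B u = sgA n A u := by
      unfold sgA
      apply sg_congr
      intro j hj
      unfold wv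
      rw [ext_congr hn h hj]
    rw [this]
    exact h3

theorem rr_congr {n : ℕ} (hn : 1 ≤ n) {σ : ℝ} {A B : ℕ → Fin (n + 2) → ℝ}
    (h : ∀ j < 4 * n, A j = B j) (hA : RR n σ A) : RR n σ B := by
  obtain ⟨h1, U, h2, h3⟩ := hA
  refine ⟨tpos_congr h h1, U, h2, ?_⟩
  intro u hu
  obtain ⟨h4, h5⟩ := h3 u hu
  refine ⟨?_, right_congr hn h h5⟩
  unfold NF at h4 ⊢
  rw [← h 1 (by omega), ← h 2 (by omega)]
  exact h4

theorem right_act {n : ℕ} (hn : 1 ≤ n) {σ : ℝ} {A : ℕ → Fin (n + 2) → ℝ}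
    (hA : TPos (n + 2) (4 * n) A) {u : Fin 2 → Fin (n + 2) → ℝ} (hu : RightS n σ A u)
    (g : Matrix (Fin 2) (Fin 2) ℝ) (hg : 0 < g.det) : RightS n σ A (act g u) := by
  obtain ⟨h1, h2, h3⟩ := hu
  refine ⟨?_, ?_, ?_⟩
  · intro i hi
    rw [om_act, h1 i hi, mul_zero]
  · rw [om_act]
    exact mul_pos hg h2
  · have hsg : sgA n A (act g u) = sgA n A u :=
      sgA_act g hg (fun j hj => good_slit hn hA (li_of_om h2.ne') h1 hj)
    rw [hsg, jj_act g hg.ne']
    have : 0 < g.det ^ n := pow_pos hg n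
    have e : σ * sgA n A u * (g.det ^ n * JJ n A (A 1) (A 2) u) =
        g.det ^ n * (σ * sgA n A u * JJ n A (A 1) (A 2) u) := by ring
    rw [e]
    exact mul_pos this h3

private theorem act_dot {m : ℕ} {R : Type*} [CommRing R] (g : Matrix (Fin 2) (Fin 2) R)
    (u : Fin 2 → Fin m → R) (k : Fin 2) (x : Fin m → R) :
    act g u k ⬝ᵥ x = g k 0 * (u 0 ⬝ᵥ x) + g k 1 * (u 1 ⬝ᵥ x) := by
  simp only [act, add_dotProduct, smul_dotProduct, smul_eq_mul]

theorem exists_nf {n : ℕ} {A : ℕ → Fin (n + 2) → ℝ} {u : Fin 2 → Fin (n + 2) → ℝ}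
    (ho : om u (A 1) (A 2) ≠ 0) :
    ∃ g : Matrix (Fin 2) (Fin 2) ℝ, g.det * om u (A 1) (A 2) = 1 ∧ NF n A (act g u) := by
  have hd : (u 0 ⬝ᵥ A 1) * (u 1 ⬝ᵥ A 2) - (u 1 ⬝ᵥ A 1) * (u 0 ⬝ᵥ A 2) = om u (A 1) (A 2) := rfl
  generalize om u (A 1) (A 2) = D at hd ho ⊢
  refine ⟨!![(u 1 ⬝ᵥ A 2) / D, -(u 0 ⬝ᵥ A 2) / D; -(u 1 ⬝ᵥ A 1) / D, (u 0 ⬝ᵥ A 1) / D], ?_, ?_⟩
  · rw [Matrix.det_fin_two_of]
    field_simp
    linear_combination hd
  · unfold NF
    simp only [act_dot, Matrix.of_apply, Matrix.cons_val', Matrix.cons_val_zero,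
      Matrix.cons_val_one, Matrix.cons_val_fin_one]
    refine ⟨?_, ?_, ?_, ?_⟩
    · field_simp
      linear_combination hd
    · field_simp
      ring
    · field_simp
      ring
    · field_simp
      linear_combination hd

private theorem g_one {R : Type*} [CommRing R] {m : ℕ} {u : Fin 2 → Fin m → R}
    {g : Matrix (Fin 2) (Fin 2) R} (h00 : g 0 0 = 1) (h01 : g 0 1 = 0) (h10 : g 1 0 = 0)
    (h11 : g 1 1 = 1) : act g u = u := by
  funext k
  fin_cases k
  · simp [act, h00, h01]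
  · simp [act, h10, h11]

theorem nf_unique {n : ℕ} {A : ℕ → Fin (n + 2) → ℝ} {u : Fin 2 → Fin (n + 2) → ℝ}
    {g : Matrix (Fin 2) (Fin 2) ℝ} (h1 : NF n A u) (h2 : NF n A (act g u)) : act g u = u := by
  obtain ⟨a1, a2, a3, a4⟩ := h1
  obtain ⟨b1, b2, b3, b4⟩ := h2
  rw [act_dot, a1, a2] at b1
  rw [act_dot, a1, a2] at b2
  rw [act_dot, a3, a4] at b3
  rw [act_dot, a3, a4] at b4
  apply g_one <;> linarith

private theorem cu_dot {m : ℕ} (u : Fin 2 → Fin m → ℝ) (k : Fin 2) (x : Fin m → ℝ) :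
    cu u k ⬝ᵥ cv x = ((u k ⬝ᵥ x : ℝ) : ℂ) := by
  simp only [cu, cv, dotProduct]
  push_cast
  rfl

/-- the complex version: two real normal pairs which are equivalent over `ℂ` are equal. -/
theorem nf_unique_c {n : ℕ} {A : ℕ → Fin (n + 2) → ℝ} {u v : Fin 2 → Fin (n + 2) → ℝ}
    {g : Matrix (Fin 2) (Fin 2) ℂ} (h1 : NF n A u) (h2 : NF n A v) (h : cu v = act g (cu u)) :
    v = u := by
  obtain ⟨a1, a2, a3, a4⟩ := h1
  obtain ⟨b1, b2, b3, b4⟩ := h2
  have c1 := cu_dot v 0 (A 1)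
  have c2 := cu_dot v 1 (A 1)
  have c3 := cu_dot v 0 (A 2)
  have c4 := cu_dot v 1 (A 2)
  rw [h, act_dot, cu_dot, cu_dot, a1, a2, b1] at c1
  rw [h, act_dot, cu_dot, cu_dot, a1, a2, b2] at c2
  rw [h, act_dot, cu_dot, cu_dot, a3, a4, b3] at c3
  rw [h, act_dot, cu_dot, cu_dot, a3, a4, b4] at c4
  have hg : act g (cu u) = cu u := by
    apply g_one
    · simpa using c1
    · simpa using c3
    · simpa using c2
    · simpa using c4
  rw [hg] at h
  funext k j
  have := congrFun (congrFun h k) j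
  simp only [cu] at this
  exact_mod_cast this

private theorem dot_gl {m : ℕ} (G : Matrix (Fin m) (Fin m) ℝ) {v v' : Fin m → ℝ}
    (h : v' ᵥ* G = v) (x : Fin m → ℝ) : v' ⬝ᵥ (G *ᵥ x) = v ⬝ᵥ x := by
  rw [Matrix.dotProduct_mulVec, h]

theorem rr_gl {n : ℕ} (hn : 1 ≤ n) {σ : ℝ} {A : ℕ → Fin (n + 2) → ℝ}
    (G : Matrix (Fin (n + 2)) (Fin (n + 2)) ℝ) (hG : 0 < G.det)
    (hA : RR n σ A) : RR n σ (fun j => G *ᵥ A j) := by
  classical
  obtain ⟨h1, U, h2, h3⟩ := hA
  have hunit : IsUnit G.det := hG.ne'.isUnit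
  set f : (Fin 2 → Fin (n + 2) → ℝ) → (Fin 2 → Fin (n + 2) → ℝ) :=
    fun u k => (u k) ᵥ* G⁻¹ with hf
  have hfG : ∀ u k, (f u k) ᵥ* G = u k := by
    intro u k
    rw [hf]
    simp only
    rw [Matrix.vecMul_vecMul, Matrix.nonsing_inv_mul G hunit, Matrix.vecMul_one]
  have hinj : Function.Injective f := by
    intro u v huv
    funext k
    rw [← hfG u k, ← hfG v k, huv]
  refine ⟨?_, U.image f, ?_, ?_⟩
  · intro s hs hM
    have h4 := h1 s hs hM
    have e : dt (fun i => G *ᵥ A (s i)) = G.det * dt (fun i => A (s i)) := by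
      unfold dt
      have : (Matrix.of fun i => G *ᵥ A (s i)) = (Matrix.of fun i => A (s i)) * Gᵀ := by
        ext i j
        simp only [Matrix.of_apply, Matrix.mul_apply, Matrix.mulVec, dotProduct,
          Matrix.transpose_apply]
        apply Finset.sum_congr rfl
        intro k _
        ring
      rw [this, Matrix.det_mul, Matrix.det_transpose, mul_comm]
    rw [e]
    exact mul_pos hG h4
  · rw [Finset.card_image_of_injective _ hinj, h2]
  · intro u' hu'
    rw [Finset.mem_image] at hu'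
    obtain ⟨u, hu, rfl⟩ := hu'
    obtain ⟨h4, h5, h6, h7⟩ := h3 u hu
    have hd : ∀ k x, f u k ⬝ᵥ (G *ᵥ x) = u k ⬝ᵥ x := fun k x => dot_gl G (hfG u k) x
    have hom : ∀ x y, om (f u) (G *ᵥ x) (G *ᵥ y) = om u x y := by
      intro x y
      unfold om
      rw [hd, hd, hd, hd]
    refine ⟨?_, ?_, ?_, ?_⟩
    · unfold NF at h4 ⊢
      simp only [hd]
      exact h4
    · intro i hi
      simp only [hom]
      exact h5 i hi
    · simp only [hom]
      exact h6
    · have hsg : sgA n (fun j => G *ᵥ A j) (f u) = sgA n A u := by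
        unfold sgA
        apply sg_congr
        intro j _
        unfold wv ext
        split_ifs with hj
        · simp only [hd]
        · simp only [dotProduct_smul, hd]
      simp only [hsg]
      rw [jj_gl G (hfG u)]
      have : 0 < G.det ^ 2 := by positivity
      have e : σ * sgA n A u * (G.det ^ 2 * JJ n A (A 1) (A 2) u) =
          G.det ^ 2 * (σ * sgA n A u * JJ n A (A 1) (A 2) u) := by ring
      rw [e]
      exact mul_pos this h7

end Pool.Agent.TR
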