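import Pool.Agent.Helper65.TR.IFT
import Pool.Agent.Helper65.TR.NRM

/-!
# TRL ARC : the solution curve of all conditions but one

`EqsC`: all conditions except number `i0`, and the gauge `u(x0) = (1, 0)`, `u(y0) = (0, 1)`.
`ellC ℓ u = Σ ℓ_(k,j) u_(k,j)`.

PROOF.  Over `ℝ` the `2 n - 1 + 4 = 2 (n + 2) - 1` functionals `dom u0 · (pair i)` (`i ≠ i0`),
`h ↦ h_k · x0`, `h ↦ h_k · y0` are linearly independent: apply a vanishing combination to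
`h = act g u0`: `dom u0 (act g u0) a b = tr(g) om u0 a b = 0` for the pairs, and
`(act g u0)(x0) = g e_1`, `(act g u0)(y0) = g e_2` are arbitrary, so the coefficients of the gauge
functionals vanish; then `hind`.  Choose a real functional `ℓ` which completes them to a basis.  The
polynomial map `Ψ : u ↦ (equations, ellC ℓ (u - u0))` on `ℂ^(2(n+2))` has an invertible derivative at
`cu u0` (a real matrix invertible over `ℝ`), so it is a local biholomorphism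
(`ContDiffAt.toOpenPartialHomeomorph` over `ℂ`, the inverse is `ContDiffAt ℂ`, and with invertible
derivative on the whole source after shrinking).  `U x = Ψ⁻¹(0, x)`.  Injectivity of `Ψ` near `u0`
gives the last statement and, since `conj (U x)` solves the equations with the parameter `conj x`,
`U x` is real for real `x`.  The fourth statement is the invertibility of the derivative at `U x`.
-/

set_option autoImplicit false

open Matrix Metric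

namespace Pool.Agent.TR

def EqsC (n : ℕ) (A : ℕ → Fin (n + 2) → ℝ) (i0 : ℕ) (x0 y0 : Fin (n + 2) → ℝ)
    (u : Fin 2 → Fin (n + 2) → ℂ) : Prop :=
  (∀ i < 2 * n, i ≠ i0 → om u (cv (A (2 * i))) (cv (A (2 * i + 1))) = 0) ∧
    u 0 ⬝ᵥ cv x0 = 1 ∧ u 1 ⬝ᵥ cv x0 = 0 ∧ u 0 ⬝ᵥ cv y0 = 0 ∧ u 1 ⬝ᵥ cv y0 = 1

def ellC {n : ℕ} (l : Fin 2 → Fin (n + 2) → ℝ) (u : Fin 2 → Fin (n + 2) → ℂ) : ℂ :=
  ∑ k, ∑ j, (l k j : ℂ) * u k j

/-- linear independence of the differentials of all conditions but number `i0`. -/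
def Ind0 (n : ℕ) (A : ℕ → Fin (n + 2) → ℝ) (i0 : ℕ) (u : Fin 2 → Fin (n + 2) → ℝ) : Prop :=
  ∀ β : ℕ → ℝ, (∀ h : Fin 2 → Fin (n + 2) → ℝ,
    ∑ i ∈ (Finset.range (2 * n)).filter (· ≠ i0), β i * dom u h (A (2 * i)) (A (2 * i + 1)) = 0) →
    ∀ i < 2 * n, i ≠ i0 → β i = 0

theorem arc {n : ℕ} {A : ℕ → Fin (n + 2) → ℝ} {i0 : ℕ} (hi0 : i0 < 2 * n)
    {u0 : Fin 2 → Fin (n + 2) → ℝ} {x0 y0 : Fin (n + 2) → ℝ}
    (hE : EqsC n A i0 x0 y0 (cu u0)) (hind : Ind0 n A i0 u0) :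
    ∃ (δ : ℝ) (U : ℂ → Fin 2 → Fin (n + 2) → ℂ) (l : Fin 2 → Fin (n + 2) → ℝ), 0 < δ ∧
      DifferentiableOn ℂ U (ball 0 δ) ∧ U 0 = cu u0 ∧
      (∀ x ∈ ball (0 : ℂ) δ, EqsC n A i0 x0 y0 (U x)) ∧
      (∀ x ∈ ball (0 : ℂ) δ, ellC l (U x) = ellC l (cu u0) + x) ∧
      (∀ x : ℝ, |x| < δ → ∃ v : Fin 2 → Fin (n + 2) → ℝ, U x = cu v) ∧
      (∀ x ∈ ball (0 : ℂ) δ, ∀ h : Fin 2 → Fin (n + 2) → ℂ,
        (∀ i < 2 * n, i ≠ i0 → dom (U x) h (cv (A (2 * i))) (cv (A (2 * i + 1))) = 0) →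
        (∀ k, h k ⬝ᵥ cv x0 = 0) → (∀ k, h k ⬝ᵥ cv y0 = 0) → ellC l h = 0 → h = 0) ∧
      ∃ ρ : ℝ, 0 < ρ ∧ ∀ u, dist u (cu u0) < ρ → EqsC n A i0 x0 y0 u →
        ∃ x ∈ ball (0 : ℂ) δ, u = U x := by
  sorry

end Pool.Agent.TR
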