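import Mathlib

/-!
# TRL ASY : comparison of leading coefficients

PROOF. Put `m = n + 2`, `q = r + K`.  `C(m+q-1, q)^2 - C(m+q, q+1) C(m+q-2, q-1)
= C(m+q-1, q)^2 (m-1) / ((q+1)(m+q-1))` (a polynomial in `q` of degree `2 n` with leading
coefficient `(n+1)/((n+1)!)^2 = catalan n / (2n)!`), and `C(K+2n, 2n)` is a polynomial in `K` of
degree `2 n` with leading coefficient `1/(2n)!`.  Divide by `K^(2n)` and let `K → ∞` :
`r/(2n)! ≤ catalan n/(2n)!`.
(`catalan n = C(2n, n)/(n+1)`: `Nat.succ_mul_catalan_eq_centralBinom`.)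
One can also bound elementarily: `C(K+2n,2n) ≥ K^(2n)/(2n)!`,
`C(n+1+q, q) = C(n+1+q, n+1) ≤ (q+n+1)^(n+1)/(n+1)!`.
-/

set_option autoImplicit false

open Filter Topology

namespace Pool.Agent.TR

theorem asy_cat (n : ℕ) : (n + 1) * (2 * n).factorial =
    catalan n * ((n + 1).factorial * (n + 1).factorial) := by
  have h1 : (n + 1) * catalan n = (2 * n).choose n := by
    have := succ_mul_catalan_eq_centralBinom n
    rw [Nat.centralBinom] at this
    exact this
  have h2 : (2 * n).choose n * n.factorial * (2 * n - n).factorial = (2 * n).factorial :=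
    Nat.choose_mul_factorial_mul_factorial (by omega)
  have h3 : 2 * n - n = n := by omega
  rw [h3, ← h1] at h2
  rw [← h2, Nat.factorial_succ]
  ring

theorem asy_nat {n r : ℕ}
    (h : ∀ K : ℕ, 1 ≤ K → r * (K + 2 * n).choose (2 * n) +
      (n + 2 + (r + K)).choose (r + K + 1) * (n + 2 + (r + K) - 2).choose (r + K - 1) ≤
        ((n + 2 + (r + K) - 1).choose (r + K)) ^ 2) (K : ℕ) (hK : 1 ≤ K) :
    r * K ^ (2 * n) ≤ catalan n * (r + K + n + 1) ^ (2 * n) := by
  have h0 := h K hK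
  obtain ⟨p, hp⟩ : ∃ p, r + K = p + 1 := ⟨r + K - 1, by omega⟩
  rw [hp] at h0 ⊢
  have e1 : n + 2 + (p + 1) - 2 = n + p + 1 := by omega
  have e2 : n + 2 + (p + 1) - 1 = n + p + 2 := by omega
  have e3 : p + 1 - 1 = p := by omega
  rw [e1, e2, e3] at h0
  have e4 : n + 2 + (p + 1) = n + p + 3 := by omega
  rw [e4] at h0
  -- relations between the binomials
  have r1 : (n + p + 3) * (n + p + 2).choose (p + 1) =
      (n + p + 3).choose (p + 1 + 1) * (p + 2) := Nat.add_one_mul_choose_eq (n + p + 2) (p + 1)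
  have r2 : (n + p + 2) * (n + p + 1).choose p = (n + p + 2).choose (p + 1) * (p + 1) :=
    Nat.add_one_mul_choose_eq (n + p + 1) p
  set a := (n + p + 2).choose (p + 1) with ha
  set A := (n + p + 3).choose (p + 1 + 1) with hA
  set B := (n + p + 1).choose p with hB
  set C := (K + 2 * n).choose (2 * n) with hC
  have s1 : r * C * ((p + 2) * (n + p + 2)) ≤ (n + 1) * a ^ 2 := by
    have t1 : (r * C + A * B) * ((p + 2) * (n + p + 2)) ≤
        a ^ 2 * ((p + 2) * (n + p + 2)) := Nat.mul_le_mul_right _ h0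
    have t2 : A * B * ((p + 2) * (n + p + 2)) = a ^ 2 * ((n + p + 3) * (p + 1)) := by
      calc A * B * ((p + 2) * (n + p + 2)) = (A * (p + 2)) * ((n + p + 2) * B) := by ring
        _ = ((n + p + 3) * a) * (a * (p + 1)) := by rw [r1, r2]
        _ = a ^ 2 * ((n + p + 3) * (p + 1)) := by ring
    have t3 : a ^ 2 * ((p + 2) * (n + p + 2)) =
        a ^ 2 * ((n + p + 3) * (p + 1)) + (n + 1) * a ^ 2 := by ring
    rw [add_mul, t2, t3] at t1
    omega
  -- the factorial form
  have f1 : (p + 2).ascFactorial (n + 1) = (n + 1).factorial * a := by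
    have := Nat.ascFactorial_eq_factorial_mul_choose (p + 1) (n + 1)
    rw [show p + 1 + 1 = p + 2 from rfl] at this
    rw [this, ha]
    congr 1
    rw [show n + p + 2 = (p + 1) + (n + 1) by ring]
    exact Nat.choose_symm_add.symm
  have f2 : (p + 2).ascFactorial (n + 1) ≤ (n + p + 2) * (n + p + 2) ^ n := by
    rw [Nat.ascFactorial_succ]
    have := Nat.ascFactorial_le_pow_add (p + 1) n
    calc (p + 2 + n) * (p + 2).ascFactorial n ≤ (p + 2 + n) * (p + 1 + n) ^ n :=
          Nat.mul_le_mul_left _ this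
      _ ≤ (p + 2 + n) * (n + p + 2) ^ n :=
          Nat.mul_le_mul_left _ (Nat.pow_le_pow_left (by omega) n)
      _ = (n + p + 2) * (n + p + 2) ^ n := by rw [show p + 2 + n = n + p + 2 by ring]
  have f3 : (p + 2).ascFactorial (n + 1) ≤ (p + 2) * (n + p + 2) ^ n := by
    rw [Nat.ascFactorial_succ, ← Nat.succ_ascFactorial]
    have := Nat.ascFactorial_le_pow_add (p + 2) n
    refine Nat.mul_le_mul_left _ (this.trans ?_)
    rw [show p + 2 + n = n + p + 2 by ring]
  have f4 : (2 * n).factorial * C = (K + 1).ascFactorial (2 * n) := by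
    rw [Nat.ascFactorial_eq_factorial_mul_choose]
  have f5 : K ^ (2 * n) ≤ (2 * n).factorial * C := by
    rw [f4]
    refine le_trans (Nat.pow_le_pow_left (by omega) _) (Nat.pow_succ_le_ascFactorial (K + 1) (2 * n))
  -- combine
  set F := (p + 2).ascFactorial (n + 1) with hF
  set g := (n + 1).factorial with hg
  have gpos : 0 < g := Nat.factorial_pos _
  have s2 : r * ((2 * n).factorial * C) * (g * g) * ((p + 2) * (n + p + 2)) ≤
      catalan n * (n + p + 2) ^ (2 * n) * (g * g) * ((p + 2) * (n + p + 2)) := by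
    calc r * ((2 * n).factorial * C) * (g * g) * ((p + 2) * (n + p + 2)) =
          (2 * n).factorial * (g * g) * (r * C * ((p + 2) * (n + p + 2))) := by ring
      _ ≤ (2 * n).factorial * (g * g) * ((n + 1) * a ^ 2) := Nat.mul_le_mul_left _ s1
      _ = ((n + 1) * (2 * n).factorial) * ((g * a) * (g * a)) := by ring
      _ = ((n + 1) * (2 * n).factorial) * (F * F) := by rw [f1]
      _ ≤ ((n + 1) * (2 * n).factorial) *
          (((n + p + 2) * (n + p + 2) ^ n) * ((p + 2) * (n + p + 2) ^ n)) :=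
          Nat.mul_le_mul_left _ (Nat.mul_le_mul f2 f3)
      _ = catalan n * (n + p + 2) ^ (2 * n) * (g * g) * ((p + 2) * (n + p + 2)) := by
          rw [asy_cat n, two_mul n, pow_add]
          ring
  have s3 := Nat.le_of_mul_le_mul_right s2 (by positivity)
  have s4 := Nat.le_of_mul_le_mul_right s3 (by positivity)
  calc r * K ^ (2 * n) ≤ r * ((2 * n).factorial * C) := Nat.mul_le_mul_left _ f5
    _ ≤ catalan n * (n + p + 2) ^ (2 * n) := s4
    _ = catalan n * (p + 1 + n + 1) ^ (2 * n) := by rw [show p + 1 + n + 1 = n + p + 2 by ring]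

theorem asy {n r : ℕ}
    (h : ∀ K : ℕ, 1 ≤ K → r * (K + 2 * n).choose (2 * n) +
      (n + 2 + (r + K)).choose (r + K + 1) * (n + 2 + (r + K) - 2).choose (r + K - 1) ≤
        ((n + 2 + (r + K) - 1).choose (r + K)) ^ 2) : r ≤ catalan n := by
  have key : ∀ K : ℕ, 1 ≤ K →
      (r : ℝ) ≤ (catalan n : ℝ) * (1 + ((r : ℝ) + n + 1) / (K : ℝ)) ^ (2 * n) := by
    intro K hK
    have h1 := asy_nat h K hK
    have h2 : (r : ℝ) * (K : ℝ) ^ (2 * n) ≤
        (catalan n : ℝ) * ((r : ℝ) + K + n + 1) ^ (2 * n) := by exact_mod_cast h1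
    have hK0 : (0 : ℝ) < (K : ℝ) := by exact_mod_cast hK
    have h3 : (1 + ((r : ℝ) + n + 1) / (K : ℝ)) ^ (2 * n) =
        ((r : ℝ) + K + n + 1) ^ (2 * n) / (K : ℝ) ^ (2 * n) := by
      rw [← div_pow]
      congr 1
      field_simp
      ring
    rw [h3, ← mul_div_assoc, le_div_iff₀ (by positivity)]
    exact h2
  have lim : Tendsto (fun K : ℕ =>
      (catalan n : ℝ) * (1 + ((r : ℝ) + n + 1) / (K : ℝ)) ^ (2 * n)) atTop
      (𝓝 ((catalan n : ℝ) * (1 + 0) ^ (2 * n))) := by
    refine Tendsto.const_mul _ (Tendsto.pow (Tendsto.const_add _ ?_) _)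
    exact tendsto_const_div_atTop_nhds_zero_nat _
  have h1 : (r : ℝ) ≤ (catalan n : ℝ) * (1 + 0) ^ (2 * n) :=
    ge_of_tendsto lim (eventually_atTop.2 ⟨1, key⟩)
  rw [add_zero, one_pow, mul_one] at h1
  exact_mod_cast h1

end Pool.Agent.TR
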