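import Pool.Agent.Helper65.TR.CORE

/-!
# TRL BAD : generic configurations satisfy `Gen`

PROOF.  Let `¬ Gen n c j0`, `i0 = j0 / 2`: there are `u` (independent), `y` with `c' = update c j0 y`
totally positive and `u` a solution of `c'`, and `β` with `Σ_(i ≠ i0) β_i dom u h (pair i) = 0` for
all `h`, not all `β_i = 0` (`i < 2 n`, `i ≠ i0`).  Write `a_i, b_i` for the pair `i ≠ i0` (the same for
`c` and `c'`).  By `good_pos` `u(b_i) = c_i u(a_i)`, `c_i > 0`, `e_i = u(a_i) ≠ 0` (`good_ne`).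
`v_i = c_i a_i - b_i ∈ ker u`.  `dom u h a_i b_i = - det(e_i, h(v_i))`, so the relation says
`Σ β_i e_i ⊗ v_i = 0` in `ℝ^2 ⊗ ℝ^m`.
(1) There are `i, j ≠ i0` with `β_i, β_j ≠ 0` and `e_i, e_j` not parallel: otherwise all `e_i` with
`i ∈ I = supp β` are multiples of one vector `e`, and `Σ_(i∈I) β_i λ_i v_i = 0` (`e_i = λ_i e`), a
nontrivial relation between the `2 |I|` columns `a_i, b_i`, `i ∈ I`; if `2 |I| ≤ m` this contradicts
total positivity (extend to `m` columns, `4 n ≥ m`); if `2 |I| ≥ m` the functional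
`x ↦ det(e, u(x))` kills `≥ m` columns, hence is `0`, but `u` is independent and `e ≠ 0`.
(2) Multiply `u` by an invertible matrix such that `u` is the identity at two coordinates `p, q`;
this keeps everything (the relation is invariant).  Scale `β` such that `β_i det(e_j, e_i) = -1`.
Applying `det(e_j, ·)` and `det(e_i, ·)` to the relation:
`v_i = Σ_(l ≠ i,j,i0) β_l det(e_j, e_l) v_l`,
`v_j = μ Σ_(l ≠ i,j,i0) β_l det(e_i, e_l) v_l`, `μ = -1/(β_j det(e_i, e_j))`.
So `c` (outside the pair `i0`) is the value of a polynomial map at the parameters: the entries of `u`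
outside the columns `p, q` (`2 n`), the `a_l` (`l ≠ i0`) and `c_l`, the coordinates of `v_l ∈ ker u`
outside `p, q` for `l ≠ i, j, i0` (`n` each; `ker u` is the graph of a linear map depending
polynomially on `u`), the `β_l` (`l ≠ i, j, i0`) and `μ`; `e_l = u(a_l)`, `b_l = c_l a_l - v_l`.
Number of parameters, `N = 2 n`: `2n + (N-1) m + (N-1) + (N-3) n + (N-3) + 1 = 2 m (N-1) - 1`
(`m = n + 2`).  With the pair `i0` as `2 m` further free parameters this is a polynomial (`C^1`) map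
from a space of dimension `2 m N - 1 = dim (Cf n) - 1` into `Cf n`.
(For `n = 1` there is only one `i ≠ i0`, so (1) is impossible and `Gen` always holds.)
(3) So the set of `c` with `¬ Gen n c j0` for some `j0` is contained in a finite union of ranges of
`C^1` maps from spaces of smaller dimension; its Hausdorff dimension is `< dim`
(`ContDiff.dimH_range_le`, `dimH_union`, `dimH_iUnion`), so the complement is dense
(`dense_compl_of_dimH_lt_finrank`).
-/

set_option autoImplicit false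

namespace Pool.Agent.TR

open Matrix

private theorem bad_indep {m M : ℕ} {A : ℕ → Fin m → ℝ} (hA : TPos m M A) (hM : m ≤ M)
    (S : Finset ℕ) (hS : ∀ j ∈ S, j < M) (hc : S.card ≤ m) (g : ℕ → ℝ)
    (h : ∑ j ∈ S, g j • A j = 0) : ∀ j ∈ S, g j = 0 := by
  classical
  have hsub : S ⊆ Finset.range M := fun j hj => Finset.mem_range.mpr (hS j hj)
  obtain ⟨T, hST, hTM, hT⟩ := Finset.exists_subsuperset_card_eq hsub hc
    (by rw [Finset.card_range]; exact hM)
  set s := T.orderEmbOfFin hT with hs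
  have hdet : 0 < dt (fun i => A (s i)) := by
    refine hA s s.strictMono fun i => ?_
    exact Finset.mem_range.mp (hTM (Finset.orderEmbOfFin_mem T hT i))
  have hli : LinearIndependent ℝ (fun i : Fin m => A (s i)) := by
    have := Matrix.linearIndependent_rows_of_det_ne_zero (A := Matrix.of fun i => A (s i))
      (ne_of_gt hdet)
    exact this
  rw [Fintype.linearIndependent_iff] at hli
  have hsum : ∑ i : Fin m, (if s i ∈ S then g (s i) else 0) • A (s i) = 0 := by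
    have e1 : ∑ i : Fin m, (if s i ∈ S then g (s i) else 0) • A (s i)
        = ∑ j ∈ T, (if j ∈ S then g j else 0) • A j := by
      have hmap : Finset.univ.map (T.orderEmbOfFin hT).toEmbedding = T :=
        Finset.map_orderEmbOfFin_univ T hT
      conv_rhs => rw [← hmap]
      rw [Finset.sum_map]
      rfl
    rw [e1]
    have e2 : ∀ j ∈ T, (if j ∈ S then g j else 0) • A j = if j ∈ S then g j • A j else 0 := by
      intro j _
      split_ifs
      · rfl
      · rw [zero_smul]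
    rw [Finset.sum_congr rfl e2, ← Finset.sum_filter]
    have e3 : T.filter (· ∈ S) = S := by
      ext j
      rw [Finset.mem_filter]
      exact ⟨fun h => h.2, fun h => ⟨hST h, h⟩⟩
    rw [e3, h]
  intro j hj
  have hjT := hST hj
  have hjr : j ∈ Set.range s := by
    rw [hs, Finset.range_orderEmbOfFin]
    exact hjT
  obtain ⟨i, hi⟩ := hjr
  have := hli _ hsum i
  rw [hi, if_pos hj] at this
  exact this

private theorem bad_zero {m M : ℕ} {A : ℕ → Fin m → ℝ} (hA : TPos m M A)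
    (S : Finset ℕ) (hS : ∀ j ∈ S, j < M) (hc : m ≤ S.card) (φ : Fin m → ℝ)
    (h : ∀ j ∈ S, φ ⬝ᵥ A j = 0) : φ = 0 := by
  classical
  obtain ⟨T, hTS, hT⟩ := Finset.exists_subset_card_eq hc
  set s := T.orderEmbOfFin hT with hs
  have hmem : ∀ i, s i ∈ T := fun i => Finset.orderEmbOfFin_mem T hT i
  have hdet : 0 < dt (fun i => A (s i)) := by
    refine hA s s.strictMono fun i => ?_
    exact hS _ (hTS (hmem i))
  refine Matrix.eq_zero_of_mulVec_eq_zero (M := Matrix.of fun i => A (s i)) (ne_of_gt hdet) ?_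
  funext i
  rw [Matrix.mulVec, dotProduct_comm]
  exact h _ (hTS (hmem i))

/-- two active pairs with non-parallel images. -/
private theorem bad_pair {n : ℕ} {A : ℕ → Fin (n + 2) → ℝ} (hn : 1 ≤ n)
    (hA : TPos (n + 2) (4 * n) A)
    {u : Fin 2 → Fin (n + 2) → ℝ} (hu : LinearIndependent ℝ u)
    (hne : ∀ j < 4 * n, ¬ (u 0 ⬝ᵥ A j = 0 ∧ u 1 ⬝ᵥ A j = 0))
    (cl : ℕ → ℝ) (hcl : ∀ l < 2 * n, ∀ k, u k ⬝ᵥ A (2 * l + 1) = cl l * (u k ⬝ᵥ A (2 * l)))
    (F : Finset ℕ) (hF : ∀ l ∈ F, l < 2 * n) (β : ℕ → ℝ)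
    (hrel : ∀ k, ∑ l ∈ F, (β l * (u k ⬝ᵥ A (2 * l))) • (cl l • A (2 * l) - A (2 * l + 1)) = 0)
    {i1 : ℕ} (hi1 : i1 ∈ F) (hb : β i1 ≠ 0) :
    ∃ i ∈ F, ∃ j ∈ F, β i ≠ 0 ∧ β j ≠ 0 ∧ om u (A (2 * i)) (A (2 * j)) ≠ 0 := by
  classical
  by_contra hcon
  push Not at hcon
  set I := F.filter (fun l => β l ≠ 0) with hI
  have hi1I : i1 ∈ I := Finset.mem_filter.mpr ⟨hi1, hb⟩
  have hIlt : ∀ l ∈ I, l < 2 * n := fun l hl => hF l (Finset.mem_filter.mp hl).1
  set S := I.image (fun l => 2 * l) ∪ I.image (fun l => 2 * l + 1) with hS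
  have hSlt : ∀ j ∈ S, j < 4 * n := by
    intro j hj
    rw [hS, Finset.mem_union, Finset.mem_image, Finset.mem_image] at hj
    rcases hj with ⟨l, hl, rfl⟩ | ⟨l, hl, rfl⟩
    · have := hIlt l hl; omega
    · have := hIlt l hl; omega
  have hzero : ∀ l ∈ I, om u (A (2 * i1)) (A (2 * l)) = 0 := by
    intro l hl
    rw [hI, Finset.mem_filter] at hl
    exact hcon i1 hi1 l hl.1 hb hl.2
  rcases le_total (n + 2) S.card with hc | hc
  · -- the functional vanishes
    have hφ : (u 0 ⬝ᵥ A (2 * i1)) • u 1 - (u 1 ⬝ᵥ A (2 * i1)) • u 0 = 0 := by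
      refine bad_zero hA S hSlt hc _ ?_
      intro j hj
      rw [hS, Finset.mem_union, Finset.mem_image, Finset.mem_image] at hj
      rcases hj with ⟨l, hl, rfl⟩ | ⟨l, hl, rfl⟩
      · have h1 := hzero l hl
        rw [om] at h1
        rw [sub_dotProduct, smul_dotProduct, smul_dotProduct, smul_eq_mul, smul_eq_mul]
        exact h1
      · have h1 := hzero l hl
        rw [om] at h1
        rw [sub_dotProduct, smul_dotProduct, smul_dotProduct, smul_eq_mul, smul_eq_mul,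
          hcl l (hIlt l hl) 0, hcl l (hIlt l hl) 1]
        linear_combination (cl l) * h1
    rw [Fintype.linearIndependent_iff] at hu
    have h2 := hu ![-(u 1 ⬝ᵥ A (2 * i1)), u 0 ⬝ᵥ A (2 * i1)] (by
      rw [Fin.sum_univ_two]
      simp only [Matrix.cons_val_zero, Matrix.cons_val_one]
      rw [neg_smul, neg_add_eq_sub]
      exact hφ)
    have h3 := h2 0
    have h4 := h2 1
    simp only [Matrix.cons_val_zero, Matrix.cons_val_one, neg_eq_zero] at h3 h4
    exact hne (2 * i1) (by have := hIlt i1 hi1I; omega) ⟨h4, h3⟩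
  · -- the relation is nontrivial
    obtain ⟨k, hk⟩ : ∃ k, u k ⬝ᵥ A (2 * i1) ≠ 0 := by
      by_contra hno
      push Not at hno
      exact hne (2 * i1) (by have := hIlt i1 hi1I; omega) ⟨hno 0, hno 1⟩
    set g : ℕ → ℝ := fun j => if j % 2 = 0 then β (j / 2) * (u k ⬝ᵥ A (2 * (j / 2))) * cl (j / 2)
      else - (β (j / 2) * (u k ⬝ᵥ A (2 * (j / 2)))) with hg
    have hg0 : ∀ l, g (2 * l) = β l * (u k ⬝ᵥ A (2 * l)) * cl l := by
      intro l
      have e1 : 2 * l % 2 = 0 := by omega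
      have e2 : 2 * l / 2 = l := by omega
      simp only [hg, e1, e2, if_true]
    have hg1 : ∀ l, g (2 * l + 1) = - (β l * (u k ⬝ᵥ A (2 * l))) := by
      intro l
      have e1 : (2 * l + 1) % 2 ≠ 0 := by omega
      have e2 : (2 * l + 1) / 2 = l := by omega
      simp only [hg, e1, e2, if_false]
    have hsum : ∑ j ∈ S, g j • A j = 0 := by
      rw [hS, Finset.sum_union, Finset.sum_image, Finset.sum_image, ← Finset.sum_add_distrib]
      · have e1 : ∀ l ∈ I, g (2 * l) • A (2 * l) + g (2 * l + 1) • A (2 * l + 1) =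
            (β l * (u k ⬝ᵥ A (2 * l))) • (cl l • A (2 * l) - A (2 * l + 1)) := by
          intro l _
          rw [hg0, hg1, smul_sub, smul_smul, neg_smul]
          abel
        rw [Finset.sum_congr rfl e1, ← hrel k, hI]
        refine Finset.sum_subset (Finset.filter_subset _ _) fun l hl hl' => ?_
        have : β l = 0 := by
          by_contra hne'
          exact hl' (Finset.mem_filter.mpr ⟨hl, hne'⟩)
        rw [this, zero_mul, zero_smul]
      · intro x _ y _ hxy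
        simp only at hxy
        omega
      · intro x _ y _ hxy
        simp only at hxy
        omega
      · rw [Finset.disjoint_left]
        intro x hx hx'
        rw [Finset.mem_image] at hx hx'
        obtain ⟨a, _, ha⟩ := hx
        obtain ⟨b, _, hb'⟩ := hx'
        omega
    have hmem : 2 * i1 + 1 ∈ S := by
      rw [hS, Finset.mem_union]
      exact Or.inr (Finset.mem_image.mpr ⟨i1, hi1I, rfl⟩)
    have h0 := bad_indep hA (by omega) S hSlt hc g hsum _ hmem
    rw [hg1, neg_eq_zero] at h0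
    exact (mul_ne_zero hb hk) h0

private abbrev BK (n : ℕ) (i0 : Fin (2 * n)) := {l : Fin (2 * n) // l ≠ i0}
private abbrev BL (n : ℕ) (i0 i j : Fin (2 * n)) := {l : Fin (2 * n) // l ≠ i0 ∧ l ≠ i ∧ l ≠ j}
private abbrev BR (n : ℕ) (p q : Fin (n + 2)) := {r : Fin (n + 2) // r ≠ p ∧ r ≠ q}

/-- the parameters. -/
private abbrev BP (n : ℕ) (i0 i j : Fin (2 * n)) (p q : Fin (n + 2)) :=
  (Fin 2 → BR n p q → ℝ) × (BK n i0 → Fin (n + 2) → ℝ) × (BK n i0 → ℝ) ×
    (BL n i0 i j → BR n p q → ℝ) × (BL n i0 i j → ℝ) × ℝ × (Fin 2 → Fin (n + 2) → ℝ)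

/-- the parameters extended by zero. -/
private abbrev BF (n : ℕ) :=
  (Fin 2 → Fin (n + 2) → ℝ) × (Fin (2 * n) → Fin (n + 2) → ℝ) × (Fin (2 * n) → ℝ) ×
    (Fin (2 * n) → Fin (n + 2) → ℝ) × (Fin (2 * n) → ℝ) × ℝ × (Fin 2 → Fin (n + 2) → ℝ)

private def bi (n : ℕ) (i0 i j : Fin (2 * n)) (p q : Fin (n + 2)) (x : BP n i0 i j p q) : BF n :=
  (fun k r => if h : r ≠ p ∧ r ≠ q then x.1 k ⟨r, h⟩ else 0,
   fun l r => if h : l ≠ i0 then x.2.1 ⟨l, h⟩ r else 0,
   fun l => if h : l ≠ i0 then x.2.2.1 ⟨l, h⟩ else 0,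
   fun l r => if h : (l ≠ i0 ∧ l ≠ i ∧ l ≠ j) ∧ (r ≠ p ∧ r ≠ q) then
     x.2.2.2.1 ⟨l, h.1⟩ ⟨r, h.2⟩ else 0,
   fun l => if h : l ≠ i0 ∧ l ≠ i ∧ l ≠ j then x.2.2.2.2.1 ⟨l, h⟩ else 0,
   x.2.2.2.2.2.1, x.2.2.2.2.2.2)

private theorem bi_contDiff (n : ℕ) (i0 i j : Fin (2 * n)) (p q : Fin (n + 2)) :
    ContDiff ℝ 1 (bi n i0 i j p q) := by
  unfold bi
  refine ContDiff.prodMk ?_ (ContDiff.prodMk ?_ (ContDiff.prodMk ?_ (ContDiff.prodMk ?_
    (ContDiff.prodMk ?_ (ContDiff.prodMk ?_ ?_)))))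
  · refine contDiff_pi.2 fun k => contDiff_pi.2 fun r => ?_
    by_cases h : r ≠ p ∧ r ≠ q
    · simp only [h, dif_pos, and_self, ne_eq, not_false_eq_true]
      fun_prop
    · simp only [h, dif_neg, not_false_eq_true]
      exact contDiff_const
  · refine contDiff_pi.2 fun k => contDiff_pi.2 fun r => ?_
    by_cases h : k ≠ i0
    · simp only [h, dif_pos, ne_eq, not_false_eq_true]
      fun_prop
    · simp only [h, dif_neg, not_false_eq_true]
      exact contDiff_const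
  · refine contDiff_pi.2 fun k => ?_
    by_cases h : k ≠ i0
    · simp only [h, dif_pos, ne_eq, not_false_eq_true]
      fun_prop
    · simp only [h, dif_neg, not_false_eq_true]
      exact contDiff_const
  · refine contDiff_pi.2 fun l => contDiff_pi.2 fun r => ?_
    by_cases h : (l ≠ i0 ∧ l ≠ i ∧ l ≠ j) ∧ (r ≠ p ∧ r ≠ q)
    · simp only [h, dif_pos, and_self, ne_eq, not_false_eq_true]
      fun_prop
    · simp only [h, dif_neg, not_false_eq_true]
      exact contDiff_const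
  · refine contDiff_pi.2 fun l => ?_
    by_cases h : l ≠ i0 ∧ l ≠ i ∧ l ≠ j
    · simp only [h, dif_pos, and_self, ne_eq, not_false_eq_true]
      fun_prop
    · simp only [h, dif_neg, not_false_eq_true]
      exact contDiff_const
  · fun_prop
  · fun_prop

private def bu {n : ℕ} (p q : Fin (n + 2)) (w : Fin 2 → Fin (n + 2) → ℝ) :
    Fin 2 → Fin (n + 2) → ℝ := fun k r =>
  w k r + (if r = (if k = 0 then p else q) then 1 else 0)

private def bk {n : ℕ} (p q : Fin (n + 2)) (w : Fin 2 → Fin (n + 2) → ℝ) (v : Fin (n + 2) → ℝ) :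
    Fin (n + 2) → ℝ := fun r =>
  v r - (if r = p then ∑ t, w 0 t * v t else 0) - (if r = q then ∑ t, w 1 t * v t else 0)

private def bPsi (n : ℕ) (i0 i j : Fin (2 * n)) (p q : Fin (n + 2)) (x : BF n) : Cf n :=
  fun s r =>
    if (⟨(s : ℕ) / 2, by omega⟩ : Fin (2 * n)) = i0 then
      x.2.2.2.2.2.2 (if (s : ℕ) % 2 = 0 then 0 else 1) r
    else if (s : ℕ) % 2 = 0 then x.2.1 ⟨(s : ℕ) / 2, by omega⟩ r
    else x.2.2.1 ⟨(s : ℕ) / 2, by omega⟩ * x.2.1 ⟨(s : ℕ) / 2, by omega⟩ r -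
      (if (⟨(s : ℕ) / 2, by omega⟩ : Fin (2 * n)) = i then
        ∑ l, x.2.2.2.2.1 l * om (bu p q x.1) (x.2.1 j) (x.2.1 l) * bk p q x.1 (x.2.2.2.1 l) r
      else if (⟨(s : ℕ) / 2, by omega⟩ : Fin (2 * n)) = j then
        x.2.2.2.2.2.1 *
          ∑ l, x.2.2.2.2.1 l * om (bu p q x.1) (x.2.1 i) (x.2.1 l) * bk p q x.1 (x.2.2.2.1 l) r
      else bk p q x.1 (x.2.2.2.1 ⟨(s : ℕ) / 2, by omega⟩) r)

private theorem bk_contDiff {n : ℕ} (p q r : Fin (n + 2)) (l : Fin (2 * n)) :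
    ContDiff ℝ 1 (fun x : BF n => bk p q x.1 (x.2.2.2.1 l) r) := by
  unfold bk
  split_ifs <;> fun_prop

private theorem bom_contDiff {n : ℕ} (p q : Fin (n + 2)) (j l : Fin (2 * n)) :
    ContDiff ℝ 1 (fun x : BF n => om (bu p q x.1) (x.2.1 j) (x.2.1 l)) := by
  unfold om bu dotProduct
  fun_prop

private theorem bPsi_contDiff (n : ℕ) (i0 i j : Fin (2 * n)) (p q : Fin (n + 2)) :
    ContDiff ℝ 1 (bPsi n i0 i j p q) := by
  refine contDiff_pi.2 fun s => contDiff_pi.2 fun r => ?_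
  have hk := fun l => bk_contDiff (n := n) p q r l
  have ho := fun j l => bom_contDiff (n := n) p q j l
  unfold bPsi
  split_ifs
  · fun_prop
  · fun_prop
  · fun_prop
  · refine ContDiff.sub (by fun_prop) ?_
    refine ContDiff.sum fun l _ => ?_
    exact (ContDiff.mul (by fun_prop) (ho j l)).mul (hk l)
  · refine ContDiff.sub (by fun_prop) ?_
    refine ContDiff.mul (by fun_prop) ?_
    refine ContDiff.sum fun l _ => ?_
    exact (ContDiff.mul (by fun_prop) (ho i l)).mul (hk l)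
  · refine ContDiff.sub (by fun_prop) (hk _)

private theorem BP_finrank {n : ℕ} {i0 i j : Fin (2 * n)} {p q : Fin (n + 2)} (h1 : i ≠ i0)
    (h2 : j ≠ i0) (h3 : i ≠ j) (h4 : p ≠ q) :
    Module.finrank ℝ (BP n i0 i j p q) + 1 = Module.finrank ℝ (Cf n) := by
  have hK : Fintype.card (BK n i0) + 1 = 2 * n := by
    have : Fintype.card (BK n i0) = Fintype.card (Fin (2 * n)) - 1 := by
      rw [Fintype.card_subtype_compl]
      simp
    rw [this, Fintype.card_fin]
    have := i0.2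
    omega
  have hL : Fintype.card (BL n i0 i j) + 3 = 2 * n := by
    have e1 : Fintype.card (BL n i0 i j) = (({i0, i, j} : Finset (Fin (2 * n)))ᶜ).card := by
      rw [Fintype.card_subtype]
      congr 1
      ext l
      simp
    rw [e1, Finset.card_compl, Fintype.card_fin]
    have e2 : ({i0, i, j} : Finset (Fin (2 * n))).card = 3 := by
      rw [Finset.card_eq_three]
      exact ⟨i0, i, j, h1.symm, h2.symm, h3, rfl⟩
    have e3 : ({i0, i, j} : Finset (Fin (2 * n))).card ≤ 2 * n := by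
      have := Finset.card_le_univ ({i0, i, j} : Finset (Fin (2 * n)))
      rwa [Fintype.card_fin] at this
    omega
  have hR : Fintype.card (BR n p q) = n := by
    have e1 : Fintype.card (BR n p q) = (({p, q} : Finset (Fin (n + 2)))ᶜ).card := by
      rw [Fintype.card_subtype]
      congr 1
      ext l
      simp
    rw [e1, Finset.card_compl, Fintype.card_fin, Finset.card_pair h4]
    omega
  obtain ⟨n', rfl⟩ : ∃ n', n = n' + 2 := ⟨n - 2, by omega⟩
  have hK' : Fintype.card (BK (n' + 2) i0) = 2 * n' + 3 := by omega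
  have hL' : Fintype.card (BL (n' + 2) i0 i j) = 2 * n' + 1 := by omega
  simp only [Module.finrank_prod, Module.finrank_pi_fintype, Module.finrank_self,
    Finset.sum_const, Finset.card_univ, smul_eq_mul, mul_one, Fintype.card_fin, hK', hL', hR]
  ring


private theorem bu_dot {n : ℕ} {p q : Fin (n + 2)} (hpq : p ≠ q) (w : Fin 2 → Fin (n + 2) → ℝ)
    (u : Fin 2 → Fin (n + 2) → ℝ) (h0p : u 0 p = 1) (h0q : u 0 q = 0) (h1p : u 1 p = 0)
    (h1q : u 1 q = 1) (hw : ∀ k r, w k r = if r ≠ p ∧ r ≠ q then u k r else 0) :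
    bu p q w = u := by
  funext k r
  unfold bu
  rw [hw]
  by_cases hrp : r = p
  · subst hrp
    by_cases hk : k = 0
    · subst hk
      simp [h0p]
    · have hk1 : k = 1 := by omega
      subst hk1
      simp [h1p, hpq]
  · by_cases hrq : r = q
    · subst hrq
      by_cases hk : k = 0
      · subst hk
        simp [h0q, hrp]
      · have hk1 : k = 1 := by omega
        subst hk1
        simp [h1q]
    · rw [if_pos ⟨hrp, hrq⟩, if_neg, add_zero]
      split_ifs <;> assumption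

private theorem bk_eq {n : ℕ} {p q : Fin (n + 2)} (hpq : p ≠ q) (w : Fin 2 → Fin (n + 2) → ℝ)
    (u : Fin 2 → Fin (n + 2) → ℝ) (h0p : u 0 p = 1) (h0q : u 0 q = 0) (h1p : u 1 p = 0)
    (h1q : u 1 q = 1) (hw : ∀ k r, w k r = if r ≠ p ∧ r ≠ q then u k r else 0)
    (v v' : Fin (n + 2) → ℝ) (hv : ∀ r, v' r = if r ≠ p ∧ r ≠ q then v r else 0)
    (hker : ∀ k, u k ⬝ᵥ v = 0) : bk p q w v' = v := by
  classical
  have hsum : ∀ k, ∑ t, w k t * v' t = - (if k = 0 then v p else v q) := by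
    intro k
    have h := hker k
    rw [dotProduct] at h
    have h1 : ∑ t, u k t * v t = ∑ t, w k t * v' t + ∑ t, ((if t = p then u k p * v p else 0) +
        (if t = q then u k q * v q else 0)) := by
      rw [← Finset.sum_add_distrib]
      refine Finset.sum_congr rfl fun t _ => ?_
      rw [hw, hv]
      by_cases htp : t = p
      · subst htp
        simp [hpq]
      · by_cases htq : t = q
        · subst htq
          simp [htp]
        · simp [htp, htq]
    rw [h1, Finset.sum_add_distrib, Finset.sum_ite_eq' Finset.univ p,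
      Finset.sum_ite_eq' Finset.univ q, if_pos (Finset.mem_univ _), if_pos (Finset.mem_univ _)] at h
    by_cases hk : k = 0
    · subst hk
      rw [h0p, h0q] at h
      rw [if_pos rfl]
      linarith
    · have hk1 : k = 1 := by omega
      subst hk1
      rw [h1p, h1q] at h
      rw [if_neg (by decide)]
      linarith
  funext r
  unfold bk
  rw [hsum 0, hsum 1, hv, if_pos rfl, if_neg (by decide : ¬ (1 : Fin 2) = 0)]
  by_cases hrp : r = p
  · subst hrp
    simp [hpq]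
  · by_cases hrq : r = q
    · subst hrq
      simp [hrp]
    · simp [hrp, hrq]

private theorem bad_mem {n : ℕ} {i0 i j : Fin (2 * n)} {p q : Fin (n + 2)} (h1 : i ≠ i0)
    (h2 : j ≠ i0) (h3 : i ≠ j) (h4 : p ≠ q) (c : Cf n) (a b : Fin (2 * n) → Fin (n + 2) → ℝ)
    (ha : ∀ l : Fin (2 * n), a l = c ⟨2 * l, by omega⟩)
    (hb : ∀ l : Fin (2 * n), b l = c ⟨2 * l + 1, by omega⟩)
    (u : Fin 2 → Fin (n + 2) → ℝ) (h0p : u 0 p = 1) (h0q : u 0 q = 0) (h1p : u 1 p = 0)
    (h1q : u 1 q = 1) (cl : Fin (2 * n) → ℝ)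
    (hcl : ∀ l, l ≠ i0 → ∀ k, u k ⬝ᵥ b l = cl l * (u k ⬝ᵥ a l)) (β : Fin (2 * n) → ℝ)
    (hβ0 : β i0 = 0)
    (hrel : ∀ k, ∑ l, (β l * (u k ⬝ᵥ a l)) • (cl l • a l - b l) = 0)
    (hβi : β i ≠ 0) (hβj : β j ≠ 0) (hom : om u (a i) (a j) ≠ 0) :
    c ∈ Set.range (bPsi n i0 i j p q ∘ bi n i0 i j p q) := by
  classical
  -- scaling
  have hom' : om u (a j) (a i) ≠ 0 := by
    intro h
    apply hom
    rw [om] at h ⊢
    linarith
  set sc : ℝ := - (β i * om u (a j) (a i))⁻¹ with hsc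
  have hsc1 : sc * β i * om u (a j) (a i) = -1 := by
    have : β i * om u (a j) (a i) ≠ 0 := mul_ne_zero hβi hom'
    rw [hsc]
    field_simp
  set β' : Fin (2 * n) → ℝ := fun l => sc * β l with hβ'
  set μ : ℝ := - (β' j * om u (a i) (a j))⁻¹ with hμ
  have hscne : sc ≠ 0 := by
    intro h
    rw [h] at hsc1
    norm_num at hsc1
  have hβ'j : β' j * om u (a i) (a j) ≠ 0 := mul_ne_zero (mul_ne_zero hscne hβj) hom
  set v : Fin (2 * n) → Fin (n + 2) → ℝ := fun l => cl l • a l - b l with hv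
  have hker : ∀ l, l ≠ i0 → ∀ k, u k ⬝ᵥ v l = 0 := by
    intro l hl k
    simp only [hv, dotProduct_sub, dotProduct_smul, smul_eq_mul]
    rw [hcl l hl k]
    ring
  -- the parameters
  set x : BP n i0 i j p q := (fun k r => u k r, fun l r => a l r, fun l => cl l,
    fun l r => v l r, fun l => β' l, μ,
    fun e r => c ⟨2 * i0 + e, by omega⟩ r) with hx
  refine ⟨x, ?_⟩
  have hw : ∀ k r, (bi n i0 i j p q x).1 k r = if r ≠ p ∧ r ≠ q then u k r else 0 := by
    intro k r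
    simp only [bi, hx, dite_eq_ite]
  have hu : bu p q (bi n i0 i j p q x).1 = u := bu_dot h4 _ u h0p h0q h1p h1q hw
  have hA : ∀ l, l ≠ i0 → (bi n i0 i j p q x).2.1 l = a l := by
    intro l hl
    funext r
    simp only [bi, hx, hl, dif_pos, ne_eq, not_false_eq_true]
  have hC : ∀ l, l ≠ i0 → (bi n i0 i j p q x).2.2.1 l = cl l := by
    intro l hl
    simp only [bi, hx, hl, dif_pos, ne_eq, not_false_eq_true]
  have hV : ∀ l, l ≠ i0 → l ≠ i → l ≠ j →
      bk p q (bi n i0 i j p q x).1 ((bi n i0 i j p q x).2.2.2.1 l) = v l := by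
    intro l hl0 hli hlj
    refine bk_eq h4 _ u h0p h0q h1p h1q hw _ _ ?_ (hker l hl0)
    intro r
    by_cases hr : r ≠ p ∧ r ≠ q
    · rw [if_pos hr]
      simp only [bi, hx]
      rw [dif_pos ⟨⟨hl0, hli, hlj⟩, hr⟩]
    · rw [if_neg hr]
      simp only [bi, hx]
      rw [dif_neg (fun h => hr h.2)]
  have hB : ∀ l, (bi n i0 i j p q x).2.2.2.2.1 l =
      if l ≠ i0 ∧ l ≠ i ∧ l ≠ j then β' l else 0 := by
    intro l
    simp only [bi, hx, dite_eq_ite]
  have hM : (bi n i0 i j p q x).2.2.2.2.2.1 = μ := rfl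
  have hX : (bi n i0 i j p q x).2.2.2.2.2.2 =
      fun (e : Fin 2) r => c ⟨2 * i0 + e, by omega⟩ r := rfl
  have key : ∀ (r : Fin (n + 2)) (t t' : Fin (4 * n)), (t : ℕ) = t' → c t r = c t' r := by
    intro r t t' h
    rw [Fin.ext h]
  -- the relations
  have hrelo : ∀ y : Fin (n + 2) → ℝ, ∀ r, ∑ l, β' l * om u y (a l) * v l r = 0 := by
    intro y r
    have e0 := congrFun (hrel 0) r
    have e1 := congrFun (hrel 1) r
    rw [Finset.sum_apply] at e0 e1
    simp only [Pi.smul_apply, smul_eq_mul, Pi.zero_apply] at e0 e1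
    have e2 : ∑ l, β' l * om u y (a l) * v l r =
        sc * (u 0 ⬝ᵥ y) * (∑ l, β l * (u 1 ⬝ᵥ a l) * v l r) -
        sc * (u 1 ⬝ᵥ y) * (∑ l, β l * (u 0 ⬝ᵥ a l) * v l r) := by
      rw [Finset.mul_sum, Finset.mul_sum, ← Finset.sum_sub_distrib]
      refine Finset.sum_congr rfl fun l _ => ?_
      simp only [hβ', om]
      ring
    rw [e2]
    have e0' : ∑ l, β l * (u 0 ⬝ᵥ a l) * v l r = 0 := e0
    have e1' : ∑ l, β l * (u 1 ⬝ᵥ a l) * v l r = 0 := e1
    rw [e0', e1']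
    ring
  have hsplit : ∀ y : Fin (n + 2) → ℝ, ∀ r, ∑ l, (bi n i0 i j p q x).2.2.2.2.1 l *
      om (bu p q (bi n i0 i j p q x).1) y ((bi n i0 i j p q x).2.1 l) *
      bk p q (bi n i0 i j p q x).1 ((bi n i0 i j p q x).2.2.2.1 l) r =
      - (β' i * om u y (a i) * v i r + β' j * om u y (a j) * v j r) := by
    intro y r
    have e1 : ∀ l, (bi n i0 i j p q x).2.2.2.2.1 l *
        om (bu p q (bi n i0 i j p q x).1) y ((bi n i0 i j p q x).2.1 l) *
        bk p q (bi n i0 i j p q x).1 ((bi n i0 i j p q x).2.2.2.1 l) r =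
        β' l * om u y (a l) * v l r -
          ((if l = i then β' i * om u y (a i) * v i r else 0) +
            (if l = j then β' j * om u y (a j) * v j r else 0)) := by
      intro l
      rw [hB]
      by_cases hl0 : l = i0
      · subst hl0
        rw [if_neg (fun h => h.1 rfl), if_neg h1.symm, if_neg h2.symm]
        simp only [hβ', hβ0]
        ring
      · by_cases hli : l = i
        · subst hli
          rw [if_neg (fun h => h.2.1 rfl), if_pos rfl, if_neg h3]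
          ring
        · by_cases hlj : l = j
          · subst hlj
            rw [if_neg (fun h => h.2.2 rfl), if_neg hli, if_pos rfl]
            ring
          · rw [if_pos ⟨hl0, hli, hlj⟩, if_neg hli, if_neg hlj, hu, hA l hl0, hV l hl0 hli hlj]
            ring
    rw [Finset.sum_congr rfl fun l _ => e1 l, Finset.sum_sub_distrib, hrelo,
      Finset.sum_add_distrib, Finset.sum_ite_eq' Finset.univ i, Finset.sum_ite_eq' Finset.univ j,
      if_pos (Finset.mem_univ _), if_pos (Finset.mem_univ _)]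
    ring
  have hself : ∀ y : Fin (n + 2) → ℝ, om u y y = 0 := by
    intro y
    rw [om]
    ring
  have hVi : ∀ r, ∑ l, (bi n i0 i j p q x).2.2.2.2.1 l *
      om (bu p q (bi n i0 i j p q x).1) ((bi n i0 i j p q x).2.1 j)
        ((bi n i0 i j p q x).2.1 l) *
      bk p q (bi n i0 i j p q x).1 ((bi n i0 i j p q x).2.2.2.1 l) r = v i r := by
    intro r
    rw [hsplit, hA j h2, hself]
    have : β' i * om u (a j) (a i) = -1 := hsc1
    rw [this]
    ring
  have hVj : ∀ r, (bi n i0 i j p q x).2.2.2.2.2.1 * ∑ l, (bi n i0 i j p q x).2.2.2.2.1 l *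
      om (bu p q (bi n i0 i j p q x).1) ((bi n i0 i j p q x).2.1 i)
        ((bi n i0 i j p q x).2.1 l) *
      bk p q (bi n i0 i j p q x).1 ((bi n i0 i j p q x).2.2.2.1 l) r = v j r := by
    intro r
    rw [hsplit, hA i h1, hself, hM, hμ, mul_zero, zero_mul, zero_add, neg_mul_neg, ← mul_assoc,
      inv_mul_cancel₀ hβ'j, one_mul]
  funext s r
  simp only [Function.comp_apply]
  unfold bPsi
  have hs2 : (s : ℕ) / 2 < 2 * n := by omega
  by_cases hs0 : (⟨(s : ℕ) / 2, hs2⟩ : Fin (2 * n)) = i0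
  · rw [if_pos hs0, hX]
    have hs0' : (s : ℕ) / 2 = i0 := congrArg Fin.val hs0
    by_cases he : (s : ℕ) % 2 = 0
    · rw [if_pos he]
      refine key r _ _ ?_
      simp only [Fin.val_zero]
      omega
    · rw [if_neg he]
      refine key r _ _ ?_
      simp only [Fin.val_one]
      omega
  · rw [if_neg hs0]
    by_cases he : (s : ℕ) % 2 = 0
    · rw [if_pos he, hA _ hs0, ha]
      refine key r _ _ ?_
      simp only
      omega
    · rw [if_neg he, hA _ hs0, hC _ hs0]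
      have hfin : cl ⟨(s : ℕ) / 2, hs2⟩ * a ⟨(s : ℕ) / 2, hs2⟩ r - v ⟨(s : ℕ) / 2, hs2⟩ r
          = c s r := by
        simp only [hv, Pi.sub_apply, Pi.smul_apply, smul_eq_mul, sub_sub_cancel]
        rw [hb]
        refine key r _ _ ?_
        simp only
        omega
      rw [← hfin]
      congr 1
      by_cases hsi : (⟨(s : ℕ) / 2, hs2⟩ : Fin (2 * n)) = i
      · rw [if_pos hsi, hsi]
        exact hVi r
      · rw [if_neg hsi]
        by_cases hsj : (⟨(s : ℕ) / 2, hs2⟩ : Fin (2 * n)) = j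
        · rw [if_pos hsj, hsj]
          exact hVj r
        · rw [if_neg hsj, hV _ hs0 hsi hsj]

private theorem gen_mem {n : ℕ} (hn : 1 ≤ n) {c : Cf n} {j0 : Fin (4 * n)} (h : ¬ Gen n c j0) :
    ∃ (i0 i j : Fin (2 * n)) (p q : Fin (n + 2)), i ≠ i0 ∧ j ≠ i0 ∧ i ≠ j ∧ p ≠ q ∧
      c ∈ Set.range (bPsi n i0 i j p q ∘ bi n i0 i j p q) := by
  classical
  unfold Gen at h
  push Not at h
  obtain ⟨u, hu, ⟨y, hT, hsol⟩, hI⟩ := h
  unfold Ind0 at hI
  push Not at hI
  obtain ⟨β, hβ, l1, hl1, hl1', hβ1⟩ := hI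
  set A := ex (Function.update c j0 y) with hA
  have hAc : ∀ t : ℕ, ∀ ht : t < 4 * n, t / 2 ≠ (j0 : ℕ) / 2 → A t = c ⟨t, ht⟩ := by
    intro t ht hne
    rw [hA, ex, dif_pos ht, Function.update_of_ne]
    intro he
    apply hne
    rw [← he]
  have hEc : ∀ t : ℕ, ∀ ht : t < 4 * n, ex c t = c ⟨t, ht⟩ := by
    intro t ht
    rw [ex, dif_pos ht]
  have hne : ∀ j < 4 * n, ¬ (u 0 ⬝ᵥ A j = 0 ∧ u 1 ⬝ᵥ A j = 0) := fun j hj =>
    good_ne hn hT hu hsol hj
  choose! cl hclpos hcl using fun i (hi : i < 2 * n) => good_pos hn hT hu hsol hi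
  set F := (Finset.range (2 * n)).filter (· ≠ (j0 : ℕ) / 2) with hF
  have hFm : ∀ l ∈ F, l < 2 * n ∧ l ≠ (j0 : ℕ) / 2 := by
    intro l hl
    rw [hF, Finset.mem_filter, Finset.mem_range] at hl
    exact hl
  -- the relations
  have hrel : ∀ k, ∑ l ∈ F, (β l * (u k ⬝ᵥ A (2 * l))) • (cl l • A (2 * l) - A (2 * l + 1)) = 0 := by
    have hd : ∀ h : Fin 2 → Fin (n + 2) → ℝ,
        ∑ l ∈ F, β l * dom u h (A (2 * l)) (A (2 * l + 1)) = 0 := by
      intro h
      rw [← hβ h]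
      refine Finset.sum_congr rfl fun l hl => ?_
      obtain ⟨g1, g2⟩ := hFm l hl
      rw [hAc (2 * l) (by omega) (by omega), hAc (2 * l + 1) (by omega) (by omega),
        hEc (2 * l) (by omega), hEc (2 * l + 1) (by omega)]
    intro k
    funext r
    rw [Finset.sum_apply]
    simp only [Pi.smul_apply, Pi.sub_apply, smul_eq_mul, Pi.zero_apply]
    by_cases hk : k = 0
    · subst hk
      have h1 := hd ![0, Pi.single r 1]
      rw [← neg_eq_zero, ← Finset.sum_neg_distrib, ← h1]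
      refine Finset.sum_congr rfl fun l hl => ?_
      obtain ⟨g1, g2⟩ := hFm l hl
      have e0 := hcl l g1 0
      simp only [dom, Matrix.cons_val_zero, Matrix.cons_val_one, single_dotProduct,
        zero_dotProduct, e0]
      ring
    · have hk1 : k = 1 := by omega
      subst hk1
      have h1 := hd ![Pi.single r 1, 0]
      rw [← h1]
      refine Finset.sum_congr rfl fun l hl => ?_
      obtain ⟨g1, g2⟩ := hFm l hl
      have e0 := hcl l g1 1
      simp only [dom, Matrix.cons_val_zero, Matrix.cons_val_one, single_dotProduct,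
        zero_dotProduct, e0]
      ring
  have hl1F : l1 ∈ F := by
    rw [hF, Finset.mem_filter, Finset.mem_range]
    exact ⟨hl1, hl1'⟩
  obtain ⟨i, hi, j, hj, hβi, hβj, hom⟩ := bad_pair hn hT hu hne cl hcl F
    (fun l hl => (hFm l hl).1) β hrel hl1F hβ1
  obtain ⟨hi1, hi2⟩ := hFm i hi
  obtain ⟨hj1, hj2⟩ := hFm j hj
  -- a nonvanishing minor of `u`
  obtain ⟨p, q, hpq⟩ : ∃ p q, u 0 p * u 1 q - u 1 p * u 0 q ≠ 0 := by
    by_contra hcon
    push Not at hcon
    apply hom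
    rw [om, dotProduct, dotProduct, dotProduct, dotProduct, Finset.sum_mul_sum,
      Finset.sum_mul_sum, ← Finset.sum_sub_distrib]
    refine Finset.sum_eq_zero fun p _ => ?_
    rw [← Finset.sum_sub_distrib]
    refine Finset.sum_eq_zero fun q _ => ?_
    linear_combination (A (2 * i) p * A (2 * j) q) * hcon p q
  have hpq' : p ≠ q := by
    intro h
    subst h
    apply hpq
    ring
  set d : ℝ := u 0 p * u 1 q - u 1 p * u 0 q with hd
  set w : Fin 2 → Fin (n + 2) → ℝ := ![(d⁻¹ * u 1 q) • u 0 - (d⁻¹ * u 0 q) • u 1,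
    (d⁻¹ * u 0 p) • u 1 - (d⁻¹ * u 1 p) • u 0] with hw
  have hw0 : w 0 = (d⁻¹ * u 1 q) • u 0 - (d⁻¹ * u 0 q) • u 1 := rfl
  have hw1 : w 1 = (d⁻¹ * u 0 p) • u 1 - (d⁻¹ * u 1 p) • u 0 := rfl
  have hdd : d⁻¹ * d = 1 := inv_mul_cancel₀ hpq
  have w0 : ∀ x, w 0 ⬝ᵥ x = (d⁻¹ * u 1 q) * (u 0 ⬝ᵥ x) - (d⁻¹ * u 0 q) * (u 1 ⬝ᵥ x) := by
    intro x
    rw [hw0, sub_dotProduct, smul_dotProduct, smul_dotProduct, smul_eq_mul, smul_eq_mul]
  have w1 : ∀ x, w 1 ⬝ᵥ x = (d⁻¹ * u 0 p) * (u 1 ⬝ᵥ x) - (d⁻¹ * u 1 p) * (u 0 ⬝ᵥ x) := by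
    intro x
    rw [hw1, sub_dotProduct, smul_dotProduct, smul_dotProduct, smul_eq_mul, smul_eq_mul]
  have hom_w : ∀ x y, om w x y = d⁻¹ * om u x y := by
    intro x y
    rw [om, om, w0, w0, w1, w1]
    have : (d⁻¹ * u 1 q * u 0 ⬝ᵥ x - d⁻¹ * u 0 q * u 1 ⬝ᵥ x) *
        (d⁻¹ * u 0 p * u 1 ⬝ᵥ y - d⁻¹ * u 1 p * u 0 ⬝ᵥ y) -
        (d⁻¹ * u 0 p * u 1 ⬝ᵥ x - d⁻¹ * u 1 p * u 0 ⬝ᵥ x) *
        (d⁻¹ * u 1 q * u 0 ⬝ᵥ y - d⁻¹ * u 0 q * u 1 ⬝ᵥ y) =
        d⁻¹ * (d⁻¹ * (u 0 p * u 1 q - u 1 p * u 0 q)) *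
          (u 0 ⬝ᵥ x * u 1 ⬝ᵥ y - u 1 ⬝ᵥ x * u 0 ⬝ᵥ y) := by ring
    rw [this, ← hd, hdd]
    ring
  -- the data
  have hi0 : (j0 : ℕ) / 2 < 2 * n := by have := j0.2; omega
  set i0' : Fin (2 * n) := ⟨(j0 : ℕ) / 2, hi0⟩ with hi0'
  set a : Fin (2 * n) → Fin (n + 2) → ℝ := fun l => c ⟨2 * l, by omega⟩ with ha
  set b : Fin (2 * n) → Fin (n + 2) → ℝ := fun l => c ⟨2 * l + 1, by omega⟩ with hb
  have haA : ∀ l : Fin (2 * n), l ≠ i0' → a l = A (2 * l) := by
    intro l hl
    have hl' : (l : ℕ) ≠ (j0 : ℕ) / 2 := fun h => hl (Fin.ext h)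
    rw [hAc (2 * l) (by omega) (by omega)]
  have hbA : ∀ l : Fin (2 * n), l ≠ i0' → b l = A (2 * l + 1) := by
    intro l hl
    have hl' : (l : ℕ) ≠ (j0 : ℕ) / 2 := fun h => hl (Fin.ext h)
    rw [hAc (2 * l + 1) (by omega) (by omega)]
  set β' : Fin (2 * n) → ℝ := fun l => if l = i0' then 0 else β l with hβ'
  have hi3 : (⟨i, hi1⟩ : Fin (2 * n)) ≠ i0' := fun h => hi2 (congrArg Fin.val h)
  have hj3 : (⟨j, hj1⟩ : Fin (2 * n)) ≠ i0' := fun h => hj2 (congrArg Fin.val h)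
  have hij : i ≠ j := by
    intro h
    subst h
    apply hom
    rw [om]
    ring
  have hrel' : ∀ k, ∑ l : Fin (2 * n), (β' l * (u k ⬝ᵥ a l)) • (cl l • a l - b l) = 0 := by
    intro k
    rw [← hrel k, hF, Finset.sum_filter, Finset.sum_range]
    refine Finset.sum_congr rfl fun l _ => ?_
    by_cases hl : l = i0'
    · have h1 : (l : ℕ) = (j0 : ℕ) / 2 := by rw [hl]
      rw [if_neg (by simpa using h1)]
      simp only [hβ', hl, if_true, zero_mul, zero_smul]
    · have h1 : (l : ℕ) ≠ (j0 : ℕ) / 2 := fun h => hl (Fin.ext h)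
      rw [if_pos h1, haA l hl, hbA l hl]
      simp only [hβ', hl, if_false]
  refine ⟨i0', ⟨i, hi1⟩, ⟨j, hj1⟩, p, q, hi3, hj3, fun h => hij (congrArg Fin.val h), hpq', ?_⟩
  refine bad_mem hi3 hj3 (fun h => hij (congrArg Fin.val h)) hpq' c a b (fun _ => rfl)
    (fun _ => rfl) w ?_ ?_ ?_ ?_ (fun l => cl l) ?_ β' ?_ ?_ ?_ ?_ ?_
  · rw [hw0]
    simp only [Pi.sub_apply, Pi.smul_apply, smul_eq_mul]
    rw [← hdd, hd]
    ring
  · rw [hw0]
    simp only [Pi.sub_apply, Pi.smul_apply, smul_eq_mul]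
    ring
  · rw [hw1]
    simp only [Pi.sub_apply, Pi.smul_apply, smul_eq_mul]
    ring
  · rw [hw1]
    simp only [Pi.sub_apply, Pi.smul_apply, smul_eq_mul]
    rw [← hdd, hd]
    ring
  · intro l hl k
    rw [haA l hl, hbA l hl]
    have e0 := hcl l l.2 0
    have e1 := hcl l l.2 1
    by_cases hk : k = 0
    · subst hk
      rw [w0, w0, e0, e1]
      ring
    · have hk1 : k = 1 := by omega
      subst hk1
      rw [w1, w1, e0, e1]
      ring
  · simp only [hβ', if_true]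
  · intro k
    by_cases hk : k = 0
    · subst hk
      have e : ∀ l, (β' l * (w 0 ⬝ᵥ a l)) • (cl l • a l - b l) =
          (d⁻¹ * u 1 q) • ((β' l * (u 0 ⬝ᵥ a l)) • (cl l • a l - b l)) -
          (d⁻¹ * u 0 q) • ((β' l * (u 1 ⬝ᵥ a l)) • (cl l • a l - b l)) := by
        intro l
        rw [w0, smul_smul, smul_smul, ← sub_smul]
        congr 1
        ring
      rw [Finset.sum_congr rfl fun l _ => e l, Finset.sum_sub_distrib, ← Finset.smul_sum,
        ← Finset.smul_sum, hrel', hrel', smul_zero, smul_zero, sub_zero]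
    · have hk1 : k = 1 := by omega
      subst hk1
      have e : ∀ l, (β' l * (w 1 ⬝ᵥ a l)) • (cl l • a l - b l) =
          (d⁻¹ * u 0 p) • ((β' l * (u 1 ⬝ᵥ a l)) • (cl l • a l - b l)) -
          (d⁻¹ * u 1 p) • ((β' l * (u 0 ⬝ᵥ a l)) • (cl l • a l - b l)) := by
        intro l
        rw [w1, smul_smul, smul_smul, ← sub_smul]
        congr 1
        ring
      rw [Finset.sum_congr rfl fun l _ => e l, Finset.sum_sub_distrib, ← Finset.smul_sum,
        ← Finset.smul_sum, hrel', hrel', smul_zero, smul_zero, sub_zero]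
  · simp only [hβ', hi3, if_false]
    exact hβi
  · simp only [hβ', hj3, if_false]
    exact hβj
  · rw [hom_w, haA _ hi3, haA _ hj3]
    exact mul_ne_zero (inv_ne_zero hpq) hom

theorem gen_dense (n : ℕ) (hn : 1 ≤ n) : Dense {c : Cf n | ∀ j0 : Fin (4 * n), Gen n c j0} := by
  classical
  set S : Fin (2 * n) × Fin (2 * n) × Fin (2 * n) × Fin (n + 2) × Fin (n + 2) → Set (Cf n) :=
    fun t => if t.2.1 ≠ t.1 ∧ t.2.2.1 ≠ t.1 ∧ t.2.1 ≠ t.2.2.1 ∧ t.2.2.2.1 ≠ t.2.2.2.2 then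
      Set.range (bPsi n t.1 t.2.1 t.2.2.1 t.2.2.2.1 t.2.2.2.2 ∘
        bi n t.1 t.2.1 t.2.2.1 t.2.2.2.1 t.2.2.2.2) else ∅ with hS
  have hfr : 1 ≤ Module.finrank ℝ (Cf n) := by
    rw [Module.finrank_pi_fintype]
    simp only [Module.finrank_pi, Fintype.card_fin, Finset.sum_const, Finset.card_univ,
      smul_eq_mul]
    nlinarith
  have hdim : dimH (⋃ t, S t) < Module.finrank ℝ (Cf n) := by
    have h1 : dimH (⋃ t, S t) ≤ ((Module.finrank ℝ (Cf n) - 1 : ℕ) : ENNReal) := by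
      rw [dimH_iUnion]
      refine iSup_le fun t => ?_
      simp only [hS]
      split_ifs with ht
      · obtain ⟨h1, h2, h3, h4⟩ := ht
        have hc : ContDiff ℝ 1 (bPsi n t.1 t.2.1 t.2.2.1 t.2.2.2.1 t.2.2.2.2 ∘
            bi n t.1 t.2.1 t.2.2.1 t.2.2.2.1 t.2.2.2.2) :=
          (bPsi_contDiff _ _ _ _ _ _).comp (bi_contDiff _ _ _ _ _ _)
        have h5 := hc.dimH_range_le
        have h6 := BP_finrank h1 h2 h3 h4
        refine h5.trans ?_
        rw [← h6, Nat.add_sub_cancel]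
      · rw [dimH_empty]
        exact bot_le
    refine lt_of_le_of_lt h1 ?_
    exact_mod_cast (by omega : Module.finrank ℝ (Cf n) - 1 < Module.finrank ℝ (Cf n))
  refine (dense_compl_of_dimH_lt_finrank hdim).mono ?_
  intro c hc j0
  by_contra hg
  obtain ⟨i0, i, j, p, q, h1, h2, h3, h4, h5⟩ := gen_mem hn hg
  apply hc
  rw [Set.mem_iUnion]
  refine ⟨(i0, i, j, p, q), ?_⟩
  simp only [hS]
  rw [if_pos ⟨h1, h2, h3, h4⟩]
  exact h5

end Pool.Agent.TR
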