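import Mathlib

/-!
# TRL BAL : ballot paths

`IsP n α`: a path with `2 n` steps; `α i` = number of the `α`-steps among the first `i` steps
(`α i ≤ n`, `2 α i ≤ i`).

PROOF. Mathlib: `DyckWord`, `Fintype {p : DyckWord // p.semilength = n}` and
`DyckWord.card_dyckWord_semilength_eq_catalan`.  `α i` = number of `D` in the first `i` letters
(for `i > 2 n` take the value `n`); the prefix condition is `#D ≤ #U`, i.e. `2 α i ≤ i`; different
words give different functions on `[0, 2 n]`.
-/

set_option autoImplicit false

namespace Pool.Agent.TR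

def IsP (n : ℕ) (α : ℕ → ℕ) : Prop :=
  α 0 = 0 ∧ (∀ i < 2 * n, α (i + 1) = α i ∨ α (i + 1) = α i + 1) ∧ α (2 * n) = n ∧
    ∀ i ≤ 2 * n, 2 * α i ≤ i

/-- the number of `D` steps among the first `i` steps. -/
def cntD (p : DyckWord) (i : ℕ) : ℕ := (p.toList.take i).count DyckStep.D

theorem cntD_succ (p : DyckWord) {i : ℕ} (h : i < p.toList.length) :
    cntD p (i + 1) = cntD p i + if p.toList[i] = DyckStep.D then 1 else 0 := by
  unfold cntD
  rw [List.take_add_one, List.getElem?_eq_getElem h, List.count_append]
  congr 1
  cases p.toList[i] <;> decide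

theorem count_UD (l : List DyckStep) : l.count DyckStep.U + l.count DyckStep.D = l.length := by
  induction l with
  | nil => rfl
  | cons a l ih =>
    cases a
    · rw [List.count_cons_self, List.count_cons_of_ne (by decide), List.length_cons]
      omega
    · rw [List.count_cons_self, List.count_cons_of_ne (by decide), List.length_cons]
      omega

theorem isP_cntD (p : DyckWord) : IsP p.semilength (cntD p) := by
  have hlen := p.two_mul_semilength_eq_length
  refine ⟨by simp [cntD], ?_, ?_, ?_⟩
  · intro i hi
    rw [cntD_succ p (hlen ▸ hi)]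
    split_ifs
    · exact Or.inr rfl
    · exact Or.inl rfl
  · unfold cntD
    rw [hlen, List.take_length, ← p.semilength_eq_count_D]
  · intro i hi
    have h1 := p.count_D_le_count_U i
    have h2 := count_UD (p.toList.take i)
    rw [List.length_take] at h2
    unfold cntD
    omega

theorem cntD_inj {p q : DyckWord} (hpq : p.semilength = q.semilength)
    (h : ∀ i ≤ 2 * p.semilength, cntD p i = cntD q i) : p = q := by
  have hp := p.two_mul_semilength_eq_length
  have hq := q.two_mul_semilength_eq_length
  apply DyckWord.ext
  apply List.ext_getElem (by omega)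
  intro i h1 h2
  have e1 := cntD_succ p h1
  have e2 := cntD_succ q h2
  rw [h (i + 1) (by omega), h i (by omega)] at e1
  have e3 := e1.symm.trans e2
  revert e3
  cases p.toList[i] <;> cases q.toList[i] <;> simp

theorem ballots (n : ℕ) : ∃ P : Fin (catalan n) → ℕ → ℕ, (∀ k, IsP n (P k)) ∧
    ∀ k l, k ≠ l → ∃ i ≤ 2 * n, P k i ≠ P l i := by
  have e : Fin (catalan n) ≃ { p : DyckWord // p.semilength = n } :=
    (Fintype.equivFinOfCardEq (DyckWord.card_dyckWord_semilength_eq_catalan n)).symm
  refine ⟨fun k => cntD (e k).1, fun k => ?_, fun k l hkl => ?_⟩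
  · have h := isP_cntD (e k).1
    rwa [(e k).2] at h
  · by_contra hc
    push Not at hc
    apply hkl
    apply e.injective
    apply Subtype.ext
    apply cntD_inj ((e k).2.trans (e l).2.symm)
    rw [(e k).2]
    exact hc

end Pool.Agent.TR
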