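import Pool.Agent.Helper65.TR.IND
import Pool.Agent.Helper65.TR.ASY

/-!
# TRL BEZ : at most `catalan n` nondegenerate solutions
-/

set_option autoImplicit false

namespace Pool.Agent.TR

theorem bezout {n r : ℕ} {A : ℕ → Fin (n + 2) → ℝ} (P : Fin r → Fin 2 → Fin (n + 2) → ℂ)
    (hs : ∀ k, SolC n A (P k)) (hnd : ∀ k, NDC n A (P k))
    (hd : ∀ k l, k ≠ l → ¬ ∃ g : Matrix (Fin 2) (Fin 2) ℂ, P l = act g (P k)) :
    r ≤ catalan n := by
  refine asy fun K hK => ?_
  have h1 := ind_lower (n := n) (r := r) (fun i => cv (A (2 * i))) (fun i => cv (A (2 * i + 1))) P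
    (fun k i => hs k i i.2) (fun k h hh => hnd k h fun i hi => hh ⟨i, hi⟩) hd K
  have h2 := rk_dim (m := n + 2) (k := r + K) (by omega) (by omega)
  omega

end Pool.Agent.TR
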