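import Mathlib

/-!
# TRL BOX : from density in the fibres to density in boxes

PROOF.  Let `c ∈ T ∩ closure R`; the sup metric on `Fin M → E`.  Choose `r > 0` with
`ball c r ⊆ T`; `ball c r = ∏ ball (c i) r`.  We show `ball c r ⊆ closure R` (so
`c ∈ interior (closure R)`).  `R ∩ ball c r` is open and nonempty; take `p` in it and a small box
`∏ B'_i ⊆ R ∩ ball c r`, `B'_i` open balls around `p i`.  By induction on `j ≤ M`:
(A_j) `R` is dense in the open box `Q_j = ∏_(i<j) ball (c i) r × ∏_(i≥j) B'_i`, i.e.
`Q_j ⊆ closure R`.  `A_0` is clear.  `A_j → A_(j+1)` : let `z ∈ Q_(j+1)` and `W` an open box around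
`z`, `W ⊆ Q_(j+1)`; let `W'` be the box `W` with the factor `j` replaced by `B'_j`; `W' ⊆ Q_j`, so
there is `c1 ∈ R ∩ W'`; `R ∩ W'` is open, nonempty, so it contains a point `c2 ∈ G` (density).  By
`hfib` for `c2` and `j` (`∃ y`: `y = c2 j`) and `y = z j` : `update c2 j (z j) ∈ Q_(j+1) ⊆ T`, so there
is `y'` arbitrarily close to `z j` with `update c2 j y' ∈ R`; it is in `W`.
-/

set_option autoImplicit false

namespace Pool.Agent.TR

/-- the intermediate boxes -/
def boxQ {M : ℕ} {E : Type*} [NormedAddCommGroup E] (c p : Fin M → E) (r s : ℝ) (j : ℕ) :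
    Set (Fin M → E) :=
  {z | ∀ i : Fin M, ((i : ℕ) < j → dist (z i) (c i) < r) ∧ (j ≤ (i : ℕ) → dist (z i) (p i) < s)}

theorem boxQ_open {M : ℕ} {E : Type*} [NormedAddCommGroup E] (c p : Fin M → E) (r s : ℝ)
    (j : ℕ) : IsOpen (boxQ c p r s j) := by
  unfold boxQ
  rw [Set.setOf_forall]
  apply isOpen_iInter_of_finite
  intro i
  have hc : ∀ q : E, Continuous (fun z : Fin M → E => dist (z i) q) :=
    fun q => (continuous_apply i).dist continuous_const
  by_cases h : (i : ℕ) < j
  · have : {z : Fin M → E | ((i : ℕ) < j → dist (z i) (c i) < r) ∧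
        (j ≤ (i : ℕ) → dist (z i) (p i) < s)} = {z | dist (z i) (c i) < r} := by
      ext z
      simp only [Set.mem_setOf_eq]
      constructor
      · intro h1
        exact h1.1 h
      · intro h1
        exact ⟨fun _ => h1, fun h2 => absurd h (not_lt.mpr h2)⟩
    rw [this]
    exact isOpen_lt (hc _) continuous_const
  · have : {z : Fin M → E | ((i : ℕ) < j → dist (z i) (c i) < r) ∧
        (j ≤ (i : ℕ) → dist (z i) (p i) < s)} = {z | dist (z i) (p i) < s} := by
      ext z
      simp only [Set.mem_setOf_eq]
      constructor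
      · intro h1
        exact h1.2 (not_lt.mp h)
      · intro h1
        exact ⟨fun h2 => absurd h2 h, fun _ => h1⟩
    rw [this]
    exact isOpen_lt (hc _) continuous_const

theorem boxQ_sub {M : ℕ} {E : Type*} [NormedAddCommGroup E] {c p : Fin M → E} {r s : ℝ}
    (hr : 0 < r) (hs : dist p c + s ≤ r) (j : ℕ) : boxQ c p r s j ⊆ Metric.ball c r := by
  intro z hz
  rw [Metric.mem_ball, dist_pi_lt_iff hr]
  intro i
  by_cases h : (i : ℕ) < j
  · exact (hz i).1 h
  · have h1 := (hz i).2 (not_lt.mp h)
    have h2 : dist (p i) (c i) ≤ dist p c := dist_le_pi_dist p c i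
    have h3 := dist_triangle (z i) (p i) (c i)
    linarith

theorem box {M : ℕ} {E : Type*} [NormedAddCommGroup E] {T R G : Set (Fin M → E)}
    (hT : IsOpen T) (hR : IsOpen R) (hG : Dense G)
    (hfib : ∀ (j : Fin M), ∀ c ∈ G, (∃ y, Function.update c j y ∈ R) → ∀ y,
      Function.update c j y ∈ T → ∀ ε : ℝ, 0 < ε →
        ∃ y', dist y' y < ε ∧ Function.update c j y' ∈ R) :
    ∀ c ∈ T, c ∈ closure R → c ∈ interior (closure R) := by
  intro c hcT hcR
  obtain ⟨r, hr, hrT⟩ := Metric.isOpen_iff.mp hT c hcT
  obtain ⟨p, hpR, hpc⟩ := Metric.mem_closure_iff.mp hcR r hr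
  rw [dist_comm] at hpc
  obtain ⟨s0, hs0, hs0R⟩ := Metric.isOpen_iff.mp hR p hpR
  set s := min s0 (r - dist p c) with hs
  have hspos : 0 < s := lt_min hs0 (by linarith)
  have hsr : dist p c + s ≤ r := by
    have := min_le_right s0 (r - dist p c)
    linarith
  have hA : ∀ j : ℕ, j ≤ M → boxQ c p r s j ⊆ closure R := by
    intro j
    induction j with
    | zero =>
      intro _ z hz
      apply subset_closure
      apply hs0R
      rw [Metric.mem_ball, dist_pi_lt_iff hs0]
      intro i
      exact lt_of_lt_of_le ((hz i).2 (Nat.zero_le _)) (min_le_left _ _)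
    | succ j ih =>
      intro hj z hz
      have hA' := ih (by omega)
      let J : Fin M := ⟨j, by omega⟩
      rw [Metric.mem_closure_iff]
      intro ε hε
      obtain ⟨δ0, hδ0, hδ0Q⟩ := Metric.isOpen_iff.mp (boxQ_open c p r s (j + 1)) z hz
      set δ := min δ0 ε with hδ
      have hδpos : 0 < δ := lt_min hδ0 hε
      -- the modified point
      have hz' : Function.update z J (p J) ∈ boxQ c p r s j := by
        intro i
        by_cases hi : i = J
        · subst hi
          rw [Function.update_self]
          refine ⟨fun h => absurd h (lt_irrefl j), fun _ => ?_⟩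
          rw [dist_self]
          exact hspos
        · rw [Function.update_of_ne hi]
          have hij : (i : ℕ) ≠ j := fun h => hi (Fin.ext h)
          exact ⟨fun h => (hz i).1 (by omega), fun h => (hz i).2 (by omega)⟩
      -- the open set W'
      let W : Set (Fin M → E) := {w | ∀ i, i ≠ J → dist (w i) (z i) < δ}
      have hWo : IsOpen W := by
        have : W = ⋂ i : Fin M, {w | i ≠ J → dist (w i) (z i) < δ} := by
          ext w
          simp only [W, Set.mem_setOf_eq, Set.mem_iInter]
        rw [this]
        apply isOpen_iInter_of_finite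
        intro i
        by_cases hi : i = J
        · have : {w : Fin M → E | i ≠ J → dist (w i) (z i) < δ} = Set.univ := by
            ext w
            simp [hi]
          rw [this]
          exact isOpen_univ
        · have : {w : Fin M → E | i ≠ J → dist (w i) (z i) < δ} =
              {w | dist (w i) (z i) < δ} := by
            ext w
            simp [hi]
          rw [this]
          exact isOpen_lt ((continuous_apply i).dist continuous_const) continuous_const
      have hzW : Function.update z J (p J) ∈ W := by
        intro i hi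
        rw [Function.update_of_ne hi, dist_self]
        exact hδpos
      have hne : (W ∩ R).Nonempty := mem_closure_iff.mp (hA' hz') W hWo hzW
      obtain ⟨c2, ⟨hc2W, hc2R⟩, hc2G⟩ := hG.inter_open_nonempty (W ∩ R) (hWo.inter hR) hne
      have hball : Function.update c2 J (z J) ∈ Metric.ball z δ0 := by
        rw [Metric.mem_ball, dist_pi_lt_iff hδ0]
        intro i
        by_cases hi : i = J
        · subst hi
          rw [Function.update_self, dist_self]
          exact hδ0
        · rw [Function.update_of_ne hi]
          exact lt_of_lt_of_le (hc2W i hi) (min_le_left _ _)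
      have hT' : Function.update c2 J (z J) ∈ T := hrT (boxQ_sub hr hsr _ (hδ0Q hball))
      obtain ⟨y', hy', hy'R⟩ := hfib J c2 hc2G ⟨c2 J, by rwa [Function.update_eq_self]⟩ (z J) hT'
        δ hδpos
      refine ⟨_, hy'R, ?_⟩
      rw [dist_comm, dist_pi_lt_iff hε]
      intro i
      by_cases hi : i = J
      · subst hi
        rw [Function.update_self]
        exact lt_of_lt_of_le hy' (min_le_right _ _)
      · rw [Function.update_of_ne hi]
        exact lt_of_lt_of_le (hc2W i hi) (min_le_right _ _)
  rw [mem_interior]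
  refine ⟨Metric.ball c r, ?_, Metric.isOpen_ball, Metric.mem_ball_self hr⟩
  intro z hz
  apply hA M le_rfl
  intro i
  refine ⟨fun _ => ?_, fun h => absurd i.2 (not_lt.mpr h)⟩
  rw [Metric.mem_ball, dist_pi_lt_iff hr] at hz
  exact hz i

end Pool.Agent.TR
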