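import Pool.Agent.Helper65.TR.CLS

/-!
# TRL CLB : Grassmann convexity on the closure after projection

PROOFS.
`drop0_closed`: if `Alt` held, take `B` totally positive close to `A`; `B 0` is close to `A 0 ≠ 0`,
choose a vector `χ` with `χ · A 0 = 1` and replace `u` by
`u'_k = u_k - (u_k · B 0 / (χ · B 0)) χ`, which kills `B 0` and is close to `u`; `Alt` still holds
for `u', B`.  `tp_drop` with `j = 0` (no signs) gives `π` and `ψ_k` with `ψ_k ∘ π = u'_k`; the gaps
of `ψ` on the projected family (a totally positive family of `M - 1` columns in dimension `m`) are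
the gaps of `u'` on `B 1, ..., B (M-1)`: contradiction to `GCP m`.
`merge_closed`: the same with `v = α B i + β B (i+1)` and `tp_merge`.  The gaps of the projected
family are: for `j < i` : `om u' (-B j) (-B (j+1)) = D_j`; for `j = i` :
`om u' (-B i) (B (i+2)) = (β/α) D_(i+1)` (because `α u'(B i) = - β u'(B (i+1))`); for `j > i` :
`D_(j+1)`.  Use `alt_scale`.
-/

set_option autoImplicit false

open Matrix Filter Topology

namespace Pool.Agent.TR

private theorem clb_om_cont {m : ℕ} :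
    Continuous (fun p : (Fin 2 → Fin m → ℝ) × (Fin m → ℝ) × (Fin m → ℝ) =>
      om p.1 p.2.1 p.2.2) := by
  unfold om dotProduct
  fun_prop

private theorem clb_dot_cont {m : ℕ} :
    Continuous (fun p : (Fin m → ℝ) × (Fin m → ℝ) => p.1 ⬝ᵥ p.2) := by
  unfold dotProduct
  fun_prop

/-- Approximation: totally positive families and pairs killing the prescribed combination. -/
private theorem clb_approx {m M : ℕ} {A : ℕ → Fin m → ℝ} (hA : TPc m M A)
    (V : (ℕ → Fin m → ℝ) → Fin m → ℝ)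
    (hV : ∀ B : ℕ → ℕ → Fin m → ℝ, (∀ j < M, Tendsto (fun n => B n j) atTop (𝓝 (A j))) →
      Tendsto (fun n => V (B n)) atTop (𝓝 (V A)))
    (h0 : V A ≠ 0) (u : Fin 2 → Fin m → ℝ) (hu : ∀ k, u k ⬝ᵥ V A = 0) {ε : ℝ} (hε : 0 < ε) :
    ∃ (B : ℕ → Fin m → ℝ) (u' : Fin 2 → Fin m → ℝ), TPos m M B ∧ (∀ k, u' k ⬝ᵥ V B = 0) ∧
      ∀ j, j + 1 < M → |gap u' B j - gap u A j| < ε := by
  choose B hB1 hB2 using fun n : ℕ => hA (1 / ((n : ℝ) + 1)) (by positivity)
  have hBt : ∀ j < M, Tendsto (fun n => B n j) atTop (𝓝 (A j)) := by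
    intro j hj
    rw [tendsto_pi_nhds]
    intro i
    rw [tendsto_iff_dist_tendsto_zero]
    refine squeeze_zero (fun n => dist_nonneg) (fun n => ?_) tendsto_one_div_add_atTop_nhds_zero_nat
    rw [Real.dist_eq]
    exact (hB2 n j hj i).le
  have hVt := hV B hBt
  set χ : Fin m → ℝ := (V A ⬝ᵥ V A)⁻¹ • V A with hχ
  have hχ1 : χ ⬝ᵥ V A = 1 := by
    rw [hχ, smul_dotProduct, smul_eq_mul]
    apply inv_mul_cancel₀
    intro h
    exact h0 (dotProduct_self_eq_zero.mp h)
  have hdot : ∀ w : Fin m → ℝ, Tendsto (fun n => w ⬝ᵥ V (B n)) atTop (𝓝 (w ⬝ᵥ V A)) := by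
    intro w
    have h1 : Tendsto (fun n => (w, V (B n))) atTop (𝓝 (w, V A)) :=
      tendsto_const_nhds.prodMk_nhds hVt
    exact (clb_dot_cont.tendsto _).comp h1
  set u' : ℕ → Fin 2 → Fin m → ℝ :=
    fun n k => u k - ((u k ⬝ᵥ V (B n)) / (χ ⬝ᵥ V (B n))) • χ with hu'
  have hut : Tendsto u' atTop (𝓝 u) := by
    rw [tendsto_pi_nhds]
    intro k
    have h1 : Tendsto (fun n => (u k ⬝ᵥ V (B n)) / (χ ⬝ᵥ V (B n))) atTop (𝓝 (0 / 1)) := by
      have h2 := hdot (u k)
      have h3 := hdot χ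
      rw [hu k] at h2
      rw [hχ1] at h3
      exact h2.div h3 one_ne_zero
    rw [zero_div] at h1
    have h4 : Tendsto (fun n => u k - ((u k ⬝ᵥ V (B n)) / (χ ⬝ᵥ V (B n))) • χ) atTop
        (𝓝 (u k - (0 : ℝ) • χ)) := tendsto_const_nhds.sub (h1.smul_const χ)
    rw [zero_smul, sub_zero] at h4
    exact h4
  have hgap : ∀ j ∈ Finset.range (M - 1), ∀ᶠ n in atTop, |gap (u' n) (B n) j - gap u A j| < ε := by
    intro j hj
    have hj' := Finset.mem_range.mp hj
    have h1 : Tendsto (fun n => (u' n, B n j, B n (j + 1))) atTop (𝓝 (u, A j, A (j + 1))) :=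
      hut.prodMk_nhds ((hBt j (by omega)).prodMk_nhds (hBt (j + 1) (by omega)))
    have h2 : Tendsto (fun n => gap (u' n) (B n) j) atTop (𝓝 (gap u A j)) :=
      (clb_om_cont.tendsto _).comp h1
    have h3 := (Metric.tendsto_nhds.mp h2) ε hε
    exact h3
  have hχe : ∀ᶠ n in atTop, χ ⬝ᵥ V (B n) ≠ 0 := by
    apply (hdot χ).eventually_ne
    rw [hχ1]
    exact one_ne_zero
  obtain ⟨n, hn1, hn2⟩ := (((Finset.range (M - 1)).eventually_all.mpr hgap).and hχe).exists
  refine ⟨B n, u' n, hB1 n, fun k => ?_, fun j hj => hn1 j (Finset.mem_range.mpr (by omega))⟩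
  simp only [hu']
  rw [sub_dotProduct, smul_dotProduct, smul_eq_mul, div_mul_cancel₀ _ hn2, sub_self]

theorem drop0_closed {m M : ℕ} (hm : 2 ≤ m) (hM : m + 1 ≤ M) (hG : GCP m)
    {A : ℕ → Fin (m + 1) → ℝ} (hA : TPc (m + 1) M A) (h0 : A 0 ≠ 0) (u : Fin 2 → Fin (m + 1) → ℝ)
    (hu : ∀ k, u k ⬝ᵥ A 0 = 0) : ¬ Alt (gap u (fun j => A (j + 1))) (M - 2) (2 * m - 3) := by
  intro hAlt
  obtain ⟨ε, hε, hopen⟩ := alt_open hAlt
  obtain ⟨B, u', hB, hk, hgap⟩ := clb_approx hA (fun B => B 0) (fun B hB => hB 0 (by omega))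
    h0 u hu hε
  have hAlt' : Alt (gap u' (fun j => B (j + 1))) (M - 2) (2 * m - 3) := by
    apply hopen
    intro j hj
    exact hgap (j + 1) (by omega)
  obtain ⟨π, hπ, hT⟩ := tp_drop (j := 0) (by omega) hM (by omega) hB
  choose ψ hψ using fun k => hπ (u' k) (hk k)
  refine hG (M - 1) _ hT ψ ?_
  rw [show M - 1 - 1 = M - 2 by omega]
  refine alt_congr ?_ hAlt'
  intro j _
  simp only [gap, om, Nat.not_lt_zero, if_false]
  rw [hψ, hψ, hψ, hψ]

theorem merge_closed {m M i : ℕ} (hm : 2 ≤ m) (hM : m + 1 ≤ M) (hG : GCP m)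
    {A : ℕ → Fin (m + 1) → ℝ} (hA : TPc (m + 1) M A) (hi : i + 1 < M) {α β : ℝ} (hα : 0 < α)
    (hβ : 0 < β) (hv : α • A i + β • A (i + 1) ≠ 0) (u : Fin 2 → Fin (m + 1) → ℝ)
    (hu : ∀ k, u k ⬝ᵥ (α • A i + β • A (i + 1)) = 0) :
    ¬ Alt (fun j => gap u A (if j < i then j else j + 1)) (M - 2) (2 * m - 3) := by
  intro hAlt
  obtain ⟨ε, hε, hopen⟩ := alt_open hAlt
  obtain ⟨B, u', hB, hk, hgap⟩ := clb_approx hA (fun B => α • B i + β • B (i + 1))
    (fun B hB => ((hB i (by omega)).const_smul α).add ((hB (i + 1) hi).const_smul β))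
    hv u hu hε
  have hAlt' : Alt (fun j => gap u' B (if j < i then j else j + 1)) (M - 2) (2 * m - 3) := by
    apply hopen
    intro j hj
    apply hgap
    split_ifs <;> omega
  obtain ⟨π, hπ, hT⟩ := tp_merge (by omega) hM hi hB hα hβ
  choose ψ hψ using fun k => hπ (u' k) (hk k)
  refine hG (M - 1) _ hT ψ ?_
  rw [show M - 1 - 1 = M - 2 by omega]
  refine alt_scale (fun j => if j = i then β / α else 1) ?_ ?_ hAlt'
  · intro j _
    split_ifs
    · exact div_pos hβ hα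
    · exact one_pos
  · intro j _
    have hrel : ∀ k, α * (u' k ⬝ᵥ B i) + β * (u' k ⬝ᵥ B (i + 1)) = 0 := by
      intro k
      have := hk k
      rw [dotProduct_add, dotProduct_smul, dotProduct_smul, smul_eq_mul, smul_eq_mul] at this
      exact this
    rcases lt_trichotomy j i with hj | hj | hj
    · rw [if_neg (by omega), if_pos hj, one_mul]
      simp only [gap, om, if_pos (show j ≤ i by omega), if_pos (show j + 1 ≤ i by omega),
        dotProduct_neg, hψ]
      ring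
    · subst hj
      rw [if_pos rfl, if_neg (by omega)]
      simp only [gap, om, if_pos le_rfl, if_neg (show ¬ (j + 1 ≤ j) by omega),
        dotProduct_neg, hψ]
      have h1 := hrel 0
      have h2 := hrel 1
      field_simp
      linear_combination (-(u' 1 ⬝ᵥ B (j + 1 + 1))) * h1 + (u' 0 ⬝ᵥ B (j + 1 + 1)) * h2
    · rw [if_neg (by omega), if_neg (by omega), one_mul]
      simp only [gap, om, if_neg (show ¬ (j ≤ i) by omega), if_neg (show ¬ (j + 1 ≤ i) by omega),
        hψ]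

end Pool.Agent.TR
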