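import Pool.Agent.Helper65.TR.NRM

/-!
# TRL CPT : compactness of the real solutions

PROOF. For every independent real pair `u` there are `g` (invertible) and indices `p ≠ q` such that
`v = act g u` has `v(·)` at the coordinates `p, q` equal to the identity and all entries in
`[-1, 1]`: choose `(p, q)` with `|u 0 p u 1 q - u 1 p u 0 q|` maximal; the entries of `v` are
quotients of Pluecker coordinates.  Apply this to `u_k` (independent because `NF`); pass to a
subsequence with constant `(p, q)` and convergent `v_k → v`.  `v` is independent (identity at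
`p, q`) and a solution at `c0` (continuity), so `om v (c0 1) (c0 2) ≠ 0` (`good_first`).  `u_k` is the
normalisation of `v_k`: `u_k = act (W_k⁻¹) v_k`, `W_k` the matrix with columns `v_k(c_k 1)`,
`v_k(c_k 2)`, which converges to an invertible matrix; so `u_k` converges (along the subsequence) to
the normalisation of `v`.
-/

set_option autoImplicit false

open Topology Filter Matrix

namespace Pool.Agent.TR

private theorem cpt_ex (n j : ℕ) : Continuous fun c : Cf n => ex c j := by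
  unfold ex
  by_cases h : j < 4 * n
  · simp only [h, dite_true]
    exact continuous_apply _
  · simp only [h, dite_false]
    exact continuous_const

private theorem cpt_dot (n j : ℕ) (a : Fin 2) :
    Continuous fun p : (Fin 2 → Fin (n + 2) → ℝ) × Cf n => p.1 a ⬝ᵥ ex p.2 j := by
  unfold dotProduct
  refine continuous_finsetSum _ fun i _ => Continuous.mul ?_ ?_
  · exact (continuous_apply i).comp ((continuous_apply a).comp continuous_fst)
  · exact (continuous_apply i).comp ((cpt_ex n j).comp continuous_snd)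

private theorem cpt_om_cont (n i j : ℕ) :
    Continuous fun p : (Fin 2 → Fin (n + 2) → ℝ) × Cf n => om p.1 (ex p.2 i) (ex p.2 j) := by
  unfold om
  exact ((cpt_dot n i 0).mul (cpt_dot n j 1)).sub ((cpt_dot n i 1).mul (cpt_dot n j 0))

private theorem cpt_om {m : ℕ} (u : Fin 2 → Fin m → ℝ) (x y : Fin m → ℝ) :
    om u x y = ∑ i, ∑ j, (u 0 i * u 1 j - u 1 i * u 0 j) * (x i * y j) := by
  unfold om dotProduct
  rw [Finset.sum_mul_sum, Finset.sum_mul_sum, ← Finset.sum_sub_distrib]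
  refine Finset.sum_congr rfl fun i _ => ?_
  rw [← Finset.sum_sub_distrib]
  refine Finset.sum_congr rfl fun j _ => ?_
  ring

private theorem cpt_act (g : Matrix (Fin 2) (Fin 2) ℝ) {m : ℕ} (u : Fin 2 → Fin m → ℝ) (a : Fin 2)
    (j : Fin m) : act g u a j = g a 0 * u 0 j + g a 1 * u 1 j := rfl

private theorem cpt_bdd {m : ℕ} (u : Fin 2 → Fin m → ℝ) {x y : Fin m → ℝ} (h : om u x y = 1) :
    ∃ (p q : Fin m) (g : Matrix (Fin 2) (Fin 2) ℝ), g.det ≠ 0 ∧ act g u 0 p = 1 ∧
      act g u 0 q = 0 ∧ act g u 1 p = 0 ∧ act g u 1 q = 1 ∧ ∀ a j, |act g u a j| ≤ 1 := by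
  have hne : (Finset.univ : Finset (Fin m × Fin m)).Nonempty := by
    by_contra hemp
    rw [Finset.not_nonempty_iff_eq_empty] at hemp
    have : IsEmpty (Fin m) := by
      by_contra hm
      rw [not_isEmpty_iff] at hm
      obtain ⟨i⟩ := hm
      have hi := Finset.mem_univ ((i, i) : Fin m × Fin m)
      rw [hemp] at hi
      exact absurd hi (Finset.notMem_empty _)
    rw [cpt_om, Finset.univ_eq_empty, Finset.sum_empty] at h
    exact zero_ne_one h
  obtain ⟨⟨p, q⟩, -, hmax⟩ := Finset.exists_max_image Finset.univ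
    (fun i : Fin m × Fin m => |u 0 i.1 * u 1 i.2 - u 1 i.1 * u 0 i.2|) hne
  have hmax' : ∀ i j, |u 0 i * u 1 j - u 1 i * u 0 j| ≤ |u 0 p * u 1 q - u 1 p * u 0 q| :=
    fun i j => hmax (i, j) (Finset.mem_univ _)
  have hP : u 0 p * u 1 q - u 1 p * u 0 q ≠ 0 := by
    intro h0
    rw [cpt_om] at h
    rw [Finset.sum_eq_zero] at h
    · exact zero_ne_one h
    · intro i _
      refine Finset.sum_eq_zero fun j _ => ?_
      have h1 := hmax' i j
      rw [h0, abs_zero] at h1
      rw [abs_eq_zero.1 (le_antisymm h1 (abs_nonneg _)), zero_mul]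
  set P := u 0 p * u 1 q - u 1 p * u 0 q with hPdef
  let g : Matrix (Fin 2) (Fin 2) ℝ := !![u 1 q / P, -u 0 q / P; -u 1 p / P, u 0 p / P]
  have h0 : ∀ j, act g u 0 j = (u 0 j * u 1 q - u 1 j * u 0 q) / P := by
    intro j
    rw [cpt_act]
    change u 1 q / P * u 0 j + -u 0 q / P * u 1 j = _
    ring
  have h1 : ∀ j, act g u 1 j = (u 0 p * u 1 j - u 1 p * u 0 j) / P := by
    intro j
    rw [cpt_act]
    change -u 1 p / P * u 0 j + u 0 p / P * u 1 j = _
    ring
  refine ⟨p, q, g, ?_, ?_, ?_, ?_, ?_, ?_⟩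
  · rw [Matrix.det_fin_two]
    change u 1 q / P * (u 0 p / P) - -u 0 q / P * (-u 1 p / P) ≠ 0
    have : u 1 q / P * (u 0 p / P) - -u 0 q / P * (-u 1 p / P) = 1 / P := by
      field_simp
      rw [hPdef]
      ring
    rw [this]
    exact one_div_ne_zero hP
  · rw [h0]
    exact div_self hP
  · rw [h0, mul_comm (u 1 q), sub_self, zero_div]
  · rw [h1, mul_comm (u 1 p), sub_self, zero_div]
  · rw [h1]
    exact div_self hP
  · have hb : ∀ i j, |(u 0 i * u 1 j - u 1 i * u 0 j) / P| ≤ 1 := by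
      intro i j
      rw [abs_div, div_le_one (abs_pos.2 hP)]
      exact hmax' i j
    intro a j
    fin_cases a
    · change |act g u 0 j| ≤ 1
      rw [h0]
      exact hb j q
    · change |act g u 1 j| ≤ 1
      rw [h1]
      exact hb p j

/-- the normalisation of a pair -/
private noncomputable def cptN (n : ℕ) (p : (Fin 2 → Fin (n + 2) → ℝ) × Cf n) :
    Fin 2 → Fin (n + 2) → ℝ := fun a j =>
  (if a = 0 then p.1 0 j * (p.1 1 ⬝ᵥ ex p.2 2) - p.1 1 j * (p.1 0 ⬝ᵥ ex p.2 2)
    else (p.1 0 ⬝ᵥ ex p.2 1) * p.1 1 j - (p.1 1 ⬝ᵥ ex p.2 1) * p.1 0 j) /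
    om p.1 (ex p.2 1) (ex p.2 2)

private theorem cptN_cont (n : ℕ) {p : (Fin 2 → Fin (n + 2) → ℝ) × Cf n}
    (hp : om p.1 (ex p.2 1) (ex p.2 2) ≠ 0) : ContinuousAt (cptN n) p := by
  refine continuousAt_pi.2 fun a => continuousAt_pi.2 fun j => ?_
  have hu : ∀ b : Fin 2, Continuous fun p : (Fin 2 → Fin (n + 2) → ℝ) × Cf n => p.1 b j :=
    fun b => (continuous_apply j).comp ((continuous_apply b).comp continuous_fst)
  unfold cptN
  refine ContinuousAt.div ?_ (cpt_om_cont n 1 2).continuousAt hp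
  by_cases ha : a = 0
  · simp only [ha, if_true]
    exact (((hu 0).mul (cpt_dot n 2 1)).sub ((hu 1).mul (cpt_dot n 2 0))).continuousAt
  · simp only [ha, if_false]
    exact (((cpt_dot n 1 0).mul (hu 1)).sub ((cpt_dot n 1 1).mul (hu 0))).continuousAt

private theorem cpt_act_dot (g : Matrix (Fin 2) (Fin 2) ℝ) {m : ℕ} (u : Fin 2 → Fin m → ℝ)
    (a : Fin 2) (x : Fin m → ℝ) :
    act g u a ⬝ᵥ x = g a 0 * (u 0 ⬝ᵥ x) + g a 1 * (u 1 ⬝ᵥ x) := by
  simp only [act, add_dotProduct, smul_dotProduct, smul_eq_mul]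

private theorem cptN_eq {n : ℕ} {c : Cf n} {u : Fin 2 → Fin (n + 2) → ℝ} (h : NF n (ex c) u)
    {g : Matrix (Fin 2) (Fin 2) ℝ} (hg : g.det ≠ 0) : cptN n (act g u, c) = u := by
  obtain ⟨h1, h2, h3, h4⟩ := h
  have ho : om (act g u) (ex c 1) (ex c 2) = g.det := by
    rw [om_act]
    unfold om
    rw [h1, h2, h3, h4]
    ring
  funext a j
  unfold cptN
  simp only
  rw [ho, div_eq_iff hg, cpt_act_dot, cpt_act_dot, cpt_act_dot, cpt_act_dot, h1, h2, h3, h4,
    cpt_act, cpt_act, Matrix.det_fin_two]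
  by_cases ha : a = 0
  · subst ha
    rw [if_pos rfl]
    ring
  · have ha1 : a = 1 := by omega
    subst ha1
    rw [if_neg ha]
    ring

theorem nf_compact {n : ℕ} (hn : 1 ≤ n) (c : ℕ → Cf n) (c0 : Cf n)
    (hc : Tendsto c atTop (𝓝 c0)) (hT : TPos (n + 2) (4 * n) (ex c0))
    (u : ℕ → Fin 2 → Fin (n + 2) → ℝ)
    (hu : ∀ k, NF n (ex (c k)) (u k) ∧ Sol n (ex (c k)) (u k)) :
    ∃ u0, NF n (ex c0) u0 ∧ Sol n (ex c0) u0 ∧ ∃ φ : ℕ → ℕ, StrictMono φ ∧
      Tendsto (fun k => u (φ k)) atTop (𝓝 u0) := by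
  have hom : ∀ k, om (u k) (ex (c k) 1) (ex (c k) 2) = 1 := by
    intro k
    obtain ⟨h1, h2, h3, h4⟩ := (hu k).1
    unfold om
    rw [h1, h2, h3, h4]
    ring
  choose p q g hg h0p h0q h1p h1q hb using fun k => cpt_bdd (u k) (hom k)
  -- compactness
  let K : Set (Fin 2 → Fin (n + 2) → ℝ) :=
    Set.pi Set.univ fun _ => Set.pi Set.univ fun _ => Set.Icc (-1) 1
  have hK : IsCompact K := isCompact_univ_pi fun _ => isCompact_univ_pi fun _ => isCompact_Icc
  have hmem : ∀ k, (((p k, q k), act (g k) (u k)) :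
      (Fin (n + 2) × Fin (n + 2)) × (Fin 2 → Fin (n + 2) → ℝ)) ∈
      (Set.univ : Set (Fin (n + 2) × Fin (n + 2))) ×ˢ K := by
    intro k
    refine ⟨Set.mem_univ _, fun a _ j _ => ?_⟩
    exact abs_le.1 (hb k a j)
  obtain ⟨⟨⟨p0, q0⟩, v⟩, -, φ, hφ, hlim⟩ :=
    (isCompact_univ.prod hK).tendsto_subseq hmem
  have hv : Tendsto (fun k => act (g (φ k)) (u (φ k))) atTop (𝓝 v) :=
    ((continuous_snd.tendsto _).comp hlim)
  have hpq : Tendsto (fun k => (p (φ k), q (φ k))) atTop (𝓝 (p0, q0)) :=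
    ((continuous_fst.tendsto _).comp hlim)
  have hev : ∀ᶠ k in atTop, (p (φ k), q (φ k)) = (p0, q0) := by
    rw [nhds_discrete, tendsto_pure] at hpq
    exact hpq
  have hcoord : ∀ (a : Fin 2) (j : Fin (n + 2)),
      Tendsto (fun k => act (g (φ k)) (u (φ k)) a j) atTop (𝓝 (v a j)) := fun a j =>
    tendsto_pi_nhds.1 (tendsto_pi_nhds.1 hv a) j
  have hv0p : v 0 p0 = 1 := by
    refine tendsto_nhds_unique (hcoord 0 p0) (tendsto_const_nhds.congr' ?_)
    filter_upwards [hev] with k hk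
    have hk1 : p (φ k) = p0 := congrArg Prod.fst hk
    rw [← hk1]
    exact (h0p (φ k)).symm
  have hv0q : v 0 q0 = 0 := by
    refine tendsto_nhds_unique (hcoord 0 q0) (tendsto_const_nhds.congr' ?_)
    filter_upwards [hev] with k hk
    have hk1 : q (φ k) = q0 := congrArg Prod.snd hk
    rw [← hk1]
    exact (h0q (φ k)).symm
  have hv1p : v 1 p0 = 0 := by
    refine tendsto_nhds_unique (hcoord 1 p0) (tendsto_const_nhds.congr' ?_)
    filter_upwards [hev] with k hk
    have hk1 : p (φ k) = p0 := congrArg Prod.fst hk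
    rw [← hk1]
    exact (h1p (φ k)).symm
  have hv1q : v 1 q0 = 1 := by
    refine tendsto_nhds_unique (hcoord 1 q0) (tendsto_const_nhds.congr' ?_)
    filter_upwards [hev] with k hk
    have hk1 : q (φ k) = q0 := congrArg Prod.snd hk
    rw [← hk1]
    exact (h1q (φ k)).symm
  have hli : LinearIndependent ℝ v := by
    refine Fintype.linearIndependent_iff.2 fun w hw => ?_
    rw [Fin.sum_univ_two] at hw
    have e1 := congrFun hw p0
    have e2 := congrFun hw q0
    simp only [Pi.add_apply, Pi.smul_apply, smul_eq_mul, Pi.zero_apply, hv0p, hv0q, hv1p, hv1q,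
      mul_one, mul_zero, add_zero, zero_add] at e1 e2
    intro i
    fin_cases i
    · exact e1
    · exact e2
  have hcφ : Tendsto (fun k => c (φ k)) atTop (𝓝 c0) := hc.comp hφ.tendsto_atTop
  have hvc : Tendsto (fun k => (act (g (φ k)) (u (φ k)), c (φ k))) atTop (𝓝 (v, c0)) :=
    hv.prodMk_nhds hcφ
  have hsol : Sol n (ex c0) v := by
    intro i hi
    refine tendsto_nhds_unique (((cpt_om_cont n (2 * i) (2 * i + 1)).tendsto (v, c0)).comp hvc)
      (tendsto_const_nhds.congr fun k => ?_)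
    change 0 = om (act (g (φ k)) (u (φ k))) _ _
    rw [om_act, (hu (φ k)).2 i hi, mul_zero]
  have hne := good_first hn hT hli hsol
  have hN : Tendsto (fun k => u (φ k)) atTop (𝓝 (cptN n (v, c0))) := by
    refine ((cptN_cont n (p := (v, c0)) hne).tendsto.comp hvc).congr fun k => ?_
    exact cptN_eq (hu (φ k)).1 (hg (φ k))
  have huc : Tendsto (fun k => (u (φ k), c (φ k))) atTop (𝓝 (cptN n (v, c0), c0)) :=
    hN.prodMk_nhds hcφ
  refine ⟨cptN n (v, c0), ⟨?_, ?_, ?_, ?_⟩, ?_, φ, hφ, hN⟩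
  · exact tendsto_nhds_unique (((cpt_dot n 1 0).tendsto _).comp huc)
      (tendsto_const_nhds.congr fun k => (hu (φ k)).1.1.symm)
  · exact tendsto_nhds_unique (((cpt_dot n 1 1).tendsto _).comp huc)
      (tendsto_const_nhds.congr fun k => (hu (φ k)).1.2.1.symm)
  · exact tendsto_nhds_unique (((cpt_dot n 2 0).tendsto _).comp huc)
      (tendsto_const_nhds.congr fun k => (hu (φ k)).1.2.2.1.symm)
  · exact tendsto_nhds_unique (((cpt_dot n 2 1).tendsto _).comp huc)
      (tendsto_const_nhds.congr fun k => (hu (φ k)).1.2.2.2.symm)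
  · intro i hi
    exact tendsto_nhds_unique (((cpt_om_cont n (2 * i) (2 * i + 1)).tendsto _).comp huc)
      (tendsto_const_nhds.congr fun k => ((hu (φ k)).2 i hi).symm)

end Pool.Agent.TR
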