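import Pool.Agent.Helper65.TR.NFS
import Pool.Agent.Helper65.TR.CPT

/-!
# TRL CLO : openness of `RR` and the boundary of `RR`

PROOFS. `rr_open`: the solutions in the finset `U` persist (`nf_stab`, second part, with `η` less
than half of the mutual distances), remain right (`jj_cont`, `sgA_ev`, `om_cont`).
`clo`: let `c_k ∈ S`, `c_k → c`, with finsets `U_k` of `catalan n` right normal solutions, written
as functions `Fin (catalan n) → pairs`, injective.  By `nf_compact` (applied successively to the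
`catalan n` members) a subsequence converges to normal solutions `u^a` of `c`, `a < catalan n`.
If one of the `u^a` has `JJ = 0` we are done (the pairs `(u_k^a, c_k)` converge to `(u^a, c)`).
Otherwise all are nondegenerate; they are pairwise different (first part of `nf_stab`: two normal
solutions of `c_k` in a small neighbourhood of `u^a = u^b` coincide), and right: `om = 1 > 0`;
`σ sgA JJ > 0` for `(u_k^a, c_k)`, `sgA` is locally constant, `JJ` continuous and `≠ 0` in the limit.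
So `RR n σ (ex c)`, contradiction.
-/

set_option autoImplicit false

open Topology Filter

namespace Pool.Agent.TR

namespace CLO

lemma om_nf {n : ℕ} {A : ℕ → Fin (n + 2) → ℝ} {u : Fin 2 → Fin (n + 2) → ℝ} (h : NF n A u) :
    om u (A 1) (A 2) = 1 := by
  obtain ⟨h1, h2, h3, h4⟩ := h
  rw [om, h1, h2, h3, h4]; ring

/-- Near a right solution all solutions are right. -/
lemma right_ev {n : ℕ} (hn : 1 ≤ n) {σ : ℝ} {c0 : Cf n} {u0 : Fin 2 → Fin (n + 2) → ℝ}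
    (hT : TPos (n + 2) (4 * n) (ex c0)) (hNF : NF n (ex c0) u0) (hR : RightS n σ (ex c0) u0) :
    ∃ η : ℝ, 0 < η ∧ ∀ᶠ c in 𝓝 c0, ∀ u, dist u u0 < η → NF n (ex c) u → Sol n (ex c) u →
      RightS n σ (ex c) u := by
  have hli : LinearIndependent ℝ u0 := li_of_om (by rw [om_nf hNF]; exact one_ne_zero)
  have h1 := sgA_ev hn hT hli hR.1
  have h2 : ∀ᶠ p : (Fin 2 → Fin (n + 2) → ℝ) × Cf n in 𝓝 (u0, c0),
      0 < σ * sgA n (ex c0) u0 * JJ n (ex p.2) (ex p.2 1) (ex p.2 2) p.1 := by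
    have hc : Continuous fun p : (Fin 2 → Fin (n + 2) → ℝ) × Cf n =>
        σ * sgA n (ex c0) u0 * JJ n (ex p.2) (ex p.2 1) (ex p.2 2) p.1 :=
      continuous_const.mul (jj_cont n)
    exact (hc.tendsto (u0, c0)).eventually (lt_mem_nhds hR.2.2)
  have h3 : ∀ᶠ p : (Fin 2 → Fin (n + 2) → ℝ) × Cf n in 𝓝 (u0, c0),
      0 < σ * sgA n (ex p.2) p.1 * JJ n (ex p.2) (ex p.2 1) (ex p.2 2) p.1 := by
    filter_upwards [h1, h2] with p hp1 hp2
    rw [hp1]; exact hp2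
  rw [nhds_prod_eq, Filter.eventually_prod_iff] at h3
  obtain ⟨pa, hpa, pb, hpb, hab⟩ := h3
  obtain ⟨η, hη, hη2⟩ := Metric.eventually_nhds_iff.1 hpa
  refine ⟨η, hη, ?_⟩
  filter_upwards [hpb] with c hc u hu hNFu hsu
  refine ⟨hsu, ?_, hab (hη2 hu) hc⟩
  rw [om_nf hNFu]; exact one_pos

/-- Radii separating the points of a finite set. -/
lemma exists_rad {X : Type*} [MetricSpace X] (U : Finset X) (η : X → ℝ) (hη : ∀ u ∈ U, 0 < η u) :
    ∃ r : ℝ, 0 < r ∧ (∀ u ∈ U, r ≤ η u) ∧ ∀ u ∈ U, ∀ v ∈ U, u ≠ v → 2 * r ≤ dist u v := by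
  have h1 : ∀ᶠ r : ℝ in 𝓝[>] 0, ∀ u ∈ U, r ≤ η u := by
    rw [Filter.eventually_all_finset]
    intro u hu
    filter_upwards [Ioo_mem_nhdsGT (hη u hu)] with r hr
    exact hr.2.le
  have h2 : ∀ᶠ r : ℝ in 𝓝[>] 0, ∀ u ∈ U, ∀ v ∈ U, u ≠ v → 2 * r ≤ dist u v := by
    rw [Filter.eventually_all_finset]
    intro u _
    rw [Filter.eventually_all_finset]
    intro v _
    by_cases huv : u = v
    · exact Filter.Eventually.of_forall fun r h => absurd huv h
    · filter_upwards [Ioo_mem_nhdsGT (show (0 : ℝ) < dist u v / 2 from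
        half_pos (dist_pos.mpr huv))] with r hr _
      linarith [hr.2]
  have h3 : ∀ᶠ r : ℝ in 𝓝[>] 0, 0 < r := self_mem_nhdsWithin
  obtain ⟨r, hr1, hr2, hr3⟩ := (h1.and (h2.and h3)).exists
  exact ⟨r, hr3, hr1, hr2⟩

/-- Common subsequence. -/
lemma common {n N : ℕ} (hn : 1 ≤ n) (c : ℕ → Cf n) (c0 : Cf n) (hc : Tendsto c atTop (𝓝 c0))
    (hT : TPos (n + 2) (4 * n) (ex c0)) (e : ℕ → Fin N → Fin 2 → Fin (n + 2) → ℝ)
    (he : ∀ k a, NF n (ex (c k)) (e k a) ∧ Sol n (ex (c k)) (e k a)) (s : Finset (Fin N)) :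
    ∃ φ : ℕ → ℕ, StrictMono φ ∧ ∀ a ∈ s, ∃ u0, NF n (ex c0) u0 ∧ Sol n (ex c0) u0 ∧
      Tendsto (fun k => e (φ k) a) atTop (𝓝 u0) := by
  classical
  induction s using Finset.induction_on with
  | empty => exact ⟨id, strictMono_id, fun a ha => absurd ha (Finset.notMem_empty a)⟩
  | insert a s _ ih =>
    obtain ⟨φ, hφ, h⟩ := ih
    obtain ⟨u0, hu1, hu2, ψ, hψ, hψ2⟩ := nf_compact hn (fun k => c (φ k)) c0
      (hc.comp hφ.tendsto_atTop) hT (fun k => e (φ k) a) (fun k => he (φ k) a)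
    refine ⟨fun k => φ (ψ k), hφ.comp hψ, fun b hb => ?_⟩
    rcases Finset.mem_insert.1 hb with rfl | hb
    · exact ⟨u0, hu1, hu2, hψ2⟩
    · obtain ⟨v, hv1, hv2, hv3⟩ := h b hb
      exact ⟨v, hv1, hv2, hv3.comp hψ.tendsto_atTop⟩

end CLO

open CLO

theorem rr_open (n : ℕ) (hn : 1 ≤ n) (σ : ℝ) : IsOpen {c : Cf n | RR n σ (ex c)} := by
  classical
  rw [isOpen_iff_mem_nhds]
  rintro c0 ⟨hT, U, hcard, hU⟩
  have hT' : ∀ᶠ c in 𝓝 c0, TPos (n + 2) (4 * n) (ex c) := (tpos_isOpen n).mem_nhds hT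
  have hr : ∀ u ∈ U, ∃ η : ℝ, 0 < η ∧ ∀ᶠ c in 𝓝 c0, ∀ v, dist v u < η → NF n (ex c) v →
      Sol n (ex c) v → RightS n σ (ex c) v := fun u hu => right_ev hn hT (hU u hu).1 (hU u hu).2
  choose! η hη1 hη2 using hr
  obtain ⟨r, hr0, hr1, hr2⟩ := exists_rad U η hη1
  have hstab : ∀ u ∈ U, ∀ᶠ c in 𝓝 c0, ∃ v, dist v u < r ∧ NF n (ex c) v ∧ Sol n (ex c) v := by
    intro u hu
    have hJ : JJ n (ex c0) (ex c0 1) (ex c0 2) u ≠ 0 := by
      intro h0
      have := (hU u hu).2.2.2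
      rw [h0, mul_zero] at this
      exact lt_irrefl _ this
    exact (nf_stab hn (hU u hu).1 (hU u hu).2.1 hJ).2 r hr0
  have h1 : ∀ᶠ c in 𝓝 c0, ∀ u ∈ U, ∃ v, dist v u < r ∧ NF n (ex c) v ∧ Sol n (ex c) v := by
    rw [Filter.eventually_all_finset]; exact hstab
  have h2 : ∀ᶠ c in 𝓝 c0, ∀ u ∈ U, ∀ v, dist v u < η u → NF n (ex c) v →
      Sol n (ex c) v → RightS n σ (ex c) v := by
    rw [Filter.eventually_all_finset]; exact hη2
  filter_upwards [hT', h1, h2] with c hc1 hc2 hc3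
  choose! f hf using hc2
  refine ⟨hc1, U.image f, ?_, ?_⟩
  · rw [Finset.card_image_of_injOn, hcard]
    intro u hu v hv huv
    by_contra hne
    have d := hr2 u hu v hv hne
    have d1 := (hf u hu).1
    have d2 := (hf v hv).1
    rw [huv] at d1
    have d3 := dist_triangle_left u v (f v)
    linarith
  · intro w hw
    obtain ⟨u, hu, rfl⟩ := Finset.mem_image.1 hw
    exact ⟨(hf u hu).2.1, hc3 u hu (f u) ((hf u hu).1.trans_le (hr1 u hu)) (hf u hu).2.1
      (hf u hu).2.2⟩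

theorem clo {n : ℕ} (hn : 1 ≤ n) {σ : ℝ} {c : Cf n} (hT : TPos (n + 2) (4 * n) (ex c))
    (hnot : ¬ RR n σ (ex c)) {S : Set (Cf n)} (hS : ∀ c' ∈ S, RR n σ (ex c'))
    (hcl : c ∈ closure S) :
    ∃ u0, NF n (ex c) u0 ∧ Sol n (ex c) u0 ∧ JJ n (ex c) (ex c 1) (ex c 2) u0 = 0 ∧
      (u0, c) ∈ closure {p : (Fin 2 → Fin (n + 2) → ℝ) × Cf n |
        p.2 ∈ S ∧ NF n (ex p.2) p.1 ∧ Sol n (ex p.2) p.1} := by
  classical
  obtain ⟨cs, hcs, hlim⟩ := mem_closure_iff_seq_limit.1 hcl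
  have hex : ∀ k, ∃ e : Fin (catalan n) → Fin 2 → Fin (n + 2) → ℝ, Function.Injective e ∧
      ∀ a, NF n (ex (cs k)) (e a) ∧ RightS n σ (ex (cs k)) (e a) := by
    intro k
    obtain ⟨-, U, hcard, hU⟩ := hS _ (hcs k)
    let g := U.equivFinOfCardEq hcard
    exact ⟨fun a => (g.symm a : Fin 2 → Fin (n + 2) → ℝ),
      Subtype.val_injective.comp g.symm.injective, fun a => hU _ (g.symm a).2⟩
  choose e he1 he2 using hex
  obtain ⟨φ, hφ, hφ2⟩ := common hn cs c hlim hT e (fun k a => ⟨(he2 k a).1, (he2 k a).2.1⟩)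
    Finset.univ
  have hφ3 : ∀ a, ∃ u0, NF n (ex c) u0 ∧ Sol n (ex c) u0 ∧
      Tendsto (fun k => e (φ k) a) atTop (𝓝 u0) := fun a => hφ2 a (Finset.mem_univ a)
  choose u hu1 hu2 hu3 using hφ3
  have hcφ : Tendsto (fun k => cs (φ k)) atTop (𝓝 c) := hlim.comp hφ.tendsto_atTop
  have hpair : ∀ a, Tendsto (fun k => (e (φ k) a, cs (φ k))) atTop (𝓝 (u a, c)) := fun a =>
    (hu3 a).prodMk_nhds hcφ
  by_cases hJ : ∃ a, JJ n (ex c) (ex c 1) (ex c 2) (u a) = 0
  · obtain ⟨a, ha⟩ := hJ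
    refine ⟨u a, hu1 a, hu2 a, ha, mem_closure_of_tendsto (hpair a) ?_⟩
    exact Filter.Eventually.of_forall fun k =>
      ⟨hcs _, (he2 (φ k) a).1, (he2 (φ k) a).2.1⟩
  · push Not at hJ
    exfalso
    apply hnot
    refine ⟨hT, Finset.univ.image u, ?_, ?_⟩
    · rw [Finset.card_image_of_injective, Finset.card_univ, Fintype.card_fin]
      intro a b hab
      obtain ⟨ρ, hρ, hev⟩ := (nf_stab hn (hu1 a) (hu2 a) (hJ a)).1
      have h1 := hcφ.eventually hev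
      have h2 : ∀ᶠ k in atTop, dist (e (φ k) a) (u a) < ρ :=
        (hu3 a).eventually (Metric.ball_mem_nhds _ hρ)
      have h3 : ∀ᶠ k in atTop, dist (e (φ k) b) (u a) < ρ := by
        rw [hab]
        exact (hu3 b).eventually (Metric.ball_mem_nhds _ hρ)
      obtain ⟨k, hk1, hk2, hk3⟩ := (h1.and (h2.and h3)).exists
      exact he1 (φ k) (hk1 _ _ hk2 hk3 (he2 (φ k) a).1 (he2 (φ k) a).2.1 (he2 (φ k) b).1
        (he2 (φ k) b).2.1)
    · intro w hw
      obtain ⟨a, -, rfl⟩ := Finset.mem_image.1 hw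
      refine ⟨hu1 a, hu2 a, by rw [om_nf (hu1 a)]; exact one_pos, ?_⟩
      have hli : LinearIndependent ℝ (u a) :=
        li_of_om (by rw [om_nf (hu1 a)]; exact one_ne_zero)
      have h1 := (hpair a).eventually (sgA_ev hn hT hli (hu2 a))
      have h2 : Tendsto (fun k => σ * sgA n (ex c) (u a) *
          JJ n (ex (cs (φ k))) (ex (cs (φ k)) 1) (ex (cs (φ k)) 2) (e (φ k) a)) atTop
          (𝓝 (σ * sgA n (ex c) (u a) * JJ n (ex c) (ex c 1) (ex c 2) (u a))) :=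
        (((jj_cont n).tendsto (u a, c)).comp (hpair a)).const_mul _
      have h3 : ∀ᶠ k in atTop, 0 < σ * sgA n (ex c) (u a) *
          JJ n (ex (cs (φ k))) (ex (cs (φ k)) 1) (ex (cs (φ k)) 2) (e (φ k) a) := by
        filter_upwards [h1] with k hk
        have := (he2 (φ k) a).2.2.2
        rwa [hk] at this
      have h4 : 0 ≤ σ * sgA n (ex c) (u a) * JJ n (ex c) (ex c 1) (ex c 2) (u a) :=
        ge_of_tendsto h2 (h3.mono fun k hk => hk.le)
      refine lt_of_le_of_ne h4 (Ne.symm (mul_ne_zero ?_ (hJ a)))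
      obtain ⟨k, hk⟩ := h3.exists
      intro h0
      rw [h0, zero_mul] at hk
      exact lt_irrefl _ hk

end Pool.Agent.TR
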