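import Pool.Agent.Helper65.TR.Defs

/-!
# TRL CUT : elementary facts on strict sign changes

`alt_cut`: if `D'` differs from `D` only at `i` and `D'_i` has the sign of `D_(i-1)`, then `D'` has
at most as many sign changes as `D` (an alternating subsequence through `i` does not contain
`i - 1`, replace `i` by `i - 1`).
`alt_drop`: removing one index removes at most two sign changes (if the index is an inner member
`s_k` of the alternating subsequence, `D(s_(k-1))` and `D(s_(k+1))` have the same sign, drop one
more).  `alt_tail`: removing the first index removes at most one.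
-/

set_option autoImplicit false

namespace Pool.Agent.TR

theorem alt_mono {D : ℕ → ℝ} {K r r' : ℕ} (hr : r' ≤ r) (h : Alt D K r) : Alt D K r' := by
  obtain ⟨s, h1, h2, h3⟩ := h
  exact ⟨s, fun k hk => h1 k (by omega), fun k hk => h2 k (by omega), fun k hk => h3 k (by omega)⟩

theorem alt_congr {D D' : ℕ → ℝ} {K r : ℕ} (hD : ∀ j < K, D' j = D j) (h : Alt D K r) :
    Alt D' K r := by
  obtain ⟨s, h1, h2, h3⟩ := h
  refine ⟨s, h1, h2, fun k hk => ?_⟩
  rw [hD _ (h2 k (by omega)), hD _ (h2 (k + 1) (by omega))]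
  exact h3 k hk

theorem alt_scale {D D' : ℕ → ℝ} {K r : ℕ} (c : ℕ → ℝ) (hc : ∀ j < K, 0 < c j)
    (hD : ∀ j < K, D' j = c j * D j) (h : Alt D K r) : Alt D' K r := by
  obtain ⟨s, h1, h2, h3⟩ := h
  refine ⟨s, h1, h2, fun k hk => ?_⟩
  have ha := h2 k (by omega)
  have hb := h2 (k + 1) (by omega)
  rw [hD _ ha, hD _ hb,
    show c (s k) * D (s k) * (c (s (k + 1)) * D (s (k + 1))) =
      (c (s k) * c (s (k + 1))) * (D (s k) * D (s (k + 1))) by ring]
  exact mul_neg_of_pos_of_neg (mul_pos (hc _ ha) (hc _ hb)) (h3 k hk)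

private theorem cut_min (f : ℕ → ℝ) (r : ℕ) :
    ∃ ε : ℝ, 0 < ε ∧ ∀ k ≤ r, f k ≠ 0 → ε ≤ |f k| := by
  induction r with
  | zero =>
    by_cases h : f 0 = 0
    · exact ⟨1, one_pos, fun k hk h' => absurd (by rw [Nat.le_zero.1 hk]; exact h) h'⟩
    · exact ⟨|f 0|, abs_pos.2 h, fun k hk _ => by rw [Nat.le_zero.1 hk]⟩
  | succ r ih =>
    obtain ⟨ε, hε, h⟩ := ih
    by_cases h0 : f (r + 1) = 0
    · refine ⟨ε, hε, fun k hk h' => ?_⟩
      rcases Nat.lt_or_ge r k with hlt | hge
      · have : k = r + 1 := by omega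
        exact absurd (this ▸ h0) h'
      · exact h k hge h'
    · refine ⟨min ε |f (r + 1)|, lt_min hε (abs_pos.2 h0), fun k hk h' => ?_⟩
      rcases Nat.lt_or_ge r k with hlt | hge
      · have : k = r + 1 := by omega
        rw [this]
        exact min_le_right _ _
      · exact (min_le_left _ _).trans (h k hge h')

private theorem cut_near {x y : ℝ} (h : |x - y| < |y|) : 0 < x * y := by
  rw [abs_lt] at h
  rcases lt_trichotomy y 0 with hy | hy | hy
  · rw [abs_of_neg hy] at h
    exact mul_pos_of_neg_of_neg (by linarith [h.2]) hy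
  · rw [hy, abs_zero] at h
    linarith [h.1, h.2]
  · rw [abs_of_pos hy] at h
    exact mul_pos (by linarith [h.1]) hy

/-- transfer of a strict sign change -/
private theorem cut_sign {x y x' y' : ℝ} (hx : x' = x ∨ 0 < x' * x) (hy : y' = y ∨ 0 < y' * y)
    (h : x * y < 0) : x' * y' < 0 := by
  have hx0 : x ≠ 0 := by rintro rfl; simp at h
  have hy0 : y ≠ 0 := by rintro rfl; simp at h
  have hx1 : 0 < x' * x := by
    rcases hx with h1 | h1
    · rw [h1]; exact mul_self_pos.2 hx0
    · exact h1
  have hy1 : 0 < y' * y := by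
    rcases hy with h1 | h1
    · rw [h1]; exact mul_self_pos.2 hy0
    · exact h1
  by_contra hcon
  push Not at hcon
  have h2 : 0 < (x' * y') * (x * y) := by
    rw [show x' * y' * (x * y) = (x' * x) * (y' * y) by ring]
    exact mul_pos hx1 hy1
  nlinarith

theorem alt_open {D : ℕ → ℝ} {K r : ℕ} (h : Alt D K r) :
    ∃ ε : ℝ, 0 < ε ∧ ∀ D' : ℕ → ℝ, (∀ j < K, |D' j - D j| < ε) → Alt D' K r := by
  obtain ⟨s, h1, h2, h3⟩ := h
  obtain ⟨ε, hε, hmin⟩ := cut_min (fun k => D (s k)) r
  refine ⟨ε, hε, fun D' hD' => ⟨s, h1, h2, fun k hk => ?_⟩⟩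
  have h4 := h3 k hk
  have ha : D (s k) ≠ 0 := by intro h0; rw [h0, zero_mul] at h4; exact lt_irrefl _ h4
  have hb : D (s (k + 1)) ≠ 0 := by intro h0; rw [h0, mul_zero] at h4; exact lt_irrefl _ h4
  refine cut_sign (Or.inr (cut_near ?_)) (Or.inr (cut_near ?_)) h4
  · exact (hD' _ (h2 k (by omega))).trans_le (hmin k (by omega) ha)
  · exact (hD' _ (h2 (k + 1) (by omega))).trans_le (hmin (k + 1) (by omega) hb)

theorem alt_cut {D D' : ℕ → ℝ} {K r i : ℕ} (hi : 1 ≤ i) (hK : i < K)
    (hE : ∀ j, j ≠ i → D' j = D j) (hs : 0 < D' i * D (i - 1)) (h : Alt D' K r) : Alt D K r := by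
  obtain ⟨s, h1, h2, h3⟩ := h
  have key : ∀ k, D (if s k = i then i - 1 else s k) = D' (s k) ∨
      0 < D (if s k = i then i - 1 else s k) * D' (s k) := by
    intro k
    split_ifs with hk
    · right
      rw [hk, mul_comm]
      exact hs
    · left
      exact (hE _ hk).symm
  refine ⟨fun k => if s k = i then i - 1 else s k, fun k hk => ?_, fun k hk => ?_, fun k hk => ?_⟩
  · have h4 := h1 k hk
    dsimp only
    by_cases ha : s k = i
    · have hb : s (k + 1) ≠ i := by omega
      rw [if_pos ha, if_neg hb]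
      omega
    · rw [if_neg ha]
      by_cases hb : s (k + 1) = i
      · rw [if_pos hb]
        have hne : s k ≠ i - 1 := by
          intro hcon
          have h5 := h3 k hk
          rw [hb, hcon, hE (i - 1) (by omega)] at h5
          nlinarith
        omega
      · rw [if_neg hb]
        exact h4
  · dsimp only
    have h4 := h2 k hk
    split_ifs
    · omega
    · exact h4
  · exact cut_sign (key k) (key (k + 1)) (h3 k hk)

private theorem cut_lt {s : ℕ → ℕ} {R : ℕ} (h : ∀ k < R, s k < s (k + 1)) :
    ∀ a b : ℕ, a < b → b ≤ R → s a < s b := by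
  intro a b hab
  induction b, hab using Nat.le_induction with
  | base => intro hb; exact h a (by omega)
  | succ b hab ih =>
    intro hb
    exact (ih (by omega)).trans (h b (by omega))

theorem alt_drop {D : ℕ → ℝ} {K r i : ℕ} (hi : i < K + 1) (h : Alt D (K + 1) (r + 2)) :
    Alt (fun j => D (if j < i then j else j + 1)) K r := by
  obtain ⟨s, h1, h2, h3⟩ := h
  have hlt := cut_lt h1
  -- a sequence avoiding `i`
  obtain ⟨t, ht1, ht2, ht3, ht4⟩ : ∃ t : ℕ → ℕ, (∀ k < r, t k < t (k + 1)) ∧
      (∀ k ≤ r, t k < K + 1) ∧ (∀ k < r, D (t k) * D (t (k + 1)) < 0) ∧ ∀ k ≤ r, t k ≠ i := by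
    by_cases hex : ∃ k₀ ≤ r, s k₀ = i
    · obtain ⟨k₀, hk₀, hsk⟩ := hex
      refine ⟨fun k => if k < k₀ then s k else s (k + 2), fun k hk => ?_, fun k hk => ?_,
        fun k hk => ?_, fun k hk => ?_⟩
      · dsimp only
        by_cases ha : k < k₀
        · by_cases hb : k + 1 < k₀
          · rw [if_pos ha, if_pos hb]; exact h1 k (by omega)
          · rw [if_pos ha, if_neg hb]; exact hlt _ _ (by omega) (by omega)
        · rw [if_neg ha, if_neg (by omega)]; exact hlt _ _ (by omega) (by omega)
      · dsimp only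
        split_ifs
        · exact h2 k (by omega)
        · exact h2 (k + 2) (by omega)
      · dsimp only
        by_cases ha : k < k₀
        · by_cases hb : k + 1 < k₀
          · rw [if_pos ha, if_pos hb]; exact h3 k (by omega)
          · rw [if_pos ha, if_neg hb]
            have e1 := h3 k (by omega)
            have e2 := h3 (k + 1) (by omega)
            have e3 := h3 (k + 2) (by omega)
            have e4 : 0 < D (s k) * D (s (k + 1)) * (D (s (k + 1)) * D (s (k + 2))) :=
              mul_pos_of_neg_of_neg e1 e2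
            have e5 : D (s k) * D (s (k + 1)) * (D (s (k + 1)) * D (s (k + 2))) *
                (D (s (k + 2)) * D (s (k + 2 + 1))) < 0 := mul_neg_of_pos_of_neg e4 e3
            have e6 : D (s k) * D (s (k + 1)) * (D (s (k + 1)) * D (s (k + 2))) *
                (D (s (k + 2)) * D (s (k + 2 + 1))) =
                (D (s (k + 1)) * D (s (k + 2))) ^ 2 * (D (s k) * D (s (k + 2 + 1))) := by ring
            rw [e6] at e5
            have e7 : k + 1 + 2 = k + 2 + 1 := by omega
            rw [e7]
            by_contra hcon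
            push Not at hcon
            exact absurd e5 (not_lt.2 (mul_nonneg (sq_nonneg _) hcon))
        · rw [if_neg ha, if_neg (by omega)]
          have := h3 (k + 2) (by omega)
          rwa [show k + 2 + 1 = k + 1 + 2 by omega] at this
      · dsimp only
        by_cases ha : k < k₀
        · rw [if_pos ha]
          have := hlt k k₀ ha (by omega)
          omega
        · rw [if_neg ha]
          have := hlt k₀ (k + 2) (by omega) (by omega)
          omega
    · push Not at hex
      exact ⟨s, fun k hk => h1 k (by omega), fun k hk => h2 k (by omega),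
        fun k hk => h3 k (by omega), fun k hk => hex k hk⟩
  have hphi : ∀ k ≤ r, (if (if t k < i then t k else t k - 1) < i then
      (if t k < i then t k else t k - 1) else (if t k < i then t k else t k - 1) + 1) = t k := by
    intro k hk
    have := ht4 k hk
    split_ifs <;> omega
  refine ⟨fun k => if t k < i then t k else t k - 1, fun k hk => ?_, fun k hk => ?_,
    fun k hk => ?_⟩
  · have e1 := ht1 k hk
    have e2 := ht4 k (by omega)
    have e3 := ht4 (k + 1) (by omega)
    dsimp only
    split_ifs <;> omega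
  · have e1 := ht2 k hk
    have e2 := ht4 k hk
    dsimp only
    split_ifs <;> omega
  · dsimp only
    rw [hphi k (by omega), hphi (k + 1) (by omega)]
    exact ht3 k hk

theorem alt_tail {D : ℕ → ℝ} {K r : ℕ} (h : Alt D (K + 1) (r + 1)) :
    Alt (fun j => D (j + 1)) K r := by
  obtain ⟨s, h1, h2, h3⟩ := h
  have hlt := cut_lt h1
  have hpos : ∀ k ≤ r, 1 ≤ s (k + 1) := by
    intro k hk
    have := hlt 0 (k + 1) (by omega) (by omega)
    omega
  refine ⟨fun k => s (k + 1) - 1, fun k hk => ?_, fun k hk => ?_, fun k hk => ?_⟩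
  · have e1 := h1 (k + 1) (by omega)
    have e2 := hpos k (by omega)
    dsimp only
    omega
  · have e1 := h2 (k + 1) (by omega)
    have e2 := hpos k (by omega)
    dsimp only
    omega
  · dsimp only
    rw [Nat.sub_add_cancel (hpos k (by omega)), Nat.sub_add_cancel (hpos (k + 1) (by omega))]
    exact h3 (k + 1) (by omega)

end Pool.Agent.TR
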