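import Pool.Agent.Helper65.TR.QUO

/-!
# TRL PRJ : projection of a totally positive family from a column or from a positive combination
of two adjacent columns

PROOF. (`M ≥ m + 1` and total positivity give `v ≠ 0`.)  Take `π` from `quo` with `v = A j`
(resp. `v = α A i + β A (i+1)`).  For increasing indices `s_1 < ... < s_m` of the new family let the
first `p` of them be those with the sign `-`.  The minor is
`(-1)^p det(v, x_1, ..., x_m) = det(x_1, ..., x_p, v, x_(p+1), ..., x_m)` where the `x`'s are old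
columns, those with number `≤ p` have index `< j` (resp. `≤ i`), the others have index `> j`
(resp. `≥ i + 2`).  First case: this is a minor of `A`.  Second case: it is
`α det(.., A i, ..) + β det(.., A (i+1), ..)`; the second term is positive, the first is positive or
`0` (if `x_p = A i`).
-/

set_option autoImplicit false

open Matrix

namespace Pool.Agent.TR

private lemma prj_pos {m : ℕ} {s : Fin m → ℕ} (hs : StrictMono s) (j : ℕ) :
    ∃ p : Fin (m + 1), ∀ i : Fin m, i.castSucc < p ↔ s i < j := by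
  classical
  have h : ∃ n, n ≤ m ∧ ∀ i : Fin m, n ≤ i → j ≤ s i :=
    ⟨m, le_rfl, fun i hi => absurd i.2 (not_lt.2 hi)⟩
  have h1 := Nat.find_spec h
  refine ⟨⟨Nat.find h, by omega⟩, fun i => ?_⟩
  rw [Fin.lt_def]
  simp only [Fin.val_castSucc]
  constructor
  · intro hi
    by_contra hc
    exact Nat.find_min h hi ⟨by omega, fun i' hi' =>
      (not_lt.1 hc).trans (hs.monotone (Fin.le_def.2 hi'))⟩
  · intro hi
    by_contra hc
    exact absurd (h1.2 i (not_lt.1 hc)) (not_le.2 hi)

private lemma prj_prod {m : ℕ} (p : Fin (m + 1)) :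
    ∏ i : Fin m, (if i.castSucc < p then (-1 : ℝ) else 1) = (-1) ^ (p : ℕ) := by
  have h1 : ∏ i : Fin m, (if i.castSucc < p then (-1 : ℝ) else 1)
      = ∏ i : Fin m, (fun k : ℕ => if k < (p : ℕ) then (-1 : ℝ) else 1) i := by
    refine Finset.prod_congr rfl fun i _ => ?_
    simp [Fin.lt_def]
  rw [h1, Fin.prod_univ_eq_prod_range (fun k : ℕ => if k < (p : ℕ) then (-1 : ℝ) else 1) m,
    ← Finset.prod_range_mul_prod_Ico _ (show (p : ℕ) ≤ m from Nat.lt_succ_iff.1 p.2)]
  have h2 : ∏ k ∈ Finset.range (p : ℕ), (if k < (p : ℕ) then (-1 : ℝ) else 1)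
      = ∏ k ∈ Finset.range (p : ℕ), (-1 : ℝ) := by
    refine Finset.prod_congr rfl fun k hk => ?_
    rw [if_pos (Finset.mem_range.1 hk)]
  have h3 : ∏ k ∈ Finset.Ico (p : ℕ) m, (if k < (p : ℕ) then (-1 : ℝ) else 1) = 1 := by
    refine Finset.prod_eq_one fun k hk => ?_
    rw [if_neg (not_lt.2 (Finset.mem_Ico.1 hk).1)]
  rw [h2, h3, Finset.prod_const, Finset.card_range, mul_one]

private lemma prj_dt {m : ℕ} {v : Fin (m + 1) → ℝ} {π : (Fin (m + 1) → ℝ) →ₗ[ℝ] (Fin m → ℝ)}
    (hπ : ∀ x : Fin m → Fin (m + 1) → ℝ, dt (fun k => π (x k)) = dt (Matrix.vecCons v x))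
    (p : Fin (m + 1)) (x : Fin m → Fin (m + 1) → ℝ) :
    dt (fun i => (if i.castSucc < p then (-1 : ℝ) else 1) • π (x i))
      = dt (p.insertNth (α := fun _ => Fin (m + 1) → ℝ) v x) := by
  have h1 : dt (fun i => (if i.castSucc < p then (-1 : ℝ) else 1) • π (x i))
      = (∏ i : Fin m, (if i.castSucc < p then (-1 : ℝ) else 1)) * dt (fun i => π (x i)) :=
    det_mul_column _ (Matrix.of fun i => π (x i))
  have h2 : dt (p.insertNth (α := fun _ => Fin (m + 1) → ℝ) v x)
      = det ((Matrix.of (Matrix.vecCons v x)).submatrix p.cycleRange id) := by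
    unfold dt
    congr 1
    ext i j
    simp only [submatrix_apply, of_apply, Matrix.vecCons, id]
    rw [Fin.cons_apply_cycleRange]
  rw [h1, prj_prod, hπ, h2, det_permute, Fin.sign_cycleRange]
  simp [dt]

private lemma prj_mono {m : ℕ} {s : Fin m → ℕ} (hs : StrictMono s) (p : Fin (m + 1)) (j : ℕ)
    (h1 : ∀ i : Fin m, i.castSucc < p → s i < j) (h2 : ∀ i : Fin m, p ≤ i.castSucc → j < s i) :
    StrictMono (p.insertNth (α := fun _ => ℕ) j s) := by
  intro a b hab
  rcases Fin.eq_self_or_eq_succAbove p a with rfl | ⟨a', rfl⟩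
  · rcases Fin.eq_self_or_eq_succAbove a b with rfl | ⟨b', rfl⟩
    · exact absurd hab (lt_irrefl _)
    · rw [Fin.insertNth_apply_same, Fin.insertNth_apply_succAbove]
      exact h2 b' ((Fin.lt_succAbove_iff_le_castSucc _ _).1 hab)
  · rcases Fin.eq_self_or_eq_succAbove p b with rfl | ⟨b', rfl⟩
    · rw [Fin.insertNth_apply_same, Fin.insertNth_apply_succAbove]
      exact h1 a' ((Fin.succAbove_lt_iff_castSucc_lt _ _).1 hab)
    · rw [Fin.insertNth_apply_succAbove, Fin.insertNth_apply_succAbove]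
      exact hs (Fin.succAbove_lt_succAbove_iff.1 hab)

/-- A minor with the column `j` inserted. -/
private lemma prj_ins {m M : ℕ} {A : ℕ → Fin (m + 1) → ℝ} (hA : TPos (m + 1) M A)
    {s : Fin m → ℕ} (hs : StrictMono s) (hsM : ∀ i, s i < M) {j : ℕ} (hj : j < M)
    (p : Fin (m + 1)) (h1 : ∀ i : Fin m, i.castSucc < p → s i < j)
    (h2 : ∀ i : Fin m, p ≤ i.castSucc → j < s i) :
    0 < dt (p.insertNth (α := fun _ => Fin (m + 1) → ℝ) (A j) (fun i => A (s i))) := by
  have h3 := hA _ (prj_mono hs p j h1 h2) (by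
    intro a
    rcases Fin.eq_self_or_eq_succAbove p a with rfl | ⟨a', rfl⟩
    · rw [Fin.insertNth_apply_same]; exact hj
    · rw [Fin.insertNth_apply_succAbove]; exact hsM a')
  have h4 : (fun i => A ((p.insertNth (α := fun _ => ℕ) j s) i))
      = p.insertNth (α := fun _ => Fin (m + 1) → ℝ) (A j) (fun i => A (s i)) := by
    funext a
    rcases Fin.eq_self_or_eq_succAbove p a with rfl | ⟨a', rfl⟩
    · rw [Fin.insertNth_apply_same, Fin.insertNth_apply_same]
    · rw [Fin.insertNth_apply_succAbove, Fin.insertNth_apply_succAbove]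
  rwa [h4] at h3

private lemma prj_shift {m : ℕ} {s : Fin m → ℕ} (hs : StrictMono s) (j : ℕ) :
    StrictMono (fun i => if s i < j then s i else s i + 1) := by
  intro a b hab
  have := hs hab
  simp only
  split_ifs <;> omega

theorem tp_drop {m M j : ℕ} {A : ℕ → Fin (m + 1) → ℝ} (hm : 1 ≤ m) (hM : m + 1 ≤ M) (hj : j < M)
    (hA : TPos (m + 1) M A) :
    ∃ π : (Fin (m + 1) → ℝ) →ₗ[ℝ] (Fin m → ℝ),
      (∀ φ : Fin (m + 1) → ℝ, φ ⬝ᵥ A j = 0 → ∃ ψ : Fin m → ℝ, ∀ x, ψ ⬝ᵥ π x = φ ⬝ᵥ x) ∧
      TPos m (M - 1) (fun k => if k < j then -(π (A k)) else π (A (k + 1))) := by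
  have hv : A j ≠ 0 := by
    intro h0
    have h1 := hA (fun i : Fin (m + 1) => (i : ℕ) + (j - m))
      (fun a b hab => by have := Fin.lt_def.1 hab; simp only; omega)
      (fun a => by have := a.2; omega)
    have h2 : dt (fun i : Fin (m + 1) => A ((i : ℕ) + (j - m))) = 0 := by
      refine Matrix.det_eq_zero_of_row_eq_zero (⟨min j m, by omega⟩ : Fin (m + 1)) fun l => ?_
      show A (min j m + (j - m)) l = 0
      rw [show min j m + (j - m) = j by omega, h0]
      rfl
    exact absurd h2 (ne_of_gt h1)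
  obtain ⟨π, h1, -, h3⟩ := quo hm (A j) hv
  refine ⟨π, h3, ?_⟩
  intro s hs hsM
  obtain ⟨p, hp⟩ := prj_pos hs j
  have hins := prj_ins hA (prj_shift hs j) (fun i => by have := hsM i; split_ifs <;> omega) hj p
    (fun i hi => by rw [hp] at hi; simp only [if_pos hi]; exact hi)
    (fun i hi => by
      rw [← not_lt, hp] at hi
      simp only [if_neg hi]
      omega)
  rw [← prj_dt h1] at hins
  convert hins using 2
  funext i
  by_cases hi : s i < j
  · simp only [if_pos hi, if_pos ((hp i).2 hi)]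
    rw [neg_one_smul]
  · simp only [if_neg hi, if_neg (mt (hp i).1 hi)]
    rw [one_smul]

theorem tp_merge {m M i : ℕ} {A : ℕ → Fin (m + 1) → ℝ} (hm : 1 ≤ m) (hM : m + 1 ≤ M)
    (hi : i + 1 < M) (hA : TPos (m + 1) M A) {α β : ℝ} (hα : 0 < α) (hβ : 0 < β) :
    ∃ π : (Fin (m + 1) → ℝ) →ₗ[ℝ] (Fin m → ℝ),
      (∀ φ : Fin (m + 1) → ℝ, φ ⬝ᵥ (α • A i + β • A (i + 1)) = 0 →
        ∃ ψ : Fin m → ℝ, ∀ x, ψ ⬝ᵥ π x = φ ⬝ᵥ x) ∧
      TPos m (M - 1) (fun k => if k ≤ i then -(π (A k)) else π (A (k + 1))) := by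
  have hv : α • A i + β • A (i + 1) ≠ 0 := by
    intro h0
    have h1 := hA (fun l : Fin (m + 1) => (l : ℕ) + (i + 1 - m))
      (fun a b hab => by have := Fin.lt_def.1 hab; simp only; omega)
      (fun a => by have := a.2; omega)
    have h2 : dt (fun l : Fin (m + 1) => A ((l : ℕ) + (i + 1 - m))) = 0 := by
      unfold dt
      rw [← Matrix.exists_vecMul_eq_zero_iff]
      set l0 : Fin (m + 1) := ⟨min i (m - 1), by omega⟩ with hl0
      set l1 : Fin (m + 1) := ⟨min i (m - 1) + 1, by omega⟩ with hl1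
      refine ⟨Pi.single l0 α + Pi.single l1 β, fun h => ?_, ?_⟩
      · have h3 := congrFun h l0
        have hne : l0 ≠ l1 := by
          intro hh
          have := congrArg Fin.val hh
          simp only [hl0, hl1] at this
          omega
        rw [Pi.add_apply, Pi.single_eq_same, Pi.single_eq_of_ne hne, add_zero] at h3
        exact hα.ne' h3
      · rw [Matrix.add_vecMul, Matrix.single_vecMul, Matrix.single_vecMul]
        rw [← h0]
        congr 2
        · show A (min i (m - 1) + (i + 1 - m)) = A i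
          congr 1; omega
        · show A (min i (m - 1) + 1 + (i + 1 - m)) = A (i + 1)
          congr 1; omega
    exact absurd h2 (ne_of_gt h1)
  obtain ⟨π, h1, -, h3⟩ := quo hm _ hv
  refine ⟨π, h3, ?_⟩
  intro s hs hsM
  obtain ⟨p, hp⟩ := prj_pos hs (i + 1)
  -- the determinant is linear in the inserted vector
  set x : Fin m → Fin (m + 1) → ℝ := fun l => A (if s l < i + 1 then s l else s l + 1) with hx
  have hmain : dt (fun l => (fun k => if k ≤ i then -(π (A k)) else π (A (k + 1))) (s l))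
      = dt (p.insertNth (α := fun _ => Fin (m + 1) → ℝ) (α • A i + β • A (i + 1)) x) := by
    rw [← prj_dt h1]
    congr 1
    funext l
    by_cases hl : s l < i + 1
    · simp only [hx, if_pos (Nat.lt_succ_iff.1 hl), if_pos hl, if_pos ((hp l).2 hl)]
      rw [neg_one_smul]
    · simp only [hx, if_neg (mt Nat.lt_succ_iff.2 hl), if_neg hl, if_neg (mt (hp l).1 hl)]
      rw [one_smul]
  have hup : ∀ w : Fin (m + 1) → ℝ, (p.insertNth (α := fun _ => Fin (m + 1) → ℝ) w x)
      = Function.update (p.insertNth (α := fun _ => Fin (m + 1) → ℝ) 0 x) p w := by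
    intro w
    funext a
    rcases Fin.eq_self_or_eq_succAbove p a with rfl | ⟨a', rfl⟩
    · rw [Fin.insertNth_apply_same, Function.update_self]
    · rw [Fin.insertNth_apply_succAbove, Function.update_of_ne (Fin.succAbove_ne p a'),
        Fin.insertNth_apply_succAbove]
  have hlin : dt (p.insertNth (α := fun _ => Fin (m + 1) → ℝ) (α • A i + β • A (i + 1)) x)
      = α * dt (p.insertNth (α := fun _ => Fin (m + 1) → ℝ) (A i) x)
        + β * dt (p.insertNth (α := fun _ => Fin (m + 1) → ℝ) (A (i + 1)) x) := by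
    rw [hup, hup (A i), hup (A (i + 1))]
    have e1 := (Matrix.detRowAlternating (n := Fin (m + 1)) (R := ℝ)).map_update_add
      (p.insertNth (α := fun _ => Fin (m + 1) → ℝ) 0 x) p (α • A i) (β • A (i + 1))
    have e2 := (Matrix.detRowAlternating (n := Fin (m + 1)) (R := ℝ)).map_update_smul
      (p.insertNth (α := fun _ => Fin (m + 1) → ℝ) 0 x) p α (A i)
    have e3 := (Matrix.detRowAlternating (n := Fin (m + 1)) (R := ℝ)).map_update_smul
      (p.insertNth (α := fun _ => Fin (m + 1) → ℝ) 0 x) p β (A (i + 1))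
    rw [e2, e3] at e1
    exact e1
  have hpos2 : 0 < dt (p.insertNth (α := fun _ => Fin (m + 1) → ℝ) (A (i + 1)) x) := by
    refine prj_ins hA (prj_shift hs (i + 1)) (fun l => by have := hsM l; split_ifs <;> omega) hi p
      (fun l hl => by rw [hp] at hl; simp only [if_pos hl]; exact hl)
      (fun l hl => by
        rw [← not_lt, hp] at hl
        simp only [if_neg hl]
        omega)
  have hpos1 : 0 ≤ dt (p.insertNth (α := fun _ => Fin (m + 1) → ℝ) (A i) x) := by
    by_cases hex : ∃ l, s l = i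
    · obtain ⟨l, hl⟩ := hex
      have h0 : dt (p.insertNth (α := fun _ => Fin (m + 1) → ℝ) (A i) x) = 0 := by
        refine Matrix.det_zero_of_row_eq (Fin.succAbove_ne p l).symm ?_
        show (p.insertNth (α := fun _ => Fin (m + 1) → ℝ) (A i) x) p
          = (p.insertNth (α := fun _ => Fin (m + 1) → ℝ) (A i) x) (p.succAbove l)
        rw [Fin.insertNth_apply_same, Fin.insertNth_apply_succAbove]
        simp only [hx, hl, if_pos (Nat.lt_succ_self i)]
      exact h0.ge
    · push Not at hex
      refine (prj_ins hA (prj_shift hs (i + 1)) (fun l => by have := hsM l; split_ifs <;> omega)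
        (by omega) p ?_ ?_).le
      · intro l hl
        rw [hp] at hl
        have := hex l
        simp only [if_pos hl]
        omega
      · intro l hl
        rw [← not_lt, hp] at hl
        simp only [if_neg hl]
        omega
  rw [hmain, hlin]
  have := mul_pos hβ hpos2
  have := mul_nonneg hα.le hpos1
  linarith

end Pool.Agent.TR
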