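import Pool.Agent.Helper65.TR.TPM
import Pool.Agent.Helper65.TR.PRJ
import Pool.Agent.Helper65.TR.CUT

/-!
# TRL CLS : the closure of the totally positive families

PROOFS. All statements are limits of the strict ones.
`tpc_move`: take `B` totally positive close to `A`; the two minors of `B` are close to those of `A`,
the one in the denominator is positive, so `t_B = min(t, (1 - δ) W0(B) / W1(B))` is close to `t`
(small `δ`), and `tp_move` applies to `B, t_B`.
`alt_closed`: `Alt` is open (`alt_open`) and `gap u B` is close to `gap u A`.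
-/

set_option autoImplicit false

open Matrix

namespace Pool.Agent.TR

theorem tpc_of_tpos {m M : ℕ} {A : ℕ → Fin m → ℝ} (hA : TPos m M A) : TPc m M A := by
  sorry

theorem tpc_congr {m M : ℕ} {A B : ℕ → Fin m → ℝ} (h : ∀ j < M, A j = B j) (hA : TPc m M A) :
    TPc m M B := by
  sorry

theorem tpc_move {m M i : ℕ} {A : ℕ → Fin m → ℝ} (hm : 1 ≤ m) (hA : TPc m M A) (hi : 1 ≤ i)
    (hM : i + m ≤ M)
    (hW : 0 < dt (fun k : Fin m => if (k : ℕ) = 0 then A (i - 1) else A (i + k)))
    {t : ℝ} (ht0 : 0 ≤ t)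
    (ht : t * dt (fun k : Fin m => if (k : ℕ) = 0 then A (i - 1) else A (i + k)) ≤
      dt (fun k : Fin m => A (i + k))) :
    TPc m M (Function.update A i (A i - t • A (i - 1))) := by
  sorry

theorem alt_closed {m M : ℕ} (hG : GCP m) {A : ℕ → Fin m → ℝ} (hA : TPc m M A)
    (u : Fin 2 → Fin m → ℝ) : ¬ Alt (gap u A) (M - 1) (2 * m - 3) := by
  sorry

end Pool.Agent.TR
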