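import Pool.Agent.Helper65.TR.EXT

/-!
# TRL CNX : connectedness of the totally positive configurations with standard first columns

PROOF.  For `m ≤ M` let `X_M` = the set of `c : Fin M → Fin m → ℝ` with `c j = e_j` for `j < m` and
totally positive.  Show `IsPreconnected X_M` by induction on `M`: `X_m` is one point.
`M → M + 1`: `X_(M+1) = {(c, x) | c ∈ X_M, x ∈ K(c)}` (`Fin.snoc`), where `K(c)` is the set of `x` with
`0 < det(A_s, x)` for all sets `s` of `m - 1` columns of `c`: convex (linear inequalities), nonempty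
(`tp_append`), and the set of `(c, x)`, `x ∈ K(c)`, is relatively open in `{c_j = e_j} × ℝ^m`.
General lemma: if `B` is preconnected, `E ⊆ B × F` is relatively open in `B × F` and its fibres over
`B` are nonempty and preconnected, then `E` is preconnected: if `E ⊆ U ∪ V` with `U, V` open and
both meet `E` but `E ∩ U ∩ V = ∅`, then every fibre is in `U` or in `V`; the projections to `B` of
`E ∩ U` and `E ∩ V` are relatively open, disjoint, cover `B`, nonempty: contradiction.
Finally translate to `Cf n` (`M = 4 n ≥ n + 2 = m` for `n ≥ 1`).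
-/

set_option autoImplicit false

namespace Pool.Agent.TR

/-- configurations with standard first columns. -/
def Std (n : ℕ) : Set (Cf n) :=
  {c | (∀ j : Fin (4 * n), ∀ h : (j : ℕ) < n + 2, c j = Pi.single ⟨j, h⟩ 1) ∧
    TPos (n + 2) (4 * n) (ex c)}

/-- a family over a preconnected base which is relatively open and has nonempty preconnected
fibres is preconnected. -/
theorem cnx_fib {X F : Type*} [TopologicalSpace X] [TopologicalSpace F] {B : Set X}
    {O : Set (X × F)} (hB : IsPreconnected B) (hO : IsOpen O)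
    (hne : ∀ b ∈ B, ∃ x, (b, x) ∈ O) (hpc : ∀ b ∈ B, IsPreconnected {x | (b, x) ∈ O}) :
    IsPreconnected (O ∩ Prod.fst ⁻¹' B) := by
  intro u v hu hv hcov hnu hnv
  obtain ⟨⟨b1, x1⟩, ⟨hp1, hb1⟩, hpu⟩ := hnu
  obtain ⟨⟨b2, x2⟩, ⟨hp2, hb2⟩, hpv⟩ := hnv
  have hBu : IsOpen (Prod.fst '' (O ∩ u)) := isOpenMap_fst _ (hO.inter hu)
  have hBv : IsOpen (Prod.fst '' (O ∩ v)) := isOpenMap_fst _ (hO.inter hv)
  have hcovB : B ⊆ Prod.fst '' (O ∩ u) ∪ Prod.fst '' (O ∩ v) := by
    intro b hb
    obtain ⟨x, hx⟩ := hne b hb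
    rcases hcov ⟨hx, hb⟩ with h | h
    · exact Or.inl ⟨(b, x), ⟨hx, h⟩, rfl⟩
    · exact Or.inr ⟨(b, x), ⟨hx, h⟩, rfl⟩
  obtain ⟨b, hb, hbu, hbv⟩ := hB _ _ hBu hBv hcovB
    ⟨b1, hb1, ⟨(b1, x1), ⟨hp1, hpu⟩, rfl⟩⟩ ⟨b2, hb2, ⟨(b2, x2), ⟨hp2, hpv⟩, rfl⟩⟩
  obtain ⟨⟨b', y⟩, ⟨hy1, hy2⟩, rfl⟩ := hbu
  obtain ⟨⟨b'', z⟩, ⟨hz1, hz2⟩, hz3⟩ := hbv
  simp only at hz3 hb
  subst hz3
  have hcont : Continuous fun x : F => (b'', x) := by fun_prop
  obtain ⟨x, hx1, hx2, hx3⟩ := hpc b'' hb _ _ (hu.preimage hcont) (hv.preimage hcont)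
    (fun x hx => hcov ⟨hx, hb⟩) ⟨y, hy1, hy2⟩ ⟨z, hz1, hz2⟩
  exact ⟨(b'', x), ⟨hx1, hb⟩, hx2, hx3⟩

/-- extension by zero. -/
def cnxE {m M : ℕ} (c : Fin M → Fin m → ℝ) : ℕ → Fin m → ℝ :=
  fun j => if h : j < M then c ⟨j, h⟩ else 0

def cnxY (m M : ℕ) : Set (Fin M → Fin m → ℝ) :=
  {c | (∀ j : Fin M, ∀ h : (j : ℕ) < m, c j = Pi.single ⟨j, h⟩ 1) ∧ TPos m M (cnxE c)}

theorem cnx_congr {m M : ℕ} {A B : ℕ → Fin m → ℝ} (h : ∀ j < M, A j = B j)
    (hA : TPos m M A) : TPos m M B := by
  intro s hs hM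
  have := hA s hs hM
  have e : (fun i => B (s i)) = fun i => A (s i) := by
    funext i; exact (h _ (hM i)).symm
  rw [e]; exact this

theorem cnxE_snoc {m M : ℕ} (c : Fin M → Fin m → ℝ) (x : Fin m → ℝ) :
    ∀ j < M + 1, cnxE (Fin.snoc c x : Fin (M + 1) → Fin m → ℝ) j
      = if j < M then cnxE c j else x := by
  intro j hj
  unfold cnxE
  rw [dif_pos hj]
  by_cases h : j < M
  · rw [if_pos h, dif_pos h]
    have : (⟨j, hj⟩ : Fin (M + 1)) = Fin.castSucc ⟨j, h⟩ := rfl
    rw [this, Fin.snoc_castSucc]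
  · rw [if_neg h]
    have : (⟨j, hj⟩ : Fin (M + 1)) = Fin.last M := by
      ext; simp; omega
    rw [this, Fin.snoc_last]

theorem cnx_dt_lin {m M : ℕ} (A : ℕ → Fin m → ℝ) (s : Fin m → ℕ) (hs : StrictMono s)
    (hM : ∀ i, s i < M + 1) (x y : Fin m → ℝ) (a b : ℝ) (hab : a + b = 1) :
    dt (fun i => if s i < M then A (s i) else (a • x + b • y)) =
      a * dt (fun i => if s i < M then A (s i) else x)
        + b * dt (fun i => if s i < M then A (s i) else y) := by
  by_cases h : ∀ i, s i < M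
  · simp only [h, if_true]
    rw [← add_mul, hab, one_mul]
  · push Not at h
    obtain ⟨i0, hi0⟩ := h
    have hi0' : s i0 = M := by have := hM i0; omega
    have hne : ∀ i, i ≠ i0 → s i < M := by
      intro i hi
      have h1 : s i ≠ s i0 := fun h => hi (hs.injective h)
      have := hM i
      omega
    have key : ∀ z : Fin m → ℝ, (Matrix.of fun i => if s i < M then A (s i) else z) =
        Matrix.updateRow (Matrix.of fun i => A (s i)) i0 z := by
      intro z
      ext i j
      by_cases hi : i = i0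
      · subst hi
        simp [hi0']
      · simp [Matrix.updateRow_ne hi, hne i hi]
    unfold dt
    rw [key, key, key, Matrix.det_updateRow_add, Matrix.det_updateRow_smul,
      Matrix.det_updateRow_smul]

theorem cnx_step {m M : ℕ} (hm : 1 ≤ m) (hM : m ≤ M) (h : IsPreconnected (cnxY m M)) :
    IsPreconnected (cnxY m (M + 1)) := by
  set O : Set ((Fin M → Fin m → ℝ) × (Fin m → ℝ)) :=
    {p | TPos m (M + 1) (fun j => if j < M then cnxE p.1 j else p.2)} with hO
  have hOo : IsOpen O := by
    have e : O = ⋂ s : Fin m → Fin (M + 1), {p | StrictMono s →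
        0 < dt (fun i => if (s i : ℕ) < M then cnxE p.1 (s i) else p.2)} := by
      ext p
      simp only [hO, Set.mem_ofPred_eq, Set.mem_iInter]
      constructor
      · intro hp s hs
        exact hp (fun i => (s i : ℕ)) (fun i j hij => hs hij) (fun i => (s i).2)
      · intro hp s hs hsM
        exact hp (fun i => ⟨s i, hsM i⟩) (fun i j hij => hs hij)
    rw [e]
    apply isOpen_iInter_of_finite
    intro s
    by_cases hs : StrictMono s
    · simp only [hs, true_imp_iff]
      apply isOpen_lt continuous_const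
      unfold dt
      apply Continuous.matrix_det
      apply continuous_matrix
      intro i j
      by_cases hi : (s i : ℕ) < M
      · simp only [Matrix.of_apply, hi, if_true, cnxE, dite_true]
        fun_prop
      · simp only [Matrix.of_apply, hi, if_false]
        fun_prop
    · simp only [hs, false_imp_iff, Set.ofPred_true]
      exact isOpen_univ
  have hpre : IsPreconnected (O ∩ Prod.fst ⁻¹' (cnxY m M)) := by
    apply cnx_fib h hOo
    · intro c hc
      obtain ⟨x, hx⟩ := tp_append hm hM hc.2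
      exact ⟨x, hx⟩
    · intro c hc
      apply Convex.isPreconnected
      intro x hx y hy a b ha hb hab s hs hsM
      rw [cnx_dt_lin _ s hs hsM x y a b hab]
      have h1 := hx s hs hsM
      have h2 := hy s hs hsM
      rcases ha.lt_or_eq with h | h
      · have := mul_pos h h1
        have := mul_nonneg hb h2.le
        linarith
      · have hb1 : b = 1 := by linarith
        rw [← h, hb1, zero_mul, zero_add, one_mul]
        exact h2
  have himg : cnxY m (M + 1) = (fun p : (Fin M → Fin m → ℝ) × (Fin m → ℝ) =>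
      (Fin.snoc p.1 p.2 : Fin (M + 1) → Fin m → ℝ)) '' (O ∩ Prod.fst ⁻¹' (cnxY m M)) := by
    ext c
    constructor
    · intro hc
      refine ⟨(Fin.init c, c (Fin.last M)), ⟨?_, ?_, ?_⟩, by simp⟩
      · have := hc.2
        have h2 := cnxE_snoc (Fin.init c) (c (Fin.last M))
        rw [Fin.snoc_init_self] at h2
        exact cnx_congr h2 this
      · intro j hj
        exact hc.1 (Fin.castSucc j) hj
      · intro s hs hsM
        have := hc.2 s hs (fun i => (hsM i).trans (Nat.lt_succ_self M))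
        have e : (fun i => cnxE (Fin.init c) (s i)) = fun i => cnxE c (s i) := by
          funext i
          unfold cnxE
          rw [dif_pos (hsM i), dif_pos ((hsM i).trans (Nat.lt_succ_self M))]
          rfl
        simp only at this ⊢
        rw [e]; exact this
    · rintro ⟨⟨c', x⟩, ⟨hp, hc'⟩, rfl⟩
      refine ⟨?_, ?_⟩
      · intro j hj
        have hjM : (j : ℕ) < M := lt_of_lt_of_le hj hM
        have e : (Fin.snoc c' x : Fin (M + 1) → Fin m → ℝ) (Fin.castSucc ⟨j, hjM⟩)
            = c' ⟨j, hjM⟩ := Fin.snoc_castSucc _ _ _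
        exact e.trans (hc'.1 ⟨j, hjM⟩ hj)
      · exact cnx_congr (fun j hj => (cnxE_snoc c' x j hj).symm) hp
  rw [himg]
  apply hpre.image
  apply Continuous.continuousOn
  apply continuous_pi
  intro j
  refine Fin.lastCases ?_ (fun i => ?_) j
  · simp only [Fin.snoc_last]; fun_prop
  · simp only [Fin.snoc_castSucc]; fun_prop

theorem cnxY_preconn {m : ℕ} (hm : 1 ≤ m) (k : ℕ) : IsPreconnected (cnxY m (m + k)) := by
  induction k with
  | zero =>
    apply Set.Subsingleton.isPreconnected
    intro c hc d hd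
    funext j
    rw [hc.1 j j.2, hd.1 j j.2]
  | succ k ih => exact cnx_step hm (Nat.le_add_right m k) ih

theorem std_preconn (n : ℕ) (hn : 1 ≤ n) : IsPreconnected (Std n) := by
  obtain ⟨k, hk⟩ : ∃ k, 4 * n = n + 2 + k := ⟨3 * n - 2, by omega⟩
  have h := cnxY_preconn (m := n + 2) (by omega) k
  rw [← hk] at h
  exact h

end Pool.Agent.TR
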