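import Pool.Agent.Helper65.TR.CODefs

/-!
# TRL COA : the Jacobian along the solution curve (analytic part)

PROOF.  `i0 = j0 / 2`.  For real `x`, `|x| < δ`, let `U x = cu (v x)` (`real`); `v` is differentiable
and `U' x = cu (t x)` is real (limit of real difference quotients).  Differentiating `eqs` and `lin`:
`dom (v x) (t x) (pair i) = 0` for `i ≠ i0`, `t_k · x0 = t_k · y0 = 0`, `ell l (t x) = 1`; and
`deriv (fun z => FF U c j0 z y) x = dom (v x) (t x) (pair i0 of update c j0 y)` (as a complex number).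
`Δ x = det (Lrep n (ex c) x0 y0 l (v x) i0)`: the rows of `Lrep` other than `inl i0` use only the
pairs `i ≠ i0`, which are the same for `c` and `update c j0 y`, so
`Lrep n (ex (update c j0 y)) .. = Lrep n (ex c) ..`, and `jj_rel` for `update c j0 y` gives the
formula.  `Δ x ≠ 0` by `rep_ne` (its hypothesis is `ker` for the complexification of `h`), `Δ` is
continuous on `(-δ, δ)` (a polynomial in the entries of `v x`), so it has a constant sign.
-/

set_option autoImplicit false

open Matrix Metric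

namespace Pool.Agent.TR

private theorem coa_dot_cast {m : ℕ} (v x : Fin m → ℝ) :
    (fun j => (v j : ℂ)) ⬝ᵥ cv x = ((v ⬝ᵥ x : ℝ) : ℂ) := by
  simp only [dotProduct, cv, Complex.ofReal_sum, Complex.ofReal_mul]

private theorem coa_dot_cu {m : ℕ} (v : Fin 2 → Fin m → ℝ) (k : Fin 2) (x : Fin m → ℝ) :
    cu v k ⬝ᵥ cv x = ((v k ⬝ᵥ x : ℝ) : ℂ) := coa_dot_cast (v k) x

private theorem coa_dom_cast {m : ℕ} (v t : Fin 2 → Fin m → ℝ) (a b : Fin m → ℝ) :
    dom (cu v) (cu t) (cv a) (cv b) = ((dom v t a b : ℝ) : ℂ) := by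
  simp only [dom, coa_dot_cu]
  push_cast
  ring

private theorem coa_ell_cast {n : ℕ} (l t : Fin 2 → Fin (n + 2) → ℝ) :
    ellC l (cu t) = ((ell l t : ℝ) : ℂ) := by
  simp only [ellC, ell, cu, Complex.ofReal_sum, Complex.ofReal_mul]

private theorem coa_cu_inj {m : ℕ} {v w : Fin 2 → Fin m → ℝ} (h : cu v = cu w) : v = w := by
  funext k j
  have := congrFun (congrFun h k) j
  exact Complex.ofReal_injective this

private theorem coa_hasDeriv_dot {m : ℕ} {U : ℂ → Fin 2 → Fin m → ℂ} {U' : Fin 2 → Fin m → ℂ}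
    {z : ℂ} (h : HasDerivAt U U' z) (k : Fin 2) (a : Fin m → ℂ) :
    HasDerivAt (fun w => U w k ⬝ᵥ a) (U' k ⬝ᵥ a) z := by
  have h1 : ∀ j, HasDerivAt (fun w => U w k j) (U' k j) z := fun j =>
    (hasDerivAt_pi.mp ((hasDerivAt_pi.mp h) k)) j
  simp only [dotProduct]
  exact HasDerivAt.fun_sum fun j _ => (h1 j).mul_const _

private theorem coa_hasDeriv_om {m : ℕ} {U : ℂ → Fin 2 → Fin m → ℂ} {U' : Fin 2 → Fin m → ℂ}
    {z : ℂ} (h : HasDerivAt U U' z) (a b : Fin m → ℂ) :
    HasDerivAt (fun w => om (U w) a b) (dom (U z) U' a b) z := by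
  have h0a := coa_hasDeriv_dot h 0 a
  have h1a := coa_hasDeriv_dot h 1 a
  have h0b := coa_hasDeriv_dot h 0 b
  have h1b := coa_hasDeriv_dot h 1 b
  have h2 := (h0a.mul h1b).sub (h1a.mul h0b)
  refine h2.congr_deriv ?_
  simp only [dom]
  ring

private theorem coa_ex_ne {n : ℕ} (c : Cf n) (j0 : Fin (4 * n)) (y : Fin (n + 2) → ℝ) {i : ℕ}
    (hi : i ≠ j0) : ex (Function.update c j0 y) i = ex c i := by
  unfold ex
  split_ifs with h
  · rw [Function.update_of_ne]
    intro h2
    apply hi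
    rw [← h2]
  · rfl

private theorem coa_lrep {n : ℕ} (c : Cf n) (j0 : Fin (4 * n)) (x0 y0 y : Fin (n + 2) → ℝ)
    (l v : Fin 2 → Fin (n + 2) → ℝ) (i0 : Fin (2 * n)) (hi0 : (i0 : ℕ) = (j0 : ℕ) / 2) :
    Lrep n (ex (Function.update c j0 y)) x0 y0 l v i0 = Lrep n (ex c) x0 y0 l v i0 := by
  unfold Lrep
  ext r s
  by_cases hr : r = Sum.inl i0
  · subst hr
    rw [Matrix.updateRow_self, Matrix.updateRow_self]
  · rw [Matrix.updateRow_ne hr, Matrix.updateRow_ne hr]
    unfold Lmat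
    rcases r with i | ⟨k, l'⟩
    · have hne : (i : ℕ) ≠ (j0 : ℕ) / 2 := by
        intro h
        apply hr
        congr 1
        exact Fin.ext (by omega)
      show dom v (bas (kap n s)) (ex (Function.update c j0 y) (2 * i))
        (ex (Function.update c j0 y) (2 * i + 1)) = dom v (bas (kap n s)) (ex c (2 * i))
        (ex c (2 * i + 1))
      rw [coa_ex_ne c j0 y (by omega), coa_ex_ne c j0 y (by omega)]
    · rfl

private theorem coa_cont {n : ℕ} (A : ℕ → Fin (n + 2) → ℝ) (x0 y0 : Fin (n + 2) → ℝ)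
    (l : Fin 2 → Fin (n + 2) → ℝ) (i0 : Fin (2 * n)) :
    Continuous fun v : Fin 2 → Fin (n + 2) → ℝ => (Lrep n A x0 y0 l v i0).det := by
  apply Continuous.matrix_det
  apply continuous_matrix
  intro r s
  unfold Lrep
  by_cases hr : r = Sum.inl i0
  · subst hr
    simp only [Matrix.updateRow_self]
    exact continuous_const
  · simp only [Matrix.updateRow_ne hr]
    unfold Lmat
    rcases r with i | ⟨k, l'⟩
    · simp only [dom, dotProduct]
      fun_prop
    · exact continuous_const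

theorem arc_jac {n : ℕ} {c : Cf n} {j0 : Fin (4 * n)} {x0 y0 : Fin (n + 2) → ℝ}
    {u0 : Fin 2 → Fin (n + 2) → ℝ} {δ : ℝ} {U : ℂ → Fin 2 → Fin (n + 2) → ℂ}
    {l : Fin 2 → Fin (n + 2) → ℝ} (h : IsArc n (ex c) ((j0 : ℕ) / 2) x0 y0 u0 δ U l) :
    ∃ (Δ : ℝ → ℝ) (s : ℝ), (∀ x, |x| < δ → 0 < s * Δ x) ∧
      ∀ (x : ℝ) (v : Fin 2 → Fin (n + 2) → ℝ) (y : Fin (n + 2) → ℝ), |x| < δ → U x = cu v →
        ((JJ n (ex (Function.update c j0 y)) x0 y0 v : ℝ) : ℂ) =
          deriv (fun z => FF U c j0 z y) x * ((Δ x : ℝ) : ℂ) := by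
  have hlt : (j0 : ℕ) / 2 < 2 * n := by have := j0.2; omega
  set i0 : Fin (2 * n) := ⟨(j0 : ℕ) / 2, hlt⟩ with hi0
  have hi0v : (i0 : ℕ) = (j0 : ℕ) / 2 := rfl
  set rv : ℝ → Fin 2 → Fin (n + 2) → ℝ := fun x k j => (U (x : ℂ) k j).re with hrv
  have hball : ∀ x : ℝ, |x| < δ → (x : ℂ) ∈ ball (0 : ℂ) δ := by
    intro x hx
    rw [mem_ball_zero_iff, Complex.norm_real, Real.norm_eq_abs]
    exact hx
  have hU : ∀ x : ℝ, |x| < δ → U x = cu (rv x) := by
    intro x hx
    obtain ⟨v, hv⟩ := h.real x hx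
    rw [hv]
    congr 1
    funext k j
    show v k j = (U (x : ℂ) k j).re
    rw [hv]
    simp [cu]
  have hderiv : ∀ x : ℝ, |x| < δ → HasDerivAt U (deriv U x) x := by
    intro x hx
    exact (h.diff.differentiableAt (isOpen_ball.mem_nhds (hball x hx))).hasDerivAt
  -- the derivative is real
  have hreal : ∀ x : ℝ, |x| < δ → ∃ t : Fin 2 → Fin (n + 2) → ℝ, deriv U x = cu t := by
    intro x hx
    refine ⟨fun k j => (deriv U x k j).re, ?_⟩
    funext k j
    have h1 : HasDerivAt (fun w => U w k j) (deriv U x k j) (x : ℂ) :=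
      (hasDerivAt_pi.mp ((hasDerivAt_pi.mp (hderiv x hx)) k)) j
    have h2 : HasDerivAt (fun r : ℝ => U (r : ℂ) k j) (deriv U x k j) x := h1.comp_ofReal
    have h3 : HasDerivAt (fun r : ℝ => (U (r : ℂ) k j).im) (deriv U x k j).im x := by
      have := (Complex.imCLM.hasFDerivAt.comp_hasDerivAt x h2)
      exact this
    have h4 : (fun r : ℝ => (U (r : ℂ) k j).im) =ᶠ[nhds x] fun _ => 0 := by
      have h5 : {r : ℝ | |r| < δ} ∈ nhds x :=
        (isOpen_lt continuous_abs continuous_const).mem_nhds hx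
      filter_upwards [h5] with r hr
      rw [hU r hr]
      simp [cu]
    have h6 : (deriv U x k j).im = 0 := by
      have h7 : HasDerivAt (fun _ : ℝ => (0 : ℝ)) (deriv U x k j).im x :=
        h3.congr_of_eventuallyEq h4.symm
      exact h7.unique (hasDerivAt_const x 0)
    show deriv U x k j = (((deriv U x k j).re : ℝ) : ℂ)
    exact Complex.ext (by simp) (by simp [h6])
  set Δ : ℝ → ℝ := fun x => (Lrep n (ex c) x0 y0 l (rv x) i0).det with hΔ
  have hΔne : ∀ x : ℝ, |x| < δ → Δ x ≠ 0 := by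
    intro x hx
    apply rep_ne
    intro g hg hgx hgy hgl
    apply coa_cu_inj
    have hz : cu (0 : Fin 2 → Fin (n + 2) → ℝ) = 0 := by
      funext k j; simp [cu]
    rw [hz]
    apply h.ker x (hball x hx)
    · intro i hi hne
      rw [hU x hx, coa_dom_cast, hg i hi hne, Complex.ofReal_zero]
    · intro k
      rw [coa_dot_cu, hgx k, Complex.ofReal_zero]
    · intro k
      rw [coa_dot_cu, hgy k, Complex.ofReal_zero]
    · rw [coa_ell_cast, hgl, Complex.ofReal_zero]
  have hcontU : ContinuousOn rv (Set.Ioo (-δ) δ) := by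
    have h1 : ContinuousOn U (ball 0 δ) := h.diff.continuousOn
    have h2 : ContinuousOn (fun x : ℝ => U (x : ℂ)) (Set.Ioo (-δ) δ) := by
      apply h1.comp Complex.continuous_ofReal.continuousOn
      intro x hx
      exact hball x (abs_lt.mpr hx)
    rw [hrv]
    apply continuousOn_pi.mpr
    intro k
    apply continuousOn_pi.mpr
    intro j
    exact Complex.continuous_re.comp_continuousOn
      ((continuousOn_pi.mp ((continuousOn_pi.mp h2) k)) j)
  have hcontΔ : ContinuousOn Δ (Set.Ioo (-δ) δ) :=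
    (coa_cont (ex c) x0 y0 l i0).comp_continuousOn hcontU
  have hδ := h.pos
  have h00 : Δ 0 ≠ 0 := hΔne 0 (by rw [abs_zero]; exact hδ)
  refine ⟨Δ, Δ 0, ?_, ?_⟩
  · intro x hx
    by_contra hcon
    push Not at hcon
    have hpre : (Δ '' Set.Ioo (-δ) δ).OrdConnected :=
      (isPreconnected_Ioo.image Δ hcontΔ).ordConnected
    have hm0 : Δ 0 ∈ Δ '' Set.Ioo (-δ) δ := ⟨0, ⟨by linarith, hδ⟩, rfl⟩
    have hmx : Δ x ∈ Δ '' Set.Ioo (-δ) δ := ⟨x, abs_lt.mp hx, rfl⟩
    have hzero : (0 : ℝ) ∈ Δ '' Set.Ioo (-δ) δ := by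
      rcases lt_or_gt_of_ne h00 with h0 | h0
      · have h1 : 0 ≤ Δ x := by
          by_contra h2
          push Not at h2
          have := mul_pos_of_neg_of_neg h0 h2
          linarith
        exact hpre.out hm0 hmx ⟨h0.le, h1⟩
      · have h1 : Δ x ≤ 0 := by
          by_contra h2
          push Not at h2
          have := mul_pos h0 h2
          linarith
        exact hpre.out hmx hm0 ⟨h1, h0.le⟩
    obtain ⟨x', hx', hx0⟩ := hzero
    exact hΔne x' (abs_lt.mpr hx') hx0
  · intro x v y hx hv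
    have hvr : v = rv x := coa_cu_inj (by rw [← hv, hU x hx])
    subst hvr
    obtain ⟨t, ht⟩ := hreal x hx
    have hd : HasDerivAt U (cu t) x := by rw [← ht]; exact hderiv x hx
    have hnhds : ball (0 : ℂ) δ ∈ nhds (x : ℂ) := isOpen_ball.mem_nhds (hball x hx)
    -- derivatives of the equations
    have h1 : ∀ i < 2 * n, i ≠ (j0 : ℕ) / 2 →
        dom (rv x) t (ex c (2 * i)) (ex c (2 * i + 1)) = 0 := by
      intro i hi hne
      have e1 := coa_hasDeriv_om hd (cv (ex c (2 * i))) (cv (ex c (2 * i + 1)))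
      have e2 : (fun w => om (U w) (cv (ex c (2 * i))) (cv (ex c (2 * i + 1)))) =ᶠ[nhds (x : ℂ)]
          fun _ => 0 := by
        filter_upwards [hnhds] with w hw
        exact (h.eqs w hw).1 i hi hne
      have e3 := (e1.congr_of_eventuallyEq e2.symm).unique (hasDerivAt_const (x : ℂ) (0 : ℂ))
      rw [hU x hx, coa_dom_cast] at e3
      exact_mod_cast e3
    have hgauge : ∀ (k : Fin 2) (a : Fin (n + 2) → ℝ) (C : ℂ),
        (∀ w ∈ ball (0 : ℂ) δ, U w k ⬝ᵥ cv a = C) → t k ⬝ᵥ a = 0 := by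
      intro k a C hC
      have e1 := coa_hasDeriv_dot hd k (cv a)
      have e2 : (fun w => U w k ⬝ᵥ cv a) =ᶠ[nhds (x : ℂ)] fun _ => C := by
        filter_upwards [hnhds] with w hw
        exact hC w hw
      have e3 := (e1.congr_of_eventuallyEq e2.symm).unique (hasDerivAt_const (x : ℂ) C)
      rw [coa_dot_cu] at e3
      exact_mod_cast e3
    have h2 : ∀ k, t k ⬝ᵥ x0 = 0 := by
      intro k
      fin_cases k
      · exact hgauge 0 x0 1 fun w hw => (h.eqs w hw).2.1
      · exact hgauge 1 x0 0 fun w hw => (h.eqs w hw).2.2.1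
    have h3 : ∀ k, t k ⬝ᵥ y0 = 0 := by
      intro k
      fin_cases k
      · exact hgauge 0 y0 0 fun w hw => (h.eqs w hw).2.2.2.1
      · exact hgauge 1 y0 1 fun w hw => (h.eqs w hw).2.2.2.2
    have h4 : ell l t = 1 := by
      have e1 : HasDerivAt (fun w => ellC l (U w)) (ellC l (cu t)) (x : ℂ) := by
        unfold ellC
        refine HasDerivAt.fun_sum fun k _ => HasDerivAt.fun_sum fun j _ => ?_
        exact ((hasDerivAt_pi.mp ((hasDerivAt_pi.mp hd) k)) j).const_mul _
      have e2 : (fun w => ellC l (U w)) =ᶠ[nhds (x : ℂ)] fun w => ellC l (cu u0) + w := by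
        filter_upwards [hnhds] with w hw
        exact h.lin w hw
      have e3 := (e1.congr_of_eventuallyEq e2.symm).unique
        ((hasDerivAt_id (x : ℂ)).const_add (ellC l (cu u0)))
      rw [coa_ell_cast] at e3
      exact_mod_cast e3
    have hrel := jj_rel (A := ex (Function.update c j0 y)) (x := x0) (y := y0) (l := l)
      (v := rv x) (t := t) i0 (by
        intro i hi hne
        have hne' : i ≠ (j0 : ℕ) / 2 := hne
        rw [coa_ex_ne c j0 y (by omega), coa_ex_ne c j0 y (by omega)]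
        exact h1 i hi hne') h2 h3 h4
    rw [coa_lrep c j0 x0 y0 y l (rv x) i0 hi0v] at hrel
    have hFF : deriv (fun z => FF U c j0 z y) x =
        ((dom (rv x) t (ex (Function.update c j0 y) (2 * i0))
          (ex (Function.update c j0 y) (2 * i0 + 1)) : ℝ) : ℂ) := by
      have e1 := coa_hasDeriv_om hd (cv (ex (Function.update c j0 y) (2 * i0)))
        (cv (ex (Function.update c j0 y) (2 * i0 + 1)))
      rw [← coa_dom_cast, ← hU x hx]
      exact e1.deriv
    rw [hFF, hrel]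
    push_cast
    rfl

end Pool.Agent.TR
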