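import Mathlib

/-!
# TRL HZ : zeros of analytic functions of one variable

PROOFS. `hz` (a weak form of Hurwitz' theorem): suppose that for infinitely many `k` the function
`F k` has no zero in `ball 0 ρ` except `x k` and `deriv (F k) (x k) ≠ 0`.  For such `k` the function
`H k = dslope (F k) (x k)` (differentiable on `ball 0 ρ'`) has no zero in `ball 0 ρ`; on the circle
`|z| = ρ`, `H k z = F k z / (z - x k)` converges uniformly to `G z / z`, whose absolute value is
`≥ 2 c > 0`; so `|H k| ≥ c` on the circle for large `k`, and by the minimum principle (maximum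
principle for `1 / H k` on the ball; on the circle `F k` has no zeros for large `k`) `|H k 0| ≥ c`.
On the other hand `H k - dslope G 0` is small on the circle, hence (maximum principle) at `0`, and
`dslope G 0 0 = deriv G 0 = 0`: contradiction.
`two_zeros`: `f > 0` just to the right of `a`; let `c` be the first zero of `f` to the right of `a`
(`c ≤ b`); if `c < b` then `f' (c) ≤ 0`; if `c = b`, `f > 0` on `(a, b)` contradicts `f' (b) > 0`.
`pert`: `h = - F / G` is analytic near `x'` with `h x' = 0`, not constant; choose a small disc `D`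
around `x'` with `h' ≠ 0` on `D \ {x'}` and `G ≠ 0` on `D`; `h` is open on `D` (open mapping theorem,
Mathlib `AnalyticAt.eventually_constant_or_nhds_le_map_nhds`), so small real `τ ≠ 0` are values
`τ = h x''`, `x'' ∈ D`, `x'' ≠ x'`; then `F x'' + τ G x'' = 0` and the derivative is
`F' + τ G' = - G h' ≠ 0` at `x''`.
-/

set_option autoImplicit false

open Topology Filter Metric

namespace Pool.Agent.TR

theorem hz {F : ℕ → ℂ → ℂ} {G : ℂ → ℂ} {ρ ρ' : ℝ} (hρ : 0 < ρ) (hρ' : ρ < ρ')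
    (hF : ∀ k, DifferentiableOn ℂ (F k) (ball 0 ρ')) (hG : DifferentiableOn ℂ G (ball 0 ρ'))
    (hu : ∀ ε : ℝ, 0 < ε → ∀ᶠ k in atTop, ∀ z ∈ closedBall (0 : ℂ) ρ, ‖F k z - G z‖ < ε)
    (h0 : G 0 = 0) (h1 : deriv G 0 = 0) (hne : ∀ z : ℂ, z ≠ 0 → ‖z‖ ≤ ρ → G z ≠ 0)
    {x : ℕ → ℂ} (hx : Tendsto x atTop (𝓝 0)) (hFx : ∀ k, F k (x k) = 0) :
    ∀ᶠ k in atTop, (∃ z ∈ ball (0 : ℂ) ρ, z ≠ x k ∧ F k z = 0) ∨ deriv (F k) (x k) = 0 := by
  have hsub : closedBall (0 : ℂ) ρ ⊆ ball 0 ρ' := closedBall_subset_ball hρ'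
  have hGc : ContinuousOn G (sphere (0 : ℂ) ρ) :=
    hG.continuousOn.mono (sphere_subset_closedBall.trans hsub)
  have hsc : IsCompact (sphere (0 : ℂ) ρ) := isCompact_sphere _ _
  have hsn : (sphere (0 : ℂ) ρ).Nonempty := NormedSpace.sphere_nonempty.2 hρ.le
  obtain ⟨zm, hzm, hm⟩ := hsc.exists_isMinOn hsn hGc.norm
  obtain ⟨zM, hzM, hM⟩ := hsc.exists_isMaxOn hsn hGc.norm
  set m : ℝ := ‖G zm‖ with hmdef
  set M : ℝ := ‖G zM‖ with hMdef
  have hmin : ∀ z ∈ sphere (0 : ℂ) ρ, m ≤ ‖G z‖ := fun z hz => hm hz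
  have hmax : ∀ z ∈ sphere (0 : ℂ) ρ, ‖G z‖ ≤ M := fun z hz => hM hz
  have hmpos : 0 < m := by
    rw [hmdef, norm_pos_iff]
    apply hne
    · intro h
      rw [h, mem_sphere_iff_norm] at hzm
      simp at hzm
      exact hρ.ne hzm
    · rw [mem_sphere_iff_norm] at hzm
      simp at hzm
      exact hzm.le
  have hMpos : 0 < M := lt_of_lt_of_le hmpos (hmin zM hzM)
  -- constants
  set c : ℝ := m / (3 * ρ) with hc
  have hcpos : 0 < c := by positivity
  set ε : ℝ := min (m / 2) (c * ρ / 8) with hε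
  have hεpos : 0 < ε := by
    rw [hε]; exact lt_min (by positivity) (by positivity)
  set δ : ℝ := min (ρ / 2) (c * ρ ^ 2 / (8 * M)) with hδ
  have hδpos : 0 < δ := by
    rw [hδ]; exact lt_min (by positivity) (by positivity)
  have hxk : ∀ᶠ k in atTop, ‖x k‖ < δ := by
    have := hx.norm
    rw [norm_zero] at this
    exact this.eventually_lt_const hδpos
  filter_upwards [hxk, hu ε hεpos] with k hk1 hk2
  by_contra hcon
  push Not at hcon
  obtain ⟨hz1, hz2⟩ := hcon
  have hxρ : ‖x k‖ < ρ / 2 := lt_of_lt_of_le hk1 (min_le_left _ _)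
  have hxρ' : x k ∈ ball (0 : ℂ) ρ' := by
    rw [mem_ball_zero_iff]; linarith
  -- the function H
  set H : ℂ → ℂ := dslope (F k) (x k) with hH
  have hHd : DifferentiableOn ℂ H (ball 0 ρ') :=
    (Complex.differentiableOn_dslope (isOpen_ball.mem_nhds hxρ')).2 (hF k)
  have h0ρ' : (0 : ℂ) ∈ ball (0 : ℂ) ρ' := by
    rw [mem_ball_zero_iff, norm_zero]; linarith
  have hKd : DifferentiableOn ℂ (dslope G 0) (ball 0 ρ') :=
    (Complex.differentiableOn_dslope (isOpen_ball.mem_nhds h0ρ')).2 hG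
  have hHz : ∀ z, z ≠ x k → H z = F k z / (z - x k) := by
    intro z hz
    rw [hH, dslope_of_ne _ hz, slope_def_field, hFx k, sub_zero]
  have hfr : frontier (ball (0 : ℂ) ρ) = sphere 0 ρ := frontier_ball _ hρ.ne'
  have hcl : closure (ball (0 : ℂ) ρ) = closedBall 0 ρ := closure_ball _ hρ.ne'
  -- circle facts
  have hcirc : ∀ z ∈ sphere (0 : ℂ) ρ, ‖z‖ = ρ ∧ z ≠ x k ∧ ρ / 2 ≤ ‖z - x k‖ ∧
      ‖z - x k‖ ≤ 3 * ρ / 2 ∧ m / 2 ≤ ‖F k z‖ := by
    intro z hz
    have hzn : ‖z‖ = ρ := by simpa using hz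
    have h3 : ρ / 2 ≤ ‖z - x k‖ := by
      have := norm_sub_norm_le z (x k)
      linarith
    have h4 : ‖z - x k‖ ≤ 3 * ρ / 2 := by
      have := norm_sub_le z (x k)
      linarith
    refine ⟨hzn, ?_, h3, h4, ?_⟩
    · intro h
      rw [h, sub_self, norm_zero] at h3
      linarith
    · have h5 := hk2 z (sphere_subset_closedBall hz)
      have h6 := hmin z hz
      have h7 : ‖G z‖ - ‖F k z‖ ≤ ‖F k z - G z‖ := by
        rw [norm_sub_rev]; exact norm_sub_norm_le _ _
      have h8 : ε ≤ m / 2 := min_le_left _ _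
      linarith
  -- nonvanishing
  have hHne : ∀ z ∈ closedBall (0 : ℂ) ρ, H z ≠ 0 := by
    intro z hz
    by_cases hzx : z = x k
    · rw [hzx, hH, dslope_same]
      exact hz2
    · rw [hHz z hzx]
      apply div_ne_zero _ (sub_ne_zero.2 hzx)
      rcases (mem_closedBall_zero_iff.1 hz).lt_or_eq with h | h
      · exact hz1 z (mem_ball_zero_iff.2 h) hzx
      · have := (hcirc z (by simpa using h)).2.2.2.2
        intro h0
        rw [h0, norm_zero] at this
        linarith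
  have hlow : ∀ z ∈ sphere (0 : ℂ) ρ, c ≤ ‖H z‖ := by
    intro z hz
    obtain ⟨h1', h2', h3', h4', h5'⟩ := hcirc z hz
    rw [hHz z h2', norm_div, hc, div_le_div_iff₀ (by positivity) (by linarith)]
    nlinarith
  have hinv : DiffContOnCl ℂ (fun z => (H z)⁻¹) (ball 0 ρ) := by
    apply DifferentiableOn.diffContOnCl
    rw [hcl]
    exact (hHd.mono hsub).inv hHne
  have h0cl : (0 : ℂ) ∈ closure (ball (0 : ℂ) ρ) := by
    rw [hcl, mem_closedBall_zero_iff, norm_zero]; exact hρ.le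
  have hA : ‖(H 0)⁻¹‖ ≤ c⁻¹ := by
    apply Complex.norm_le_of_forall_mem_frontier_norm_le isBounded_ball hinv _ h0cl
    intro z hz
    rw [hfr] at hz
    rw [norm_inv]
    exact inv_anti₀ hcpos (hlow z hz)
  have hB : c ≤ ‖H 0‖ := by
    rw [norm_inv] at hA
    have h0' : 0 < ‖H 0‖ := norm_pos_iff.2 (hHne 0 (by
      rw [mem_closedBall_zero_iff, norm_zero]; exact hρ.le))
    exact (inv_le_inv₀ h0' hcpos).1 hA
  have hdif : DiffContOnCl ℂ (fun z => H z - dslope G 0 z) (ball 0 ρ) := by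
    apply DifferentiableOn.diffContOnCl
    rw [hcl]
    exact (hHd.mono hsub).sub (hKd.mono hsub)
  have hC : ‖H 0 - dslope G 0 0‖ ≤ c / 2 := by
    apply Complex.norm_le_of_forall_mem_frontier_norm_le isBounded_ball hdif _ h0cl
    intro z hz
    rw [hfr] at hz
    obtain ⟨h1', h2', h3', h4', h5'⟩ := hcirc z hz
    have hz0 : z ≠ 0 := by
      intro h; rw [h, norm_zero] at h1'; linarith
    rw [hHz z h2', dslope_of_ne _ hz0, slope_def_field, h0, sub_zero, sub_zero]
    have hzx : z - x k ≠ 0 := sub_ne_zero.2 h2'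
    have e1 : F k z / (z - x k) - G z / z
        = (z * (F k z - G z) + x k * G z) / ((z - x k) * z) := by
      field_simp
      ring
    rw [e1, norm_div, norm_mul, h1']
    have e2 : ‖z * (F k z - G z) + x k * G z‖ ≤ ρ * ε + δ * M := by
      refine (norm_add_le _ _).trans ?_
      rw [norm_mul, norm_mul, h1']
      have := hk2 z (sphere_subset_closedBall hz)
      have := hmax z hz
      gcongr
    have e3 : ρ * ε + δ * M ≤ c * ρ ^ 2 / 4 := by
      have a1 : ε ≤ c * ρ / 8 := min_le_right _ _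
      have a2 : δ ≤ c * ρ ^ 2 / (8 * M) := min_le_right _ _
      have a3 : δ * M ≤ c * ρ ^ 2 / 8 := by
        calc δ * M ≤ c * ρ ^ 2 / (8 * M) * M := by gcongr
          _ = c * ρ ^ 2 / 8 := by field_simp
      have a4 : ρ * ε ≤ ρ * (c * ρ / 8) := by gcongr
      nlinarith
    rw [div_le_iff₀ (by positivity)]
    have e4 : c / 2 * (ρ / 2 * ρ) ≤ c / 2 * (‖z - x k‖ * ρ) := by gcongr
    nlinarith
  rw [dslope_same, h1, sub_zero] at hC
  linarith

theorem two_zeros {f f' : ℝ → ℝ} {a b : ℝ} (hab : a < b)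
    (hf : ∀ x ∈ Set.Icc a b, HasDerivAt f (f' x) x) (ha : f a = 0) (hb : f b = 0)
    (ha' : 0 < f' a) (hb' : 0 < f' b) : ∃ c ∈ Set.Ioo a b, f c = 0 ∧ f' c ≤ 0 := by
  -- a point to the right of `a` with positive value
  have hda := hf a (Set.left_mem_Icc.2 hab.le)
  have hdb := hf b (Set.right_mem_Icc.2 hab.le)
  have h1 : ∃ x1 ∈ Set.Ioo a b, 0 < f x1 := by
    have hs := (hasDerivAt_iff_tendsto_slope.1 hda).eventually_const_lt ha'
    have hs' : ∀ᶠ y in 𝓝[>] a, 0 < slope f a y :=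
      hs.filter_mono (nhdsWithin_mono _ (fun y hy => ne_of_gt hy))
    have hI : Set.Ioo a b ∈ 𝓝[>] a := Ioo_mem_nhdsGT hab
    obtain ⟨y, hy1, hy2⟩ := (hs'.and hI).exists
    refine ⟨y, hy2, ?_⟩
    rw [slope_def_field, ha, sub_zero] at hy1
    have : 0 < y - a := sub_pos.2 hy2.1
    exact (div_pos_iff_of_pos_right this).1 hy1
  obtain ⟨x1, hx1, hfx1⟩ := h1
  have h2 : ∃ x2 ∈ Set.Ioo x1 b, f x2 < 0 := by
    have hs := (hasDerivAt_iff_tendsto_slope.1 hdb).eventually_const_lt hb'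
    have hs' : ∀ᶠ y in 𝓝[<] b, 0 < slope f b y :=
      hs.filter_mono (nhdsWithin_mono _ (fun y hy => ne_of_lt hy))
    have hI : Set.Ioo x1 b ∈ 𝓝[<] b := Ioo_mem_nhdsLT hx1.2
    obtain ⟨y, hy1, hy2⟩ := (hs'.and hI).exists
    refine ⟨y, hy2, ?_⟩
    rw [slope_def_field, hb, sub_zero] at hy1
    have h3 : y - b < 0 := sub_neg.2 hy2.2
    by_contra h4
    push Not at h4
    have := div_nonpos_of_nonneg_of_nonpos h4 h3.le
    linarith
  obtain ⟨x2, hx2, hfx2⟩ := h2
  have hcont : ContinuousOn f (Set.Icc x1 x2) := fun y hy =>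
    ((hf y ⟨hx1.1.le.trans hy.1, hy.2.trans hx2.2.le⟩).continuousAt).continuousWithinAt
  set S : Set ℝ := Set.Icc x1 x2 ∩ f ⁻¹' (Set.Iic 0) with hS
  have hSc : IsClosed S := hcont.preimage_isClosed_of_isClosed isClosed_Icc isClosed_Iic
  have hSb : BddBelow S := ⟨x1, fun y hy => hy.1.1⟩
  have hSn : S.Nonempty := ⟨x2, ⟨hx2.1.le, le_rfl⟩, hfx2.le⟩
  set c := sInf S with hc
  have hcS : c ∈ S := hSc.csInf_mem hSn hSb
  have hlt : ∀ y, x1 ≤ y → y < c → 0 < f y := by
    intro y hy1 hy2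
    by_contra h
    push Not at h
    have : y ∈ S := ⟨⟨hy1, hy2.le.trans hcS.1.2⟩, h⟩
    exact absurd (csInf_le hSb this) (not_le.2 hy2)
  have hcx1 : x1 < c := by
    rcases hcS.1.1.lt_or_eq with h | h
    · exact h
    · exfalso
      have := hcS.2
      rw [Set.mem_preimage, Set.mem_Iic, ← h] at this
      linarith
  have hcI : c ∈ Set.Ioo a b := ⟨hx1.1.trans hcx1, lt_of_le_of_lt hcS.1.2 hx2.2⟩
  have hdc := hf c ⟨hcI.1.le, hcI.2.le⟩
  have hI : Set.Ioo x1 c ∈ 𝓝[<] c := Ioo_mem_nhdsLT hcx1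
  have hfc : f c = 0 := by
    apply le_antisymm hcS.2
    have ht : Tendsto f (𝓝[<] c) (𝓝 (f c)) := hdc.continuousAt.tendsto.mono_left nhdsWithin_le_nhds
    apply ge_of_tendsto ht
    filter_upwards [hI] with y hy
    exact (hlt y hy.1.le hy.2).le
  refine ⟨c, hcI, hfc, ?_⟩
  have ht : Tendsto (slope f c) (𝓝[<] c) (𝓝 (f' c)) :=
    (hasDerivAt_iff_tendsto_slope.1 hdc).mono_left (nhdsWithin_mono _ (fun y hy => ne_of_lt hy))
  apply le_of_tendsto ht
  filter_upwards [hI] with y hy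
  rw [slope_def_field, hfc, sub_zero]
  exact div_nonpos_of_nonneg_of_nonpos (hlt y hy.1.le hy.2).le (sub_neg.2 hy.2).le

theorem pert {F G : ℂ → ℂ} {x' : ℂ} (hF : AnalyticAt ℂ F x') (hG : AnalyticAt ℂ G x')
    (h0 : F x' = 0) (h1 : G x' ≠ 0) (hne : ¬ ∀ᶠ z in 𝓝 x', F z = 0) {ε r : ℝ} (hε : 0 < ε)
    (hr : 0 < r) : ∃ τ : ℝ, |τ| < ε ∧ ∃ z : ℂ, ‖z - x'‖ < r ∧ F z + τ * G z = 0 ∧
      deriv (fun z => F z + τ * G z) z ≠ 0 := by
  set h : ℂ → ℂ := fun z => - F z / G z with hh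
  have hha : AnalyticAt ℂ h x' := hF.neg.div hG h1
  have hhx : h x' = 0 := by simp [hh, h0]
  have hG0 : ∀ᶠ z in 𝓝 x', G z ≠ 0 := hG.continuousAt.eventually_ne h1
  have hnc : ¬ ∀ᶠ z in 𝓝 x', h z = h x' := by
    intro hc
    apply hne
    filter_upwards [hc, hG0] with z hz1 hz2
    rw [hhx] at hz1
    simp only [hh, div_eq_zero_iff, neg_eq_zero, hz2, or_false] at hz1
    exact hz1
  have hop : 𝓝 (h x') ≤ map h (𝓝 x') :=
    (hha.eventually_constant_or_nhds_le_map_nhds).resolve_left hnc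
  have hda : AnalyticAt ℂ (deriv h) x' := hha.deriv
  have hdn : ∀ᶠ z in 𝓝[≠] x', deriv h z ≠ 0 := by
    rcases hda.eventually_eq_zero_or_eventually_ne_zero with hd | hd
    · exfalso
      apply hnc
      have hev := hha.eventually_analyticAt
      obtain ⟨t, ht, htb⟩ := Metric.eventually_nhds_iff_ball.1 (hd.and hev)
      refine Metric.eventually_nhds_iff_ball.2 ⟨t, ht, ?_⟩
      intro y hy
      have hconv : Convex ℝ (ball x' t) := convex_ball _ _
      have := hconv.norm_image_sub_le_of_norm_deriv_le (f := h) (C := 0) (𝕜 := ℂ)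
        (fun z hz => (htb z hz).2.differentiableAt)
        (fun z hz => by rw [(htb z hz).1]; simp) (mem_ball_self ht) hy
      rw [zero_mul, norm_le_zero_iff, sub_eq_zero] at this
      exact this
    · exact hd
  rw [eventually_nhdsWithin_iff] at hdn
  have hNall : ∀ᶠ z in 𝓝 x', ‖z - x'‖ < r ∧ G z ≠ 0 ∧ (z ≠ x' → deriv h z ≠ 0) ∧
      AnalyticAt ℂ F z ∧ AnalyticAt ℂ G z ∧ AnalyticAt ℂ h z := by
    filter_upwards [Metric.ball_mem_nhds x' hr, hG0, hdn, hF.eventually_analyticAt,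
      hG.eventually_analyticAt, hha.eventually_analyticAt] with z a1 a2 a3 a4 a5 a6
    exact ⟨by rwa [mem_ball_iff_norm] at a1, a2, a3, a4, a5, a6⟩
  have himg := hop (image_mem_map hNall)
  rw [hhx] at himg
  obtain ⟨δ, hδ, hball⟩ := Metric.mem_nhds_iff.1 himg
  set τ : ℝ := min δ ε / 2 with hτ
  have hτpos : 0 < τ := by rw [hτ]; exact half_pos (lt_min hδ hε)
  have hτδ : τ < δ := by
    have : min δ ε ≤ δ := min_le_left _ _
    rw [hτ]; linarith [lt_min hδ hε]
  have hτε : τ < ε := by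
    have : min δ ε ≤ ε := min_le_right _ _
    rw [hτ]; linarith [lt_min hδ hε]
  refine ⟨τ, by rw [abs_of_pos hτpos]; exact hτε, ?_⟩
  have hmem : (τ : ℂ) ∈ ball (0 : ℂ) δ := by
    rw [mem_ball_zero_iff, Complex.norm_real, Real.norm_eq_abs, abs_of_pos hτpos]
    exact hτδ
  obtain ⟨z, ⟨b1, b2, b3, b4, b5, b6⟩, hz⟩ := hball hmem
  have hzx : z ≠ x' := by
    intro he
    rw [he, hhx] at hz
    have : τ = 0 := by exact_mod_cast hz.symm
    linarith
  have hFz : F z = - τ * G z := by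
    rw [hh] at hz
    simp only at hz
    rw [div_eq_iff b2] at hz
    linear_combination -hz
  refine ⟨z, b1, by rw [hFz]; ring, ?_⟩
  have hd1 : HasDerivAt (fun w => F w + τ * G w) (deriv F z + τ * deriv G z) z :=
    (b4.differentiableAt.hasDerivAt).add ((b5.differentiableAt.hasDerivAt).const_mul _)
  have hd2 : HasDerivAt h ((-(deriv F z) * G z - (- F z) * deriv G z) / G z ^ 2) z :=
    (b4.differentiableAt.hasDerivAt.neg).div b5.differentiableAt.hasDerivAt b2
  rw [hd1.deriv]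
  have h5 := b3 hzx
  rw [hd2.deriv] at h5
  intro h6
  apply h5
  rw [hFz, div_eq_zero_iff]
  left
  linear_combination -(G z) * h6

end Pool.Agent.TR
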