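import Pool.Agent.Helper65.TR.NFS

/-!
# TRL LMA : a degenerate real solution can be made nondegenerate of either sign with `u` fixed

PROOF.  (ML) Let `j` be a real function on a finite product of real vector spaces which is linear
in each factor, `j(p) = 0`, `j` not identically `0`.  Then `j` takes positive and negative values
arbitrarily close to `p`.  Indeed, suppose `j ≥ 0` near `p`.  By induction on the number of factors
already freed: `j(y_1, ..., y_r, p_(r+1), ...) = 0` for all `y_1, ..., y_r`: for fixed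
`y_1, ..., y_r` close to `p_1, ..., p_r` the linear function `y_(r+1) ↦ j(y_1, ..., y_(r+1), p ..)` is
`≥ 0` near `p_(r+1)` and `0` at `p_(r+1)`, so it is `0`; by linearity in `y_1, ..., y_r` this holds for
all of them.  Hence `j = 0`.  Same for `j ≤ 0`.
By `good_pos`, `u(A (2i+1)) = c_i u(A (2i))`.  Put `e_i = u(A (2i)) ∈ ℝ^2`,
`v_i = c_i A (2i) - A (2i+1) ∈ ker u`.  Then `dom u h (A (2i)) (A (2i+1)) = - det(e_i, h(v_i))`
(`det` of the plane vectors `e_i` and `(h_0 · v_i, h_1 · v_i)`).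
Fix coordinates `p, q` with `om u e_p e_q ≠ 0` (gauge).  `j(e, v) = det` of the functionals
`h ↦ det(e_i, h(v_i))`, `h ↦ h(e_p)`, `h ↦ h(e_q)` (in the coordinates `kap n`) is linear in each
`e_i ∈ ℝ^2`, `v_i ∈ ker u`; it is not `0` for `e_i ∈ {(1,0), (0,1)}`, `v_i` in a basis of `ker u`
(dimension `n`).  For configurations `c'` with `c'(2i) = c(2i) + λ(e'_i - e_i)` (`λ` a linear right
inverse of `u`), `c'(2i+1) = c_i c'(2i) - v'_i`, which are close to `c` for `(e', v')` close to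
`(e, v)`, `u` is a solution and `JJ .. e_p e_q = ± j(e', v')` (fixed sign).  By (ML) both signs occur
near `c`; by `jj_gauge`, `JJ n (ex c') (ex c' 1) (ex c' 2) u` has the same sign (times the positive
number `(om u (c' 1) (c' 2) / om u e_p e_q)^2`).
-/

set_option autoImplicit false

open Topology Filter Matrix

namespace Pool.Agent.TR

/-- A multilinear function which is not zero takes both signs near each of its zeros. -/
theorem lma_ml {ι : Type*} [Fintype ι] [DecidableEq ι] {E : Type*} [NormedAddCommGroup E]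
    [NormedSpace ℝ E] (m : MultilinearMap ℝ (fun _ : ι => E) ℝ) (p q : ι → E) (hp : m p = 0)
    (hq : m q ≠ 0) {s : ℝ} (hs : s ≠ 0) {P : (ι → E) → Prop} (hP : ∀ᶠ y in 𝓝 p, P y) :
    ∃ y, P y ∧ s * m y < 0 := by
  classical
  set d : ι → E := q - p with hd
  -- a minimal set of coordinates
  have hex : ∃ S : Finset ι, m (S.piecewise d p) ≠ 0 := by
    by_contra hcon
    push Not at hcon
    apply hq
    have h1 : q = d + p := by rw [hd, sub_add_cancel]
    rw [h1, MultilinearMap.map_add_univ]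
    exact Finset.sum_eq_zero fun S _ => hcon S
  obtain ⟨S, hS, hmin⟩ : ∃ S : Finset ι, m (S.piecewise d p) ≠ 0 ∧
      ∀ R : Finset ι, R ⊂ S → m (R.piecewise d p) = 0 := by
    obtain ⟨S0, hS0⟩ := hex
    induction S0 using Finset.strongInduction with
    | H S ih =>
      by_cases h : ∃ R, R ⊂ S ∧ m (R.piecewise d p) ≠ 0
      · obtain ⟨R, hR, hR'⟩ := h
        exact ih R hR hR'
      · push Not at h
        exact ⟨S, hS0, h⟩
  have hSne : S.Nonempty := by
    rw [Finset.nonempty_iff_ne_empty]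
    rintro rfl
    rw [Finset.piecewise_empty] at hS
    exact hS hp
  obtain ⟨i0, hi0⟩ := hSne
  -- the path
  set g : ℝ → ℝ → ι → ℝ := fun σ t i => if i ∈ S then (if i = i0 then σ * t else t) else 0 with hg
  set y : ℝ → ℝ → ι → E := fun σ t => (fun i => g σ t i • d i) + p with hy
  have hval : ∀ σ t, m (y σ t) = (∏ i ∈ S, g σ t i) * m (S.piecewise d p) := by
    intro σ t
    rw [hy]
    simp only
    rw [MultilinearMap.map_add_univ, Finset.sum_eq_single S]
    · have h1 := m.map_piecewise_smul (g σ t) (S.piecewise d p) S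
      rw [smul_eq_mul] at h1
      rw [← h1]
      congr 1
      funext i
      by_cases hi : i ∈ S
      · simp [Finset.piecewise, hi]
      · simp [Finset.piecewise, hi]
    · intro R _ hRS
      by_cases hsub : R ⊆ S
      · have h1 := m.map_piecewise_smul (g σ t) (R.piecewise d p) R
        rw [hmin R (Finset.ssubset_iff_subset_ne.2 ⟨hsub, hRS⟩), smul_zero] at h1
        rw [← h1]
        congr 1
        funext i
        by_cases hi : i ∈ R
        · simp [Finset.piecewise, hi]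
        · simp [Finset.piecewise, hi]
      · rw [Finset.not_subset] at hsub
        obtain ⟨i, hiR, hiS⟩ := hsub
        apply m.map_coord_zero i
        simp [Finset.piecewise, hiR, hg, hiS]
    · intro h
      exact absurd (Finset.mem_univ S) h
  have hprod : ∀ σ t, ∏ i ∈ S, g σ t i = σ * t ^ S.card := by
    intro σ t
    rw [← Finset.mul_prod_erase S _ hi0]
    have h1 : ∏ i ∈ S.erase i0, g σ t i = t ^ (S.erase i0).card := by
      rw [← Finset.prod_const]
      refine Finset.prod_congr rfl fun i hi => ?_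
      rw [Finset.mem_erase] at hi
      simp [hg, hi.2, hi.1]
    rw [h1]
    have h2 : g σ t i0 = σ * t := by simp [hg, hi0]
    have h3 : (S.erase i0).card + 1 = S.card := Finset.card_erase_add_one hi0
    rw [h2, ← h3, pow_succ]
    ring
  -- choose the sign
  set a : ℝ := m (S.piecewise d p) with ha
  set σ : ℝ := -(s * a) with hσ
  have hgc : ∀ i, Continuous (fun t => g σ t i) := by
    intro i
    rw [hg]
    by_cases hi : i ∈ S
    · by_cases hi' : i = i0
      · simp only [hi', hi0, if_true]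
        fun_prop
      · simp only [hi, if_true, hi', if_false]
        fun_prop
    · simp only [hi, if_false]
      exact continuous_const
  have hcont : Continuous (y σ) := by
    refine continuous_pi fun i => ?_
    have h1 : (fun t => y σ t i) = fun t => g σ t i • d i + p i := rfl
    rw [h1]
    exact ((hgc i).smul continuous_const).add continuous_const
  have hy0 : y σ 0 = p := by
    rw [hy]
    funext i
    by_cases hi : i ∈ S
    · by_cases hi' : i = i0
      · simp [hg]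
      · simp [hg]
    · simp [hg]
  have h1 : ∀ᶠ t in 𝓝[>] (0 : ℝ), P (y σ t) := by
    have h2 := hcont.tendsto 0
    rw [hy0] at h2
    exact (h2.eventually hP).filter_mono nhdsWithin_le_nhds
  obtain ⟨t, ht, ht0⟩ := (h1.and self_mem_nhdsWithin).exists
  have ht0' : 0 < t := ht0
  refine ⟨y σ t, ht, ?_⟩
  rw [hval, hprod, hσ]
  have h3 : 0 < t ^ S.card := pow_pos ht0' _
  have h4 : 0 < (s * a) ^ 2 := by
    have : s * a ≠ 0 := mul_ne_zero hs hS
    positivity
  nlinarith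

/-- the matrix of the Jacobian as a function of the parameters -/
noncomputable def lmaM (n : ℕ) (u : Fin 2 → Fin (n + 2) → ℝ) (x y : Fin (n + 2) → ℝ)
    (pj : (Fin (n + 2) → ℝ) →ₗ[ℝ] (Fin (n + 2) → ℝ))
    (z : Fin (2 * n) ⊕ Fin (2 * n) → Fin (n + 2) → ℝ) :
    Matrix (Fin (2 * n) ⊕ (Fin 2 × Fin 2)) (Fin (2 * n) ⊕ (Fin 2 × Fin 2)) ℝ :=
  fun r c => match r with
    | Sum.inl i => (u 1 ⬝ᵥ z (Sum.inl i)) * (bas (kap n c) 0 ⬝ᵥ pj (z (Sum.inr i))) -
        (u 0 ⬝ᵥ z (Sum.inl i)) * (bas (kap n c) 1 ⬝ᵥ pj (z (Sum.inr i)))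
    | Sum.inr (k, l) => (bas (kap n c)) k ⬝ᵥ (if l = 0 then x else y)

/-- one row of this matrix -/
noncomputable def lmaR (n : ℕ) (u : Fin 2 → Fin (n + 2) → ℝ)
    (pj : (Fin (n + 2) → ℝ) →ₗ[ℝ] (Fin (n + 2) → ℝ)) (w t : Fin (n + 2) → ℝ)
    (c : Fin (2 * n) ⊕ (Fin 2 × Fin 2)) : ℝ :=
  (u 1 ⬝ᵥ w) * (bas (kap n c) 0 ⬝ᵥ pj t) - (u 0 ⬝ᵥ w) * (bas (kap n c) 1 ⬝ᵥ pj t)

theorem lma_upd_inl (n : ℕ) (u : Fin 2 → Fin (n + 2) → ℝ) (x y : Fin (n + 2) → ℝ)
    (pj : (Fin (n + 2) → ℝ) →ₗ[ℝ] (Fin (n + 2) → ℝ))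
    (z : Fin (2 * n) ⊕ Fin (2 * n) → Fin (n + 2) → ℝ) (i : Fin (2 * n)) (w : Fin (n + 2) → ℝ) :
    lmaM n u x y pj (Function.update z (Sum.inl i) w) =
      (lmaM n u x y pj z).updateRow (Sum.inl i) (lmaR n u pj w (z (Sum.inr i))) := by
  ext r c
  rcases r with r | ⟨k, l⟩
  · by_cases h : r = i
    · subst h
      rw [Matrix.updateRow_self]
      simp [lmaM, lmaR]
    · rw [Matrix.updateRow_ne (by simpa using h)]
      simp [lmaM, h]
  · rw [Matrix.updateRow_ne (by simp)]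
    rfl

theorem lma_upd_inr (n : ℕ) (u : Fin 2 → Fin (n + 2) → ℝ) (x y : Fin (n + 2) → ℝ)
    (pj : (Fin (n + 2) → ℝ) →ₗ[ℝ] (Fin (n + 2) → ℝ))
    (z : Fin (2 * n) ⊕ Fin (2 * n) → Fin (n + 2) → ℝ) (i : Fin (2 * n)) (w : Fin (n + 2) → ℝ) :
    lmaM n u x y pj (Function.update z (Sum.inr i) w) =
      (lmaM n u x y pj z).updateRow (Sum.inl i) (lmaR n u pj (z (Sum.inl i)) w) := by
  ext r c
  rcases r with r | ⟨k, l⟩
  · by_cases h : r = i
    · subst h
      rw [Matrix.updateRow_self]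
      simp [lmaM, lmaR]
    · rw [Matrix.updateRow_ne (by simpa using h)]
      simp [lmaM, h]
  · rw [Matrix.updateRow_ne (by simp)]
    rfl

/-- the determinant as a multilinear function of the parameters -/
noncomputable def lmaML (n : ℕ) (u : Fin 2 → Fin (n + 2) → ℝ) (x y : Fin (n + 2) → ℝ)
    (pj : (Fin (n + 2) → ℝ) →ₗ[ℝ] (Fin (n + 2) → ℝ)) :
    MultilinearMap ℝ (fun _ : Fin (2 * n) ⊕ Fin (2 * n) => Fin (n + 2) → ℝ) ℝ where
  toFun z := (lmaM n u x y pj z).det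
  map_update_add' := by
    intro inst z r a b
    have hinst : inst = instDecidableEqSum := Subsingleton.elim _ _
    subst hinst
    rcases r with i | i
    · simp only [lma_upd_inl]
      have h1 : lmaR n u pj (a + b) (z (Sum.inr i)) =
          lmaR n u pj a (z (Sum.inr i)) + lmaR n u pj b (z (Sum.inr i)) := by
        funext c
        simp only [lmaR, dotProduct_add, Pi.add_apply]
        ring
      rw [h1, Matrix.det_updateRow_add]
    · simp only [lma_upd_inr]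
      have h1 : lmaR n u pj (z (Sum.inl i)) (a + b) =
          lmaR n u pj (z (Sum.inl i)) a + lmaR n u pj (z (Sum.inl i)) b := by
        funext c
        simp only [lmaR, map_add, dotProduct_add, Pi.add_apply]
        ring
      rw [h1, Matrix.det_updateRow_add]
  map_update_smul' := by
    intro inst z r a b
    have hinst : inst = instDecidableEqSum := Subsingleton.elim _ _
    subst hinst
    rcases r with i | i
    · simp only [lma_upd_inl]
      have h1 : lmaR n u pj (a • b) (z (Sum.inr i)) = a • lmaR n u pj b (z (Sum.inr i)) := by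
        funext c
        simp only [lmaR, dotProduct_smul, Pi.smul_apply, smul_eq_mul]
        ring
      rw [h1, Matrix.det_updateRow_smul, smul_eq_mul]
    · simp only [lma_upd_inr]
      have h1 : lmaR n u pj (z (Sum.inl i)) (a • b) = a • lmaR n u pj (z (Sum.inl i)) b := by
        funext c
        simp only [lmaR, map_smul, dotProduct_smul, Pi.smul_apply, smul_eq_mul]
        ring
      rw [h1, Matrix.det_updateRow_smul, smul_eq_mul]

/-- the configuration of the parameters -/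
noncomputable def lmaC {n : ℕ} (κ : ℕ → ℝ) (pj : (Fin (n + 2) → ℝ) →ₗ[ℝ] (Fin (n + 2) → ℝ))
    (z : Fin (2 * n) ⊕ Fin (2 * n) → Fin (n + 2) → ℝ) : Cf n := fun j =>
  if (j : ℕ) % 2 = 0 then z (Sum.inl ⟨(j : ℕ) / 2, by omega⟩)
  else κ ((j : ℕ) / 2) • z (Sum.inl ⟨(j : ℕ) / 2, by omega⟩) -
    pj (z (Sum.inr ⟨(j : ℕ) / 2, by omega⟩))

theorem lmaC_even {n : ℕ} (κ : ℕ → ℝ) (pj : (Fin (n + 2) → ℝ) →ₗ[ℝ] (Fin (n + 2) → ℝ))
    (z : Fin (2 * n) ⊕ Fin (2 * n) → Fin (n + 2) → ℝ) {i : ℕ} (hi : i < 2 * n) :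
    ex (lmaC κ pj z) (2 * i) = z (Sum.inl ⟨i, hi⟩) := by
  unfold ex lmaC
  rw [dif_pos (by omega)]
  simp only
  rw [if_pos (by omega)]
  congr 2
  apply Fin.ext
  simp

theorem lmaC_odd {n : ℕ} (κ : ℕ → ℝ) (pj : (Fin (n + 2) → ℝ) →ₗ[ℝ] (Fin (n + 2) → ℝ))
    (z : Fin (2 * n) ⊕ Fin (2 * n) → Fin (n + 2) → ℝ) {i : ℕ} (hi : i < 2 * n) :
    ex (lmaC κ pj z) (2 * i + 1) = κ i • z (Sum.inl ⟨i, hi⟩) - pj (z (Sum.inr ⟨i, hi⟩)) := by
  unfold ex lmaC
  rw [dif_pos (by omega)]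
  simp only
  rw [if_neg (by omega)]
  have h1 : (2 * i + 1) / 2 = i := by omega
  simp only [h1]

theorem lmaC_JJ {n : ℕ} (κ : ℕ → ℝ) (pj : (Fin (n + 2) → ℝ) →ₗ[ℝ] (Fin (n + 2) → ℝ))
    {u : Fin 2 → Fin (n + 2) → ℝ} (hpj : ∀ k t, u k ⬝ᵥ pj t = 0) (x y : Fin (n + 2) → ℝ)
    (z : Fin (2 * n) ⊕ Fin (2 * n) → Fin (n + 2) → ℝ) :
    JJ n (ex (lmaC κ pj z)) x y u = lmaML n u x y pj z := by
  change (Lmat n (ex (lmaC κ pj z)) x y u).det = (lmaM n u x y pj z).det
  congr 1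
  ext r c
  rcases r with i | ⟨k, l⟩
  · change dom u (bas (kap n c)) (ex (lmaC κ pj z) (2 * (i : ℕ)))
      (ex (lmaC κ pj z) (2 * (i : ℕ) + 1)) = _
    rw [lmaC_even κ pj z i.2, lmaC_odd κ pj z i.2]
    unfold dom
    simp only [lmaM, dotProduct_sub, dotProduct_smul, smul_eq_mul, hpj, Fin.eta]
    ring
  · rfl

theorem lmaC_sol {n : ℕ} (κ : ℕ → ℝ) (pj : (Fin (n + 2) → ℝ) →ₗ[ℝ] (Fin (n + 2) → ℝ))
    {u : Fin 2 → Fin (n + 2) → ℝ} (hpj : ∀ k t, u k ⬝ᵥ pj t = 0)
    (z : Fin (2 * n) ⊕ Fin (2 * n) → Fin (n + 2) → ℝ) : Sol n (ex (lmaC κ pj z)) u := by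
  intro i hi
  rw [lmaC_even κ pj z hi, lmaC_odd κ pj z hi]
  unfold om
  simp only [dotProduct_sub, dotProduct_smul, smul_eq_mul, hpj]
  ring

theorem lmaC_cont {n : ℕ} (κ : ℕ → ℝ) (pj : (Fin (n + 2) → ℝ) →ₗ[ℝ] (Fin (n + 2) → ℝ)) :
    Continuous (fun z : Fin (2 * n) ⊕ Fin (2 * n) → Fin (n + 2) → ℝ => (lmaC κ pj z : Cf n)) := by
  have hpjc : Continuous pj := pj.continuous_of_finiteDimensional
  have h1 : ∀ r, Continuous fun z : Fin (2 * n) ⊕ Fin (2 * n) → Fin (n + 2) → ℝ => z r :=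
    fun r => continuous_apply r
  have h2 : ∀ r, Continuous fun z : Fin (2 * n) ⊕ Fin (2 * n) → Fin (n + 2) → ℝ => pj (z r) :=
    fun r => hpjc.comp (h1 r)
  have h3 : ∀ r (k : ℝ), Continuous fun z : Fin (2 * n) ⊕ Fin (2 * n) → Fin (n + 2) → ℝ =>
      k • z r := fun r k => (h1 r).const_smul k
  refine continuous_pi fun j => ?_
  unfold lmaC
  split_ifs with h
  · exact h1 _
  · exact (h3 _ _).sub (h2 _)

/-- the projection onto the kernel -/
theorem lma_proj {n : ℕ} {u : Fin 2 → Fin (n + 2) → ℝ} {x y : Fin (n + 2) → ℝ}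
    (ho : om u x y ≠ 0) : ∃ pj : (Fin (n + 2) → ℝ) →ₗ[ℝ] (Fin (n + 2) → ℝ),
      (∀ k t, u k ⬝ᵥ pj t = 0) ∧ (∀ t, (∀ k, u k ⬝ᵥ t = 0) → pj t = t) ∧
      ∀ t, pj t = t - (om u t y / om u x y) • x - (om u x t / om u x y) • y := by
  refine ⟨{ toFun := fun t => t - (om u t y / om u x y) • x - (om u x t / om u x y) • y
            map_add' := ?_
            map_smul' := ?_ }, ?_, ?_, ?_⟩
  · intro a b
    ext i
    simp only [om, dotProduct_add, Pi.sub_apply, Pi.add_apply, Pi.smul_apply, smul_eq_mul]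
    ring
  · intro r a
    ext i
    simp only [om, dotProduct_smul, Pi.sub_apply, Pi.smul_apply, smul_eq_mul, RingHom.id_apply]
    ring
  · intro k t
    simp only [LinearMap.coe_mk, AddHom.coe_mk, dotProduct_sub, dotProduct_smul, smul_eq_mul]
    have h1 : u k ⬝ᵥ t * om u x y = om u t y * (u k ⬝ᵥ x) + om u x t * (u k ⬝ᵥ y) := by
      fin_cases k
      · simp only [om, Fin.zero_eta]
        ring
      · simp only [om, Fin.mk_one]
        ring
    field_simp
    linarith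
  · intro t ht
    simp only [LinearMap.coe_mk, AddHom.coe_mk]
    have h1 : om u t y = 0 := by
      unfold om
      rw [ht 0, ht 1]
      ring
    have h2 : om u x t = 0 := by
      unfold om
      rw [ht 0, ht 1]
      ring
    rw [h1, h2]
    simp
  · intro t
    rfl

/-- a spanning family of the kernel -/
theorem lma_basis {n : ℕ} {u : Fin 2 → Fin (n + 2) → ℝ} {x y : Fin (n + 2) → ℝ}
    (ho : om u x y ≠ 0) : ∃ b : Fin n → Fin (n + 2) → ℝ, (∀ j k, u k ⬝ᵥ b j = 0) ∧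
      ∀ t, (∀ k, u k ⬝ᵥ t = 0) → t ∈ Submodule.span ℝ (Set.range b) := by
  set f : (Fin (n + 2) → ℝ) →ₗ[ℝ] (Fin 2 → ℝ) := Matrix.mulVecLin (Matrix.of u) with hf
  have hfa : ∀ t k, f t k = u k ⬝ᵥ t := by
    intro t k
    rfl
  have hsurj : Function.Surjective f := by
    intro v
    refine ⟨((v 0 * (u 1 ⬝ᵥ y) - v 1 * (u 0 ⬝ᵥ y)) / om u x y) • x +
      ((v 1 * (u 0 ⬝ᵥ x) - v 0 * (u 1 ⬝ᵥ x)) / om u x y) • y, ?_⟩
    funext k
    rw [hfa]
    simp only [dotProduct_add, dotProduct_smul, smul_eq_mul]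
    have h1 : (v 0 * (u 1 ⬝ᵥ y) - v 1 * (u 0 ⬝ᵥ y)) * (u k ⬝ᵥ x) +
        (v 1 * (u 0 ⬝ᵥ x) - v 0 * (u 1 ⬝ᵥ x)) * (u k ⬝ᵥ y) = v k * om u x y := by
      fin_cases k
      · simp only [om, Fin.zero_eta]
        ring
      · simp only [om, Fin.mk_one]
        ring
    field_simp
    linarith
  have hrank : Module.finrank ℝ (LinearMap.ker f) = n := by
    have h1 := LinearMap.finrank_range_add_finrank_ker f
    rw [LinearMap.range_eq_top.2 hsurj, finrank_top, Module.finrank_fintype_fun_eq_card,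
      Module.finrank_fintype_fun_eq_card, Fintype.card_fin, Fintype.card_fin] at h1
    omega
  set B := Module.finBasisOfFinrankEq ℝ (LinearMap.ker f) hrank with hB
  refine ⟨fun j => (B j : Fin (n + 2) → ℝ), ?_, ?_⟩
  · intro j k
    have h1 := (B j).2
    rw [LinearMap.mem_ker] at h1
    rw [← hfa, h1]
    rfl
  · intro t ht
    have h1 : t ∈ LinearMap.ker f := by
      rw [LinearMap.mem_ker]
      funext k
      rw [hfa, ht k]
      rfl
    have h2 : (⟨t, h1⟩ : LinearMap.ker f) ∈ Submodule.span ℝ (Set.range B) := B.mem_span _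
    have h3 := Submodule.mem_map_of_mem (f := (LinearMap.ker f).subtype) h2
    rw [Submodule.map_span, ← Set.range_comp] at h3
    exact h3

/-- the determinant is not identically zero -/
theorem lma_ne {n : ℕ} {u : Fin 2 → Fin (n + 2) → ℝ} {x y : Fin (n + 2) → ℝ}
    (ho : om u x y ≠ 0) (κ : ℕ → ℝ) (pj : (Fin (n + 2) → ℝ) →ₗ[ℝ] (Fin (n + 2) → ℝ))
    (hpj : ∀ k t, u k ⬝ᵥ pj t = 0) (hpj2 : ∀ t, (∀ k, u k ⬝ᵥ t = 0) → pj t = t)
    (hpj3 : ∀ t, pj t = t - (om u t y / om u x y) • x - (om u x t / om u x y) • y) :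
    ∃ z, lmaML n u x y pj z ≠ 0 := by
  obtain ⟨b, hb1, hb2⟩ := lma_basis ho
  obtain ⟨w0, hw00, hw01⟩ : ∃ w : Fin (n + 2) → ℝ, u 0 ⬝ᵥ w = 1 ∧ u 1 ⬝ᵥ w = 0 := by
    refine ⟨((u 1 ⬝ᵥ y) / om u x y) • x + (-(u 1 ⬝ᵥ x) / om u x y) • y, ?_, ?_⟩
    · simp only [dotProduct_add, dotProduct_smul, smul_eq_mul]
      field_simp
      unfold om
      ring
    · simp only [dotProduct_add, dotProduct_smul, smul_eq_mul]
      field_simp
      ring
  obtain ⟨w1, hw10, hw11⟩ : ∃ w : Fin (n + 2) → ℝ, u 0 ⬝ᵥ w = 0 ∧ u 1 ⬝ᵥ w = 1 := by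
    refine ⟨(-(u 0 ⬝ᵥ y) / om u x y) • x + ((u 0 ⬝ᵥ x) / om u x y) • y, ?_, ?_⟩
    · simp only [dotProduct_add, dotProduct_smul, smul_eq_mul]
      field_simp
      ring
    · simp only [dotProduct_add, dotProduct_smul, smul_eq_mul]
      field_simp
      unfold om
      ring
  set z : Fin (2 * n) ⊕ Fin (2 * n) → Fin (n + 2) → ℝ := fun r => match r with
    | Sum.inl i => if (i : ℕ) < n then w0 else w1
    | Sum.inr i => if h : (i : ℕ) < n then b ⟨i, h⟩ else b ⟨i - n, by omega⟩ with hz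
  refine ⟨z, ?_⟩
  rw [← lmaC_JJ κ pj hpj x y z, jj_ne_zero]
  intro h hdom hx hy
  have hb : ∀ j k, h k ⬝ᵥ b j = 0 := by
    intro j k
    fin_cases k
    · have h1 := hdom (j + n) (by omega)
      rw [lmaC_even κ pj z (by omega), lmaC_odd κ pj z (by omega)] at h1
      have h2 : z (Sum.inl ⟨(j : ℕ) + n, by omega⟩) = w1 := by
        simp [hz]
      have h3 : z (Sum.inr ⟨(j : ℕ) + n, by omega⟩) = b j := by
        simp [hz]
      rw [h2, h3, hpj2 _ (hb1 j)] at h1
      unfold dom at h1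
      simp only [dotProduct_sub, dotProduct_smul, smul_eq_mul, hb1, hw10, hw11] at h1
      simp only [Fin.zero_eta]
      linarith
    · have h1 := hdom j (by omega)
      rw [lmaC_even κ pj z (by omega), lmaC_odd κ pj z (by omega)] at h1
      have h2 : z (Sum.inl ⟨(j : ℕ), by omega⟩) = w0 := by
        simp [hz]
      have h3 : z (Sum.inr ⟨(j : ℕ), by omega⟩) = b j := by
        simp [hz]
      rw [h2, h3, hpj2 _ (hb1 j)] at h1
      unfold dom at h1
      simp only [dotProduct_sub, dotProduct_smul, smul_eq_mul, hb1, hw00, hw01] at h1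
      simp only [Fin.mk_one]
      linarith
  have hspan : ∀ k, ∀ t ∈ Submodule.span ℝ (Set.range b), h k ⬝ᵥ t = 0 := by
    intro k t ht
    induction ht using Submodule.span_induction with
    | mem t ht =>
      obtain ⟨j, rfl⟩ := ht
      exact hb j k
    | zero => simp
    | add a b _ _ ha hb => rw [dotProduct_add, ha, hb, add_zero]
    | smul r a _ ha => rw [dotProduct_smul, ha, smul_zero]
  funext k
  have h1 : ∀ t, h k ⬝ᵥ t = 0 := by
    intro t
    have h2 := hspan k (pj t) (hb2 _ fun k => hpj k t)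
    rw [hpj3 t] at h2
    simp only [dotProduct_sub, dotProduct_smul, smul_eq_mul, hx k, hy k, mul_zero, sub_zero] at h2
    exact h2
  funext j
  have h2 := h1 (Pi.single j 1)
  simpa using h2

theorem lemA {n : ℕ} (hn : 1 ≤ n) {c : Cf n} (hT : TPos (n + 2) (4 * n) (ex c))
    {u : Fin 2 → Fin (n + 2) → ℝ} (hs : Sol n (ex c) u) (hp : 0 < om u (ex c 1) (ex c 2))
    (hJ : JJ n (ex c) (ex c 1) (ex c 2) u = 0) {s : ℝ} (hs0 : s ≠ 0) {ε : ℝ} (hε : 0 < ε) :
    ∃ c' : Cf n, dist c' c < ε ∧ Sol n (ex c') u ∧ 0 < om u (ex c' 1) (ex c' 2) ∧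
      s * JJ n (ex c') (ex c' 1) (ex c' 2) u < 0 := by
  classical
  set x := ex c 1 with hx
  set y := ex c 2 with hy
  have ho : om u x y ≠ 0 := hp.ne'
  have hli : LinearIndependent ℝ u := li_of_om ho
  obtain ⟨pj, hpj, hpj2, hpj3⟩ := lma_proj ho
  have hc : ∀ i : ℕ, ∃ κ : ℝ, i < 2 * n →
      ∀ k, u k ⬝ᵥ ex c (2 * i + 1) = κ * (u k ⬝ᵥ ex c (2 * i)) := by
    intro i
    by_cases hi : i < 2 * n
    · obtain ⟨κ, -, hκ⟩ := good_pos hn hT hli hs hi
      exact ⟨κ, fun _ => hκ⟩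
    · exact ⟨0, fun h => absurd h hi⟩
  choose κ hκ using hc
  set z0 : Fin (2 * n) ⊕ Fin (2 * n) → Fin (n + 2) → ℝ := fun r => match r with
    | Sum.inl i => ex c (2 * (i : ℕ))
    | Sum.inr i => κ i • ex c (2 * (i : ℕ)) - ex c (2 * (i : ℕ) + 1) with hz0
  have hker : ∀ i : ℕ, i < 2 * n →
      pj (κ i • ex c (2 * i) - ex c (2 * i + 1)) = κ i • ex c (2 * i) - ex c (2 * i + 1) := by
    intro i hi
    apply hpj2
    intro k
    rw [dotProduct_sub, dotProduct_smul, smul_eq_mul, hκ i hi k]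
    ring
  have hcz : lmaC κ pj z0 = c := by
    funext j
    have hj4 := j.2
    by_cases hj : (j : ℕ) % 2 = 0
    · have h1 := lmaC_even κ pj z0 (i := (j : ℕ) / 2) (by omega)
      have h2 : 2 * ((j : ℕ) / 2) = j := by omega
      have h3 : z0 (Sum.inl ⟨(j : ℕ) / 2, by omega⟩) = ex c (2 * ((j : ℕ) / 2)) := rfl
      rw [h3, h2] at h1
      unfold ex at h1
      rw [dif_pos hj4, dif_pos hj4] at h1
      exact h1
    · have h1 := lmaC_odd κ pj z0 (i := (j : ℕ) / 2) (by omega)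
      have h2 : 2 * ((j : ℕ) / 2) + 1 = j := by omega
      have h3 : z0 (Sum.inl ⟨(j : ℕ) / 2, by omega⟩) = ex c (2 * ((j : ℕ) / 2)) := rfl
      have h4 : z0 (Sum.inr ⟨(j : ℕ) / 2, by omega⟩) = κ ((j : ℕ) / 2) • ex c (2 * ((j : ℕ) / 2))
        - ex c (2 * ((j : ℕ) / 2) + 1) := rfl
      rw [h3, h4, hker _ (by omega), sub_sub_cancel, h2] at h1
      unfold ex at h1
      rw [dif_pos hj4, dif_pos hj4] at h1
      exact h1
  have hm0 : lmaML n u x y pj z0 = 0 := by
    rw [← lmaC_JJ κ pj hpj x y z0, hcz]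
    exact hJ
  obtain ⟨z1, hz1⟩ := lma_ne ho κ pj hpj hpj2 hpj3
  have hcont := lmaC_cont (n := n) κ pj
  have hP : ∀ᶠ z in 𝓝 z0, dist (lmaC κ pj z) c < ε ∧
      0 < om u (ex (lmaC κ pj z) 1) (ex (lmaC κ pj z) 2) := by
    have h1 := hcont.tendsto z0
    rw [hcz] at h1
    have h2 : ∀ᶠ c' : Cf n in 𝓝 c, dist c' c < ε := Metric.ball_mem_nhds c hε
    have h3 : ∀ᶠ c' : Cf n in 𝓝 c, 0 < om u (ex c' 1) (ex c' 2) := by
      have h4 : Continuous fun c' : Cf n => om u (ex c' 1) (ex c' 2) :=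
        (om_cont n 1 2).comp (continuous_const.prodMk continuous_id)
      exact h4.continuousAt.eventually (lt_mem_nhds hp)
    exact (h1.eventually h2).and (h1.eventually h3)
  obtain ⟨z, ⟨hz2, hz3⟩, hz4⟩ := lma_ml (lmaML n u x y pj) z0 z1 hm0 hz1 hs0 hP
  refine ⟨lmaC κ pj z, hz2, lmaC_sol κ pj hpj z, hz3, ?_⟩
  have h1 := jj_gauge x y (ex (lmaC κ pj z) 1) (ex (lmaC κ pj z) 2) (lmaC_sol κ pj hpj z)
  rw [lmaC_JJ κ pj hpj x y z] at h1
  have h2 : 0 < om u (ex (lmaC κ pj z) 1) (ex (lmaC κ pj z) 2) ^ 2 := by positivity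
  have h3 : 0 < om u x y ^ 2 := by positivity
  have h4 : s * JJ n (ex (lmaC κ pj z)) (ex (lmaC κ pj z) 1) (ex (lmaC κ pj z) 2) u *
      om u x y ^ 2 < 0 := by
    have h5 : s * JJ n (ex (lmaC κ pj z)) (ex (lmaC κ pj z) 1) (ex (lmaC κ pj z) 2) u *
        om u x y ^ 2 = (s * lmaML n u x y pj z) *
          om u (ex (lmaC κ pj z) 1) (ex (lmaC κ pj z) 2) ^ 2 := by
      rw [mul_assoc, ← h1]
      ring
    rw [h5]
    exact mul_neg_of_neg_of_pos hz4 h2
  by_contra hcon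
  push Not at hcon
  have := mul_nonneg hcon h3.le
  linarith

end Pool.Agent.TR
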