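import Pool.Agent.Helper65.TR.CLO
import Pool.Agent.Helper65.TR.LMA
import Pool.Agent.Helper65.TR.BEZ

/-!
# TRL RTW : in `RR` all real solutions are right; interior of the closure

PROOFS. `rr_wrong`: let `RR n σ (ex c)` and `u` a real solution with positive first gap which is
nondegenerate and not right.  The `catalan n` normal right solutions and `u` are pairwise
inequivalent (over `ℂ`): normal ones by `nf_unique_c`; `u` is not equivalent to a right one:
normalise `u` to `u' = act g u`, `det g > 0`; `u'` is normal, `u' ≠` the members of `U` (otherwise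
`u = act g⁻¹ u'` is right by `right_act`), and use `nf_unique_c`.  All are `NDC` (`jj_ndc`,
`jj_gauge` not needed: `JJ n A (A 1) (A 2) ≠ 0`, `om u (A 1) (A 2) ≠ 0`).  Contradiction to
`bezout`.
`rr_all`: if `JJ ≠ 0` by `rr_wrong`.  If `JJ = 0` : `lemA` with `s = σ sgA n (ex c) u` (`≠ 0`,
`sgA_pm`), `c'` close to `c` in `RR` (`rr_open`) with `sgA n (ex c') u = sgA n (ex c) u` (`sgA_ev`):
`u` is not right for `c'` and nondegenerate, contradiction to `rr_wrong`.
`rr_int`: let `c` be in the interior of the closure of `RR` and `TPos`.  If not `RR`, `clo` (with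
`S = RR`) gives a degenerate normal real solution `u0` of `c`; `lemA`: `c'` close to `c`, `u0` a
nondegenerate solution with positive first gap and `σ sgA JJ < 0`; after normalisation (`exists_nf`)
and by `nf_stab` this persists for all `c''` near `c'` (nondegenerate normal solutions of the wrong
sign); some `c''` is in `RR` (density), contradiction to `rr_all`.
-/

set_option autoImplicit false

open Topology

namespace Pool.Agent.TR

theorem rr_wrong {n : ℕ} (hn : 1 ≤ n) {σ : ℝ} {A : ℕ → Fin (n + 2) → ℝ} (hR : RR n σ A)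
    {u : Fin 2 → Fin (n + 2) → ℝ} (hs : Sol n A u) (hp : 0 < om u (A 1) (A 2))
    (hJ : JJ n A (A 1) (A 2) u ≠ 0) : RightS n σ A u := by
  sorry

theorem rr_all {n : ℕ} (hn : 1 ≤ n) {σ : ℝ} (hσ : σ ≠ 0) {c : Cf n} (hR : RR n σ (ex c))
    {u : Fin 2 → Fin (n + 2) → ℝ} (hs : Sol n (ex c) u) (hp : 0 < om u (ex c 1) (ex c 2)) :
    RightS n σ (ex c) u := by
  sorry

/-- in `RR` there is no non-real nondegenerate solution. -/
theorem rr_nonreal {n : ℕ} (hn : 1 ≤ n) {σ : ℝ} {A : ℕ → Fin (n + 2) → ℝ} (hR : RR n σ A)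
    {u : Fin 2 → Fin (n + 2) → ℂ} (hs : SolC n A u) (hnd : NDC n A u) :
    ∃ (v : Fin 2 → Fin (n + 2) → ℝ) (g : Matrix (Fin 2) (Fin 2) ℂ), u = act g (cu v) := by
  sorry

theorem rr_int {n : ℕ} (hn : 1 ≤ n) {σ : ℝ} (hσ : σ ≠ 0) {c : Cf n}
    (hT : TPos (n + 2) (4 * n) (ex c))
    (hi : c ∈ interior (closure {c : Cf n | RR n σ (ex c)})) : RR n σ (ex c) := by
  sorry

end Pool.Agent.TR
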