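import Pool.Agent.Helper65.TR.CODefs
import Pool.Agent.Helper65.TR.RTW
import Pool.Agent.Helper65.TR.HZ

/-!
# TRL COB : over `RR` the solution curve has no non-real zeros

PROOFS.  `i0 = j0 / 2`, `w` = the partner column of `j0`; `FF U c j0 z y = ± om (U z) y w` is linear
in `y`, and analytic in `z ∈ ball 0 δ`.
`ff_eta`: `U z` takes the values `(1, 0)` at `x0` and `(0, 1)` at `y0`, so `om (U z) · w` (with
`U z (w) ≠ 0`) does not vanish at `x0` or at `y0`.
`arc_nonreal`: `pert` with `F = FF U c j0 · y`, `G = FF U c j0 · η`: small real `τ` and `x''` near `x'`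
(in the ball, non-real) with `FF .. x'' (y + τ η) = 0` and nonzero derivative
(`FF` is linear in `y`); `RR n σ (ex (update c j0 (y + τ η)))` for small `τ` (`rr_open`).  `U x''` is a
solution (`SolC`) of `c'' = update c j0 (y + τ η)`: the conditions `i ≠ i0` by `eqs` (the pairs
`i ≠ i0` of `c''` and `c` agree).  It is `NDC`: let all `dom (U x'') h (pair i of c'') = 0`.  With
`g k 0 = h_k · x0`, `g k 1 = h_k · y0` and `h' = h - act g (U x'')` we have `h'_k · x0 = h'_k · y0 = 0`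
and all `dom (U x'') h' = 0` (`dom u (act g u) a b = tr(g) om u a b`).  `h'' = h' - ellC l h' • U' x''`
satisfies the hypotheses of `ker` (`U' x''` is killed by the conditions `i ≠ i0` and the gauge and
`ellC l (U' x'') = 1`), so `h' = ellC l h' • U' x''`, and the condition `i0` says
`ellC l h' * deriv (FF ..) x'' = 0`, so `ellC l h' = 0`, `h' = 0`, `h = act g (U x'')`.
By `rr_nonreal` `U x'' = act g (cu v)`; evaluating at `x0, y0` (real vectors; values the identity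
matrix) gives `g * W = 1` with the real matrix `W = (v_k · x0, v_k · y0)`, so `g = W⁻¹` is real and
`U x''` is real; then `x'' = ellC l (U x'') - ellC l (cu u0)` is real.  Contradiction.
-/

set_option autoImplicit false

open Matrix Metric Topology

namespace Pool.Agent.TR

theorem COB_ex {n : ℕ} (c : Cf n) (j0 : Fin (4 * n)) (y : Fin (n + 2) → ℝ) (j : ℕ) :
    ex (Function.update c j0 y) j = if j = (j0 : ℕ) then y else ex c j := by
  unfold ex
  by_cases h : j < 4 * n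
  · rw [dif_pos h, dif_pos h, Function.update_apply]
    by_cases h' : j = (j0 : ℕ)
    · rw [if_pos h', if_pos (Fin.ext h')]
    · rw [if_neg h', if_neg (fun he => h' (congrArg Fin.val he))]
  · have hne : ¬ j = (j0 : ℕ) := fun he => h (by rw [he]; exact j0.2)
    rw [dif_neg h, dif_neg h, if_neg hne]

/-- the partner column -/
def COB_w {n : ℕ} (c : Cf n) (j0 : Fin (4 * n)) : Fin (n + 2) → ℝ :=
  ex c (if (j0 : ℕ) % 2 = 0 then j0 + 1 else j0 - 1)

/-- the sign -/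
def COB_s {n : ℕ} (j0 : Fin (4 * n)) : ℂ := if (j0 : ℕ) % 2 = 0 then 1 else -1

theorem COB_s_ne {n : ℕ} (j0 : Fin (4 * n)) : COB_s j0 ≠ 0 := by
  unfold COB_s
  split_ifs <;> norm_num

theorem COB_ff {n : ℕ} (U : ℂ → Fin 2 → Fin (n + 2) → ℂ) (c : Cf n) (j0 : Fin (4 * n)) (z : ℂ)
    (y : Fin (n + 2) → ℝ) :
    FF U c j0 z y = COB_s j0 * om (U z) (cv y) (cv (COB_w c j0)) := by
  unfold FF COB_s COB_w
  rw [COB_ex, COB_ex]
  rcases Nat.mod_two_eq_zero_or_one (j0 : ℕ) with h | h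
  · rw [if_pos (by omega), if_neg (by omega), if_pos h, if_pos h,
      show 2 * ((j0 : ℕ) / 2) + 1 = (j0 : ℕ) + 1 by omega, one_mul]
  · rw [if_neg (by omega), if_pos (by omega), if_neg (by omega), if_neg (by omega),
      show 2 * ((j0 : ℕ) / 2) = (j0 : ℕ) - 1 by omega]
    unfold om
    ring

theorem COB_cv {m : ℕ} (y η : Fin m → ℝ) (τ : ℝ) : cv (y + τ • η) = cv y + (τ : ℂ) • cv η := by
  funext j
  simp [cv]

theorem COB_om_add {m : ℕ} (u : Fin 2 → Fin m → ℂ) (a b w : Fin m → ℂ) (τ : ℂ) :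
    om u (a + τ • b) w = om u a w + τ * om u b w := by
  unfold om
  rw [dotProduct_add, dotProduct_add, dotProduct_smul, dotProduct_smul, smul_eq_mul, smul_eq_mul]
  ring

theorem ff_add {n : ℕ} (U : ℂ → Fin 2 → Fin (n + 2) → ℂ) (c : Cf n) (j0 : Fin (4 * n)) (z : ℂ)
    (y η : Fin (n + 2) → ℝ) (τ : ℝ) :
    FF U c j0 z (y + τ • η) = FF U c j0 z y + τ * FF U c j0 z η := by
  rw [COB_ff, COB_ff, COB_ff, COB_cv, COB_om_add]
  ring

theorem COB_diff {m : ℕ} {U : ℂ → Fin 2 → Fin m → ℂ} {s : Set ℂ} (hU : DifferentiableOn ℂ U s)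
    (k : Fin 2) (a : Fin m → ℂ) : DifferentiableOn ℂ (fun z => U z k ⬝ᵥ a) s := by
  unfold dotProduct
  apply DifferentiableOn.fun_sum
  intro j _
  have h1 : DifferentiableOn ℂ (fun z => U z k j) s :=
    (differentiableOn_pi.1 ((differentiableOn_pi.1 hU) k)) j
  exact h1.mul_const _

theorem ff_diff {n : ℕ} {c : Cf n} {j0 : Fin (4 * n)} {x0 y0 : Fin (n + 2) → ℝ}
    {u0 : Fin 2 → Fin (n + 2) → ℝ} {δ : ℝ} {U : ℂ → Fin 2 → Fin (n + 2) → ℂ}
    {l : Fin 2 → Fin (n + 2) → ℝ} (h : IsArc n (ex c) ((j0 : ℕ) / 2) x0 y0 u0 δ U l)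
    (y : Fin (n + 2) → ℝ) : DifferentiableOn ℂ (fun z => FF U c j0 z y) (ball 0 δ) := by
  unfold FF om
  exact ((COB_diff h.diff 0 _).mul (COB_diff h.diff 1 _)).sub
    ((COB_diff h.diff 1 _).mul (COB_diff h.diff 0 _))

/-- `w` is the partner column of `j0`. -/
theorem ff_eta {n : ℕ} {c : Cf n} {j0 : Fin (4 * n)} {x0 y0 : Fin (n + 2) → ℝ}
    {u0 : Fin 2 → Fin (n + 2) → ℝ} {δ : ℝ} {U : ℂ → Fin 2 → Fin (n + 2) → ℂ}
    {l : Fin 2 → Fin (n + 2) → ℝ} (h : IsArc n (ex c) ((j0 : ℕ) / 2) x0 y0 u0 δ U l) {z : ℂ}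
    (hz : z ∈ ball (0 : ℂ) δ)
    (hw : ¬ ∀ k, U z k ⬝ᵥ cv (ex c (if (j0 : ℕ) % 2 = 0 then j0 + 1 else j0 - 1)) = 0) :
    ∃ η, FF U c j0 z η ≠ 0 := by
  by_contra hno
  push Not at hno
  apply hw
  obtain ⟨-, e1, e2, e3, e4⟩ := h.eqs z hz
  have h1 := hno x0
  have h2 := hno y0
  rw [COB_ff, mul_eq_zero, or_iff_right (COB_s_ne j0)] at h1 h2
  unfold om at h1 h2
  rw [e1, e2, one_mul, zero_mul, sub_zero] at h1
  rw [e3, e4, zero_mul, one_mul, zero_sub, neg_eq_zero] at h2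
  intro k
  fin_cases k
  · exact h2
  · exact h1

theorem COB_dom_act {m : ℕ} (g : Matrix (Fin 2) (Fin 2) ℂ) (u : Fin 2 → Fin m → ℂ)
    (a b : Fin m → ℂ) : dom u (act g u) a b = (g 0 0 + g 1 1) * om u a b := by
  unfold dom act om
  simp only [add_dotProduct, smul_dotProduct, smul_eq_mul]
  ring

theorem COB_dom_sub {m : ℕ} (u h h' : Fin 2 → Fin m → ℂ)
    (a b : Fin m → ℂ) : dom u (h - h') a b = dom u h a b - dom u h' a b := by
  unfold dom
  simp only [Pi.sub_apply, sub_dotProduct]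
  ring

theorem COB_dom_smul {m : ℕ} (u h : Fin 2 → Fin m → ℂ) (r : ℂ)
    (a b : Fin m → ℂ) : dom u (r • h) a b = r * dom u h a b := by
  unfold dom
  simp only [Pi.smul_apply, smul_dotProduct, smul_eq_mul]
  ring

theorem COB_ell_sub {n : ℕ} (l : Fin 2 → Fin (n + 2) → ℝ) (u v : Fin 2 → Fin (n + 2) → ℂ) :
    ellC l (u - v) = ellC l u - ellC l v := by
  unfold ellC
  simp only [Pi.sub_apply, mul_sub, Finset.sum_sub_distrib]

theorem COB_ell_smul {n : ℕ} (l : Fin 2 → Fin (n + 2) → ℝ) (u : Fin 2 → Fin (n + 2) → ℂ) (r : ℂ) :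
    ellC l (r • u) = r * ellC l u := by
  unfold ellC
  rw [Finset.mul_sum]
  apply Finset.sum_congr rfl
  intro k _
  rw [Finset.mul_sum]
  apply Finset.sum_congr rfl
  intro j _
  simp only [Pi.smul_apply, smul_eq_mul]
  ring

theorem COB_hd {m : ℕ} {U : ℂ → Fin 2 → Fin m → ℂ} {W : Fin 2 → Fin m → ℂ} {z : ℂ}
    (hU : HasDerivAt U W z) (k : Fin 2) (a : Fin m → ℂ) :
    HasDerivAt (fun x => U x k ⬝ᵥ a) (W k ⬝ᵥ a) z := by
  unfold dotProduct
  apply HasDerivAt.fun_sum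
  intro j _
  have h1 : HasDerivAt (fun x => U x k j) (W k j) z :=
    (hasDerivAt_pi.1 ((hasDerivAt_pi.1 hU) k)) j
  exact h1.mul_const _

theorem COB_hd_om {m : ℕ} {U : ℂ → Fin 2 → Fin m → ℂ} {W : Fin 2 → Fin m → ℂ} {z : ℂ}
    (hU : HasDerivAt U W z) (a b : Fin m → ℂ) :
    HasDerivAt (fun x => om (U x) a b) (dom (U z) W a b) z := by
  unfold om dom
  refine (((COB_hd hU 0 a).mul (COB_hd hU 1 b)).sub
    ((COB_hd hU 1 a).mul (COB_hd hU 0 b))).congr_deriv ?_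
  ring

theorem COB_hd_ell {n : ℕ} {U : ℂ → Fin 2 → Fin (n + 2) → ℂ} {W : Fin 2 → Fin (n + 2) → ℂ} {z : ℂ}
    (hU : HasDerivAt U W z) (l : Fin 2 → Fin (n + 2) → ℝ) :
    HasDerivAt (fun x => ellC l (U x)) (ellC l W) z := by
  unfold ellC
  apply HasDerivAt.fun_sum
  intro k _
  apply HasDerivAt.fun_sum
  intro j _
  have h1 : HasDerivAt (fun x => U x k j) (W k j) z :=
    (hasDerivAt_pi.1 ((hasDerivAt_pi.1 hU) k)) j
  exact h1.const_mul _

/-- the derivative of the curve at a point of the ball -/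
theorem COB_der {n : ℕ} {A : ℕ → Fin (n + 2) → ℝ} {i0 : ℕ}
    {x0 y0 : Fin (n + 2) → ℝ} {u0 : Fin 2 → Fin (n + 2) → ℝ} {δ : ℝ}
    {U : ℂ → Fin 2 → Fin (n + 2) → ℂ} {l : Fin 2 → Fin (n + 2) → ℝ}
    (h : IsArc n A i0 x0 y0 u0 δ U l) {z : ℂ} (hz : z ∈ ball (0 : ℂ) δ) :
    ∃ W : Fin 2 → Fin (n + 2) → ℂ, HasDerivAt U W z ∧
      (∀ i < 2 * n, i ≠ i0 → dom (U z) W (cv (A (2 * i))) (cv (A (2 * i + 1))) = 0) ∧
      (∀ k, W k ⬝ᵥ cv x0 = 0) ∧ (∀ k, W k ⬝ᵥ cv y0 = 0) ∧ ellC l W = 1 := by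
  have hU : HasDerivAt U (deriv U z) z :=
    (h.diff.differentiableAt (isOpen_ball.mem_nhds hz)).hasDerivAt
  have hev : ∀ᶠ x in 𝓝 z, x ∈ ball (0 : ℂ) δ := isOpen_ball.mem_nhds hz
  refine ⟨deriv U z, hU, ?_, ?_, ?_, ?_⟩
  · intro i hi hii
    have h1 := COB_hd_om hU (cv (A (2 * i))) (cv (A (2 * i + 1)))
    have h2 : (fun x => om (U x) (cv (A (2 * i))) (cv (A (2 * i + 1)))) =ᶠ[𝓝 z] fun _ => 0 := by
      filter_upwards [hev] with x hx
      exact (h.eqs x hx).1 i hi hii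
    exact h1.unique ((hasDerivAt_const z (0 : ℂ)).congr_of_eventuallyEq h2)
  · intro k
    have h1 := COB_hd hU k (cv x0)
    have h2 : (fun x => U x k ⬝ᵥ cv x0) =ᶠ[𝓝 z] fun _ => U z k ⬝ᵥ cv x0 := by
      filter_upwards [hev] with x hx
      obtain ⟨-, e1, e2, e3, e4⟩ := h.eqs x hx
      obtain ⟨-, f1, f2, f3, f4⟩ := h.eqs z hz
      fin_cases k
      · exact e1.trans f1.symm
      · exact e2.trans f2.symm
    exact h1.unique ((hasDerivAt_const z _).congr_of_eventuallyEq h2)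
  · intro k
    have h1 := COB_hd hU k (cv y0)
    have h2 : (fun x => U x k ⬝ᵥ cv y0) =ᶠ[𝓝 z] fun _ => U z k ⬝ᵥ cv y0 := by
      filter_upwards [hev] with x hx
      obtain ⟨-, e1, e2, e3, e4⟩ := h.eqs x hx
      obtain ⟨-, f1, f2, f3, f4⟩ := h.eqs z hz
      fin_cases k
      · exact e3.trans f3.symm
      · exact e4.trans f4.symm
    exact h1.unique ((hasDerivAt_const z _).congr_of_eventuallyEq h2)
  · have h1 := COB_hd_ell hU l
    have h2 : (fun x => ellC l (U x)) =ᶠ[𝓝 z] fun x => ellC l (cu u0) + x := by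
      filter_upwards [hev] with x hx
      exact h.lin x hx
    have h3 : HasDerivAt (fun x : ℂ => ellC l (cu u0) + x) 1 z :=
      (hasDerivAt_id z).const_add _
    exact h1.unique (h3.congr_of_eventuallyEq h2)

/-- the nondegeneracy -/
theorem COB_ndc {n : ℕ} {A A' : ℕ → Fin (n + 2) → ℝ} {i0 : ℕ} (hi0 : i0 < 2 * n)
    {x0 y0 : Fin (n + 2) → ℝ} {u0 : Fin 2 → Fin (n + 2) → ℝ} {δ : ℝ}
    {U : ℂ → Fin 2 → Fin (n + 2) → ℂ} {l : Fin 2 → Fin (n + 2) → ℝ}
    (h : IsArc n A i0 x0 y0 u0 δ U l) {z : ℂ} (hz : z ∈ ball (0 : ℂ) δ)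
    (hA : ∀ i < 2 * n, i ≠ i0 → A' (2 * i) = A (2 * i) ∧ A' (2 * i + 1) = A (2 * i + 1))
    (hom : om (U z) (cv (A' (2 * i0))) (cv (A' (2 * i0 + 1))) = 0)
    (hder : deriv (fun x => om (U x) (cv (A' (2 * i0))) (cv (A' (2 * i0 + 1)))) z ≠ 0) :
    SolC n A' (U z) ∧ NDC n A' (U z) := by
  obtain ⟨W, hW, w1, w2, w3, w4⟩ := COB_der h hz
  have hsol : SolC n A' (U z) := by
    intro i hi
    by_cases hii : i = i0
    · rw [hii]
      exact hom
    · rw [(hA i hi hii).1, (hA i hi hii).2]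
      exact (h.eqs z hz).1 i hi hii
  refine ⟨hsol, ?_⟩
  rw [(COB_hd_om hW _ _).deriv] at hder
  intro t ht
  obtain ⟨-, e1, e2, e3, e4⟩ := h.eqs z hz
  set g : Matrix (Fin 2) (Fin 2) ℂ := fun k j => if j = 0 then t k ⬝ᵥ cv x0 else t k ⬝ᵥ cv y0
    with hg
  set t' : Fin 2 → Fin (n + 2) → ℂ := t - act g (U z) with ht'
  have hx : ∀ k, t' k ⬝ᵥ cv x0 = 0 := by
    intro k
    simp only [ht', act, Pi.sub_apply, sub_dotProduct, add_dotProduct, smul_dotProduct,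
      smul_eq_mul, e1, e2, hg]
    simp
  have hy : ∀ k, t' k ⬝ᵥ cv y0 = 0 := by
    intro k
    simp only [ht', act, Pi.sub_apply, sub_dotProduct, add_dotProduct, smul_dotProduct,
      smul_eq_mul, e3, e4, hg]
    simp
  have hd : ∀ i < 2 * n, dom (U z) t' (cv (A' (2 * i))) (cv (A' (2 * i + 1))) = 0 := by
    intro i hi
    rw [ht', COB_dom_sub, COB_dom_act, ht i hi, hsol i hi, mul_zero, sub_zero]
  have hk := h.ker z hz (t' - ellC l t' • W) (by
      intro i hi hii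
      rw [COB_dom_sub, COB_dom_smul, w1 i hi hii, mul_zero, sub_zero, ← (hA i hi hii).1,
        ← (hA i hi hii).2]
      exact hd i hi) (by
      intro k
      rw [Pi.sub_apply, sub_dotProduct, hx, Pi.smul_apply, smul_dotProduct, w2, smul_zero,
        sub_zero]) (by
      intro k
      rw [Pi.sub_apply, sub_dotProduct, hy, Pi.smul_apply, smul_dotProduct, w3, smul_zero,
        sub_zero]) (by
      rw [COB_ell_sub, COB_ell_smul, w4, mul_one, sub_self])
  rw [sub_eq_zero] at hk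
  have h0 := hd i0 hi0
  rw [hk, COB_dom_smul, mul_eq_zero, or_iff_left hder] at h0
  rw [h0, zero_smul] at hk
  exact ⟨g, sub_eq_zero.1 hk⟩

/-- a pair equivalent to a real one and taking the values `1` is real -/
theorem COB_real {n : ℕ} {u : Fin 2 → Fin (n + 2) → ℂ} {v : Fin 2 → Fin (n + 2) → ℝ}
    {g : Matrix (Fin 2) (Fin 2) ℂ} (hu : u = act g (cu v)) {x0 y0 : Fin (n + 2) → ℝ}
    (e1 : u 0 ⬝ᵥ cv x0 = 1) (e2 : u 1 ⬝ᵥ cv x0 = 0) (e3 : u 0 ⬝ᵥ cv y0 = 0)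
    (e4 : u 1 ⬝ᵥ cv y0 = 1) (k : Fin 2) (j : Fin (n + 2)) :
    (starRingEnd ℂ) (u k j) = u k j := by
  have hdot : ∀ (k : Fin 2) (x : Fin (n + 2) → ℝ), cu v k ⬝ᵥ cv x = ((v k ⬝ᵥ x : ℝ) : ℂ) := by
    intro k x
    simp [cu, cv, dotProduct]
  set w : Matrix (Fin 2) (Fin 2) ℂ := fun k j => if j = 0 then ((v k ⬝ᵥ x0 : ℝ) : ℂ)
    else ((v k ⬝ᵥ y0 : ℝ) : ℂ) with hw
  have hx : ∀ k, u k ⬝ᵥ cv x0 = g k 0 * w 0 0 + g k 1 * w 1 0 := by
    intro k
    rw [hu]
    simp only [act, add_dotProduct, smul_dotProduct, smul_eq_mul, hdot, hw]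
    simp
  have hy : ∀ k, u k ⬝ᵥ cv y0 = g k 0 * w 0 1 + g k 1 * w 1 1 := by
    intro k
    rw [hu]
    simp only [act, add_dotProduct, smul_dotProduct, smul_eq_mul, hdot, hw]
    simp
  have h1 : g * w = 1 := by
    ext a b
    rw [Matrix.mul_apply, Fin.sum_univ_two]
    fin_cases a <;> fin_cases b
    · simpa using (hx 0).symm.trans e1
    · simpa using (hy 0).symm.trans e3
    · simpa using (hx 1).symm.trans e2
    · simpa using (hy 1).symm.trans e4
  have h2 : g.map (starRingEnd ℂ) * w = 1 := by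
    have hww : w.map (starRingEnd ℂ) = w := by
      ext a b
      simp only [Matrix.map_apply, hw]
      split_ifs <;> exact Complex.conj_ofReal _
    calc g.map (starRingEnd ℂ) * w = g.map (starRingEnd ℂ) * w.map (starRingEnd ℂ) := by rw [hww]
      _ = (g * w).map (starRingEnd ℂ) := (Matrix.map_mul).symm
      _ = 1 := by rw [h1]; simp
  have h3 : w * g = 1 := mul_eq_one_comm.1 h1
  have h4 : g.map (starRingEnd ℂ) = g := by
    calc g.map (starRingEnd ℂ) = g.map (starRingEnd ℂ) * (w * g) := by rw [h3, mul_one]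
      _ = g := by rw [← mul_assoc, h2, one_mul]
  have h5 : ∀ a b, (starRingEnd ℂ) (g a b) = g a b := by
    intro a b
    have := congrFun (congrFun h4 a) b
    simpa using this
  rw [hu]
  simp only [act, cu, Pi.add_apply, Pi.smul_apply, smul_eq_mul, map_add, map_mul, h5,
    Complex.conj_ofReal]

theorem COB_ell_conj {n : ℕ} (l : Fin 2 → Fin (n + 2) → ℝ) {u : Fin 2 → Fin (n + 2) → ℂ}
    (hu : ∀ k j, (starRingEnd ℂ) (u k j) = u k j) :
    (starRingEnd ℂ) (ellC l u) = ellC l u := by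
  unfold ellC
  simp only [map_sum, map_mul, hu, Complex.conj_ofReal]

theorem arc_nonreal {n : ℕ} (hn : 1 ≤ n) {σ : ℝ} {c : Cf n} {j0 : Fin (4 * n)}
    {x0 y0 : Fin (n + 2) → ℝ} {u0 : Fin 2 → Fin (n + 2) → ℝ} {δ : ℝ}
    {U : ℂ → Fin 2 → Fin (n + 2) → ℂ} {l : Fin 2 → Fin (n + 2) → ℝ}
    (h : IsArc n (ex c) ((j0 : ℕ) / 2) x0 y0 u0 δ U l) {y : Fin (n + 2) → ℝ}
    (hR : RR n σ (ex (Function.update c j0 y))) {x' : ℂ} (hx : x' ∈ ball (0 : ℂ) δ)
    (h0 : FF U c j0 x' y = 0) (him : x'.im ≠ 0)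
    (hne : ¬ ∀ᶠ z in 𝓝 x', FF U c j0 z y = 0) (hη : ∃ η, FF U c j0 x' η ≠ 0) : False := by
  obtain ⟨η, hη⟩ := hη
  have hi0 : (j0 : ℕ) / 2 < 2 * n := by
    have := j0.2
    omega
  have hF := (ff_diff h y).analyticAt (isOpen_ball.mem_nhds hx)
  have hG := (ff_diff h η).analyticAt (isOpen_ball.mem_nhds hx)
  -- openness
  have hcont : Continuous (fun τ : ℝ => Function.update c j0 (y + τ • η)) := by
    apply Continuous.update continuous_const
    fun_prop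
  have hop : ∀ᶠ τ in 𝓝 (0 : ℝ), RR n σ (ex (Function.update c j0 (y + τ • η))) := by
    have h1 : IsOpen {τ : ℝ | RR n σ (ex (Function.update c j0 (y + τ • η)))} :=
      (rr_open n hn σ).preimage hcont
    apply h1.mem_nhds
    simp only [Set.mem_ofPred_eq, zero_smul, add_zero]
    exact hR
  obtain ⟨ε, hε, hball⟩ := Metric.eventually_nhds_iff.1 hop
  have hxn : ‖x'‖ < δ := by simpa using hx
  set r : ℝ := min (δ - ‖x'‖) |x'.im| with hr
  have hr0 : 0 < r := lt_min (by linarith) (abs_pos.2 him)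
  obtain ⟨τ, hτ, z, hzr, hz0, hzd⟩ := pert hF hG h0 hη hne hε hr0
  have hzball : z ∈ ball (0 : ℂ) δ := by
    rw [mem_ball_zero_iff]
    have h1 : ‖z‖ ≤ ‖x'‖ + ‖z - x'‖ := by
      have := norm_add_le x' (z - x')
      simpa using this
    have h2 := lt_of_lt_of_le hzr (min_le_left _ _)
    linarith
  have hzim : z.im ≠ 0 := by
    intro h1
    have h2 := lt_of_lt_of_le hzr (min_le_right _ _)
    have h3 := Complex.abs_im_le_norm (z - x')
    rw [Complex.sub_im, h1, zero_sub, abs_neg] at h3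
    linarith
  have hR' : RR n σ (ex (Function.update c j0 (y + τ • η))) := by
    apply hball
    rw [Real.dist_eq, sub_zero]
    exact hτ
  have hfun : ∀ x, FF U c j0 x y + τ * FF U c j0 x η = FF U c j0 x (y + τ • η) := fun x =>
    (ff_add U c j0 x y η τ).symm
  simp only [hfun] at hz0 hzd
  obtain ⟨hs, hnd⟩ := COB_ndc (A' := ex (Function.update c j0 (y + τ • η))) hi0 h hzball (by
    intro i hi hii
    rw [COB_ex, COB_ex, if_neg (by omega), if_neg (by omega)]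
    exact ⟨rfl, rfl⟩) hz0 hzd
  obtain ⟨v, g, hv⟩ := rr_nonreal hn hR' hs hnd
  obtain ⟨-, e1, e2, e3, e4⟩ := h.eqs z hzball
  have hreal := COB_real hv e1 e2 e3 e4
  have hl := h.lin z hzball
  have c1 := COB_ell_conj l hreal
  have c2 : (starRingEnd ℂ) (ellC l (cu u0)) = ellC l (cu u0) :=
    COB_ell_conj l (fun k j => Complex.conj_ofReal _)
  rw [hl, map_add, c2] at c1
  have c3 := add_left_cancel c1
  exact hzim (Complex.conj_eq_iff_im.1 c3)

end Pool.Agent.TR
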