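import Pool.Agent.Helper65.TR.JDT
import Pool.Agent.Helper65.TR.ARC

/-!
# TRL JRL : the Jacobian along the solution curve

PROOF. Let `t` be killed by all rows of `Lmat` except the row `inl i0`, and `ell l t = 1`.  The
matrix with the row `inl i0` replaced by `(row i0) - (dom v t ..) ℓ` kills the (nonzero) coordinate
vector of `t`, so its determinant is `0`; expand linearly in that row (`Matrix.det_updateRow_add`,
`det_updateRow_smul`).  (`t = Σ_c t_(kap c) bas (kap c)`, and the rows are linear.)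
`rep_ne`: if the determinant with the row replaced vanishes, some `h ≠ 0` is killed by all rows.
-/

set_option autoImplicit false

open Matrix

namespace Pool.Agent.TR

def ell {n : ℕ} (l u : Fin 2 → Fin (n + 2) → ℝ) : ℝ := ∑ k, ∑ j, l k j * u k j

/-- the Jacobi matrix with the row `i0` replaced by `ℓ`. -/
noncomputable def Lrep (n : ℕ) (A : ℕ → Fin (n + 2) → ℝ) (x y : Fin (n + 2) → ℝ)
    (l u : Fin 2 → Fin (n + 2) → ℝ) (i0 : Fin (2 * n)) :
    Matrix (Fin (2 * n) ⊕ (Fin 2 × Fin 2)) (Fin (2 * n) ⊕ (Fin 2 × Fin 2)) ℝ :=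
  (Lmat n A x y u).updateRow (Sum.inl i0) (fun c => ell l (bas (kap n c)))

theorem jj_rel {n : ℕ} {A : ℕ → Fin (n + 2) → ℝ} {x y : Fin (n + 2) → ℝ}
    {l v t : Fin 2 → Fin (n + 2) → ℝ} (i0 : Fin (2 * n))
    (h1 : ∀ i < 2 * n, i ≠ i0 → dom v t (A (2 * i)) (A (2 * i + 1)) = 0)
    (h2 : ∀ k, t k ⬝ᵥ x = 0) (h3 : ∀ k, t k ⬝ᵥ y = 0) (hl : ell l t = 1) :
    JJ n A x y v = dom v t (A (2 * i0)) (A (2 * i0 + 1)) * (Lrep n A x y l v i0).det := by
  sorry

theorem rep_ne {n : ℕ} {A : ℕ → Fin (n + 2) → ℝ} {x y : Fin (n + 2) → ℝ}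
    {l v : Fin 2 → Fin (n + 2) → ℝ} (i0 : Fin (2 * n))
    (h : ∀ h : Fin 2 → Fin (n + 2) → ℝ,
      (∀ i < 2 * n, i ≠ i0 → dom v h (A (2 * i)) (A (2 * i + 1)) = 0) →
      (∀ k, h k ⬝ᵥ x = 0) → (∀ k, h k ⬝ᵥ y = 0) → ell l h = 0 → h = 0) :
    (Lrep n A x y l v i0).det ≠ 0 := by
  sorry

end Pool.Agent.TR
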