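import Pool.Agent.Helper65.TR.ARC
import Pool.Agent.Helper65.TR.JRL

/-!
# TRL, definitions for the analysis along the solution curve

`IsArc` is the conclusion of `arc` (without the last statement), `FF` is the last condition
(number `i0 = j0 / 2`) along the curve, as a function of the parameter `x` and of the column `y`
in the position `j0`.
-/

set_option autoImplicit false

open Matrix Metric

namespace Pool.Agent.TR

structure IsArc (n : ℕ) (A : ℕ → Fin (n + 2) → ℝ) (i0 : ℕ) (x0 y0 : Fin (n + 2) → ℝ)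
    (u0 : Fin 2 → Fin (n + 2) → ℝ) (δ : ℝ) (U : ℂ → Fin 2 → Fin (n + 2) → ℂ)
    (l : Fin 2 → Fin (n + 2) → ℝ) : Prop where
  pos : 0 < δ
  diff : DifferentiableOn ℂ U (ball 0 δ)
  zero : U 0 = cu u0
  eqs : ∀ x ∈ ball (0 : ℂ) δ, EqsC n A i0 x0 y0 (U x)
  lin : ∀ x ∈ ball (0 : ℂ) δ, ellC l (U x) = ellC l (cu u0) + x
  real : ∀ x : ℝ, |x| < δ → ∃ v : Fin 2 → Fin (n + 2) → ℝ, U x = cu v
  ker : ∀ x ∈ ball (0 : ℂ) δ, ∀ h : Fin 2 → Fin (n + 2) → ℂ,
    (∀ i < 2 * n, i ≠ i0 → dom (U x) h (cv (A (2 * i))) (cv (A (2 * i + 1))) = 0) →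
    (∀ k, h k ⬝ᵥ cv x0 = 0) → (∀ k, h k ⬝ᵥ cv y0 = 0) → ellC l h = 0 → h = 0

/-- the condition number `j0 / 2` of the configuration `update c j0 y` at the pair `U z`. -/
noncomputable def FF {n : ℕ} (U : ℂ → Fin 2 → Fin (n + 2) → ℂ) (c : Cf n) (j0 : Fin (4 * n)) (z : ℂ)
    (y : Fin (n + 2) → ℝ) : ℂ :=
  om (U z) (cv (ex (Function.update c j0 y) (2 * ((j0 : ℕ) / 2))))
    (cv (ex (Function.update c j0 y) (2 * ((j0 : ℕ) / 2) + 1)))

end Pool.Agent.TR
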