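import Pool.Agent.Helper65.TR.COA
import Pool.Agent.Helper65.TR.COB

/-!
# TRL CORE : what happens at the boundary of `RR` when one column moves

`Gen n c j0`: for every real independent solution `u` of the conditions `i ≠ j0 / 2` which is a
solution of some totally positive configuration differing from `c` only in the column `j0`, the
differentials of the conditions `i ≠ j0 / 2` are linearly independent (`Ind0`).
`ArcZ n c i0`: there is an arc of pairwise inequivalent real solutions of `c`, and all real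
solutions of the conditions `i ≠ i0` near `U 0` are equivalent to points of the arc.

PROOF.  `i0 = j0 / 2`, `A = ex c`, `S = {c' | c' = c off j0, RR c'}`.  By `clo`: `u0` normal, solution
of `c`, `JJ = 0`, and `(u_k, c_k) → (u0, c)`, `c_k ∈ S`, `u_k` normal solution of `c_k`; let
`y_k = c_k j0 → y* = c j0`.
Gauge `x0 = A 1`, `y0 = A 2` (fixed vectors, columns of `c`!).  `Ind0 n A i0 u0` by `Gen`
(`y = c j0`).  Take `δ, U, ℓ` from `arc`.  Let `F(x, y) = om (U x) (pair i0 of update c j0 y)`: it is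
linear in `y` (with the partner column `w` of `j0` fixed), holomorphic in `x`.  The pair `u_k`,
renormalised to the gauge `(x0, y0)`, `û_k = act g_k u_k`, `g_k → 1`, tends to `u0` and solves
`EqsC`, so `û_k = U (x_k)` with `x_k → 0` real (`ellC ℓ (U x) = ellC ℓ (cu u0) + x`) and
`F(x_k, y_k) = 0`.
(`F(x, y) = FF U c j0 x y`.)  By `arc_jac`, for every `y` and `c_y = update c j0 y`:
(J) `JJ n (ex c_y) x0 y0 (v x) = ∂_x F(x, y) Δ(x)`, `U x = cu (v x)`, `Δ` of constant sign.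
At `x = 0`, `y = y*`: `∂_x F (0, y*) = 0`, `F(0, y*) = 0`.
CLAIM: `F(·, y*) = 0` near `0`.  Suppose not; choose `0 < ρ < ρ' < δ` with `F(x, y*) ≠ 0` for
`0 < |x| ≤ ρ`, and so small that for `|x| ≤ ρ`: `U x (w) ≠ 0` (`u0(w) ≠ 0` by `good_ne`), and for
real `|x| ≤ ρ` and `c'` near `c`: `sgA n (ex c') (v x) = sgA n (ex c) u0` (`sgA_ev`) and
`om (v x) (c' 1) (c' 2) > 0`.  By `hz` (`F k = F(·, y_k)`) for some large `k` :
(a) `∂_x F(x_k, y_k) = 0`: then `JJ n (ex c_k) x0 y0 (v x_k) = 0`, so by `jj_gauge` the normal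
solution is degenerate, contradiction to `rr_all`;
(b) another real zero `x'` of `F(·, y_k)` in `(-ρ, ρ)`: every real zero `x` in `(-ρ, ρ)` gives a
solution `v x` of `c_k`, right by `rr_all`, so by (J), `jj_gauge` and the constancy of the sign of
`Δ` and of `sgA`, `∂_x F(x, y_k)` has the same sign `≠ 0` at all real zeros in `(-ρ, ρ)`:
contradiction to `two_zeros` (for `F` or `- F`);
(c) a non-real zero `x'` of `F(·, y_k)` in the ball: impossible by `arc_nonreal` (`ff_eta`).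
Given the CLAIM: `F(x, y*) = 0` for `|x| < δ1`; `ArcZ` with `v` on `(-δ1, δ1)`: solutions of `c`,
independent (gauge), pairwise inequivalent (same gauge and different values of `ℓ`), continuous; a
real pair `u` near `u0` satisfying the conditions `i ≠ i0`, renormalised to the gauge, is near `u0`
and satisfies `EqsC`, so it is `U x`, with `x` real (`ℓ`) and small (close to `0`, because
`x = ell ℓ (act g u) - ell ℓ u0`).
-/

set_option autoImplicit false

open Topology Filter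

namespace Pool.Agent.TR

def Gen (n : ℕ) (c : Cf n) (j0 : Fin (4 * n)) : Prop :=
  ∀ u : Fin 2 → Fin (n + 2) → ℝ, LinearIndependent ℝ u →
    (∃ y, TPos (n + 2) (4 * n) (ex (Function.update c j0 y)) ∧
      Sol n (ex (Function.update c j0 y)) u) → Ind0 n (ex c) ((j0 : ℕ) / 2) u

def ArcZ (n : ℕ) (c : Cf n) (i0 : ℕ) : Prop :=
  ∃ (δ : ℝ) (U : ℝ → Fin 2 → Fin (n + 2) → ℝ), 0 < δ ∧ ContinuousOn U (Set.Ioo (-δ) δ) ∧
    (∀ x ∈ Set.Ioo (-δ) δ, Sol n (ex c) (U x) ∧ LinearIndependent ℝ (U x)) ∧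
    (∀ x ∈ Set.Ioo (-δ) δ, ∀ x' ∈ Set.Ioo (-δ) δ, x ≠ x' → ¬ ∃ g, U x' = act g (U x)) ∧
    ∃ ρ : ℝ, 0 < ρ ∧ ∀ u, dist u (U 0) < ρ →
      (∀ i < 2 * n, i ≠ i0 → om u (ex c (2 * i)) (ex c (2 * i + 1)) = 0) →
      ∃ g : Matrix (Fin 2) (Fin 2) ℝ, g.det ≠ 0 ∧ ∃ x ∈ Set.Ioo (-δ) δ, act g u = U x

theorem core {n : ℕ} (hn : 1 ≤ n) {σ : ℝ} (hσ : σ ≠ 0) {c : Cf n} {j0 : Fin (4 * n)}
    (hgen : Gen n c j0) (hT : TPos (n + 2) (4 * n) (ex c)) (hnot : ¬ RR n σ (ex c))
    (hcl : c ∈ closure {c' : Cf n | (∀ j, j ≠ j0 → c' j = c j) ∧ RR n σ (ex c')}) :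
    ArcZ n c ((j0 : ℕ) / 2) := by
  sorry

end Pool.Agent.TR
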