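import Pool.Agent.TR.Herm

/-!
# TRL CRA : zeros of linear functionals on a convex curve, with multiplicities

`Cvx γ`: continuous, and the vectors at any `m` different parameters are linearly independent.

PROOF of `confl`.  `Z` finite set of parameters, `Q ⊆ Z`, `card Z + card Q ≤ m`, `γ` differentiable
at the points of `Q` with `γ(z), γ'(z)` independent; then `{γ(z)}_(z∈Z) ∪ {γ'(z)}_(z∈Q)` is linearly
independent.  Enlarge `Z` by other parameters to reach `card Z + card Q = m`.  If the `m` vectors do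
not span, some functional `φ ≠ 0` kills all of them, against the Hermite strictness
`_root_.TR.herm` (file `Pool/Agent/TR/Herm.lean`).
-/

set_option autoImplicit false

open Matrix

namespace Pool.Agent.TR

/-- convex curves. -/
def Cvx {m : ℕ} (γ : ℝ → Fin m → ℝ) : Prop :=
  Continuous γ ∧ ∀ w : Fin m → ℝ, Function.Injective w → LinearIndependent ℝ (fun i => γ (w i))

theorem confl {m : ℕ} {γ : ℝ → Fin m → ℝ} (hγ : Cvx γ) (Z Q : Finset ℝ) (hQ : Q ⊆ Z)
    (hcard : Z.card + Q.card ≤ m)
    (hd : ∀ z ∈ Q, DifferentiableAt ℝ γ z ∧ LinearIndependent ℝ ![γ z, deriv γ z]) :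
    LinearIndependent ℝ (fun p : Z ⊕ Q => Sum.elim (fun z : Z => γ z) (fun z : Q => deriv γ z) p) := by
  classical
  obtain ⟨Z', hZ', hcard'⟩ : ∃ Z' : Finset ℝ, Z ⊆ Z' ∧ Z'.card = m - Q.card :=
    Infinite.exists_superset_card_eq Z (m - Q.card) (by omega)
  set F : Z' ⊕ Q → Fin m → ℝ :=
    fun p => Sum.elim (fun z : Z' => γ z) (fun z : Q => deriv γ z) p with hF
  have hspan : ⊤ ≤ Submodule.span ℝ (Set.range F) := by
    by_contra h
    obtain ⟨f, hf0, hf⟩ := Submodule.exists_le_ker_of_lt_top _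
      (lt_top_iff_ne_top.mpr (fun h' => h h'.ge))
    have hk : ∀ p, f (F p) = 0 := fun p =>
      hf (Submodule.subset_span (Set.mem_range_self p))
    refine hf0 (_root_.TR.herm (γ := γ) ⟨hγ.1, hγ.2⟩ Z' Q (hQ.trans hZ') (by omega) (deriv γ)
      (fun b hb => (hd b hb).1.hasDerivAt) (fun b hb => (hd b hb).2) f ?_ ?_)
    · intro a ha
      exact hk (Sum.inl ⟨a, ha⟩)
    · intro b hb
      exact hk (Sum.inr ⟨b, hb⟩)
  have hli : LinearIndependent ℝ F := by
    refine linearIndependent_of_top_le_span_of_card_eq_finrank hspan ?_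
    rw [Fintype.card_sum, Fintype.card_coe, Fintype.card_coe, Module.finrank_fin_fun]
    omega
  have h2 := hli.comp (Sum.map (fun z : Z => (⟨z, hZ' z.2⟩ : Z')) (id : Q → Q))
    (Sum.map_injective.mpr ⟨fun x y hxy => Subtype.ext (congrArg (fun t : Z' => (t : ℝ)) hxy),
      Function.injective_id⟩)
  have h3 : (fun p : Z ⊕ Q => Sum.elim (fun z : Z => γ z) (fun z : Q => deriv γ z) p)
      = F ∘ Sum.map (fun z : Z => (⟨z, hZ' z.2⟩ : Z')) (id : Q → Q) := by
    funext p
    rcases p with z | z <;> rfl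
  rw [h3]
  exact h2

end Pool.Agent.TR
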