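import Mathlib

/-!
# Total reality for convex curves, `d = m - 2` : definitions

`m = n + 2` is the dimension, the columns are `A 0, A 1, ..., A (4 n - 1)`; the `i`-th plane is the
span of `A (2 i)` and `A (2 i + 1)` (`i < 2 n`).  A pair of functionals `u 0, u 1` is a solution if
`om u (A (2 i)) (A (2 i + 1)) = 0` for all `i`.
-/

set_option autoImplicit false

open Matrix

namespace Pool.Agent.TR

/-- `om u x y = u₀(x) u₁(y) - u₁(x) u₀(y)`. -/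
def om {m : ℕ} {R : Type*} [CommRing R] (u : Fin 2 → Fin m → R) (x y : Fin m → R) : R :=
  (u 0 ⬝ᵥ x) * (u 1 ⬝ᵥ y) - (u 1 ⬝ᵥ x) * (u 0 ⬝ᵥ y)

/-- the differential of `u ↦ om u x y` in the direction `h`. -/
def dom {m : ℕ} {R : Type*} [CommRing R] (u h : Fin 2 → Fin m → R) (x y : Fin m → R) : R :=
  (u 0 ⬝ᵥ x) * (h 1 ⬝ᵥ y) + (h 0 ⬝ᵥ x) * (u 1 ⬝ᵥ y)
    - (u 1 ⬝ᵥ x) * (h 0 ⬝ᵥ y) - (h 1 ⬝ᵥ x) * (u 0 ⬝ᵥ y)

/-- the action of `2 × 2` matrices on pairs of functionals. -/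
def act {m : ℕ} {R : Type*} [CommRing R] (g : Matrix (Fin 2) (Fin 2) R) (u : Fin 2 → Fin m → R) :
    Fin 2 → Fin m → R :=
  fun k => g k 0 • u 0 + g k 1 • u 1

/-- complexification of real vectors and real pairs. -/
def cv {m : ℕ} (x : Fin m → ℝ) : Fin m → ℂ := fun j => (x j : ℂ)

def cu {m : ℕ} (u : Fin 2 → Fin m → ℝ) : Fin 2 → Fin m → ℂ := fun k j => (u k j : ℂ)

/-- the determinant with rows `x 0, ..., x (m-1)`. -/
noncomputable def dt {m : ℕ} (x : Fin m → Fin m → ℝ) : ℝ := Matrix.det (Matrix.of x)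

/-- strict total positivity of the first `M` columns. -/
def TPos (m M : ℕ) (A : ℕ → Fin m → ℝ) : Prop :=
  ∀ s : Fin m → ℕ, StrictMono s → (∀ i, s i < M) → 0 < dt (fun i => A (s i))

/-- the closure of the totally positive families. -/
def TPc (m M : ℕ) (A : ℕ → Fin m → ℝ) : Prop :=
  ∀ ε : ℝ, 0 < ε → ∃ B : ℕ → Fin m → ℝ, TPos m M B ∧ ∀ j < M, ∀ i, |B j i - A j i| < ε

/-- `D 0, ..., D (K-1)` has (at least) `r` strict sign changes. -/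
def Alt (D : ℕ → ℝ) (K r : ℕ) : Prop :=
  ∃ s : ℕ → ℕ, (∀ k < r, s k < s (k + 1)) ∧ (∀ k ≤ r, s k < K) ∧
    ∀ k < r, D (s k) * D (s (k + 1)) < 0

/-- consecutive gaps. -/
def gap {m : ℕ} (u : Fin 2 → Fin m → ℝ) (A : ℕ → Fin m → ℝ) : ℕ → ℝ :=
  fun j => om u (A j) (A (j + 1))

/-- the twisted cyclic extension of `A 0, ..., A (M-1)`. -/
def ext (m M : ℕ) (A : ℕ → Fin m → ℝ) : ℕ → Fin m → ℝ :=
  fun j => if j < M then A j else (-1 : ℝ) ^ (m - 1) • A (j - M)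

/-- Grassmann convexity for `k = 2` in dimension `m`. -/
def GCP (m : ℕ) : Prop :=
  ∀ (M : ℕ) (A : ℕ → Fin m → ℝ), TPos m M A → ∀ u : Fin 2 → Fin m → ℝ,
    ¬ Alt (gap u A) (M - 1) (2 * m - 3)

/-- real solutions. -/
def Sol (n : ℕ) (A : ℕ → Fin (n + 2) → ℝ) (u : Fin 2 → Fin (n + 2) → ℝ) : Prop :=
  ∀ i < 2 * n, om u (A (2 * i)) (A (2 * i + 1)) = 0

/-- complex solutions. -/
def SolC (n : ℕ) (A : ℕ → Fin (n + 2) → ℝ) (u : Fin 2 → Fin (n + 2) → ℂ) : Prop :=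
  ∀ i < 2 * n, om u (cv (A (2 * i))) (cv (A (2 * i + 1))) = 0

/-- nondegenerate complex solutions. -/
def NDC (n : ℕ) (A : ℕ → Fin (n + 2) → ℝ) (u : Fin 2 → Fin (n + 2) → ℂ) : Prop :=
  ∀ h : Fin 2 → Fin (n + 2) → ℂ,
    (∀ i < 2 * n, dom u h (cv (A (2 * i))) (cv (A (2 * i + 1))) = 0) →
    ∃ g : Matrix (Fin 2) (Fin 2) ℂ, h = act g u

/-- index set of the coordinates: `inl i` (`i < 2 n`) are `(0, 1), ..., (0, n), (1, 1), ..., (1, n)`,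
`inr (k, 0)` is `(k, 0)` and `inr (k, 1)` is `(k, n + 1)`. -/
def kap (n : ℕ) : Fin (2 * n) ⊕ (Fin 2 × Fin 2) → Fin 2 × Fin (n + 2)
  | Sum.inl i => if h : (i : ℕ) < n then (0, ⟨i + 1, by omega⟩) else (1, ⟨i - n + 1, by omega⟩)
  | Sum.inr (k, l) => (k, if l = 0 then 0 else Fin.last (n + 1))

/-- the basis element of the space of pairs. -/
def bas {n : ℕ} (p : Fin 2 × Fin (n + 2)) : Fin 2 → Fin (n + 2) → ℝ :=
  fun k j => if (k, j) = p then 1 else 0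

/-- the Jacobi matrix of the `2 n` conditions and of the gauge `h(x), h(y)`. -/
noncomputable def Lmat (n : ℕ) (A : ℕ → Fin (n + 2) → ℝ) (x y : Fin (n + 2) → ℝ)
    (u : Fin 2 → Fin (n + 2) → ℝ) :
    Matrix (Fin (2 * n) ⊕ (Fin 2 × Fin 2)) (Fin (2 * n) ⊕ (Fin 2 × Fin 2)) ℝ :=
  fun r c => match r with
    | Sum.inl i => dom u (bas (kap n c)) (A (2 * i)) (A (2 * i + 1))
    | Sum.inr (k, l) => (bas (kap n c)) k ⬝ᵥ (if l = 0 then x else y)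

noncomputable def JJ (n : ℕ) (A : ℕ → Fin (n + 2) → ℝ) (x y : Fin (n + 2) → ℝ)
    (u : Fin 2 → Fin (n + 2) → ℝ) : ℝ := (Lmat n A x y u).det

/-- total (twisted) rotation. -/
noncomputable def rot (K : ℕ) (w : ℕ → ℂ) : ℝ := ∑ j ∈ Finset.range K, (w (j + 1) / w j).arg

noncomputable def sg (m K : ℕ) (w : ℕ → ℂ) : ℝ :=
  (Complex.I ^ (m - 1) * Complex.exp (-(Complex.I / 2) * (rot K w : ℂ))).re

/-- the images of the columns as complex numbers. -/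
noncomputable def wv {m : ℕ} (u : Fin 2 → Fin m → ℝ) (A : ℕ → Fin m → ℝ) : ℕ → ℂ :=
  fun j => ⟨u 0 ⬝ᵥ A j, u 1 ⬝ᵥ A j⟩

/-- the twisted sign of `(u, A)`. -/
noncomputable def sgA (n : ℕ) (A : ℕ → Fin (n + 2) → ℝ) (u : Fin 2 → Fin (n + 2) → ℝ) : ℝ :=
  sg (n + 2) (4 * n) (wv u (ext (n + 2) (4 * n) A))

/-- real solutions of the right sign (automatically nondegenerate). -/
def RightS (n : ℕ) (σ : ℝ) (A : ℕ → Fin (n + 2) → ℝ) (u : Fin 2 → Fin (n + 2) → ℝ) : Prop :=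
  Sol n A u ∧ 0 < om u (A 1) (A 2) ∧ 0 < σ * sgA n A u * JJ n A (A 1) (A 2) u

/-- normal frames: `u(A 1) = (1, 0)`, `u(A 2) = (0, 1)`. -/
def NF (n : ℕ) (A : ℕ → Fin (n + 2) → ℝ) (u : Fin 2 → Fin (n + 2) → ℝ) : Prop :=
  u 0 ⬝ᵥ A 1 = 1 ∧ u 1 ⬝ᵥ A 1 = 0 ∧ u 0 ⬝ᵥ A 2 = 0 ∧ u 1 ⬝ᵥ A 2 = 1

/-- configurations with the full number of solutions of the right sign. -/
def RR (n : ℕ) (σ : ℝ) (A : ℕ → Fin (n + 2) → ℝ) : Prop :=
  TPos (n + 2) (4 * n) A ∧ ∃ U : Finset (Fin 2 → Fin (n + 2) → ℝ), U.card = catalan n ∧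
    ∀ u ∈ U, NF n A u ∧ RightS n σ A u

/-- finite dimensional space of configurations and its embedding. -/
abbrev Cf (n : ℕ) := Fin (4 * n) → Fin (n + 2) → ℝ

def ex {n : ℕ} (c : Cf n) : ℕ → Fin (n + 2) → ℝ := fun j => if h : j < 4 * n then c ⟨j, h⟩ else 0

end Pool.Agent.TR
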