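import Pool.Agent.Helper65.TR.CRA
import Pool.Agent.Helper65.TR.Defs

/-!
# TRL CRB : from convex curves to totally positive configurations

PROOF. (1) The determinant `det(γ(w_1), ..., γ(w_m))` is continuous and nonzero on the convex set of
increasing tuples, so it has a constant sign `σ`; multiplying the coordinate `0` by `σ` we may
assume that it is positive.  (2) Let `A_η (2i) = γ(z_i)`, `A_η (2i+1) = γ(z_i) + η γ'(z_i)`.  A
maximal minor: let `Q` be the set of the `i` for which both columns are chosen, `R` those with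
exactly one.  Subtracting rows, the minor is `η^(card Q) · det(.., γ(z_i), γ'(z_i), .. (i∈Q) ..,
γ(z_i) + (0 or η) γ'(z_i), .. (i∈R) ..)`.  As `η → 0` the second factor tends to the confluent
determinant `C = det(.., γ(z_i), γ'(z_i), .., γ(z_i), ..)` (order of the `z_i`), which is `≠ 0` by
`confl` and `≥ 0` as the limit (`h → 0+`) of the positive numbers
`det(.., γ(z_i), (γ(z_i + h) - γ(z_i))/h, .., γ(z_i), ..)`.  So `C > 0` and the minor is positive for
small `η > 0`; there are finitely many minors.
-/

set_option autoImplicit false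

open Matrix

namespace Pool.Agent.TR

/-- multiplication of the coordinate `0` by `σ`. -/
def refl0 {m : ℕ} (σ : ℝ) (x : Fin m → ℝ) : Fin m → ℝ := fun j => if (j : ℕ) = 0 then σ * x j else x j

private lemma crb_row {k : ℕ} (P : Fin (k + 1) → Prop) [DecidablePred P]
    (A Y : Fin (k + 1) → Fin (k + 1) → ℝ) (t : ℝ) (h0 : ¬ P 0)
    (h1 : ∀ i : Fin k, P i.succ → A i.succ = t • Y i.succ + A i.castSucc)
    (h2 : ∀ i, ¬ P i → A i = Y i) :
    dt A = (∏ i, if P i then t else 1) * dt Y := by
  unfold dt
  rw [← Matrix.det_mul_column]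
  apply Matrix.det_eq_of_forall_row_eq_smul_add_pred (fun i => if P i.succ then 1 else 0)
  · intro j
    simp [h0, h2 0 h0]
  · intro i j
    by_cases hP : P i.succ
    · simp [hP, h1 i hP]
    · simp [hP, h2 _ hP]

private lemma crb_refl {n : ℕ} (σ : ℝ) (x : Fin (n + 2) → Fin (n + 2) → ℝ) :
    dt (fun i => refl0 σ (x i)) = σ * dt x := by
  unfold dt
  have h : Matrix.of (fun i => refl0 σ (x i)) =
      Matrix.of (fun (i j : Fin (n + 2)) => (if (j : ℕ) = 0 then σ else 1) * (Matrix.of x) i j) := by
    ext i j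
    simp only [Matrix.of_apply, refl0]
    split_ifs <;> simp
  rw [h, Matrix.det_mul_row]
  congr 1
  rw [Fin.prod_univ_succ]
  simp

private lemma crb_det_ne {m : ℕ} {x : Fin m → Fin m → ℝ} (h : LinearIndependent ℝ x) : dt x ≠ 0 := by
  unfold dt
  have h2 : IsUnit (Matrix.of x) := Matrix.linearIndependent_rows_iff_isUnit.mp h
  exact ((Matrix.isUnit_iff_isUnit_det _).mp h2).ne_zero

private lemma crb_cont_dt {m : ℕ} {X : Type*} [TopologicalSpace X] {f : X → Fin m → Fin m → ℝ}
    (h : Continuous f) : Continuous (fun x => dt (f x)) := by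
  unfold dt
  exact Continuous.matrix_det (by exact h)

private lemma crb_sign {m : ℕ} {γ : ℝ → Fin m → ℝ} (hγ : Cvx γ) :
    ∃ σ : ℝ, (σ = 1 ∨ σ = -1) ∧ ∀ w : Fin m → ℝ, StrictMono w → 0 < σ * dt (fun i => γ (w i)) := by
  have hconv : Convex ℝ {w : Fin m → ℝ | StrictMono w} := by
    intro w1 h1 w2 h2 a b ha hb hab i j hij
    have e1 := h1 hij
    have e2 := h2 hij
    simp only [Pi.add_apply, Pi.smul_apply, smul_eq_mul]
    rcases eq_or_lt_of_le ha with h | h
    · have hb1 : b = 1 := by linarith
      subst hb1; rw [← h]; linarith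
    · nlinarith
  have hcont : Continuous (fun w : Fin m → ℝ => dt (fun i => γ (w i))) := by
    apply crb_cont_dt
    apply continuous_pi
    intro i
    exact hγ.1.comp (continuous_apply i)
  have hne : ∀ w : Fin m → ℝ, StrictMono w → dt (fun i => γ (w i)) ≠ 0 :=
    fun w hw => crb_det_ne (hγ.2 w hw.injective)
  by_cases h : ∃ w0 : Fin m → ℝ, StrictMono w0 ∧ dt (fun i => γ (w0 i)) < 0
  · obtain ⟨w0, hw0, hlt⟩ := h
    refine ⟨-1, Or.inr rfl, fun w hw => ?_⟩
    by_contra hcon
    have hpos : 0 < dt (fun i => γ (w i)) := by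
      rcases lt_or_gt_of_ne (hne w hw) with h | h
      · linarith
      · exact h
    obtain ⟨v, hv, hv0⟩ := hconv.isPreconnected.intermediate_value hw0 hw hcont.continuousOn
      ⟨hlt.le, hpos.le⟩
    exact hne v hv hv0
  · refine ⟨1, Or.inl rfl, fun w hw => ?_⟩
    push Not at h
    rw [one_mul]
    exact lt_of_le_of_ne (h w hw) (hne w hw).symm

private lemma crb_pred {k : ℕ} {s : Fin (k + 1) → ℕ} (hs : StrictMono s) {i : Fin k}
    (h : ∃ i', s i' + 1 = s i.succ) : s i.castSucc + 1 = s i.succ := by
  obtain ⟨i', hi'⟩ := h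
  have h1 : i' < i.succ := hs.lt_iff_lt.mp (by omega)
  have h2 : i' ≤ i.castSucc := by
    rw [Fin.le_def, Fin.val_castSucc]
    rw [Fin.lt_def, Fin.val_succ] at h1
    omega
  have h3 : s i' ≤ s i.castSucc := hs.monotone h2
  have h4 : s i.castSucc < s i.succ := hs (Fin.castSucc_lt_succ)
  omega

/-- positivity of the confluent determinant. -/
private lemma crb_pos {n : ℕ} {γ : ℝ → Fin (n + 2) → ℝ} (hγ : Cvx γ) (z : ℕ → ℝ)
    (hz : ∀ i j, i < j → j < 2 * n → z i < z j)
    (hd : ∀ i < 2 * n, DifferentiableAt ℝ γ (z i) ∧ LinearIndependent ℝ ![γ (z i), deriv γ (z i)])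
    {σ : ℝ} (hσ : ∀ w : Fin (n + 2) → ℝ, StrictMono w → 0 < σ * dt (fun i => γ (w i)))
    (s : Fin (n + 2) → ℕ) (hs : StrictMono s) (hs4 : ∀ i, s i < 4 * n)
    (P : Fin (n + 2) → Prop) [DecidablePred P]
    (hP : ∀ i, P i ↔ s i % 2 = 1 ∧ ∃ i', s i' + 1 = s i) :
    0 < σ * dt (fun i => if P i then deriv γ (z (s i / 2)) else γ (z (s i / 2))) := by
  have hσ0 : σ ≠ 0 := by
    have h1 : StrictMono (fun i : Fin (n + 2) => ((i : ℕ) : ℝ)) := by
      intro i j hij
      show ((i : ℕ) : ℝ) < ((j : ℕ) : ℝ)
      exact_mod_cast hij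
    have := hσ _ h1
    intro h0
    rw [h0, zero_mul] at this
    exact lt_irrefl _ this
  have hP0 : ¬ P 0 := by
    rw [hP]
    rintro ⟨-, i', hi'⟩
    have := hs.monotone (Fin.zero_le i')
    omega
  have hpred : ∀ i : Fin (n + 1), P i.succ → s i.castSucc + 1 = s i.succ := by
    intro i hi
    exact crb_pred hs ((hP _).mp hi).2
  -- the limit is nonnegative
  have hnn : 0 ≤ σ * dt (fun i => if P i then deriv γ (z (s i / 2)) else γ (z (s i / 2))) := by
    have hlim : Filter.Tendsto (fun h : ℝ => σ * dt (fun i => if P i then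
        h⁻¹ • (γ (z (s i / 2) + h) - γ (z (s i / 2))) else γ (z (s i / 2)))) (nhdsWithin 0 (Set.Ioi 0))
        (nhds (σ * dt (fun i => if P i then deriv γ (z (s i / 2)) else γ (z (s i / 2))))) := by
      apply Filter.Tendsto.const_mul
      have h1 : Continuous (fun x : Fin (n + 2) → Fin (n + 2) → ℝ => dt x) :=
        crb_cont_dt continuous_id
      refine (h1.tendsto _).comp ?_
      rw [tendsto_pi_nhds]
      intro i
      by_cases hi : P i
      · simp only [hi, if_true]
        exact (hd (s i / 2) (by have := hs4 i; omega)).1.hasDerivAt.tendsto_slope_zero_right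
      · simp only [hi, if_false]
        exact tendsto_const_nhds
    refine ge_of_tendsto hlim ?_
    -- separation
    have hsep : ∀ᶠ h : ℝ in nhdsWithin 0 (Set.Ioi 0), ∀ i j : Fin (2 * n), (i : ℕ) < j →
        z i + h < z j := by
      rw [Filter.eventually_all]; intro i
      rw [Filter.eventually_all]; intro j
      by_cases hij : (i : ℕ) < j
      · have h1 : z i < z j := hz i j hij j.2
        have h2 : ∀ᶠ h : ℝ in nhdsWithin 0 (Set.Ioi 0), h < z j - z i :=
          nhdsWithin_le_nhds (Iio_mem_nhds (by linarith))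
        filter_upwards [h2] with h hh _
        linarith
      · filter_upwards with h hh
        exact absurd hh hij
    filter_upwards [hsep, self_mem_nhdsWithin] with h hh1 hh0
    rw [Set.mem_Ioi] at hh0
    have hw : StrictMono (fun i : Fin (n + 2) => if P i then z (s i / 2) + h else z (s i / 2)) := by
      intro i j hij
      have hsij := hs hij
      have hi4 := hs4 i
      have hj4 := hs4 j
      simp only
      by_cases hq : s i / 2 = s j / 2
      · have hPj : P j := (hP j).mpr ⟨by omega, i, by omega⟩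
        have hPi : ¬ P i := by
          rw [hP]; rintro ⟨h1, -⟩; omega
        rw [if_neg hPi, if_pos hPj, hq]
        linarith
      · have h3 : z (s i / 2) + h < z (s j / 2) :=
          hh1 ⟨s i / 2, by omega⟩ ⟨s j / 2, by omega⟩ (by simp only; omega)
        have h4 : (if P i then z (s i / 2) + h else z (s i / 2)) ≤ z (s i / 2) + h := by
          split_ifs <;> linarith
        have h5 : z (s j / 2) ≤ (if P j then z (s j / 2) + h else z (s j / 2)) := by
          split_ifs <;> linarith
        linarith
    have hpos := hσ _ hw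
    have hrow := crb_row P (fun i => γ (if P i then z (s i / 2) + h else z (s i / 2)))
      (fun i => if P i then h⁻¹ • (γ (z (s i / 2) + h) - γ (z (s i / 2))) else γ (z (s i / 2))) h hP0
      (by
        intro i hi
        have h1 := hpred i hi
        have h2 := ((hP _).mp hi).1
        have h3 : ¬ P i.castSucc := by
          rw [hP]; rintro ⟨h4, -⟩; omega
        have h5 : s i.castSucc / 2 = s i.succ / 2 := by omega
        simp only [if_pos hi, if_neg h3, h5]
        rw [smul_smul, mul_inv_cancel₀ hh0.ne', one_smul, sub_add_cancel])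
      (by
        intro i hi
        simp only [if_neg hi])
    rw [hrow] at hpos
    have hprod : 0 < ∏ i : Fin (n + 2), (if P i then h else (1:ℝ)) := by
      apply Finset.prod_pos
      intro i _
      split_ifs
      · exact hh0
      · exact one_pos
    have h6 : σ * ((∏ i : Fin (n + 2), (if P i then h else (1:ℝ))) *
        dt (fun i => if P i then h⁻¹ • (γ (z (s i / 2) + h) - γ (z (s i / 2))) else γ (z (s i / 2)))) =
        (∏ i : Fin (n + 2), (if P i then h else (1:ℝ))) * (σ *
        dt (fun i => if P i then h⁻¹ • (γ (z (s i / 2) + h) - γ (z (s i / 2)))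
          else γ (z (s i / 2)))) := by ring
    rw [h6] at hpos
    exact (pos_of_mul_pos_right hpos hprod.le).le
  -- it is nonzero
  have hne : dt (fun i => if P i then deriv γ (z (s i / 2)) else γ (z (s i / 2))) ≠ 0 := by
    apply crb_det_ne
    classical
    have hzinj : ∀ a b : ℕ, a < 2 * n → b < 2 * n → z a = z b → a = b := by
      intro a b ha hb hab
      rcases lt_trichotomy a b with h | h | h
      · exact absurd hab (hz a b h hb).ne
      · exact h
      · exact absurd hab (hz b a h ha).ne'
    set Z : Finset ℝ := (Finset.univ.filter (fun i => ¬ P i)).image (fun i => z (s i / 2)) with hZ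
    set Q : Finset ℝ := (Finset.univ.filter (fun i => P i)).image (fun i => z (s i / 2)) with hQ
    have hQZ : Q ⊆ Z := by
      intro y hy
      rw [hQ, Finset.mem_image] at hy
      obtain ⟨i, hi, rfl⟩ := hy
      rw [Finset.mem_filter] at hi
      obtain ⟨h1, i', h2⟩ := (hP i).mp hi.2
      rw [hZ, Finset.mem_image]
      refine ⟨i', ?_, ?_⟩
      · rw [Finset.mem_filter]
        refine ⟨Finset.mem_univ _, ?_⟩
        rw [hP]; rintro ⟨h4, -⟩; omega
      · congr 1; omega
    have hcard : Z.card + Q.card ≤ n + 2 := by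
      have h1 : Z.card ≤ (Finset.univ.filter (fun i => ¬ P i)).card := Finset.card_image_le
      have h2 : Q.card ≤ (Finset.univ.filter (fun i => P i)).card := Finset.card_image_le
      have h3 := Finset.card_filter_add_card_filter_not (s := (Finset.univ : Finset (Fin (n + 2))))
        (fun i => P i)
      rw [Finset.card_univ, Fintype.card_fin] at h3
      omega
    have hconf := confl hγ Z Q hQZ hcard (by
      intro y hy
      rw [hQ, Finset.mem_image] at hy
      obtain ⟨i, -, rfl⟩ := hy
      exact hd (s i / 2) (by have := hs4 i; omega))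
    have hmemZ : ∀ i, ¬ P i → z (s i / 2) ∈ Z := by
      intro i hi
      rw [hZ, Finset.mem_image]
      exact ⟨i, Finset.mem_filter.mpr ⟨Finset.mem_univ _, hi⟩, rfl⟩
    have hmemQ : ∀ i, P i → z (s i / 2) ∈ Q := by
      intro i hi
      rw [hQ, Finset.mem_image]
      exact ⟨i, Finset.mem_filter.mpr ⟨Finset.mem_univ _, hi⟩, rfl⟩
    let φ : Fin (n + 2) → Z ⊕ Q := fun i => if h : P i then Sum.inr ⟨z (s i / 2), hmemQ i h⟩
      else Sum.inl ⟨z (s i / 2), hmemZ i h⟩
    have hφ : Function.Injective φ := by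
      intro i j hij
      by_cases hi : P i <;> by_cases hj : P j
      · simp only [φ, dif_pos hi, dif_pos hj, Sum.inr.injEq, Subtype.mk.injEq] at hij
        have h1 := hzinj _ _ (by have := hs4 i; omega) (by have := hs4 j; omega) hij
        have h2 := ((hP i).mp hi).1
        have h3 := ((hP j).mp hj).1
        exact hs.injective (by omega)
      · simp [φ, hi, hj] at hij
      · simp [φ, hi, hj] at hij
      · simp only [φ, dif_neg hi, dif_neg hj, Sum.inl.injEq, Subtype.mk.injEq] at hij
        have h1 := hzinj _ _ (by have := hs4 i; omega) (by have := hs4 j; omega) hij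
        by_contra hne
        rcases lt_or_gt_of_ne (fun h => hne (hs.injective h) : s i ≠ s j) with h | h
        · exact hj ((hP j).mpr ⟨by omega, i, by omega⟩)
        · exact hi ((hP i).mpr ⟨by omega, j, by omega⟩)
    have h7 := hconf.comp φ hφ
    convert h7 using 1
    funext i
    by_cases hi : P i
    · simp [φ, hi]
    · simp [φ, hi]
  exact lt_of_le_of_ne hnn (mul_ne_zero hσ0 hne).symm

theorem curve_tp {n : ℕ} {γ : ℝ → Fin (n + 2) → ℝ} (hγ : Cvx γ) (z : ℕ → ℝ)
    (hz : ∀ i j, i < j → j < 2 * n → z i < z j)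
    (hd : ∀ i < 2 * n, DifferentiableAt ℝ γ (z i) ∧ LinearIndependent ℝ ![γ (z i), deriv γ (z i)]) :
    ∃ σ : ℝ, (σ = 1 ∨ σ = -1) ∧ ∃ η : ℝ, 0 < η ∧ TPos (n + 2) (4 * n) (fun j =>
      if j % 2 = 0 then refl0 σ (γ (z (j / 2)))
      else refl0 σ (γ (z (j / 2)) + η • deriv γ (z (j / 2)))) := by
  classical
  obtain ⟨σ, hσ1, hσ⟩ := crb_sign hγ
  refine ⟨σ, hσ1, ?_⟩
  have hev : ∀ᶠ η : ℝ in nhdsWithin 0 (Set.Ioi 0), ∀ s : Fin (n + 2) → Fin (4 * n), StrictMono s →
      0 < σ * dt (fun i => if (s i : ℕ) % 2 = 0 then γ (z ((s i : ℕ) / 2))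
        else γ (z ((s i : ℕ) / 2)) + η • deriv γ (z ((s i : ℕ) / 2))) := by
    rw [Filter.eventually_all]
    intro s
    by_cases hs : StrictMono s
    · have hs' : StrictMono (fun i => (s i : ℕ)) := fun i j hij => hs hij
      obtain ⟨P, hP⟩ : ∃ P : Fin (n + 2) → Prop, ∀ i, P i ↔ (s i : ℕ) % 2 = 1 ∧
        ∃ i', (s i' : ℕ) + 1 = s i := ⟨fun i => (s i : ℕ) % 2 = 1 ∧
        ∃ i', (s i' : ℕ) + 1 = s i, fun i => Iff.rfl⟩
      have hpos := crb_pos hγ z hz hd hσ (fun i => (s i : ℕ)) hs' (fun i => (s i).2) P hP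
      have hP0 : ¬ P 0 := by
        rw [hP]
        rintro ⟨-, i', hi'⟩
        have : (s 0 : ℕ) ≤ s i' := hs'.monotone (Fin.zero_le i')
        omega
      have hcont : Continuous (fun η : ℝ => σ * dt (fun i => if P i then deriv γ (z ((s i : ℕ) / 2))
          else γ (z ((s i : ℕ) / 2)) + (if (s i : ℕ) % 2 = 0 then 0 else η) •
            deriv γ (z ((s i : ℕ) / 2)))) := by
        apply Continuous.mul continuous_const
        apply crb_cont_dt
        apply continuous_pi
        intro i
        split_ifs <;> fun_prop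
      have h0 : 0 < (fun η : ℝ => σ * dt (fun i => if P i then deriv γ (z ((s i : ℕ) / 2))
          else γ (z ((s i : ℕ) / 2)) + (if (s i : ℕ) % 2 = 0 then 0 else η) •
            deriv γ (z ((s i : ℕ) / 2)))) 0 := by
        simp only [ite_self, zero_smul, add_zero]
        exact hpos
      have hev1 := (hcont.tendsto 0).eventually (lt_mem_nhds h0)
      have hev2 : ∀ᶠ η : ℝ in nhdsWithin 0 (Set.Ioi 0), 0 < σ * dt (fun i => if P i then
          deriv γ (z ((s i : ℕ) / 2))
          else γ (z ((s i : ℕ) / 2)) + (if (s i : ℕ) % 2 = 0 then 0 else η) •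
            deriv γ (z ((s i : ℕ) / 2))) := nhdsWithin_le_nhds hev1
      filter_upwards [hev2, self_mem_nhdsWithin] with η hη hη0 _
      rw [Set.mem_Ioi] at hη0
      have hrow := crb_row P (fun i => if (s i : ℕ) % 2 = 0 then γ (z ((s i : ℕ) / 2))
        else γ (z ((s i : ℕ) / 2)) + η • deriv γ (z ((s i : ℕ) / 2)))
        (fun i => if P i then deriv γ (z ((s i : ℕ) / 2))
          else γ (z ((s i : ℕ) / 2)) + (if (s i : ℕ) % 2 = 0 then 0 else η) •
            deriv γ (z ((s i : ℕ) / 2))) η hP0
        (by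
          intro i hi
          have h1 : (s i.castSucc : ℕ) + 1 = s i.succ := crb_pred hs' ((hP _).mp hi).2
          have h2 := ((hP _).mp hi).1
          have h3 : ((s i.castSucc : ℕ)) % 2 = 0 := by omega
          have h4 : ¬ ((s i.succ : ℕ) % 2 = 0) := by omega
          have h5 : (s i.castSucc : ℕ) / 2 = (s i.succ : ℕ) / 2 := by omega
          simp only [if_pos hi, if_pos h3, if_neg h4, h5]
          exact add_comm _ _)
        (by
          intro i hi
          simp only [if_neg hi]
          split_ifs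
          · rw [zero_smul, add_zero]
          · rfl)
      rw [hrow]
      have hprod : 0 < ∏ i : Fin (n + 2), (if P i then η else (1:ℝ)) := by
        apply Finset.prod_pos
        intro i _
        split_ifs
        · exact hη0
        · exact one_pos
      rw [mul_left_comm]
      exact mul_pos hprod hη
    · filter_upwards with η hh
      exact absurd hh hs
  obtain ⟨η, hη, hη0⟩ := (hev.and self_mem_nhdsWithin).exists
  refine ⟨η, hη0, ?_⟩
  intro s hs hs4
  have h1 := hη (fun i => ⟨s i, hs4 i⟩) (fun i j hij => hs hij)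
  have h2 : (fun i => if s i % 2 = 0 then refl0 σ (γ (z (s i / 2)))
      else refl0 σ (γ (z (s i / 2)) + η • deriv γ (z (s i / 2)))) =
      (fun i => refl0 σ (if s i % 2 = 0 then γ (z (s i / 2))
        else γ (z (s i / 2)) + η • deriv γ (z (s i / 2)))) := by
    funext i
    split_ifs <;> rfl
  rw [h2, crb_refl]
  exact h1

end Pool.Agent.TR
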