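import Pool.Agent.Helper65.TR.GOOD

/-!
# TRL HG : no pencils of real solutions through a fixed functional

PROOF. The map `(a, b) ↦ om ![h, a g1 + b g2] (A 1) (A 2)` is linear on `ℝ^2`, so it vanishes for
some `(a, b) ≠ 0`.  `u = ![h, a g1 + b g2]` is linearly independent and a solution (`om ![h, g] x y`
is linear in `g`), contradiction to `good_first`.
-/

set_option autoImplicit false

open Matrix

namespace Pool.Agent.TR

private theorem hg_om {n : ℕ} (h g1 g2 : Fin (n + 2) → ℝ) (a b : ℝ) (x y : Fin (n + 2) → ℝ) :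
    om ![h, a • g1 + b • g2] x y = a * om ![h, g1] x y + b * om ![h, g2] x y := by
  simp only [om, Matrix.cons_val_zero, Matrix.cons_val_one, add_dotProduct, smul_dotProduct,
    smul_eq_mul]
  ring

theorem hg {n : ℕ} (hn : 1 ≤ n) {A : ℕ → Fin (n + 2) → ℝ} (hA : TPos (n + 2) (4 * n) A)
    {h g1 g2 : Fin (n + 2) → ℝ} (hli : LinearIndependent ℝ ![h, g1, g2])
    (h1 : Sol n A ![h, g1]) (h2 : Sol n A ![h, g2]) : False := by
  rw [Fintype.linearIndependent_iff] at hli
  have hu1 : LinearIndependent ℝ ![h, g1] := by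
    rw [LinearIndependent.pair_iff]
    intro s t hst
    have := hli ![s, t, 0] (by simpa [Fin.sum_univ_three] using hst)
    exact ⟨this 0, this 1⟩
  have hα := good_first hn hA hu1 h1
  set α := om ![h, g1] (A 1) (A 2) with hαd
  set β := om ![h, g2] (A 1) (A 2) with hβd
  have hu : LinearIndependent ℝ ![h, (-β) • g1 + α • g2] := by
    rw [LinearIndependent.pair_iff]
    intro s t hst
    have := hli ![s, t * (-β), t * α] (by
      rw [Fin.sum_univ_three]
      change s • h + (t * (-β)) • g1 + (t * α) • g2 = 0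
      rw [← hst, smul_add, smul_smul, smul_smul, add_assoc])
    refine ⟨this 0, ?_⟩
    have h3 : t * α = 0 := this 2
    exact (mul_eq_zero.mp h3).resolve_right hα
  have hs : Sol n A ![h, (-β) • g1 + α • g2] := by
    intro i hi
    rw [hg_om, h1 i hi, h2 i hi]; ring
  refine good_first hn hA hu hs ?_
  rw [hg_om, ← hαd, ← hβd]; ring

end Pool.Agent.TR
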