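import Pool.Agent.Helper65.TR.CORE
import Pool.Agent.Helper65.TR.HG

/-!
# TRL CTB : the bad positions of the moving column lie in countably many subspaces of codimension 2

PROOF.  `i0 = j0 / 2`, `w` the partner column of `j0`, `φ_u(y) = om u (pair i0 of update c j0 y)`,
linear in `y` (`= ± om u w y`).  Let `Z` be the set of real pairs satisfying the conditions
`i ≠ i0` of `c` (it does not depend on the column `j0`), `Q` a countable dense subset of `Z`
(subspace of a separable metric space), `𝓛` = the set of all `ker φ_q ∩ ker φ_q'` with `q, q' ∈ Q`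
and `φ_q, φ_q'` linearly independent (`finrank = n`).
Let `TPos (update c j0 y)` and `ArcZ` hold, with arc `U`, radius `ρ`.  (1) There are
`x, x'` arbitrarily close to `0` such that `φ_(U x)`, `φ_(U x')` are independent: otherwise, with
`h = φ_(U 0)` as a functional (`≠ 0` because `U 0 (w) ≠ 0` by `good_ne` and `U 0` is independent;
`φ_u` is a linear combination of `u 0, u 1`), `φ_(U x)` is a nonzero multiple of `h` for all small `x`,
so `h` is in the row space of `U x`; choose `x ≠ x'` small; `U x` is equivalent to `![h, g1]`, `U x'`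
to `![h, g2]`, and `h, g1, g2` are independent as `U x, U x'` are not equivalent; contradiction to
`hg`.  (2) Choose such `x, x'` with `U x, U x'` within `ρ/2` of `U 0`, and `q, q' ∈ Q` close to
`U x, U x'` (they are in `Z`), closer than `ρ/2` and so close that `φ_q, φ_q'` are independent.  By
`ArcZ`, `act g q = U x''` with `det g ≠ 0`, so `φ_q(y) = φ_(U x'')(y) / det g = 0` because `U x''` is a
solution of `update c j0 y`; the same for `q'`.  So `y ∈ ker φ_q ∩ ker φ_q'`.
-/

set_option autoImplicit false

open Topology Filter

namespace Pool.Agent.TR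

theorem ctb {n : ℕ} (hn : 1 ≤ n) (c : Cf n) (j0 : Fin (4 * n)) :
    ∃ L : Set (Submodule ℝ (Fin (n + 2) → ℝ)), L.Countable ∧
      (∀ V ∈ L, Module.finrank ℝ V + 2 ≤ n + 2) ∧
      ∀ y, TPos (n + 2) (4 * n) (ex (Function.update c j0 y)) →
        ArcZ n (Function.update c j0 y) ((j0 : ℕ) / 2) → ∃ V ∈ L, y ∈ V := by
  sorry

end Pool.Agent.TR
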