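import Pool.Agent.Helper65.TR.Defs

/-!
# TRL CXP : a complex solution can be made nondegenerate by moving the (real) columns

Hypothesis: `u 0, u 1` and their conjugates are linearly independent (so `n + 2 ≥ 4`), i.e. the
real-linear map `T : ℝ^m → ℂ^2`, `T y = (u 0 · y, u 1 · y)` is surjective.

PROOF (greedy version).  `W c k` is the space of all `h` with `dom u h = 0` on the first `k` pairs.
Key lemma `cxp_key`: if `h` is not of the form `act g u`, every real pair `(a, b)` with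
`om u a b = 0` can be moved a little to a pair with `om u a' b' = 0` and `dom u h a' b' ≠ 0`.
So pair by pair the dimension of `W c k` can be made to drop, unless already `W c k ⊆ act · u`;
after `2 n` steps the dimension is at most `4 = dim (act · u)`.

Proof of the key lemma: `T a = λ e`, `T b = μ e`; adding `s T⁺ e`, `s T⁺ (I e)` we may assume
`Im (λ conj μ) ≠ 0`.  For `w` with `u · w = 0` put `α_j = Im (λ conj w_j)`, `β_j = Im (μ conj w_j)`;
then `T (a + s α) = λ e_s`, `T (b + s β) = μ e_s`, so `om = 0` for all real `s`, and the coefficient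
of `s^2` in `dom u h (a + s α) (b + s β)`, a nonzero multiple of `det (u (conj w), h w)`, vanishes.
Polarise, and use `u (conj V) = ℂ^2`, `V = ker u`.
-/

set_option autoImplicit false

open Matrix

namespace Pool.Agent.TR

/-- conjugate vector -/
def cxpBar {m : ℕ} (z : Fin m → ℂ) : Fin m → ℂ := fun j => (starRingEnd ℂ) (z j)

theorem cxp_bar_dot {m : ℕ} (x y : Fin m → ℂ) :
    cxpBar x ⬝ᵥ cxpBar y = (starRingEnd ℂ) (x ⬝ᵥ y) := by
  simp [dotProduct, cxpBar, map_sum]

theorem cxp_bar_bar {m : ℕ} (x : Fin m → ℂ) : cxpBar (cxpBar x) = x := by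
  funext j; simp [cxpBar]

theorem cxp_surj {m : ℕ} {u : Fin 2 → Fin m → ℂ}
    (hli : LinearIndependent ℂ ![u 0, u 1, fun j => (starRingEnd ℂ) (u 0 j),
      fun j => (starRingEnd ℂ) (u 1 j)]) (p : Fin 2 → ℂ) :
    ∃ y : Fin m → ℝ, ∀ k, u k ⬝ᵥ cv y = p k := by
  set M : Matrix (Fin 4) (Fin m) ℂ := Matrix.of ![u 0, u 1, fun j => (starRingEnd ℂ) (u 0 j),
      fun j => (starRingEnd ℂ) (u 1 j)] with hM
  have hr : M.rank = 4 := by
    have := LinearIndependent.rank_matrix (M := M) hli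
    simpa using this
  have hsurj : LinearMap.range M.mulVecLin = ⊤ := by
    apply Submodule.eq_top_of_finrank_eq
    rw [← Matrix.rank, hr]
    simp
  have hz : ∃ z, M.mulVecLin z = ![p 0, p 1, (starRingEnd ℂ) (p 0), (starRingEnd ℂ) (p 1)] := by
    rw [← LinearMap.mem_range, hsurj]; trivial
  obtain ⟨z, hz⟩ := hz
  have h0 : u 0 ⬝ᵥ z = p 0 := congrFun hz 0
  have h1 : u 1 ⬝ᵥ z = p 1 := congrFun hz 1
  have h2 : cxpBar (u 0) ⬝ᵥ z = (starRingEnd ℂ) (p 0) := congrFun hz 2
  have h3 : cxpBar (u 1) ⬝ᵥ z = (starRingEnd ℂ) (p 1) := congrFun hz 3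
  have hcv : cv (fun j => (z j).re) = (1 / 2 : ℂ) • (z + cxpBar z) := by
    funext j
    simp only [cv, Pi.smul_apply, Pi.add_apply, cxpBar, smul_eq_mul]
    rw [Complex.re_eq_add_conj]; ring
  have key : ∀ k, u k ⬝ᵥ z = p k → cxpBar (u k) ⬝ᵥ z = (starRingEnd ℂ) (p k) →
      u k ⬝ᵥ cv (fun j => (z j).re) = p k := by
    intro k e1 e2
    have e3 : u k ⬝ᵥ cxpBar z = p k := by
      have := cxp_bar_dot (cxpBar (u k)) z
      rw [cxp_bar_bar, e2, Complex.conj_conj] at this
      exact this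
    rw [hcv, dotProduct_smul, dotProduct_add, e1, e3, smul_eq_mul]; ring
  refine ⟨fun j => (z j).re, fun k => ?_⟩
  fin_cases k
  · exact key 0 h0 h2
  · exact key 1 h1 h3

/-- a quadratic polynomial vanishing near `0` -/
theorem cxp_quad {A B C : ℂ} {δ : ℝ} (hδ : 0 < δ)
    (h : ∀ s : ℝ, 0 < s → s < δ → A + s * B + s ^ 2 * C = 0) : C = 0 := by
  have h1 := h (δ / 4) (by linarith) (by linarith)
  have h2 := h (δ / 2) (by linarith) (by linarith)
  have h3 := h (3 * δ / 4) (by linarith) (by linarith)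
  have h4 : ((δ : ℂ) ^ 2 / 8) * C = 0 := by
    push_cast at h1 h2 h3
    linear_combination h1 - 2 * h2 + h3
  have h5 : ((δ : ℂ) ^ 2 / 8) ≠ 0 := by
    have : (δ : ℂ) ≠ 0 := by exact_mod_cast hδ.ne'
    exact div_ne_zero (pow_ne_zero 2 this) (by norm_num)
  exact (mul_eq_zero.1 h4).resolve_left h5

theorem cxp_quad_real {A B : ℝ} {δ : ℝ} (hδ : 0 < δ) :
    ∃ s : ℝ, 0 < s ∧ s < δ ∧ A + s * B - s ^ 2 ≠ 0 := by
  by_contra hc
  push Not at hc
  have h1 := hc (δ / 4) (by linarith) (by linarith)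
  have h2 := hc (δ / 2) (by linarith) (by linarith)
  have h3 := hc (3 * δ / 4) (by linarith) (by linarith)
  have h4 : δ ^ 2 = 0 := by linear_combination -8 * h1 + 16 * h2 - 8 * h3
  have : 0 < δ ^ 2 := by positivity
  linarith

theorem cv_add' {m : ℕ} (x y : Fin m → ℝ) : cv (x + y) = cv x + cv y := by
  funext j; simp [cv]

theorem cv_smul' {m : ℕ} (s : ℝ) (x : Fin m → ℝ) : cv (s • x) = (s : ℂ) • cv x := by
  funext j; simp [cv]

/-- `u (conj V) = ℂ^2`. -/
theorem cxp_V {m : ℕ} {u : Fin 2 → Fin m → ℂ}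
    (hT : ∀ p : Fin 2 → ℂ, ∃ y : Fin m → ℝ, ∀ k, u k ⬝ᵥ cv y = p k) (p : Fin 2 → ℂ) :
    ∃ w : Fin m → ℂ, (∀ k, u k ⬝ᵥ w = 0) ∧ ∀ k, u k ⬝ᵥ cxpBar w = p k := by
  obtain ⟨y1, h1⟩ := hT (fun k => p k / 2)
  obtain ⟨y2, h2⟩ := hT (fun k => Complex.I * p k / 2)
  refine ⟨cv y1 + Complex.I • cv y2, fun k => ?_, fun k => ?_⟩
  · rw [dotProduct_add, dotProduct_smul, h1, h2, smul_eq_mul]
    linear_combination (p k / 2) * Complex.I_sq
  · have : cxpBar (cv y1 + Complex.I • cv y2) = cv y1 - Complex.I • cv y2 := by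
      funext j; simp [cxpBar, cv]; ring
    rw [this, dotProduct_sub, dotProduct_smul, h1, h2, smul_eq_mul]
    linear_combination (-p k / 2) * Complex.I_sq

/-- a pair of functionals vanishing on the common kernel of `u` is `act g u`. -/
theorem cxp_act {m : ℕ} {u h : Fin 2 → Fin m → ℂ}
    (hT : ∀ p : Fin 2 → ℂ, ∃ y : Fin m → ℝ, ∀ k, u k ⬝ᵥ cv y = p k)
    (hh : ∀ w : Fin m → ℂ, (∀ k, u k ⬝ᵥ w = 0) → ∀ k, h k ⬝ᵥ w = 0) :
    ∃ g : Matrix (Fin 2) (Fin 2) ℂ, h = act g u := by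
  obtain ⟨z0, h0⟩ := hT ![1, 0]
  obtain ⟨z1, h1⟩ := hT ![0, 1]
  refine ⟨Matrix.of ![![h 0 ⬝ᵥ cv z0, h 0 ⬝ᵥ cv z1], ![h 1 ⬝ᵥ cv z0, h 1 ⬝ᵥ cv z1]], ?_⟩
  have key : ∀ (k : Fin 2) (j : Fin m),
      h k j = (h k ⬝ᵥ cv z0) * u 0 j + (h k ⬝ᵥ cv z1) * u 1 j := by
    intro k j
    have hw := hh (Pi.single j 1 - (u 0 j) • cv z0 - (u 1 j) • cv z1) ?_ k
    · rw [dotProduct_sub, dotProduct_sub, dotProduct_smul, dotProduct_smul,
        dotProduct_single_one] at hw
      simp only [smul_eq_mul] at hw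
      linear_combination hw
    · intro i
      rw [dotProduct_sub, dotProduct_sub, dotProduct_smul, dotProduct_smul,
        dotProduct_single_one, h0 i, h1 i]
      fin_cases i <;> simp
  funext k j
  rw [key k j]
  fin_cases k <;> simp [act]

theorem cxp_key {m : ℕ} {u h : Fin 2 → Fin m → ℂ}
    (hT : ∀ p : Fin 2 → ℂ, ∃ y : Fin m → ℝ, ∀ k, u k ⬝ᵥ cv y = p k)
    {a b : Fin m → ℝ} (hab : om u (cv a) (cv b) = 0) {ε : ℝ} (hε : 0 < ε)
    (hno : ∀ a' b' : Fin m → ℝ, dist a' a < ε → dist b' b < ε → om u (cv a') (cv b') = 0 →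
      dom u h (cv a') (cv b') = 0) :
    ∃ g : Matrix (Fin 2) (Fin 2) ℂ, h = act g u := by
  -- the representation `T a = l e`, `T b = r e`
  obtain ⟨e, l, r, hl, hr⟩ : ∃ (e : Fin 2 → ℂ) (l r : ℂ), (∀ k, u k ⬝ᵥ cv a = l * e k) ∧
      ∀ k, u k ⬝ᵥ cv b = r * e k := by
    have hab' : (u 0 ⬝ᵥ cv a) * (u 1 ⬝ᵥ cv b) = (u 1 ⬝ᵥ cv a) * (u 0 ⬝ᵥ cv b) := by
      unfold om at hab; linear_combination hab
    by_cases h0 : u 0 ⬝ᵥ cv a = 0
    · by_cases h1 : u 1 ⬝ᵥ cv a = 0
      · refine ⟨fun k => u k ⬝ᵥ cv b, 0, 1, fun k => ?_, fun k => by ring⟩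
        fin_cases k
        · simpa using h0
        · simpa using h1
      · refine ⟨fun k => u k ⬝ᵥ cv a, 1, (u 1 ⬝ᵥ cv b) / (u 1 ⬝ᵥ cv a), fun k => by ring,
          fun k => ?_⟩
        fin_cases k
        · simp only [Fin.zero_eta]
          field_simp
          linear_combination -hab'
        · simp only [Fin.mk_one]
          field_simp
    · refine ⟨fun k => u k ⬝ᵥ cv a, 1, (u 0 ⬝ᵥ cv b) / (u 0 ⬝ᵥ cv a), fun k => by ring,
        fun k => ?_⟩
      fin_cases k
      · simp only [Fin.zero_eta]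
        field_simp
      · simp only [Fin.mk_one]
        field_simp
        linear_combination hab'
  obtain ⟨y1, hy1⟩ := hT e
  obtain ⟨y2, hy2⟩ := hT (fun k => Complex.I * e k)
  -- step 1
  obtain ⟨δ, hδ, hδ1, hδ2⟩ : ∃ δ : ℝ, 0 < δ ∧ δ * ‖y1‖ < ε / 2 ∧ δ * ‖y2‖ < ε / 2 := by
    refine ⟨ε / (2 * (‖y1‖ + ‖y2‖ + 1)), by positivity, ?_, ?_⟩
    · rw [div_mul_eq_mul_div, div_lt_div_iff₀ (by positivity) (by positivity)]
      nlinarith [norm_nonneg y1, norm_nonneg y2]
    · rw [div_mul_eq_mul_div, div_lt_div_iff₀ (by positivity) (by positivity)]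
      nlinarith [norm_nonneg y1, norm_nonneg y2]
  obtain ⟨s0, hs0, hs0δ, hs1⟩ := cxp_quad_real
    (A := (l * (starRingEnd ℂ) r).im) (B := -(l.re + r.im)) hδ
  set l' : ℂ := l + s0 with hl'
  set r' : ℂ := r + Complex.I * s0 with hr'
  set a1 : Fin m → ℝ := a + s0 • y1 with ha1
  set b1 : Fin m → ℝ := b + s0 • y2 with hb1
  have hla : ∀ k, u k ⬝ᵥ cv a1 = l' * e k := by
    intro k
    rw [ha1, cv_add', cv_smul', dotProduct_add, dotProduct_smul, hl, hy1, smul_eq_mul, hl']; ring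
  have hrb : ∀ k, u k ⬝ᵥ cv b1 = r' * e k := by
    intro k
    rw [hb1, cv_add', cv_smul', dotProduct_add, dotProduct_smul, hr, hy2, smul_eq_mul, hr']; ring
  set κ : ℝ := (l' * (starRingEnd ℂ) r').im with hκ
  have hκ0 : κ ≠ 0 := by
    have : κ = (l * (starRingEnd ℂ) r).im + s0 * (-(l.re + r.im)) - s0 ^ 2 := by
      rw [hκ, hl', hr']
      simp [Complex.add_re, Complex.add_im, Complex.mul_im, Complex.mul_re]
      ring
    rw [this]; exact hs1
  have hda1 : dist a1 a < ε / 2 := by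
    rw [dist_eq_norm, ha1, add_sub_cancel_left, norm_smul, Real.norm_eq_abs, abs_of_pos hs0]
    refine lt_of_le_of_lt (mul_le_mul_of_nonneg_right hs0δ.le (norm_nonneg _)) hδ1
  have hdb1 : dist b1 b < ε / 2 := by
    rw [dist_eq_norm, hb1, add_sub_cancel_left, norm_smul, Real.norm_eq_abs, abs_of_pos hs0]
    refine lt_of_le_of_lt (mul_le_mul_of_nonneg_right hs0δ.le (norm_nonneg _)) hδ2
  -- step 2
  have step2 : ∀ w : Fin m → ℂ, (∀ k, u k ⬝ᵥ w = 0) →
      (u 0 ⬝ᵥ cxpBar w) * (h 1 ⬝ᵥ w) - (u 1 ⬝ᵥ cxpBar w) * (h 0 ⬝ᵥ w) = 0 := by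
    intro w hw
    set al : Fin m → ℝ := fun j => (l' * (starRingEnd ℂ) (w j)).im with hal
    set be : Fin m → ℝ := fun j => (r' * (starRingEnd ℂ) (w j)).im with hbe
    have hcal : (2 * Complex.I) • cv al = l' • cxpBar w - ((starRingEnd ℂ) l') • w := by
      funext j
      simp only [cv, hal, Pi.smul_apply, Pi.sub_apply, cxpBar, smul_eq_mul]
      rw [Complex.im_eq_sub_conj, map_mul, Complex.conj_conj]
      have : (2 * Complex.I) ≠ 0 := by simp
      field_simp
    have hcbe : (2 * Complex.I) • cv be = r' • cxpBar w - ((starRingEnd ℂ) r') • w := by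
      funext j
      simp only [cv, hbe, Pi.smul_apply, Pi.sub_apply, cxpBar, smul_eq_mul]
      rw [Complex.im_eq_sub_conj, map_mul, Complex.conj_conj]
      have : (2 * Complex.I) ≠ 0 := by simp
      field_simp
    have hua : ∀ k, (2 * Complex.I) * (u k ⬝ᵥ cv al) = l' * (u k ⬝ᵥ cxpBar w) := by
      intro k
      have := congrArg (fun z => u k ⬝ᵥ z) hcal
      simp only [dotProduct_smul, dotProduct_sub, smul_eq_mul, hw k] at this
      rw [this]; ring
    have hub : ∀ k, (2 * Complex.I) * (u k ⬝ᵥ cv be) = r' * (u k ⬝ᵥ cxpBar w) := by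
      intro k
      have := congrArg (fun z => u k ⬝ᵥ z) hcbe
      simp only [dotProduct_smul, dotProduct_sub, smul_eq_mul, hw k] at this
      rw [this]; ring
    have hha : ∀ k, (2 * Complex.I) * (h k ⬝ᵥ cv al) =
        l' * (h k ⬝ᵥ cxpBar w) - (starRingEnd ℂ) l' * (h k ⬝ᵥ w) := by
      intro k
      have := congrArg (fun z => h k ⬝ᵥ z) hcal
      simpa only [dotProduct_smul, dotProduct_sub, smul_eq_mul] using this
    have hhb : ∀ k, (2 * Complex.I) * (h k ⬝ᵥ cv be) =
        r' * (h k ⬝ᵥ cxpBar w) - (starRingEnd ℂ) r' * (h k ⬝ᵥ w) := by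
      intro k
      have := congrArg (fun z => h k ⬝ᵥ z) hcbe
      simpa only [dotProduct_smul, dotProduct_sub, smul_eq_mul] using this
    have h2I : (2 * Complex.I) ≠ 0 := by simp
    obtain ⟨δ', hδ', hδ1', hδ2'⟩ : ∃ δ : ℝ, 0 < δ ∧ δ * ‖al‖ < ε / 2 ∧ δ * ‖be‖ < ε / 2 := by
      refine ⟨ε / (2 * (‖al‖ + ‖be‖ + 1)), by positivity, ?_, ?_⟩
      · rw [div_mul_eq_mul_div, div_lt_div_iff₀ (by positivity) (by positivity)]
        nlinarith [norm_nonneg al, norm_nonneg be]
      · rw [div_mul_eq_mul_div, div_lt_div_iff₀ (by positivity) (by positivity)]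
        nlinarith [norm_nonneg al, norm_nonneg be]
    have hpoly : ∀ s : ℝ, 0 < s → s < δ' → dom u h (cv a1) (cv b1)
        + s * (dom u h (cv al) (cv b1) + dom u h (cv a1) (cv be))
        + s ^ 2 * dom u h (cv al) (cv be) = 0 := by
      intro s hs hsδ
      have hom : om u (cv (a1 + s • al)) (cv (b1 + s • be)) = 0 := by
        have e1 : ∀ k, (2 * Complex.I) * (u k ⬝ᵥ cv (a1 + s • al)) =
            l' * (2 * Complex.I * e k + s * (u k ⬝ᵥ cxpBar w)) := by
          intro k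
          rw [cv_add', cv_smul', dotProduct_add, dotProduct_smul, hla, smul_eq_mul]
          linear_combination (s : ℂ) * hua k
        have e2 : ∀ k, (2 * Complex.I) * (u k ⬝ᵥ cv (b1 + s • be)) =
            r' * (2 * Complex.I * e k + s * (u k ⬝ᵥ cxpBar w)) := by
          intro k
          rw [cv_add', cv_smul', dotProduct_add, dotProduct_smul, hrb, smul_eq_mul]
          linear_combination (s : ℂ) * hub k
        have e3 : (2 * Complex.I) ^ 2 * om u (cv (a1 + s • al)) (cv (b1 + s • be)) = 0 := by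
          have : (2 * Complex.I) ^ 2 * om u (cv (a1 + s • al)) (cv (b1 + s • be)) =
              ((2 * Complex.I) * (u 0 ⬝ᵥ cv (a1 + s • al))) *
                ((2 * Complex.I) * (u 1 ⬝ᵥ cv (b1 + s • be))) -
              ((2 * Complex.I) * (u 1 ⬝ᵥ cv (a1 + s • al))) *
                ((2 * Complex.I) * (u 0 ⬝ᵥ cv (b1 + s • be))) := by
            unfold om; ring
          rw [this, e1, e1, e2, e2]; ring
        exact (mul_eq_zero.1 e3).resolve_left (pow_ne_zero _ h2I)
      have hd := hno (a1 + s • al) (b1 + s • be) ?_ ?_ hom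
      · rw [← hd]
        unfold dom
        simp only [cv_add', cv_smul', dotProduct_add, dotProduct_smul, smul_eq_mul]
        ring
      · calc dist (a1 + s • al) a ≤ dist (a1 + s • al) a1 + dist a1 a := dist_triangle _ _ _
          _ < ε / 2 + ε / 2 := by
              refine add_lt_add ?_ hda1
              rw [dist_eq_norm, add_sub_cancel_left, norm_smul, Real.norm_eq_abs, abs_of_pos hs]
              exact lt_of_le_of_lt (mul_le_mul_of_nonneg_right hsδ.le (norm_nonneg _)) hδ1'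
          _ = ε := by ring
      · calc dist (b1 + s • be) b ≤ dist (b1 + s • be) b1 + dist b1 b := dist_triangle _ _ _
          _ < ε / 2 + ε / 2 := by
              refine add_lt_add ?_ hdb1
              rw [dist_eq_norm, add_sub_cancel_left, norm_smul, Real.norm_eq_abs, abs_of_pos hs]
              exact lt_of_le_of_lt (mul_le_mul_of_nonneg_right hsδ.le (norm_nonneg _)) hδ2'
          _ = ε := by ring
    have hC := cxp_quad hδ' hpoly
    -- evaluate the leading coefficient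
    have hval : (2 * Complex.I) ^ 2 * dom u h (cv al) (cv be) =
        (r' * (starRingEnd ℂ) l' - l' * (starRingEnd ℂ) r') *
        ((u 0 ⬝ᵥ cxpBar w) * (h 1 ⬝ᵥ w) - (u 1 ⬝ᵥ cxpBar w) * (h 0 ⬝ᵥ w)) := by
      have : (2 * Complex.I) ^ 2 * dom u h (cv al) (cv be) =
          ((2 * Complex.I) * (u 0 ⬝ᵥ cv al)) * ((2 * Complex.I) * (h 1 ⬝ᵥ cv be))
          + ((2 * Complex.I) * (h 0 ⬝ᵥ cv al)) * ((2 * Complex.I) * (u 1 ⬝ᵥ cv be))
          - ((2 * Complex.I) * (u 1 ⬝ᵥ cv al)) * ((2 * Complex.I) * (h 0 ⬝ᵥ cv be))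
          - ((2 * Complex.I) * (h 1 ⬝ᵥ cv al)) * ((2 * Complex.I) * (u 0 ⬝ᵥ cv be)) := by
        unfold dom; ring
      rw [this, hua, hua, hub, hub, hha, hha, hhb, hhb]; ring
    rw [hC, mul_zero] at hval
    have hne : (r' * (starRingEnd ℂ) l' - l' * (starRingEnd ℂ) r') ≠ 0 := by
      intro h0
      have h1 := congrArg Complex.im h0
      rw [Complex.sub_im, Complex.zero_im] at h1
      have h2 : (r' * (starRingEnd ℂ) l').im = -κ := by
        rw [hκ]; simp [Complex.mul_im]; ring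
      rw [h2, ← hκ] at h1
      apply hκ0; linarith
    exact (mul_eq_zero.1 hval.symm).resolve_left hne
  -- step 3: polarisation
  have step3 : ∀ w w' : Fin m → ℂ, (∀ k, u k ⬝ᵥ w = 0) → (∀ k, u k ⬝ᵥ w' = 0) →
      (u 0 ⬝ᵥ cxpBar w) * (h 1 ⬝ᵥ w') - (u 1 ⬝ᵥ cxpBar w) * (h 0 ⬝ᵥ w') = 0 := by
    intro w w' hw hw'
    have p0 := step2 w hw
    have p1 := step2 w' hw'
    have p2 := step2 (w + w') (fun k => by rw [dotProduct_add, hw, hw', add_zero])
    have p3 := step2 (w + Complex.I • w')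
      (fun k => by rw [dotProduct_add, dotProduct_smul, hw, hw', smul_zero, add_zero])
    have b2 : cxpBar (w + w') = cxpBar w + cxpBar w' := by funext j; simp [cxpBar]
    have b3 : cxpBar (w + Complex.I • w') = cxpBar w - Complex.I • cxpBar w' := by
      funext j; simp [cxpBar]; ring
    rw [b2] at p2
    rw [b3] at p3
    simp only [dotProduct_add, dotProduct_sub, dotProduct_smul, smul_eq_mul] at p2 p3
    have hI := Complex.I_sq
    have q3 : Complex.I * ((u 0 ⬝ᵥ cxpBar w) * (h 1 ⬝ᵥ w') - (u 1 ⬝ᵥ cxpBar w) * (h 0 ⬝ᵥ w'))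
        - Complex.I * ((u 0 ⬝ᵥ cxpBar w') * (h 1 ⬝ᵥ w) - (u 1 ⬝ᵥ cxpBar w') * (h 0 ⬝ᵥ w)) = 0 := by
      linear_combination p3 - p0 - p1 + ((u 0 ⬝ᵥ cxpBar w') * (h 1 ⬝ᵥ w')
        - (u 1 ⬝ᵥ cxpBar w') * (h 0 ⬝ᵥ w')) * hI
    have q2 : ((u 0 ⬝ᵥ cxpBar w) * (h 1 ⬝ᵥ w') - (u 1 ⬝ᵥ cxpBar w) * (h 0 ⬝ᵥ w'))
        + ((u 0 ⬝ᵥ cxpBar w') * (h 1 ⬝ᵥ w) - (u 1 ⬝ᵥ cxpBar w') * (h 0 ⬝ᵥ w)) = 0 := by
      linear_combination p2 - p0 - p1
    have q4 : (2 * Complex.I) *
        ((u 0 ⬝ᵥ cxpBar w) * (h 1 ⬝ᵥ w') - (u 1 ⬝ᵥ cxpBar w) * (h 0 ⬝ᵥ w')) = 0 := by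
      linear_combination q3 + Complex.I * q2
    exact (mul_eq_zero.1 q4).resolve_left (by simp)
  refine cxp_act hT fun w' hw' => ?_
  obtain ⟨w0, hw0, hw0'⟩ := cxp_V hT ![1, 0]
  obtain ⟨w1, hw1, hw1'⟩ := cxp_V hT ![0, 1]
  have t0 := step3 w0 w' hw0 hw'
  have t1 := step3 w1 w' hw1 hw'
  rw [hw0' 0, hw0' 1] at t0
  rw [hw1' 0, hw1' 1] at t1
  intro k
  fin_cases k
  · have h0 : h 0 ⬝ᵥ w' = 0 := by simpa using t1
    exact h0
  · have h1 : h 1 ⬝ᵥ w' = 0 := by simpa using t0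
    exact h1

/-- the functional `h ↦ dom u h x y` -/
def cxpL {m : ℕ} (u : Fin 2 → Fin m → ℂ) (x y : Fin m → ℂ) :
    (Fin 2 → Fin m → ℂ) →ₗ[ℂ] ℂ where
  toFun h := dom u h x y
  map_add' h h' := by
    unfold dom; simp only [Pi.add_apply, add_dotProduct]; ring
  map_smul' r h := by
    unfold dom; simp only [Pi.smul_apply, smul_dotProduct, smul_eq_mul, RingHom.id_apply]; ring

/-- the solutions of the first `k` linear equations -/
def cxpW {n : ℕ} (u : Fin 2 → Fin (n + 2) → ℂ) (c : Cf n) (k : ℕ) :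
    Submodule ℂ (Fin 2 → Fin (n + 2) → ℂ) where
  carrier := {h | ∀ i < k, dom u h (cv (ex c (2 * i))) (cv (ex c (2 * i + 1))) = 0}
  add_mem' := by
    intro a b ha hb i hi
    have := (cxpL u (cv (ex c (2 * i))) (cv (ex c (2 * i + 1)))).map_add a b
    simp only [cxpL, LinearMap.coe_mk, AddHom.coe_mk] at this
    rw [this, ha i hi, hb i hi, add_zero]
  zero_mem' := by
    intro i _
    exact (cxpL u (cv (ex c (2 * i))) (cv (ex c (2 * i + 1)))).map_zero
  smul_mem' := by
    intro r a ha i hi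
    have := (cxpL u (cv (ex c (2 * i))) (cv (ex c (2 * i + 1)))).map_smul r a
    simp only [cxpL, LinearMap.coe_mk, AddHom.coe_mk] at this
    rw [this, ha i hi, smul_zero]

/-- `g ↦ act g u` -/
def cxpA {m : ℕ} (u : Fin 2 → Fin m → ℂ) :
    Matrix (Fin 2) (Fin 2) ℂ →ₗ[ℂ] (Fin 2 → Fin m → ℂ) where
  toFun g := act g u
  map_add' g g' := by
    funext k j; simp [act]; ring
  map_smul' r g := by
    funext k j; simp [act]; ring

theorem cxp {n : ℕ} {c : Cf n} {u : Fin 2 → Fin (n + 2) → ℂ} (hs : SolC n (ex c) u)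
    (hli : LinearIndependent ℂ ![u 0, u 1, fun j => (starRingEnd ℂ) (u 0 j),
      fun j => (starRingEnd ℂ) (u 1 j)]) {ε : ℝ} (hε : 0 < ε) :
    ∃ c' : Cf n, dist c' c < ε ∧ SolC n (ex c') u ∧ NDC n (ex c') u := by
  classical
  have hT := cxp_surj hli
  have main : ∀ k ≤ 2 * n, ∀ ε : ℝ, 0 < ε → ∃ c' : Cf n, dist c' c < ε ∧ SolC n (ex c') u ∧
      (cxpW u c' k ≤ LinearMap.range (cxpA u) ∨
        Module.finrank ℂ (cxpW u c' k) + k ≤ 2 * n + 4) := by
    intro k
    induction k with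
    | zero =>
      intro _ ε hε
      refine ⟨c, by simpa using hε, hs, Or.inr ?_⟩
      have := Submodule.finrank_le (cxpW u c 0)
      have h2 : Module.finrank ℂ (Fin 2 → Fin (n + 2) → ℂ) = 2 * n + 4 := by
        rw [Module.finrank_pi_fintype]
        simp only [Module.finrank_fin_fun, Finset.sum_const, Finset.card_univ, Fintype.card_fin,
          smul_eq_mul]
        ring
      omega
    | succ k ih =>
      intro hk ε hε
      obtain ⟨c1, hd1, hs1, hc1⟩ := ih (by omega) (ε / 2) (by linarith)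
      by_cases hA : cxpW u c1 k ≤ LinearMap.range (cxpA u)
      · refine ⟨c1, by linarith, hs1, Or.inl (le_trans ?_ hA)⟩
        intro h hh i hi
        exact hh i (by omega)
      have hc1' := hc1.resolve_left hA
      obtain ⟨h, hhW, hhA⟩ := Set.not_subset.1 hA
      have hk2 : 2 * k + 1 < 4 * n := by omega
      have hsk := hs1 k (by omega)
      obtain ⟨a', b', hda, hdb, hom, hdom⟩ : ∃ a' b' : Fin (n + 2) → ℝ,
          dist a' (ex c1 (2 * k)) < ε / 2 ∧ dist b' (ex c1 (2 * k + 1)) < ε / 2 ∧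
          om u (cv a') (cv b') = 0 ∧ dom u h (cv a') (cv b') ≠ 0 := by
        by_contra hc
        push Not at hc
        obtain ⟨g, hg⟩ := cxp_key (h := h) hT hsk (half_pos hε) hc
        exact hhA ⟨g, hg.symm⟩
      set c2 : Cf n := fun j => if (j : ℕ) = 2 * k then a' else if (j : ℕ) = 2 * k + 1 then b'
        else c1 j with hc2
      have e0 : ex c2 (2 * k) = a' := by
        simp only [ex, hc2]; rw [dif_pos (by omega)]; simp
      have e1 : ex c2 (2 * k + 1) = b' := by
        simp only [ex, hc2]; rw [dif_pos (by omega)]; simp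
      have e2 : ∀ j, j ≠ 2 * k → j ≠ 2 * k + 1 → ex c2 j = ex c1 j := by
        intro j h1 h2
        simp only [ex, hc2]
        split_ifs with h3
        · rfl
        · rfl
      have hlt : cxpW u c2 (k + 1) < cxpW u c1 k := by
        refine lt_of_le_of_ne ?_ ?_
        · intro f hf i hi
          have := hf i (by omega)
          rwa [e2 _ (by omega) (by omega), e2 _ (by omega) (by omega)] at this
        · intro heq
          have : h ∈ cxpW u c2 (k + 1) := by rw [heq]; exact hhW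
          have := this k (by omega)
          rw [e0, e1] at this
          exact hdom this
      refine ⟨c2, ?_, ?_, Or.inr ?_⟩
      · calc dist c2 c ≤ dist c2 c1 + dist c1 c := dist_triangle _ _ _
          _ < ε / 2 + ε / 2 := by
            refine add_lt_add ?_ hd1
            rw [dist_pi_lt_iff (half_pos hε)]
            intro j
            simp only [hc2]
            have hex : ∀ j : Fin (4 * n), ex c1 (j : ℕ) = c1 j := by
              intro j; simp [ex]
            split_ifs with h1 h2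
            · rw [← h1, hex] at hda; exact hda
            · rw [← h2, hex] at hdb; exact hdb
            · rw [dist_self]; linarith
          _ = ε := by ring
      · intro i hi
        by_cases hik : i = k
        · subst hik
          rw [e0, e1]; exact hom
        · rw [e2 _ (by omega) (by omega), e2 _ (by omega) (by omega)]
          exact hs1 i hi
      · have := Submodule.finrank_lt_finrank_of_lt hlt
        omega
  obtain ⟨c', hd, hs', hc'⟩ := main (2 * n) le_rfl ε hε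
  refine ⟨c', hd, hs', ?_⟩
  have hfin : cxpW u c' (2 * n) ≤ LinearMap.range (cxpA u) := by
    rcases hc' with h | h
    · exact h
    · have hinj : Function.Injective (cxpA u) := by
        rw [← LinearMap.ker_eq_bot, LinearMap.ker_eq_bot']
        intro g hg
        obtain ⟨z0, h0⟩ := hT ![1, 0]
        obtain ⟨z1, h1⟩ := hT ![0, 1]
        ext k j
        have hk := congrFun hg k
        have f0 := congrArg (fun z => z ⬝ᵥ cv z0) hk
        have f1 := congrArg (fun z => z ⬝ᵥ cv z1) hk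
        simp only [cxpA, LinearMap.coe_mk, AddHom.coe_mk, act, add_dotProduct, smul_dotProduct,
          h0, h1, Pi.zero_apply, zero_dotProduct] at f0 f1
        fin_cases j
        · simpa using f0
        · simpa using f1
      have hfr : Module.finrank ℂ (LinearMap.range (cxpA u)) = 4 := by
        rw [LinearMap.finrank_range_of_inj hinj, Module.finrank_matrix]
        simp
      have hle : LinearMap.range (cxpA u) ≤ cxpW u c' (2 * n) := by
        rintro _ ⟨g, rfl⟩ i hi
        have := hs' i hi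
        have e : dom u (act g u) (cv (ex c' (2 * i))) (cv (ex c' (2 * i + 1))) =
            (g 0 0 + g 1 1) * om u (cv (ex c' (2 * i))) (cv (ex c' (2 * i + 1))) := by
          unfold dom om act
          simp only [add_dotProduct, smul_dotProduct, smul_eq_mul]
          ring
        show dom u (act g u) _ _ = 0
        rw [e, this, mul_zero]
      have := Submodule.eq_of_le_of_finrank_le hle (by omega)
      rw [this]
  intro h hh
  obtain ⟨g, hg⟩ := hfin (show h ∈ cxpW u c' (2 * n) from hh)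
  exact ⟨g, hg.symm⟩

end Pool.Agent.TR
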