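import Pool.Agent.Helper65.TR.Defs

/-!
# TRL GEN : generic pairs of functionals

PROOF. Each set `{u | om u x y ≠ 0}` is open and dense (on the line `u + s (u0 - u)` with
`om u0 x y ≠ 0` the value is a polynomial in `s` of degree `≤ 2` which is nonzero at `s = 1`, so it
has at most two zeros); a finite intersection of open dense sets is dense.
-/

set_option autoImplicit false

open Matrix

namespace Pool.Agent.TR

private theorem gen_cont {m : ℕ} (u v : Fin 2 → Fin m → ℝ) (x y : Fin m → ℝ) :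
    Continuous (fun s : ℝ => om (fun k j => u k j + s * v k j) x y) := by
  unfold om dotProduct
  fun_prop

private theorem gen_quad {m : ℕ} (u v : Fin 2 → Fin m → ℝ) (x y : Fin m → ℝ) :
    ∃ a b c : ℝ, ∀ s : ℝ, om (fun k j => u k j + s * v k j) x y = a + b * s + c * s ^ 2 := by
  have h : ∀ (s : ℝ) (k : Fin 2) (z : Fin m → ℝ), (fun j => u k j + s * v k j) ⬝ᵥ z =
      (u k ⬝ᵥ z) + s * (v k ⬝ᵥ z) := by
    intro s k z
    simp only [dotProduct, Finset.mul_sum, ← Finset.sum_add_distrib]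
    refine Finset.sum_congr rfl fun j _ => ?_
    ring
  refine ⟨(u 0 ⬝ᵥ x) * (u 1 ⬝ᵥ y) - (u 1 ⬝ᵥ x) * (u 0 ⬝ᵥ y),
    (u 0 ⬝ᵥ x) * (v 1 ⬝ᵥ y) + (v 0 ⬝ᵥ x) * (u 1 ⬝ᵥ y)
      - (u 1 ⬝ᵥ x) * (v 0 ⬝ᵥ y) - (v 1 ⬝ᵥ x) * (u 0 ⬝ᵥ y),
    (v 0 ⬝ᵥ x) * (v 1 ⬝ᵥ y) - (v 1 ⬝ᵥ x) * (v 0 ⬝ᵥ y), fun s => ?_⟩
  unfold om
  rw [h, h, h, h]
  ring

theorem gen_u {m : ℕ} (L : List ((Fin m → ℝ) × (Fin m → ℝ)))
    (hL : ∀ p ∈ L, ∃ u : Fin 2 → Fin m → ℝ, om u p.1 p.2 ≠ 0) (u : Fin 2 → Fin m → ℝ) {ε : ℝ}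
    (hε : 0 < ε) :
    ∃ u' : Fin 2 → Fin m → ℝ, (∀ k j, |u' k j - u k j| < ε) ∧ ∀ p ∈ L, om u' p.1 p.2 ≠ 0 := by
  induction L generalizing ε with
  | nil => exact ⟨u, fun k j => by simpa using hε, fun p hp => by simp at hp⟩
  | cons p L ih =>
    obtain ⟨u1, h1, h2⟩ := ih (fun q hq => hL q (List.mem_cons_of_mem _ hq)) (half_pos hε)
    obtain ⟨u0, h0⟩ := hL p List.mem_cons_self
    set v : Fin 2 → Fin m → ℝ := fun k j => u0 k j - u1 k j with hv
    have e0 : (fun (k : Fin 2) (j : Fin m) => u1 k j + 0 * v k j) = u1 := by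
      funext k j
      ring
    have e1 : (fun (k : Fin 2) (j : Fin m) => u1 k j + 1 * v k j) = u0 := by
      funext k j
      simp only [hv]
      ring
    have ev1 : ∀ᶠ s : ℝ in nhds 0, ∀ q ∈ {q | q ∈ L},
        om (fun k j => u1 k j + s * v k j) q.1 q.2 ≠ 0 := by
      rw [Filter.eventually_all_finite L.finite_toSet]
      intro q hq
      have hc := (gen_cont u1 v q.1 q.2).continuousAt (x := (0 : ℝ))
      apply hc.eventually_ne
      rw [e0]
      exact h2 q hq
    have ev2 : ∀ᶠ s : ℝ in nhds 0, ∀ k : Fin 2, ∀ j : Fin m, |s * v k j| < ε / 2 := by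
      rw [Filter.eventually_all]
      intro k
      rw [Filter.eventually_all]
      intro j
      have hc : Continuous (fun s : ℝ => |s * v k j|) := by fun_prop
      have := hc.continuousAt (x := (0 : ℝ))
      apply this.eventually_lt_const
      simpa using half_pos hε
    obtain ⟨δ, hδ, hball⟩ := Metric.eventually_nhds_iff.mp (ev1.and ev2)
    have hex : ∃ s : ℝ, |s| < δ ∧ om (fun k j => u1 k j + s * v k j) p.1 p.2 ≠ 0 := by
      obtain ⟨a, b, c, habc⟩ := gen_quad u1 v p.1 p.2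
      by_contra hcon
      push Not at hcon
      have k1 := hcon (δ / 4) (by rw [abs_of_pos (by linarith)]; linarith)
      have k2 := hcon (δ / 2) (by rw [abs_of_pos (by linarith)]; linarith)
      have k3 := hcon (3 * δ / 4) (by rw [abs_of_pos (by linarith)]; linarith)
      rw [habc] at k1 k2 k3
      have hc0 : c = 0 := by
        have : c * δ ^ 2 = 0 := by linear_combination 8 * k1 - 16 * k2 + 8 * k3
        rcases mul_eq_zero.mp this with h | h
        · exact h
        · exact absurd h (pow_pos hδ 2).ne'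
      subst hc0
      have hb0 : b = 0 := by
        have : b * δ = 0 := by linear_combination (-4) * k1 + 4 * k2
        rcases mul_eq_zero.mp this with h | h
        · exact h
        · exact absurd h hδ.ne'
      subst hb0
      apply h0
      rw [← e1, habc]
      linear_combination k1
    obtain ⟨s, hs, hs'⟩ := hex
    obtain ⟨hb1, hb2⟩ := hball (y := s) (by rwa [Real.dist_0_eq_abs])
    refine ⟨fun k j => u1 k j + s * v k j, fun k j => ?_, fun q hq => ?_⟩
    · have h3 := h1 k j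
      have h4 := hb2 k j
      have h5 : u1 k j + s * v k j - u k j = (u1 k j - u k j) + s * v k j := by ring
      rw [h5]
      refine (abs_add_le _ _).trans_lt ?_
      linarith
    · rcases List.mem_cons.mp hq with rfl | hq
      · exact hs'
      · exact hb1 q hq

end Pool.Agent.TR
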