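import Pool.Agent.Helper65.TR.STG
import Pool.Agent.Helper65.TR.GEN
import Pool.Agent.Helper65.TR.CLB

/-!
# TRL GCL : Grassmann convexity for `k = 2`

PROOF. Induction on `m ≥ 2`.  `m = 2` : `om u x y = det(u) det(x, y)`, so all gaps have the same
sign (or are `0`) and there is no sign change (`2 m - 3 = 1`).

Step `m → m + 1` (`m ≥ 2`, `GCP m` known; goal `¬ Alt (gap u A) (M - 1) (2 m - 1)`).  If
`M < m + 1` then `Alt` needs `2 m ≤ M - 1` indices: impossible.  Let `M ≥ m + 1`.  By `alt_open` and
`gen_u` we may assume that `u` is generic: `om u (stg k j) (stg k (j+1)) ≠ 0` for all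
`k + m < M`, `j + 1 < M` (`stage_indep`).  Let `D^k_j = gap u (stg k) j`.
Claim: `¬ Alt D^k (M - 1) (2 m - 1)` for `0 ≤ k`, `k + m < M`; for `k = M - m - 1` this is the goal.
`k = 0` : `stg 0 = (A 0, prm 1, ..., prm (M-1))` is in `TPc` (`stage_closed` with `k = 1`,
`t = rr 1`, or `A` itself if `M = m + 1`).  Let `lastd x = f · x` and
`ū_k = u_k - (u_k · A 0 / lastd (A 0)) f`; it kills `A 0` and agrees with `u` on all `prm j`,
`1 ≤ j < M` (`lastd_prm`).  `drop0_closed` gives no `2 m - 3` sign changes among
`D^0_1, ..., D^0_(M-2)`, so by `alt_tail` no `2 m - 2` among `D^0_0, ..., D^0_(M-2)`.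
Step `k - 1 → k` : `stg k` and `stg (k-1)` differ only in the column `k` :
`A k = prm k + rr k A (k-1)`.  So `D^k_j = D^(k-1)_j` for `j ≠ k` (for `j = k - 1` because
`om u (A (k-1)) (A (k-1)) = 0`), and `D^k_k = D^(k-1)_k + rr k e`, `e = om u (A (k-1)) (stg k (k+1))`.
If both have the same sign nothing changes (`alt_scale`).  Otherwise there is `s ∈ (0, rr k)` with
`om u (x_s) (y) = 0`, `x_s = prm k + s A (k-1)`, `y = stg k (k+1)`, and `e ≠ 0` has the sign of
`D^k_k`.  `u(y) ≠ 0` (as `D^k_k ≠ 0`), so `u(x_s) = κ u(y)`, and `D_(k-1) = om u (A (k-1)) (x_s)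
= κ e`, `κ ≠ 0` as `D_(k-1) ≠ 0`.
`κ > 0` : `D^k_k` has the sign of `D_(k-1)`; `alt_cut` (from `D^(k-1)` to `D^k`).
`κ < 0` : `v = x_s + |κ| y` is killed by `u`; the family `update (stg k) k x_s` is in `TPc`
(`stage_closed` with `t = rr k - s`) and `v ≠ 0` (`v = 0` would
give `x_s = -|κ| y`, `prm k = -|κ| y - s A (k-1)`; then apply the functional `lastd`:
`lastd (prm k) = 0 = lastd y` (if `y = prm (k+1)`), so `s lastd (A (k-1)) = 0`, impossible).
`merge_closed` (`α = 1`, `β = |κ|`, `i = k`): no `2 m - 3` sign changes among the gaps other than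
number `k`; these are the `D^k_j`, `j ≠ k` up to the family: all gaps except number `k` agree with
those of `stg k`.  By `alt_drop` no `2 m - 1` sign changes in `D^k`.
-/

set_option autoImplicit false

open Matrix

namespace Pool.Agent.TR

/-! ### the form `om` -/

private theorem gcl_om_sub_smul_right {m : ℕ} (u : Fin 2 → Fin m → ℝ) (x y z : Fin m → ℝ) (c : ℝ) :
    om u x (y - c • z) = om u x y - c * om u x z := by
  simp only [om, dotProduct_sub, dotProduct_smul, smul_eq_mul]
  ring

private theorem gcl_om_add_smul_right {m : ℕ} (u : Fin 2 → Fin m → ℝ) (x y z : Fin m → ℝ) (c : ℝ) :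
    om u x (y + c • z) = om u x y + c * om u x z := by
  simp only [om, dotProduct_add, dotProduct_smul, smul_eq_mul]
  ring

private theorem gcl_om_add_smul_left {m : ℕ} (u : Fin 2 → Fin m → ℝ) (x y z : Fin m → ℝ) (c : ℝ) :
    om u (x + c • z) y = om u x y + c * om u z y := by
  simp only [om, dotProduct_add, dotProduct_smul, smul_eq_mul]
  ring

private theorem gcl_om_self {m : ℕ} (u : Fin 2 → Fin m → ℝ) (x : Fin m → ℝ) : om u x x = 0 := by
  simp only [om]
  ring

/-! ### the base case -/

private theorem gcl_base : GCP 2 := by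
  intro M A hA u hAlt
  obtain ⟨s, h1, h2, h3⟩ := hAlt
  have h01 := h1 0 (by norm_num)
  have hs0 := h2 0 (by norm_num)
  have hs1 := h2 1 (by norm_num)
  have hD := h3 0 (by norm_num)
  have hdet : ∀ j, j + 1 < M → 0 < A j 0 * A (j + 1) 1 - A j 1 * A (j + 1) 0 := by
    intro j hj
    have h := hA ![j, j + 1] (by
      intro a b hab
      fin_cases a <;> fin_cases b <;> simp_all) (by
      intro i
      fin_cases i
      · show j < M; omega
      · exact hj)
    unfold dt at h
    rw [Matrix.det_fin_two] at h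
    simpa using h
  have hom : ∀ j, gap u A j =
      (u 0 0 * u 1 1 - u 0 1 * u 1 0) * (A j 0 * A (j + 1) 1 - A j 1 * A (j + 1) 0) := by
    intro j
    simp only [gap, om, dotProduct, Fin.sum_univ_two]
    ring
  rw [hom, hom] at hD
  have ha := hdet (s 0) (by omega)
  have hb := hdet (s (0 + 1)) (by simp only [zero_add]; omega)
  have hc := mul_pos ha hb
  have hd := mul_self_nonneg (u 0 0 * u 1 1 - u 0 1 * u 1 0)
  have he := mul_nonneg hd hc.le
  nlinarith

/-! ### genericity -/

private theorem gcl_generic {m M : ℕ} (A : ℕ → Fin m → ℝ) (L : List ((Fin m → ℝ) × (Fin m → ℝ)))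
    (hL : ∀ p ∈ L, ∃ u : Fin 2 → Fin m → ℝ, om u p.1 p.2 ≠ 0) (u : Fin 2 → Fin m → ℝ) {r : ℕ}
    (h : Alt (gap u A) (M - 1) r) :
    ∃ u' : Fin 2 → Fin m → ℝ, (∀ p ∈ L, om u' p.1 p.2 ≠ 0) ∧ Alt (gap u' A) (M - 1) r := by
  obtain ⟨ε, hε, hop⟩ := alt_open h
  have hcont : Continuous (fun w : Fin 2 → Fin m → ℝ =>
      (fun j : Fin (M - 1) => gap w A j : Fin (M - 1) → ℝ)) := by
    apply continuous_pi
    intro j
    simp only [gap, om, dotProduct]
    fun_prop
  obtain ⟨δ, hδ, hball⟩ := Metric.continuous_iff.mp hcont u ε hε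
  obtain ⟨u', hu', hgen⟩ := gen_u L hL u hδ
  refine ⟨u', hgen, hop _ fun j hj => ?_⟩
  have hd : dist u' u < δ := by
    rw [dist_pi_lt_iff hδ]
    intro k
    rw [dist_pi_lt_iff hδ]
    intro j
    rw [Real.dist_eq]
    exact hu' k j
  have h1 := hball u' hd
  rw [dist_pi_lt_iff hε] at h1
  have h2 := h1 ⟨j, hj⟩
  rw [Real.dist_eq] at h2
  exact h2

/-! ### stages -/

private theorem gcl_stg_ne {m M k j : ℕ} {A : ℕ → Fin (m + 1) → ℝ} (hj : j ≠ k + 1) :
    stg m M A (k + 1) j = stg m M A k j := by
  unfold stg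
  by_cases h : j ≤ k
  · rw [if_pos h, if_pos (by omega)]
  · rw [if_neg h, if_neg (by omega)]

private theorem gcl_zero {m M : ℕ} (hm : 2 ≤ m) (hM : m + 1 ≤ M) (hG : GCP m)
    {A : ℕ → Fin (m + 1) → ℝ} (hA : TPos (m + 1) M A) (u : Fin 2 → Fin (m + 1) → ℝ) :
    ¬ Alt (gap u (stg m M A 0)) (M - 1) (2 * m - 1) := by
  intro hAlt
  have hpos0 : 0 < lastd m M A (A 0) := lastd_pos hA (by omega)
  have hTP : TPc (m + 1) M (stg m M A 0) := by
    by_cases hM' : 1 + m < M
    · have h := stage_closed (m := m) (M := M) (k := 1) (A := A) (by omega) hM hA le_rfl hM'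
        (t := rr m M A 1) (rr_pos hA le_rfl hM').le le_rfl
      refine tpc_congr ?_ h
      intro j _
      by_cases hj : j = 1
      · subst hj
        rw [Function.update_self]
        unfold stg prm
        rw [if_neg (by norm_num), if_pos ⟨le_rfl, hM'⟩]
      · rw [Function.update_of_ne hj]
        exact gcl_stg_ne (k := 0) hj
    · refine tpc_congr ?_ (tpc_of_tpos hA)
      intro j _
      unfold stg prm
      by_cases hj : j ≤ 0
      · rw [if_pos hj]
      · rw [if_neg hj, if_neg (by omega)]
  obtain ⟨f, hf⟩ := lastd_dot m M A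
  have hstg0 : stg m M A 0 0 = A 0 := by
    unfold stg
    rw [if_pos le_rfl]
  have hne : stg m M A 0 0 ≠ 0 := by
    rw [hstg0]
    intro h
    rw [h, hf, dotProduct_zero] at hpos0
    exact lt_irrefl _ hpos0
  set w : Fin 2 → Fin (m + 1) → ℝ := fun k => u k - ((u k ⬝ᵥ A 0) / lastd m M A (A 0)) • f with hw
  have hkill : ∀ k, w k ⬝ᵥ stg m M A 0 0 = 0 := by
    intro k
    rw [hstg0, hw]
    simp only [sub_dotProduct, smul_dotProduct, smul_eq_mul]
    rw [← hf, div_mul_cancel₀ _ hpos0.ne', sub_self]
  have hprm : ∀ j, 1 ≤ j → j < M → ∀ k, w k ⬝ᵥ stg m M A 0 j = u k ⬝ᵥ stg m M A 0 j := by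
    intro j hj1 hjM k
    have h0 : f ⬝ᵥ stg m M A 0 j = 0 := by
      rw [← hf]
      unfold stg
      rw [if_neg (by omega)]
      exact lastd_prm hM hA hj1 hjM
    rw [hw]
    simp only [sub_dotProduct, smul_dotProduct, smul_eq_mul]
    rw [h0, mul_zero, sub_zero]
  have hdrop := drop0_closed hm hM hG hTP hne w hkill
  apply hdrop
  have h1 : Alt (gap u (stg m M A 0)) (M - 2 + 1) (2 * m - 3 + 1) := by
    have e1 : M - 2 + 1 = M - 1 := by omega
    rw [e1]
    exact alt_mono (by omega) hAlt
  refine alt_congr ?_ (alt_tail h1)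
  intro j hj
  show om w (stg m M A 0 (j + 1)) (stg m M A 0 (j + 1 + 1)) =
    om u (stg m M A 0 (j + 1)) (stg m M A 0 (j + 1 + 1))
  unfold om
  rw [hprm (j + 1) (by omega) (by omega), hprm (j + 1) (by omega) (by omega),
    hprm (j + 1 + 1) (by omega) (by omega), hprm (j + 1 + 1) (by omega) (by omega)]

private theorem gcl_step {m M k : ℕ} (hm : 2 ≤ m) (hM : m + 1 ≤ M) (hG : GCP m)
    {A : ℕ → Fin (m + 1) → ℝ} (hA : TPos (m + 1) M A) (u : Fin 2 → Fin (m + 1) → ℝ)
    (hgen : ∀ k j, k + m < M → j + 1 < M → gap u (stg m M A k) j ≠ 0)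
    (hk : k + 1 + m < M) (hprev : ¬ Alt (gap u (stg m M A k)) (M - 1) (2 * m - 1)) :
    ¬ Alt (gap u (stg m M A (k + 1))) (M - 1) (2 * m - 1) := by
  intro hAlt
  have hrpos : 0 < rr m M A (k + 1) := rr_pos hA (by omega) hk
  set r := rr m M A (k + 1) with hr
  set D := gap u (stg m M A k) with hD
  set D' := gap u (stg m M A (k + 1)) with hD'
  -- the columns
  have c1 : stg m M A (k + 1) k = A k := by
    unfold stg; rw [if_pos (by omega)]
  have c2 : stg m M A k k = A k := by
    unfold stg; rw [if_pos le_rfl]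
  have c3 : stg m M A (k + 1) (k + 1) = A (k + 1) := by
    unfold stg; rw [if_pos le_rfl]
  have c4 : stg m M A k (k + 1) = A (k + 1) - r • A k := by
    unfold stg prm
    rw [if_neg (by omega), if_pos ⟨by omega, hk⟩, hr]
    rfl
  have c4' : stg m M A k (k + 1) = prm m M A (k + 1) := by
    unfold stg
    rw [if_neg (by omega)]
  have c5 : stg m M A (k + 1) (k + 2) = prm m M A (k + 2) := by
    unfold stg; rw [if_neg (by omega)]
  set y := stg m M A (k + 1) (k + 2) with hy
  have c6 : stg m M A k (k + 2) = y := by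
    rw [hy]; exact (gcl_stg_ne (by omega)).symm
  set e := om u (A k) y with he
  have hDk : D k = D' k := by
    show om u (stg m M A k k) (stg m M A k (k + 1)) =
      om u (stg m M A (k + 1) k) (stg m M A (k + 1) (k + 1))
    rw [c1, c2, c3, c4, gcl_om_sub_smul_right, gcl_om_self]
    ring
  have hDne : ∀ j, j ≠ k + 1 → D' j = D j := by
    intro j hj
    by_cases hjk : j = k
    · rw [hjk]; exact hDk.symm
    · show om u (stg m M A (k + 1) j) (stg m M A (k + 1) (j + 1)) =
        om u (stg m M A k j) (stg m M A k (j + 1))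
      rw [gcl_stg_ne hj, gcl_stg_ne (by omega)]
  have hDk1 : D' (k + 1) = D (k + 1) + r * e := by
    show om u (stg m M A (k + 1) (k + 1)) (stg m M A (k + 1) (k + 2)) =
      om u (stg m M A k (k + 1)) (stg m M A k (k + 2)) + r * e
    rw [c3, c6, ← hy, ← gcl_om_add_smul_left, c4]
    congr 1
    abel
  have hne1 : D' (k + 1) ≠ 0 := hgen (k + 1) (k + 1) hk (by omega)
  have hne2 : D (k + 1) ≠ 0 := hgen k (k + 1) (by omega) (by omega)
  have hne3 : D k ≠ 0 := hgen k k (by omega) (by omega)
  rcases lt_or_gt_of_ne (mul_ne_zero hne1 hne2) with hneg | hpos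
  · -- opposite signs
    have hdiff : D' (k + 1) - D (k + 1) ≠ 0 := by
      intro h
      have : D' (k + 1) = D (k + 1) := sub_eq_zero.mp h
      rw [this] at hneg
      exact absurd hneg (not_lt.mpr (mul_self_nonneg _))
    have hediv : e = (D' (k + 1) - D (k + 1)) / r := by
      rw [hDk1]; field_simp; ring
    have hene : e ≠ 0 := by
      rw [hediv]; exact div_ne_zero hdiff hrpos.ne'
    have heD : 0 < D' (k + 1) * e := by
      rw [hediv, mul_div_assoc']
      apply div_pos _ hrpos
      nlinarith [mul_self_nonneg (D' (k + 1))]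
    set s := -D (k + 1) / e with hs
    have hse : D (k + 1) + s * e = 0 := by
      rw [hs]; field_simp; ring
    have hs0 : 0 < s := by
      -- s e = - D, and D * e < 0
      have h1 : D (k + 1) * e < 0 := by
        by_contra hcon
        push Not at hcon
        have h2 := mul_nonneg hcon heD.le
        have h3 : D (k + 1) * e * (D' (k + 1) * e) = (D' (k + 1) * D (k + 1)) * (e * e) := by ring
        rw [h3] at h2
        have h4 : 0 < e * e := mul_self_pos.mpr hene
        nlinarith
      rw [hs]
      have h2 : -D (k + 1) / e = (-(D (k + 1) * e)) / (e * e) := by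
        field_simp
      rw [h2]
      exact div_pos (by linarith) (mul_self_pos.mpr hene)
    have hsr : s < r := by
      have h1 : (r - s) * e = D' (k + 1) := by rw [hDk1]; linarith
      by_contra hcon
      push Not at hcon
      have h2 : (r - s) * e * e = D' (k + 1) * e := by rw [h1]
      have h3 : 0 < e * e := mul_self_pos.mpr hene
      nlinarith
    set x : Fin (m + 1) → ℝ := stg m M A k (k + 1) + s • A k with hx
    have hxy : om u x y = 0 := by
      rw [hx, gcl_om_add_smul_left, ← hse]
      show om u (stg m M A k (k + 1)) y + s * om u (A k) y = om u (stg m M A k (k + 1))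
        (stg m M A k (k + 1 + 1)) + s * e
      rw [show k + 1 + 1 = k + 2 from rfl, c6]
    have hxA : om u (A k) x = D k := by
      rw [hx, gcl_om_add_smul_right, gcl_om_self, mul_zero, add_zero]
      show om u (A k) (stg m M A k (k + 1)) = om u (stg m M A k k) (stg m M A k (k + 1))
      rw [c2]
    -- kappa
    have hkap : ∃ κ : ℝ, ∀ i, u i ⬝ᵥ x = κ * (u i ⬝ᵥ y) := by
      have hyne : u 0 ⬝ᵥ y ≠ 0 ∨ u 1 ⬝ᵥ y ≠ 0 := by
        by_contra hcon
        push Not at hcon
        apply hene
        rw [he]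
        unfold om
        rw [hcon.1, hcon.2]
        ring
      unfold om at hxy
      rcases hyne with h | h
      · refine ⟨(u 0 ⬝ᵥ x) / (u 0 ⬝ᵥ y), fun i => ?_⟩
        fin_cases i
        · show u 0 ⬝ᵥ x = _ * (u 0 ⬝ᵥ y)
          rw [div_mul_cancel₀ _ h]
        · show u 1 ⬝ᵥ x = _ * (u 1 ⬝ᵥ y)
          field_simp
          linarith
      · refine ⟨(u 1 ⬝ᵥ x) / (u 1 ⬝ᵥ y), fun i => ?_⟩
        fin_cases i
        · show u 0 ⬝ᵥ x = _ * (u 0 ⬝ᵥ y)
          field_simp
          linarith
        · show u 1 ⬝ᵥ x = _ * (u 1 ⬝ᵥ y)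
          rw [div_mul_cancel₀ _ h]
    obtain ⟨κ, hκ⟩ := hkap
    have hDe : D k = κ * e := by
      rw [← hxA, he]
      unfold om
      rw [hκ 0, hκ 1]
      ring
    have hκ0 : κ ≠ 0 := by
      intro h
      rw [h, zero_mul] at hDe
      exact hne3 hDe
    rcases lt_or_gt_of_ne hκ0 with hκn | hκp
    · -- merge
      have hTP := stage_closed (m := m) (M := M) (k := k + 1) (A := A) (by omega) hM hA (by omega)
        hk (t := r - s) (by linarith) (by rw [← hr]; linarith)
      have hxeq : A (k + 1) - (r - s) • A (k + 1 - 1) = x := by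
        rw [hx, c4, Nat.add_sub_cancel, sub_smul]
        abel
      rw [hxeq] at hTP
      obtain ⟨f, hf⟩ := lastd_dot m M A
      have hv : (1 : ℝ) • (Function.update (stg m M A (k + 1)) (k + 1) x) (k + 1) +
          (-κ) • (Function.update (stg m M A (k + 1)) (k + 1) x) (k + 1 + 1) = x + (-κ) • y := by
        rw [Function.update_self, Function.update_of_ne (by omega), one_smul]
      have hvne : x + (-κ) • y ≠ 0 := by
        intro h
        have h1 : f ⬝ᵥ (x + (-κ) • y) = 0 := by rw [h, dotProduct_zero]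
        have hy0 : f ⬝ᵥ y = 0 := by
          rw [← hf, c5]
          exact lastd_prm hM hA (by omega) (by omega)
        have hp0 : f ⬝ᵥ stg m M A k (k + 1) = 0 := by
          rw [← hf, c4']
          exact lastd_prm hM hA (by omega) (by omega)
        have hx0 : f ⬝ᵥ x = s * lastd m M A (A k) := by
          rw [hx, dotProduct_add, dotProduct_smul, hp0, ← hf, smul_eq_mul, zero_add]
        rw [dotProduct_add, dotProduct_smul, hx0, hy0, smul_zero, add_zero] at h1
        have h2 : 0 < lastd m M A (A k) := lastd_pos hA (by omega)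
        have h3 := mul_pos hs0 h2
        linarith
      have hmerge := merge_closed (i := k + 1) hm hM hG hTP (by omega) one_pos
        (neg_pos.mpr hκn) (by rw [hv]; exact hvne) u (by
          intro i
          rw [hv, dotProduct_add, dotProduct_smul, hκ i, smul_eq_mul]
          ring)
      apply hmerge
      have h1 : Alt D' (M - 2 + 1) (2 * m - 3 + 2) := by
        have e1 : M - 2 + 1 = M - 1 := by omega
        have e2 : 2 * m - 3 + 2 = 2 * m - 1 := by omega
        rw [e1, e2]
        exact hAlt
      refine alt_congr ?_ (alt_drop (i := k + 1) (by omega) h1)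
      intro j _
      have hgj : ∀ l, l ≠ k + 1 →
          gap u (Function.update (stg m M A (k + 1)) (k + 1) x) l = D' l := by
        intro l hl
        show om u (Function.update (stg m M A (k + 1)) (k + 1) x l)
          (Function.update (stg m M A (k + 1)) (k + 1) x (l + 1)) = D' l
        by_cases hlk : l = k
        · rw [hlk, Function.update_self, Function.update_of_ne (by omega), c1, hxA, hDk]
        · rw [Function.update_of_ne hl, Function.update_of_ne (by omega)]
          rfl
      show gap u (Function.update (stg m M A (k + 1)) (k + 1) x)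
        (if j < k + 1 then j else j + 1) = D' (if j < k + 1 then j else j + 1)
      apply hgj
      split_ifs <;> omega
    · -- cut
      apply hprev
      refine alt_cut (i := k + 1) (by omega) (by omega) hDne ?_ hAlt
      rw [Nat.add_sub_cancel, hDe]
      have : D' (k + 1) * (κ * e) = κ * (D' (k + 1) * e) := by ring
      rw [this]
      exact mul_pos hκp heD
  · -- same sign
    apply hprev
    refine alt_scale (fun j => if j = k + 1 then D (k + 1) / D' (k + 1) else 1) ?_ ?_ hAlt
    · intro j _
      show 0 < (if j = k + 1 then D (k + 1) / D' (k + 1) else 1)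
      split_ifs
      · have : D (k + 1) / D' (k + 1) = (D' (k + 1) * D (k + 1)) / (D' (k + 1) * D' (k + 1)) := by
          field_simp
        rw [this]
        exact div_pos hpos (mul_self_pos.mpr hne1)
      · exact one_pos
    · intro j _
      show D j = (if j = k + 1 then D (k + 1) / D' (k + 1) else 1) * D' j
      split_ifs with h
      · rw [h, div_mul_cancel₀ _ hne1]
      · rw [one_mul, hDne j h]

private theorem gcl_succ {m : ℕ} (hm : 2 ≤ m) (hG : GCP m) : GCP (m + 1) := by
  intro M A hA u hAlt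
  have e0 : 2 * (m + 1) - 3 = 2 * m - 1 := by omega
  rw [e0] at hAlt
  by_cases hM : m + 1 ≤ M
  swap
  · obtain ⟨s, h1, h2, -⟩ := hAlt
    have h3 : ∀ i, i ≤ 2 * m - 1 → i ≤ s i := by
      intro i
      induction i with
      | zero => intro _; exact Nat.zero_le _
      | succ i ih =>
        intro hi
        have := ih (by omega)
        have := h1 i (by omega)
        omega
    have h4 := h3 (2 * m - 1) le_rfl
    have h5 := h2 (2 * m - 1) le_rfl
    omega
  -- generic u
  let L : List ((Fin (m + 1) → ℝ) × (Fin (m + 1) → ℝ)) :=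
    (List.range (M - m)).flatMap fun k => (List.range (M - 1)).map fun j =>
      (stg m M A k j, stg m M A k (j + 1))
  obtain ⟨u', hgen, hAlt'⟩ := gcl_generic A L (by
    intro p hp
    simp only [L, List.mem_flatMap, List.mem_map, List.mem_range] at hp
    obtain ⟨k, hk, j, hj, rfl⟩ := hp
    exact stage_indep hm hM hA (by omega) (by omega)) u hAlt
  have hgen' : ∀ k j, k + m < M → j + 1 < M → gap u' (stg m M A k) j ≠ 0 := by
    intro k j hk hj
    apply hgen (stg m M A k j, stg m M A k (j + 1))
    simp only [L, List.mem_flatMap, List.mem_map, List.mem_range]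
    exact ⟨k, by omega, j, by omega, rfl⟩
  have hall : ∀ k, k + m < M → ¬ Alt (gap u' (stg m M A k)) (M - 1) (2 * m - 1) := by
    intro k
    induction k with
    | zero => intro _; exact gcl_zero hm hM hG hA u'
    | succ k ih => intro hk; exact gcl_step hm hM hG hA u' hgen' hk (ih (by omega))
  have hlast := hall (M - m - 1) (by omega)
  apply hlast
  have hstg : stg m M A (M - m - 1) = A := by
    funext j
    unfold stg prm
    by_cases hj : j ≤ M - m - 1
    · rw [if_pos hj]
    · rw [if_neg hj, if_neg (by omega)]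
  rw [hstg]
  exact hAlt'

theorem gcp {m : ℕ} (hm : 2 ≤ m) : GCP m := by
  induction m, hm using Nat.le_induction with
  | base => exact gcl_base
  | succ m hm ih => exact gcl_succ hm ih

end Pool.Agent.TR
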