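import Pool.Agent.Helper65.TR.CLS
import Pool.Agent.Helper65.TR.GCL

/-!
# TRL EXT : rotation, extension by one column, cyclic Grassmann convexity

PROOFS. `tp_rot`: a minor containing the last new column `(-1)^(m-1) A 0` is obtained from a minor
of `A` with first column `A 0` by a cyclic permutation of the rows (sign `(-1)^(m-1)`).
`tp_prepend`: `x_ε = Σ_(k<m) (-ε)^k A k`.  For a set `T` of `m - 1` indices let `q` be the least
index `≥ 0` not in `T` (`q ≤ m - 1`); `det(x_ε, A_T) = Σ_k (-ε)^k det(A k, A_T)`, the terms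
`k < q` vanish, the term `k = q` is `(-ε)^q (-1)^q mi(T ∪ {q}) = ε^q mi(T ∪ {q})`; so the sum is
positive for small `ε > 0`; finitely many `T`.
`tpc_ext`: rotate `(x_ε, A 0, ..., A (M-1))` (`tp_rot` for `M + 1` columns) :
`(A 0, ..., A (M-1), (-1)^(m-1) x_ε)` is totally positive and tends to `ext m M A` (first `M + 1`
columns).  `tp_append` is the same family with one fixed `ε`.
`gcc` = `alt_closed` for `tpc_ext`.
-/

set_option autoImplicit false

namespace Pool.Agent.TR

/-- moving the first row to position `p` -/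
private theorem ext_dt_insertNth {k : ℕ} (p : Fin (k + 1)) (a : Fin (k + 1) → ℝ)
    (x : Fin k → Fin (k + 1) → ℝ) :
    dt (Fin.insertNth (α := fun _ => Fin (k + 1) → ℝ) p a x) =
      (-1) ^ (p : ℕ) * dt (Fin.cons (α := fun _ => Fin (k + 1) → ℝ) a x) := by
  have h := Matrix.det_permute p.cycleRange
    (Matrix.of (Fin.cons (α := fun _ => Fin (k + 1) → ℝ) a x))
  rw [Fin.sign_cycleRange] at h
  have h2 : (Matrix.of (Fin.cons (α := fun _ => Fin (k + 1) → ℝ) a x)).submatrix p.cycleRange id =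
      Matrix.of (Fin.insertNth (α := fun _ => Fin (k + 1) → ℝ) p a x) := by
    rw [← Fin.cons_comp_cycleRange]
    rfl
  rw [h2] at h
  unfold dt
  rw [h]
  simp

/-- the determinant as a linear function of the first row -/
private noncomputable def ext_L {k : ℕ} (y : Fin k → Fin (k + 1) → ℝ) :
    (Fin (k + 1) → ℝ) →ₗ[ℝ] ℝ :=
  (Matrix.detRowAlternating (R := ℝ) (n := Fin (k + 1))).toMultilinearMap.toLinearMap
    (Fin.cons (α := fun _ => Fin (k + 1) → ℝ) 0 y) 0

private theorem ext_L_apply {k : ℕ} (y : Fin k → Fin (k + 1) → ℝ) (x : Fin (k + 1) → ℝ) :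
    ext_L y x = dt (Fin.cons (α := fun _ => Fin (k + 1) → ℝ) x y) := by
  unfold ext_L dt
  rw [MultilinearMap.toLinearMap_apply, Fin.update_cons_zero]
  rfl

/-- positivity near zero of a polynomial with leading (lowest) term of the right sign -/
private theorem ext_small (c : ℕ → ℝ) (m q : ℕ) (hq : q < m) (h0 : ∀ i < q, c i = 0)
    (h1 : 0 < (-1 : ℝ) ^ q * c q) :
    ∃ δ : ℝ, 0 < δ ∧ ∀ ε : ℝ, 0 < ε → ε < δ → 0 < ∑ i ∈ Finset.range m, (-ε) ^ i * c i := by
  obtain ⟨r, rfl⟩ : ∃ r, m = q + (r + 1) := ⟨m - q - 1, by omega⟩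
  let G : ℝ → ℝ := fun ε => (-1 : ℝ) ^ q * ∑ j ∈ Finset.range (r + 1), (-ε) ^ j * c (q + j)
  have hG : Continuous G := by
    refine continuous_const.mul (continuous_finsetSum _ fun j _ => ?_)
    exact (continuous_neg.pow j).mul continuous_const
  have hG0 : 0 < G 0 := by
    have : G 0 = (-1 : ℝ) ^ q * c q := by
      simp only [G]
      rw [Finset.sum_range_succ']
      simp
    rw [this]
    exact h1
  have hev := hG.continuousAt.eventually (lt_mem_nhds hG0)
  obtain ⟨δ, hδ, hball⟩ := Metric.eventually_nhds_iff.1 hev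
  refine ⟨δ, hδ, fun ε he1 he2 => ?_⟩
  have hGe : 0 < G ε := hball (by rw [Real.dist_eq, sub_zero, abs_of_pos he1]; exact he2)
  rw [Finset.sum_range_add]
  have hz : ∑ i ∈ Finset.range q, (-ε) ^ i * c i = 0 :=
    Finset.sum_eq_zero fun i hi => by rw [h0 i (Finset.mem_range.1 hi), mul_zero]
  rw [hz, zero_add]
  have he : ∑ x ∈ Finset.range (r + 1), (-ε) ^ (q + x) * c (q + x) = ε ^ q * G ε := by
    simp only [G]
    rw [← mul_assoc, Finset.mul_sum]
    refine Finset.sum_congr rfl fun j _ => ?_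
    rw [pow_add, neg_pow ε q]
    ring
  rw [he]
  exact mul_pos (pow_pos he1 q) hGe

theorem tp_rot {m M : ℕ} {A : ℕ → Fin m → ℝ} (hm : 1 ≤ m) (hM : 1 ≤ M) (hA : TPos m M A) :
    TPos m M (fun j => if j + 1 < M then A (j + 1) else (-1 : ℝ) ^ (m - 1) • A 0) := by
  obtain ⟨k, rfl⟩ : ∃ k, m = k + 1 := ⟨m - 1, by omega⟩
  intro s hs hsM
  by_cases hlast : s (Fin.last k) + 1 < M
  · have h1 : ∀ i, s i + 1 < M := fun i =>
      lt_of_le_of_lt (Nat.succ_le_succ (hs.monotone (Fin.le_last i))) hlast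
    have h2 : (fun i => (fun j => if j + 1 < M then A (j + 1) else
        (-1 : ℝ) ^ (k + 1 - 1) • A 0) (s i)) = fun i => A (s i + 1) := by
      funext i
      simp only [if_pos (h1 i)]
    rw [h2]
    exact hA (fun i => s i + 1) (fun i j hij => Nat.succ_lt_succ (hs hij)) h1
  · have hl : s (Fin.last k) + 1 = M := by
      have := hsM (Fin.last k)
      omega
    have hlt : ∀ j : Fin k, s j.castSucc + 1 < M := by
      intro j
      have := hs (Fin.castSucc_lt_last j)
      omega
    have h2 : (fun i => (fun j => if j + 1 < M then A (j + 1) else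
        (-1 : ℝ) ^ (k + 1 - 1) • A 0) (s i)) =
        Fin.insertNth (α := fun _ => Fin (k + 1) → ℝ) (Fin.last k) ((-1 : ℝ) ^ k • A 0)
          (fun j : Fin k => A (s j.castSucc + 1)) := by
      funext i
      rcases Fin.eq_self_or_eq_succAbove (Fin.last k) i with hi | ⟨j, hi⟩
      · rw [hi, Fin.insertNth_apply_same]
        simp only [if_neg hlast]
        rfl
      · rw [hi, Fin.insertNth_apply_succAbove]
        simp only [Fin.succAbove_last_apply]
        rw [if_pos (hlt j)]
    rw [h2, ext_dt_insertNth, ← ext_L_apply, map_smul, smul_eq_mul, Fin.val_last, ← mul_assoc,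
      ← pow_add, ← two_mul, pow_mul, neg_one_sq, one_pow, one_mul, ext_L_apply]
    have h3 : (Fin.cons (α := fun _ => Fin (k + 1) → ℝ) (A 0)
        (fun j : Fin k => A (s j.castSucc + 1))) =
        fun i => A ((Fin.cons (α := fun _ => ℕ) 0 (fun j : Fin k => s j.castSucc + 1) : Fin (k + 1) → ℕ) i) := by
      funext i
      refine Fin.cases rfl (fun j => rfl) i
    rw [h3]
    apply hA
    · rw [Fin.strictMono_iff_lt_succ]
      intro i
      rw [Fin.cons_succ]
      rcases Nat.eq_zero_or_pos (i : ℕ) with hi | hi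
      · have : i.castSucc = 0 := by
          ext
          simpa using hi
        rw [this, Fin.cons_zero]
        omega
      · obtain ⟨i', hi'⟩ : ∃ i' : Fin k, i.castSucc = i'.succ :=
          ⟨⟨i - 1, by omega⟩, by ext; simp; omega⟩
        rw [hi', Fin.cons_succ]
        have := hs (Fin.castSucc_lt_succ (i := i'))
        omega
    · intro i
      refine Fin.cases ?_ (fun j => ?_) i
      · rw [Fin.cons_zero]; omega
      · rw [Fin.cons_succ]; exact hlt j

/-- inserting an index in an increasing sequence -/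
private theorem ext_insert_mono {k q : ℕ} (p : Fin (k + 1)) (hp : (p : ℕ) = q) (t : Fin k → ℕ)
    (ht : StrictMono t) (h1 : ∀ j : Fin k, (j : ℕ) < q → t j < q)
    (h2 : ∀ j : Fin k, q ≤ (j : ℕ) → q < t j) :
    StrictMono (Fin.insertNth (α := fun _ => ℕ) p q t) := by
  intro i j hij
  rcases Fin.eq_self_or_eq_succAbove p i with hi | ⟨i', hi⟩ <;>
    rcases Fin.eq_self_or_eq_succAbove p j with hj | ⟨j', hj⟩
  · rw [hi, hj] at hij
    exact absurd hij (lt_irrefl _)
  · rw [hi, hj, Fin.insertNth_apply_same, Fin.insertNth_apply_succAbove]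
    rw [hi, hj, Fin.lt_succAbove_iff_le_castSucc] at hij
    apply h2
    rw [← hp]
    exact hij
  · rw [hi, hj, Fin.insertNth_apply_same, Fin.insertNth_apply_succAbove]
    rw [hi, hj, Fin.succAbove_lt_iff_castSucc_lt] at hij
    apply h1
    rw [← hp]
    exact hij
  · rw [hi, hj, Fin.insertNth_apply_succAbove, Fin.insertNth_apply_succAbove]
    rw [hi, hj] at hij
    exact ht ((Fin.strictMono_succAbove p).lt_iff_lt.1 hij)

/-- the smallness for one minor -/
private theorem ext_minor {k M : ℕ} {A : ℕ → Fin (k + 1) → ℝ} (hM : k + 1 ≤ M)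
    (hA : TPos (k + 1) M A) (s : Fin (k + 1) → ℕ) (hs : StrictMono s) (hsM : ∀ i, s i < M + 1) :
    ∃ δ : ℝ, 0 < δ ∧ ∀ ε : ℝ, 0 < ε → ε < δ →
      0 < dt (fun i => (fun j => if j = 0 then ∑ k ∈ Finset.range (k + 1), (-ε) ^ k • A k
        else A (j - 1)) (s i)) := by
  rcases Nat.eq_zero_or_pos (s 0) with h0 | h0
  · set t : Fin k → ℕ := fun j => s j.succ - 1 with ht
    have hs1 : ∀ j : Fin k, 1 ≤ s j.succ := fun j => by
      have := hs (Fin.succ_pos j)
      omega
    have htm : StrictMono t := by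
      intro i j hij
      have h1 := hs (Fin.succ_lt_succ_iff.2 hij)
      have := hs1 i
      simp only [ht]
      omega
    have htM : ∀ j, t j < M := by
      intro j
      have h1 := hsM j.succ
      have := hs1 j
      simp only [ht]
      omega
    have htge : ∀ (n : ℕ) (h : n < k), n ≤ t ⟨n, h⟩ := by
      intro n
      induction n with
      | zero => intro h; exact Nat.zero_le _
      | succ n ih =>
        intro h
        have h1 := ih (by omega)
        have h2 : t ⟨n, by omega⟩ < t ⟨n + 1, h⟩ := htm (by simp [Fin.lt_def])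
        omega
    -- the least missing index
    have hex : ∃ q, q = k ∨ ∃ h : q < k, t ⟨q, h⟩ ≠ q := ⟨k, Or.inl rfl⟩
    classical
    obtain ⟨q, hq, hmin⟩ : ∃ q, (q = k ∨ ∃ h : q < k, t ⟨q, h⟩ ≠ q) ∧
        ∀ i < q, ¬ (i = k ∨ ∃ h : i < k, t ⟨i, h⟩ ≠ i) :=
      ⟨Nat.find hex, Nat.find_spec hex, fun i hi => Nat.find_min hex hi⟩
    have hqk : q ≤ k := by
      rcases hq with h | ⟨h, _⟩ <;> omega
    have hlow : ∀ (i : ℕ) (h : i < k), i < q → t ⟨i, h⟩ = i := by
      intro i h hiq
      by_contra hne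
      exact hmin i hiq (Or.inr ⟨h, hne⟩)
    have hhigh : ∀ j : Fin k, q ≤ (j : ℕ) → q < t j := by
      intro j hj
      rcases hq with h | ⟨h, hne⟩
      · have := j.2
        omega
      · have h1 := htge q h
        have h2 : t ⟨q, h⟩ ≤ t j := htm.monotone (by rw [Fin.le_def]; exact hj)
        omega
    have hcz : ∀ i < q, ext_L (fun j => A (t j)) (A i) = 0 := by
      intro i hi
      rw [ext_L_apply]
      have hik : i < k := by omega
      refine Matrix.det_zero_of_row_eq (i := 0) (j := Fin.succ ⟨i, hik⟩)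
        (Fin.succ_ne_zero _).symm ?_
      show A i = A (t ⟨i, hik⟩)
      rw [hlow i hik hi]
    have hcq : 0 < (-1 : ℝ) ^ q * ext_L (fun j => A (t j)) (A q) := by
      have h1 := ext_dt_insertNth (⟨q, by omega⟩ : Fin (k + 1)) (A q) (fun j => A (t j))
      rw [ext_L_apply, ← h1]
      have h2 : (Fin.insertNth (α := fun _ => Fin (k + 1) → ℝ) (⟨q, by omega⟩ : Fin (k + 1))
          (A q) (fun j => A (t j))) =
          fun i => A ((Fin.insertNth (α := fun _ => ℕ) (⟨q, by omega⟩ : Fin (k + 1)) q t :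
            Fin (k + 1) → ℕ) i) := by
        funext i
        rcases Fin.eq_self_or_eq_succAbove (⟨q, by omega⟩ : Fin (k + 1)) i with hi | ⟨i', hi⟩
        · rw [hi, Fin.insertNth_apply_same, Fin.insertNth_apply_same]
        · rw [hi, Fin.insertNth_apply_succAbove, Fin.insertNth_apply_succAbove]
      rw [h2]
      apply hA
      · apply ext_insert_mono _ rfl t htm _ hhigh
        intro j hj
        have := hlow j j.2 hj
        have e : (⟨(j : ℕ), j.2⟩ : Fin k) = j := rfl
        rw [e] at this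
        omega
      · intro i
        rcases Fin.eq_self_or_eq_succAbove (⟨q, by omega⟩ : Fin (k + 1)) i with hi | ⟨i', hi⟩
        · rw [hi, Fin.insertNth_apply_same]; omega
        · rw [hi, Fin.insertNth_apply_succAbove]; exact htM i'
    obtain ⟨δ, hδ, hpos⟩ := ext_small (fun i => ext_L (fun j => A (t j)) (A i)) (k + 1) q
      (by omega) hcz hcq
    refine ⟨δ, hδ, fun ε he1 he2 => ?_⟩
    have h3 := hpos ε he1 he2
    have h4 : (fun i => (fun j => if j = 0 then ∑ k ∈ Finset.range (k + 1), (-ε) ^ k • A k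
        else A (j - 1)) (s i)) = Fin.cons (α := fun _ => Fin (k + 1) → ℝ)
          (∑ k ∈ Finset.range (k + 1), (-ε) ^ k • A k) (fun j => A (t j)) := by
      funext i
      refine Fin.cases ?_ (fun j => ?_) i
      · simp only [Fin.cons_zero]
        rw [if_pos h0]
      · simp only [Fin.cons_succ]
        have := hs1 j
        rw [if_neg (by omega)]
    rw [h4, ← ext_L_apply, map_sum]
    simpa only [map_smul, smul_eq_mul] using h3
  · refine ⟨1, one_pos, fun ε _ _ => ?_⟩
    have h1 : ∀ i, 1 ≤ s i := fun i => h0.trans_le (hs.monotone (Fin.zero_le i))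
    have h2 : (fun i => (fun j => if j = 0 then ∑ k ∈ Finset.range (k + 1), (-ε) ^ k • A k
        else A (j - 1)) (s i)) = fun i => A (s i - 1) := by
      funext i
      have := h1 i
      simp only [if_neg (show s i ≠ 0 by omega)]
    rw [h2]
    apply hA (fun i => s i - 1)
    · intro i j hij
      have := hs hij
      have := h1 i
      show s i - 1 < s j - 1
      omega
    · intro i
      have := hsM i
      have := h1 i
      show s i - 1 < M
      omega

theorem tp_prepend {m M : ℕ} {A : ℕ → Fin m → ℝ} (hm : 1 ≤ m) (hM : m ≤ M) (hA : TPos m M A) :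
    ∃ δ : ℝ, 0 < δ ∧ ∀ ε : ℝ, 0 < ε → ε < δ → TPos m (M + 1)
      (fun j => if j = 0 then ∑ k ∈ Finset.range m, (-ε) ^ k • A k else A (j - 1)) := by
  classical
  obtain ⟨k, rfl⟩ : ∃ k, m = k + 1 := ⟨m - 1, by omega⟩
  have key : ∀ s : Fin (k + 1) → Fin (M + 1), ∃ δ : ℝ, 0 < δ ∧ ∀ ε : ℝ, 0 < ε → ε < δ →
      StrictMono (fun i => (s i : ℕ)) →
      0 < dt (fun i => (fun j => if j = 0 then ∑ k ∈ Finset.range (k + 1), (-ε) ^ k • A k
        else A (j - 1)) ((s i : ℕ))) := by
    intro s
    by_cases hs : StrictMono (fun i => (s i : ℕ))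
    · obtain ⟨δ, h1, h2⟩ := ext_minor hM hA (fun i => (s i : ℕ)) hs (fun i => (s i).2)
      exact ⟨δ, h1, fun ε he1 he2 _ => h2 ε he1 he2⟩
    · exact ⟨1, one_pos, fun ε _ _ h => absurd h hs⟩
  choose δ hδ using key
  refine ⟨Finset.univ.inf' ⟨fun _ => 0, Finset.mem_univ _⟩ δ, ?_, ?_⟩
  · rw [Finset.lt_inf'_iff]
    exact fun s _ => (hδ s).1
  · intro ε he1 he2 s hs hsM
    rw [Finset.lt_inf'_iff] at he2
    exact (hδ (fun i => ⟨s i, hsM i⟩)).2 ε he1 (he2 _ (Finset.mem_univ _)) hs

theorem tp_append {m M : ℕ} {A : ℕ → Fin m → ℝ} (hm : 1 ≤ m) (hM : m ≤ M) (hA : TPos m M A) :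
    ∃ x : Fin m → ℝ, TPos m (M + 1) (fun j => if j < M then A j else x) := by
  obtain ⟨δ, hδ, h⟩ := tp_prepend hm hM hA
  have h1 := tp_rot hm (by omega) (h (δ / 2) (by linarith) (by linarith))
  refine ⟨(-1 : ℝ) ^ (m - 1) • ∑ k ∈ Finset.range m, (-(δ / 2)) ^ k • A k, ?_⟩
  convert h1 using 2 with j
  by_cases hj : j < M
  · rw [if_pos hj, if_pos (by omega), if_neg (by omega)]
    rfl
  · rw [if_neg hj, if_neg (by omega), if_pos rfl]

theorem tpc_ext {m M : ℕ} {A : ℕ → Fin m → ℝ} (hm : 1 ≤ m) (hM : m ≤ M) (hA : TPos m M A) :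
    TPc m (M + 1) (ext m M A) := by
  intro e he
  obtain ⟨δ, hδ, h⟩ := tp_prepend hm hM hA
  -- the new column is close to `A 0`
  have hcont : ∀ i : Fin m, ∃ δ' : ℝ, 0 < δ' ∧ ∀ ε : ℝ, 0 < ε → ε < δ' →
      |(∑ k ∈ Finset.range m, (-ε) ^ k • A k) i - A 0 i| < e := by
    intro i
    have hG : Continuous (fun ε : ℝ => ∑ k ∈ Finset.range m, (-ε) ^ k * A k i) :=
      continuous_finsetSum _ fun k _ => (continuous_neg.pow k).mul continuous_const
    have hG0 : ∑ k ∈ Finset.range m, (-(0 : ℝ)) ^ k * A k i = A 0 i := by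
      obtain ⟨k, rfl⟩ : ∃ k, m = k + 1 := ⟨m - 1, by omega⟩
      rw [Finset.sum_range_succ']
      simp
    obtain ⟨δ', hδ', hb⟩ := Metric.continuousAt_iff.1 (hG.continuousAt (x := 0)) e he
    refine ⟨δ', hδ', fun ε he1 he2 => ?_⟩
    have h1 := hb (x := ε) (by rw [Real.dist_eq, sub_zero, abs_of_pos he1]; exact he2)
    rw [Real.dist_eq, hG0] at h1
    simpa only [Finset.sum_apply, Pi.smul_apply, smul_eq_mul] using h1
  choose δ' hδ' using hcont
  have : Nonempty (Fin m) := ⟨⟨0, hm⟩⟩
  obtain ⟨ε, he1, he2, he3⟩ : ∃ ε : ℝ, 0 < ε ∧ ε < δ ∧ ∀ i, ε < δ' i := by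
    set d := Finset.univ.inf' Finset.univ_nonempty δ' with hd
    have hd0 : 0 < d := by
      rw [hd, Finset.lt_inf'_iff]
      exact fun i _ => (hδ' i).1
    refine ⟨min δ d / 2, by positivity, ?_, fun i => ?_⟩
    · have := min_le_left δ d
      linarith
    · have h1 := min_le_right δ d
      have h2 : d ≤ δ' i := Finset.inf'_le _ (Finset.mem_univ i)
      have h3 : 0 < min δ d := lt_min hδ hd0
      linarith
  refine ⟨_, tp_rot hm (by omega) (h ε he1 he2), ?_⟩
  intro j hj i
  unfold ext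
  by_cases hjM : j < M
  · have e1 : j + 1 < M + 1 := by omega
    simp only [if_pos hjM, if_pos e1, if_neg (Nat.succ_ne_zero j), Nat.add_sub_cancel, sub_self,
      abs_zero]
    exact he
  · have e1 : ¬ (j + 1 < M + 1) := by omega
    have e2 : j - M = 0 := by omega
    simp only [if_neg hjM, if_neg e1, if_pos, e2]
    rw [Pi.smul_apply, Pi.smul_apply, smul_eq_mul, smul_eq_mul, ← mul_sub, abs_mul, abs_pow,
      abs_neg, abs_one, one_pow, one_mul]
    exact (hδ' i).2 ε he1 (he3 i)

theorem gcc {m M : ℕ} {A : ℕ → Fin m → ℝ} (hm : 2 ≤ m) (hM : m ≤ M) (hA : TPos m M A)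
    (u : Fin 2 → Fin m → ℝ) : ¬ Alt (gap u (ext m M A)) M (2 * m - 3) := by
  have h := alt_closed (gcp hm) (tpc_ext (by omega) hM hA) u
  simpa using h

end Pool.Agent.TR
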