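import Mathlib

/-!
# TRL SEG : an open set whose boundary in a convex open set is thin is dense there

PROOF.  Suppose `y1 ∈ B`, `y1 ∉ closure O`; a ball around `y1` is in `B \ closure O`.  Let
`y0 ∈ O`.  The subspaces `V ⊔ span {y0}`, `V ∈ L`, are proper and countably many, so they have
measure zero and there is `y1'` in the ball outside of all of them
(`MeasureTheory.Measure.addHaar_submodule`).  The segment from `y0` to `y1'` is in `B`, starts in `O`
and ends outside `closure O`, so it contains a point `z ∈ closure O \ O`, `z = (1-t) y0 + t y1'`,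
`t > 0` (as `y0 ∈ O`).  `z ∈ V` for some `V ∈ L`, so `y1' = (z - (1-t) y0)/t ∈ V ⊔ span {y0}`,
contradiction.
-/

set_option autoImplicit false

namespace Pool.Agent.TR

theorem seg {E : Type*} [NormedAddCommGroup E] [NormedSpace ℝ E] [FiniteDimensional ℝ E]
    {B O : Set E} (hB : Convex ℝ B) (hBo : IsOpen B) (hO : IsOpen O) (hOB : O ⊆ B)
    (hne : O.Nonempty) (L : Set (Submodule ℝ E)) (hc : L.Countable)
    (hd : ∀ V ∈ L, Module.finrank ℝ V + 2 ≤ Module.finrank ℝ E)
    (hbd : ∀ y ∈ B, y ∈ closure O → y ∉ O → ∃ V ∈ L, y ∈ V) : B ⊆ closure O := by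
  classical
  intro y1 hy1
  by_contra hy1O
  -- a ball around `y1` in `B \ closure O`
  have hopen : IsOpen (B ∩ (closure O)ᶜ) := hBo.inter isClosed_closure.isOpen_compl
  obtain ⟨r, hr, hball⟩ := Metric.isOpen_iff.1 hopen y1 ⟨hy1, hy1O⟩
  obtain ⟨y0, hy0⟩ := hne
  let : MeasurableSpace E := borel E
  have : BorelSpace E := ⟨rfl⟩
  have hnull : (MeasureTheory.Measure.addHaar : MeasureTheory.Measure E)
      (⋃ V ∈ L, ((V ⊔ Submodule.span ℝ {y0} : Submodule ℝ E) : Set E)) = 0 := by
    rw [MeasureTheory.measure_biUnion_null_iff hc]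
    intro V hV
    apply MeasureTheory.Measure.addHaar_submodule
    intro htop
    have h1 : Module.finrank ℝ (V ⊔ Submodule.span ℝ {y0} : Submodule ℝ E) ≤
        Module.finrank ℝ V + 1 := by
      refine (Submodule.finrank_add_le_finrank_add_finrank V (Submodule.span ℝ {y0})).trans ?_
      have h2 : Module.finrank ℝ (Submodule.span ℝ {y0}) ≤ 1 := by
        have h3 := finrank_span_le_card (R := ℝ) ({y0} : Set E)
        simpa using h3
      omega
    rw [htop, finrank_top] at h1
    have h3 := hd V hV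
    omega
  have hpos : 0 < (MeasureTheory.Measure.addHaar : MeasureTheory.Measure E)
      (Metric.ball y1 r) := Metric.measure_ball_pos _ y1 hr
  obtain ⟨y2, hy2, hy2L⟩ : ∃ y2 ∈ Metric.ball y1 r,
      y2 ∉ ⋃ V ∈ L, ((V ⊔ Submodule.span ℝ {y0} : Submodule ℝ E) : Set E) := by
    by_contra hcon
    push Not at hcon
    have h1 := MeasureTheory.measure_mono_null hcon hnull
    rw [h1] at hpos
    exact lt_irrefl _ hpos
  obtain ⟨hy2B, hy2O⟩ := hball hy2
  -- the segment
  set f : ℝ → E := fun t => (1 - t) • y0 + t • y2 with hf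
  have hfc : Continuous f := by
    rw [hf]
    fun_prop
  have hf0 : f 0 = y0 := by simp [hf]
  have hf1 : f 1 = y2 := by simp [hf]
  obtain ⟨t, ht, htO, htc⟩ : ∃ t ∈ Set.Icc (0 : ℝ) 1, f t ∉ O ∧ f t ∈ closure O := by
    by_contra hcon
    push Not at hcon
    have hU : IsOpen (f ⁻¹' O) := hO.preimage hfc
    have hV : IsOpen (f ⁻¹' (closure O)ᶜ) := isClosed_closure.isOpen_compl.preimage hfc
    have hcov : Set.Icc (0 : ℝ) 1 ⊆ f ⁻¹' O ∪ f ⁻¹' (closure O)ᶜ := by
      intro t ht
      by_cases h : f t ∈ O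
      · exact Or.inl h
      · exact Or.inr (hcon t ht h)
    obtain ⟨t, -, ht1, ht2⟩ := isPreconnected_Icc (f ⁻¹' O) (f ⁻¹' (closure O)ᶜ) hU hV hcov
      ⟨0, ⟨le_rfl, zero_le_one⟩, by rw [Set.mem_preimage, hf0]; exact hy0⟩
      ⟨1, ⟨zero_le_one, le_rfl⟩, by rw [Set.mem_preimage, hf1]; exact hy2O⟩
    exact ht2 (subset_closure ht1)
  have htB : f t ∈ B :=
    hB (hOB hy0) hy2B (by linarith [ht.2]) ht.1 (by ring)
  obtain ⟨V, hV, hVt⟩ := hbd (f t) htB htc htO
  have ht0 : t ≠ 0 := by
    rintro rfl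
    rw [hf0] at htO
    exact htO hy0
  apply hy2L
  simp only [Set.mem_iUnion]
  refine ⟨V, hV, ?_⟩
  have h1 : y2 = t⁻¹ • (f t - (1 - t) • y0) := by
    rw [hf]
    simp only [add_sub_cancel_left]
    rw [smul_smul, inv_mul_cancel₀ ht0, one_smul]
  rw [h1]
  apply Submodule.smul_mem
  apply Submodule.sub_mem
  · exact Submodule.mem_sup_left hVt
  · exact Submodule.mem_sup_right (Submodule.smul_mem _ _ (Submodule.mem_span_singleton_self y0))

end Pool.Agent.TR
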