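import Pool.Agent.Helper65.TR.STC

/-!
# TRL STCD : the sign of the determinant at `ε = 0`

PROOF.
`det_sign`: in the row of an α-step `i` the entries of `MG n α 0 z0` are:
column `X_(k+1)` : `R2 2 - 2^(k+1) R2 1 = Y_l (2^l - 2^(k+1))`; column `X_k` (if `k ≥ 1`):
`Y_l (2^l - 2^k)`; other `X`-columns `0`; column `Y_l`: `2^l R1 1 - R1 2 =
X_k (2^l - 2^k) + X_(k+1) (2^l - 2^(k+1)) = 0` by `rel`; other `Y`-columns `0`.
In the row of a β-step: column `Y_l` : `2^l R1 1 - R1 2 = X_k (2^l - 2^k)`, column `Y_(l+1)` (if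
`l + 1 ≤ n`) : `X_k (2^(l+1) - 2^k)`, the others `0`.
Let `ta k` (`k < n`) be the time of the α-step from `k`, `tb k` the time of the β-step from `k + 1`.
Permute the rows into the order `ta 0 < ... < ta (n-1), tb 0 < ... < tb (n-1)`: the matrix becomes
block diagonal with triangular blocks with the diagonal entries `Y_(be i) (2^(be i) - 2^(α i + 1))`
(α-steps) and `X_(α i) (2^(be i) - 2^(α i))` (β-steps).  Their signs are `(-1)^(be i)` and
`(-1)^(α i)`; the product over all `i` is `(-1)^c0` with a number `c0` depending only on `n`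
(use `α i + be i = i + 1`: for an α-step `(-1)^(be i) = (-1)^(i+1) (-1)^(α i)`, and `α i` runs over
`0, ..., n-1`; for a β-step `(-1)^(α i) = (-1)^(i+1) (-1)^(be i)` and `be i` runs over `1, ..., n`).
The sign of the permutation is `(-1)^(number of pairs (α-step at time s', β-step at time s), s < s')
= ∏_(β-steps s) (-1)^(n - α s)`.
So `sign det = σ0(n) ∏_(β-steps s) (-1)^(n - α s)`.
(`σ0` may be defined by this formula for the path `α s = s - n` for `s ≥ n`, or explicitly.)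
-/

set_option autoImplicit false

namespace Pool.Agent.TR

theorem det_sign (n : ℕ) : ∃ σ0 : ℝ, (σ0 = 1 ∨ σ0 = -1) ∧ ∀ α : ℕ → ℕ, IsP n α →
    ∀ z0 : Fin (2 * n) → ℝ, (∀ j ≤ n, 0 < (-1 : ℝ) ^ j * XX z0 j) →
    (∀ l, 1 ≤ l → l ≤ n + 1 → 0 < (-1 : ℝ) ^ l * YY z0 l) →
    (∀ i < 2 * n,
      (α (i + 1) = α i + 1 → XX z0 (α i) * (2 ^ be α i - 2 ^ α i) +
        XX z0 (α i + 1) * (2 ^ be α i - 2 ^ (α i + 1)) = 0) ∧
      (α (i + 1) = α i → YY z0 (be α i) * (2 ^ be α i - 2 ^ α i) +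
        YY z0 (be α i + 1) * (2 ^ (be α i + 1) - 2 ^ α i) = 0)) →
    0 < σ0 * sB n α * (MG n α 0 z0).det := by
  sorry

end Pool.Agent.TR
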