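import Pool.Agent.Helper65.TR.OD

/-!
# TRL GOOD : structure of the real solutions of a totally positive configuration

`m = n + 2`, `M = 4 n`, `E = ext m M A` (`E M = (-1)^(m-1) A 0`), `X_i = gap u E (2 i + 1)`,
`i < 2 n`; the gaps `gap u E (2 i)` vanish.

PROOF. `good_ne`: `od` for `Q = {0, 2, ..., 4 n - 2}` (`card = 2 n = 2 m - 4`).
`good_alt` (all `X_i ≠ 0` and `X_i X_(i+1) < 0` for `i + 1 < 2 n`): the vectors `p_j = u(E j)`,
`j ≤ M`, are nonzero, `p_M = σ p_0`, and not all gaps vanish (otherwise all `p_j`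
are parallel, but the columns span and `u` has rank `2`).  Suppose the statement is false.  Choose
signs `s_i` of the `X_i` (the given ones if `X_i ≠ 0`) such that `s_i = s_(i+1)` for at least one
`i`, `i + 1 < 2 n` (possible: if all `X_i ≠ 0` this is the assumption; if `X_i = 0` give it the sign
of a neighbour).  Then choose the signs of the zero gaps `2 i`: opposite to `s_i` for `i = 0`; for
`i ≥ 1` : if `s_(i-1) = s_i` the opposite sign (2 changes), otherwise arbitrary (1 change).  Total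
number of sign changes in `gap 0, ..., gap (M-1)` : `1 + (2 n - 1) + #{i : s_(i-1) = s_i}
≥ 2 n + 1 = 2 m - 3`.  `free_cyc` with `K = M`; realise `p'` by columns `A' j`, `j < M`, close to
`A` (as in OD; `p'_M = σ p'_0` is automatic), `A'` totally positive: contradiction to `gcc`.
`good_pos`: if `c_i < 0`: `u(A (2i+1)) = c_i u(A (2i))` (both nonzero and parallel, so `c_i ≠ 0`
exists).  `v = |c_i| A (2i) + A (2i+1)` is killed by `u`; `tp_merge` gives a totally positive family
of `M - 1` columns in dimension `m - 1` on which `u` induces an independent pair, and the other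
`2 n - 1` pairs are disjoint pairs of adjacent columns with zero gap:
`2 n - 1 > 2 (m - 1) - 4 = 2 n - 2`, contradiction to `od`.  (`n = 1` : `m - 1 = 2`, fine.)
`good_slit`: consecutive images are not antiparallel.
-/

set_option autoImplicit false

open Matrix

namespace Pool.Agent.TR

theorem good_ne {n : ℕ} (hn : 1 ≤ n) {A : ℕ → Fin (n + 2) → ℝ} (hA : TPos (n + 2) (4 * n) A)
    {u : Fin 2 → Fin (n + 2) → ℝ} (hu : LinearIndependent ℝ u) (hs : Sol n A u) {j : ℕ}
    (hj : j < 4 * n) : ¬ (u 0 ⬝ᵥ A j = 0 ∧ u 1 ⬝ᵥ A j = 0) := by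
  classical
  have hinj : Function.Injective (fun i : ℕ => 2 * i) := fun a b h => by
    have : 2 * a = 2 * b := h
    omega
  have hcard : ((Finset.range (2 * n)).image (fun i : ℕ => 2 * i)).card = 2 * n := by
    rw [Finset.card_image_of_injective _ hinj, Finset.card_range]
  refine (od (by omega : 2 ≤ n + 2) (by omega) hA u hu
    ((Finset.range (2 * n)).image (fun i : ℕ => 2 * i)) ?_ ?_).2 (by omega) j hj
  · intro q hq
    obtain ⟨i, hi, rfl⟩ := Finset.mem_image.mp hq
    rw [Finset.mem_range] at hi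
    exact ⟨by omega, hs i hi⟩
  · intro q hq hq'
    obtain ⟨i, hi, rfl⟩ := Finset.mem_image.mp hq
    obtain ⟨i', hi', h⟩ := Finset.mem_image.mp hq'
    have : 2 * i' = 2 * i + 1 := h
    omega

namespace GOODAux

/-- alternating sequence ending exactly at the index `k`. -/
def AltL (D : ℕ → ℝ) (k r : ℕ) : Prop :=
  ∃ s : ℕ → ℕ, (∀ j < r, s j < s (j + 1)) ∧ s r = k ∧ ∀ j < r, D (s j) * D (s (j + 1)) < 0

lemma AltL.alt {D : ℕ → ℝ} {k r K : ℕ} (h : AltL D k r) (hk : k < K) : Alt D K r := by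
  obtain ⟨s, h1, h2, h3⟩ := h
  refine ⟨s, h1, ?_, h3⟩
  have key : ∀ d, d ≤ r → s (r - d) ≤ k := by
    intro d
    induction d with
    | zero => intro _; simp [h2]
    | succ d ih =>
      intro hd
      have e : r - (d + 1) + 1 = r - d := by omega
      have := h1 (r - (d + 1)) (by omega)
      rw [e] at this
      exact this.le.trans (ih (by omega))
  intro j hj
  have := key (r - j) (by omega)
  rw [show r - (r - j) = j by omega] at this
  omega

lemma AltL.ext {D : ℕ → ℝ} {k k' r : ℕ} (h : AltL D k r) (hk : k < k') (hD : D k * D k' < 0) :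
    AltL D k' (r + 1) := by
  obtain ⟨s, h1, h2, h3⟩ := h
  refine ⟨fun j => if j ≤ r then s j else k', ?_, ?_, ?_⟩
  · intro j hj
    by_cases h : j = r
    · subst h
      simp [h2, hk]
    · have : j < r := by omega
      simp only [if_pos this.le, if_pos (show j + 1 ≤ r by omega)]
      exact h1 j this
  · simp
  · intro j hj
    by_cases h : j = r
    · subst h
      simp [h2, hD]
    · have : j < r := by omega
      simp only [if_pos this.le, if_pos (show j + 1 ≤ r by omega)]
      exact h3 j this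

lemma AltL.drop {D : ℕ → ℝ} {k r : ℕ} (h : AltL D k (r + 1)) : AltL D k r := by
  obtain ⟨s, h1, h2, h3⟩ := h
  exact ⟨fun j => s (j + 1), fun j hj => h1 (j + 1) (by omega), h2,
    fun j hj => h3 (j + 1) (by omega)⟩

/-- the counting step. -/
lemma count {n : ℕ} {D s : ℕ → ℝ} (hs : ∀ i, s i ≠ 0)
    (h0 : ∀ i < 2 * n, 0 < D (2 * i) * (-s i)) (h1 : ∀ i < 2 * n, 0 < D (2 * i + 1) * s i)
    {i0 : ℕ} (hi0 : i0 + 1 < 2 * n) (hss : 0 < s i0 * s (i0 + 1)) : Alt D (4 * n) (2 * n + 1) := by
  have hprod : ∀ {a b x y : ℝ}, 0 < a * x → 0 < b * y → x * y < 0 → a * b < 0 := by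
    intro a b x y h h' h''
    have e : 0 < (a * b) * (x * y) := by
      have := mul_pos h h'
      nlinarith [this]
    by_contra hc
    push Not at hc
    nlinarith [mul_nonneg hc (neg_pos.mpr h'').le]
  -- the two kinds of extension
  have two : ∀ i, i + 1 < 2 * n → 0 < s i * s (i + 1) → ∀ r, AltL D (2 * i + 1) r →
      AltL D (2 * (i + 1) + 1) (r + 2) := by
    intro i hi hsi r h
    have a1 : D (2 * i + 1) * D (2 * (i + 1)) < 0 :=
      hprod (h1 i (by omega)) (h0 (i + 1) hi) (by nlinarith)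
    have a2 : D (2 * (i + 1)) * D (2 * (i + 1) + 1) < 0 :=
      hprod (h0 (i + 1) hi) (h1 (i + 1) hi) (by nlinarith [mul_self_pos.mpr (hs (i + 1))])
    exact (h.ext (by omega) a1).ext (by omega) a2
  have one : ∀ i, i + 1 < 2 * n → ∀ r, AltL D (2 * i + 1) r →
      AltL D (2 * (i + 1) + 1) (r + 1) := by
    intro i hi r h
    rcases lt_or_gt_of_ne (mul_ne_zero (hs i) (hs (i + 1))) with hlt | hgt
    · exact h.ext (by omega) (hprod (h1 i (by omega)) (h1 (i + 1) hi) hlt)
    · exact (two i hi hgt r h).drop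
  have start : AltL D (2 * 0 + 1) 1 := by
    have a : D (2 * 0) * D (2 * 0 + 1) < 0 :=
      hprod (h0 0 (by omega)) (h1 0 (by omega)) (by nlinarith [mul_self_pos.mpr (hs 0)])
    refine AltL.ext (k := 0) (r := 0) ⟨fun _ => 0, fun j hj => absurd hj (Nat.not_lt_zero _), rfl,
      fun j hj => absurd hj (Nat.not_lt_zero _)⟩ (by omega) ?_
    simpa using a
  have ka : ∀ i, i < 2 * n → AltL D (2 * i + 1) (i + 1) := by
    intro i
    induction i with
    | zero => intro _; exact start
    | succ i ih => intro hi; exact one i hi _ (ih (by omega))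
  have kb : ∀ d, i0 + 1 + d < 2 * n → AltL D (2 * (i0 + 1 + d) + 1) (i0 + 1 + d + 2) := by
    intro d
    induction d with
    | zero => intro _; exact two i0 hi0 hss _ (ka i0 (by omega))
    | succ d ih => intro hd; exact one (i0 + 1 + d) hd _ (ih (by omega))
  have := kb (2 * n - 1 - (i0 + 1)) (by omega)
  rw [show i0 + 1 + (2 * n - 1 - (i0 + 1)) = 2 * n - 1 by omega] at this
  have := this.alt (K := 4 * n) (by omega)
  rwa [show 2 * n - 1 + 2 = 2 * n + 1 by omega] at this

/-- a right inverse of an independent pair. -/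
lemma rinv {m : ℕ} {u : Fin 2 → Fin m → ℝ} (hu : LinearIndependent ℝ u) :
    ∃ B : Matrix (Fin m) (Fin 2) ℝ, Matrix.of u * B = 1 := by
  have hr : (Matrix.of u).rank = 2 := by
    have := LinearIndependent.rank_matrix (M := Matrix.of u) hu
    simpa using this
  have hsurj : Function.Surjective (Matrix.of u).mulVec := by
    have h1 : LinearMap.range (Matrix.of u).mulVecLin = ⊤ := by
      apply Submodule.eq_top_of_finrank_eq
      rw [Module.finrank_fintype_fun_eq_card, Fintype.card_fin]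
      exact hr
    have := LinearMap.range_eq_top.mp h1
    intro y
    obtain ⟨x, hx⟩ := this y
    exact ⟨x, hx⟩
  exact Matrix.mulVec_surjective_iff_exists_right_inverse.mp hsurj

/-- realisation of a perturbation of the images by a perturbation of the columns. -/
lemma realise {m M : ℕ} {A : ℕ → Fin m → ℝ} (hA : TPos m M A) {u : Fin 2 → Fin m → ℝ}
    (hu : LinearIndependent ℝ u) :
    ∃ ε : ℝ, 0 < ε ∧ ∀ p' : ℕ → ℝ × ℝ,
      (∀ j < M, dist (p' j) (u 0 ⬝ᵥ A j, u 1 ⬝ᵥ A j) < ε) →
      ∃ A' : ℕ → Fin m → ℝ, TPos m M A' ∧ ∀ j, u 0 ⬝ᵥ A' j = (p' j).1 ∧ u 1 ⬝ᵥ A' j = (p' j).2 := by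
  obtain ⟨B, hB⟩ := rinv hu
  obtain ⟨ε, hε, hop⟩ := tpos_open hA
  set C : ℝ := 1 + ∑ i, (|B i 0| + |B i 1|) with hC
  have hCpos : 0 < C := by positivity
  refine ⟨ε / C, by positivity, ?_⟩
  intro p' hp'
  set dd : ℕ → Fin 2 → ℝ := fun j => ![(p' j).1 - u 0 ⬝ᵥ A j, (p' j).2 - u 1 ⬝ᵥ A j] with hdd
  have hmul : ∀ j, (Matrix.of u).mulVec (B.mulVec (dd j)) = dd j := by
    intro j
    rw [Matrix.mulVec_mulVec, hB, Matrix.one_mulVec]
  refine ⟨fun j => A j + B.mulVec (dd j), hop _ ?_, ?_⟩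
  · intro j hj i
    have e1 : (A j + B.mulVec (dd j)) i - A j i = B i 0 * dd j 0 + B i 1 * dd j 1 := by
      simp [Matrix.mulVec, dotProduct, Fin.sum_univ_two]
    rw [e1]
    have hd := hp' j hj
    have h0 : |dd j 0| ≤ dist (p' j) (u 0 ⬝ᵥ A j, u 1 ⬝ᵥ A j) := by
      rw [Prod.dist_eq]
      refine le_trans ?_ (le_max_left _ _)
      simp [hdd, Real.dist_eq]
    have h1 : |dd j 1| ≤ dist (p' j) (u 0 ⬝ᵥ A j, u 1 ⬝ᵥ A j) := by
      rw [Prod.dist_eq]
      refine le_trans ?_ (le_max_right _ _)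
      simp [hdd, Real.dist_eq]
    have hle : |B i 0| + |B i 1| ≤ ∑ i, (|B i 0| + |B i 1|) :=
      Finset.single_le_sum (f := fun i => |B i 0| + |B i 1|) (fun i _ => by positivity)
        (Finset.mem_univ i)
    have hlt : |B i 0| + |B i 1| < C := by rw [hC]; linarith
    have hdist : 0 ≤ dist (p' j) (u 0 ⬝ᵥ A j, u 1 ⬝ᵥ A j) := dist_nonneg
    calc |B i 0 * dd j 0 + B i 1 * dd j 1| ≤ |B i 0 * dd j 0| + |B i 1 * dd j 1| := abs_add_le _ _
      _ = |B i 0| * |dd j 0| + |B i 1| * |dd j 1| := by rw [abs_mul, abs_mul]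
      _ ≤ |B i 0| * dist (p' j) (u 0 ⬝ᵥ A j, u 1 ⬝ᵥ A j)
          + |B i 1| * dist (p' j) (u 0 ⬝ᵥ A j, u 1 ⬝ᵥ A j) := by gcongr
      _ = (|B i 0| + |B i 1|) * dist (p' j) (u 0 ⬝ᵥ A j, u 1 ⬝ᵥ A j) := by ring
      _ ≤ C * dist (p' j) (u 0 ⬝ᵥ A j, u 1 ⬝ᵥ A j) := by gcongr
      _ < C * (ε / C) := by gcongr
      _ = ε := by field_simp
  · intro j
    have h0 := congrFun (hmul j) 0
    have h1 := congrFun (hmul j) 1
    have e0 : (Matrix.of u).mulVec (B.mulVec (dd j)) 0 = u 0 ⬝ᵥ B.mulVec (dd j) := rfl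
    have e1 : (Matrix.of u).mulVec (B.mulVec (dd j)) 1 = u 1 ⬝ᵥ B.mulVec (dd j) := rfl
    rw [e0] at h0
    rw [e1] at h1
    constructor
    · show u 0 ⬝ᵥ (A j + B.mulVec (dd j)) = _
      rw [dotProduct_add, h0]
      simp [hdd]
    · show u 1 ⬝ᵥ (A j + B.mulVec (dd j)) = _
      rw [dotProduct_add, h1]
      simp [hdd]

/-- the columns with index `< m` span. -/
lemma kill {m M : ℕ} (hM : m ≤ M) {A : ℕ → Fin m → ℝ} (hA : TPos m M A) {v : Fin m → ℝ}
    (hv : ∀ j < M, v ⬝ᵥ A j = 0) : v = 0 := by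
  have hd := hA (fun i : Fin m => (i : ℕ)) (fun a b h => h) (fun i => lt_of_lt_of_le i.2 hM)
  have hne : (Matrix.of (fun i : Fin m => A (i : ℕ))).det ≠ 0 := by
    have := hd.ne'
    simpa [dt] using this
  have h : (Matrix.of (fun i : Fin m => A (i : ℕ))).mulVec v = 0 := by
    funext i
    show A (i : ℕ) ⬝ᵥ v = 0
    rw [dotProduct_comm]
    exact hv _ (lt_of_lt_of_le i.2 hM)
  exact Matrix.eq_zero_of_mulVec_eq_zero hne h

end GOODAux

open GOODAux in
theorem good_alt {n : ℕ} (hn : 1 ≤ n) {A : ℕ → Fin (n + 2) → ℝ} (hA : TPos (n + 2) (4 * n) A)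
    {u : Fin 2 → Fin (n + 2) → ℝ} (hu : LinearIndependent ℝ u) (hs : Sol n A u) :
    (∀ i < 2 * n, gap u (ext (n + 2) (4 * n) A) (2 * i + 1) ≠ 0) ∧
    ∀ i, i + 1 < 2 * n → gap u (ext (n + 2) (4 * n) A) (2 * i + 1) *
      gap u (ext (n + 2) (4 * n) A) (2 * (i + 1) + 1) < 0 := by
  classical
  set E := ext (n + 2) (4 * n) A with hE
  set σ : ℝ := (-1 : ℝ) ^ (n + 1) with hσdef
  have hσ : σ = 1 ∨ σ = -1 := by
    rw [hσdef]
    rcases Nat.even_or_odd (n + 1) with h | h
    · left; exact h.neg_one_pow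
    · right; exact h.neg_one_pow
  have hElt : ∀ (C : ℕ → Fin (n + 2) → ℝ) j, j < 4 * n → ext (n + 2) (4 * n) C j = C j := by
    intro C j hj
    simp [ext, hj]
  have hEM : ∀ (C : ℕ → Fin (n + 2) → ℝ), ext (n + 2) (4 * n) C (4 * n) = σ • C 0 := by
    intro C
    simp [ext, hσdef]
  set p : ℕ → ℝ × ℝ := fun j => (u 0 ⬝ᵥ E j, u 1 ⬝ᵥ E j) with hp
  have hcr : ∀ j, cr (p j) (p (j + 1)) = gap u E j := by
    intro j
    simp only [cr, gap, om, hp]
  have hp0 : ∀ j < 4 * n, p j ≠ 0 := by
    intro j hj h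
    have := good_ne hn hA hu hs hj
    apply this
    have h1 : u 0 ⬝ᵥ E j = 0 := congrArg Prod.fst h
    have h2 : u 1 ⬝ᵥ E j = 0 := congrArg Prod.snd h
    rw [hE, hElt A j hj] at h1 h2
    exact ⟨h1, h2⟩
  have hpK : p (4 * n) = σ • p 0 := by
    simp only [hp]
    rw [hE, hEM A, hElt A 0 (by omega)]
    simp [dotProduct_smul]
  have heven : ∀ i < 2 * n, gap u E (2 * i) = 0 := by
    intro i hi
    simp only [gap]
    rw [hE, hElt A _ (by omega), hElt A _ (by omega)]
    exact hs i hi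
  -- not all gaps vanish
  have hne : ∃ j < 4 * n, cr (p j) (p (j + 1)) ≠ 0 := by
    by_contra hcon
    push Not at hcon
    -- all p j are multiples of p 0
    have hmul : ∀ j < 4 * n, ∃ c : ℝ, p j = c • p 0 := by
      intro j
      induction j with
      | zero => intro _; exact ⟨1, by simp⟩
      | succ j ih =>
        intro hj
        obtain ⟨c, hc⟩ := ih (by omega)
        have hz := hcon j (by omega)
        have hpj := hp0 j (by omega)
        have hcne : c ≠ 0 := by
          rintro rfl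
          exact hpj (by rw [hc, zero_smul])
        have h0 := hp0 0 (by omega)
        -- cr (c p0) q = 0, so q multiple of p0
        have hz' : (p 0).1 * (p (j + 1)).2 - (p 0).2 * (p (j + 1)).1 = 0 := by
          have hz2 : c * ((p 0).1 * (p (j + 1)).2 - (p 0).2 * (p (j + 1)).1) = 0 := by
            have := hz
            rw [cr, hc] at this
            simp only [Prod.smul_fst, Prod.smul_snd, smul_eq_mul] at this
            linarith
          exact (mul_eq_zero.mp hz2).resolve_left hcne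
        by_cases h1 : (p 0).1 = 0
        · have h2 : (p 0).2 ≠ 0 := by
            intro h2
            exact h0 (Prod.ext h1 h2)
          refine ⟨(p (j + 1)).2 / (p 0).2, Prod.ext ?_ ?_⟩
          · rw [h1] at hz'
            have : (p (j + 1)).1 = 0 := by
              have h3 : (p 0).2 * (p (j + 1)).1 = 0 := by linarith
              exact (mul_eq_zero.mp h3).resolve_left h2
            simp [this, h1]
          · simp only [Prod.smul_snd, smul_eq_mul]
            field_simp
        · refine ⟨(p (j + 1)).1 / (p 0).1, Prod.ext ?_ ?_⟩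
          · simp only [Prod.smul_fst, smul_eq_mul]
            field_simp
          · simp only [Prod.smul_snd, smul_eq_mul]
            field_simp
            linarith
    have hv : (p 0).2 • u 0 - (p 0).1 • u 1 = 0 := by
      apply kill (by omega : n + 2 ≤ 4 * n) hA
      intro j hj
      obtain ⟨c, hc⟩ := hmul j hj
      have e1 : u 0 ⬝ᵥ A j = c * (p 0).1 := by
        have := congrArg Prod.fst hc
        simpa [hp, hE, hElt A j hj] using this
      have e2 : u 1 ⬝ᵥ A j = c * (p 0).2 := by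
        have := congrArg Prod.snd hc
        simpa [hp, hE, hElt A j hj] using this
      rw [sub_dotProduct, smul_dotProduct, smul_dotProduct, e1, e2, smul_eq_mul, smul_eq_mul]
      ring
    have hli := (LinearIndependent.pair_iff (x := u 0) (y := u 1)).mp (by
      have : (![u 0, u 1] : Fin 2 → Fin (n + 2) → ℝ) = u := by
        funext k
        fin_cases k <;> rfl
      rw [this]
      exact hu) ((p 0).2) (-(p 0).1) (by
        rw [neg_smul, ← sub_eq_add_neg]
        exact hv)
    exact hp0 0 (by omega) (Prod.ext (by simpa using hli.2) hli.1)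
  -- the main contradiction
  have main : ∀ s : ℕ → ℝ, (∀ i, s i ≠ 0) →
      (∀ i < 2 * n, gap u E (2 * i + 1) ≠ 0 → 0 < gap u E (2 * i + 1) * s i) →
      ∀ i0, i0 + 1 < 2 * n → ¬ 0 < s i0 * s (i0 + 1) := by
    intro s hs0 hsX i0 hi0 hpos
    obtain ⟨ε, hε, hreal⟩ := realise hA hu
    set τ : ℕ → ℝ := fun j => if j % 2 = 0 then -s (j / 2) else s (j / 2) with hτ
    have hτ0 : ∀ j, τ j ≠ 0 := by
      intro j
      simp only [hτ]
      split_ifs
      · exact neg_ne_zero.mpr (hs0 _)
      · exact hs0 _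
    have hτe : ∀ i, τ (2 * i) = -s i := by
      intro i
      have h1 : (2 * i) % 2 = 0 := by omega
      have h2 : (2 * i) / 2 = i := by omega
      simp only [hτ, h1, h2, if_true]
    have hτo : ∀ i, τ (2 * i + 1) = s i := by
      intro i
      have h1 : (2 * i + 1) % 2 ≠ 0 := by omega
      have h2 : (2 * i + 1) / 2 = i := by omega
      simp only [hτ, if_neg h1, h2]
    obtain ⟨p', hd', hK', hj'⟩ := free_cyc (K := 4 * n) (by omega) p hp0 hσ hpK hne τ hτ0 hε
    obtain ⟨A', hA', hu'⟩ := hreal p' (by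
      intro j hj
      have := hd' j (by omega)
      rw [show p j = (u 0 ⬝ᵥ A j, u 1 ⬝ᵥ A j) by simp only [hp, hE, hElt A j hj]] at this
      exact this)
    set D : ℕ → ℝ := gap u (ext (n + 2) (4 * n) A') with hD
    have hDj : ∀ j < 4 * n, D j = cr (p' j) (p' (j + 1)) := by
      intro j hj
      simp only [hD, gap, om, cr]
      rw [hElt A' j hj, (hu' j).1, (hu' j).2]
      by_cases hj1 : j + 1 < 4 * n
      · rw [hElt A' _ hj1, (hu' (j + 1)).1, (hu' (j + 1)).2]
      · have e : j + 1 = 4 * n := by omega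
        rw [e, hEM A', hK']
        simp only [dotProduct_smul, (hu' 0).1, (hu' 0).2, Prod.smul_fst, Prod.smul_snd]
    have hD0 : ∀ i < 2 * n, 0 < D (2 * i) * (-s i) := by
      intro i hi
      rw [hDj _ (by omega), ← hτe i]
      exact (hj' (2 * i) (by omega)).2 (by rw [hcr, heven i hi])
    have hD1 : ∀ i < 2 * n, 0 < D (2 * i + 1) * s i := by
      intro i hi
      rw [hDj _ (by omega)]
      by_cases hz : gap u E (2 * i + 1) = 0
      · rw [← hτo i]
        exact (hj' (2 * i + 1) (by omega)).2 (by rw [hcr, hz])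
      · have h1 := (hj' (2 * i + 1) (by omega)).1 (by rw [hcr]; exact hz)
        rw [hcr] at h1
        have h2 := hsX i hi hz
        by_contra hc
        push Not at hc
        have h3 : 0 < (cr (p' (2 * i + 1)) (p' (2 * i + 1 + 1)) * gap u E (2 * i + 1)) *
            (gap u E (2 * i + 1) * s i) := mul_pos h1 h2
        have h4 : (cr (p' (2 * i + 1)) (p' (2 * i + 1 + 1)) * gap u E (2 * i + 1)) *
            (gap u E (2 * i + 1) * s i) =
            (cr (p' (2 * i + 1)) (p' (2 * i + 1 + 1)) * s i) * (gap u E (2 * i + 1)) ^ 2 := by ring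
        rw [h4] at h3
        have h5 := mul_nonneg (neg_nonneg.mpr hc) (sq_nonneg (gap u E (2 * i + 1)))
        nlinarith
    have hAlt := count hs0 hD0 hD1 hi0 hpos
    have := gcc (m := n + 2) (M := 4 * n) (by omega) (by omega) hA' u
    rw [show 2 * (n + 2) - 3 = 2 * n + 1 by omega] at this
    exact this hAlt
  have hnz : ∀ i < 2 * n, gap u E (2 * i + 1) ≠ 0 := by
    intro i hi hz
    set s0 : ℕ → ℝ := fun j => if gap u E (2 * j + 1) = 0 then 1 else gap u E (2 * j + 1) with hs0
    have hs0' : ∀ j, s0 j ≠ 0 := by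
      intro j
      simp only [hs0]
      split_ifs with h
      · exact one_ne_zero
      · exact h
    have hs0p : ∀ j, gap u E (2 * j + 1) ≠ 0 → 0 < gap u E (2 * j + 1) * s0 j := by
      intro j h
      simp only [hs0, if_neg h]
      exact mul_self_pos.mpr h
    by_cases hi1 : i + 1 < 2 * n
    · refine main (Function.update s0 i (s0 (i + 1))) ?_ ?_ i hi1 ?_
      · intro j
        by_cases h : j = i
        · subst h; simp [hs0']
        · simp [Function.update_of_ne h, hs0']
      · intro j hj hjz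
        have h : j ≠ i := by rintro rfl; exact hjz hz
        rw [Function.update_of_ne h]
        exact hs0p j hjz
      · rw [Function.update_self, Function.update_of_ne (by omega)]
        exact mul_self_pos.mpr (hs0' _)
    · obtain ⟨i', rfl⟩ : ∃ i', i = i' + 1 := ⟨i - 1, by omega⟩
      refine main (Function.update s0 (i' + 1) (s0 i')) ?_ ?_ i' hi ?_
      · intro j
        by_cases h : j = i' + 1
        · subst h; simp [hs0']
        · simp [Function.update_of_ne h, hs0']
      · intro j hj hjz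
        have h : j ≠ i' + 1 := by rintro rfl; exact hjz hz
        rw [Function.update_of_ne h]
        exact hs0p j hjz
      · rw [Function.update_self, Function.update_of_ne (by omega)]
        exact mul_self_pos.mpr (hs0' _)
  refine ⟨hnz, ?_⟩
  intro i hi
  by_contra hc
  push Not at hc
  have hpos : 0 < gap u E (2 * i + 1) * gap u E (2 * (i + 1) + 1) :=
    lt_of_le_of_ne hc (mul_ne_zero (hnz i (by omega)) (hnz (i + 1) hi)).symm
  set s0 : ℕ → ℝ := fun j => if gap u E (2 * j + 1) = 0 then 1 else gap u E (2 * j + 1) with hs0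
  have hs0' : ∀ j, s0 j ≠ 0 := by
    intro j
    simp only [hs0]
    split_ifs with h
    · exact one_ne_zero
    · exact h
  refine main s0 hs0' ?_ i hi ?_
  · intro j hj h
    simp only [hs0, if_neg h]
    exact mul_self_pos.mpr h
  · simp only [hs0, if_neg (hnz i (by omega)), if_neg (hnz (i + 1) hi)]
    exact hpos

open GOODAux in
theorem good_pos {n : ℕ} (hn : 1 ≤ n) {A : ℕ → Fin (n + 2) → ℝ} (hA : TPos (n + 2) (4 * n) A)
    {u : Fin 2 → Fin (n + 2) → ℝ} (hu : LinearIndependent ℝ u) (hs : Sol n A u) {i : ℕ}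
    (hi : i < 2 * n) : ∃ c : ℝ, 0 < c ∧ ∀ k, u k ⬝ᵥ A (2 * i + 1) = c * (u k ⬝ᵥ A (2 * i)) := by
  classical
  have hz : (u 0 ⬝ᵥ A (2 * i)) * (u 1 ⬝ᵥ A (2 * i + 1)) -
      (u 1 ⬝ᵥ A (2 * i)) * (u 0 ⬝ᵥ A (2 * i + 1)) = 0 := hs i hi
  have hn0 := good_ne hn hA hu hs (j := 2 * i) (by omega)
  have hn1 := good_ne hn hA hu hs (j := 2 * i + 1) (by omega)
  obtain ⟨c, hc⟩ : ∃ c : ℝ, ∀ k, u k ⬝ᵥ A (2 * i + 1) = c * (u k ⬝ᵥ A (2 * i)) := by
    by_cases h0 : u 0 ⬝ᵥ A (2 * i) = 0
    · have h1 : u 1 ⬝ᵥ A (2 * i) ≠ 0 := fun h1 => hn0 ⟨h0, h1⟩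
      refine ⟨(u 1 ⬝ᵥ A (2 * i + 1)) / (u 1 ⬝ᵥ A (2 * i)), ?_⟩
      intro k
      fin_cases k
      · show u 0 ⬝ᵥ A (2 * i + 1) = _ * (u 0 ⬝ᵥ A (2 * i))
        rw [h0] at hz ⊢
        have h3 : (u 1 ⬝ᵥ A (2 * i)) * (u 0 ⬝ᵥ A (2 * i + 1)) = 0 := by linarith
        rw [(mul_eq_zero.mp h3).resolve_left h1, mul_zero]
      · show u 1 ⬝ᵥ A (2 * i + 1) = _ * (u 1 ⬝ᵥ A (2 * i))
        field_simp
    · refine ⟨(u 0 ⬝ᵥ A (2 * i + 1)) / (u 0 ⬝ᵥ A (2 * i)), ?_⟩
      intro k
      fin_cases k
      · show u 0 ⬝ᵥ A (2 * i + 1) = _ * (u 0 ⬝ᵥ A (2 * i))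
        field_simp
      · show u 1 ⬝ᵥ A (2 * i + 1) = _ * (u 1 ⬝ᵥ A (2 * i))
        field_simp
        linarith
  refine ⟨c, ?_, hc⟩
  by_contra hcn
  push Not at hcn
  have hc0 : c ≠ 0 := by
    rintro rfl
    exact hn1 ⟨by rw [hc, zero_mul], by rw [hc, zero_mul]⟩
  have hcneg : 0 < -c := by
    have := lt_of_le_of_ne hcn hc0
    linarith
  obtain ⟨π, hπ, hT⟩ := tp_merge (m := n + 1) (M := 4 * n) (i := 2 * i) (by omega) (by omega)
    (by omega) hA hcneg one_pos
  have hk : ∀ k, u k ⬝ᵥ (-c • A (2 * i) + (1 : ℝ) • A (2 * i + 1)) = 0 := by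
    intro k
    rw [dotProduct_add, dotProduct_smul, dotProduct_smul, hc k, smul_eq_mul, smul_eq_mul]
    ring
  choose ψ hψ using fun k => hπ (u k) (hk k)
  have hψli : LinearIndependent ℝ ψ := by
    have hψ' : (![ψ 0, ψ 1] : Fin 2 → Fin (n + 1) → ℝ) = ψ := by
      funext k
      fin_cases k <;> rfl
    rw [← hψ', LinearIndependent.pair_iff]
    intro a b hab
    have huu : (![u 0, u 1] : Fin 2 → Fin (n + 2) → ℝ) = u := by
      funext k
      fin_cases k <;> rfl
    refine (LinearIndependent.pair_iff (x := u 0) (y := u 1)).mp (by rw [huu]; exact hu) a b ?_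
    funext l
    have h1 : (a • ψ 0 + b • ψ 1) ⬝ᵥ π (Pi.single l 1) = 0 := by rw [hab, zero_dotProduct]
    rw [add_dotProduct, smul_dotProduct, smul_dotProduct, hψ 0, hψ 1] at h1
    simpa [dotProduct_single] using h1
  set B : ℕ → Fin (n + 1) → ℝ := fun k => if k ≤ 2 * i then -(π (A k)) else π (A (k + 1)) with hB
  have hB1 : ∀ k, k ≤ 2 * i → B k = -(π (A k)) := fun k hk => by simp only [hB, if_pos hk]
  have hB2 : ∀ k, ¬ k ≤ 2 * i → B k = π (A (k + 1)) := fun k hk => by simp only [hB, if_neg hk]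
  set f : ℕ → ℕ := fun j => if j < i then 2 * j else 2 * j + 1 with hf
  have hfinj : Function.Injective f := by
    intro a b hab
    simp only [hf] at hab
    split_ifs at hab <;> omega
  have hcard : ((Finset.range (2 * n - 1)).image f).card = 2 * n - 1 := by
    rw [Finset.card_image_of_injective _ hfinj, Finset.card_range]
  have hod := (od (m := n + 1) (M := 4 * n - 1) (by omega) (by omega) hT ψ hψli
    ((Finset.range (2 * n - 1)).image f) ?_ ?_).1
  · rw [hcard] at hod
    omega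
  · intro q hq
    obtain ⟨j, hj, rfl⟩ := Finset.mem_image.mp hq
    rw [Finset.mem_range] at hj
    simp only [hf]
    by_cases hji : j < i
    · simp only [if_pos hji]
      refine ⟨by omega, ?_⟩
      have h := hs j (by omega)
      simp only [om] at h
      simp only [gap, om]
      rw [hB1 (2 * j) (by omega), hB1 (2 * j + 1) (by omega)]
      simp only [dotProduct_neg, hψ]
      linarith
    · simp only [if_neg hji]
      refine ⟨by omega, ?_⟩
      have h := hs (j + 1) (by omega)
      simp only [om] at h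
      simp only [gap, om]
      rw [hB2 (2 * j + 1) (by omega), hB2 (2 * j + 1 + 1) (by omega)]
      simp only [hψ]
      rw [show 2 * (j + 1) = 2 * j + 1 + 1 by ring] at h
      exact h
  · intro q hq hq'
    obtain ⟨j, hj, rfl⟩ := Finset.mem_image.mp hq
    obtain ⟨j', hj', h⟩ := Finset.mem_image.mp hq'
    simp only [hf] at h
    split_ifs at h <;> omega

theorem good_slit {n : ℕ} (hn : 1 ≤ n) {A : ℕ → Fin (n + 2) → ℝ} (hA : TPos (n + 2) (4 * n) A)
    {u : Fin 2 → Fin (n + 2) → ℝ} (hu : LinearIndependent ℝ u) (hs : Sol n A u) {j : ℕ}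
    (hj : j < 4 * n) :
    wv u (ext (n + 2) (4 * n) A) (j + 1) / wv u (ext (n + 2) (4 * n) A) j ∈ Complex.slitPlane := by
  have hElt : ∀ j, j < 4 * n → ext (n + 2) (4 * n) A j = A j := by
    intro j hj
    simp [ext, hj]
  have hwne : ∀ j, j < 4 * n → wv u (ext (n + 2) (4 * n) A) j ≠ 0 := by
    intro j hj h
    apply good_ne hn hA hu hs hj
    have h1 := congrArg Complex.re h
    have h2 := congrArg Complex.im h
    simp only [wv, hElt j hj, Complex.zero_re, Complex.zero_im] at h1 h2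
    exact ⟨h1, h2⟩
  rw [Complex.mem_slitPlane_iff]
  rcases Nat.even_or_odd' j with ⟨i, rfl | rfl⟩
  · left
    obtain ⟨c, hc, hck⟩ := good_pos hn hA hu hs (i := i) (by omega)
    have e : wv u (ext (n + 2) (4 * n) A) (2 * i + 1) =
        (c : ℂ) * wv u (ext (n + 2) (4 * n) A) (2 * i) := by
      apply Complex.ext
      · simp [wv, hElt _ (show 2 * i < 4 * n by omega), hElt _ (show 2 * i + 1 < 4 * n by omega),
          hck]
      · simp [wv, hElt _ (show 2 * i < 4 * n by omega), hElt _ (show 2 * i + 1 < 4 * n by omega),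
          hck]
    rw [e, mul_div_assoc, div_self (hwne _ hj), mul_one, Complex.ofReal_re]
    exact hc
  · right
    have hg := (good_alt hn hA hu hs).1 i (by omega)
    set w := wv u (ext (n + 2) (4 * n) A) with hw
    have hns : 0 < Complex.normSq (w (2 * i + 1)) := Complex.normSq_pos.mpr (hwne _ hj)
    have e : (w (2 * i + 1 + 1) / w (2 * i + 1)).im =
        gap u (ext (n + 2) (4 * n) A) (2 * i + 1) / Complex.normSq (w (2 * i + 1)) := by
      rw [Complex.div_im]
      simp only [hw, wv, gap, om]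
      field_simp
    rw [e]
    exact div_ne_zero hg hns.ne'

/-- the first gap of a real solution does not vanish. -/
theorem good_first {n : ℕ} (hn : 1 ≤ n) {A : ℕ → Fin (n + 2) → ℝ} (hA : TPos (n + 2) (4 * n) A)
    {u : Fin 2 → Fin (n + 2) → ℝ} (hu : LinearIndependent ℝ u) (hs : Sol n A u) :
    om u (A 1) (A 2) ≠ 0 := by
  have h := (good_alt hn hA hu hs).1 0 (by omega)
  simp only [gap] at h
  have e1 : ext (n + 2) (4 * n) A (2 * 0 + 1) = A 1 := by
    simp [ext, show 1 < 4 * n by omega]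
  have e2 : ext (n + 2) (4 * n) A (2 * 0 + 1 + 1) = A 2 := by
    simp [ext, show 2 < 4 * n by omega]
  rw [e1, e2] at h
  exact h

end Pool.Agent.TR
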