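import Pool.Agent.Helper65.TR.SGA

/-!
# TRL SGP : computation of the twisted sign

PROOF. Let `A_j = arg (w j) ∈ (-π, π)`, `≠ 0` as the imaginary parts do not vanish.
`arg (w (j+1) / w j) = A_(j+1) - A_j + 2 π κ_j` with `κ_j ∈ {-1, 0, 1}`: if both imaginary parts
have the same sign, `|A_(j+1) - A_j| < π` and `κ_j = 0`; if `Im w_j > 0 > Im w_(j+1)` then
`A_(j+1) - A_j ∈ (-2π, 0)` and `κ_j = 1` iff the cross product `cr_j` is positive, `κ_j = 0` iff it
is negative (it is not `0`: otherwise `w_(j+1)` would be a negative multiple of `w_j`); if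
`Im w_j < 0 < Im w_(j+1)`: `κ_j = -1` iff `cr_j < 0`, else `0`.
So `exp(-(I/2) arg(w (j+1)/w j)) = ε_j exp(-(I/2)(A_(j+1) - A_j))`, `ε_j = -1` iff `κ_j ≠ 0`;
multiply over `j` (telescoping).
-/

set_option autoImplicit false

namespace Pool.Agent.TR

open Classical in
/-- the local factor. -/
noncomputable def kp (z z' : ℂ) : ℝ :=
  if (0 < z.im ∧ z'.im < 0 ∧ 0 < z.re * z'.im - z.im * z'.re) ∨
    (z.im < 0 ∧ 0 < z'.im ∧ z.re * z'.im - z.im * z'.re < 0) then -1 else 1

namespace SGP

theorem exp_shift (a b : ℝ) (k : ℤ) (h : a = b + 2 * Real.pi * k) (s : ℝ)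
    (hs : (k = 0 ∧ s = 1) ∨ ((k = 1 ∨ k = -1) ∧ s = -1)) :
    Complex.exp (-(Complex.I / 2) * (a : ℂ)) = (s : ℂ) * Complex.exp (-(Complex.I / 2) * (b : ℂ)) := by
  subst h
  rcases hs with ⟨hk, hs⟩ | ⟨hk, hs⟩
  · subst hk; subst hs; simp
  · subst hs
    rcases hk with hk | hk <;> subst hk
    · have : (-(Complex.I / 2) * ((b + 2 * Real.pi * (1 : ℤ) : ℝ) : ℂ))
          = -(Complex.I / 2) * (b : ℂ) - Real.pi * Complex.I := by
        push_cast; ring
      rw [this, Complex.exp_sub, Complex.exp_pi_mul_I]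
      simp [div_neg]
    · have : (-(Complex.I / 2) * ((b + 2 * Real.pi * ((-1 : ℤ) : ℝ) : ℝ) : ℂ))
          = -(Complex.I / 2) * (b : ℂ) + Real.pi * Complex.I := by
        push_cast; ring
      rw [this, Complex.exp_add, Complex.exp_pi_mul_I]
      simp

theorem div_im_eq (z z' : ℂ) :
    (z' / z).im = (z.re * z'.im - z.im * z'.re) / Complex.normSq z := by
  rw [Complex.div_im]; ring

theorem key {z z' : ℂ} (hz : z.im ≠ 0) (hz' : z'.im ≠ 0) (h : z' / z ∈ Complex.slitPlane) :
    Complex.exp (-(Complex.I / 2) * ((z' / z).arg : ℂ)) =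
      (kp z z' : ℂ) * Complex.exp (-(Complex.I / 2) * ((z'.arg - z.arg : ℝ) : ℂ)) := by
  have hz0 : z ≠ 0 := by rintro rfl; simp at hz
  have hz0' : z' ≠ 0 := by rintro rfl; simp at hz'
  have hN : 0 < Complex.normSq z := Complex.normSq_pos.2 hz0
  have hpi := Real.pi_pos
  have hang := Complex.arg_div_coe_angle hz0' hz0
  rw [← Real.Angle.coe_sub] at hang
  obtain ⟨k, hk⟩ := Real.Angle.angle_eq_iff_two_pi_dvd_sub.1 hang
  have h1 := Complex.neg_pi_lt_arg (z' / z)
  have h2 : (z' / z).arg < Real.pi :=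
    lt_of_le_of_ne (Complex.arg_le_pi _) (Complex.mem_slitPlane_iff_arg.1 h).1
  have hlt : ∀ {y : ℂ}, y.im ≠ 0 → y.arg < Real.pi := fun {y} hy =>
    Complex.arg_lt_pi_iff.2 (Or.inr hy)
  have hne : ∀ {y : ℂ}, y.im ≠ 0 → y.arg ≠ 0 := fun {y} hy h0 =>
    hy (Complex.arg_eq_zero_iff.1 h0).2
  have hpos : ∀ {y : ℂ}, 0 < y.im → 0 < y.arg := fun {y} hy =>
    lt_of_le_of_ne (Complex.arg_nonneg_iff.2 hy.le) (Ne.symm (hne hy.ne'))
  have hneg : ∀ {y : ℂ}, y.im < 0 → y.arg < 0 := fun {y} hy => Complex.arg_neg_iff.2 hy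
  have ha := Complex.neg_pi_lt_arg z
  have ha' := Complex.neg_pi_lt_arg z'
  have hb := hlt hz
  have hb' := hlt hz'
  have hkk : (z' / z).arg = (z'.arg - z.arg) + 2 * Real.pi * k := by linarith
  -- bounds of k
  have hkl : (-2 : ℝ) < k := by
    by_contra hc
    push Not at hc
    have : 2 * Real.pi * k ≤ 2 * Real.pi * (-2) := by
      apply mul_le_mul_of_nonneg_left hc; positivity
    linarith
  have hku : (k : ℝ) < 2 := by
    by_contra hc
    push Not at hc
    have : 2 * Real.pi * 2 ≤ 2 * Real.pi * k := by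
      apply mul_le_mul_of_nonneg_left hc; positivity
    linarith
  have hkl' : -2 < k := by exact_mod_cast hkl
  have hku' : k < 2 := by exact_mod_cast hku
  have hk3 : k = 0 ∨ k = 1 ∨ k = -1 := by omega
  have hcr : (z' / z).im = (z.re * z'.im - z.im * z'.re) / Complex.normSq z := div_im_eq z z'
  have hcrpos : 0 < (z' / z).im ↔ 0 < z.re * z'.im - z.im * z'.re := by
    rw [hcr]; exact div_pos_iff_of_pos_right hN
  have hcrneg : (z' / z).im < 0 ↔ z.re * z'.im - z.im * z'.re < 0 := by
    rw [hcr, div_lt_iff₀ hN, zero_mul]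
  apply exp_shift _ _ k hkk
  have hz3 : 0 < z.im ∨ z.im < 0 := (lt_or_gt_of_ne hz).symm
  have hz3' : 0 < z'.im ∨ z'.im < 0 := (lt_or_gt_of_ne hz').symm
  rcases hz3 with c | c <;> rcases hz3' with c' | c'
  · have e1 := hpos c
    have e2 := hpos c'
    have hk0 : k = 0 := by
      rcases hk3 with r | r | r
      · exact r
      · exfalso; rw [r] at hkk; push_cast at hkk; linarith
      · exfalso; rw [r] at hkk; push_cast at hkk; linarith
    left
    refine ⟨hk0, ?_⟩
    unfold kp
    rw [if_neg]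
    rintro (⟨_, q, _⟩ | ⟨q, _, _⟩) <;> linarith
  · have e1 := hpos c
    have e2 := hneg c'
    rcases hk3 with r | r | r
    · left
      refine ⟨r, ?_⟩
      unfold kp
      rw [if_neg]
      rintro (⟨_, _, q⟩ | ⟨q, _, _⟩)
      · have := hpos (hcrpos.2 q)
        rw [r] at hkk; push_cast at hkk; linarith
      · linarith
    · right
      refine ⟨Or.inl r, ?_⟩
      unfold kp
      rw [if_pos]
      left
      refine ⟨c, c', hcrpos.1 ?_⟩
      by_contra hc
      push Not at hc
      rw [r] at hkk; push_cast at hkk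
      rcases hc.lt_or_eq with hc | hc
      · have := hneg hc; linarith
      · have h3 : (z' / z).arg = 0 := by
          rw [Complex.arg_eq_zero_iff]
          refine ⟨?_, hc⟩
          rcases (Complex.mem_slitPlane_iff.1 h) with h4 | h4
          · exact h4.le
          · exact absurd hc h4
        linarith
    · exfalso; rw [r] at hkk; push_cast at hkk; linarith
  · have e1 := hneg c
    have e2 := hpos c'
    rcases hk3 with r | r | r
    · left
      refine ⟨r, ?_⟩
      unfold kp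
      rw [if_neg]
      rintro (⟨q, _, _⟩ | ⟨_, _, q⟩)
      · linarith
      · have := hneg (hcrneg.2 q)
        rw [r] at hkk; push_cast at hkk; linarith
    · exfalso; rw [r] at hkk; push_cast at hkk; linarith
    · right
      refine ⟨Or.inr r, ?_⟩
      unfold kp
      rw [if_pos]
      right
      refine ⟨c, c', hcrneg.1 ?_⟩
      by_contra hc
      push Not at hc
      rw [r] at hkk; push_cast at hkk
      have : 0 ≤ (z' / z).arg := Complex.arg_nonneg_iff.2 hc
      linarith
  · have e1 := hneg c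
    have e2 := hneg c'
    have hk0 : k = 0 := by
      rcases hk3 with r | r | r
      · exact r
      · exfalso; rw [r] at hkk; push_cast at hkk; linarith
      · exfalso; rw [r] at hkk; push_cast at hkk; linarith
    left
    refine ⟨hk0, ?_⟩
    unfold kp
    rw [if_neg]
    rintro (⟨q, _, _⟩ | ⟨_, q, _⟩) <;> linarith

theorem prod {K : ℕ} {w : ℕ → ℂ} (him : ∀ j ≤ K, (w j).im ≠ 0)
    (hw : ∀ j < K, w (j + 1) / w j ∈ Complex.slitPlane) :
    Complex.exp (-(Complex.I / 2) * (rot K w : ℂ)) =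
      ((∏ j ∈ Finset.range K, kp (w j) (w (j + 1)) : ℝ) : ℂ) *
        Complex.exp (-(Complex.I / 2) * (((w K).arg - (w 0).arg : ℝ) : ℂ)) := by
  induction K with
  | zero => simp [rot]
  | succ K ih =>
    have ih' := ih (fun j hj => him j (by omega)) (fun j hj => hw j (by omega))
    have e1 : rot (K + 1) w = rot K w + (w (K + 1) / w K).arg := by
      unfold rot; rw [Finset.sum_range_succ]
    have e2 : -(Complex.I / 2) * ((rot (K + 1) w : ℝ) : ℂ) =
        -(Complex.I / 2) * (rot K w : ℂ) + -(Complex.I / 2) * ((w (K + 1) / w K).arg : ℂ) := by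
      rw [e1]; push_cast; ring
    have e3 : -(Complex.I / 2) * (((w (K + 1)).arg - (w 0).arg : ℝ) : ℂ) =
        -(Complex.I / 2) * (((w K).arg - (w 0).arg : ℝ) : ℂ) +
        -(Complex.I / 2) * (((w (K + 1)).arg - (w K).arg : ℝ) : ℂ) := by
      push_cast; ring
    rw [e2, e3, Complex.exp_add, Complex.exp_add, ih', key (him K (by omega)) (him (K + 1) le_rfl)
      (hw K (by omega)), Finset.prod_range_succ]
    push_cast
    ring

end SGP

theorem sg_parity {m K : ℕ} {w : ℕ → ℂ} (him : ∀ j ≤ K, (w j).im ≠ 0)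
    (hw : ∀ j < K, w (j + 1) / w j ∈ Complex.slitPlane) :
    sg m K w = (∏ j ∈ Finset.range K, kp (w j) (w (j + 1))) *
      (Complex.I ^ (m - 1) *
        Complex.exp (-(Complex.I / 2) * (((w K).arg - (w 0).arg : ℝ) : ℂ))).re := by
  unfold sg
  rw [SGP.prod him hw, ← Complex.re_ofReal_mul]
  congr 1
  ring

end Pool.Agent.TR
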