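import Pool.Agent.Helper65.TR.STA

/-!
# TRL STC : the solution at `ε = 0`

PROOFS. `0 ^ 0 = 1`, so at `ε = 0` only the terms with `dx = 0` (`dy = 0`) survive:
α-step `i`, `(k, l) = (α i, be i)`: `R1 c = c^k X_k + c^(k+1) X_(k+1)`, `R2 c = c^l Y_l`;
β-step: `R1 c = c^k X_k`, `R2 c = c^l Y_l + c^(l+1) Y_(l+1)`.
`z0` exists: define `X_0 = 1`, `X_(k+1) = - X_k (2^l - 2^k)/(2^l - 2^(k+1))` with `l = be s`, `s` the
α-step with `α s = k` (`l > k + 1` because `2 α (s+1) ≤ s + 1`), and `Y_(n+1) = (-1)^(n+1)`,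
`Y_l = - Y_(l+1) (2^(l+1) - 2^k)/(2^l - 2^k)` with `k = α s`, `s` the β-step with `be s = l`.
`rel` says `GG n α 0 z0 i = 0` in explicit form.
-/

set_option autoImplicit false

namespace Pool.Agent.TR

/-- the product over the β-steps. -/
def sB (n : ℕ) (α : ℕ → ℕ) : ℝ :=
  ∏ s ∈ Finset.range (2 * n), if α (s + 1) = α s then (-1 : ℝ) ^ (n - α s) else 1

private theorem stc_mono {n : ℕ} {α : ℕ → ℕ} (hα : IsP n α) {i j : ℕ} (hij : i ≤ j)
    (hj : j ≤ 2 * n) : α i ≤ α j ∧ α j ≤ α i + (j - i) := by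
  induction j, hij using Nat.le_induction with
  | base => simp
  | succ j hij ih =>
    have h1 := ih (by omega)
    rcases hα.2.1 j (by omega) with h | h
    · rw [h]; exact ⟨h1.1, by omega⟩
    · rw [h]; exact ⟨by omega, by omega⟩

private theorem stc_a {n : ℕ} {α : ℕ → ℕ} (hα : IsP n α) {i : ℕ} (hi : i < 2 * n)
    (h : α (i + 1) = α i + 1) : α i + 1 ≤ n ∧ α i + 1 < be α i := by
  have h1 := (stc_mono hα (show i + 1 ≤ 2 * n by omega) le_rfl).1
  have h2 := hα.2.2.2 (i + 1) (by omega)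
  have h3 := hα.2.2.1
  unfold be
  omega

private theorem stc_b {n : ℕ} {α : ℕ → ℕ} (hα : IsP n α) {i : ℕ} (hi : i < 2 * n)
    (h : α (i + 1) = α i) : be α i ≤ n ∧ α i < be α i ∧ 1 ≤ be α i := by
  have h1 := (stc_mono hα (show i + 1 ≤ 2 * n by omega) le_rfl).2
  have h2 := hα.2.2.2 i (by omega)
  have h3 := hα.2.2.1
  unfold be
  omega

private theorem stc_ua {n : ℕ} {α : ℕ → ℕ} (hα : IsP n α) {i s : ℕ} (hi : i < 2 * n)
    (hs : s < 2 * n) (h : α (i + 1) = α i + 1) (h' : α (s + 1) = α s + 1) (he : α i = α s) :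
    i = s := by
  rcases lt_trichotomy i s with hlt | heq | hlt
  · have := (stc_mono hα (show i + 1 ≤ s by omega) (by omega)).1
    omega
  · exact heq
  · have := (stc_mono hα (show s + 1 ≤ i by omega) (by omega)).1
    omega

private theorem stc_ub {n : ℕ} {α : ℕ → ℕ} (hα : IsP n α) {i s : ℕ} (hi : i < 2 * n)
    (hs : s < 2 * n) (h : α (i + 1) = α i) (h' : α (s + 1) = α s) (he : be α i = be α s) :
    i = s := by
  have b1 := hα.2.2.2 i (by omega)
  have b2 := hα.2.2.2 s (by omega)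
  unfold be at he
  rcases lt_trichotomy i s with hlt | heq | hlt
  · have := (stc_mono hα (show i + 1 ≤ s by omega) (by omega)).2
    omega
  · exact heq
  · have := (stc_mono hα (show s + 1 ≤ i by omega) (by omega)).2
    omega

open Classical in
/-- ratio of consecutive `X` (up to sign). -/
private noncomputable def stcA (n : ℕ) (α : ℕ → ℕ) (k : ℕ) : ℝ :=
  if h : ∃ s, s < 2 * n ∧ α (s + 1) = α s + 1 ∧ α s = k then
    ((2 : ℝ) ^ be α (Classical.choose h) - 2 ^ k) / (2 ^ be α (Classical.choose h) - 2 ^ (k + 1))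
  else 1

open Classical in
private noncomputable def stcB (n : ℕ) (α : ℕ → ℕ) (l : ℕ) : ℝ :=
  if h : ∃ s, s < 2 * n ∧ α (s + 1) = α s ∧ be α s = l then
    ((2 : ℝ) ^ (l + 1) - 2 ^ α (Classical.choose h)) / (2 ^ l - 2 ^ α (Classical.choose h))
  else 1

private theorem stcA_pos {n : ℕ} {α : ℕ → ℕ} (hα : IsP n α) (k : ℕ) : 0 < stcA n α k := by
  unfold stcA
  split_ifs with h
  · obtain ⟨h1, h2, h3⟩ := Classical.choose_spec h
    have h4 := stc_a hα h1 h2
    rw [h3] at h4
    have e1 : (2 : ℝ) ^ (k + 1) < 2 ^ be α (Classical.choose h) :=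
      pow_lt_pow_right₀ (by norm_num) h4.2
    have e2 : (2 : ℝ) ^ k < 2 ^ be α (Classical.choose h) :=
      pow_lt_pow_right₀ (by norm_num) (by omega)
    exact div_pos (by linarith) (by linarith)
  · exact one_pos

private theorem stcB_pos {n : ℕ} {α : ℕ → ℕ} (hα : IsP n α) (l : ℕ) : 0 < stcB n α l := by
  unfold stcB
  split_ifs with h
  · obtain ⟨h1, h2, h3⟩ := Classical.choose_spec h
    have h4 := stc_b hα h1 h2
    rw [h3] at h4
    have e1 : (2 : ℝ) ^ α (Classical.choose h) < 2 ^ l :=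
      pow_lt_pow_right₀ (by norm_num) h4.2.1
    have e2 : (2 : ℝ) ^ α (Classical.choose h) < 2 ^ (l + 1) :=
      pow_lt_pow_right₀ (by norm_num) (by omega)
    exact div_pos (by linarith) (by linarith)
  · exact one_pos

private theorem stcA_eq {n : ℕ} {α : ℕ → ℕ} (hα : IsP n α) {i : ℕ} (hi : i < 2 * n)
    (h : α (i + 1) = α i + 1) :
    stcA n α (α i) * (2 ^ be α i - 2 ^ (α i + 1)) = 2 ^ be α i - 2 ^ α i := by
  have hex : ∃ s, s < 2 * n ∧ α (s + 1) = α s + 1 ∧ α s = α i := ⟨i, hi, h, rfl⟩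
  obtain ⟨h1, h2, h3⟩ := Classical.choose_spec hex
  have hs : Classical.choose hex = i := stc_ua hα h1 hi h2 h h3
  have e1 : (2 : ℝ) ^ (α i + 1) < 2 ^ be α i :=
    pow_lt_pow_right₀ (by norm_num) (stc_a hα hi h).2
  unfold stcA
  rw [dif_pos hex, hs]
  have e2 : (2 : ℝ) ^ be α i - 2 ^ (α i + 1) ≠ 0 := by linarith
  exact div_mul_cancel₀ _ e2

private theorem stcB_eq {n : ℕ} {α : ℕ → ℕ} (hα : IsP n α) {i : ℕ} (hi : i < 2 * n)
    (h : α (i + 1) = α i) :
    stcB n α (be α i) * (2 ^ be α i - 2 ^ α i) = 2 ^ (be α i + 1) - 2 ^ α i := by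
  have hex : ∃ s, s < 2 * n ∧ α (s + 1) = α s ∧ be α s = be α i := ⟨i, hi, h, rfl⟩
  obtain ⟨h1, h2, h3⟩ := Classical.choose_spec hex
  have hs : Classical.choose hex = i := stc_ub hα h1 hi h2 h h3
  have e1 : (2 : ℝ) ^ α i < 2 ^ be α i :=
    pow_lt_pow_right₀ (by norm_num) (stc_b hα hi h).2.1
  unfold stcB
  rw [dif_pos hex, hs]
  have e2 : (2 : ℝ) ^ be α i - 2 ^ α i ≠ 0 := by linarith
  exact div_mul_cancel₀ _ e2

private noncomputable def stcX (n : ℕ) (α : ℕ → ℕ) (j : ℕ) : ℝ :=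
  (-1) ^ j * ∏ k ∈ Finset.range j, stcA n α k

private noncomputable def stcY (n : ℕ) (α : ℕ → ℕ) (l : ℕ) : ℝ :=
  (-1) ^ l * ∏ k ∈ Finset.Ico l (n + 1), stcB n α k

private noncomputable def stcZ (n : ℕ) (α : ℕ → ℕ) : Fin (2 * n) → ℝ := fun c =>
  if (c : ℕ) < n then stcX n α (c + 1) else stcY n α (c - n + 1)

private theorem stc_XX {n : ℕ} {α : ℕ → ℕ} {j : ℕ} (hj : j ≤ n) :
    XX (stcZ n α) j = stcX n α j := by
  unfold XX
  split_ifs with h0 h1
  · subst h0; simp [stcX]
  · have h2 : j - 1 < n := by omega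
    simp only [stcZ, h2, if_true]
    congr 1
    omega
  · omega

private theorem stc_YY {n : ℕ} {α : ℕ → ℕ} {l : ℕ} (hl : 1 ≤ l) (hln : l ≤ n + 1) :
    YY (stcZ n α) l = stcY n α l := by
  unfold YY
  split_ifs with h0 h1
  · have h2 : ¬ (n + l - 1 < n) := by omega
    simp only [stcZ, h2, if_false]
    congr 1
    omega
  · subst h1; simp [stcY]
  · omega

theorem z0_exists {n : ℕ} {α : ℕ → ℕ} (hα : IsP n α) : ∃ z0 : Fin (2 * n) → ℝ,
    (∀ j ≤ n, 0 < (-1 : ℝ) ^ j * XX z0 j) ∧ (∀ l, 1 ≤ l → l ≤ n + 1 → 0 < (-1 : ℝ) ^ l * YY z0 l) ∧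
    ∀ i < 2 * n,
      (α (i + 1) = α i + 1 → XX z0 (α i) * (2 ^ be α i - 2 ^ α i) +
        XX z0 (α i + 1) * (2 ^ be α i - 2 ^ (α i + 1)) = 0) ∧
      (α (i + 1) = α i → YY z0 (be α i) * (2 ^ be α i - 2 ^ α i) +
        YY z0 (be α i + 1) * (2 ^ (be α i + 1) - 2 ^ α i) = 0) := by
  have hsq : ∀ j : ℕ, (-1 : ℝ) ^ j * (-1) ^ j = 1 := by
    intro j
    rw [← mul_pow]; norm_num
  refine ⟨stcZ n α, ?_, ?_, ?_⟩
  · intro j hj
    rw [stc_XX hj, stcX, ← mul_assoc, hsq, one_mul]
    exact Finset.prod_pos fun k _ => stcA_pos hα k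
  · intro l hl hln
    rw [stc_YY hl hln, stcY, ← mul_assoc, hsq, one_mul]
    exact Finset.prod_pos fun k _ => stcB_pos hα k
  · intro i hi
    constructor
    · intro h
      obtain ⟨h1, h2⟩ := stc_a hα hi h
      have e := stcA_eq hα hi h
      rw [stc_XX (by omega), stc_XX h1]
      have e2 : stcX n α (α i + 1) = - (stcX n α (α i) * stcA n α (α i)) := by
        simp only [stcX, Finset.prod_range_succ, pow_succ]
        ring
      rw [e2, ← e]
      ring
    · intro h
      obtain ⟨h1, h2, h3⟩ := stc_b hα hi h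
      have e := stcB_eq hα hi h
      rw [stc_YY h3 (by omega), stc_YY (by omega) (by omega)]
      have e2 : stcY n α (be α i) = - (stcY n α (be α i + 1) * stcB n α (be α i)) := by
        simp only [stcY]
        rw [Finset.prod_eq_prod_Ico_succ_bot (by omega : be α i < n + 1), pow_succ]
        ring
      rw [e2, ← e]
      ring

/-- values at `ε = 0`. -/
theorem R1_zero {n : ℕ} {α : ℕ → ℕ} (hα : IsP n α) {i : ℕ} (hi : i < 2 * n) (c : ℝ)
    (z : Fin (2 * n) → ℝ) : R1 n α c 0 z i = c ^ α i * XX z (α i) +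
      (if α (i + 1) = α i + 1 then c ^ (α i + 1) * XX z (α i + 1) else 0) := by
  have hai : α i ≤ n := by
    have := (stc_mono hα (show i ≤ 2 * n by omega) le_rfl).1
    rw [hα.2.2.1] at this
    exact this
  have hstep : ∀ j ∈ Finset.range (n + 1), c ^ j * XX z j * (0 : ℝ) ^ dx n α i j =
      (if j = α i then c ^ j * XX z j else 0) +
        (if j = α i + 1 then
          (if α (i + 1) = α i + 1 then c ^ j * XX z j else 0) else 0) := by
    intro j hj
    have hj' : j ≤ n := by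
      rw [Finset.mem_range] at hj
      omega
    have hd := dx_zero hα hi hj'
    by_cases h1 : j = α i
    · have h2 : j ≠ α i + 1 := by omega
      rw [hd.mpr (Or.inl h1), if_pos h1, if_neg h2, pow_zero, mul_one, add_zero]
    · by_cases h2 : j = α i + 1
      · by_cases h3 : α (i + 1) = α i + 1
        · rw [hd.mpr (Or.inr ⟨h2, h3⟩), if_neg h1, if_pos h2, if_pos h3, pow_zero, mul_one,
            zero_add]
        · have h4 : dx n α i j ≠ 0 := by
            intro h
            rcases hd.mp h with h | h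
            · exact h1 h
            · exact h3 h.2
          rw [zero_pow h4, if_neg h1, if_pos h2, if_neg h3, mul_zero, add_zero]
      · have h4 : dx n α i j ≠ 0 := by
          intro h
          rcases hd.mp h with h | h
          · exact h1 h
          · exact h2 h.1
        rw [zero_pow h4, if_neg h1, if_neg h2, mul_zero, add_zero]
  rw [R1, Finset.sum_congr rfl hstep, Finset.sum_add_distrib, Finset.sum_ite_eq' (Finset.range _),
    if_pos (Finset.mem_range.mpr (by omega)), Finset.sum_ite_eq' (Finset.range _)]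
  congr 1
  by_cases h3 : α (i + 1) = α i + 1
  · have := (stc_a hα hi h3).1
    rw [if_pos (Finset.mem_range.mpr (by omega))]
  · rw [if_neg h3]
    split_ifs <;> rfl

theorem R2_zero {n : ℕ} {α : ℕ → ℕ} (hα : IsP n α) {i : ℕ} (hi : i < 2 * n) (c : ℝ)
    (z : Fin (2 * n) → ℝ) : R2 n α c 0 z i = c ^ be α i * YY z (be α i) +
      (if α (i + 1) = α i then c ^ (be α i + 1) * YY z (be α i + 1) else 0) := by
  have hbi : 1 ≤ be α i ∧ be α i ≤ n + 1 := by
    have h1 := (stc_mono hα (show i ≤ 2 * n by omega) le_rfl).2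
    have h2 := hα.2.2.2 i (by omega)
    rw [hα.2.2.1] at h1
    unfold be
    omega
  have hstep : ∀ l ∈ Finset.Icc 1 (n + 1), c ^ l * YY z l * (0 : ℝ) ^ dy n α i l =
      (if l = be α i then c ^ l * YY z l else 0) +
        (if l = be α i + 1 then
          (if α (i + 1) = α i then c ^ l * YY z l else 0) else 0) := by
    intro l hl
    rw [Finset.mem_Icc] at hl
    have hd := dy_zero hα hi hl.1 hl.2
    by_cases h1 : l = be α i
    · have h2 : l ≠ be α i + 1 := by omega
      rw [hd.mpr (Or.inl h1), if_pos h1, if_neg h2, pow_zero, mul_one, add_zero]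
    · by_cases h2 : l = be α i + 1
      · by_cases h3 : α (i + 1) = α i
        · rw [hd.mpr (Or.inr ⟨h2, h3⟩), if_neg h1, if_pos h2, if_pos h3, pow_zero, mul_one,
            zero_add]
        · have h4 : dy n α i l ≠ 0 := by
            intro h
            rcases hd.mp h with h | h
            · exact h1 h
            · exact h3 h.2
          rw [zero_pow h4, if_neg h1, if_pos h2, if_neg h3, mul_zero, add_zero]
      · have h4 : dy n α i l ≠ 0 := by
          intro h
          rcases hd.mp h with h | h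
          · exact h1 h
          · exact h2 h.1
        rw [zero_pow h4, if_neg h1, if_neg h2, mul_zero, add_zero]
  rw [R2, Finset.sum_congr rfl hstep, Finset.sum_add_distrib, Finset.sum_ite_eq' (Finset.Icc _ _),
    if_pos (Finset.mem_Icc.mpr hbi), Finset.sum_ite_eq' (Finset.Icc _ _)]
  congr 1
  by_cases h3 : α (i + 1) = α i
  · have := (stc_b hα hi h3).1
    rw [if_pos (Finset.mem_Icc.mpr (by omega))]
  · rw [if_neg h3]
    split_ifs <;> rfl

end Pool.Agent.TR
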