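import Pool.Agent.Helper65.TR.STB
import Pool.Agent.Helper65.TR.STC
import Pool.Agent.Helper65.TR.SGP
import Pool.Agent.Helper65.TR.GOOD

/-!
# TRL STE : the twisted sign of the start solutions

Statement: for `z` close to `z0` and small `ε > 0` such that `uz n α ε z` is a solution, the first
gap is positive and the twisted sign is `σ1(n) * sB n α`.

PROOF. Let `w_j = wv (uz n α ε z) (ext ..) j`.  By `val_x`, `val_y` the signs of `Re w_j`, `Im w_j`
(`j = 2 i + b < 4 n`) are those of `R1`, `R2` at `(c, ε, z, i)`, `c = 1` or `2`, which are close to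
the values at `(c, 0, z0, i)` (`R1_zero`, `R2_zero`), which are nonzero.  Let `k = α i`, `l = be i`.
β-step `i` (`Y_(l+1) ≠ 0`): `R2 1 0 = Y_l + Y_(l+1)` and `R2 2 0 = 2^l (Y_l + 2 Y_(l+1))`; with
`Y_l = - Y_(l+1) (2^(l+1) - 2^k)/(2^l - 2^k)`: `Y_l + Y_(l+1) = - Y_(l+1) 2^l / (2^l - 2^k)`,
`Y_l + 2 Y_(l+1) = - Y_(l+1) 2^k/(2^l - 2^k)`; so the sign is that of `Y_l`, i.e. `(-1)^l`;
α-step: `R2 c 0 = c^l Y_l`, sign `(-1)^l`.  So in all cases
(I) `(-1)^(be i) Im w_j > 0` for `j = 2 i, 2 i + 1`.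
α-step: `X_k + X_(k+1) = - X_k 2^k/(2^l - 2^(k+1))`, `X_k + 2 X_(k+1) = - X_k 2^l/(2^l - 2^(k+1))`,
sign of `X_(k+1)`; β-step: sign of `X_k`.  So
(R) `(-1)^(α (i+1)) Re w_j > 0` for `j = 2 i, 2 i + 1`.
Cross products `cr_j = Re w_j Im w_(j+1) - Im w_j Re w_(j+1)`: `cr_(2i) = 0` (solution).  For
`j = 2 i + 1`, `i + 1 < 2 n`: by `val_x`, `val_y` the first product has the factor
`ε^(ee(α i) - i α i + ff(be (i+1)) - (i+1) be (i+1))` and the second one
`ε^(ff(be i) - i be i + ee(α (i+1)) - (i+1) α (i+1))`; the difference of the exponents (second minus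
first) is `be (i+1) - α (i+1) ≥ 1` (`ee (α (i+1)) - (i+1) α(i+1) - (ee (α i) - i α i) = - α (i+1)`,
and the same for `ff`, `be`: by cases on the step `i`).  So for small `ε` the first product
dominates and by (I), (R)
(C) `(-1)^(α (i+1) + be (i+1)) cr_(2i+1) > 0`, i.e. `(-1)^i cr_(2i+1) > 0`
(`α (i+1) + be (i+1) = i + 2`), `i + 1 < 2 n`.  In particular `cr_1 > 0`: the first gap is positive.
`cr_(4n-1) < 0` by `good_alt` (the solution is linearly independent, `X_(2n-1) X_0 < 0` as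
`2 n - 1` is odd; `X_i X_(i+1) < 0`).
Now `sg_parity` (`K = 4 n`; `Im w_(4n) = (-1)^(n+1) Im w_0 ≠ 0`): the factor `kp (w_j) (w_(j+1))` is
`1` for even `j` (equal signs of `Im`); for `j = 2 i + 1`, `i + 1 < 2 n`: it is `1` if step `i` is an
α-step (`be (i+1) = be i`); for a β-step `Im` changes from the sign `(-1)^(be i)` to the opposite,
and `kp = -1` iff (`be i` even and `i` even) or (`be i` odd and `i` odd) iff `be i + i` is even iff
`α i` is odd (`α i + be i = i + 1`), so `kp = (-1)^(α i)`.  For `j = 4 n - 1`: `be (2n-1) = n + 1`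
(the last step is an α-step), `Im w_(4n)` has the sign `(-1)^(n+1) (-1)^(be 0) = (-1)^n`: it
changes from `(-1)^(n+1)` to `(-1)^n`, the cross product is negative: `kp = -1` iff `n + 1` is odd,
a constant.  Product over the β-steps: `∏ (-1)^(α s) = ∏ (-1)^(n - α s) (-1)^n = sB (-1)^(n n)`.
The last factor of `sg_parity`: `Im w_0 < 0`, `w_(4n) = (-1)^(n+1) w_0`: `arg w_(4n) - arg w_0` is
`0` or `π`: a constant depending only on `n`; it is `± 1`.  So the twisted sign is
`σ1(n) sB n α`.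
-/

set_option autoImplicit false

open Topology

namespace Pool.Agent.TR

theorem ste_cont_XX {n : ℕ} (j : ℕ) : Continuous fun z : Fin (2 * n) → ℝ => XX z j := by
  unfold XX
  split_ifs with h1 h2
  · exact continuous_const
  · exact continuous_apply _
  · exact continuous_const

theorem ste_cont_YY {n : ℕ} (j : ℕ) : Continuous fun z : Fin (2 * n) → ℝ => YY z j := by
  unfold YY
  split_ifs with h1 h2
  · exact continuous_apply _
  · exact continuous_const
  · exact continuous_const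

theorem ste_cont_R1 {n : ℕ} (α : ℕ → ℕ) (c : ℝ) (i : ℕ) :
    Continuous fun p : ℝ × (Fin (2 * n) → ℝ) => R1 n α c p.1 p.2 i := by
  unfold R1
  refine continuous_finsetSum _ fun j _ => ?_
  exact (continuous_const.mul ((ste_cont_XX j).comp continuous_snd)).mul
    (continuous_fst.pow _)

theorem ste_cont_R2 {n : ℕ} (α : ℕ → ℕ) (c : ℝ) (i : ℕ) :
    Continuous fun p : ℝ × (Fin (2 * n) → ℝ) => R2 n α c p.1 p.2 i := by
  unfold R2
  refine continuous_finsetSum _ fun j _ => ?_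
  exact (continuous_const.mul ((ste_cont_YY j).comp continuous_snd)).mul
    (continuous_fst.pow _)

/-- basic bounds for the paths. -/
theorem ste_al_le {n : ℕ} {α : ℕ → ℕ} (hα : IsP n α) {i : ℕ} (hi : i ≤ 2 * n) :
    2 * α i ≤ i ∧ i ≤ α i + n ∧ α i ≤ n := by
  obtain ⟨h0, h1, h2, h3⟩ := hα
  have key : ∀ k, k ≤ 2 * n → 2 * n - k ≤ α (2 * n - k) + n ∧ α (2 * n - k) ≤ n := by
    intro k
    induction k with
    | zero =>
      intro _
      simp only [Nat.sub_zero]
      omega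
    | succ k ih =>
      intro hk
      have := ih (by omega)
      have h4 := h1 (2 * n - (k + 1)) (by omega)
      have h5 : 2 * n - (k + 1) + 1 = 2 * n - k := by omega
      rw [h5] at h4
      omega
  have := key (2 * n - i) (by omega)
  have h6 : 2 * n - (2 * n - i) = i := by omega
  rw [h6] at this
  exact ⟨h3 i hi, this.1, this.2⟩

theorem ste_R2_pos {n : ℕ} {α : ℕ → ℕ} (hα : IsP n α) {z0 : Fin (2 * n) → ℝ}
    (h2 : ∀ l, 1 ≤ l → l ≤ n + 1 → 0 < (-1 : ℝ) ^ l * YY z0 l)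
    (h3 : ∀ i < 2 * n,
      (α (i + 1) = α i + 1 → XX z0 (α i) * (2 ^ be α i - 2 ^ α i) +
        XX z0 (α i + 1) * (2 ^ be α i - 2 ^ (α i + 1)) = 0) ∧
      (α (i + 1) = α i → YY z0 (be α i) * (2 ^ be α i - 2 ^ α i) +
        YY z0 (be α i + 1) * (2 ^ (be α i + 1) - 2 ^ α i) = 0))
    {i : ℕ} (hi : i < 2 * n) (b : Bool) :
    0 < (-1 : ℝ) ^ (be α i) * R2 n α (if b then 2 else 1) 0 z0 i := by
  have hb := ste_al_le hα (le_of_lt hi)
  have hl1 : 1 ≤ be α i := by unfold be; omega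
  have hl2 : be α i ≤ n + 1 := by unfold be; omega
  have hkl : α i < be α i := by unfold be; omega
  have hY := h2 _ hl1 hl2
  rw [R2_zero hα hi]
  have hc : (0 : ℝ) < (if b then 2 else 1 : ℝ) ^ be α i := by
    apply pow_pos
    split_ifs <;> norm_num
  by_cases hs : α (i + 1) = α i
  · rw [if_pos hs]
    have hr := (h3 i hi).2 hs
    have hp : (2 : ℝ) ^ α i < 2 ^ be α i := pow_lt_pow_right₀ (by norm_num) hkl
    have hpk : (0 : ℝ) < 2 ^ α i := by positivity
    have hpl : (0 : ℝ) < 2 ^ be α i := by positivity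
    have hd : (0 : ℝ) < 2 ^ (be α i + 1) - 2 ^ α i := by
      rw [pow_succ]; linarith
    have hd' : (2 : ℝ) ^ (be α i + 1) = 2 * 2 ^ be α i := by rw [pow_succ]; ring
    rw [← mul_pos_iff_of_pos_right hd]
    cases b
    · simp only [Bool.false_eq_true, if_false, one_pow, one_mul]
      have : (-1 : ℝ) ^ be α i * (YY z0 (be α i) + YY z0 (be α i + 1)) *
          (2 ^ (be α i + 1) - 2 ^ α i) = 2 ^ be α i * ((-1 : ℝ) ^ be α i * YY z0 (be α i)) := by
        have e : (YY z0 (be α i) + YY z0 (be α i + 1)) * (2 ^ (be α i + 1) - 2 ^ α i) =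
            2 ^ be α i * YY z0 (be α i) := by
          rw [hd'] at hr ⊢
          linear_combination hr
        linear_combination ((-1 : ℝ) ^ be α i) * e
      rw [this]
      exact mul_pos hpl hY
    · simp only [if_true]
      have : (-1 : ℝ) ^ be α i * (2 ^ be α i * YY z0 (be α i) +
          2 ^ (be α i + 1) * YY z0 (be α i + 1)) *
          (2 ^ (be α i + 1) - 2 ^ α i) =
          2 ^ be α i * 2 ^ α i * ((-1 : ℝ) ^ be α i * YY z0 (be α i)) := by
        have e : (2 ^ be α i * YY z0 (be α i) + 2 ^ (be α i + 1) * YY z0 (be α i + 1)) *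
            (2 ^ (be α i + 1) - 2 ^ α i) = 2 ^ be α i * 2 ^ α i * YY z0 (be α i) := by
          rw [hd'] at hr ⊢
          linear_combination (2 * 2 ^ be α i) * hr
        linear_combination ((-1 : ℝ) ^ be α i) * e
      rw [this]
      exact mul_pos (mul_pos hpl hpk) hY
  · rw [if_neg hs, add_zero]
    have : (-1 : ℝ) ^ be α i * ((if b then 2 else 1 : ℝ) ^ be α i * YY z0 (be α i)) =
      (if b then 2 else 1 : ℝ) ^ be α i * ((-1 : ℝ) ^ be α i * YY z0 (be α i)) := by ring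
    rw [this]
    exact mul_pos hc hY

theorem ste_prod_pair (f : ℕ → ℝ) (N : ℕ) :
    ∏ j ∈ Finset.range (2 * N), f j = ∏ i ∈ Finset.range N, (f (2 * i) * f (2 * i + 1)) := by
  induction N with
  | zero => simp
  | succ N ih =>
    rw [Finset.prod_range_succ, ← ih, show 2 * (N + 1) = 2 * N + 1 + 1 from by ring,
      Finset.prod_range_succ, Finset.prod_range_succ, mul_assoc]

/-- sign rule for `kp`. -/
theorem ste_kp {z z' : ℂ} {p q r : ℕ} (h1 : 0 < (-1 : ℝ) ^ p * z.im)
    (h2 : 0 < (-1 : ℝ) ^ q * z'.im)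
    (h3 : 0 < (-1 : ℝ) ^ r * (z.re * z'.im - z.im * z'.re)) :
    kp z z' = if (Even p ∧ ¬ Even q ∧ Even r) ∨ (¬ Even p ∧ Even q ∧ ¬ Even r)
      then -1 else 1 := by
  have key : ∀ (s : ℕ) (x : ℝ), 0 < (-1 : ℝ) ^ s * x → ((0 < x ↔ Even s) ∧ (x < 0 ↔ ¬ Even s)) := by
    intro s x hx
    rcases Nat.even_or_odd s with h | h
    · rw [h.neg_one_pow, one_mul] at hx
      refine ⟨⟨fun _ => h, fun _ => hx⟩, ⟨fun h' => absurd h' (not_lt.mpr hx.le),
        fun h' => absurd h h'⟩⟩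
    · rw [h.neg_one_pow, neg_one_mul, neg_pos] at hx
      have h'' : ¬ Even s := Nat.not_even_iff_odd.mpr h
      refine ⟨⟨fun h' => absurd h' (not_lt.mpr hx.le), fun h' => absurd h' h''⟩,
        ⟨fun _ => h'', fun _ => hx⟩⟩
  unfold kp
  simp only [(key p _ h1).1, (key p _ h1).2, (key q _ h2).1, (key q _ h2).2,
    (key r _ h3).1, (key r _ h3).2]

theorem ste_kp_same {z z' : ℂ} {p : ℕ} (h1 : 0 < (-1 : ℝ) ^ p * z.im)
    (h2 : 0 < (-1 : ℝ) ^ p * z'.im) : kp z z' = 1 := by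
  unfold kp
  rw [if_neg]
  have h : 0 < z.im * z'.im := by
    have := mul_pos h1 h2
    have e : (-1 : ℝ) ^ p * z.im * ((-1 : ℝ) ^ p * z'.im) = z.im * z'.im := by
      have : (-1 : ℝ) ^ p * (-1 : ℝ) ^ p = 1 := by
        rw [← mul_pow]; norm_num
      linear_combination (z.im * z'.im) * this
    rwa [e] at this
  rintro (⟨a, b, _⟩ | ⟨a, b, _⟩)
  · exact absurd h (not_lt.mpr (mul_neg_of_pos_of_neg a b).le)
  · exact absurd h (not_lt.mpr (mul_neg_of_neg_of_pos a b).le)


theorem ste_L (n : ℕ) : (Complex.I ^ (n + 2 - 1) * Complex.exp (-(Complex.I / 2) *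
      ((if Even n then Real.pi else 0 : ℝ) : ℂ))).re = 1 ∨
    (Complex.I ^ (n + 2 - 1) * Complex.exp (-(Complex.I / 2) *
      ((if Even n then Real.pi else 0 : ℝ) : ℂ))).re = -1 := by
  have hI : ∀ k : ℕ, Complex.I ^ (2 * k) = (((-1 : ℝ) ^ k : ℝ) : ℂ) := by
    intro k
    rw [pow_mul, Complex.I_sq]
    push_cast
    rfl
  rcases Nat.even_or_odd' n with ⟨k, hk | hk⟩
  · have h1 : n + 2 - 1 = 2 * k + 1 := by omega
    have h2 : Even n := ⟨k, by omega⟩
    rw [if_pos h2, h1, pow_succ, hI]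
    have h3 : Complex.exp (-(Complex.I / 2) * (Real.pi : ℂ)) = -Complex.I := by
      have e : -(Complex.I / 2) * (Real.pi : ℂ) = ((-(Real.pi / 2) : ℝ) : ℂ) * Complex.I := by
        push_cast
        ring
      rw [e, Complex.exp_mul_I, ← Complex.ofReal_cos, ← Complex.ofReal_sin]
      simp
    rw [h3]
    have h4 : (((-1 : ℝ) ^ k : ℝ) : ℂ) * Complex.I * -Complex.I = (((-1 : ℝ) ^ k : ℝ) : ℂ) := by
      linear_combination (-(((-1 : ℝ) ^ k : ℝ) : ℂ)) * Complex.I_sq
    rw [h4, Complex.ofReal_re]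
    exact neg_one_pow_eq_or ℝ k
  · have h1 : n + 2 - 1 = 2 * (k + 1) := by omega
    have h2 : ¬ Even n := by
      rw [Nat.not_even_iff_odd]
      exact ⟨k, hk⟩
    rw [if_neg h2, h1, hI]
    simp only [Complex.ofReal_zero, mul_zero, Complex.exp_zero, mul_one, Complex.ofReal_re]
    exact neg_one_pow_eq_or ℝ (k + 1)

theorem ste_li {m : ℕ} {u : Fin 2 → Fin m → ℝ} {x y : Fin m → ℝ} (h : om u x y ≠ 0) :
    LinearIndependent ℝ u := by
  rw [Fintype.linearIndependent_iff]
  intro g hg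
  rw [Fin.sum_univ_two] at hg
  have hx : g 0 * (u 0 ⬝ᵥ x) + g 1 * (u 1 ⬝ᵥ x) = 0 := by
    have := congrArg (fun v => v ⬝ᵥ x) hg
    simpa [add_dotProduct, smul_dotProduct] using this
  have hy : g 0 * (u 0 ⬝ᵥ y) + g 1 * (u 1 ⬝ᵥ y) = 0 := by
    have := congrArg (fun v => v ⬝ᵥ y) hg
    simpa [add_dotProduct, smul_dotProduct] using this
  have h0 : g 0 * om u x y = 0 := by
    unfold om
    linear_combination (u 1 ⬝ᵥ y) * hx - (u 1 ⬝ᵥ x) * hy
  have h1 : g 1 * om u x y = 0 := by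
    unfold om
    linear_combination (-(u 0 ⬝ᵥ y)) * hx + (u 0 ⬝ᵥ x) * hy
  intro i
  fin_cases i
  · exact (mul_eq_zero.mp h0).resolve_right h
  · exact (mul_eq_zero.mp h1).resolve_right h

/-- number of the β-steps. -/
theorem ste_count {n : ℕ} {α : ℕ → ℕ} (hα : IsP n α) (c : ℝ) (k : ℕ) (hk : k ≤ 2 * n) :
    ∏ s ∈ Finset.range k, (if α (s + 1) = α s then c else 1) = c ^ (k - α k) := by
  induction k with
  | zero => simp
  | succ k ih =>
    rw [Finset.prod_range_succ, ih (by omega)]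
    have h1 := hα.2.1 k (by omega)
    have h2 := (ste_al_le hα (i := k) (by omega)).1
    rcases h1 with h | h
    · rw [if_pos h, ← pow_succ]
      congr 1
      omega
    · rw [if_neg (by omega), mul_one]
      congr 1
      omega

theorem ste_sB {n : ℕ} {α : ℕ → ℕ} (hα : IsP n α) :
    ∏ s ∈ Finset.range (2 * n), (if α (s + 1) = α s then (-1 : ℝ) ^ α s else 1) =
      (-1) ^ n * sB n α := by
  have h := ste_count hα ((-1 : ℝ) ^ n) (2 * n) le_rfl
  have h1 : 2 * n - α (2 * n) = n := by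
    rw [hα.2.2.1]
    omega
  rw [h1, ← pow_mul] at h
  have h2 : (-1 : ℝ) ^ (n * n) = (-1) ^ n := by
    rcases Nat.even_or_odd n with h | h
    · rw [h.neg_one_pow, (h.mul_left n).neg_one_pow]
    · rw [h.neg_one_pow, (h.mul h).neg_one_pow]
  rw [h2] at h
  rw [← h, sB, ← Finset.prod_mul_distrib]
  refine Finset.prod_congr rfl fun s hs => ?_
  rw [Finset.mem_range] at hs
  split_ifs with h3
  · have h4 := (ste_al_le hα (i := s) (by omega)).2.2
    have h5 : (-1 : ℝ) ^ n = (-1) ^ (n - α s) * (-1) ^ α s := by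
      rw [← pow_add]
      congr 1
      omega
    rw [h5]
    have h6 : (-1 : ℝ) ^ (n - α s) * (-1) ^ (n - α s) = 1 := by
      rw [← mul_pow]
      norm_num
    linear_combination (-(-1 : ℝ) ^ α s) * h6
  · simp


/-- the function controlling the first gap. -/
noncomputable def ste_g (n : ℕ) (α : ℕ → ℕ) (p : ℝ × (Fin (2 * n) → ℝ)) : ℝ :=
  R1 n α 2 p.1 p.2 0 * R2 n α 1 p.1 p.2 1 - p.1 ^ 2 * (R2 n α 2 p.1 p.2 0 * R1 n α 1 p.1 p.2 1)

theorem ste_g_cont (n : ℕ) (α : ℕ → ℕ) : Continuous (ste_g n α) := by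
  unfold ste_g
  exact ((ste_cont_R1 α 2 0).mul (ste_cont_R2 α 1 1)).sub
    ((continuous_fst.pow 2).mul ((ste_cont_R2 α 2 0).mul (ste_cont_R1 α 1 1)))

theorem ste_g_pos {n : ℕ} (hn : 1 ≤ n) {α : ℕ → ℕ} (hα : IsP n α) {z0 : Fin (2 * n) → ℝ}
    (h1 : ∀ j ≤ n, 0 < (-1 : ℝ) ^ j * XX z0 j)
    (h2 : ∀ l, 1 ≤ l → l ≤ n + 1 → 0 < (-1 : ℝ) ^ l * YY z0 l)
    (h3 : ∀ i < 2 * n,
      (α (i + 1) = α i + 1 → XX z0 (α i) * (2 ^ be α i - 2 ^ α i) +
        XX z0 (α i + 1) * (2 ^ be α i - 2 ^ (α i + 1)) = 0) ∧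
      (α (i + 1) = α i → YY z0 (be α i) * (2 ^ be α i - 2 ^ α i) +
        YY z0 (be α i + 1) * (2 ^ (be α i + 1) - 2 ^ α i) = 0)) :
    0 < ste_g n α (0, z0) := by
  have hal1 : α 1 = 0 := by
    have := (ste_al_le hα (i := 1) (by omega)).1
    omega
  have hR2 := ste_R2_pos hα h2 h3 (i := 1) (by omega) false
  have hbe1 : be α 1 = 2 := by unfold be; omega
  rw [hbe1] at hR2
  simp only [Bool.false_eq_true, if_false] at hR2
  have hR1 : R1 n α 2 0 z0 0 = XX z0 0 := by
    rw [R1_zero hα (by omega), hα.1, if_neg (by rw [zero_add, hal1]; omega)]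
    simp
  have hX := h1 0 (Nat.zero_le _)
  unfold ste_g
  simp only
  rw [hR1]
  have e : XX z0 0 * R2 n α 1 0 z0 1 - 0 ^ 2 * (R2 n α 2 0 z0 0 * R1 n α 1 0 z0 1) =
    ((-1 : ℝ) ^ 0 * XX z0 0) * ((-1 : ℝ) ^ 2 * R2 n α 1 0 z0 1) := by ring
  rw [e]
  exact mul_pos hX hR2

theorem ste_gap {n : ℕ} (hn : 1 ≤ n) {α : ℕ → ℕ} (hα : IsP n α) {ε : ℝ} (hε : 0 < ε)
    (z : Fin (2 * n) → ℝ) (hg : 0 < ste_g n α (ε, z)) :
    0 < om (uz n α ε z) (vd n ε 1) (vd n ε 2) := by
  have hal1 : α 1 = 0 := by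
    have := (ste_al_le hα (i := 1) (by omega)).1
    omega
  have hal0 : α 0 = 0 := hα.1
  have hbe1 : be α 1 = 2 := by unfold be; omega
  have hbe0 : be α 0 = 1 := by unfold be; omega
  have hx1 := val_x hα (i := 0) (by omega) hε z true
  have hx2 := val_x hα (i := 1) (by omega) hε z false
  have hy1 := val_y hα (i := 0) (by omega) hε z true
  have hy2 := val_y hα (i := 1) (by omega) hε z false
  simp only [Bool.false_eq_true, if_false, if_true, mul_zero, mul_one, zero_add, add_zero,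
    hal0, hal1, hbe0, hbe1] at hx1 hx2 hy1 hy2
  have hff : (ff n α 2 : ℤ) = ff n α 1 := by
    have h1 := exp_y hα (i := 0) (l := 2) (by omega) (by omega) (by omega)
    have h2 : dy n α 0 2 = 0 := by
      rw [dy_zero hα (by omega) (by omega) (by omega)]
      right
      rw [hbe0]
      exact ⟨rfl, by rw [zero_add, hal1, hal0]⟩
    rw [h2, hbe0] at h1
    push_cast at h1
    linarith
  unfold om
  rw [hx1, hx2, hy1, hy2]
  have e1 : ((ee n α 0 : ℤ) - ((1 : ℕ) : ℤ) * ((0 : ℕ) : ℤ)) = (ee n α 0 : ℤ) := by push_cast; ring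
  have e2 : ((ee n α 0 : ℤ) - ((0 : ℕ) : ℤ) * ((0 : ℕ) : ℤ)) = (ee n α 0 : ℤ) := by push_cast; ring
  have e3 : ((ff n α 1 : ℤ) - ((0 : ℕ) : ℤ) * ((1 : ℕ) : ℤ)) = (ff n α 1 : ℤ) := by push_cast; ring
  have e4 : ((ff n α 2 : ℤ) - ((1 : ℕ) : ℤ) * ((2 : ℕ) : ℤ)) = (ff n α 1 : ℤ) - 2 := by
    rw [hff]; push_cast; ring
  rw [e1, e2, e3, e4]
  have e5 : ε ^ (ff n α 1 : ℤ) = ε ^ ((ff n α 1 : ℤ) - 2) * ε ^ 2 := by
    rw [zpow_sub₀ hε.ne']
    field_simp
  rw [e5]
  have e6 : ε ^ (ee n α 0 : ℤ) * R1 n α 2 ε z 0 * (ε ^ ((ff n α 1 : ℤ) - 2) * R2 n α 1 ε z 1) -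
      ε ^ ((ff n α 1 : ℤ) - 2) * ε ^ 2 * R2 n α 2 ε z 0 * (ε ^ (ee n α 0 : ℤ) * R1 n α 1 ε z 1) =
      ε ^ (ee n α 0 : ℤ) * ε ^ ((ff n α 1 : ℤ) - 2) * ste_g n α (ε, z) := by
    unfold ste_g
    ring
  rw [e6]
  exact mul_pos (mul_pos (zpow_pos hε _) (zpow_pos hε _)) hg

theorem start_sign (n : ℕ) (hn : 1 ≤ n) : ∃ σ1 : ℝ, (σ1 = 1 ∨ σ1 = -1) ∧ ∀ α : ℕ → ℕ, IsP n α →
    ∀ z0 : Fin (2 * n) → ℝ, (∀ j ≤ n, 0 < (-1 : ℝ) ^ j * XX z0 j) →
    (∀ l, 1 ≤ l → l ≤ n + 1 → 0 < (-1 : ℝ) ^ l * YY z0 l) →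
    (∀ i < 2 * n,
      (α (i + 1) = α i + 1 → XX z0 (α i) * (2 ^ be α i - 2 ^ α i) +
        XX z0 (α i + 1) * (2 ^ be α i - 2 ^ (α i + 1)) = 0) ∧
      (α (i + 1) = α i → YY z0 (be α i) * (2 ^ be α i - 2 ^ α i) +
        YY z0 (be α i + 1) * (2 ^ (be α i + 1) - 2 ^ α i) = 0)) →
    ∃ η : ℝ, 0 < η ∧ ∀ᶠ ε in 𝓝[>] (0 : ℝ), ∀ z : Fin (2 * n) → ℝ, dist z z0 < η →
      (∀ i < 2 * n, GG n α ε z i = 0) →
      0 < om (uz n α ε z) (vd n ε 1) (vd n ε 2) ∧
      sgA n (vd n ε) (uz n α ε z) = σ1 * sB n α := by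
  set L : ℝ := (Complex.I ^ (n + 2 - 1) * Complex.exp (-(Complex.I / 2) *
      ((if Even n then Real.pi else 0 : ℝ) : ℂ))).re with hL
  have hL1 : L = 1 ∨ L = -1 := ste_L n
  refine ⟨-L, ?_, ?_⟩
  · rcases hL1 with h | h <;> rw [h] <;> norm_num
  intro α hα z0 h1 h2 h3
  -- the open conditions
  have hopen : IsOpen {p : ℝ × (Fin (2 * n) → ℝ) | (∀ i : Fin (2 * n), ∀ b : Bool,
      0 < (-1 : ℝ) ^ (be α i) * R2 n α (if b then 2 else 1) p.1 p.2 i) ∧ 0 < ste_g n α p} := by
    have hA : IsOpen {p : ℝ × (Fin (2 * n) → ℝ) | ∀ i : Fin (2 * n), ∀ b : Bool,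
        0 < (-1 : ℝ) ^ (be α i) * R2 n α (if b then 2 else 1) p.1 p.2 i} := by
      rw [Set.ofPred_forall]
      refine isOpen_iInter_of_finite fun i => ?_
      rw [Set.ofPred_forall]
      refine isOpen_iInter_of_finite fun b => ?_
      exact isOpen_lt continuous_const (continuous_const.mul (ste_cont_R2 α _ i))
    exact hA.inter (isOpen_lt continuous_const (ste_g_cont n α))
  have hmem : ((0 : ℝ), z0) ∈ {p : ℝ × (Fin (2 * n) → ℝ) | (∀ i : Fin (2 * n), ∀ b : Bool,
      0 < (-1 : ℝ) ^ (be α i) * R2 n α (if b then 2 else 1) p.1 p.2 i) ∧ 0 < ste_g n α p} :=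
    ⟨fun i b => ste_R2_pos hα h2 h3 i.2 b, ste_g_pos hn hα h1 h2 h3⟩
  obtain ⟨δ, hδ, hball⟩ := Metric.isOpen_iff.mp hopen _ hmem
  refine ⟨δ, hδ, ?_⟩
  have hev : ∀ᶠ ε in 𝓝[>] (0 : ℝ), ε ∈ Set.Ioo (0 : ℝ) (min δ (1 / 2)) :=
    Ioo_mem_nhdsGT (lt_min hδ (by norm_num))
  filter_upwards [hev] with ε hε' z hz hGG
  have hε : 0 < ε := hε'.1
  have hεδ : ε < δ := lt_of_lt_of_le hε'.2 (min_le_left _ _)
  have hε2 : ε < 1 / 2 := lt_of_lt_of_le hε'.2 (min_le_right _ _)
  have hp : (ε, z) ∈ Metric.ball ((0 : ℝ), z0) δ := by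
    rw [Metric.mem_ball, Prod.dist_eq, max_lt_iff]
    refine ⟨?_, hz⟩
    rw [Real.dist_eq, sub_zero, abs_of_pos hε]
    exact hεδ
  obtain ⟨hR2, hg⟩ := hball hp
  have hfirst := ste_gap hn hα hε z hg
  refine ⟨hfirst, ?_⟩
  set u := uz n α ε z with hu
  have hTP := vd_tpos (n := n) hε hε2
  have hsol : Sol n (vd n ε) u := th_GG hα hε z hGG
  have hli : LinearIndependent ℝ u := ste_li hfirst.ne'
  set E := ext (n + 2) (4 * n) (vd n ε) with hE
  have hElt : ∀ j < 4 * n, E j = vd n ε j := fun j hj => by rw [hE]; simp [ext, hj]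
  have hElast : E (4 * n) = (-1 : ℝ) ^ (n + 2 - 1) • vd n ε 0 := by rw [hE]; simp [ext]
  set w := wv u E with hw
  have him : ∀ i < 2 * n, ∀ b : Bool,
      0 < (-1 : ℝ) ^ (be α i) * (w (2 * i + if b then 1 else 0)).im := by
    intro i hi b
    have e : (w (2 * i + if b then 1 else 0)).im =
        u 1 ⬝ᵥ vd n ε (2 * i + if b then 1 else 0) := by
      have : 2 * i + (if b then 1 else 0) < 4 * n := by split_ifs <;> omega
      rw [← hElt _ this, hw]
      rfl
    rw [e, val_y hα hi hε z b]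
    have e2 : (-1 : ℝ) ^ be α i * (ε ^ ((ff n α (be α i) : ℤ) - i * be α i) *
        R2 n α (if b then 2 else 1) ε z i) = ε ^ ((ff n α (be α i) : ℤ) - i * be α i) *
        ((-1 : ℝ) ^ be α i * R2 n α (if b then 2 else 1) ε z i) := by ring
    rw [e2]
    exact mul_pos (zpow_pos hε _) (hR2 ⟨i, hi⟩ b)
  have hw0 : (w 0).im < 0 := by
    have := him 0 (by omega) false
    have hb0 : be α 0 = 1 := by
      unfold be
      rw [hα.1]
    rw [hb0] at this
    simpa using this
  have hwlast : w (4 * n) = ((-1 : ℝ) ^ (n + 2 - 1) : ℝ) * w 0 := by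
    apply Complex.ext
    · rw [Complex.re_ofReal_mul]
      change u 0 ⬝ᵥ E (4 * n) = _ * (u 0 ⬝ᵥ E 0)
      rw [hElast, hElt 0 (by omega), dotProduct_smul, smul_eq_mul]
    · rw [Complex.im_ofReal_mul]
      change u 1 ⬝ᵥ E (4 * n) = _ * (u 1 ⬝ᵥ E 0)
      rw [hElast, hElt 0 (by omega), dotProduct_smul, smul_eq_mul]
  have hgap : ∀ i, i < 2 * n → 0 < (-1 : ℝ) ^ i * gap u E (2 * i + 1) := by
    intro i
    induction i with
    | zero =>
      intro _
      rw [pow_zero, one_mul]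
      change 0 < om u (E 1) (E 2)
      rw [hElt 1 (by omega), hElt 2 (by omega)]
      exact hfirst
    | succ i ih =>
      intro hi
      have h4 := ih (by omega)
      have h5 := (good_alt hn hTP hli hsol).2 i hi
      by_contra h6
      push Not at h6
      have h7 := mul_nonpos_of_nonneg_of_nonpos h4.le h6
      have e : (-1 : ℝ) ^ i * gap u E (2 * i + 1) *
          ((-1 : ℝ) ^ (i + 1) * gap u E (2 * (i + 1) + 1)) =
          - (gap u E (2 * i + 1) * gap u E (2 * (i + 1) + 1)) := by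
        have : (-1 : ℝ) ^ i * (-1 : ℝ) ^ i = 1 := by
          rw [← mul_pow]; norm_num
        rw [pow_succ]
        linear_combination (-(gap u E (2 * i + 1) * gap u E (2 * (i + 1) + 1))) * this
      rw [e] at h7
      linarith
  have hcr : ∀ j, (w j).re * (w (j + 1)).im - (w j).im * (w (j + 1)).re = gap u E j := by
    intro j
    rfl
  have hne : ∀ j ≤ 4 * n, (w j).im ≠ 0 := by
    intro j hj
    rcases Nat.lt_or_ge j (4 * n) with h | h
    · rcases Nat.even_or_odd' j with ⟨k, hk | hk⟩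
      · have := him k (by omega) false
        intro h0
        rw [if_neg (by simp), add_zero, ← hk, h0, mul_zero] at this
        exact lt_irrefl _ this
      · have := him k (by omega) true
        intro h0
        rw [if_pos rfl, ← hk, h0, mul_zero] at this
        exact lt_irrefl _ this
    · have : j = 4 * n := by omega
      rw [this, hwlast, Complex.im_ofReal_mul]
      exact mul_ne_zero (pow_ne_zero _ (by norm_num)) hw0.ne
  have hsl : ∀ j < 4 * n, w (j + 1) / w j ∈ Complex.slitPlane := fun j hj =>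
    good_slit hn hTP hli hsol hj
  change sg (n + 2) (4 * n) w = _
  rw [sg_parity hne hsl]
  -- the last factor
  have harg : (w (4 * n)).arg - (w 0).arg = if Even n then Real.pi else 0 := by
    rcases Nat.even_or_odd n with h | h
    · rw [if_pos h, hwlast]
      have h4 : Odd (n + 2 - 1) := by
        have : n + 2 - 1 = n + 1 := by omega
        rw [this]
        exact h.add_one
      rw [h4.neg_one_pow]
      have h5 : (((-1 : ℝ)) : ℂ) * w 0 = - w 0 := by push_cast; ring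
      rw [h5, Complex.arg_neg_eq_arg_add_pi_of_im_neg hw0]
      ring
    · rw [if_neg (Nat.not_even_iff_odd.mpr h), hwlast]
      have h4 : Even (n + 2 - 1) := by
        have : n + 2 - 1 = n + 1 := by omega
        rw [this]
        exact h.add_one
      rw [h4.neg_one_pow]
      simp
  rw [harg, ← hL]
  -- the product
  have hprod : ∏ j ∈ Finset.range (4 * n), kp (w j) (w (j + 1)) = - sB n α := by
    have e4 : 4 * n = 2 * (2 * n) := by ring
    rw [e4, ste_prod_pair]
    have hA : ∀ i ∈ Finset.range (2 * n), kp (w (2 * i)) (w (2 * i + 1)) *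
        kp (w (2 * i + 1)) (w (2 * i + 1 + 1)) = kp (w (2 * i + 1)) (w (2 * i + 1 + 1)) := by
      intro i hi
      rw [Finset.mem_range] at hi
      have h4 := him i hi false
      have h5 := him i hi true
      rw [if_neg (by simp), add_zero] at h4
      rw [if_pos rfl] at h5
      rw [ste_kp_same h4 h5, one_mul]
    rw [Finset.prod_congr rfl hA]
    obtain ⟨N, hN⟩ : ∃ N, 2 * n = N + 1 := ⟨2 * n - 1, by omega⟩
    have hsB := ste_sB hα
    rw [hN, Finset.prod_range_succ] at hsB ⊢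
    have hNα : α (N + 1) = n := by rw [← hN]; exact hα.2.2.1
    have hNα' : α N = n - 1 := by
      have h4 := (ste_al_le hα (i := N) (by omega)).1
      have h5 := hα.2.1 N (by omega)
      rw [hNα] at h5
      omega
    rw [if_neg (by rw [hNα, hNα']; omega), mul_one] at hsB
    -- the last factor
    have hlast : kp (w (2 * N + 1)) (w (2 * N + 1 + 1)) = (-1) ^ (n + 1) := by
      have h4 := him N (by omega) true
      rw [if_pos rfl] at h4
      have h5 : be α N = n + 1 := by unfold be; omega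
      rw [h5] at h4
      have h6 : 0 < (-1 : ℝ) ^ n * (w (2 * N + 1 + 1)).im := by
        have e5 : 2 * N + 1 + 1 = 4 * n := by omega
        rw [e5, hwlast, Complex.im_ofReal_mul]
        have e6 : n + 2 - 1 = n + 1 := by omega
        rw [e6, pow_succ]
        have : (-1 : ℝ) ^ n * (-1 : ℝ) ^ n = 1 := by
          rw [← mul_pow]; norm_num
        have e7 : (-1 : ℝ) ^ n * ((-1) ^ n * -1 * (w 0).im) = -(w 0).im := by
          linear_combination (-(w 0).im) * this
        rw [e7]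
        linarith
      have h7 := hgap N (by omega)
      rw [← hcr] at h7
      rw [ste_kp h4 h6 h7]
      have hNodd : ¬ Even N := by
        intro h
        rcases h with ⟨k, hk⟩
        omega
      rcases Nat.even_or_odd n with h | h
      · have h8 : ¬ Even (n + 1) := by
          rw [Nat.not_even_iff_odd]; exact h.add_one
        rw [if_pos (Or.inr ⟨h8, h, hNodd⟩), (Nat.not_even_iff_odd.mp h8).neg_one_pow]
      · have h8 : Even (n + 1) := h.add_one
        rw [if_neg, h8.neg_one_pow]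
        rintro (⟨_, _, h9⟩ | ⟨h9, _, _⟩)
        · exact hNodd h9
        · exact h9 h8
    rw [hlast]
    have hB : ∀ i ∈ Finset.range N, kp (w (2 * i + 1)) (w (2 * i + 1 + 1)) =
        if α (i + 1) = α i then (-1 : ℝ) ^ α i else 1 := by
      intro i hi
      rw [Finset.mem_range] at hi
      have h4 := him i (by omega) true
      rw [if_pos rfl] at h4
      have h5 := him (i + 1) (by omega) false
      rw [if_neg (by simp), add_zero] at h5
      have e5 : 2 * (i + 1) = 2 * i + 1 + 1 := by ring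
      rw [e5] at h5
      have h7 := hgap i (by omega)
      rw [← hcr] at h7
      have hb := ste_al_le hα (i := i) (by omega)
      split_ifs with hs
      · rw [ste_kp h4 h5 h7]
        have e6 : be α (i + 1) = be α i + 1 := by unfold be; omega
        rw [e6]
        have e7 : be α i + α i = i + 1 := by unfold be; omega
        by_cases ha : Even (α i)
        · rw [if_neg, ha.neg_one_pow]
          have h8 : Even (be α i) ↔ Even (i + 1) := by
            rw [← e7, Nat.even_add]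
            simp [ha]
          rw [h8, Nat.even_add_one, Nat.even_add_one, h8, Nat.even_add_one]
          tauto
        · rw [if_pos, (Nat.not_even_iff_odd.mp ha).neg_one_pow]
          have h8 : Even (i + 1) ↔ ¬ Even (be α i) := by
            rw [← e7, Nat.even_add]
            simp [ha]
          rw [Nat.even_add_one] at h8
          rw [Nat.even_add_one]
          tauto
      · have e6 : be α (i + 1) = be α i := by
          have := hα.2.1 i (by omega)
          unfold be; omega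
        rw [e6] at h5
        exact ste_kp_same h4 h5
    rw [Finset.prod_congr rfl hB, hsB, pow_succ]
    have : (-1 : ℝ) ^ n * (-1 : ℝ) ^ n = 1 := by
      rw [← mul_pow]; norm_num
    linear_combination (-(sB n α)) * this
  rw [hprod]
  ring

end Pool.Agent.TR
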