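import Pool.Agent.Helper65.TR.STD
import Pool.Agent.Helper65.TR.STE
import Pool.Agent.Helper65.TR.STCD
import Pool.Agent.Helper65.TR.NRM

/-!
# TRL STF : the start configuration has the full number of right solutions

PROOFS.
`start_sol`: `z0` from `z0_exists`, `σ0` from `det_sign`, `σ1` from `start_sign`; `start_z` for a
small `η` gives `z` with `GG = 0` and `det MG n α ε z` of the sign `σ0 sB`; `u = uz n α ε z` is a
solution (`th_GG`), first gap positive, `sgA = σ1 sB`; `jj_MG` and `jj_gauge` (from the gauge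
`(e_0, e_(n+1))`, `om u e_0 e_(n+1) = u 0 0 * u 1 (n+1) ≠ 0`, to `(A 1, A 2)`): `JJ` has the sign
`σ0 sB`.  So `RightS` with `σ = σ0 σ1` (`sB^2 = 1`).
`Dm`: `pc u a b = u 0 a u 1 b - u 1 a u 0 b` is
`X_a Y_b ε^(ee a + ff b) - X_b Y_a ε^(ee b + ff a)`.  For `j ≤ n`, `1 ≤ l ≤ n + 1`, `j + l = i + 1`:
`ee j + ff l - (ee (α i) + ff (be i)) = dx i j + dy i l` (`exp_x`, `exp_y`), which is `≥ 1` unless
`j = α i` (`dx_zero`, `dy_zero`); so for small `ε` the minor of the state dominates (its coefficient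
`X_(α i) Y_(be i)` is close to that of `z0`, nonzero; the others are bounded).
`start_rr`: choose `ε` small for all the `catalan n` paths of `ballots`; the solutions are
pairwise inequivalent: if `u' = act g u`, all minors are multiplied by `det g`; at a time
`i < 2 n` with `α i ≠ α' i` the two dominance statements contradict each other.  Pass to normal
frames (`exists_nf`, `right_act`; `det g > 0`); the normal pairs are different, form the finset.
-/

set_option autoImplicit false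

open Topology

namespace Pool.Agent.TR

/-- Pluecker coordinate. -/
noncomputable def pc {n : ℕ} (u : Fin 2 → Fin (n + 2) → ℝ) (a b : ℕ) : ℝ :=
  if h : a < n + 2 ∧ b < n + 2 then u 0 ⟨a, h.1⟩ * u 1 ⟨b, h.2⟩ - u 1 ⟨a, h.1⟩ * u 0 ⟨b, h.2⟩ else 0

/-- dominance of the minors belonging to the states. -/
def Dm (n : ℕ) (α : ℕ → ℕ) (u : Fin 2 → Fin (n + 2) → ℝ) : Prop :=
  ∀ i < 2 * n, ∀ a b : ℕ, a < b → b ≤ n + 1 → a + b = i + 1 → a ≠ α i →
    |pc u a b| < |pc u (α i) (be α i)|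

/-- the normalised Pluecker coordinate. -/
noncomputable def stfN (n : ℕ) (α : ℕ → ℕ) (i a b : ℕ) (p : ℝ × (Fin (2 * n) → ℝ)) : ℝ :=
  XX p.2 a * YY p.2 b * p.1 ^ (dx n α i a + dy n α i b) -
    YY p.2 a * XX p.2 b * p.1 ^ (dx n α i b + dy n α i a)

theorem stfN_cont (n : ℕ) (α : ℕ → ℕ) (i a b : ℕ) : Continuous (stfN n α i a b) := by
  unfold stfN
  exact ((((ste_cont_XX a).comp continuous_snd).mul ((ste_cont_YY b).comp continuous_snd)).mul
    (continuous_fst.pow _)).sub ((((ste_cont_YY a).comp continuous_snd).mul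
    ((ste_cont_XX b).comp continuous_snd)).mul (continuous_fst.pow _))

theorem stf_XX0 {n : ℕ} (z : Fin (2 * n) → ℝ) : XX z 0 = 1 := by simp [XX]

theorem stf_YY0 {n : ℕ} (z : Fin (2 * n) → ℝ) : YY z 0 = 0 := by simp [YY]

theorem stf_XXn {n : ℕ} (z : Fin (2 * n) → ℝ) : XX z (n + 1) = 0 := by simp [XX]

theorem stf_YYn {n : ℕ} (z : Fin (2 * n) → ℝ) : YY z (n + 1) = (-1) ^ (n + 1) := by simp [YY]

theorem stf_pc {n : ℕ} {α : ℕ → ℕ} (hα : IsP n α) {i : ℕ} (hi : i < 2 * n) (ε : ℝ)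
    (z : Fin (2 * n) → ℝ) {a b : ℕ} (hab : a < b) (hb : b ≤ n + 1) (hs : a + b = i + 1) :
    pc (uz n α ε z) a b = ε ^ (ee n α (α i) + ff n α (be α i)) * stfN n α i a b (ε, z) := by
  have hal := ste_al_le hα (i := i) (by omega)
  have hbe : α i + be α i = i + 1 := by unfold be; omega
  have key : ∀ j l : ℕ, j ≤ n → 1 ≤ l → l ≤ n + 1 → j + l = i + 1 →
      ee n α j + ff n α l = ee n α (α i) + ff n α (be α i) + (dx n α i j + dy n α i l) := by
    intro j l hj hl hl' hjl
    have h1 := exp_x hα hi hj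
    have h2 := exp_y hα hi hl hl'
    have h3 : (i : ℤ) * j + i * l = i * (α i : ℤ) + i * (be α i : ℤ) := by
      rw [← mul_add, ← mul_add]
      congr 1
      exact_mod_cast hjl.trans hbe.symm
    zify
    linarith
  have hpc : pc (uz n α ε z) a b = XX z a * YY z b * ε ^ (ee n α a + ff n α b) -
      YY z a * XX z b * ε ^ (ee n α b + ff n α a) := by
    unfold pc
    rw [dif_pos ⟨by omega, by omega⟩]
    simp only [uz, Matrix.cons_val_zero, Matrix.cons_val_one]
    rw [pow_add, pow_add]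
    ring
  rw [hpc]
  unfold stfN
  simp only
  rw [key a b (by omega) (by omega) hb hs, mul_sub]
  congr 1
  · rw [pow_add ε (ee n α (α i) + ff n α (be α i))]
    ring
  · rcases Nat.eq_zero_or_pos a with h0 | h0
    · rw [h0, stf_YY0]
      ring
    · rcases Nat.lt_or_ge b (n + 1) with h1 | h1
      · rw [key b a (by omega) (by omega) (by omega) (by omega),
          pow_add ε (ee n α (α i) + ff n α (be α i))]
        ring
      · have : b = n + 1 := by omega
        rw [this, stf_XXn]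
        ring

theorem stf_pos {n : ℕ} {α : ℕ → ℕ} (hα : IsP n α) {i : ℕ} (hi : i < 2 * n) {z0 : Fin (2 * n) → ℝ}
    (h1 : ∀ j ≤ n, 0 < (-1 : ℝ) ^ j * XX z0 j)
    (h2 : ∀ l, 1 ≤ l → l ≤ n + 1 → 0 < (-1 : ℝ) ^ l * YY z0 l)
    {a b : ℕ} (hab : a < b) (hb : b ≤ n + 1) (hs : a + b = i + 1) (ha : a ≠ α i) :
    |stfN n α i a b (0, z0)| < |stfN n α i (α i) (be α i) (0, z0)| := by
  have hal := ste_al_le hα (i := i) (by omega)
  have hbe : α i + be α i = i + 1 := by unfold be; omega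
  have second : ∀ a' b' : ℕ, a' < b' → b' ≤ n + 1 → a' + b' = i + 1 →
      YY z0 a' * XX z0 b' * (0 : ℝ) ^ (dx n α i b' + dy n α i a') = 0 := by
    intro a' b' hab' hb' hs'
    rcases Nat.eq_zero_or_pos a' with h0 | h0
    · rw [h0, stf_YY0]
      ring
    · rcases Nat.lt_or_ge b' (n + 1) with h4 | h4
      · have h5 : dx n α i b' + dy n α i a' ≠ 0 := by
          intro h
          have h6 : dx n α i b' = 0 := by omega
          have h7 : dy n α i a' = 0 := by omega
          rw [dx_zero hα hi (by omega)] at h6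
          rw [dy_zero hα hi (by omega) (by omega)] at h7
          omega
        rw [zero_pow h5, mul_zero]
      · have : b' = n + 1 := by omega
        rw [this, stf_XXn]
        ring
  have e1 : stfN n α i a b (0, z0) = 0 := by
    unfold stfN
    simp only
    rw [second a b hab hb hs]
    have h5 : dx n α i a + dy n α i b ≠ 0 := by
      intro h
      have h6 : dx n α i a = 0 := by omega
      have h7 : dy n α i b = 0 := by omega
      rw [dx_zero hα hi (by omega)] at h6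
      rw [dy_zero hα hi (by omega) (by omega)] at h7
      omega
    rw [zero_pow h5]
    ring
  have e2 : stfN n α i (α i) (be α i) (0, z0) = XX z0 (α i) * YY z0 (be α i) := by
    unfold stfN
    simp only
    rw [second (α i) (be α i) (by omega) (by omega) hbe]
    have h6 : dx n α i (α i) = 0 := (dx_zero hα hi (by omega)).mpr (Or.inl rfl)
    have h7 : dy n α i (be α i) = 0 := (dy_zero hα hi (by omega) (by omega)).mpr (Or.inl rfl)
    rw [h6, h7]
    simp
  rw [e1, e2, abs_zero, abs_pos]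
  have h3 := h1 (α i) (by omega)
  have h4 := h2 (be α i) (by omega) (by omega)
  refine mul_ne_zero ?_ ?_
  · intro h
    rw [h, mul_zero] at h3
    exact lt_irrefl _ h3
  · intro h
    rw [h, mul_zero] at h4
    exact lt_irrefl _ h4

theorem stf_GG {n : ℕ} {α : ℕ → ℕ} (hα : IsP n α) {z0 : Fin (2 * n) → ℝ}
    (h3 : ∀ i < 2 * n,
      (α (i + 1) = α i + 1 → XX z0 (α i) * (2 ^ be α i - 2 ^ α i) +
        XX z0 (α i + 1) * (2 ^ be α i - 2 ^ (α i + 1)) = 0) ∧
      (α (i + 1) = α i → YY z0 (be α i) * (2 ^ be α i - 2 ^ α i) +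
        YY z0 (be α i + 1) * (2 ^ (be α i + 1) - 2 ^ α i) = 0))
    {i : ℕ} (hi : i < 2 * n) : GG n α 0 z0 i = 0 := by
  unfold GG
  rw [R1_zero hα hi, R1_zero hα hi, R2_zero hα hi, R2_zero hα hi]
  rcases hα.2.1 i hi with h | h
  · have h4 := (h3 i hi).2 h
    have h5 : ¬ (α (i + 1) = α i + 1) := by omega
    simp only [if_neg h5, if_pos h, one_pow, one_mul, add_zero]
    linear_combination (XX z0 (α i)) * h4
  · have h4 := (h3 i hi).1 h
    have h5 : ¬ (α (i + 1) = α i) := by omega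
    simp only [if_neg h5, if_pos h, one_pow, one_mul, add_zero]
    linear_combination (YY z0 (be α i)) * h4

theorem start_sol (n : ℕ) (hn : 1 ≤ n) : ∃ σ : ℝ, (σ = 1 ∨ σ = -1) ∧ ∀ α, IsP n α →
    ∀ᶠ ε in 𝓝[>] (0 : ℝ), ∃ u, RightS n σ (vd n ε) u ∧ Dm n α u := by
  obtain ⟨σ0, hσ0, hdet⟩ := det_sign n
  obtain ⟨σ1, hσ1, hsgn⟩ := start_sign n hn
  refine ⟨σ0 * σ1, ?_, ?_⟩
  · rcases hσ0 with h | h <;> rcases hσ1 with h' | h' <;> rw [h, h'] <;> norm_num
  intro α hα
  obtain ⟨z0, h1, h2, h3⟩ := z0_exists hα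
  have hd := hdet α hα z0 h1 h2 h3
  have hdne : (MG n α 0 z0).det ≠ 0 := by
    intro h
    rw [h, mul_zero] at hd
    exact lt_irrefl _ hd
  obtain ⟨η1, hη1, hev1⟩ := hsgn α hα z0 h1 h2 h3
  -- the dominance is an open condition
  have hopen : IsOpen {p : ℝ × (Fin (2 * n) → ℝ) | ∀ i : Fin (2 * n), ∀ a b : Fin (n + 2),
      (a : ℕ) < b → (a : ℕ) + b = i + 1 → (a : ℕ) ≠ α i →
      |stfN n α i a b p| < |stfN n α i (α i) (be α i) p|} := by
    rw [Set.ofPred_forall]
    refine isOpen_iInter_of_finite fun i => ?_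
    rw [Set.ofPred_forall]
    refine isOpen_iInter_of_finite fun a => ?_
    rw [Set.ofPred_forall]
    refine isOpen_iInter_of_finite fun b => ?_
    by_cases hc : (a : ℕ) < b ∧ (a : ℕ) + b = i + 1 ∧ (a : ℕ) ≠ α i
    · have e : {p : ℝ × (Fin (2 * n) → ℝ) | (a : ℕ) < b → (a : ℕ) + b = i + 1 → (a : ℕ) ≠ α i →
          |stfN n α i a b p| < |stfN n α i (α i) (be α i) p|} =
          {p | |stfN n α i a b p| < |stfN n α i (α i) (be α i) p|} := by
        ext p
        simp only [Set.mem_ofPred_eq]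
        exact ⟨fun h => h hc.1 hc.2.1 hc.2.2, fun h _ _ _ => h⟩
      rw [e]
      exact isOpen_lt (stfN_cont n α i a b).abs (stfN_cont n α i _ _).abs
    · have e : {p : ℝ × (Fin (2 * n) → ℝ) | (a : ℕ) < b → (a : ℕ) + b = i + 1 → (a : ℕ) ≠ α i →
          |stfN n α i a b p| < |stfN n α i (α i) (be α i) p|} = Set.univ := by
        ext p
        simp only [Set.mem_ofPred_eq, Set.mem_univ, iff_true]
        exact fun x y z => absurd ⟨x, y, z⟩ hc
      rw [e]
      exact isOpen_univ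
  have hmem : ((0 : ℝ), z0) ∈ {p : ℝ × (Fin (2 * n) → ℝ) | ∀ i : Fin (2 * n),
      ∀ a b : Fin (n + 2), (a : ℕ) < b → (a : ℕ) + b = i + 1 → (a : ℕ) ≠ α i →
      |stfN n α i a b p| < |stfN n α i (α i) (be α i) p|} := by
    intro i a b hab hs ha
    exact stf_pos hα i.2 h1 h2 hab (by omega) hs ha
  obtain ⟨δ, hδ, hball⟩ := Metric.isOpen_iff.mp hopen _ hmem
  have hev2 := start_z hα z0 (fun i hi => stf_GG hα h3 hi) hdne (min η1 δ) (lt_min hη1 hδ)
  have hev3 : ∀ᶠ ε in 𝓝[>] (0 : ℝ), ε ∈ Set.Ioo (0 : ℝ) (min δ (1 / 2)) :=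
    Ioo_mem_nhdsGT (lt_min hδ (by norm_num))
  filter_upwards [hev1, hev2, hev3] with ε hε1 hε2 hε3
  have hε : 0 < ε := hε3.1
  have hεδ : ε < δ := lt_of_lt_of_le hε3.2 (min_le_left _ _)
  obtain ⟨z, hz, hGG, hdd⟩ := hε2
  obtain ⟨hfirst, hsg⟩ := hε1 z (lt_of_lt_of_le hz (min_le_left _ _)) hGG
  have hsol : Sol n (vd n ε) (uz n α ε z) := th_GG hα hε z hGG
  refine ⟨uz n α ε z, ⟨hsol, hfirst, ?_⟩, ?_⟩
  · obtain ⟨c, hc, hJ⟩ := jj_MG hα hε z
    have hJ2 := jj_gauge (e0 n) (eN n) (vd n ε 1) (vd n ε 2) hsol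
    have hom : om (uz n α ε z) (e0 n) (eN n) ≠ 0 := by
      unfold om e0 eN
      simp only [dotProduct_single, mul_one]
      have e1 : uz n α ε z 0 0 = ε ^ ee n α 0 := by
        simp [uz, stf_XX0]
      have e2 : uz n α ε z 1 0 = 0 := by
        simp [uz, stf_YY0]
      have e3 : uz n α ε z 1 (Fin.last (n + 1)) = (-1) ^ (n + 1) * ε ^ ff n α (n + 1) := by
        simp [uz, stf_YYn]
      rw [e1, e2, e3, zero_mul, sub_zero]
      exact mul_ne_zero (pow_ne_zero _ hε.ne') (mul_ne_zero (pow_ne_zero _ (by norm_num))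
        (pow_ne_zero _ hε.ne'))
    rw [hJ] at hJ2
    rw [hsg]
    have hσ1' : σ1 * σ1 = 1 := by rcases hσ1 with h | h <;> rw [h] <;> norm_num
    have hom2 : 0 < om (uz n α ε z) (e0 n) (eN n) ^ 2 := by positivity
    have hfirst2 : 0 < om (uz n α ε z) (vd n ε 1) (vd n ε 2) ^ 2 := by positivity
    have hdet0 : 0 < (MG n α 0 z0).det ^ 2 := by positivity
    have hpos : 0 < σ0 * sB n α * (MG n α ε z).det := by
      have h4 := mul_pos hd hdd
      have e : σ0 * sB n α * (MG n α 0 z0).det * ((MG n α ε z).det * (MG n α 0 z0).det) =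
        (σ0 * sB n α * (MG n α ε z).det) * (MG n α 0 z0).det ^ 2 := by ring
      rw [e] at h4
      exact (mul_pos_iff_of_pos_right hdet0).mp h4
    rw [← mul_pos_iff_of_pos_right hom2]
    have e : σ0 * σ1 * (σ1 * sB n α) * JJ n (vd n ε) (vd n ε 1) (vd n ε 2) (uz n α ε z) *
        om (uz n α ε z) (e0 n) (eN n) ^ 2 =
        c * (σ0 * sB n α * (MG n α ε z).det) *
          om (uz n α ε z) (vd n ε 1) (vd n ε 2) ^ 2 := by
      linear_combination (-(σ1 * σ1 * σ0 * sB n α)) * hJ2 +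
        (c * σ0 * sB n α * (MG n α ε z).det *
          om (uz n α ε z) (vd n ε 1) (vd n ε 2) ^ 2) * hσ1'
    rw [e]
    exact mul_pos (mul_pos hc hpos) hfirst2
  · have hp : (ε, z) ∈ Metric.ball ((0 : ℝ), z0) δ := by
      rw [Metric.mem_ball, Prod.dist_eq, max_lt_iff]
      refine ⟨?_, lt_of_lt_of_le hz (min_le_right _ _)⟩
      rw [Real.dist_eq, sub_zero, abs_of_pos hε]
      exact hεδ
    have hN := hball hp
    intro i hi a b hab hb hs ha
    have hal := ste_al_le hα (i := i) (by omega)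
    have hbe : α i + be α i = i + 1 := by unfold be; omega
    rw [stf_pc hα hi ε z hab hb hs, stf_pc hα hi ε z (a := α i) (b := be α i) (by omega)
      (by omega) hbe, abs_mul, abs_mul]
    have h4 := hN ⟨i, hi⟩ ⟨a, by omega⟩ ⟨b, by omega⟩ hab hs ha
    have h5 : 0 < |ε ^ (ee n α (α i) + ff n α (be α i))| := abs_pos.mpr (pow_ne_zero _ hε.ne')
    exact mul_lt_mul_of_pos_left h4 h5

theorem stf_pc_act {n : ℕ} (g : Matrix (Fin 2) (Fin 2) ℝ) (u : Fin 2 → Fin (n + 2) → ℝ) (a b : ℕ) :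
    pc (act g u) a b = g.det * pc u a b := by
  unfold pc
  split_ifs with h
  · simp only [act, Pi.add_apply, Pi.smul_apply, smul_eq_mul, Matrix.det_fin_two]
    ring
  · ring

theorem start_rr (n : ℕ) (hn : 1 ≤ n) : ∃ σ : ℝ, (σ = 1 ∨ σ = -1) ∧
    ∃ c : Cf n, RR n σ (ex c) := by
  obtain ⟨σ, hσ, hsol⟩ := start_sol n hn
  refine ⟨σ, hσ, ?_⟩
  obtain ⟨P, hP, hPne⟩ := ballots n
  have hall : ∀ᶠ ε in 𝓝[>] (0 : ℝ), ∀ k, ∃ u, RightS n σ (vd n ε) u ∧ Dm n (P k) u :=
    Filter.eventually_all.mpr fun k => hsol (P k) (hP k)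
  have hev3 : ∀ᶠ ε in 𝓝[>] (0 : ℝ), ε ∈ Set.Ioo (0 : ℝ) (1 / 2) :=
    Ioo_mem_nhdsGT (by norm_num)
  obtain ⟨ε, hε, hε3⟩ := (hall.and hev3).exists
  choose u hu hD using hε
  have hTP := vd_tpos (n := n) hε3.1 hε3.2
  have hg : ∀ k, ∃ g : Matrix (Fin 2) (Fin 2) ℝ,
      g.det * om (u k) (vd n ε 1) (vd n ε 2) = 1 ∧ NF n (vd n ε) (act g (u k)) :=
    fun k => exists_nf (hu k).2.1.ne'
  choose g hg1 hg2 using hg
  have hgpos : ∀ k, 0 < (g k).det := by
    intro k
    have h1 := hg1 k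
    have h2 := (hu k).2.1
    by_contra h3
    push Not at h3
    have := mul_nonpos_of_nonpos_of_nonneg h3 h2.le
    rw [h1] at this
    linarith
  have hinj : Function.Injective fun k => act (g k) (u k) := by
    intro k l hkl
    by_contra hne
    obtain ⟨i, hi, hPi⟩ := hPne k l hne
    have hi2 : i < 2 * n := by
      rcases Nat.lt_or_ge i (2 * n) with h | h
      · exact h
      · exfalso
        have : i = 2 * n := le_antisymm hi h
        apply hPi
        rw [this, (hP k).2.2.1, (hP l).2.2.1]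
    have hpc : ∀ a b, (g k).det * pc (u k) a b = (g l).det * pc (u l) a b := by
      intro a b
      rw [← stf_pc_act, ← stf_pc_act]
      exact congrArg (fun v => pc v a b) hkl
    have hak := ste_al_le (hP k) (i := i) hi
    have hal := ste_al_le (hP l) (i := i) hi
    have h1 := hD k i hi2 (P l i) (be (P l) i) (by unfold be; omega) (by unfold be; omega)
      (by unfold be; omega) (Ne.symm hPi)
    have h2 := hD l i hi2 (P k i) (be (P k) i) (by unfold be; omega) (by unfold be; omega)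
      (by unfold be; omega) hPi
    have h3 := mul_lt_mul_of_pos_left h1 (hgpos k)
    have h4 := mul_lt_mul_of_pos_left h2 (hgpos l)
    rw [← abs_of_pos (hgpos k), ← abs_mul, ← abs_mul, hpc, hpc] at h3
    rw [← abs_of_pos (hgpos l), ← abs_mul, ← abs_mul] at h4
    exact lt_asymm h3 h4
  have hRR : RR n σ (vd n ε) := by
    refine ⟨hTP, Finset.univ.image fun k => act (g k) (u k), ?_, ?_⟩
    · rw [Finset.card_image_of_injective _ hinj, Finset.card_univ, Fintype.card_fin]
    · intro v hv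
      rw [Finset.mem_image] at hv
      obtain ⟨k, _, rfl⟩ := hv
      exact ⟨hg2 k, right_act hn hTP (hu k) (g k) (hgpos k)⟩
  refine ⟨fun j => vd n ε j, rr_congr hn ?_ hRR⟩
  intro j hj
  simp [ex, hj]

end Pool.Agent.TR
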