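import Pool.Agent.Helper65.TR.CTB
import Pool.Agent.Helper65.TR.SEG
import Pool.Agent.Helper65.TR.BAD
import Pool.Agent.Helper65.TR.BOX
import Pool.Agent.Helper65.TR.CNX
import Pool.Agent.Helper65.TR.STF

/-!
# TRL FIB : all totally positive configurations are in `RR`

PROOFS.
`gen_update`: `Gen n (update c j0 y) j0 ↔ Gen n c j0` (the column `j0` occurs only through
`update c j0 ·` and `Ind0` does not use the pair `j0 / 2`).
`fib`: `seg` with `B = {y | TPos (update c j0 y)}` (open; convex: every minor is affine in `y`, with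
fixed other columns), `O = {y | RR (update c j0 y)}` (open), `L` from `ctb`; a boundary point
`y ∈ B ∩ closure O \ O` satisfies the hypotheses of `core` for `update c j0 y`.
`rr_everywhere`: `box` with `T = {TPos}`, `R = {RR}`, `G` from `gen_dense`, and `rr_int`: `RR` is
relatively closed in `{TPos}`.  `Std n` is preconnected, `RR` is open and relatively closed; it
meets `Std n` (start configuration, `start_rr`, moved by `G = (matrix of the first n + 2 columns)⁻¹`
with `det G > 0` : `rr_gl`).  So `Std n ⊆ RR`, and every totally positive configuration is moved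
into `Std n` by such a `G`; `rr_gl` for `G⁻¹`.
-/

set_option autoImplicit false

namespace Pool.Agent.TR

theorem fib {n : ℕ} (hn : 1 ≤ n) {σ : ℝ} (hσ : σ ≠ 0) {c : Cf n} {j0 : Fin (4 * n)}
    (hgen : Gen n c j0) (hex : ∃ y, RR n σ (ex (Function.update c j0 y))) (y : Fin (n + 2) → ℝ)
    (hy : TPos (n + 2) (4 * n) (ex (Function.update c j0 y))) {ε : ℝ} (hε : 0 < ε) :
    ∃ y', dist y' y < ε ∧ RR n σ (ex (Function.update c j0 y')) := by
  sorry

theorem rr_everywhere (n : ℕ) (hn : 1 ≤ n) : ∃ σ : ℝ, σ ≠ 0 ∧ ∀ c : Cf n,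
    TPos (n + 2) (4 * n) (ex c) → RR n σ (ex c) := by
  sorry

end Pool.Agent.TR
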