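import Pool.Agent.Helper65.TR.Defs

/-!
# TRL FREE : free choice of the signs of the zero gaps of a sequence of nonzero plane vectors

`cr p q = p.1 q.2 - p.2 q.1`.

PROOF. Put `p'_j = p_j + η t_j J p_j` with integers `t_j` and small `η > 0`, `J (a, b) = (-b, a)`.
If `cr p_j p_(j+1) = 0` then `p_(j+1) = λ p_j`, `λ ≠ 0`, and
`cr p'_j p'_(j+1) = λ η (t_(j+1) - t_j) |p_j|^2` exactly; so choose `t_(j+1) = t_j ± 1` with the
sign of `λ τ_j`; gaps which are nonzero keep their sign for small `η`.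
Linear case: `t_0 = 0` and recursion.  Cyclic case (`p_K = σ p_0`, we need `t_K = t_0`): let
`cr p_a p_(a+1) ≠ 0`; choose `t_j` for `j ≤ a` by downward recursion starting from `t_0 = 0`
upwards (`0 ≤ j ≤ a`), and for `a + 1 ≤ j ≤ K` by downward recursion from `t_K = 0`; no condition
between `a` and `a + 1`.
-/

set_option autoImplicit false

namespace Pool.Agent.TR

def cr (p q : ℝ × ℝ) : ℝ := p.1 * q.2 - p.2 * q.1

/-- the perturbed sequence -/
def FREE_pp (p : ℕ → ℝ × ℝ) (t : ℕ → ℝ) (η : ℝ) (j : ℕ) : ℝ × ℝ :=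
  ((p j).1 - η * t j * (p j).2, (p j).2 + η * t j * (p j).1)

/-- scalar product -/
def FREE_dot (p q : ℝ × ℝ) : ℝ := p.1 * q.1 + p.2 * q.2

theorem FREE_cr (p : ℕ → ℝ × ℝ) (t : ℕ → ℝ) (η : ℝ) (j : ℕ) :
    cr (FREE_pp p t η j) (FREE_pp p t η (j + 1)) =
      (1 + η ^ 2 * t j * t (j + 1)) * cr (p j) (p (j + 1)) +
        η * (t (j + 1) - t j) * FREE_dot (p j) (p (j + 1)) := by
  simp only [cr, FREE_pp, FREE_dot]
  ring

theorem FREE_dot_ne {p q : ℝ × ℝ} (hp : p ≠ 0) (hq : q ≠ 0) (h : cr p q = 0) :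
    FREE_dot p q ≠ 0 := by
  intro hd
  have h1 : (p.1 ^ 2 + p.2 ^ 2) * (q.1 ^ 2 + q.2 ^ 2) = 0 := by
    have : (p.1 ^ 2 + p.2 ^ 2) * (q.1 ^ 2 + q.2 ^ 2) = cr p q ^ 2 + FREE_dot p q ^ 2 := by
      simp only [cr, FREE_dot]
      ring
    rw [this, h, hd]
    ring
  have hz : ∀ r : ℝ × ℝ, r.1 ^ 2 + r.2 ^ 2 = 0 → r = 0 := by
    intro r hr
    have e1 : r.1 = 0 := by nlinarith [sq_nonneg r.1, sq_nonneg r.2]
    have e2 : r.2 = 0 := by nlinarith [sq_nonneg r.1, sq_nonneg r.2]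
    exact Prod.ext e1 e2
  rcases mul_eq_zero.1 h1 with h2 | h2
  · exact hp (hz p h2)
  · exact hq (hz q h2)

theorem FREE_small (K : ℕ) (p : ℕ → ℝ × ℝ) (t : ℕ → ℝ) {ε : ℝ} (hε : 0 < ε) :
    ∃ η : ℝ, 0 < η ∧ (∀ j ≤ K, dist (FREE_pp p t η j) (p j) < ε) ∧
      ∀ j < K, cr (p j) (p (j + 1)) ≠ 0 →
        0 < cr (FREE_pp p t η j) (FREE_pp p t η (j + 1)) * cr (p j) (p (j + 1)) := by
  have hc : ∀ j, Continuous (fun η => FREE_pp p t η j) := by
    intro j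
    unfold FREE_pp
    fun_prop
  have h00 : ∀ j, FREE_pp p t 0 j = p j := by
    intro j
    simp [FREE_pp]
  have h1 : ∀ j ∈ Finset.range (K + 1), ∀ᶠ η in nhds (0 : ℝ),
      dist (FREE_pp p t η j) (p j) < ε := by
    intro j _
    have hcont : ContinuousAt (fun η => dist (FREE_pp p t η j) (p j)) 0 :=
      ((hc j).dist continuous_const).continuousAt
    apply hcont.eventually (gt_mem_nhds _)
    simp only [h00, dist_self]
    exact hε
  have h2 : ∀ j ∈ Finset.range K, ∀ᶠ η in nhds (0 : ℝ), cr (p j) (p (j + 1)) ≠ 0 →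
      0 < cr (FREE_pp p t η j) (FREE_pp p t η (j + 1)) * cr (p j) (p (j + 1)) := by
    intro j _
    by_cases h : cr (p j) (p (j + 1)) = 0
    · exact Filter.Eventually.of_forall fun _ h' => absurd h h'
    · have hcont : ContinuousAt (fun η => cr (FREE_pp p t η j) (FREE_pp p t η (j + 1)) *
          cr (p j) (p (j + 1))) 0 := by
        have h3 := hc j
        have h4 := hc (j + 1)
        apply Continuous.continuousAt
        unfold cr
        fun_prop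
      have h5 : ∀ᶠ η in nhds (0 : ℝ),
          0 < cr (FREE_pp p t η j) (FREE_pp p t η (j + 1)) * cr (p j) (p (j + 1)) := by
        apply hcont.eventually (lt_mem_nhds _)
        simp only [h00]
        exact mul_self_pos.2 h
      exact h5.mono fun _ h' _ => h'
  have h3 := ((Filter.eventually_all_finset _).2 h1).and ((Filter.eventually_all_finset _).2 h2)
  have h4 : ∀ᶠ η in nhdsWithin (0 : ℝ) (Set.Ioi 0), 0 < η := eventually_mem_nhdsWithin
  obtain ⟨η, ⟨ha, hb⟩, hη⟩ := ((h3.filter_mono nhdsWithin_le_nhds).and h4).exists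
  refine ⟨η, hη, fun j hj => ha j (Finset.mem_range.2 (by omega)),
    fun j hj => hb j (Finset.mem_range.2 hj)⟩

theorem FREE_gen {K : ℕ} (p : ℕ → ℝ × ℝ) (hp : ∀ j ≤ K, p j ≠ 0) (τ : ℕ → ℝ)
    (hτ : ∀ j, τ j ≠ 0) (t : ℕ → ℝ)
    (ht : ∀ j < K, cr (p j) (p (j + 1)) = 0 →
      t (j + 1) - t j = FREE_dot (p j) (p (j + 1)) * τ j) {ε : ℝ} (hε : 0 < ε) :
    ∃ η : ℝ, (∀ j ≤ K, dist (FREE_pp p t η j) (p j) < ε) ∧
      ∀ j < K, (cr (p j) (p (j + 1)) ≠ 0 →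
          0 < cr (FREE_pp p t η j) (FREE_pp p t η (j + 1)) * cr (p j) (p (j + 1))) ∧
        (cr (p j) (p (j + 1)) = 0 →
          0 < cr (FREE_pp p t η j) (FREE_pp p t η (j + 1)) * τ j) := by
  obtain ⟨η, hη, h1, h2⟩ := FREE_small K p t hε
  refine ⟨η, h1, fun j hj => ⟨h2 j hj, fun h => ?_⟩⟩
  rw [FREE_cr, h, ht j hj h]
  have h3 := FREE_dot_ne (hp j hj.le) (hp (j + 1) hj) h
  have h4 := hτ j
  have h5 : 0 < η * (FREE_dot (p j) (p (j + 1)) * τ j) ^ 2 := by positivity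
  calc (0 : ℝ) < η * (FREE_dot (p j) (p (j + 1)) * τ j) ^ 2 := h5
    _ = _ := by ring

theorem free_lin {K : ℕ} (p : ℕ → ℝ × ℝ) (hp : ∀ j ≤ K, p j ≠ 0) (τ : ℕ → ℝ)
    (hτ : ∀ j, τ j ≠ 0) {ε : ℝ} (hε : 0 < ε) :
    ∃ p' : ℕ → ℝ × ℝ, (∀ j ≤ K, dist (p' j) (p j) < ε) ∧
      ∀ j < K, (cr (p j) (p (j + 1)) ≠ 0 → 0 < cr (p' j) (p' (j + 1)) * cr (p j) (p (j + 1))) ∧
        (cr (p j) (p (j + 1)) = 0 → 0 < cr (p' j) (p' (j + 1)) * τ j) := by
  obtain ⟨η, h1, h2⟩ := FREE_gen (K := K) p hp τ hτ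
    (fun j => ∑ i ∈ Finset.range j, FREE_dot (p i) (p (i + 1)) * τ i) (by
      intro j _ _
      rw [Finset.sum_range_succ]
      ring) hε
  exact ⟨_, h1, h2⟩

theorem free_cyc {K : ℕ} (hK : 1 ≤ K) (p : ℕ → ℝ × ℝ) (hp : ∀ j < K, p j ≠ 0) {σ : ℝ}
    (hσ : σ = 1 ∨ σ = -1) (hpK : p K = σ • p 0) (hne : ∃ j < K, cr (p j) (p (j + 1)) ≠ 0)
    (τ : ℕ → ℝ) (hτ : ∀ j, τ j ≠ 0) {ε : ℝ} (hε : 0 < ε) :
    ∃ p' : ℕ → ℝ × ℝ, (∀ j ≤ K, dist (p' j) (p j) < ε) ∧ p' K = σ • p' 0 ∧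
      ∀ j < K, (cr (p j) (p (j + 1)) ≠ 0 → 0 < cr (p' j) (p' (j + 1)) * cr (p j) (p (j + 1))) ∧
        (cr (p j) (p (j + 1)) = 0 → 0 < cr (p' j) (p' (j + 1)) * τ j) := by
  obtain ⟨a, haK, ha⟩ := hne
  have hσ0 : σ ≠ 0 := by
    rcases hσ with h | h <;> rw [h] <;> norm_num
  have hp' : ∀ j ≤ K, p j ≠ 0 := by
    intro j hj
    rcases Nat.lt_or_ge j K with h | h
    · exact hp j h
    · have : j = K := le_antisymm hj h
      rw [this, hpK]
      exact smul_ne_zero hσ0 (hp 0 hK)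
  -- increments
  set s : ℕ → ℝ := fun i => FREE_dot (p i) (p (i + 1)) * τ i with hs
  set s' : ℕ → ℝ := fun i => if i = a then -∑ l ∈ (Finset.range K).erase a, s l else s i with hs'
  set t : ℕ → ℝ := fun j => ∑ i ∈ Finset.range j, s' i with ht
  have htK : t K = 0 := by
    simp only [ht]
    rw [← Finset.add_sum_erase _ _ (Finset.mem_range.2 haK)]
    have h1 : ∑ x ∈ (Finset.range K).erase a, s' x = ∑ x ∈ (Finset.range K).erase a, s x := by
      apply Finset.sum_congr rfl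
      intro x hx
      simp only [hs']
      rw [if_neg (Finset.ne_of_mem_erase hx)]
    rw [h1]
    simp [hs']
  have ht0 : t 0 = 0 := by simp [ht]
  obtain ⟨η, h1, h2⟩ := FREE_gen (K := K) p hp' τ hτ t (by
      intro j _ hj
      have hja : j ≠ a := fun h => ha (h ▸ hj)
      simp only [ht]
      rw [Finset.sum_range_succ]
      simp only [hs', if_neg hja]
      ring) hε
  refine ⟨_, h1, ?_, h2⟩
  simp only [FREE_pp, htK, ht0, hpK]
  ext <;> simp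

end Pool.Agent.TR
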