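import Mathlib

/-!
# TRL IFT : implicit function theorem with uniqueness, finite dimensional form

PROOF. Consider `Φ (x, p) = (F (x, p), p)` on `E × P`; it has a strict derivative at `(x0, p0)`
which is an isomorphism, so it is a local homeomorphism (`HasStrictFDerivAt.toOpenPartialHomeomorph`
for `ContinuousLinearEquiv`).  Injectivity near `(x0, p0)` gives the first statement (choose a
product neighbourhood), the local inverse applied to `(0, p)` gives the second.
-/

set_option autoImplicit false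

open Topology

namespace Pool.Agent.TR

theorem ift {𝕜 E P : Type*} [RCLike 𝕜] [NormedAddCommGroup E] [NormedSpace 𝕜 E]
    [FiniteDimensional 𝕜 E] [NormedAddCommGroup P] [NormedSpace 𝕜 P] [FiniteDimensional 𝕜 P]
    (F : E × P → E) (x0 : E) (p0 : P) (hF : ContDiff 𝕜 1 F) (hz : F (x0, p0) = 0)
    (hD : Function.Injective fun x : E => fderiv 𝕜 F (x0, p0) (x, 0)) :
    (∃ ρ : ℝ, 0 < ρ ∧ ∀ᶠ p in 𝓝 p0, ∀ x x', dist x x0 < ρ → dist x' x0 < ρ →
      F (x, p) = F (x', p) → x = x') ∧
    ∀ η : ℝ, 0 < η → ∀ᶠ p in 𝓝 p0, ∃ x, dist x x0 < η ∧ F (x, p) = 0 := by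
  have : CompleteSpace (E × P) := FiniteDimensional.complete 𝕜 (E × P)
  have h1 : HasStrictFDerivAt F (fderiv 𝕜 F (x0, p0)) (x0, p0) :=
    hF.contDiffAt.hasStrictFDerivAt (by simp)
  have h2 : HasStrictFDerivAt (fun z : E × P => (F z, z.2))
      ((fderiv 𝕜 F (x0, p0)).prod (ContinuousLinearMap.snd 𝕜 E P)) (x0, p0) :=
    h1.prodMk hasStrictFDerivAt_snd
  set L : E × P →L[𝕜] E × P :=
    (fderiv 𝕜 F (x0, p0)).prod (ContinuousLinearMap.snd 𝕜 E P) with hL
  have hinj : Function.Injective L := by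
    rw [injective_iff_map_eq_zero]
    rintro ⟨x, q⟩ h
    have ha : fderiv 𝕜 F (x0, p0) (x, q) = 0 := congrArg Prod.fst h
    have hb : q = 0 := congrArg Prod.snd h
    subst hb
    have hc : x = 0 := by
      apply hD
      show fderiv 𝕜 F (x0, p0) (x, 0) = fderiv 𝕜 F (x0, p0) (0, 0)
      rw [ha]
      exact (map_zero _).symm
    rw [hc]
    rfl
  let e0 : (E × P) ≃ₗ[𝕜] (E × P) := LinearEquiv.ofInjectiveEndo (L : E × P →ₗ[𝕜] E × P) hinj
  let e : (E × P) ≃L[𝕜] (E × P) := e0.toContinuousLinearEquiv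
  have he : (e : E × P →L[𝕜] E × P) = L := by
    apply ContinuousLinearMap.coe_injective
    apply LinearMap.ext
    intro z
    rfl
  have h3 : HasStrictFDerivAt (fun z : E × P => (F z, z.2)) (e : E × P →L[𝕜] E × P) (x0, p0) := by
    rw [he]; exact h2
  constructor
  · obtain ⟨ρ, hρ, hsub⟩ := Metric.mem_nhds_iff.1
      ((h3.toOpenPartialHomeomorph _).open_source.mem_nhds h3.mem_toOpenPartialHomeomorph_source)
    refine ⟨ρ, hρ, ?_⟩
    filter_upwards [Metric.ball_mem_nhds p0 hρ] with p hp x x' hx hx' hFF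
    have m1 : (x, p) ∈ (h3.toOpenPartialHomeomorph _).source := by
      apply hsub
      rw [Metric.mem_ball, Prod.dist_eq]
      exact max_lt hx hp
    have m2 : (x', p) ∈ (h3.toOpenPartialHomeomorph _).source := by
      apply hsub
      rw [Metric.mem_ball, Prod.dist_eq]
      exact max_lt hx' hp
    have h4 := (h3.toOpenPartialHomeomorph _).injOn m1 m2 (by
      show (F (x, p), p) = (F (x', p), p)
      rw [hFF])
    exact congrArg Prod.fst h4
  · intro η hη
    have h4 := h3.map_nhds_eq_of_equiv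
    have h5 : (Metric.ball x0 η ×ˢ (Set.univ : Set P)) ∈ 𝓝 (x0, p0) :=
      prod_mem_nhds (Metric.ball_mem_nhds x0 hη) Filter.univ_mem
    have h6 := Filter.image_mem_map (m := fun z : E × P => (F z, z.2)) h5
    rw [h4] at h6
    have h7 : Filter.Tendsto (fun p : P => ((0 : E), p)) (𝓝 p0) (𝓝 (F (x0, p0), p0)) := by
      rw [hz]
      exact (Continuous.prodMk_right (0 : E)).continuousAt
    filter_upwards [h7 h6] with p hp
    obtain ⟨⟨x, p'⟩, hx, hxp⟩ := hp
    have e1 : F (x, p') = 0 := congrArg Prod.fst hxp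
    have e2 : p' = p := congrArg Prod.snd hxp
    subst e2
    exact ⟨x, hx.1, e1⟩

end Pool.Agent.TR
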