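import Pool.Agent.Helper65.TR.SL2
import Pool.Agent.Helper65.TR.Defs

/-!
# TRL IND : independent products at nondegenerate solutions

PROOF. `m = n + 2`.  View elements of `PP m` as functions of `u ∈ ℂ^(2 × m)`
(`eval (fun p => u p.1 p.2)`).  `θ_i = om u (a i) (b i)` is (the value of) an element of `Rk m 1`
(`om u x y = Σ_(j<l) (x_j y_l - x_l y_j) pl j l (u)`).
Let `P_1, ..., P_r` be the solutions.  The kernel of `h ↦ (dom (P_k) h (a i) (b i))_i`,
`ℂ^(2m) → ℂ^(2n)`, has dimension `≥ 4` and is contained in `{act g P_k}`, so `P_k` is linearly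
independent, the kernel is exactly of dimension `4`, the map is surjective; choose a linear right
inverse `w_k : ℂ^(2n) → ℂ^(2m)`.  The Pluecker vectors `(pl j l (P_k))` are nonzero and pairwise not
proportional (if `P_k`, `P_l` had proportional Pluecker vectors they would have the same row space,
`P_l = act g P_k`).  So there are `ℓ_(kl) ∈ Rk m 1` with `ℓ_(kl)(P_l) = 0`, `ℓ_(kl)(P_k) ≠ 0`
(`k ≠ l`), and `h0 ∈ Rk m 1` with `h0(P_k) ≠ 0` for all `k` (a vector space over an infinite field is
not a finite union of proper subspaces).  `g_k = h0 ∏_(l≠k) ℓ_(kl) ∈ Rk m r`: `g_k(P_l) ≠ 0` iff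
`k = l`.
Claim: the elements `g_k h0^(K-|α|) θ^α ∈ Rk m (r+K)` (`k < r`, `α ∈ ℕ^(2n)`, `|α| ≤ K`) are
linearly independent; their number is `r C(K + 2n, 2n)`.  Suppose
`Σ c_(k,α) g_k h0^(K-|α|) θ^α = 0` and let `T` be minimal with some `c_(k,α) ≠ 0`, `|α| = T`; fix
such a `k`.  Evaluate at `P_k + s w_k(τ)`, `τ ∈ ℂ^(2n)`, `s ∈ ℂ`:
`θ_i = s τ_i + s^2 q_i(τ)`.  Divide by `s^T` and let `s → 0`:
`Σ_(|α|=T) c_(k,α) g_k(P_k) h0(P_k)^(K-T) τ^α = 0` for all `τ` (terms with `l ≠ k` vanish because
`g_l(P_k) = 0`), so `c_(k,α) = 0` for `|α| = T`, contradiction.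
-/

set_option autoImplicit false

open MvPolynomial

namespace Pool.Agent.TR

namespace IND

/-- evaluation at a pair. -/
noncomputable def ev {m : ℕ} (u : Fin 2 → Fin m → ℂ) : PP m →ₐ[ℂ] ℂ := aeval (fun p => u p.1 p.2)

theorem ev_pl {m : ℕ} (u : Fin 2 → Fin m → ℂ) (i j : Fin m) :
    ev u (pl i j) = u 0 i * u 1 j - u 1 i * u 0 j := by
  simp [ev, pl]

/-- the form `om · x y`. -/
noncomputable def th {m : ℕ} (x y : Fin m → ℂ) : PP m := ∑ i, ∑ j, (x i * y j) • pl i j

theorem ev_th {m : ℕ} (u : Fin 2 → Fin m → ℂ) (x y : Fin m → ℂ) :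
    ev u (th x y) = om u x y := by
  simp only [th, map_sum, map_smul, ev_pl, om, dotProduct, Finset.sum_mul_sum,
    ← Finset.sum_sub_distrib, smul_eq_mul]
  refine Finset.sum_congr rfl fun i _ => Finset.sum_congr rfl fun j _ => ?_
  ring

noncomputable abbrev W (m : ℕ) : Submodule ℂ (PP m) :=
  Submodule.span ℂ (Set.range fun p : Fin m × Fin m => pl p.1 p.2)

theorem pl_mem {m : ℕ} (i j : Fin m) : pl i j ∈ W m :=
  Submodule.subset_span ⟨(i, j), rfl⟩

theorem th_mem {m : ℕ} (x y : Fin m → ℂ) : th x y ∈ W m :=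
  Submodule.sum_mem _ fun i _ => Submodule.sum_mem _ fun j _ =>
    Submodule.smul_mem _ _ (pl_mem i j)

theorem prod_mem {m : ℕ} (M : Submodule ℂ (PP m)) {ι : Type*} (s : Finset ι) (f : ι → PP m)
    (e : ι → ℕ) (h : ∀ i ∈ s, f i ∈ M) : ∏ i ∈ s, f i ^ e i ∈ M ^ (∑ i ∈ s, e i) := by
  classical
  induction s using Finset.induction_on with
  | empty =>
    rw [Finset.prod_empty, Finset.sum_empty, pow_zero]
    exact Submodule.one_le.mp le_rfl
  | insert i s hi ih =>
    rw [Finset.prod_insert hi, Finset.sum_insert hi, pow_add]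
    exact Submodule.mul_mem_mul (Submodule.pow_mem_pow _ (h i (Finset.mem_insert_self i s)) _)
      (ih fun j hj => h j (Finset.mem_insert_of_mem hj))

/-- the differential as a linear map. -/
noncomputable def D {m N : ℕ} (a b : Fin N → Fin m → ℂ) (P : Fin 2 → Fin m → ℂ) :
    (Fin 2 → Fin m → ℂ) →ₗ[ℂ] (Fin N → ℂ) where
  toFun h i := dom P h (a i) (b i)
  map_add' h h' := by
    ext i
    simp only [dom, Pi.add_apply, add_dotProduct]
    ring
  map_smul' c h := by
    ext i
    simp only [dom, Pi.smul_apply, smul_dotProduct, smul_eq_mul, RingHom.id_apply]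
    ring

noncomputable def actL {m : ℕ} (P : Fin 2 → Fin m → ℂ) :
    Matrix (Fin 2) (Fin 2) ℂ →ₗ[ℂ] (Fin 2 → Fin m → ℂ) where
  toFun g := act g P
  map_add' g g' := by
    ext k j
    simp only [act, Matrix.add_apply, Pi.add_apply, Pi.smul_apply, smul_eq_mul]
    ring
  map_smul' c g := by
    ext k j
    simp only [act, Matrix.smul_apply, Pi.add_apply, Pi.smul_apply, smul_eq_mul, RingHom.id_apply]
    ring

theorem surj_inj {n : ℕ} (a b : Fin (2 * n) → Fin (n + 2) → ℂ) (P : Fin 2 → Fin (n + 2) → ℂ)
    (hnd : ∀ h : Fin 2 → Fin (n + 2) → ℂ, (∀ i, dom P h (a i) (b i) = 0) →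
      ∃ g : Matrix (Fin 2) (Fin 2) ℂ, h = act g P) :
    Function.Surjective (D a b P) ∧ Function.Injective (actL P) := by
  have h1 := LinearMap.finrank_range_add_finrank_ker (D a b P)
  have h2 := LinearMap.finrank_range_add_finrank_ker (actL P)
  have h3 : Module.finrank ℂ (Fin 2 → Fin (n + 2) → ℂ) = 2 * (n + 2) := by
    rw [Module.finrank_pi_fintype]
    simp
  have h4 : Module.finrank ℂ (Matrix (Fin 2) (Fin 2) ℂ) = 4 := by
    rw [Module.finrank_matrix]
    simp
  have h5 : Module.finrank ℂ (LinearMap.range (D a b P)) ≤ 2 * n := by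
    have := Submodule.finrank_le (LinearMap.range (D a b P))
    rwa [Module.finrank_fin_fun] at this
  have h6 : Module.finrank ℂ (LinearMap.ker (D a b P)) ≤
      Module.finrank ℂ (LinearMap.range (actL P)) := by
    refine Submodule.finrank_mono fun h hh => ?_
    rw [LinearMap.mem_ker] at hh
    obtain ⟨g, hg⟩ := hnd h (fun i => congrFun hh i)
    exact ⟨g, hg.symm⟩
  constructor
  · rw [← LinearMap.range_eq_top]
    refine Submodule.eq_top_of_finrank_eq ?_
    rw [Module.finrank_fin_fun]
    omega
  · rw [← LinearMap.ker_eq_bot, ← Submodule.finrank_eq_zero (R := ℂ)]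
    omega

theorem exists_pl_ne {m : ℕ} (P : Fin 2 → Fin m → ℂ) (h : Function.Injective (actL P)) :
    ∃ i j, ev P (pl i j) ≠ 0 := by
  by_contra hc
  push Not at hc
  by_cases h0 : P 0 = 0
  · have h1 : actL P !![1, 0; 0, 0] = actL P 0 := by
      ext k j
      fin_cases k <;> simp [actL, act, h0]
    have h2 := congrFun (congrFun (h h1) 0) 0
    simp at h2
  · obtain ⟨j, hj⟩ : ∃ j, P 0 j ≠ 0 := by
      by_contra hn
      push Not at hn
      exact h0 (funext hn)
    have h1 : actL P !![- P 1 j, P 0 j; 0, 0] = actL P 0 := by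
      ext k i
      have h2 := hc j i
      rw [ev_pl] at h2
      fin_cases k
      · simp [actL, act]
        linear_combination h2
      · simp [actL, act]
    have h2 := congrFun (congrFun (h h1) 0) 1
    simp at h2
    exact hj h2

theorem sep {m : ℕ} (u v : Fin 2 → Fin m → ℂ) (hu : ∃ i j, ev u (pl i j) ≠ 0)
    (hv : ∃ i j, ev v (pl i j) ≠ 0) (hd : ¬ ∃ g : Matrix (Fin 2) (Fin 2) ℂ, v = act g u) :
    ∃ l ∈ W m, ev v l = 0 ∧ ev u l ≠ 0 := by
  by_contra hc
  push Not at hc
  obtain ⟨i', j', hU⟩ := hu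
  have h1 : ∀ i j, ev v (pl i' j') * ev u (pl i j) = ev v (pl i j) * ev u (pl i' j') := by
    intro i j
    have h2 := hc (ev v (pl i' j') • pl i j - ev v (pl i j) • pl i' j')
      (Submodule.sub_mem _ (Submodule.smul_mem _ _ (pl_mem _ _))
        (Submodule.smul_mem _ _ (pl_mem _ _)))
      (by rw [map_sub, map_smul, map_smul, smul_eq_mul, smul_eq_mul]; ring)
    rw [map_sub, map_smul, map_smul, smul_eq_mul, smul_eq_mul] at h2
    exact sub_eq_zero.mp h2
  have hV : ev v (pl i' j') ≠ 0 := by
    intro h0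
    obtain ⟨i, j, hij⟩ := hv
    have h2 := h1 i j
    rw [h0, zero_mul] at h2
    exact (mul_ne_zero hij hU) h2.symm
  refine hd ⟨fun k l => if l = 0 then (v k i' * u 1 j' - v k j' * u 1 i') / ev u (pl i' j')
    else (v k j' * u 0 i' - v k i' * u 0 j') / ev u (pl i' j'), ?_⟩
  ext k z
  have h2 := h1 z j'
  have h3 := h1 i' z
  simp only [act, Pi.add_apply, Pi.smul_apply, smul_eq_mul, if_true, one_ne_zero, if_false]
  have h5 : v k z * ev v (pl i' j') = v k i' * ev v (pl z j') + v k j' * ev v (pl i' z) := by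
    simp only [ev_pl]
    fin_cases k
    · simp; ring
    · simp; ring
  have h6 : v k z * ev u (pl i' j') = v k i' * ev u (pl z j') + v k j' * ev u (pl i' z) := by
    apply mul_left_cancel₀ hV
    linear_combination (ev u (pl i' j')) * h5 - v k i' * h2 - v k j' * h3
  rw [div_mul_eq_mul_div, div_mul_eq_mul_div, ← add_div, eq_div_iff hU, h6]
  simp only [ev_pl]
  ring

/-- the substitution `P + s w`. -/
noncomputable def lin {m : ℕ} (P w : Fin 2 → Fin m → ℂ) : PP m →ₐ[ℂ] Polynomial ℂ :=
  aeval (fun p => Polynomial.C (P p.1 p.2) + Polynomial.X * Polynomial.C (w p.1 p.2))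

theorem eval_lin {m : ℕ} (P w : Fin 2 → Fin m → ℂ) (s : ℂ) (f : PP m) :
    (lin P w f).eval s = ev (P + s • w) f := by
  have h : ((Polynomial.aeval s).comp (lin P w) : PP m →ₐ[ℂ] ℂ) = ev (P + s • w) := by
    ext p
    simp [lin, ev]
    ring
  have h2 := DFunLike.congr_fun h f
  simpa [Polynomial.aeval_def] using h2

theorem lin_th {m : ℕ} (P w : Fin 2 → Fin m → ℂ) (x y : Fin m → ℂ) (h : om P x y = 0) :
    lin P w (th x y) = Polynomial.X * (Polynomial.C (dom P w x y) +
      Polynomial.X * Polynomial.C (om w x y)) := by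
  refine Polynomial.funext fun s => ?_
  rw [eval_lin, ev_th]
  simp only [Polynomial.eval_mul, Polynomial.eval_add, Polynomial.eval_X, Polynomial.eval_C]
  have h1 : om (P + s • w) x y = om P x y + s * dom P w x y + s ^ 2 * om w x y := by
    simp only [om, dom, Pi.add_apply, Pi.smul_apply, add_dotProduct, smul_dotProduct, smul_eq_mul]
    ring
  rw [h1, h]
  ring

end IND

open IND in
theorem ind_lower {n r : ℕ} (a b : Fin (2 * n) → Fin (n + 2) → ℂ)
    (P : Fin r → Fin 2 → Fin (n + 2) → ℂ) (hs : ∀ k i, om (P k) (a i) (b i) = 0)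
    (hnd : ∀ k, ∀ h : Fin 2 → Fin (n + 2) → ℂ, (∀ i, dom (P k) h (a i) (b i) = 0) →
      ∃ g : Matrix (Fin 2) (Fin 2) ℂ, h = act g (P k))
    (hd : ∀ k l, k ≠ l → ¬ ∃ g : Matrix (Fin 2) (Fin 2) ℂ, P l = act g (P k)) (K : ℕ) :
    r * (K + 2 * n).choose (2 * n) ≤ Module.finrank ℂ (Rk (n + 2) (r + K)) := by
  classical
  have hsurj : ∀ k, Function.Surjective (D a b (P k)) := fun k => (surj_inj a b (P k) (hnd k)).1
  have hpl : ∀ k, ∃ i j, ev (P k) (pl i j) ≠ 0 := fun k =>
    exists_pl_ne (P k) (surj_inj a b (P k) (hnd k)).2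
  obtain ⟨h0, h0W, h0P⟩ := Module.Dual.exists_forall_mem_ne_zero_of_forall_exists (W (n + 2))
    (fun k : Fin r => (ev (P k)).toLinearMap) (fun k => by
      obtain ⟨i, j, h⟩ := hpl k
      exact ⟨pl i j, pl_mem i j, h⟩)
  have hl : ∀ k l : Fin r, ∃ f ∈ W (n + 2), ev (P k) f ≠ 0 ∧ (k ≠ l → ev (P l) f = 0) := by
    intro k l
    by_cases hkl : k = l
    · exact ⟨h0, h0W, h0P k, fun h => absurd hkl h⟩
    · obtain ⟨f, hf, h1, h2⟩ := sep (P k) (P l) (hpl k) (hpl l) (hd k l hkl)
      exact ⟨f, hf, h2, fun _ => h1⟩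
  choose f hfW hfk hfl using hl
  set g : Fin r → PP (n + 2) := fun k => ∏ l : Fin r, f k l ^ 1 with hg
  have hgk : ∀ k, ev (P k) (g k) ≠ 0 := by
    intro k
    rw [hg, map_prod]
    refine Finset.prod_ne_zero_iff.mpr fun l _ => ?_
    rw [map_pow, pow_one]
    exact hfk k l
  have hgl : ∀ k l, k ≠ l → ev (P l) (g k) = 0 := by
    intro k l hkl
    rw [hg, map_prod]
    refine Finset.prod_eq_zero (Finset.mem_univ l) ?_
    rw [map_pow, pow_one]
    exact hfl k l hkl
  have hgW : ∀ k, g k ∈ W (n + 2) ^ r := by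
    intro k
    have := prod_mem (W (n + 2)) Finset.univ (f k) (fun _ => 1) (fun l _ => hfW k l)
    simpa [hg] using this
  clear_value g
  set φ : Fin (2 * n + 1) → PP (n + 2) := Fin.cons h0 (fun i => th (a i) (b i)) with hφ
  have hφW : ∀ i, φ i ∈ W (n + 2) := by
    intro i
    refine Fin.cases ?_ (fun j => ?_) i
    · simpa [hφ] using h0W
    · simpa [hφ] using th_mem (a j) (b j)
  set J := Finset.finsuppAntidiag (Finset.univ : Finset (Fin (2 * n + 1))) K with hJ
  have hJs : ∀ β ∈ J, ∑ i, β i = K := fun β hβ => by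
    have := (Finset.mem_finsuppAntidiag.mp hβ).1
    simpa using this
  set v : Fin r × J → Rk (n + 2) (r + K) := fun p =>
    ⟨g p.1 * ∏ i, φ i ^ (p.2.1 i), by
      rw [Rk, pow_add]
      refine Submodule.mul_mem_mul (hgW p.1) ?_
      have h1 := prod_mem (W (n + 2)) Finset.univ φ (fun i => p.2.1 i) (fun i _ => hφW i)
      rwa [hJs p.2.1 p.2.2] at h1⟩ with hv
  have hli : LinearIndependent ℂ v := by
    rw [Fintype.linearIndependent_iff]
    intro c hc
    have hc' : ∑ p : Fin r × J, c p • (g p.1 * ∏ i, φ i ^ (p.2.1 i)) = 0 := by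
      have := congrArg Subtype.val hc
      simpa [hv] using this
    have hmain : ∀ T : ℕ, ∀ p : Fin r × J, ∑ i : Fin (2 * n), p.2.1 i.succ = T → c p = 0 := by
      intro T
      induction T using Nat.strong_induction_on with
      | _ T ih =>
        intro p hp
        obtain ⟨k, β⟩ := p
        simp only at hp
        -- the leading form
        set G : MvPolynomial (Fin (2 * n)) ℂ := ∑ γ : J,
          monomial (Finsupp.equivFunOnFinite.symm fun i => γ.1 i.succ)
            (c (k, γ) * ev (P k) (g k) * ev (P k) h0 ^ (γ.1 0) *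
              (0 : ℂ) ^ (∑ i : Fin (2 * n), γ.1 i.succ - T)) with hG
        have hG0 : G = 0 := by
          refine MvPolynomial.funext fun τ => ?_
          obtain ⟨w, hw⟩ := hsurj k τ
          have hw' : ∀ i, dom (P k) w (a i) (b i) = τ i := fun i => congrFun hw i
          have h1 := congrArg (lin (P k) w) hc'
          rw [map_sum, map_zero] at h1
          have h2 : ∀ p : Fin r × J, lin (P k) w (c p • (g p.1 * ∏ i, φ i ^ (p.2.1 i))) =
              Polynomial.X ^ T * (Polynomial.C (c p) * lin (P k) w (g p.1) *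
                lin (P k) w h0 ^ (p.2.1 0) * Polynomial.X ^ (∑ i : Fin (2 * n), p.2.1 i.succ - T) *
                ∏ i : Fin (2 * n), (Polynomial.C (τ i) + Polynomial.X *
                  Polynomial.C (om w (a i) (b i))) ^ (p.2.1 i.succ)) := by
            intro p
            by_cases hpT : ∑ i : Fin (2 * n), p.2.1 i.succ < T
            · rw [ih _ hpT p rfl]
              simp
            · push Not at hpT
              rw [map_smul, map_mul, Fin.prod_univ_succ, map_mul, map_pow, map_prod,
                Polynomial.smul_eq_C_mul]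
              have h3 : ∀ i : Fin (2 * n), lin (P k) w (φ i.succ ^ (p.2.1 i.succ)) =
                  Polynomial.X ^ (p.2.1 i.succ) * (Polynomial.C (τ i) + Polynomial.X *
                  Polynomial.C (om w (a i) (b i))) ^ (p.2.1 i.succ) := by
                intro i
                rw [map_pow, hφ, Fin.cons_succ, lin_th _ _ _ _ (hs k i), hw' i, mul_pow]
              rw [Finset.prod_congr rfl (fun i _ => h3 i), Finset.prod_mul_distrib,
                Finset.prod_pow_eq_pow_sum]
              have h4 : (Polynomial.X : Polynomial ℂ) ^ (∑ i : Fin (2 * n), p.2.1 i.succ) =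
                  Polynomial.X ^ T * Polynomial.X ^ (∑ i : Fin (2 * n), p.2.1 i.succ - T) := by
                rw [← pow_add]
                congr 1
                omega
              rw [h4]
              simp only [hφ, Fin.cons_zero]
              ring
          rw [Finset.sum_congr rfl (fun p _ => h2 p), ← Finset.mul_sum] at h1
          have h3 := (mul_eq_zero.mp h1).resolve_left (pow_ne_zero _ Polynomial.X_ne_zero)
          have h4 := congrArg (Polynomial.eval 0) h3
          rw [Polynomial.eval_finsetSum, Polynomial.eval_zero] at h4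
          have h5 : ∀ f : PP (n + 2), (lin (P k) w f).eval 0 = ev (P k) f := by
            intro f
            rw [eval_lin, zero_smul, add_zero]
          simp only [Polynomial.eval_mul, Polynomial.eval_pow, Polynomial.eval_C,
            Polynomial.eval_X, Polynomial.eval_prod, Polynomial.eval_add, h5, zero_mul,
            add_zero] at h4
          rw [Fintype.sum_prod_type, Finset.sum_eq_single k] at h4
          · rw [map_zero, hG, map_sum]
            refine Eq.trans ?_ h4
            refine Finset.sum_congr rfl fun γ _ => ?_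
            rw [eval_monomial, Finsupp.prod_fintype _ _ (fun i => pow_zero _)]
            simp only [Finsupp.equivFunOnFinite_symm_apply_apply]
          · intro l _ hl
            refine Finset.sum_eq_zero fun γ _ => ?_
            simp only
            rw [hgl l k hl]
            ring
          · intro h
            exact absurd (Finset.mem_univ k) h
        have hco := congrArg (coeff (Finsupp.equivFunOnFinite.symm fun i : Fin (2 * n) =>
          β.1 i.succ)) hG0
        rw [hG, coeff_sum, coeff_zero, Finset.sum_eq_single β] at hco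
        · rw [coeff_monomial, if_pos rfl, hp, Nat.sub_self, pow_zero, mul_one] at hco
          have h1 := (mul_eq_zero.mp hco).resolve_right (pow_ne_zero _ (h0P k))
          exact (mul_eq_zero.mp h1).resolve_right (hgk k)
        · intro γ _ hγ
          rw [coeff_monomial, if_neg]
          intro he
          apply hγ
          apply Subtype.ext
          have he' : ∀ i : Fin (2 * n), γ.1 i.succ = β.1 i.succ := by
            intro i
            have := DFunLike.congr_fun he i
            simpa using this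
          have h1 := hJs γ.1 γ.2
          have h2 := hJs β.1 β.2
          rw [Fin.sum_univ_succ] at h1 h2
          rw [Finset.sum_congr rfl (fun i _ => he' i)] at h1
          ext i
          refine Fin.cases ?_ (fun j => he' j) i
          omega
        · intro h
          exact absurd (Finset.mem_univ β) h
    intro p
    exact hmain _ p rfl
  have : Module.Finite ℂ (Rk (n + 2) (r + K)) := rk_fin _ _
  have hcard := hli.fintype_card_le_finrank
  rw [Fintype.card_prod, Fintype.card_fin, Fintype.card_coe, hJ,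
    Finset.card_finsuppAntidiag_nat_eq_choose, Finset.card_univ, Fintype.card_fin] at hcard
  have hch : (K + 2 * n).choose (2 * n) = (2 * n + 1 + K - 1).choose K := by
    rw [show 2 * n + 1 + K - 1 = K + 2 * n by omega]
    exact Nat.choose_symm_add.symm
  rw [hch]
  exact hcard

end Pool.Agent.TR
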