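import Pool.Agent.Helper65.TR.IFT
import Pool.Agent.Helper65.TR.NRM

/-!
# TRL NFS : stability of nondegenerate solutions, local constancy of the sign
-/

set_option autoImplicit false

open Topology
open Matrix

namespace Pool.Agent.TR

private theorem nfs_ex_cont (n j : ℕ) : Continuous fun c : Cf n => ex c j := by
  unfold ex
  by_cases h : j < 4 * n
  · simp only [dif_pos h]
    exact continuous_apply _
  · simp only [dif_neg h]
    exact continuous_const

private theorem nfs_dot_cont (n : ℕ) (k : Fin 2) (j : ℕ) :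
    Continuous fun p : (Fin 2 → Fin (n + 2) → ℝ) × Cf n => p.1 k ⬝ᵥ ex p.2 j :=
  Continuous.dotProduct ((continuous_apply k).comp continuous_fst)
    ((nfs_ex_cont n j).comp continuous_snd)

private theorem nfs_dotc_cont (n : ℕ) (a : Fin (n + 2) → ℝ) (j : ℕ) :
    Continuous fun p : (Fin 2 → Fin (n + 2) → ℝ) × Cf n => a ⬝ᵥ ex p.2 j :=
  Continuous.dotProduct continuous_const ((nfs_ex_cont n j).comp continuous_snd)

theorem jj_cont (n : ℕ) : Continuous fun p : (Fin 2 → Fin (n + 2) → ℝ) × Cf n =>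
    JJ n (ex p.2) (ex p.2 1) (ex p.2 2) p.1 := by
  unfold JJ
  apply Continuous.matrix_det
  apply continuous_matrix
  intro r s
  rcases r with i | ⟨k, l⟩
  · simp only [Lmat, dom]
    exact ((((nfs_dot_cont n _ _).mul (nfs_dotc_cont n _ _)).add
      ((nfs_dotc_cont n _ _).mul (nfs_dot_cont n _ _))).sub
      ((nfs_dot_cont n _ _).mul (nfs_dotc_cont n _ _))).sub
      ((nfs_dotc_cont n _ _).mul (nfs_dot_cont n _ _))
  · simp only [Lmat]
    by_cases h : l = 0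
    · simp only [if_pos h]
      exact nfs_dotc_cont n _ _
    · simp only [if_neg h]
      exact nfs_dotc_cont n _ _

theorem om_cont (n : ℕ) (i j : ℕ) : Continuous fun p : (Fin 2 → Fin (n + 2) → ℝ) × Cf n =>
    om p.1 (ex p.2 i) (ex p.2 j) := by
  unfold om
  exact ((nfs_dot_cont n _ _).mul (nfs_dot_cont n _ _)).sub
    ((nfs_dot_cont n _ _).mul (nfs_dot_cont n _ _))

theorem tpos_isOpen (n : ℕ) : IsOpen {c : Cf n | TPos (n + 2) (4 * n) (ex c)} := by
  have h : {c : Cf n | TPos (n + 2) (4 * n) (ex c)} =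
      ⋂ s : Fin (n + 2) → Fin (4 * n), {c : Cf n | StrictMono (fun i => (s i : ℕ)) →
        0 < dt (fun i => ex c (s i))} := by
    ext c
    simp only [Set.mem_iInter]
    constructor
    · intro hc s hs
      exact hc (fun i => (s i : ℕ)) hs (fun i => (s i).2)
    · intro hc s hs hs2
      exact hc (fun i => ⟨s i, hs2 i⟩) hs
  rw [h]
  apply isOpen_iInter_of_finite
  intro s
  by_cases hs : StrictMono (fun i => (s i : ℕ))
  · have h2 : {c : Cf n | StrictMono (fun i => (s i : ℕ)) → 0 < dt (fun i => ex c (s i))} =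
        {c : Cf n | 0 < dt (fun i => ex c (s i))} := by
      ext c
      exact ⟨fun h => h hs, fun h _ => h⟩
    rw [h2]
    apply isOpen_lt continuous_const
    unfold dt
    apply Continuous.matrix_det
    apply continuous_matrix
    intro i j
    exact (continuous_apply j).comp (nfs_ex_cont n (s i))
  · have h2 : {c : Cf n | StrictMono (fun i => (s i : ℕ)) → 0 < dt (fun i => ex c (s i))} =
        Set.univ := by
      ext c
      exact ⟨fun _ => trivial, fun _ h => absurd h hs⟩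
    rw [h2]
    exact isOpen_univ

/-- the system of equations of normal solutions. -/
private noncomputable def nfsT (n : ℕ) (u : Fin 2 → Fin (n + 2) → ℝ) (A : ℕ → Fin (n + 2) → ℝ) :
    Fin (2 * n) ⊕ (Fin 2 × Fin 2) → ℝ
  | Sum.inl i => om u (A (2 * i)) (A (2 * i + 1))
  | Sum.inr (k, l) => if l = 0 then u k ⬝ᵥ A 1 - (if k = 0 then 1 else 0)
      else u k ⬝ᵥ A 2 - (if k = 1 then 1 else 0)

private theorem nfsT_iff {n : ℕ} {u : Fin 2 → Fin (n + 2) → ℝ} {A : ℕ → Fin (n + 2) → ℝ} :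
    (∀ x, nfsT n u A x = 0) ↔ (NF n A u ∧ Sol n A u) := by
  constructor
  · intro h
    have h00 := h (Sum.inr (0, 0))
    have h10 := h (Sum.inr (1, 0))
    have h01 := h (Sum.inr (0, 1))
    have h11 := h (Sum.inr (1, 1))
    simp [nfsT] at h00 h10 h01 h11
    refine ⟨⟨by linarith, h10, h01, by linarith⟩, fun i hi => h (Sum.inl ⟨i, hi⟩)⟩
  · rintro ⟨⟨h00, h10, h01, h11⟩, hs⟩ x
    rcases x with i | ⟨k, l⟩
    · exact hs i i.2
    · fin_cases k <;> fin_cases l <;> simp [nfsT, h00, h10, h01, h11]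

private noncomputable def nfsF (n : ℕ) (p : (Fin 2 → Fin (n + 2) → ℝ) × Cf n) :
    Fin 2 → Fin (n + 2) → ℝ :=
  fun k j => nfsT n p.1 (ex p.2) ((Equiv.ofBijective (kap n) (kap_bij n)).symm (k, j))

private theorem nfsF_iff {n : ℕ} {p : (Fin 2 → Fin (n + 2) → ℝ) × Cf n} :
    nfsF n p = 0 ↔ (NF n (ex p.2) p.1 ∧ Sol n (ex p.2) p.1) := by
  rw [← nfsT_iff]
  constructor
  · intro h x
    have h1 := congrFun (congrFun h (kap n x).1) (kap n x).2
    simp only [nfsF, Pi.zero_apply] at h1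
    have h2 : (Equiv.ofBijective (kap n) (kap_bij n)).symm ((kap n x).1, (kap n x).2) = x := by
      rw [Equiv.symm_apply_eq]; rfl
    rw [h2] at h1
    exact h1
  · intro h
    funext k j
    exact h _

private theorem nfs_ex_contDiff (n j : ℕ) (i : Fin (n + 2)) :
    ContDiff ℝ 1 fun p : (Fin 2 → Fin (n + 2) → ℝ) × Cf n => ex p.2 j i := by
  unfold ex
  by_cases h : j < 4 * n
  · simp only [dif_pos h]
    exact (contDiff_apply_apply (𝕜 := ℝ) (E := ℝ) (n := 1) (⟨j, h⟩ : Fin (4 * n)) i).comp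
      contDiff_snd
  · simp only [dif_neg h]
    exact contDiff_const

private theorem nfs_dot_contDiff (n : ℕ) (k : Fin 2) (j : ℕ) :
    ContDiff ℝ 1 fun p : (Fin 2 → Fin (n + 2) → ℝ) × Cf n => p.1 k ⬝ᵥ ex p.2 j := by
  unfold dotProduct
  apply ContDiff.sum
  intro i _
  exact ((contDiff_apply_apply (𝕜 := ℝ) (E := ℝ) (n := 1) k i).comp contDiff_fst).mul
    (nfs_ex_contDiff n j i)

private theorem nfsT_contDiff (n : ℕ) (x : Fin (2 * n) ⊕ (Fin 2 × Fin 2)) :
    ContDiff ℝ 1 fun p : (Fin 2 → Fin (n + 2) → ℝ) × Cf n => nfsT n p.1 (ex p.2) x := by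
  rcases x with i | ⟨k, l⟩
  · simp only [nfsT, om]
    exact ((nfs_dot_contDiff n _ _).mul (nfs_dot_contDiff n _ _)).sub
      ((nfs_dot_contDiff n _ _).mul (nfs_dot_contDiff n _ _))
  · simp only [nfsT]
    by_cases h : l = 0
    · simp only [if_pos h]
      exact (nfs_dot_contDiff n _ _).sub contDiff_const
    · simp only [if_neg h]
      exact (nfs_dot_contDiff n _ _).sub contDiff_const

private theorem nfsF_contDiff (n : ℕ) : ContDiff ℝ 1 (nfsF n) := by
  rw [contDiff_pi]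
  intro k
  rw [contDiff_pi]
  intro j
  exact nfsT_contDiff n _

private theorem nfs_om_add {m : ℕ} (u h : Fin 2 → Fin m → ℝ) (x y : Fin m → ℝ) (t : ℝ) :
    om (u + t • h) x y = om u x y + t * dom u h x y + t ^ 2 * om h x y := by
  simp only [om, dom, Pi.add_apply, Pi.smul_apply, add_dotProduct, smul_dotProduct, smul_eq_mul]
  ring

/-- the derivative of the equations. -/
private noncomputable def nfsD (n : ℕ) (u h : Fin 2 → Fin (n + 2) → ℝ)
    (A : ℕ → Fin (n + 2) → ℝ) : Fin (2 * n) ⊕ (Fin 2 × Fin 2) → ℝ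
  | Sum.inl i => dom u h (A (2 * i)) (A (2 * i + 1))
  | Sum.inr (k, l) => if l = 0 then h k ⬝ᵥ A 1 else h k ⬝ᵥ A 2

private theorem nfsT_deriv (n : ℕ) (u h : Fin 2 → Fin (n + 2) → ℝ) (A : ℕ → Fin (n + 2) → ℝ)
    (x : Fin (2 * n) ⊕ (Fin 2 × Fin 2)) :
    HasDerivAt (fun t : ℝ => nfsT n (u + t • h) A x) (nfsD n u h A x) 0 := by
  rcases x with i | ⟨k, l⟩
  · simp only [nfsT, nfsD, nfs_om_add]
    have h1 : HasDerivAt (fun t : ℝ => t * dom u h (A (2 * i)) (A (2 * i + 1)))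
        (dom u h (A (2 * i)) (A (2 * i + 1))) 0 := by
      simpa using (hasDerivAt_id (0 : ℝ)).mul_const (dom u h (A (2 * i)) (A (2 * i + 1)))
    have h2 : HasDerivAt (fun t : ℝ => t ^ 2 * om h (A (2 * i)) (A (2 * i + 1))) 0 0 := by
      simpa using (hasDerivAt_pow 2 (0 : ℝ)).mul_const (om h (A (2 * i)) (A (2 * i + 1)))
    have h3 := (h1.const_add (om u (A (2 * i)) (A (2 * i + 1)))).add h2
    rw [add_zero] at h3
    exact h3
  · have h1 : ∀ v : Fin (n + 2) → ℝ, ∀ b : ℝ,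
        HasDerivAt (fun t : ℝ => (u + t • h) k ⬝ᵥ v - b) (h k ⬝ᵥ v) 0 := by
      intro v b
      have h2 : (fun t : ℝ => (u + t • h) k ⬝ᵥ v - b) =
          fun t : ℝ => u k ⬝ᵥ v + t * (h k ⬝ᵥ v) - b := by
        funext t
        simp only [Pi.add_apply, Pi.smul_apply, add_dotProduct, smul_dotProduct, smul_eq_mul]
      rw [h2]
      simpa using (((hasDerivAt_id (0 : ℝ)).mul_const (h k ⬝ᵥ v)).const_add
        (u k ⬝ᵥ v)).sub_const b
    simp only [nfsT, nfsD]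
    by_cases hl : l = 0
    · simp only [if_pos hl]
      exact h1 _ _
    · simp only [if_neg hl]
      exact h1 _ _

private theorem nfsF_inj {n : ℕ} {c0 : Cf n} {u0 : Fin 2 → Fin (n + 2) → ℝ}
    (hJ : JJ n (ex c0) (ex c0 1) (ex c0 2) u0 ≠ 0) :
    Function.Injective fun x : Fin 2 → Fin (n + 2) → ℝ =>
      fderiv ℝ (nfsF n) (u0, c0) (x, 0) := by
  intro x x' hxx
  simp only at hxx
  have h0 : fderiv ℝ (nfsF n) (u0, c0) (x - x', 0) = 0 := by
    have : ((x - x', (0 : Cf n)) : (Fin 2 → Fin (n + 2) → ℝ) × Cf n) = (x, 0) - (x', 0) := by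
      ext <;> simp
    rw [this, map_sub, hxx, sub_self]
  set h : Fin 2 → Fin (n + 2) → ℝ := x - x' with hh
  suffices h = 0 from sub_eq_zero.1 (hh ▸ this)
  have hd : HasFDerivAt (nfsF n) (fderiv ℝ (nfsF n) (u0, c0)) (u0, c0) :=
    ((nfsF_contDiff n).differentiable (by norm_num) (u0, c0)).hasFDerivAt
  have hl : HasDerivAt (fun t : ℝ => ((u0 + t • h, c0) : (Fin 2 → Fin (n + 2) → ℝ) × Cf n))
      (h, 0) 0 := by
    apply HasDerivAt.prodMk
    · simpa using ((hasDerivAt_id (0 : ℝ)).smul_const h).const_add u0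
    · exact hasDerivAt_const _ _
  have hcomp := hd.comp_hasDerivAt_of_eq (0 : ℝ) hl (by simp)
  rw [h0] at hcomp
  have hzero : ∀ y, nfsD n u0 h (ex c0) y = 0 := by
    intro y
    have h1 := hasDerivAt_pi.1 (hasDerivAt_pi.1 hcomp (kap n y).1) (kap n y).2
    have h2 := nfsT_deriv n u0 h (ex c0) y
    have h3 : (fun t : ℝ => (nfsF n ∘ fun t : ℝ =>
        ((u0 + t • h, c0) : (Fin 2 → Fin (n + 2) → ℝ) × Cf n)) t (kap n y).1 (kap n y).2) =
        fun t : ℝ => nfsT n (u0 + t • h) (ex c0) y := by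
      funext t
      have h4 : (Equiv.ofBijective (kap n) (kap_bij n)).symm ((kap n y).1, (kap n y).2) = y := by
        rw [Equiv.symm_apply_eq]; rfl
      simp only [Function.comp_apply, nfsF, h4]
    rw [h3] at h1
    have h5 := h1.unique h2
    simpa using h5.symm
  refine (jj_ne_zero.1 hJ) h (fun i hi => ?_) (fun k => ?_) (fun k => ?_)
  · exact hzero (Sum.inl ⟨i, hi⟩)
  · have := hzero (Sum.inr (k, 0))
    simpa [nfsD] using this
  · have := hzero (Sum.inr (k, 1))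
    simpa [nfsD] using this

theorem nf_stab {n : ℕ} (hn : 1 ≤ n) {c0 : Cf n} {u0 : Fin 2 → Fin (n + 2) → ℝ}
    (hNF : NF n (ex c0) u0) (hs : Sol n (ex c0) u0)
    (hJ : JJ n (ex c0) (ex c0 1) (ex c0 2) u0 ≠ 0) :
    (∃ ρ : ℝ, 0 < ρ ∧ ∀ᶠ c in 𝓝 c0, ∀ u u', dist u u0 < ρ → dist u' u0 < ρ →
      NF n (ex c) u → Sol n (ex c) u → NF n (ex c) u' → Sol n (ex c) u' → u = u') ∧
    ∀ η : ℝ, 0 < η → ∀ᶠ c in 𝓝 c0, ∃ u, dist u u0 < η ∧ NF n (ex c) u ∧ Sol n (ex c) u := by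
  obtain ⟨⟨ρ, hρ, h1⟩, h2⟩ := ift (nfsF n) u0 c0 (nfsF_contDiff n)
    (nfsF_iff.2 ⟨hNF, hs⟩) (nfsF_inj hJ)
  refine ⟨⟨ρ, hρ, ?_⟩, fun η hη => ?_⟩
  · filter_upwards [h1] with c hc u u' hu hu' hNu hSu hNu' hSu'
    exact hc u u' hu hu' ((nfsF_iff.2 ⟨hNu, hSu⟩).trans (nfsF_iff.2 ⟨hNu', hSu'⟩).symm)
  · filter_upwards [h2 η hη] with c hc
    obtain ⟨u, hu, hF⟩ := hc
    exact ⟨u, hu, nfsF_iff.1 hF⟩

private theorem nfs_wv_end {n : ℕ} (hn : 1 ≤ n) (A : ℕ → Fin (n + 2) → ℝ)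
    (u : Fin 2 → Fin (n + 2) → ℝ) :
    wv u (ext (n + 2) (4 * n) A) (4 * n) =
      (-1) ^ (n + 2 - 1) * wv u (ext (n + 2) (4 * n) A) 0 := by
  have h1 : ext (n + 2) (4 * n) A (4 * n) = (-1 : ℝ) ^ (n + 2 - 1) • A 0 := by
    simp [ext]
  have h2 : ext (n + 2) (4 * n) A 0 = A 0 := by
    unfold ext
    rw [if_pos (by omega)]
  have h3 : ((-1 : ℂ) ^ (n + 2 - 1)) = (((-1 : ℝ) ^ (n + 2 - 1) : ℝ) : ℂ) := by
    push_cast; rfl
  unfold wv
  rw [h1, h2, h3]
  apply Complex.ext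
  · rw [Complex.re_ofReal_mul]
    simp only [dotProduct_smul, smul_eq_mul]
  · rw [Complex.im_ofReal_mul]
    simp only [dotProduct_smul, smul_eq_mul]

theorem sgA_ev {n : ℕ} (hn : 1 ≤ n) {c0 : Cf n} {u0 : Fin 2 → Fin (n + 2) → ℝ}
    (hT : TPos (n + 2) (4 * n) (ex c0)) (hu : LinearIndependent ℝ u0) (hs : Sol n (ex c0) u0) :
    ∀ᶠ p : (Fin 2 → Fin (n + 2) → ℝ) × Cf n in 𝓝 (u0, c0),
      sgA n (ex p.2) p.1 = sgA n (ex c0) u0 := by
  unfold sgA
  apply sg_cont (x0 := (u0, c0))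
    (w := fun p : (Fin 2 → Fin (n + 2) → ℝ) × Cf n => wv p.1 (ext (n + 2) (4 * n) (ex p.2)))
  · intro j _
    apply Continuous.continuousAt
    have hext : Continuous fun c : Cf n => ext (n + 2) (4 * n) (ex c) j := by
      unfold ext
      by_cases h : j < 4 * n
      · simp only [if_pos h]
        exact nfs_ex_cont n j
      · simp only [if_neg h]
        have h1 := nfs_ex_cont n (j - 4 * n)
        exact h1.const_smul ((-1 : ℝ) ^ (n + 2 - 1))
    have hd : ∀ k : Fin 2, Continuous fun p : (Fin 2 → Fin (n + 2) → ℝ) × Cf n =>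
        p.1 k ⬝ᵥ ext (n + 2) (4 * n) (ex p.2) j := fun k =>
      Continuous.dotProduct ((continuous_apply k).comp continuous_fst)
        (hext.comp continuous_snd)
    have hw : (fun p : (Fin 2 → Fin (n + 2) → ℝ) × Cf n =>
        wv p.1 (ext (n + 2) (4 * n) (ex p.2)) j) = fun p =>
        ((p.1 0 ⬝ᵥ ext (n + 2) (4 * n) (ex p.2) j : ℝ) : ℂ) +
          ((p.1 1 ⬝ᵥ ext (n + 2) (4 * n) (ex p.2) j : ℝ) : ℂ) * Complex.I := by
      funext p
      unfold wv
      exact Complex.mk_eq_add_mul_I _ _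
    rw [hw]
    exact (Complex.continuous_ofReal.comp (hd 0)).add
      ((Complex.continuous_ofReal.comp (hd 1)).mul continuous_const)
  · intro j hj
    exact good_slit hn hT hu hs hj
  · intro p
    exact nfs_wv_end hn (ex p.2) p.1

theorem sgA_pm {n : ℕ} (hn : 1 ≤ n) {c0 : Cf n} {u0 : Fin 2 → Fin (n + 2) → ℝ}
    (hT : TPos (n + 2) (4 * n) (ex c0)) (hu : LinearIndependent ℝ u0) (hs : Sol n (ex c0) u0) :
    sgA n (ex c0) u0 = 1 ∨ sgA n (ex c0) u0 = -1 :=
  sg_pm (fun _ hj => good_slit hn hT hu hs hj) (nfs_wv_end hn (ex c0) u0)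

end Pool.Agent.TR
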