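import Pool.Agent.Helper65.TR.RTW
import Pool.Agent.Helper65.TR.HG
import Pool.Agent.Helper65.TR.CXP

/-!
# TRL NRL : all complex solutions are real

PROOF.  Let `u` be an independent complex solution of the totally positive `c`, `W ⊆ ℂ^m` its row
space, `d = dim (W ∩ conj W) ∈ {0, 1, 2}`.
`d = 2` : `W = conj W` has a real basis `v`; `u = act g (cu v)`.
`d = 1` : `W ∩ conj W` is conjugation invariant, spanned by a real vector `h`;
`W = span(h, g)`, `g = g1 + I g2` with real `g1, g2`; `h, g1, g2` are independent (over `ℝ`), otherwise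
`W = conj W`.  `u` is equivalent to `![h, g]`, and `om ![h, g] a b = om ![h, g1] a b +
I om ![h, g2] a b` for real `a, b`, so `Sol n A ![h, g1]` and `Sol n A ![h, g2]`: contradiction to
`hg`.
`d = 0` : the hypothesis of `cxp` holds; choose `c'` close to `c`, totally positive, `u` a
nondegenerate solution of `c'`; `RR n σ (ex c')` by hypothesis; `rr_nonreal`: `u = act g (cu v)`, so
`W` is in the complexification of a real plane: `d = 2`, contradiction.
-/

set_option autoImplicit false

namespace Pool.Agent.TR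

theorem nrl {n : ℕ} (hn : 1 ≤ n) {σ : ℝ}
    (hall : ∀ c : Cf n, TPos (n + 2) (4 * n) (ex c) → RR n σ (ex c)) {c : Cf n}
    (hT : TPos (n + 2) (4 * n) (ex c)) {u : Fin 2 → Fin (n + 2) → ℂ}
    (hu : LinearIndependent ℂ u) (hs : SolC n (ex c) u) :
    ∃ (v : Fin 2 → Fin (n + 2) → ℝ) (g : Matrix (Fin 2) (Fin 2) ℂ),
      u = act g (cu v) ∧ g.det ≠ 0 := by
  sorry

end Pool.Agent.TR
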