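import Pool.Agent.Helper65.TR.EXT
import Pool.Agent.Helper65.TR.FREE

/-!
# TRL OD : at most `2 m - 4` disjoint pairs of adjacent columns can be met

PROOF. Induction on `m`.  `m = 2` : `om u x y = det(u) det(x, y)`, so no gap is zero, and
`u(A j) ≠ 0` (`A j ≠ 0` because it occurs in a positive minor; `M ≥ 2`).
Step to `m ≥ 3`.
Case 1: some `j < M` with `u(A j) = 0`.  `tp_drop` : family `B` of `M - 1` columns in dimension
`m - 1`, `B k = -π (A k)` (`k < j`), `π (A (k+1))` (`k ≥ j`), and `ψ_k` with `ψ_k ∘ π = u_k`;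
`ψ` is linearly independent.  `Q' = {q | q ∈ Q, q + 1 < j} ∪ {q - 1 | q ∈ Q, j < q}`; the only
elements of `Q` which are lost are `j - 1` and `j`, and `Q` contains at most one of them.  So
`Q.card - 1 ≤ Q'.card ≤ 2 (m-1) - 4`, hence `Q.card ≤ 2 m - 5 < 2 m - 4`.
Case 2: `u(A j) ≠ 0` for all `j < M`.  Suppose `Q.card ≥ 2 m - 3`.  `M ≥ 3`, gaps
`D_0, ..., D_(M-2)`.  `free_lin` with `K = M - 1`, `p_j = u(A j)` and signs `τ` chosen
as follows: zero gaps outside `Q` get any sign; then for `j ∈ Q` with `j ≥ 1` the sign opposite to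
the sign of the gap `j - 1` (this gap is not in `Q`), and for `j = 0 ∈ Q` the sign opposite to the
sign of the gap `1`.  Then the new gaps have at least `Q.card ≥ 2 m - 3` sign changes.  The
perturbation `p'` of `p` is realised by `A' j = A j + (lift of p'_j - p_j)` where the lift is a
fixed linear right inverse of `u : ℝ^m → ℝ^2`; for small `ε`, `A'` is still totally positive
(finitely many minors, continuity).  Contradiction to `gcp`.
-/

set_option autoImplicit false

open Matrix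

namespace Pool.Agent.TR

/-- total positivity is open. -/
theorem tpos_open {m M : ℕ} {A : ℕ → Fin m → ℝ} (hA : TPos m M A) :
    ∃ ε : ℝ, 0 < ε ∧ ∀ B : ℕ → Fin m → ℝ, (∀ j < M, ∀ i, |B j i - A j i| < ε) → TPos m M B := by
  sorry

theorem od {m M : ℕ} (hm : 2 ≤ m) (hM : m ≤ M) {A : ℕ → Fin m → ℝ} (hA : TPos m M A)
    (u : Fin 2 → Fin m → ℝ) (hu : LinearIndependent ℝ u) (Q : Finset ℕ)
    (hQ : ∀ j ∈ Q, j + 1 < M ∧ gap u A j = 0) (hQ2 : ∀ j ∈ Q, j + 1 ∉ Q) :
    Q.card ≤ 2 * m - 4 ∧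
      (Q.card = 2 * m - 4 → ∀ j < M, ¬ (u 0 ⬝ᵥ A j = 0 ∧ u 1 ⬝ᵥ A j = 0)) := by
  sorry

end Pool.Agent.TR
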