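import Pool.Agent.Helper65.TR.Defs

/-!
# TRL QUO : projection from a vector

PROOF. Choose `k` with `v k ≠ 0`.  `P x = (x_k / v_k, (x_l - x_k v_l / v_k)_{l ≠ k})` (indices
through `Fin.succAbove k`) is an injective linear map with `P v = e_0`; `π x` consists of the last
`m` coordinates of `P x`, the first one multiplied by `(det P)⁻¹`, so that
`det(π x_1, ..., π x_m) = det(v, x_1, ..., x_m)` (expansion along the first row).
`φ` with `φ(v) = 0` is `x ↦ Σ_{l ≠ k} φ_l (x_l - x_k v_l / v_k)`.
-/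

set_option autoImplicit false

open Matrix

namespace Pool.Agent.TR

namespace Quo

/-- The coordinates after the projection from `v` (`v k ≠ 0`). -/
noncomputable def P {m : ℕ} (v : Fin (m + 1) → ℝ) (k : Fin (m + 1)) :
    (Fin (m + 1) → ℝ) →ₗ[ℝ] (Fin (m + 1) → ℝ) where
  toFun x := Fin.cons (x k / v k) (fun l => x (k.succAbove l) - x k * v (k.succAbove l) / v k)
  map_add' x y := by
    funext i
    refine Fin.cases ?_ (fun l => ?_) i
    · simp [add_div]
    · simp only [Pi.add_apply, Fin.cons_succ]; ring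
  map_smul' c x := by
    funext i
    refine Fin.cases ?_ (fun l => ?_) i
    · simp [mul_div_assoc]
    · simp only [Pi.smul_apply, Fin.cons_succ, smul_eq_mul, RingHom.id_apply]; ring

theorem P_zero {m : ℕ} (v : Fin (m + 1) → ℝ) (k : Fin (m + 1)) (x : Fin (m + 1) → ℝ) :
    P v k x 0 = x k / v k := rfl

theorem P_succ {m : ℕ} (v : Fin (m + 1) → ℝ) (k : Fin (m + 1)) (x : Fin (m + 1) → ℝ)
    (l : Fin m) :
    P v k x l.succ = x (k.succAbove l) - x k * v (k.succAbove l) / v k := rfl

theorem P_det {m : ℕ} (v : Fin (m + 1) → ℝ) (k : Fin (m + 1)) (hk : v k ≠ 0) :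
    LinearMap.det (P v k) ≠ 0 := by
  have hinj : Function.Injective (P v k) := by
    rw [injective_iff_map_eq_zero]
    intro x hx
    have h0 : x k = 0 := by
      have h := congrFun hx 0
      rw [P_zero, Pi.zero_apply, div_eq_zero_iff] at h
      exact h.resolve_right hk
    funext i
    rcases Fin.eq_self_or_eq_succAbove k i with h | ⟨l, h⟩
    · rw [h]; exact h0
    · have h1 := congrFun hx l.succ
      rw [P_succ, Pi.zero_apply, h0, zero_mul, zero_div, sub_zero] at h1
      rw [h]; exact h1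
  have h := LinearMap.isUnit_det (P v k) ((LinearMap.isUnit_iff_ker_eq_bot _).mpr
    (LinearMap.ker_eq_bot.mpr hinj))
  exact h.ne_zero

theorem det_rows {n : ℕ} (f : (Fin n → ℝ) →ₗ[ℝ] (Fin n → ℝ)) (x : Fin n → Fin n → ℝ) :
    Matrix.det (Matrix.of fun i => f (x i)) = LinearMap.det f * Matrix.det (Matrix.of x) := by
  have h : (Matrix.of fun i => f (x i)) = Matrix.of x * (LinearMap.toMatrix' f)ᵀ := by
    ext i j
    rw [Matrix.mul_apply]
    have h1 : f (x i) = (LinearMap.toMatrix' f) *ᵥ (x i) := by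
      rw [LinearMap.toMatrix'_mulVec]
    simp only [Matrix.of_apply]
    rw [h1, Matrix.mulVec, dotProduct]
    refine Finset.sum_congr rfl fun l _ => ?_
    rw [Matrix.transpose_apply, mul_comm]
  rw [h, Matrix.det_mul, Matrix.det_transpose, LinearMap.det_toMatrix', mul_comm]

end Quo

open Quo in
theorem quo {m : ℕ} (hm : 1 ≤ m) (v : Fin (m + 1) → ℝ) (hv : v ≠ 0) :
    ∃ π : (Fin (m + 1) → ℝ) →ₗ[ℝ] (Fin m → ℝ),
      (∀ x : Fin m → Fin (m + 1) → ℝ, dt (fun k => π (x k)) = dt (Matrix.vecCons v x)) ∧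
      π v = 0 ∧
      ∀ φ : Fin (m + 1) → ℝ, φ ⬝ᵥ v = 0 → ∃ ψ : Fin m → ℝ, ∀ x, ψ ⬝ᵥ π x = φ ⬝ᵥ x := by
  obtain ⟨m, rfl⟩ : ∃ m', m = m' + 1 := ⟨m - 1, by omega⟩
  obtain ⟨k, hk⟩ : ∃ k, v k ≠ 0 := by
    by_contra h
    push Not at h
    exact hv (funext h)
  set d := LinearMap.det (P v k) with hd
  have hd0 : d ≠ 0 := P_det v k hk
  set c : Fin (m + 1) → ℝ := fun l => if l = 0 then d⁻¹ else 1 with hc
  have hc0 : ∀ l, c l ≠ 0 := by
    intro l
    simp only [hc]
    split_ifs
    · exact inv_ne_zero hd0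
    · exact one_ne_zero
  have hcp : ∏ l, c l = d⁻¹ := by
    simp only [hc]
    rw [Finset.prod_ite_eq' Finset.univ (0 : Fin (m + 1)) (fun _ => d⁻¹)]
    simp
  have hPv : P v k v = Pi.single 0 1 := by
    funext i
    refine Fin.cases ?_ (fun l => ?_) i
    · rw [P_zero, Pi.single_eq_same, div_self hk]
    · rw [P_succ, Pi.single_eq_of_ne (Fin.succ_ne_zero l), mul_comm, mul_div_assoc, div_self hk,
        mul_one, sub_self]
  refine ⟨⟨⟨fun x l => c l * P v k x l.succ, ?_⟩, ?_⟩, ?_, ?_, ?_⟩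
  · intro x y
    funext l
    simp only [map_add, Pi.add_apply, mul_add]
  · intro r x
    funext l
    simp only [map_smul, Pi.smul_apply, smul_eq_mul, RingHom.id_apply]
    ring
  · intro x
    have h1 : dt (fun i => (fun l => c l * P v k (x i) l.succ : Fin (m + 1) → ℝ))
        = (∏ l, c l) * Matrix.det (Matrix.of fun i l => P v k (x i) (Fin.succ l)) :=
      Matrix.det_mul_row c (Matrix.of fun i l => P v k (x i) (Fin.succ l))
    have h2 : Matrix.det (Matrix.of fun i => P v k (Matrix.vecCons v x i))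
        = Matrix.det (Matrix.of fun i l => P v k (x i) (Fin.succ l)) := by
      rw [Matrix.det_succ_row_zero, Finset.sum_eq_single 0]
      · simp only [Fin.val_zero, pow_zero, Matrix.of_apply, Matrix.cons_val_zero, hPv,
          Pi.single_eq_same, mul_one, one_mul]
        rfl
      · intro j _ hj
        simp only [Matrix.of_apply, Matrix.cons_val_zero, hPv]
        rw [Pi.single_eq_of_ne hj]
        ring
      · intro h; exact absurd (Finset.mem_univ _) h
    have h3 := det_rows (P v k) (Matrix.vecCons v x)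
    change dt (fun i => (fun l => c l * P v k (x i) l.succ : Fin (m + 1) → ℝ)) = _
    rw [h1, ← h2, h3, hcp, ← hd, ← mul_assoc, inv_mul_cancel₀ hd0, one_mul]
    rfl
  · funext l
    change c l * P v k v l.succ = 0
    rw [hPv, Pi.single_eq_of_ne (Fin.succ_ne_zero l), mul_zero]
  · intro φ hφ
    refine ⟨fun l => φ (k.succAbove l) / c l, fun x => ?_⟩
    change ∑ l, φ (k.succAbove l) / c l * (c l * P v k x l.succ) = ∑ i, φ i * x i
    have hφ' : ∑ i, φ i * v i = 0 := hφ
    rw [Fin.sum_univ_succAbove _ k] at hφ' ⊢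
    have h1 : ∀ l : Fin (m + 1), φ (k.succAbove l) / c l * (c l * P v k x l.succ)
        = φ (k.succAbove l) * x (k.succAbove l)
          - x k / v k * (φ (k.succAbove l) * v (k.succAbove l)) := by
      intro l
      rw [P_succ]
      have := hc0 l
      field_simp
    rw [Finset.sum_congr rfl fun l _ => h1 l, Finset.sum_sub_distrib, ← Finset.mul_sum]
    have h2 : ∑ l, φ (k.succAbove l) * v (k.succAbove l) = - (φ k * v k) := by linarith
    rw [h2]
    field_simp
    ring

end Pool.Agent.TR
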