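import Pool.Agent.Helper65.TR.Defs

/-!
# TRL RED : sorted minors with a common part

`mi A T` is the maximal minor of the columns in the finite set `T` (in increasing order).  With a
fixed set `T` of `m` columns in dimension `m + 2` the minors `mi A (T ∪ {p, q})` behave like the
`2 × 2` minors of a `2 × ∞` matrix (this contains the three-term Pluecker relation).

PROOF. `ω(x, y) = det(x, y, T sorted)` is an alternating form which vanishes if `x` or `y` is in
the span of `T`, so it factors through a space of dimension `≤ 2` (if the columns of `T` are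
independent the quotient has dimension `2`; otherwise `ω = 0` and `b = 0` works), hence
`ω(x, y) = f(x) g(y) - g(x) f(y)` with linear functionals `f, g`.  Sorting: with
`σ(p) = (-1)^(number of elements of T less than p)`, `mi A (T ∪ {p,q}) = σ(p) σ(q) ω(A p, A q)` for
`p < q`.  So `b p = σ(p) (f(A p), g(A p))`.
-/

set_option autoImplicit false

namespace Pool.Agent.TR

/-- the sorted maximal minor. -/
noncomputable def mi {m : ℕ} (A : ℕ → Fin m → ℝ) (T : Finset ℕ) : ℝ :=
  if h : T.card = m then dt (fun k => A (T.orderEmbOfFin h k)) else 0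

namespace RED

/-- moving a row to the front -/
lemma dt_insertNth {n : ℕ} (k : Fin (n + 1)) (x : Fin (n + 1) → ℝ)
    (G : Fin n → Fin (n + 1) → ℝ) :
    dt (k.insertNth x G : Fin (n + 1) → Fin (n + 1) → ℝ) =
      (-1) ^ (k : ℕ) * dt (Fin.cons x G : Fin (n + 1) → Fin (n + 1) → ℝ) := by
  have h : (k.insertNth x G : Fin (n + 1) → Fin (n + 1) → ℝ) =
      fun i => (Fin.cons x G : Fin (n + 1) → Fin (n + 1) → ℝ) (k.cycleRange i) := by
    funext i
    exact (Fin.cons_apply_cycleRange x G k i).symm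
  have h2 := Matrix.det_permute k.cycleRange
    (Matrix.of (Fin.cons x G : Fin (n + 1) → Fin (n + 1) → ℝ))
  rw [Fin.sign_cycleRange] at h2
  unfold dt
  rw [h]
  have h3 : (Matrix.of (Fin.cons x G : Fin (n + 1) → Fin (n + 1) → ℝ)).submatrix k.cycleRange id =
      Matrix.of fun i => (Fin.cons x G : Fin (n + 1) → Fin (n + 1) → ℝ) (k.cycleRange i) := rfl
  rw [← h3, h2]
  push_cast
  ring

/-- moving a row to the second place -/
lemma dt_cons_insertNth {n : ℕ} (k : Fin (n + 1)) (x y : Fin (n + 2) → ℝ)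
    (G : Fin n → Fin (n + 2) → ℝ) :
    dt (Fin.cons x (k.insertNth y G : Fin (n + 1) → Fin (n + 2) → ℝ) :
        Fin (n + 2) → Fin (n + 2) → ℝ) =
      (-1) ^ (k : ℕ) * dt (Fin.cons x (Fin.cons y G : Fin (n + 1) → Fin (n + 2) → ℝ) :
        Fin (n + 2) → Fin (n + 2) → ℝ) := by
  set σ : Equiv.Perm (Fin (n + 2)) := Equiv.Perm.decomposeFin.symm (0, k.cycleRange) with hσ
  have h : (Fin.cons x (k.insertNth y G : Fin (n + 1) → Fin (n + 2) → ℝ) :
        Fin (n + 2) → Fin (n + 2) → ℝ) =
      fun i => (Fin.cons x (Fin.cons y G : Fin (n + 1) → Fin (n + 2) → ℝ) :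
        Fin (n + 2) → Fin (n + 2) → ℝ) (σ i) := by
    funext i
    refine Fin.cases ?_ (fun i => ?_) i
    · rw [hσ, Equiv.Perm.decomposeFin_symm_apply_zero]
      simp
    · rw [hσ, Equiv.Perm.decomposeFin_symm_apply_succ, Equiv.swap_self, Equiv.refl_apply,
        Fin.cons_succ, Fin.cons_succ]
      exact (Fin.cons_apply_cycleRange y G k i).symm
  have h2 := Matrix.det_permute σ
    (Matrix.of (Fin.cons x (Fin.cons y G : Fin (n + 1) → Fin (n + 2) → ℝ) :
        Fin (n + 2) → Fin (n + 2) → ℝ))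
  rw [hσ, Equiv.Perm.decomposeFin.symm_sign, if_pos rfl, one_mul, Fin.sign_cycleRange,
    ← hσ] at h2
  unfold dt
  rw [h]
  have h3 : (Matrix.of (Fin.cons x (Fin.cons y G : Fin (n + 1) → Fin (n + 2) → ℝ) :
        Fin (n + 2) → Fin (n + 2) → ℝ)).submatrix σ id =
      Matrix.of fun i => (Fin.cons x (Fin.cons y G : Fin (n + 1) → Fin (n + 2) → ℝ) :
        Fin (n + 2) → Fin (n + 2) → ℝ) (σ i) := rfl
  rw [← h3, h2]
  push_cast
  ring

lemma pos_eq {S : Finset ℕ} {n : ℕ} (h : S.card = n) (k : Fin n) :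
    (S.filter (fun t => t < S.orderEmbOfFin h k)).card = k := by
  have : S.filter (fun t => t < S.orderEmbOfFin h k) =
      (Finset.Iio k).map (S.orderEmbOfFin h).toEmbedding := by
    ext x
    simp only [Finset.mem_filter, Finset.mem_map, Finset.mem_Iio]
    constructor
    · rintro ⟨hx, hlt⟩
      have hx' : x ∈ Set.range (S.orderEmbOfFin h) := by
        rw [Finset.range_orderEmbOfFin]; exact hx
      obtain ⟨i, rfl⟩ := hx'
      exact ⟨i, (S.orderEmbOfFin h).lt_iff_lt.1 hlt, rfl⟩
    · rintro ⟨i, hi, rfl⟩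
      exact ⟨Finset.orderEmbOfFin_mem _ _ _, (S.orderEmbOfFin h).lt_iff_lt.2 hi⟩
  rw [this, Finset.card_map, Fin.card_Iio]

lemma emb_insert {T : Finset ℕ} {n : ℕ} (hT : T.card = n) {p : ℕ} (_hp : p ∉ T)
    (hS : (insert p T).card = n + 1) :
    ∃ k : Fin (n + 1), (k : ℕ) = (T.filter (fun t => t < p)).card ∧
      ((insert p T).orderEmbOfFin hS : Fin (n + 1) → ℕ) =
        (k.insertNth p (T.orderEmbOfFin hT) : Fin (n + 1) → ℕ) := by
  have hp' : p ∈ Set.range ((insert p T).orderEmbOfFin hS) := by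
    rw [Finset.range_orderEmbOfFin]; simp
  obtain ⟨k, hk⟩ := hp'
  refine ⟨k, ?_, ?_⟩
  · have h1 := pos_eq hS k
    rw [hk, Finset.filter_insert, if_neg (lt_irrefl p)] at h1
    exact h1.symm
  · have h1 : (fun i : Fin n => (insert p T).orderEmbOfFin hS (k.succAbove i)) =
        T.orderEmbOfFin hT := by
      apply Finset.orderEmbOfFin_unique
      · intro i
        have h2 := Finset.orderEmbOfFin_mem (insert p T) hS (k.succAbove i)
        rcases Finset.mem_insert.1 h2 with h3 | h3
        · exfalso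
          have h4 : k.succAbove i = k := ((insert p T).orderEmbOfFin hS).injective (h3.trans hk.symm)
          exact Fin.succAbove_ne k i h4
        · exact h3
      · exact ((insert p T).orderEmbOfFin hS).strictMono.comp (Fin.strictMono_succAbove k)
    funext i
    rcases Fin.eq_self_or_eq_succAbove k i with h | ⟨j, h⟩
    · rw [h, Fin.insertNth_apply_same, hk]
    · rw [h, Fin.insertNth_apply_succAbove, ← h1]

/-- the alternating form -/
noncomputable def w {m : ℕ} (G : Fin m → Fin (m + 2) → ℝ) (x y : Fin (m + 2) → ℝ) : ℝ :=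
  dt (Fin.cons x (Fin.cons y G : Fin (m + 1) → Fin (m + 2) → ℝ) : Fin (m + 2) → Fin (m + 2) → ℝ)

lemma mi_insert {m : ℕ} (A : ℕ → Fin (m + 2) → ℝ) (T : Finset ℕ) (hT : T.card = m)
    {p q : ℕ} (hp : p ∉ T) (hq : q ∉ T) (hpq : p < q) :
    mi A (insert p (insert q T)) = (-1) ^ (T.filter (fun t => t < p)).card *
      (-1) ^ (T.filter (fun t => t < q)).card *
      w (fun i => A (T.orderEmbOfFin hT i)) (A p) (A q) := by
  have hS1 : (insert q T).card = m + 1 := by rw [Finset.card_insert_of_notMem hq, hT]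
  have hp1 : p ∉ insert q T := by
    rw [Finset.mem_insert]; push Not; exact ⟨hpq.ne, hp⟩
  have hS2 : (insert p (insert q T)).card = m + 2 := by
    rw [Finset.card_insert_of_notMem hp1, hS1]
  obtain ⟨k, hk1, hk2⟩ := emb_insert hS1 hp1 hS2
  obtain ⟨l, hl1, hl2⟩ := emb_insert hT hq hS1
  rw [Finset.filter_insert, if_neg (not_lt.mpr hpq.le)] at hk1
  unfold mi
  rw [dif_pos hS2]
  have e1 : (fun i => A ((insert p (insert q T)).orderEmbOfFin hS2 i)) =
      (k.insertNth (A p) (fun i => A ((insert q T).orderEmbOfFin hS1 i)) :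
        Fin (m + 2) → Fin (m + 2) → ℝ) := by
    funext i
    rw [hk2]
    rcases Fin.eq_self_or_eq_succAbove k i with h | ⟨j, h⟩
    · rw [h, Fin.insertNth_apply_same, Fin.insertNth_apply_same]
    · rw [h, Fin.insertNth_apply_succAbove, Fin.insertNth_apply_succAbove]
  have e2 : (fun i => A ((insert q T).orderEmbOfFin hS1 i)) =
      (l.insertNth (A q) (fun i => A (T.orderEmbOfFin hT i)) :
        Fin (m + 1) → Fin (m + 2) → ℝ) := by
    funext i
    rw [hl2]
    rcases Fin.eq_self_or_eq_succAbove l i with h | ⟨j, h⟩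
    · rw [h, Fin.insertNth_apply_same, Fin.insertNth_apply_same]
    · rw [h, Fin.insertNth_apply_succAbove, Fin.insertNth_apply_succAbove]
  rw [e1, dt_insertNth, e2, dt_cons_insertNth, hk1, hl1, w, mul_assoc]

/-- the equivalence -/
def eqv (m : ℕ) : Fin 2 ⊕ Fin m ≃ Fin (m + 2) := finSumFinEquiv.trans (finCongr (by omega))

lemma eqv_inl_zero (m : ℕ) : eqv m (Sum.inl 0) = 0 := by
  apply Fin.ext; simp [eqv]

lemma eqv_inl_one (m : ℕ) : eqv m (Sum.inl 1) = 1 := by
  apply Fin.ext; simp [eqv]

lemma eqv_inr (m : ℕ) (i : Fin m) : eqv m (Sum.inr i) = i.succ.succ := by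
  apply Fin.ext; simp [eqv]

lemma det_two {m : ℕ} (c c' : Fin (m + 2) → ℝ) :
    w (fun i : Fin m => Pi.single i.succ.succ 1) c c' = c 0 * c' 1 - c 1 * c' 0 := by
  unfold w dt
  rw [← Matrix.det_submatrix_equiv_self (eqv m)]
  have h : (Matrix.of (Fin.cons c (Fin.cons c' (fun i : Fin m => Pi.single i.succ.succ (1 : ℝ)) :
      Fin (m + 1) → Fin (m + 2) → ℝ) : Fin (m + 2) → Fin (m + 2) → ℝ)).submatrix
        (eqv m) (eqv m) =
      Matrix.fromBlocks (Matrix.of ![![c 0, c 1], ![c' 0, c' 1]])
        (Matrix.of ![fun i : Fin m => c i.succ.succ, fun i : Fin m => c' i.succ.succ]) 0 1 := by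
    ext i j
    rcases i with i | i <;> rcases j with j | j
    · fin_cases i <;> fin_cases j <;>
        simp [Matrix.submatrix_apply, eqv_inl_zero, eqv_inl_one]
    · fin_cases i <;> simp [Matrix.submatrix_apply, eqv_inl_zero, eqv_inl_one, eqv_inr]
    · have h1 : (1 : Fin (m + 2)) ≠ i.succ.succ := by
        intro h
        have := congrArg Fin.val h
        simp at this
      fin_cases j <;> simp [Matrix.submatrix_apply, eqv_inl_zero, eqv_inl_one, eqv_inr,
        Pi.single_eq_of_ne h1]
    · simp [Matrix.submatrix_apply, eqv_inr, Matrix.one_apply, Pi.single_apply, eq_comm]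
  rw [h, Matrix.det_fromBlocks_zero₂₁, Matrix.det_one, mul_one, Matrix.det_fin_two]
  simp

end RED

open RED in
theorem red {m : ℕ} (A : ℕ → Fin (m + 2) → ℝ) (T : Finset ℕ) (hT : T.card = m) :
    ∃ b : ℕ → Fin 2 → ℝ, ∀ p ∉ T, ∀ q ∉ T, p < q →
      mi A (insert p (insert q T)) = b p 0 * b q 1 - b p 1 * b q 0 := by
  set G : Fin m → Fin (m + 2) → ℝ := fun i => A (T.orderEmbOfFin hT i) with hG
  by_cases h0 : ∀ x y, w G x y = 0
  · refine ⟨0, fun p hp q hq hpq => ?_⟩
    rw [mi_insert A T hT hp hq hpq, ← hG, h0]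
    simp
  · push Not at h0
    obtain ⟨x0, y0, hxy⟩ := h0
    set B : Matrix (Fin (m + 2)) (Fin (m + 2)) ℝ := Matrix.of
      (Fin.cons x0 (Fin.cons y0 G : Fin (m + 1) → Fin (m + 2) → ℝ) :
        Fin (m + 2) → Fin (m + 2) → ℝ) with hB
    have hdet : B.det = w G x0 y0 := rfl
    have hunit : IsUnit B.det := by rw [hdet]; exact isUnit_iff_ne_zero.mpr hxy
    set c : (Fin (m + 2) → ℝ) → Fin (m + 2) → ℝ := fun x => Matrix.vecMul x B⁻¹ with hc
    have hcx : ∀ x, Matrix.vecMul (c x) B = x := by
      intro x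
      rw [hc]
      simp only
      rw [Matrix.vecMul_vecMul, Matrix.nonsing_inv_mul _ hunit, Matrix.vecMul_one]
    have hw : ∀ x y, w G x y = (c x 0 * c y 1 - c x 1 * c y 0) * w G x0 y0 := by
      intro x y
      rw [← det_two, ← hdet]
      unfold w dt
      rw [← Matrix.det_mul]
      congr 1
      ext i j
      rw [Matrix.mul_apply]
      refine Fin.cases ?_ (fun i => ?_) i
      · simp only [Matrix.of_apply, Fin.cons_zero]
        conv_lhs => rw [← hcx x]
        rfl
      · refine Fin.cases ?_ (fun i => ?_) i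
        · simp only [Matrix.of_apply, Fin.cons_succ, Fin.cons_zero]
          conv_lhs => rw [← hcx y]
          rfl
        · simp only [Matrix.of_apply, Fin.cons_succ]
          rw [Finset.sum_eq_single i.succ.succ]
          · simp [hB]
          · intro l _ hl
            rw [Pi.single_eq_of_ne hl, zero_mul]
          · intro h; exact absurd (Finset.mem_univ _) h
    refine ⟨fun p => ![(-1) ^ (T.filter (fun t => t < p)).card * c (A p) 0 * w G x0 y0,
      (-1) ^ (T.filter (fun t => t < p)).card * c (A p) 1], fun p hp q hq hpq => ?_⟩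
    rw [mi_insert A T hT hp hq hpq, ← hG, hw]
    simp only [Matrix.cons_val_zero, Matrix.cons_val_one]
    ring

/-- total positivity in terms of sorted minors. -/
theorem tpos_iff_mi {m M : ℕ} (A : ℕ → Fin m → ℝ) :
    TPos m M A ↔ ∀ T : Finset ℕ, T.card = m → (∀ j ∈ T, j < M) → 0 < mi A T := by
  constructor
  · intro h T hT hM
    unfold mi
    rw [dif_pos hT]
    exact h (fun k => T.orderEmbOfFin hT k) (T.orderEmbOfFin hT).strictMono
      fun i => hM _ (Finset.orderEmbOfFin_mem _ _ _)
  · intro h s hs hM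
    have hcard : (Finset.univ.image s).card = m := by
      rw [Finset.card_image_of_injective _ hs.injective, Finset.card_univ, Fintype.card_fin]
    have h1 := h (Finset.univ.image s) hcard (by
      intro j hj
      obtain ⟨i, _, rfl⟩ := Finset.mem_image.1 hj
      exact hM i)
    unfold mi at h1
    rw [dif_pos hcard] at h1
    have h2 : s = (Finset.univ.image s).orderEmbOfFin hcard :=
      Finset.orderEmbOfFin_unique hcard (fun i => Finset.mem_image_of_mem _ (Finset.mem_univ i)) hs
    rw [← h2] at h1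
    exact h1

end Pool.Agent.TR
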