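import Pool.Agent.Helper65.TR.NRL

/-!
# TRL SUB : translation to subspaces

`SolV n A` is the set of the `n`-dimensional complex subspaces of `ℂ^(n+2)` which meet all the
planes `span(A (2i), A (2i+1))` nontrivially.

PROOFS.  `ker2 u` = common kernel of `u 0, u 1`.  For independent `u` it has dimension `n`, every
subspace of dimension `n` is of this form, and `ker2 u = ker2 u'` iff `u' = act g u` with
`det g ≠ 0`.  `ker2 u` meets `span(a, b)` (`a, b` independent over `ℝ`, hence over `ℂ`) iff
`u(a), u(b)` are dependent iff `om u a b = 0`.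
`solV_card`: by `hall` the finset `U` of `catalan n` normal right solutions; `V_u = ker2 (cu u)`,
pairwise different (`nf_unique_c`), so at least `catalan n` elements; every element of
`SolV` is `ker2 u` with an independent complex solution `u`, by `nrl` `u = act g (cu v)`; `v` is an
independent real solution, `om v (A 1) (A 2) ≠ 0` (`good_first`), after an exchange of `v 0, v 1` it
is positive; normalise: `v'` normal solution, right by `rr_all`; if `v' ∉ U` then there would be
`catalan n + 1` inequivalent nondegenerate solutions (`bezout`); so `V = ker2 (cu v')` with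
`v' ∈ U`.  Real: `ker2 (cu v)` is the complex span of the real kernel of `v`.
-/

set_option autoImplicit false

open Matrix

namespace Pool.Agent.TR

def SolV (n : ℕ) (A : ℕ → Fin (n + 2) → ℝ) : Set (Submodule ℂ (Fin (n + 2) → ℂ)) :=
  {V | Module.finrank ℂ V = n ∧ ∀ i < 2 * n,
    V ⊓ Submodule.span ℂ {cv (A (2 * i)), cv (A (2 * i + 1))} ≠ ⊥}

/-- the complexification of a real subspace. -/
def IsRealSub {m : ℕ} (V : Submodule ℂ (Fin m → ℂ)) : Prop :=
  ∃ V0 : Submodule ℝ (Fin m → ℝ), V = Submodule.span ℂ (cv '' (V0 : Set (Fin m → ℝ)))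

theorem solV_card {n : ℕ} (hn : 1 ≤ n) {σ : ℝ} (hσ : σ ≠ 0)
    (hall : ∀ c : Cf n, TPos (n + 2) (4 * n) (ex c) → RR n σ (ex c))
    {A : ℕ → Fin (n + 2) → ℝ} (hA : TPos (n + 2) (4 * n) A) :
    (SolV n A).Finite ∧ (SolV n A).ncard = catalan n ∧ ∀ V ∈ SolV n A, IsRealSub V := by
  sorry

end Pool.Agent.TR
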