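import Pool.Agent.Helper65.TR.FIB
import Pool.Agent.Helper65.TR.SUB
import Pool.Agent.Helper65.TR.CRB

/-!
# TRL RES : final assembly
-/

set_option autoImplicit false

open Matrix

namespace Pool.Agent.TR

/-- `n`-dimensional subspaces of `ℂ^(n+2)` meeting all the given subspaces. -/
def Meet {n N : ℕ} (W : Fin N → Submodule ℂ (Fin (n + 2) → ℂ)) :
    Set (Submodule ℂ (Fin (n + 2) → ℂ)) :=
  {V | Module.finrank ℂ V = n ∧ ∀ i, V ⊓ W i ≠ ⊥}

/-- `SolV` as `Meet`. -/
theorem solV_eq_meet {n : ℕ} (A : ℕ → Fin (n + 2) → ℝ) :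
    SolV n A = Meet (N := 2 * n) fun i =>
      Submodule.span ℂ {cv (A (2 * i)), cv (A (2 * i + 1))} := by
  ext V
  simp only [SolV, Meet]
  constructor
  · rintro ⟨h1, h2⟩
    exact ⟨h1, fun i => h2 i i.2⟩
  · rintro ⟨h1, h2⟩
    exact ⟨h1, fun i hi => h2 ⟨i, hi⟩⟩

theorem meet_perm {n N : ℕ} (W : Fin N → Submodule ℂ (Fin (n + 2) → ℂ)) (e : Equiv.Perm (Fin N)) :
    Meet (fun i => W (e i)) = Meet W := by
  ext V
  simp only [Meet]
  constructor
  · rintro ⟨h1, h2⟩
    exact ⟨h1, fun i => by simpa using h2 (e.symm i)⟩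
  · rintro ⟨h1, h2⟩
    exact ⟨h1, fun i => h2 (e i)⟩

/-- the reflection on `ℂ^m`. -/
def reflC (m : ℕ) (σ : ℝ) (hσ : σ * σ = 1) : (Fin m → ℂ) ≃ₗ[ℂ] (Fin m → ℂ) where
  toFun x := fun j => if (j : ℕ) = 0 then (σ : ℂ) * x j else x j
  invFun x := fun j => if (j : ℕ) = 0 then (σ : ℂ) * x j else x j
  map_add' x y := by ext j; by_cases h : (j : ℕ) = 0 <;> simp [h, mul_add]
  map_smul' a x := by ext j; by_cases h : (j : ℕ) = 0 <;> simp [h, mul_left_comm]
  left_inv x := by
    ext j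
    have h2 : (σ : ℂ) * (σ : ℂ) = 1 := by exact_mod_cast hσ
    by_cases h : (j : ℕ) = 0
    · simp [h, ← mul_assoc, h2]
    · simp [h]
  right_inv x := by
    ext j
    have h2 : (σ : ℂ) * (σ : ℂ) = 1 := by exact_mod_cast hσ
    by_cases h : (j : ℕ) = 0
    · simp [h, ← mul_assoc, h2]
    · simp [h]

theorem reflC_cv {m : ℕ} {σ : ℝ} (hσ : σ * σ = 1) (x : Fin m → ℝ) :
    reflC m σ hσ (cv x) = cv (refl0 σ x) := by
  ext j
  by_cases h : (j : ℕ) = 0
  · simp [reflC, cv, refl0, h]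
  · simp [reflC, cv, refl0, h]

theorem refl0_refl0 {m : ℕ} {σ : ℝ} (hσ : σ * σ = 1) (x : Fin m → ℝ) : refl0 σ (refl0 σ x) = x := by
  ext j
  by_cases h : (j : ℕ) = 0
  · simp [refl0, h, ← mul_assoc, hσ]
  · simp [refl0, h]

def reflR (m : ℕ) (σ : ℝ) : (Fin m → ℝ) →ₗ[ℝ] (Fin m → ℝ) where
  toFun x := refl0 σ x
  map_add' x y := by ext j; by_cases h : (j : ℕ) = 0 <;> simp [refl0, h, mul_add]
  map_smul' a x := by ext j; by_cases h : (j : ℕ) = 0 <;> simp [refl0, h, mul_left_comm]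

theorem isRealSub_map {m : ℕ} {σ : ℝ} (hσ : σ * σ = 1) {V : Submodule ℂ (Fin m → ℂ)}
    (h : IsRealSub (V.map (reflC m σ hσ).toLinearMap)) : IsRealSub V := by
  obtain ⟨V0, hV⟩ := h
  refine ⟨V0.map (reflR m σ), ?_⟩
  have h1 : V = (V.map (reflC m σ hσ).toLinearMap).map (reflC m σ hσ).toLinearMap := by
    ext x
    simp only [Submodule.mem_map]
    constructor
    · intro hx
      exact ⟨reflC m σ hσ x, ⟨x, hx, rfl⟩, (reflC m σ hσ).left_inv x⟩
    · rintro ⟨y, ⟨x', hx', rfl⟩, rfl⟩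
      have : (reflC m σ hσ) ((reflC m σ hσ) x') = x' := (reflC m σ hσ).left_inv x'
      simpa [this] using hx'
  rw [h1, hV, Submodule.map_span]
  congr 1
  ext x
  simp only [Set.mem_image]
  constructor
  · rintro ⟨y, ⟨w, hw, rfl⟩, rfl⟩
    refine ⟨refl0 σ w, ?_, (reflC_cv hσ w).symm⟩
    exact ⟨w, hw, rfl⟩
  · rintro ⟨w, ⟨w', hw', rfl⟩, rfl⟩
    exact ⟨cv w', ⟨w', hw', rfl⟩, reflC_cv hσ w'⟩

/-- transport of the solution set by a linear isomorphism. -/
theorem meet_map {n N : ℕ} (L : (Fin (n + 2) → ℂ) ≃ₗ[ℂ] (Fin (n + 2) → ℂ))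
    (W : Fin N → Submodule ℂ (Fin (n + 2) → ℂ)) :
    (fun V : Submodule ℂ (Fin (n + 2) → ℂ) => V.map L.toLinearMap) '' Meet W =
      Meet fun i => (W i).map L.toLinearMap := by
  have hinj : Function.Injective (fun V : Submodule ℂ (Fin (n + 2) → ℂ) => V.map L.toLinearMap) :=
    Submodule.map_injective_of_injective L.injective
  ext V
  simp only [Set.mem_image, Meet]
  constructor
  · rintro ⟨V', ⟨h1, h2⟩, rfl⟩
    refine ⟨?_, fun i => ?_⟩
    · exact (LinearEquiv.finrank_map_eq L V').trans h1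
    · rw [← Submodule.map_inf _ L.injective]
      intro h
      apply h2 i
      rw [← Submodule.map_bot L.toLinearMap] at h
      exact hinj h
  · rintro ⟨h1, h2⟩
    have hV : (V.map L.symm.toLinearMap).map L.toLinearMap = V := by
      ext x
      simp only [Submodule.mem_map]
      constructor
      · rintro ⟨y, ⟨x', hx', rfl⟩, rfl⟩
        simpa using hx'
      · intro hx
        exact ⟨L.symm x, ⟨x, hx, rfl⟩, by simp⟩
    refine ⟨V.map L.symm.toLinearMap, ⟨?_, fun i h => ?_⟩, hV⟩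
    · exact (LinearEquiv.finrank_map_eq L.symm V).trans h1
    · apply h2 i
      rw [← hV, ← Submodule.map_inf _ L.injective, h, Submodule.map_bot]

/-- total reality for totally positive configurations. -/
theorem total_real_tp {n : ℕ} (hn : 1 ≤ n) {A : ℕ → Fin (n + 2) → ℝ}
    (hA : TPos (n + 2) (4 * n) A) :
    (SolV n A).Finite ∧ (SolV n A).ncard = catalan n ∧ ∀ V ∈ SolV n A, IsRealSub V := by
  obtain ⟨σ, hσ, hall⟩ := rr_everywhere n hn
  exact solV_card hn hσ hall hA

/-- total reality for tangent planes of convex curves, ordered parameters. -/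
theorem total_real_ord {n : ℕ} (hn : 1 ≤ n) {γ : ℝ → Fin (n + 2) → ℝ} (hγ : Cvx γ) (z : ℕ → ℝ)
    (hz : ∀ i j, i < j → j < 2 * n → z i < z j)
    (hd : ∀ i < 2 * n, DifferentiableAt ℝ γ (z i) ∧ LinearIndependent ℝ ![γ (z i), deriv γ (z i)]) :
    (Meet (N := 2 * n) fun i => Submodule.span ℂ {cv (γ (z i)), cv (deriv γ (z i))}).Finite ∧
    (Meet (N := 2 * n) fun i => Submodule.span ℂ {cv (γ (z i)), cv (deriv γ (z i))}).ncard =
      catalan n ∧
    ∀ V ∈ (Meet (N := 2 * n) fun i => Submodule.span ℂ {cv (γ (z i)), cv (deriv γ (z i))}),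
      IsRealSub V := by
  obtain ⟨σ, hσ, η, hη, hT⟩ := curve_tp hγ z hz hd
  have hσ2 : σ * σ = 1 := by rcases hσ with h | h <;> rw [h] <;> norm_num
  have key := total_real_tp hn hT
  rw [solV_eq_meet] at key
  have h1 : (fun i : Fin (2 * n) => Submodule.span ℂ
      {cv ((fun j => if j % 2 = 0 then refl0 σ (γ (z (j / 2)))
        else refl0 σ (γ (z (j / 2)) + η • deriv γ (z (j / 2)))) (2 * (i : ℕ))),
       cv ((fun j => if j % 2 = 0 then refl0 σ (γ (z (j / 2)))
        else refl0 σ (γ (z (j / 2)) + η • deriv γ (z (j / 2)))) (2 * (i : ℕ) + 1))}) =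
      fun i : Fin (2 * n) => (Submodule.span ℂ {cv (γ (z i)), cv (deriv γ (z i))}).map
        (reflC (n + 2) σ hσ2).toLinearMap := by
    funext i
    have e1 : (2 * (i : ℕ)) % 2 = 0 := by omega
    have e2 : (2 * (i : ℕ)) / 2 = i := by omega
    have e3 : ¬ (2 * (i : ℕ) + 1) % 2 = 0 := by omega
    have e4 : (2 * (i : ℕ) + 1) / 2 = i := by omega
    simp only [e1, e2, e3, e4, if_true, if_false]
    rw [← reflC_cv hσ2, ← reflC_cv hσ2]
    have e5 : cv (γ (z i) + η • deriv γ (z i)) = cv (γ (z i)) + (η : ℂ) • cv (deriv γ (z i)) := by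
      ext j; simp [cv]
    rw [e5, Submodule.map_span, Set.image_pair]
    apply le_antisymm
    · rw [Submodule.span_le]
      rintro x (rfl | rfl)
      · exact Submodule.subset_span (by simp)
      · show (reflC (n + 2) σ hσ2) _ ∈ _
        rw [map_add, map_smul]
        exact Submodule.add_mem _ (Submodule.subset_span (by simp))
          (Submodule.smul_mem _ _ (Submodule.subset_span (by simp)))
    · rw [Submodule.span_le]
      rintro x (rfl | rfl)
      · exact Submodule.subset_span (by simp)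
      · have hη' : (η : ℂ) ≠ 0 := by exact_mod_cast hη.ne'
        have e6 : (reflC (n + 2) σ hσ2) (cv (deriv γ (z i))) = (η : ℂ)⁻¹ •
            ((reflC (n + 2) σ hσ2) (cv (γ (z i)) + (η : ℂ) • cv (deriv γ (z i))) -
              (reflC (n + 2) σ hσ2) (cv (γ (z i)))) := by
          rw [map_add, add_sub_cancel_left, map_smul, smul_smul, inv_mul_cancel₀ hη', one_smul]
        show (reflC (n + 2) σ hσ2) _ ∈ _
        rw [e6]
        exact Submodule.smul_mem _ _ (Submodule.sub_mem _ (Submodule.subset_span (by simp))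
          (Submodule.subset_span (by simp)))
  rw [h1, ← meet_map] at key
  obtain ⟨k1, k2, k3⟩ := key
  have hinj : Function.Injective (fun V : Submodule ℂ (Fin (n + 2) → ℂ) =>
      V.map (reflC (n + 2) σ hσ2).toLinearMap) :=
    Submodule.map_injective_of_injective (reflC (n + 2) σ hσ2).injective
  refine ⟨Set.Finite.of_finite_image k1 hinj.injOn, ?_, fun V hV => ?_⟩
  · rw [← k2, Set.ncard_image_of_injective _ hinj]
  · exact isRealSub_map hσ2 (k3 _ ⟨V, hV, rfl⟩)

/-- total reality for tangent planes of convex curves. -/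
theorem total_real {n : ℕ} (hn : 1 ≤ n) {γ : ℝ → Fin (n + 2) → ℝ} (hγ : Cvx γ)
    (z : Fin (2 * n) → ℝ) (hz : Function.Injective z)
    (hd : ∀ i, DifferentiableAt ℝ γ (z i) ∧ LinearIndependent ℝ ![γ (z i), deriv γ (z i)]) :
    (Meet fun i => Submodule.span ℂ {cv (γ (z i)), cv (deriv γ (z i))}).Finite ∧
    (Meet fun i => Submodule.span ℂ {cv (γ (z i)), cv (deriv γ (z i))}).ncard = catalan n ∧
    ∀ V ∈ (Meet fun i => Submodule.span ℂ {cv (γ (z i)), cv (deriv γ (z i))}), IsRealSub V := by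
  set e := Tuple.sort z with he
  have hmono : StrictMono (z ∘ e) :=
    (Tuple.monotone_sort z).strictMono_of_injective (hz.comp e.injective)
  let z' : ℕ → ℝ := fun i => if h : i < 2 * n then z (e ⟨i, h⟩) else 0
  have hz' : ∀ i : Fin (2 * n), z' i = z (e i) := fun i => by simp [z']
  have h1 := total_real_ord hn hγ z' (fun i j hij hj => by
      have h := hmono (show (⟨i, hij.trans hj⟩ : Fin (2 * n)) < ⟨j, hj⟩ from hij)
      simpa [z', hj, hij.trans hj] using h)
    (fun i hi => by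
      have := hd (e ⟨i, hi⟩)
      simpa [z', hi] using this)
  have h2 : (Meet (N := 2 * n) fun i => Submodule.span ℂ {cv (γ (z' i)), cv (deriv γ (z' i))}) =
      Meet fun i => Submodule.span ℂ {cv (γ (z i)), cv (deriv γ (z i))} := by
    rw [← meet_perm (fun i => Submodule.span ℂ {cv (γ (z i)), cv (deriv γ (z i))}) e]
    simp only [hz']
  rw [h2] at h1
  exact h1

end Pool.Agent.TR
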