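import Pool.Agent.Helper65.TR.Defs

/-!
# TRL SGA : the twisted sign is `± 1` and locally constant

PROOF. Put `q_j = w (j+1) / w j` (in the slit plane, so nonzero; all `w j` are nonzero) and
`S = I^(m-1) exp(-(I/2) rot)`.  `exp(-I rot) = ∏ (|q_j| / q_j) = c w 0 / w K = c (-1)^(m-1)` with
`c > 0` and absolute value `1`, so `exp(-I rot) = (-1)^(m-1)`, `S^2 = (I^2)^(m-1) (-1)^(m-1) = 1`,
`S = ± 1`, and `sg = Re S`.  `sg_cont`: `arg` is continuous on the slit plane, and for `x` near `x0`
the quotients are in the slit plane (open), so `sg` is continuous at `x0` and takes values `± 1`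
near `x0`.
-/

set_option autoImplicit false

open Topology

namespace Pool.Agent.TR

theorem sg_tel {K : ℕ} {w : ℕ → ℂ} (hw : ∀ j < K, w (j + 1) / w j ∈ Complex.slitPlane) :
    ∀ k ≤ K, ∃ R : ℝ, 0 < R ∧ w 0 * Complex.exp ((rot k w : ℂ) * Complex.I) * (R : ℂ) = w k := by
  intro k
  induction k with
  | zero =>
    intro _
    refine ⟨1, one_pos, ?_⟩
    simp [rot]
  | succ k ih =>
    intro hk
    obtain ⟨R, hR, h⟩ := ih (by omega)
    have hq := Complex.slitPlane_ne_zero (hw k (by omega))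
    have hwk : w k ≠ 0 := by
      intro h0
      rw [h0, div_zero] at hq
      exact hq rfl
    refine ⟨R * ‖w (k + 1) / w k‖, mul_pos hR (norm_pos_iff.2 hq), ?_⟩
    have e1 : rot (k + 1) w = rot k w + (w (k + 1) / w k).arg := by
      unfold rot
      rw [Finset.sum_range_succ]
    have e2 := Complex.norm_mul_exp_arg_mul_I (w (k + 1) / w k)
    have e3 : w (k + 1) = w k * (w (k + 1) / w k) := by
      field_simp
    rw [e1]
    push_cast
    rw [add_mul, Complex.exp_add]
    calc w 0 * (Complex.exp ((rot k w : ℂ) * Complex.I) *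
          Complex.exp (((w (k + 1) / w k).arg : ℂ) * Complex.I)) *
          ((R : ℂ) * (‖w (k + 1) / w k‖ : ℂ))
        = (w 0 * Complex.exp ((rot k w : ℂ) * Complex.I) * (R : ℂ)) *
          ((‖w (k + 1) / w k‖ : ℂ) *
            Complex.exp (((w (k + 1) / w k).arg : ℂ) * Complex.I)) := by ring
      _ = w k * (w (k + 1) / w k) := by
          rw [h, e2]
      _ = w (k + 1) := e3.symm

theorem sg_pm {m K : ℕ} (hK0 : 0 < K) {w : ℕ → ℂ}
    (hw : ∀ j < K, w (j + 1) / w j ∈ Complex.slitPlane)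
    (hK : w K = (-1) ^ (m - 1) * w 0) : sg m K w = 1 ∨ sg m K w = -1 := by
  obtain ⟨R, hR, h⟩ := sg_tel hw K le_rfl
  have hw0 : w 0 ≠ 0 := by
    have hq := Complex.slitPlane_ne_zero (hw 0 hK0)
    intro h0
    rw [h0, div_zero] at hq
    exact hq rfl
  rw [hK] at h
  have h1 : Complex.exp ((rot K w : ℂ) * Complex.I) * (R : ℂ) = (-1) ^ (m - 1) := by
    have : w 0 * (Complex.exp ((rot K w : ℂ) * Complex.I) * (R : ℂ)) = w 0 * (-1) ^ (m - 1) := by
      rw [← mul_assoc, h, mul_comm]
    exact mul_left_cancel₀ hw0 this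
  have h2 : R = 1 := by
    have := congrArg norm h1
    rw [norm_mul, Complex.norm_exp_ofReal_mul_I, one_mul, Complex.norm_real, norm_pow, norm_neg,
      norm_one, one_pow, Real.norm_of_nonneg hR.le] at this
    exact this
  rw [h2, Complex.ofReal_one, mul_one] at h1
  have h3 : (Complex.I ^ (m - 1) * Complex.exp (-(Complex.I / 2) * (rot K w : ℂ))) ^ 2 = 1 := by
    rw [mul_pow, ← pow_mul, mul_comm (m - 1) 2, pow_mul, Complex.I_sq, ← Complex.exp_nat_mul]
    have e : ((2 : ℕ) : ℂ) * (-(Complex.I / 2) * (rot K w : ℂ)) = -((rot K w : ℂ) * Complex.I) := by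
      push_cast
      ring
    rw [e, Complex.exp_neg, h1]
    exact mul_inv_cancel₀ (pow_ne_zero _ (by norm_num))
  rcases sq_eq_one_iff.1 h3 with h4 | h4
  · left
    unfold sg
    rw [h4]
    simp
  · right
    unfold sg
    rw [h4]
    simp

theorem sg_cont {m K : ℕ} {X : Type*} [TopologicalSpace X] {x0 : X} {w : X → ℕ → ℂ}
    (hc : ∀ j ≤ K, ContinuousAt (fun x => w x j) x0)
    (hw : ∀ j < K, w x0 (j + 1) / w x0 j ∈ Complex.slitPlane)
    (hK : ∀ x, w x K = (-1) ^ (m - 1) * w x 0) :
    ∀ᶠ x in 𝓝 x0, sg m K (w x) = sg m K (w x0) := by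
  rcases Nat.eq_zero_or_pos K with h0 | hpos
  · subst h0
    exact Filter.Eventually.of_forall fun x => by simp [sg, rot]
  have hne : ∀ j < K, w x0 j ≠ 0 := by
    intro j hj h0
    have hq := Complex.slitPlane_ne_zero (hw j hj)
    rw [h0, div_zero] at hq
    exact hq rfl
  have hqc : ∀ j < K, ContinuousAt (fun x => w x (j + 1) / w x j) x0 := fun j hj =>
    (hc (j + 1) hj).div (hc j hj.le) (hne j hj)
  have hev : ∀ᶠ x in 𝓝 x0, ∀ j ∈ Finset.range K, w x (j + 1) / w x j ∈ Complex.slitPlane := by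
    rw [Filter.eventually_all_finset]
    intro j hj
    exact (hqc j (Finset.mem_range.1 hj)).eventually
      (Complex.isOpen_slitPlane.mem_nhds (hw j (Finset.mem_range.1 hj)))
  have hrot : ContinuousAt (fun x => rot K (w x)) x0 := by
    unfold rot
    refine tendsto_finsetSum _ fun j hj => ?_
    exact (Complex.continuousAt_arg (hw j (Finset.mem_range.1 hj))).comp
      (f := fun x => w x (j + 1) / w x j) (hqc j (Finset.mem_range.1 hj))
  have hsg : ContinuousAt (fun x => sg m K (w x)) x0 := by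
    unfold sg
    have h1 : ContinuousAt (fun x => (rot K (w x) : ℂ)) x0 :=
      Complex.continuous_ofReal.continuousAt.comp hrot
    exact Complex.continuous_re.continuousAt.comp
      (continuousAt_const.mul (Complex.continuous_exp.continuousAt.comp
        (continuousAt_const.mul h1)))
  have hclose : ∀ᶠ x in 𝓝 x0, dist (sg m K (w x)) (sg m K (w x0)) < 1 :=
    hsg.eventually (Metric.ball_mem_nhds _ one_pos)
  filter_upwards [hev, hclose] with x hx hd
  have a1 := sg_pm (m := m) hpos (fun j hj => hx j (Finset.mem_range.2 hj)) (hK x)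
  have a2 := sg_pm (m := m) hpos hw (hK x0)
  rw [Real.dist_eq, abs_lt] at hd
  rcases a1 with a1 | a1 <;> rcases a2 with a2 | a2 <;> rw [a1, a2] at hd ⊢ <;> linarith

end Pool.Agent.TR
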