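import Mathlib

/-!
# TRL SL2 : dimension of the space of polynomials of degree `k` in the Pluecker coordinates

`PP m = ℂ[x_(k,a)]`, `k < 2`, `a < m`; `pl a b = x_(0,a) x_(1,b) - x_(1,a) x_(0,b)`;
`Rk m k` = span of the products of `k` Pluecker coordinates.

PROOF. Let `P_(a,b)` be the space of polynomials which are homogeneous of degree `a` in the
variables `x_(0,·)` and of degree `b` in `x_(1,·)`; `dim P_(a,b) = C(m+a-1, a) C(m+b-1, b)`
(monomials).  Derivations `E : x_(1,a) ↦ x_(0,a), x_(0,a) ↦ 0` and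
`F : x_(0,a) ↦ x_(1,a), x_(1,a) ↦ 0`; `E : P_(a,b) → P_(a+1,b-1)`, `F : P_(a,b) → P_(a-1,b+1)` (zero
if `b = 0`, resp. `a = 0`), and `E F - F E = a - b` on `P_(a,b)` (a derivation which multiplies
`x_(0,·)` by `1` and `x_(1,·)` by `-1`).
(1) `E (pl a b) = 0`, so `E` vanishes on `Rk m k ⊆ P_(k,k)`.
(2) `E F` is injective on `P_(k+1,k-1)`: let `E F v = 0`, `v ≠ 0`; then `F E v = -2 v`; by induction
`F E (E^j v) = - λ_j E^j v` with `λ_j > 0` (`λ_0 = 2`; from `F E w = -λ w`, `w ∈ P_(a,b)`, `a > b`,
follows `E F (E w) = - λ E w`, `F E (E w) = -λ E w - ((a+1)-(b-1)) E w`).  Let `j` be maximal with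
`E^j v ≠ 0` (it exists, the second degree decreases); then `0 = F E (E^j v) = -λ_j E^j v`,
contradiction.
(3) So `E F` is bijective on the finite dimensional `P_(k+1,k-1)`, hence
`E : P_(k,k) → P_(k+1,k-1)` is surjective and
`dim ker (E | P_(k,k)) = dim P_(k,k) - dim P_(k+1,k-1)`.
-/

set_option autoImplicit false

open MvPolynomial

namespace Pool.Agent.TR

abbrev PP (m : ℕ) := MvPolynomial (Fin 2 × Fin m) ℂ

noncomputable def pl {m : ℕ} (a b : Fin m) : PP m := X (0, a) * X (1, b) - X (1, a) * X (0, b)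

/-- the span of the products of `k` Pluecker coordinates. -/
noncomputable def Rk (m k : ℕ) : Submodule ℂ (PP m) :=
  (Submodule.span ℂ (Set.range fun p : Fin m × Fin m => pl p.1 p.2)) ^ k

namespace SL2

/-- weights: `(1,0)` for the first row, `(0,1)` for the second row. -/
def wt (m : ℕ) : Fin 2 × Fin m → ℕ × ℕ := fun p => if p.1 = 0 then (1, 0) else (0, 1)

/-- bihomogeneous polynomials. -/
noncomputable def V (m a b : ℕ) : Submodule ℂ (PP m) :=
  weightedHomogeneousSubmodule ℂ (wt m) (a, b)

noncomputable def E (m : ℕ) : Derivation ℂ (PP m) (PP m) :=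
  mkDerivation ℂ (fun p : Fin 2 × Fin m => if p.1 = 1 then (X (0, p.2) : PP m) else 0)

noncomputable def F (m : ℕ) : Derivation ℂ (PP m) (PP m) :=
  mkDerivation ℂ (fun p : Fin 2 × Fin m => if p.1 = 0 then (X (1, p.2) : PP m) else 0)

noncomputable def H (m : ℕ) : Derivation ℂ (PP m) (PP m) :=
  mkDerivation ℂ (fun p : Fin 2 × Fin m => if p.1 = 0 then (X p : PP m) else - X p)

theorem mem_V {m a b : ℕ} {f : PP m} : f ∈ V m a b ↔ IsWeightedHomogeneous (wt m) f (a, b) :=
  Iff.rfl

theorem weight_eq {m : ℕ} (s : Fin 2 × Fin m →₀ ℕ) :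
    Finsupp.weight (wt m) s = (∑ j, s (0, j), ∑ j, s (1, j)) := by
  rw [Finsupp.weight_apply, Finsupp.sum_fintype _ _ (fun i => by simp), Fintype.sum_prod_type,
    Fin.sum_univ_two]
  simp only [wt]
  ext
  · simp [Prod.fst_sum]
  · simp [Prod.snd_sum]

/-- induction principle on bihomogeneous polynomials for a linear property. -/
theorem V_induction {m a b : ℕ} (P : PP m → Prop) (h0 : P 0)
    (hadd : ∀ f g, P f → P g → P (f + g))
    (hmon : ∀ (s : Fin 2 × Fin m →₀ ℕ) (r : ℂ), Finsupp.weight (wt m) s = (a, b) →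
      P (monomial s r)) {f : PP m} (hf : f ∈ V m a b) : P f := by
  have hf' : IsWeightedHomogeneous (wt m) f (a, b) := hf
  exact hf'.induction_on (motive := fun p _ => P p) h0 (fun p q _ _ hp hq => hadd p q hp hq)
    (fun d r hr => hmon d r hr)

theorem weight_sub {m a b : ℕ} {s : Fin 2 × Fin m →₀ ℕ} (hs : Finsupp.weight (wt m) s = (a, b))
    {i : Fin 2 × Fin m} (hi : s i ≠ 0) :
    Finsupp.weight (wt m) (s - Finsupp.single i 1) + wt m i = (a, b) := by
  rw [← hs]
  exact Finsupp.weight_sub_single_add hi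

theorem E_mem {m a b : ℕ} {f : PP m} (hf : f ∈ V m a (b + 1)) : E m f ∈ V m (a + 1) b := by
  refine V_induction (fun p => E m p ∈ V m (a + 1) b) ?_ ?_ ?_ hf
  · rw [map_zero]; exact Submodule.zero_mem _
  · intro f g h1 h2; rw [map_add]; exact Submodule.add_mem _ h1 h2
  · intro s r hs
    rw [E, mkDerivation_monomial]
    refine Submodule.smul_mem _ _ (Submodule.sum_mem _ fun i hi => ?_)
    rw [Finsupp.mem_support_iff] at hi
    have hw := weight_sub hs hi
    by_cases h : i.1 = 1
    · simp only [h, if_true]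
      rw [mem_V, smul_eq_mul]
      have hwt : wt m i = (0, 1) := by simp [wt, h]
      rw [hwt] at hw
      have h1 : Finsupp.weight (wt m) (s - Finsupp.single i 1) = (a, b) := by
        rw [Prod.ext_iff] at hw ⊢
        simp only [Prod.fst_add, Prod.snd_add] at hw
        exact ⟨by simp only; omega, by simp only; omega⟩
      have h2 := (isWeightedHomogeneous_monomial (wt m) (s - Finsupp.single i 1)
        ((s i : ℕ) : ℂ) h1).mul (isWeightedHomogeneous_X ℂ (wt m) (0, i.2))
      have h3 : (a, b) + wt m (0, i.2) = (a + 1, b) := by simp [wt]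
      rw [h3] at h2
      exact h2
    · simp only [h, if_false, smul_zero]
      exact Submodule.zero_mem _

theorem F_mem {m a b : ℕ} {f : PP m} (hf : f ∈ V m (a + 1) b) : F m f ∈ V m a (b + 1) := by
  refine V_induction (fun p => F m p ∈ V m a (b + 1)) ?_ ?_ ?_ hf
  · rw [map_zero]; exact Submodule.zero_mem _
  · intro f g h1 h2; rw [map_add]; exact Submodule.add_mem _ h1 h2
  · intro s r hs
    rw [F, mkDerivation_monomial]
    refine Submodule.smul_mem _ _ (Submodule.sum_mem _ fun i hi => ?_)
    rw [Finsupp.mem_support_iff] at hi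
    have hw := weight_sub hs hi
    by_cases h : i.1 = 0
    · simp only [h, if_true]
      rw [mem_V, smul_eq_mul]
      have hwt : wt m i = (1, 0) := by simp [wt, h]
      rw [hwt] at hw
      have h1 : Finsupp.weight (wt m) (s - Finsupp.single i 1) = (a, b) := by
        rw [Prod.ext_iff] at hw ⊢
        simp only [Prod.fst_add, Prod.snd_add] at hw
        exact ⟨by simp only; omega, by simp only; omega⟩
      have h2 := (isWeightedHomogeneous_monomial (wt m) (s - Finsupp.single i 1)
        ((s i : ℕ) : ℂ) h1).mul (isWeightedHomogeneous_X ℂ (wt m) (1, i.2))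
      have h3 : (a, b) + wt m (1, i.2) = (a, b + 1) := by simp [wt]
      rw [h3] at h2
      exact h2
    · simp only [h, if_false, smul_zero]
      exact Submodule.zero_mem _

theorem E_zero {m a : ℕ} {f : PP m} (hf : f ∈ V m a 0) : E m f = 0 := by
  refine V_induction (fun p => E m p = 0) (map_zero _) ?_ ?_ hf
  · intro f g h1 h2; rw [map_add, h1, h2, add_zero]
  · intro s r hs
    rw [E, mkDerivation_monomial]
    refine (congrArg _ (Finset.sum_eq_zero fun i hi => ?_)).trans (smul_zero _)
    rw [Finsupp.mem_support_iff] at hi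
    have hw := weight_sub hs hi
    by_cases h : i.1 = 1
    · have hwt : wt m i = (0, 1) := by simp [wt, h]
      rw [hwt, Prod.ext_iff] at hw
      simp only [Prod.fst_add, Prod.snd_add] at hw
      omega
    · simp only [h, if_false, smul_zero]

theorem H_apply {m a b : ℕ} {f : PP m} (hf : f ∈ V m a b) :
    H m f = ((a : ℂ) - b) • f := by
  refine V_induction (fun p => H m p = ((a : ℂ) - b) • p) ?_ ?_ ?_ hf
  · rw [map_zero, smul_zero]
  · intro f g h1 h2; rw [map_add, h1, h2, smul_add]
  · intro s r hs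
    rw [H, mkDerivation_monomial, Finsupp.sum]
    have h1 : ∀ i ∈ s.support, (monomial (s - Finsupp.single i 1)) ((s i : ℕ) : ℂ) •
        (if i.1 = 0 then (X i : PP m) else - X i) =
        ((if i.1 = 0 then ((s i : ℕ) : ℂ) else - ((s i : ℕ) : ℂ)) • monomial s (1 : ℂ)) := by
      intro i hi
      rw [Finsupp.mem_support_iff] at hi
      have h2 : monomial (s - Finsupp.single i 1) ((s i : ℕ) : ℂ) * (X i : PP m)
          = ((s i : ℕ) : ℂ) • monomial s (1 : ℂ) := by
        rw [X, monomial_mul, mul_one, smul_monomial, smul_eq_mul, mul_one,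
          tsub_add_cancel_of_le (Finsupp.single_le_iff.mpr (Nat.one_le_iff_ne_zero.mpr hi))]
      split_ifs with h
      · rw [smul_eq_mul, h2]
      · rw [smul_eq_mul, mul_neg, h2, neg_smul]
    rw [Finset.sum_congr rfl h1, ← Finset.sum_smul]
    have h3 : ∑ i ∈ s.support, (if i.1 = 0 then ((s i : ℕ) : ℂ) else - ((s i : ℕ) : ℂ))
        = (a : ℂ) - b := by
      rw [Finset.sum_subset (Finset.subset_univ _) (fun i _ hi => by
        rw [Finsupp.notMem_support_iff] at hi
        simp [hi])]
      rw [Fintype.sum_prod_type, Fin.sum_univ_two]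
      rw [weight_eq, Prod.ext_iff] at hs
      simp only at hs
      rw [← hs.1, ← hs.2]
      simp [sub_eq_add_neg]
    rw [h3, smul_comm, smul_monomial, smul_eq_mul, mul_one]

theorem comm_rel {m : ℕ} (f : PP m) : E m (F m f) - F m (E m f) = H m f := by
  have h : ⁅E m, F m⁆ = H m := by
    refine derivation_ext fun p => ?_
    rw [Derivation.commutator_apply]
    simp only [E, F, H, mkDerivation_X]
    obtain ⟨i, j⟩ := p
    fin_cases i <;> simp [mkDerivation_X]
  rw [← h, Derivation.commutator_apply]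

/-- the injectivity argument. -/
theorem inj_aux {m : ℕ} : ∀ (b a l : ℕ), b ≤ a → 0 < l → ∀ w ∈ V m a b,
    F m (E m w) = -((l : ℂ) • w) → w = 0 := by
  intro b
  induction b with
  | zero =>
    intro a l _ hl w hw h
    rw [E_zero hw, map_zero] at h
    have h1 : (l : ℂ) • w = 0 := by rw [← neg_eq_zero]; exact h.symm
    exact (smul_eq_zero.mp h1).resolve_left (by exact_mod_cast hl.ne')
  | succ b ih =>
    intro a l hab hl w hw h
    have hw' := E_mem hw
    have h2 : E m w = 0 := by
      refine ih (a + 1) (l + (a + 1 - b)) (by omega) (by omega) (E m w) hw' ?_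
      have h3 := comm_rel (E m w)
      rw [H_apply hw', h, map_neg, Derivation.map_smul] at h3
      have h4 : F m (E m (E m w)) = -((l : ℂ) • E m w) - (((a + 1 : ℕ) : ℂ) - (b : ℂ)) • E m w := by
        rw [← h3]; abel
      rw [h4]
      push_cast [Nat.cast_sub (show b ≤ a + 1 by omega)]
      module
    rw [h2, map_zero] at h
    have h1 : (l : ℂ) • w = 0 := by rw [← neg_eq_zero]; exact h.symm
    exact (smul_eq_zero.mp h1).resolve_left (by exact_mod_cast hl.ne')

theorem EF_inj {m k : ℕ} {v : PP m} (hv : v ∈ V m (k + 2) k) (h : E m (F m v) = 0) : v = 0 := by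
  refine inj_aux k (k + 2) 2 (by omega) (by norm_num) v hv ?_
  have h1 := comm_rel v
  rw [H_apply hv, h, zero_sub] at h1
  rw [← neg_eq_iff_eq_neg, h1]
  push_cast
  module

/-- the index set of the monomials. -/
noncomputable def idxEquiv (m a b : ℕ) :
    {d : Fin 2 × Fin m →₀ ℕ | Finsupp.weight (wt m) d = (a, b)} ≃
      (Finset.finsuppAntidiag (Finset.univ : Finset (Fin m)) a) ×
        (Finset.finsuppAntidiag (Finset.univ : Finset (Fin m)) b) where
  toFun d := (⟨Finsupp.equivFunOnFinite.symm (fun j => d.1 (0, j)), by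
      have h : Finsupp.weight (wt m) d.1 = (a, b) := d.2
      rw [weight_eq, Prod.ext_iff] at h
      rw [Finset.mem_finsuppAntidiag]
      exact ⟨by simpa using h.1, Finset.subset_univ _⟩⟩,
    ⟨Finsupp.equivFunOnFinite.symm (fun j => d.1 (1, j)), by
      have h : Finsupp.weight (wt m) d.1 = (a, b) := d.2
      rw [weight_eq, Prod.ext_iff] at h
      rw [Finset.mem_finsuppAntidiag]
      exact ⟨by simpa using h.2, Finset.subset_univ _⟩⟩)
  invFun e := ⟨Finsupp.equivFunOnFinite.symm
      (fun p => if p.1 = 0 then e.1.1 p.2 else e.2.1 p.2), by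
      have h1 := Finset.mem_finsuppAntidiag.mp e.1.2
      have h2 := Finset.mem_finsuppAntidiag.mp e.2.2
      show Finsupp.weight (wt m) _ = (a, b)
      rw [weight_eq, Prod.ext_iff]
      exact ⟨by simpa using h1.1, by simpa using h2.1⟩⟩
  left_inv d := by
    apply Subtype.ext
    ext p
    obtain ⟨i, j⟩ := p
    fin_cases i <;> simp
  right_inv e := by
    refine Prod.ext (Subtype.ext ?_) (Subtype.ext ?_)
    · ext j; simp
    · ext j; simp

theorem finrank_V (m a b : ℕ) : Module.finrank ℂ (V m a b) =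
    (m + a - 1).choose a * (m + b - 1).choose b := by
  have h : V m a b = restrictSupport ℂ {d | Finsupp.weight (wt m) d = (a, b)} := by
    rw [V, weightedHomogeneousSubmodule_eq_finsupp_supported]
    rfl
  rw [h, Module.finrank_eq_nat_card_basis (basisRestrictSupport ℂ _),
    Nat.card_congr (idxEquiv m a b), Nat.card_prod]
  simp only [Nat.card_eq_fintype_card, Fintype.card_coe,
    Finset.card_finsuppAntidiag_nat_eq_choose, Finset.card_univ, Fintype.card_fin]

theorem finite_V (m a b : ℕ) : Module.Finite ℂ (V m a b) := by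
  have h : V m a b = restrictSupport ℂ {d | Finsupp.weight (wt m) d = (a, b)} := by
    rw [V, weightedHomogeneousSubmodule_eq_finsupp_supported]
    rfl
  rw [h]
  have : Finite {d : Fin 2 × Fin m →₀ ℕ | Finsupp.weight (wt m) d = (a, b)} :=
    Finite.of_equiv _ (idxEquiv m a b).symm
  exact Module.Finite.of_basis (basisRestrictSupport ℂ _)

theorem pl_mem {m : ℕ} (a b : Fin m) : pl a b ∈ V m 1 1 ∧ E m (pl a b) = 0 := by
  constructor
  · rw [mem_V]
    have h1 := (isWeightedHomogeneous_X ℂ (wt m) (0, a)).mul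
      (isWeightedHomogeneous_X ℂ (wt m) (1, b))
    have h2 := (isWeightedHomogeneous_X ℂ (wt m) (1, a)).mul
      (isWeightedHomogeneous_X ℂ (wt m) (0, b))
    have e1 : wt m (0, a) + wt m (1, b) = (1, 1) := by simp [wt]
    have e2 : wt m (1, a) + wt m (0, b) = (1, 1) := by simp [wt]
    rw [e1] at h1
    rw [e2] at h2
    exact h1.sub h2
  · rw [pl, map_sub, Derivation.leibniz, Derivation.leibniz]
    simp only [E, mkDerivation_X]
    simp
    ring

theorem Rk_le (m k : ℕ) : ∀ f ∈ Rk m k, f ∈ V m k k ∧ E m f = 0 := by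
  have hS : ∀ f ∈ Submodule.span ℂ (Set.range fun p : Fin m × Fin m => pl p.1 p.2),
      f ∈ V m 1 1 ∧ E m f = 0 := by
    intro f hf
    induction hf using Submodule.span_induction with
    | mem x hx =>
      obtain ⟨p, rfl⟩ := hx
      exact pl_mem p.1 p.2
    | zero => exact ⟨Submodule.zero_mem _, map_zero _⟩
    | add x y _ _ hx hy => exact ⟨Submodule.add_mem _ hx.1 hy.1, by rw [map_add, hx.2, hy.2, add_zero]⟩
    | smul c x _ hx => exact ⟨Submodule.smul_mem _ _ hx.1, by rw [Derivation.map_smul, hx.2, smul_zero]⟩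
  induction k with
  | zero =>
    intro f hf
    rw [Rk, pow_zero, Submodule.mem_one] at hf
    obtain ⟨c, rfl⟩ := hf
    refine ⟨?_, Derivation.map_algebraMap _ _⟩
    rw [mem_V]
    exact isWeightedHomogeneous_C (wt m) c
  | succ k ih =>
    intro f hf
    rw [Rk, pow_succ] at hf
    induction hf using Submodule.mul_induction_on' with
    | mem_mul_mem x hx y hy =>
      obtain ⟨h1, h2⟩ := ih x hx
      obtain ⟨h3, h4⟩ := hS y hy
      refine ⟨?_, by rw [Derivation.leibniz, h2, h4, smul_zero, smul_zero, add_zero]⟩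
      exact IsWeightedHomogeneous.mul h1 h3
    | add x _ y _ hx hy =>
      exact ⟨Submodule.add_mem _ hx.1 hy.1, by rw [map_add, hx.2, hy.2, add_zero]⟩

end SL2

theorem rk_fin (m k : ℕ) : Module.Finite ℂ (Rk m k) := by
  rw [Module.Finite.iff_fg, Rk]
  exact (Submodule.fg_span (Set.finite_range _)).pow k

open SL2 in
theorem rk_dim {m k : ℕ} (hm : 1 ≤ m) (hk : 1 ≤ k) :
    Module.finrank ℂ (Rk m k) + (m + k).choose (k + 1) * (m + k - 2).choose (k - 1) ≤
      ((m + k - 1).choose k) ^ 2 := by
  obtain ⟨k, rfl⟩ : ∃ k', k = k' + 1 := ⟨k - 1, by omega⟩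
  have hfin : Module.Finite ℂ (V m (k + 1) (k + 1)) := finite_V _ _ _
  set f : V m (k + 1) (k + 1) →ₗ[ℂ] PP m := (E m).toLinearMap.domRestrict _ with hf
  set g : V m (k + 2) k →ₗ[ℂ] PP m :=
    ((E m).toLinearMap.comp (F m).toLinearMap).domRestrict _ with hg
  have h1 : Module.finrank ℂ (LinearMap.range f) + Module.finrank ℂ (LinearMap.ker f) =
      ((m + (k + 1) - 1).choose (k + 1)) ^ 2 := by
    rw [LinearMap.finrank_range_add_finrank_ker, finrank_V, sq]
  have h2 : Module.finrank ℂ (Rk m (k + 1)) ≤ Module.finrank ℂ (LinearMap.ker f) := by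
    have h3 : Rk m (k + 1) ≤ (LinearMap.ker f).map (V m (k + 1) (k + 1)).subtype := by
      intro x hx
      obtain ⟨h4, h5⟩ := Rk_le m (k + 1) x hx
      rw [Submodule.mem_map]
      refine ⟨⟨x, h4⟩, ?_, rfl⟩
      rw [LinearMap.mem_ker]
      exact h5
    have h4 := Submodule.finrank_mono h3
    rwa [Submodule.finrank_map_subtype_eq] at h4
  have h3 : Module.finrank ℂ (LinearMap.range g) =
      (m + (k + 2) - 1).choose (k + 2) * (m + k - 1).choose k := by
    rw [LinearMap.finrank_range_of_inj, finrank_V]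
    rw [← LinearMap.ker_eq_bot, LinearMap.ker_eq_bot']
    intro v hv
    exact Subtype.ext (EF_inj v.2 hv)
  have h4 : Module.finrank ℂ (LinearMap.range g) ≤ Module.finrank ℂ (LinearMap.range f) := by
    refine Submodule.finrank_mono ?_
    rintro _ ⟨v, rfl⟩
    exact ⟨⟨F m v.1, F_mem v.2⟩, rfl⟩
  rw [h3] at h4
  rw [show m + (k + 1) = m + (k + 2) - 1 by omega, show k + 1 + 1 = k + 2 by ring,
    show m + (k + 2) - 1 - 2 = m + k - 1 by omega, show k + 1 - 1 = k by omega,
    show m + (k + 2) - 1 - 1 = m + (k + 1) - 1 by omega]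
  omega

end Pool.Agent.TR
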