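import Pool.Agent.Helper65.TR.STDefs

/-!
# TRL STA : exponents

PROOFS. `vd_tpos`: the nodes `nd ε 0 < nd ε 1 < ...` are positive and increasing for
`0 < ε < 1/2`; Vandermonde (`Matrix.det_vandermonde`).
For an `α`-step `s` : `s < i → α s < α i` and `i ≤ s → α i ≤ α s` (and `α s < α i → s < i`,
`α i ≤ α s → i ≤ s`); the same for `β`-steps with `be`.
`exp_x`: `ee j - i j` as a function of `j ≤ n` increases by `s - i` from `j` to `j + 1`, where `s` is
the (unique) `α`-step with `α s = j`; `dx i` has the same increments up to sign conventions: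
`dx i j = (ee j - i j) - (ee (α i) - i α i)` because `s - i ≥ 0` for `α s ≥ α i` and `< 0` for
`α s < α i`.  `exp_y` is the same, `l` from `1` to `n + 1`.
`dx_zero`: all summands vanish iff `j = α i` or (`j = α i + 1` and step `i` is an `α`-step).
-/

set_option autoImplicit false

namespace Pool.Agent.TR

theorem vd_tpos {n : ℕ} {ε : ℝ} (h0 : 0 < ε) (h1 : ε < 1 / 2) : TPos (n + 2) (4 * n) (vd n ε) := by
  intro s hs _
  have hε : 2 < ε⁻¹ := by
    rw [lt_inv_comm₀ (by norm_num) h0]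
    rw [show (2 : ℝ)⁻¹ = 1 / 2 by norm_num]
    exact h1
  have hmono : StrictMono (nd ε) := by
    refine strictMono_nat_of_lt_succ fun j => ?_
    unfold nd
    have hp : 0 < (ε⁻¹) ^ (j / 2) := by positivity
    rcases Nat.even_or_odd' j with ⟨k, hk | hk⟩
    · subst hk
      rw [if_pos (by omega), if_neg (by omega)]
      rw [show (2 * k + 1) / 2 = 2 * k / 2 by omega]
      linarith
    · subst hk
      rw [if_neg (by omega), if_pos (by omega)]
      rw [show (2 * k + 1 + 1) / 2 = (2 * k + 1) / 2 + 1 by omega, pow_succ]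
      nlinarith
  have hd : dt (fun i => vd n ε (s i)) = (Matrix.vandermonde (fun i => nd ε (s i))).det := rfl
  rw [hd, Matrix.det_vandermonde]
  refine Finset.prod_pos fun i _ => Finset.prod_pos fun j hj => ?_
  rw [Finset.mem_Ioi] at hj
  exact sub_pos.2 (hmono (hs hj))

section general

variable {N : ℕ} {P : ℕ → Prop} [DecidablePred P] {γ : ℕ → ℕ}

private lemma sta_mono (h1 : ∀ s < N, P s → γ (s + 1) = γ s + 1)
    (h2 : ∀ s < N, ¬ P s → γ (s + 1) = γ s) {a b : ℕ} (hab : a ≤ b) (hb : b ≤ N) : γ a ≤ γ b := by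
  induction b, hab using Nat.le_induction with
  | base => exact le_rfl
  | succ b hab ih =>
    have h3 := ih (by omega)
    by_cases hp : P b
    · have := h1 b (by omega) hp
      omega
    · have := h2 b (by omega) hp
      omega

private lemma sta_lt (h1 : ∀ s < N, P s → γ (s + 1) = γ s + 1)
    (h2 : ∀ s < N, ¬ P s → γ (s + 1) = γ s) {a b : ℕ} (hab : a < b) (hb : b ≤ N) (ha : P a) :
    γ a < γ b := by
  have h3 := h1 a (by omega) ha
  have h4 := sta_mono h1 h2 (show a + 1 ≤ b from hab) hb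
  omega

private lemma sta_cnt (h1 : ∀ s < N, P s → γ (s + 1) = γ s + 1)
    (h2 : ∀ s < N, ¬ P s → γ (s + 1) = γ s) {j : ℕ} (hj : γ 0 ≤ j) {M : ℕ} (hM : M ≤ N) :
    (∑ s ∈ Finset.range M, if P s ∧ γ s < j then 1 else 0) + γ 0 = min (γ M) j := by
  induction M with
  | zero => simp [hj]
  | succ M ih =>
    have h3 := ih (by omega)
    rw [Finset.sum_range_succ]
    by_cases hp : P M
    · have h4 := h1 M (by omega) hp
      by_cases hl : γ M < j
      · rw [if_pos ⟨hp, hl⟩]; omega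
      · rw [if_neg (fun h => hl h.2)]; omega
    · have h4 := h2 M (by omega) hp
      rw [if_neg (fun h => hp h.1)]; omega

private lemma sta_ex (h1 : ∀ s < N, P s → γ (s + 1) = γ s + 1)
    (h2 : ∀ s < N, ¬ P s → γ (s + 1) = γ s) {a b v : ℕ} (hab : a ≤ b) (hb : b ≤ N)
    (hv1 : γ a ≤ v) (hv2 : v < γ b) : ∃ s, a ≤ s ∧ s < b ∧ P s ∧ γ s = v := by
  induction b, hab using Nat.le_induction with
  | base => omega
  | succ b hab ih =>
    by_cases hv : v < γ b
    · obtain ⟨s, h3, h4, h5⟩ := ih (by omega) hv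
      exact ⟨s, h3, by omega, h5⟩
    · by_cases hp : P b
      · have := h1 b (by omega) hp
        exact ⟨b, hab, by omega, hp, by omega⟩
      · have := h2 b (by omega) hp
        omega

private lemma sta_exp (h1 : ∀ s < N, P s → γ (s + 1) = γ s + 1)
    (h2 : ∀ s < N, ¬ P s → γ (s + 1) = γ s) {i j : ℕ} (hi : i ≤ N) (hj0 : γ 0 ≤ j)
    (hj : j ≤ γ N) :
    ((∑ s ∈ Finset.range N, if P s ∧ γ s < j then s else 0 : ℕ) : ℤ) - i * j =
      ((∑ s ∈ Finset.range N, if P s ∧ ((j ≤ γ s ∧ γ s < γ i) ∨ (γ i ≤ γ s ∧ γ s < j))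
        then (s - i) + (i - s) else 0 : ℕ) : ℤ) +
      (((∑ s ∈ Finset.range N, if P s ∧ γ s < γ i then s else 0 : ℕ) : ℤ) - i * γ i) := by
  have c1 := sta_cnt h1 h2 hj0 le_rfl
  have c2 := sta_cnt h1 h2 (sta_mono h1 h2 (Nat.zero_le i) hi) le_rfl
  rw [min_eq_right hj] at c1
  rw [min_eq_right (sta_mono h1 h2 hi le_rfl)] at c2
  have key : ∀ s ∈ Finset.range N,
      (((if P s ∧ γ s < j then s else 0 : ℕ) : ℤ) - i * ((if P s ∧ γ s < j then 1 else 0 : ℕ) : ℤ))
      = ((if P s ∧ ((j ≤ γ s ∧ γ s < γ i) ∨ (γ i ≤ γ s ∧ γ s < j))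
        then (s - i) + (i - s) else 0 : ℕ) : ℤ) +
      (((if P s ∧ γ s < γ i then s else 0 : ℕ) : ℤ)
        - i * ((if P s ∧ γ s < γ i then 1 else 0 : ℕ) : ℤ)) := by
    intro s hs
    rw [Finset.mem_range] at hs
    by_cases hp : P s
    · have hsi : γ s < γ i ↔ s < i := by
        constructor
        · intro h
          by_contra hc
          have := sta_mono h1 h2 (not_lt.1 hc) hs.le
          omega
        · intro h
          exact sta_lt h1 h2 h hi hp
      by_cases hj1 : γ s < j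
      · by_cases hl : γ s < γ i
        · rw [if_pos ⟨hp, hj1⟩, if_pos ⟨hp, hj1⟩, if_neg (by rintro ⟨-, h | h⟩ <;> omega),
            if_pos ⟨hp, hl⟩, if_pos ⟨hp, hl⟩]
          simp
        · have h3 : i ≤ s := not_lt.1 (mt hsi.2 hl)
          rw [if_pos ⟨hp, hj1⟩, if_pos ⟨hp, hj1⟩, if_pos ⟨hp, Or.inr ⟨not_lt.1 hl, hj1⟩⟩,
            if_neg (fun h => hl h.2), if_neg (fun h => hl h.2)]
          push_cast [Nat.cast_sub h3]
          rw [Nat.sub_eq_zero_of_le h3]
          simp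
      · by_cases hl : γ s < γ i
        · have h3 : s ≤ i := (hsi.1 hl).le
          rw [if_neg (fun h => hj1 h.2), if_neg (fun h => hj1 h.2),
            if_pos ⟨hp, Or.inl ⟨not_lt.1 hj1, hl⟩⟩, if_pos ⟨hp, hl⟩, if_pos ⟨hp, hl⟩]
          push_cast [Nat.cast_sub h3]
          rw [Nat.sub_eq_zero_of_le h3]
          simp
        · rw [if_neg (fun h => hj1 h.2), if_neg (fun h => hj1 h.2),
            if_neg (by rintro ⟨-, h | h⟩ <;> omega), if_neg (fun h => hl h.2),
            if_neg (fun h => hl h.2)]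
          simp
    · rw [if_neg (fun h => hp h.1), if_neg (fun h => hp h.1), if_neg (fun h => hp h.1),
        if_neg (fun h => hp h.1), if_neg (fun h => hp h.1)]
      simp
  have hsum := Finset.sum_congr (rfl : Finset.range N = Finset.range N) key
  rw [Finset.sum_sub_distrib, Finset.sum_add_distrib, Finset.sum_sub_distrib, ← Finset.mul_sum,
    ← Finset.mul_sum, ← Nat.cast_sum, ← Nat.cast_sum, ← Nat.cast_sum, ← Nat.cast_sum,
    ← Nat.cast_sum] at hsum
  have e1 : ((∑ s ∈ Finset.range N, if P s ∧ γ s < j then 1 else 0 : ℕ) : ℤ) = j - γ 0 := by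
    rw [eq_sub_iff_add_eq, ← Nat.cast_add, c1]
  have e2 : ((∑ s ∈ Finset.range N, if P s ∧ γ s < γ i then 1 else 0 : ℕ) : ℤ) = γ i - γ 0 := by
    rw [eq_sub_iff_add_eq, ← Nat.cast_add, c2]
  rw [e1, e2] at hsum
  linarith

private lemma sta_zero (h1 : ∀ s < N, P s → γ (s + 1) = γ s + 1)
    (h2 : ∀ s < N, ¬ P s → γ (s + 1) = γ s) {i j : ℕ} (hi : i < N) (hj0 : γ 0 ≤ j)
    (hj : j ≤ γ N) :
    (∑ s ∈ Finset.range N, if P s ∧ ((j ≤ γ s ∧ γ s < γ i) ∨ (γ i ≤ γ s ∧ γ s < j))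
        then (s - i) + (i - s) else 0) = 0 ↔ j = γ i ∨ (j = γ i + 1 ∧ P i) := by
  rw [Finset.sum_eq_zero_iff]
  constructor
  · intro h
    rcases lt_trichotomy j (γ i) with hl | hl | hl
    · obtain ⟨s, -, h4, h5, h6⟩ := sta_ex h1 h2 (Nat.zero_le i) hi.le hj0 hl
      have h7 := h s (Finset.mem_range.2 (by omega))
      rw [if_pos ⟨h5, Or.inl ⟨h6.ge, by omega⟩⟩] at h7
      omega
    · exact Or.inl hl
    · right
      obtain ⟨s, h4, h4', h5, h6⟩ := sta_ex h1 h2 hi.le le_rfl le_rfl (lt_of_lt_of_le hl hj)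
      have h7 := h s (Finset.mem_range.2 h4')
      rw [if_pos ⟨h5, Or.inr ⟨h6.ge, by omega⟩⟩] at h7
      have h8 : s = i := by omega
      subst h8
      refine ⟨?_, h5⟩
      by_contra hne
      have h9 := h1 s hi h5
      obtain ⟨t, k4, k4', k5, k6⟩ := sta_ex h1 h2 (show s + 1 ≤ N from hi) le_rfl le_rfl
        (show γ (s + 1) < γ N by omega)
      have h10 := h t (Finset.mem_range.2 k4')
      rw [if_pos ⟨k5, Or.inr ⟨by omega, by omega⟩⟩] at h10
      omega
  · rintro (h | ⟨h, hp⟩) s hs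
    · rw [if_neg]
      rintro ⟨-, h3 | h3⟩ <;> omega
    · rw [Finset.mem_range] at hs
      split_ifs with hc
      · obtain ⟨hps, hc⟩ := hc
        have h3 : γ s = γ i := by omega
        have h4 : s = i := by
          rcases lt_trichotomy s i with hl | hl | hl
          · have := sta_lt h1 h2 hl hi.le hps
            omega
          · exact hl
          · have := sta_lt h1 h2 hl hs.le hp
            omega
        omega
      · rfl

end general

private lemma sta_a1 {n : ℕ} {α : ℕ → ℕ} :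
    ∀ s < 2 * n, α (s + 1) = α s + 1 → α (s + 1) = α s + 1 := fun _ _ h => h

private lemma sta_a2 {n : ℕ} {α : ℕ → ℕ} (hα : IsP n α) :
    ∀ s < 2 * n, ¬ α (s + 1) = α s + 1 → α (s + 1) = α s := fun s hs h => by
  rcases hα.2.1 s hs with h1 | h1
  · exact h1
  · exact absurd h1 h

private lemma sta_b1 {n : ℕ} {α : ℕ → ℕ} (hα : IsP n α) :
    ∀ s < 2 * n, α (s + 1) = α s → be α (s + 1) = be α s + 1 := fun s hs h => by
  have := hα.2.2.2 s (by omega)
  unfold be
  omega

private lemma sta_b2 {n : ℕ} {α : ℕ → ℕ} (hα : IsP n α) :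
    ∀ s < 2 * n, ¬ α (s + 1) = α s → be α (s + 1) = be α s := fun s hs h => by
  have h1 := hα.2.2.2 s (by omega)
  have h2 := hα.2.1 s hs
  unfold be
  omega

theorem exp_x {n : ℕ} {α : ℕ → ℕ} (hα : IsP n α) {i j : ℕ} (hi : i < 2 * n) (hj : j ≤ n) :
    (ee n α j : ℤ) - i * j = dx n α i j + ((ee n α (α i) : ℤ) - i * α i) :=
  sta_exp (P := fun s => α (s + 1) = α s + 1) sta_a1 (sta_a2 hα) hi.le (by rw [hα.1]; omega)
    (by rw [hα.2.2.1]; exact hj)

theorem exp_y {n : ℕ} {α : ℕ → ℕ} (hα : IsP n α) {i l : ℕ} (hi : i < 2 * n) (hl : 1 ≤ l)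
    (hln : l ≤ n + 1) :
    (ff n α l : ℤ) - i * l = dy n α i l + ((ff n α (be α i) : ℤ) - i * be α i) :=
  sta_exp (P := fun s => α (s + 1) = α s) (sta_b1 hα) (sta_b2 hα) hi.le
    (by unfold be; rw [hα.1]; omega) (by unfold be; rw [hα.2.2.1]; omega)

theorem dx_zero {n : ℕ} {α : ℕ → ℕ} (hα : IsP n α) {i j : ℕ} (hi : i < 2 * n) (hj : j ≤ n) :
    dx n α i j = 0 ↔ j = α i ∨ (j = α i + 1 ∧ α (i + 1) = α i + 1) :=
  sta_zero (P := fun s => α (s + 1) = α s + 1) sta_a1 (sta_a2 hα) hi (by rw [hα.1]; omega)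
    (by rw [hα.2.2.1]; exact hj)

theorem dy_zero {n : ℕ} {α : ℕ → ℕ} (hα : IsP n α) {i l : ℕ} (hi : i < 2 * n) (hl : 1 ≤ l)
    (hln : l ≤ n + 1) :
    dy n α i l = 0 ↔ l = be α i ∨ (l = be α i + 1 ∧ α (i + 1) = α i) :=
  sta_zero (P := fun s => α (s + 1) = α s) (sta_b1 hα) (sta_b2 hα) hi
    (by unfold be; rw [hα.1]; omega) (by unfold be; rw [hα.2.2.1]; omega)

end Pool.Agent.TR
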