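import Pool.Agent.Helper65.TR.STA

/-!
# TRL STB : scaled equations and the Jacobian

PROOFS. `val_x`: `u 0 · (A (2i + c-1)) = Σ_j XX z j ε^(ee j) (c ε^(-i))^j
= ε^(ee (α i) - i α i) R1 c i` by `exp_x` (zpow), `c ∈ {1, 2}`; `val_y` the same.
`th_GG`: multiply.
`jj_MG`: with the gauge `x = e_0`, `y = e_(n+1)` the rows `inr` of `Lmat` are unit vectors
(`bas (kap n c) k ⬝ᵥ e_0 = 1` iff `c = inr (k, 0)`, and the same for `e_(n+1)`), so
`JJ = det` of the upper left block, whose entry in the row `i`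
and the column `c` is, for `c < n` (`j = c + 1`):
`(A (2i))_j (u 1 · A (2i+1)) - (u 1 · A (2i)) (A (2i+1))_j
= ε^(-i j) ε^(ff (be i) - i be i) (R2 2 i - 2^j R2 1 i)`, which is
`ε^(-ee j) ε^(κ_i) MG i c`, `κ_i = ee (α i) - i α i + ff (be i) - i be i` (`exp_x`); similarly for
`c ≥ n`.  So the block is `diag(ε^κ_i) MG diag(ε^(-g_c))` and the determinants have the same sign.
-/

set_option autoImplicit false

open Matrix

namespace Pool.Agent.TR

/-- the factor of a node. -/
noncomputable def STB_c (b : Bool) : ℝ := if b then 2 else 1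

theorem STB_nd (ε : ℝ) (i : ℕ) (b : Bool) :
    nd ε (2 * i + (if b then 1 else 0)) = STB_c b * (ε⁻¹) ^ i := by
  cases b
  · simp [nd, STB_c]
  · have h1 : (2 * i + 1) % 2 = 1 := by omega
    have h2 : (2 * i + 1) / 2 = i := by omega
    simp [nd, STB_c, h1, h2]

theorem STB_pow {ε : ℝ} (hε : 0 < ε) (i k : ℕ) (b : Bool) :
    nd ε (2 * i + (if b then 1 else 0)) ^ k = STB_c b ^ k * ε ^ (-((i : ℤ) * k)) := by
  rw [STB_nd, mul_pow, ← pow_mul, _root_.zpow_neg, inv_pow]
  congr 2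

/-- exponents of the rows. -/
def STB_kx (n : ℕ) (α : ℕ → ℕ) (i : ℕ) : ℤ := (ee n α (α i) : ℤ) - i * α i

def STB_ky (n : ℕ) (α : ℕ → ℕ) (i : ℕ) : ℤ := (ff n α (be α i) : ℤ) - i * be α i

theorem STB_term_x {n : ℕ} {α : ℕ → ℕ} (hα : IsP n α) {i : ℕ} (hi : i < 2 * n) {ε : ℝ}
    (hε : 0 < ε) {j : ℕ} (hj : j ≤ n) :
    ε ^ ee n α j * ε ^ (-((i : ℤ) * j)) = ε ^ STB_kx n α i * ε ^ dx n α i j := by
  have h := exp_x hα hi hj
  rw [← zpow_natCast, ← zpow_natCast ε (dx n α i j), ← zpow_add₀ hε.ne', ← zpow_add₀ hε.ne']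
  congr 1
  unfold STB_kx
  linarith

theorem STB_term_y {n : ℕ} {α : ℕ → ℕ} (hα : IsP n α) {i : ℕ} (hi : i < 2 * n) {ε : ℝ}
    (hε : 0 < ε) {l : ℕ} (hl : 1 ≤ l) (hln : l ≤ n + 1) :
    ε ^ ff n α l * ε ^ (-((i : ℤ) * l)) = ε ^ STB_ky n α i * ε ^ dy n α i l := by
  have h := exp_y hα hi hl hln
  rw [← zpow_natCast, ← zpow_natCast ε (dy n α i l), ← zpow_add₀ hε.ne', ← zpow_add₀ hε.ne']
  congr 1
  unfold STB_ky
  linarith

theorem val_x {n : ℕ} {α : ℕ → ℕ} (hα : IsP n α) {i : ℕ} (hi : i < 2 * n) {ε : ℝ} (hε : 0 < ε)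
    (z : Fin (2 * n) → ℝ) (b : Bool) :
    (uz n α ε z) 0 ⬝ᵥ vd n ε (2 * i + (if b then 1 else 0)) =
      ε ^ ((ee n α (α i) : ℤ) - i * α i) * R1 n α (if b then 2 else 1) ε z i := by
  have h1 : (uz n α ε z) 0 ⬝ᵥ vd n ε (2 * i + (if b then 1 else 0)) =
      ∑ k ∈ Finset.range (n + 2), XX z k * ε ^ ee n α k *
        nd ε (2 * i + (if b then 1 else 0)) ^ k := by
    rw [← Fin.sum_univ_eq_sum_range (fun k => XX z k * ε ^ ee n α k *
        nd ε (2 * i + (if b then 1 else 0)) ^ k)]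
    rfl
  have h2 : XX z (n + 1) = 0 := by
    unfold XX
    rw [if_neg (by omega), dif_neg (by omega)]
  rw [h1, Finset.sum_range_succ, h2, zero_mul, zero_mul, add_zero]
  unfold R1
  rw [Finset.mul_sum]
  refine Finset.sum_congr rfl fun j hj => ?_
  have hj' : j ≤ n := by
    rw [Finset.mem_range] at hj
    omega
  have h3 := STB_term_x hα hi hε hj'
  rw [STB_pow hε]
  unfold STB_kx at h3
  change _ = _ * (STB_c b ^ j * XX z j * ε ^ dx n α i j)
  calc XX z j * ε ^ ee n α j * (STB_c b ^ j * ε ^ (-((i : ℤ) * j))) =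
      STB_c b ^ j * XX z j * (ε ^ ee n α j * ε ^ (-((i : ℤ) * j))) := by ring
    _ = _ := by rw [h3]; ring

theorem val_y {n : ℕ} {α : ℕ → ℕ} (hα : IsP n α) {i : ℕ} (hi : i < 2 * n) {ε : ℝ} (hε : 0 < ε)
    (z : Fin (2 * n) → ℝ) (b : Bool) :
    (uz n α ε z) 1 ⬝ᵥ vd n ε (2 * i + (if b then 1 else 0)) =
      ε ^ ((ff n α (be α i) : ℤ) - i * be α i) * R2 n α (if b then 2 else 1) ε z i := by
  have h1 : (uz n α ε z) 1 ⬝ᵥ vd n ε (2 * i + (if b then 1 else 0)) =
      ∑ k ∈ Finset.range (n + 2), YY z k * ε ^ ff n α k *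
        nd ε (2 * i + (if b then 1 else 0)) ^ k := by
    rw [← Fin.sum_univ_eq_sum_range (fun k => YY z k * ε ^ ff n α k *
        nd ε (2 * i + (if b then 1 else 0)) ^ k)]
    rfl
  have h2 : YY z 0 = 0 := by
    unfold YY
    rw [dif_neg (by omega), if_neg (by omega)]
  have h3 : Finset.range (n + 2) = insert 0 (Finset.Icc 1 (n + 1)) := by
    ext k
    simp only [Finset.mem_range, Finset.mem_insert, Finset.mem_Icc]
    omega
  rw [h1, h3, Finset.sum_insert (by simp), h2, zero_mul, zero_mul, zero_add]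
  unfold R2
  rw [Finset.mul_sum]
  refine Finset.sum_congr rfl fun j hj => ?_
  rw [Finset.mem_Icc] at hj
  have h3 := STB_term_y hα hi hε hj.1 hj.2
  rw [STB_pow hε]
  unfold STB_ky at h3
  change _ = _ * (STB_c b ^ j * YY z j * ε ^ dy n α i j)
  calc YY z j * ε ^ ff n α j * (STB_c b ^ j * ε ^ (-((i : ℤ) * j))) =
      STB_c b ^ j * YY z j * (ε ^ ff n α j * ε ^ (-((i : ℤ) * j))) := by ring
    _ = _ := by rw [h3]; ring

theorem STB_vals {n : ℕ} {α : ℕ → ℕ} (hα : IsP n α) {i : ℕ} (hi : i < 2 * n) {ε : ℝ} (hε : 0 < ε)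
    (z : Fin (2 * n) → ℝ) :
    (uz n α ε z) 0 ⬝ᵥ vd n ε (2 * i) = ε ^ STB_kx n α i * R1 n α 1 ε z i ∧
    (uz n α ε z) 0 ⬝ᵥ vd n ε (2 * i + 1) = ε ^ STB_kx n α i * R1 n α 2 ε z i ∧
    (uz n α ε z) 1 ⬝ᵥ vd n ε (2 * i) = ε ^ STB_ky n α i * R2 n α 1 ε z i ∧
    (uz n α ε z) 1 ⬝ᵥ vd n ε (2 * i + 1) = ε ^ STB_ky n α i * R2 n α 2 ε z i :=
  ⟨val_x hα hi hε z false, val_x hα hi hε z true, val_y hα hi hε z false, val_y hα hi hε z true⟩

theorem th_GG {n : ℕ} {α : ℕ → ℕ} (hα : IsP n α) {ε : ℝ} (hε : 0 < ε) (z : Fin (2 * n) → ℝ)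
    (h : ∀ i < 2 * n, GG n α ε z i = 0) : Sol n (vd n ε) (uz n α ε z) := by
  intro i hi
  obtain ⟨h1, h2, h3, h4⟩ := STB_vals hα hi hε z
  unfold om
  rw [h1, h2, h3, h4]
  have h5 := h i hi
  unfold GG at h5
  linear_combination (ε ^ STB_kx n α i * ε ^ STB_ky n α i) * h5

/-- the first and the last basis vector. -/
def e0 (n : ℕ) : Fin (n + 2) → ℝ := Pi.single 0 1
def eN (n : ℕ) : Fin (n + 2) → ℝ := Pi.single (Fin.last (n + 1)) 1

/-- the upper left block. -/
noncomputable def STB_UL (n : ℕ) (α : ℕ → ℕ) (ε : ℝ) (z : Fin (2 * n) → ℝ) :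
    Matrix (Fin (2 * n)) (Fin (2 * n)) ℝ := fun i c =>
  dom (uz n α ε z) (bas (kap n (Sum.inl c))) (vd n ε (2 * i)) (vd n ε (2 * i + 1))

theorem STB_bas_dot {n : ℕ} (p : Fin 2 × Fin (n + 2)) (k : Fin 2) (x : Fin (n + 2) → ℝ) :
    (bas p k) ⬝ᵥ x = if k = p.1 then x p.2 else 0 := by
  unfold bas dotProduct
  obtain ⟨a, b⟩ := p
  by_cases hk : k = a
  · subst hk
    simp [Prod.ext_iff]
  · simp [Prod.ext_iff, hk]

theorem STB_det {n : ℕ} (α : ℕ → ℕ) (ε : ℝ) (z : Fin (2 * n) → ℝ) :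
    JJ n (vd n ε) (e0 n) (eN n) (uz n α ε z) = (STB_UL n α ε z).det := by
  unfold JJ
  have h : Lmat n (vd n ε) (e0 n) (eN n) (uz n α ε z) =
      Matrix.fromBlocks (STB_UL n α ε z)
        (fun i c => dom (uz n α ε z) (bas (kap n (Sum.inr c))) (vd n ε (2 * i))
          (vd n ε (2 * i + 1))) 0 1 := by
    ext r c
    rcases r with i | ⟨k, l⟩
    · rcases c with c | c
      · rfl
      · rfl
    · rcases c with c | ⟨k', l'⟩
      · change (bas (kap n (Sum.inl c))) k ⬝ᵥ (if l = 0 then e0 n else eN n) = 0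
        rw [STB_bas_dot]
        have hc : (kap n (Sum.inl c)).2 ≠ 0 ∧ (kap n (Sum.inl c)).2 ≠ Fin.last (n + 1) := by
          unfold kap
          have := c.2
          by_cases hcn : (c : ℕ) < n
          · simp only [dif_pos hcn]
            constructor
            · intro h
              have := congrArg Fin.val h
              simp at this
            · intro h
              have := congrArg Fin.val h
              simp at this
              omega
          · simp only [dif_neg hcn]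
            constructor
            · intro h
              have := congrArg Fin.val h
              simp at this
            · intro h
              have := congrArg Fin.val h
              simp at this
              omega
        by_cases hl : l = 0
        · rw [if_pos hl]
          unfold e0
          rw [Pi.single_eq_of_ne hc.1]
          simp
        · rw [if_neg hl]
          unfold eN
          rw [Pi.single_eq_of_ne hc.2]
          simp
      · change (bas (kap n (Sum.inr (k', l')))) k ⬝ᵥ (if l = 0 then e0 n else eN n) =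
          (1 : Matrix (Fin 2 × Fin 2) (Fin 2 × Fin 2) ℝ) (k, l) (k', l')
        rw [STB_bas_dot]
        have hne : (Fin.last (n + 1)) ≠ (0 : Fin (n + 2)) := by
          intro h
          have := congrArg Fin.val h
          simp at this
        have e1 : (kap n (Sum.inr (k', l'))).1 = k' := rfl
        have e2 : (kap n (Sum.inr (k', l'))).2 = if l' = 0 then 0 else Fin.last (n + 1) := rfl
        rw [e1, e2, Matrix.one_apply]
        by_cases hk : k = k'
        · subst hk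
          rw [if_pos rfl]
          have hll : ∀ l l' : Fin 2, l' ≠ 0 → l ≠ 0 → l = l' := by decide
          by_cases hl : l = 0
          · subst hl
            rw [if_pos rfl]
            unfold e0
            by_cases hl' : l' = 0
            · subst hl'
              rw [if_pos rfl, if_pos rfl, Pi.single_eq_same]
            · rw [if_neg hl', Pi.single_eq_of_ne hne, if_neg]
              intro h
              exact hl' (congrArg Prod.snd h).symm
          · rw [if_neg hl]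
            unfold eN
            by_cases hl' : l' = 0
            · subst hl'
              rw [if_pos rfl, Pi.single_eq_of_ne hne.symm, if_neg]
              intro h
              exact hl (congrArg Prod.snd h)
            · rw [if_neg hl', Pi.single_eq_same, if_pos]
              rw [hll l l' hl' hl]
        · rw [if_neg hk, if_neg]
          intro h
          exact hk (congrArg Prod.fst h)
  rw [h, Matrix.det_fromBlocks_zero₂₁, Matrix.det_one, mul_one]

/-- the exponents of the columns. -/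
def STB_g (n : ℕ) (α : ℕ → ℕ) (c : ℕ) : ℕ :=
  if c < n then ee n α (c + 1) else ff n α (c - n + 1)

theorem STB_entry {n : ℕ} {α : ℕ → ℕ} (hα : IsP n α) {ε : ℝ} (hε : 0 < ε) (z : Fin (2 * n) → ℝ)
    (i c : Fin (2 * n)) :
    STB_UL n α ε z i c = ε ^ (STB_kx n α i + STB_ky n α i) * MG n α ε z i c *
      (ε ^ STB_g n α c)⁻¹ := by
  obtain ⟨h1, h2, h3, h4⟩ := STB_vals hα i.2 hε z
  have hcc := c.2
  unfold STB_UL dom
  rw [h1, h2, h3, h4]
  simp only [STB_bas_dot]
  rw [zpow_add₀ hε.ne']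
  by_cases hc : (c : ℕ) < n
  · have e1 : (kap n (Sum.inl c)).1 = 0 := by
      unfold kap
      simp only [dif_pos hc]
    have e2 : ((kap n (Sum.inl c)).2 : ℕ) = c + 1 := by
      unfold kap
      simp only [dif_pos hc]
    have v1 : vd n ε (2 * i) (kap n (Sum.inl c)).2 = ε ^ (-(((i : ℕ) : ℤ) * ((c + 1 : ℕ) : ℤ))) := by
      unfold vd
      rw [e2]
      have := STB_pow hε (i : ℕ) ((c : ℕ) + 1) false
      simp only [STB_c, Bool.false_eq_true, if_false, one_pow, one_mul, add_zero] at this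
      exact this
    have v2 : vd n ε (2 * i + 1) (kap n (Sum.inl c)).2 =
        2 ^ ((c : ℕ) + 1) * ε ^ (-(((i : ℕ) : ℤ) * ((c + 1 : ℕ) : ℤ))) := by
      unfold vd
      rw [e2]
      have := STB_pow hε (i : ℕ) ((c : ℕ) + 1) true
      simp only [STB_c, if_true] at this
      exact this
    rw [v1, v2, e1]
    have t := STB_term_x hα i.2 hε (show (c : ℕ) + 1 ≤ n by omega)
    have hg : STB_g n α c = ee n α ((c : ℕ) + 1) := by
      unfold STB_g
      rw [if_pos hc]
    rw [hg]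
    unfold MG
    rw [if_pos hc]
    have hne : ε ^ ee n α ((c : ℕ) + 1) ≠ 0 := (pow_pos hε _).ne'
    have t2 : ε ^ (-(((i : ℕ) : ℤ) * ((c + 1 : ℕ) : ℤ))) =
        ε ^ STB_kx n α i * ε ^ dx n α i ((c : ℕ) + 1) * (ε ^ ee n α ((c : ℕ) + 1))⁻¹ := by
      rw [← t]
      field_simp
    rw [t2]
    simp
    ring
  · have e1 : (kap n (Sum.inl c)).1 = 1 := by
      unfold kap
      simp only [dif_neg hc]
    have e2 : ((kap n (Sum.inl c)).2 : ℕ) = c - n + 1 := by
      unfold kap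
      simp only [dif_neg hc]
    have v1 : vd n ε (2 * i) (kap n (Sum.inl c)).2 =
        ε ^ (-(((i : ℕ) : ℤ) * (((c : ℕ) - n + 1 : ℕ) : ℤ))) := by
      unfold vd
      rw [e2]
      have := STB_pow hε (i : ℕ) ((c : ℕ) - n + 1) false
      simp only [STB_c, Bool.false_eq_true, if_false, one_pow, one_mul, add_zero] at this
      exact this
    have v2 : vd n ε (2 * i + 1) (kap n (Sum.inl c)).2 =
        2 ^ ((c : ℕ) - n + 1) * ε ^ (-(((i : ℕ) : ℤ) * (((c : ℕ) - n + 1 : ℕ) : ℤ))) := by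
      unfold vd
      rw [e2]
      have := STB_pow hε (i : ℕ) ((c : ℕ) - n + 1) true
      simp only [STB_c, if_true] at this
      exact this
    rw [v1, v2, e1]
    have t := STB_term_y hα i.2 hε (show 1 ≤ (c : ℕ) - n + 1 by omega)
      (show (c : ℕ) - n + 1 ≤ n + 1 by omega)
    have hg : STB_g n α c = ff n α ((c : ℕ) - n + 1) := by
      unfold STB_g
      rw [if_neg hc]
    rw [hg]
    unfold MG
    rw [if_neg hc]
    have hne : ε ^ ff n α ((c : ℕ) - n + 1) ≠ 0 := (pow_pos hε _).ne'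
    have t2 : ε ^ (-(((i : ℕ) : ℤ) * (((c : ℕ) - n + 1 : ℕ) : ℤ))) =
        ε ^ STB_ky n α i * ε ^ dy n α i ((c : ℕ) - n + 1) *
          (ε ^ ff n α ((c : ℕ) - n + 1))⁻¹ := by
      rw [← t]
      field_simp
    rw [t2]
    simp
    ring

theorem jj_MG {n : ℕ} {α : ℕ → ℕ} (hα : IsP n α) {ε : ℝ} (hε : 0 < ε) (z : Fin (2 * n) → ℝ) :
    ∃ c : ℝ, 0 < c ∧ JJ n (vd n ε) (e0 n) (eN n) (uz n α ε z) = c * (MG n α ε z).det := by
  have h : STB_UL n α ε z =
      Matrix.diagonal (fun i : Fin (2 * n) => ε ^ (STB_kx n α i + STB_ky n α i)) *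
        MG n α ε z * Matrix.diagonal (fun c : Fin (2 * n) => (ε ^ STB_g n α c)⁻¹) := by
    ext i c
    rw [Matrix.mul_diagonal, Matrix.diagonal_mul, STB_entry hα hε]
  refine ⟨(∏ i : Fin (2 * n), ε ^ (STB_kx n α i + STB_ky n α i)) *
    ∏ c : Fin (2 * n), (ε ^ STB_g n α c)⁻¹, ?_, ?_⟩
  · refine mul_pos (Finset.prod_pos fun i _ => zpow_pos hε _)
      (Finset.prod_pos fun i _ => inv_pos.2 (pow_pos hε _))
  · rw [STB_det, h, Matrix.det_mul, Matrix.det_mul, Matrix.det_diagonal, Matrix.det_diagonal]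
    ring

end Pool.Agent.TR
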