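import Pool.Agent.Helper65.TR.STB
import Pool.Agent.Helper65.TR.STC
import Pool.Agent.Helper65.TR.IFT

/-!
# TRL STD : solutions for small `ε`

PROOF. `ift` for `F (z, ε) = (GG n α ε z i)_i` (polynomial in `z` and `ε`), `x0 = z0`, `p0 = 0`:
`GG n α 0 z0 i = 0` by `R1_zero`, `R2_zero` and the relations of `z0_exists`
(α-step: `GG = X_k Y_l (2^l - 2^k) + X_(k+1) Y_l (2^l - 2^(k+1))`, β-step similarly); the derivative
in `z` has the matrix `MG n α 0 z0`, whose determinant is `≠ 0` by `det_sign`.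
(`∂ R1 c / ∂ z_c' = c^(c'+1) ε^(dx i (c'+1))` for `c' < n`, etc.)
Everything is continuous, so for small `ε > 0` the solution `z` is close to `z0` and
`det MG n α ε z` has the sign of `det MG n α 0 z0`.
-/

set_option autoImplicit false

open Topology

namespace Pool.Agent.TR

theorem STD_sum_Icc (g : ℕ → ℝ) (n : ℕ) :
    ∑ l ∈ Finset.Icc 1 (n + 1), g l = ∑ k ∈ Finset.range (n + 1), g (k + 1) := by
  induction n with
  | zero => simp
  | succ n ih =>
    rw [Finset.sum_Icc_succ_top (by omega), ih, Finset.sum_range_succ _ (n + 1)]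

/-- extension of a direction by zero -/
def STD_H {n : ℕ} (h : Fin (2 * n) → ℝ) (k : ℕ) : ℝ := if hk : k < 2 * n then h ⟨k, hk⟩ else 0

/-- linear parts -/
noncomputable def STD_L1 (n : ℕ) (α : ℕ → ℕ) (c ε : ℝ) (h : Fin (2 * n) → ℝ) (i : ℕ) : ℝ :=
  ∑ k ∈ Finset.range n, c ^ (k + 1) * STD_H h k * ε ^ dx n α i (k + 1)

noncomputable def STD_L2 (n : ℕ) (α : ℕ → ℕ) (c ε : ℝ) (h : Fin (2 * n) → ℝ) (i : ℕ) : ℝ :=
  ∑ k ∈ Finset.range n, c ^ (k + 1) * STD_H h (n + k) * ε ^ dy n α i (k + 1)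

theorem STD_R1 {n : ℕ} (α : ℕ → ℕ) (c ε : ℝ) (z h : Fin (2 * n) → ℝ) (t : ℝ) (i : ℕ) :
    R1 n α c ε (z + t • h) i = R1 n α c ε z i + t * STD_L1 n α c ε h i := by
  unfold R1 STD_L1
  rw [Finset.sum_range_succ', Finset.sum_range_succ']
  have h0 : XX (z + t • h) 0 = XX z 0 := by simp [XX]
  rw [h0, Finset.mul_sum, add_right_comm, ← Finset.sum_add_distrib]
  congr 1
  refine Finset.sum_congr rfl fun k hk => ?_
  rw [Finset.mem_range] at hk
  have h1 : XX (z + t • h) (k + 1) = XX z (k + 1) + t * STD_H h k := by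
    unfold XX STD_H
    rw [if_neg (by omega), if_neg (by omega), dif_pos (by omega), dif_pos (by omega),
      dif_pos (by omega)]
    simp
  rw [h1]
  ring

theorem STD_R2 {n : ℕ} (α : ℕ → ℕ) (c ε : ℝ) (z h : Fin (2 * n) → ℝ) (t : ℝ) (i : ℕ) :
    R2 n α c ε (z + t • h) i = R2 n α c ε z i + t * STD_L2 n α c ε h i := by
  unfold R2 STD_L2
  rw [STD_sum_Icc, STD_sum_Icc, Finset.sum_range_succ, Finset.sum_range_succ]
  have h0 : YY (z + t • h) (n + 1) = YY z (n + 1) := by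
    unfold YY
    rw [dif_neg (by omega), dif_neg (by omega)]
  rw [h0, Finset.mul_sum, add_right_comm, ← Finset.sum_add_distrib]
  congr 1
  refine Finset.sum_congr rfl fun k hk => ?_
  rw [Finset.mem_range] at hk
  have h1 : YY (z + t • h) (k + 1) = YY z (k + 1) + t * STD_H h (n + k) := by
    unfold YY STD_H
    rw [dif_pos (by omega), dif_pos (by omega), dif_pos (by omega)]
    simp only [Pi.add_apply, Pi.smul_apply, smul_eq_mul, add_tsub_cancel_right, ← add_assoc]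
  rw [h1]
  ring

theorem STD_MG {n : ℕ} (α : ℕ → ℕ) (ε : ℝ) (z h : Fin (2 * n) → ℝ) (i : Fin (2 * n)) :
    (MG n α ε z).mulVec h i =
      STD_L1 n α 1 ε h i * R2 n α 2 ε z i + R1 n α 1 ε z i * STD_L2 n α 2 ε h i -
        (STD_L2 n α 1 ε h i * R1 n α 2 ε z i + R2 n α 1 ε z i * STD_L1 n α 2 ε h i) := by
  have e1 : (MG n α ε z).mulVec h i = ∑ k ∈ Finset.range (2 * n),
      (if k < n then
        ε ^ dx n α i (k + 1) * (R2 n α 2 ε z i - 2 ^ (k + 1) * R2 n α 1 ε z i)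
      else
        ε ^ dy n α i (k - n + 1) * (2 ^ (k - n + 1) * R1 n α 1 ε z i - R1 n α 2 ε z i)) *
        STD_H h k := by
    rw [Finset.sum_range]
    unfold Matrix.mulVec dotProduct
    refine Finset.sum_congr rfl fun k _ => ?_
    have : STD_H h (k : ℕ) = h k := by
      unfold STD_H
      rw [dif_pos k.2]
    rw [this]
    rfl
  have hr : Finset.range (2 * n) = Finset.range (n + n) := by rw [two_mul]
  rw [e1, hr, Finset.sum_range_add]
  have e2 : ∑ k ∈ Finset.range n, (if k < n then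
        ε ^ dx n α i (k + 1) * (R2 n α 2 ε z i - 2 ^ (k + 1) * R2 n α 1 ε z i)
      else
        ε ^ dy n α i (k - n + 1) * (2 ^ (k - n + 1) * R1 n α 1 ε z i - R1 n α 2 ε z i)) *
        STD_H h k = STD_L1 n α 1 ε h i * R2 n α 2 ε z i -
          R2 n α 1 ε z i * STD_L1 n α 2 ε h i := by
    unfold STD_L1
    rw [Finset.sum_mul, Finset.mul_sum, ← Finset.sum_sub_distrib]
    refine Finset.sum_congr rfl fun k hk => ?_
    rw [if_pos (Finset.mem_range.1 hk), one_pow]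
    ring
  have e3 : ∑ k ∈ Finset.range n, (if n + k < n then
        ε ^ dx n α i (n + k + 1) * (R2 n α 2 ε z i - 2 ^ (n + k + 1) * R2 n α 1 ε z i)
      else
        ε ^ dy n α i (n + k - n + 1) *
          (2 ^ (n + k - n + 1) * R1 n α 1 ε z i - R1 n α 2 ε z i)) *
        STD_H h (n + k) = R1 n α 1 ε z i * STD_L2 n α 2 ε h i -
          STD_L2 n α 1 ε h i * R1 n α 2 ε z i := by
    unfold STD_L2
    rw [Finset.sum_mul, Finset.mul_sum, ← Finset.sum_sub_distrib]
    refine Finset.sum_congr rfl fun k _ => ?_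
    rw [if_neg (by omega), one_pow, Nat.add_sub_cancel_left]
    ring
  rw [e2, e3]
  ring

theorem STD_XX (n : ℕ) (j : ℕ) :
    ContDiff ℝ 1 (fun x : (Fin (2 * n) → ℝ) × ℝ => XX x.1 j) := by
  unfold XX
  split_ifs with h1 h2
  · exact contDiff_const
  · exact (contDiff_apply ℝ ℝ _).comp contDiff_fst
  · exact contDiff_const

theorem STD_YY (n : ℕ) (j : ℕ) :
    ContDiff ℝ 1 (fun x : (Fin (2 * n) → ℝ) × ℝ => YY x.1 j) := by
  unfold YY
  split_ifs with h1 h2
  · exact (contDiff_apply ℝ ℝ _).comp contDiff_fst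
  · exact contDiff_const
  · exact contDiff_const

theorem STD_cR1 (n : ℕ) (α : ℕ → ℕ) (c : ℝ) (i : ℕ) :
    ContDiff ℝ 1 (fun x : (Fin (2 * n) → ℝ) × ℝ => R1 n α c x.2 x.1 i) := by
  unfold R1
  refine ContDiff.sum fun j _ => ?_
  exact (contDiff_const.mul (STD_XX n j)).mul (contDiff_snd.pow _)

theorem STD_cR2 (n : ℕ) (α : ℕ → ℕ) (c : ℝ) (i : ℕ) :
    ContDiff ℝ 1 (fun x : (Fin (2 * n) → ℝ) × ℝ => R2 n α c x.2 x.1 i) := by
  unfold R2
  refine ContDiff.sum fun j _ => ?_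
  exact (contDiff_const.mul (STD_YY n j)).mul (contDiff_snd.pow _)

theorem STD_cMG (n : ℕ) (α : ℕ → ℕ) :
    Continuous (fun x : (Fin (2 * n) → ℝ) × ℝ => (MG n α x.2 x.1).det) := by
  refine Continuous.matrix_det ?_
  refine continuous_pi fun i => continuous_pi fun c => ?_
  unfold MG
  split_ifs with h
  · exact (continuous_snd.pow _).mul ((STD_cR2 n α 2 i).continuous.sub
      (continuous_const.mul (STD_cR2 n α 1 i).continuous))
  · exact (continuous_snd.pow _).mul ((continuous_const.mul (STD_cR1 n α 1 i).continuous).sub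
      (STD_cR1 n α 2 i).continuous)

theorem start_z {n : ℕ} {α : ℕ → ℕ} (hα : IsP n α) (z0 : Fin (2 * n) → ℝ)
    (hz0 : ∀ i < 2 * n, GG n α 0 z0 i = 0) (hd : (MG n α 0 z0).det ≠ 0) :
    ∀ η : ℝ, 0 < η → ∀ᶠ ε in 𝓝[>] (0 : ℝ), ∃ z : Fin (2 * n) → ℝ, dist z z0 < η ∧
      (∀ i < 2 * n, GG n α ε z i = 0) ∧ 0 < (MG n α ε z).det * (MG n α 0 z0).det := by
  intro η hη
  set F : (Fin (2 * n) → ℝ) × ℝ → (Fin (2 * n) → ℝ) := fun x i => GG n α x.2 x.1 i with hF
  have hFc : ContDiff ℝ 1 F := by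
    rw [contDiff_pi]
    intro i
    show ContDiff ℝ 1 (fun x : (Fin (2 * n) → ℝ) × ℝ => GG n α x.2 x.1 i)
    unfold GG
    exact ((STD_cR1 n α 1 i).mul (STD_cR2 n α 2 i)).sub ((STD_cR2 n α 1 i).mul (STD_cR1 n α 2 i))
  have hF0 : F (z0, 0) = 0 := by
    funext i
    exact hz0 i i.2
  -- the derivative in the direction `h`
  have hder : ∀ h : Fin (2 * n) → ℝ, fderiv ℝ F (z0, 0) (h, 0) = (MG n α 0 z0).mulVec h := by
    intro h
    have h1 : HasFDerivAt F (fderiv ℝ F (z0, 0)) (z0, 0) :=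
      (hFc.differentiable (by simp)).differentiableAt.hasFDerivAt
    have h2 : HasDerivAt (fun t : ℝ => (z0 + t • h, (0 : ℝ))) (h, 0) 0 := by
      have h3 : HasDerivAt (fun t : ℝ => z0 + t • h) h 0 := by
        have h4 := (((hasDerivAt_id (0 : ℝ)).smul_const h).const_add z0)
        simpa using h4
      exact h3.prodMk (hasDerivAt_const 0 0)
    have h5 : HasDerivAt (fun t : ℝ => F (z0 + t • h, 0)) (fderiv ℝ F (z0, 0) (h, 0)) 0 := by
      have h6 : HasFDerivAt F (fderiv ℝ F (z0, 0)) (z0 + (0 : ℝ) • h, (0 : ℝ)) := by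
        rw [zero_smul, add_zero]; exact h1
      exact HasFDerivAt.comp_hasDerivAt (f := fun t : ℝ => (z0 + t • h, (0 : ℝ))) 0 h6 h2
    funext i
    have h7 := (hasDerivAt_pi.1 h5) i
    have h8 : (fun t : ℝ => F (z0 + t • h, 0) i) = fun t : ℝ =>
        (R1 n α 1 0 z0 i + t * STD_L1 n α 1 0 h i) * (R2 n α 2 0 z0 i + t * STD_L2 n α 2 0 h i) -
        (R2 n α 1 0 z0 i + t * STD_L2 n α 1 0 h i) *
          (R1 n α 2 0 z0 i + t * STD_L1 n α 2 0 h i) := by
      funext t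
      show GG n α 0 (z0 + t • h) i = _
      unfold GG
      rw [STD_R1, STD_R2, STD_R1, STD_R2]
    rw [h8] at h7
    have hl : ∀ a b : ℝ, HasDerivAt (fun t : ℝ => a + t * b) b 0 := by
      intro a b
      have := ((hasDerivAt_id (0 : ℝ)).mul_const b).const_add a
      simpa using this
    have h9 := (((hl (R1 n α 1 0 z0 i) (STD_L1 n α 1 0 h i)).mul
      (hl (R2 n α 2 0 z0 i) (STD_L2 n α 2 0 h i))).sub
      ((hl (R2 n α 1 0 z0 i) (STD_L2 n α 1 0 h i)).mul
      (hl (R1 n α 2 0 z0 i) (STD_L1 n α 2 0 h i))))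
    have h10 := h7.unique h9
    rw [h10, STD_MG]
    simp only [zero_mul, add_zero]
  have hinj : Function.Injective fun x : Fin (2 * n) → ℝ => fderiv ℝ F (z0, 0) (x, 0) := by
    intro x x' hxx
    simp only [hder] at hxx
    have h1 : (MG n α 0 z0).mulVec (x - x') = 0 := by
      rw [Matrix.mulVec_sub, hxx, sub_self]
    have h2 := Matrix.eq_zero_of_mulVec_eq_zero hd h1
    exact sub_eq_zero.1 h2
  -- continuity of the determinant
  have hcont : Continuous (fun x : (Fin (2 * n) → ℝ) × ℝ =>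
      (MG n α x.2 x.1).det * (MG n α 0 z0).det) := (STD_cMG n α).mul continuous_const
  have hpos : 0 < (MG n α 0 z0).det * (MG n α 0 z0).det := mul_self_pos.2 hd
  have hev : ∀ᶠ x in 𝓝 (z0, (0 : ℝ)), 0 < (MG n α x.2 x.1).det * (MG n α 0 z0).det :=
    hcont.continuousAt.eventually (lt_mem_nhds hpos)
  obtain ⟨δ, hδ, hball⟩ := Metric.eventually_nhds_iff.1 hev
  have h1 := (ift F z0 (0 : ℝ) hFc hF0 hinj).2 (min η δ) (lt_min hη hδ)
  refine Filter.Eventually.filter_mono nhdsWithin_le_nhds ?_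
  filter_upwards [h1, Metric.ball_mem_nhds (0 : ℝ) hδ] with ε hε hε2
  obtain ⟨z, hz, hz2⟩ := hε
  refine ⟨z, hz.trans_le (min_le_left _ _), ?_, ?_⟩
  · intro i hi
    exact congrFun hz2 ⟨i, hi⟩
  · refine @hball (z, ε) ?_
    rw [Prod.dist_eq]
    exact max_lt (hz.trans_le (min_le_right _ _)) hε2

end Pool.Agent.TR
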