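import Pool.Agent.Helper65.TR.BAL
import Pool.Agent.Helper65.TR.Defs

/-!
# TRL, start configuration: definitions

The state before step `i` is `(α i, be i)`, `be i = i + 1 - α i`; step `i` is an `α`-step if
`α (i+1) = α i + 1` and a `β`-step if `α (i+1) = α i`.  The start configuration is the Vandermonde
configuration with the nodes `ε^(-i), 2 ε^(-i)`, `i < 2 n`.

`z : Fin (2n) → ℝ` are the unknowns: `XX z 0 = 1, XX z 1, ..., XX z n` (`XX z (n+1) = 0`) and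
`YY z 0 = 0`, `YY z 1, ..., YY z n`, `YY z (n+1) = (-1)^(n+1)`; the pair of functionals is
`u 0 j = XX z j * ε^(ee j)`, `u 1 l = YY z l * ε^(ff l)`.
-/

set_option autoImplicit false

namespace Pool.Agent.TR

def be (α : ℕ → ℕ) (i : ℕ) : ℕ := i + 1 - α i

/-- the node number `j`. -/
noncomputable def nd (ε : ℝ) (j : ℕ) : ℝ := (if j % 2 = 0 then 1 else 2) * (ε⁻¹) ^ (j / 2)

/-- the start configuration. -/
noncomputable def vd (n : ℕ) (ε : ℝ) : ℕ → Fin (n + 2) → ℝ := fun j k => nd ε j ^ (k : ℕ)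

def XX {n : ℕ} (z : Fin (2 * n) → ℝ) (j : ℕ) : ℝ :=
  if j = 0 then 1 else if h : 1 ≤ j ∧ j ≤ n then z ⟨j - 1, by omega⟩ else 0

def YY {n : ℕ} (z : Fin (2 * n) → ℝ) (l : ℕ) : ℝ :=
  if h : 1 ≤ l ∧ l ≤ n then z ⟨n + l - 1, by omega⟩ else if l = n + 1 then (-1) ^ (n + 1) else 0

/-- exponent of `x_j`: sum of the times of the `α`-steps starting below `j`. -/
def ee (n : ℕ) (α : ℕ → ℕ) (j : ℕ) : ℕ :=
  ∑ s ∈ Finset.range (2 * n), if α (s + 1) = α s + 1 ∧ α s < j then s else 0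

/-- exponent of `y_l`: sum of the times of the `β`-steps starting below `l`. -/
def ff (n : ℕ) (α : ℕ → ℕ) (l : ℕ) : ℕ :=
  ∑ s ∈ Finset.range (2 * n), if α (s + 1) = α s ∧ be α s < l then s else 0

/-- the pair of functionals with unknowns `z` and parameter `ε`. -/
noncomputable def uz (n : ℕ) (α : ℕ → ℕ) (ε : ℝ) (z : Fin (2 * n) → ℝ) :
    Fin 2 → Fin (n + 2) → ℝ :=
  ![fun j => XX z j * ε ^ ee n α j, fun l => YY z l * ε ^ ff n α l]

/-- the difference of exponents at time `i`: sum of `|s - i|` over the `α`-steps `s` between the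
states `j` and `α i`. -/
def dx (n : ℕ) (α : ℕ → ℕ) (i j : ℕ) : ℕ :=
  ∑ s ∈ Finset.range (2 * n), if α (s + 1) = α s + 1 ∧
    ((j ≤ α s ∧ α s < α i) ∨ (α i ≤ α s ∧ α s < j)) then (s - i) + (i - s) else 0

def dy (n : ℕ) (α : ℕ → ℕ) (i l : ℕ) : ℕ :=
  ∑ s ∈ Finset.range (2 * n), if α (s + 1) = α s ∧
    ((l ≤ be α s ∧ be α s < be α i) ∨ (be α i ≤ be α s ∧ be α s < l)) then
      (s - i) + (i - s) else 0

/-- scaled values of the two functionals at the nodes `2 i` (`c = 1`) and `2 i + 1` (`c = 2`). -/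
noncomputable def R1 (n : ℕ) (α : ℕ → ℕ) (c ε : ℝ) (z : Fin (2 * n) → ℝ) (i : ℕ) : ℝ :=
  ∑ j ∈ Finset.range (n + 1), c ^ j * XX z j * ε ^ dx n α i j

noncomputable def R2 (n : ℕ) (α : ℕ → ℕ) (c ε : ℝ) (z : Fin (2 * n) → ℝ) (i : ℕ) : ℝ :=
  ∑ l ∈ Finset.Icc 1 (n + 1), c ^ l * YY z l * ε ^ dy n α i l

/-- scaled equations. -/
noncomputable def GG (n : ℕ) (α : ℕ → ℕ) (ε : ℝ) (z : Fin (2 * n) → ℝ) (i : ℕ) : ℝ :=
  R1 n α 1 ε z i * R2 n α 2 ε z i - R2 n α 1 ε z i * R1 n α 2 ε z i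

/-- the Jacobi matrix of the scaled equations (rows: equations, columns: unknowns). -/
noncomputable def MG (n : ℕ) (α : ℕ → ℕ) (ε : ℝ) (z : Fin (2 * n) → ℝ) :
    Matrix (Fin (2 * n)) (Fin (2 * n)) ℝ := fun i c =>
  if (c : ℕ) < n then
    ε ^ dx n α i (c + 1) * (R2 n α 2 ε z i - 2 ^ ((c : ℕ) + 1) * R2 n α 1 ε z i)
  else
    ε ^ dy n α i (c - n + 1) * (2 ^ ((c : ℕ) - n + 1) * R1 n α 1 ε z i - R1 n α 2 ε z i)

end Pool.Agent.TR
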