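import Pool.Agent.Helper65.TR.CLS

/-!
# TRL STG : the stages of the elimination

`M ≥ m + 1` columns in dimension `m + 1`.  `lastd A x = det(x, last m columns)`; it is positive on
`A j` for `j + m < M` and `0` on the last `m` columns.  `rr j = lastd (A j) / lastd (A (j-1))`,
`prm j = A j - rr j A (j-1)` for `1 ≤ j`, `j + m < M` (so `lastd (prm j) = 0`) and `prm j = A j`
otherwise.  `stg k = (A 0, ..., A k, prm (k+1), ..., prm (M-1))`.

PROOFS.  Windows (W): for `1 ≤ i`, `i + m ≤ M` and any vector `x`, the functional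
`x ↦ det(x, prm i, ..., prm (i+m-1))` vanishes on the hyperplane `H = ker lastd` as soon as all
`prm` are in `H` (true for indices `≥ 1`), hence it is `δ lastd` with a constant `δ`.  For
`x = A (i-1)`, `i - 1 + m < M` : telescoping column operations give
`det(A (i-1), prm i, ..., prm (i+m-1)) = det(A (i-1), A i, ..., A (i+m-1)) > 0` and
`lastd (A (i-1)) > 0`, so `δ > 0`.
`stage_closed`: downward induction on `k` from `k = M - m - 1` (there `stg k` agrees with `A` on the
first `M` columns, `tpc_of_tpos`).  Assume `stg k` is in `TPc` (for `k < M - m - 1` this is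
`stage_closed` for `k + 1` and `t = rr (k+1)` because
`update (stg (k+1)) (k+1) (prm (k+1)) = stg k`).  Apply `tpc_move` (dimension `m + 1`, `i = k`):
the columns `k+1, ..., k+m` of `stg k` are `prm (k+1), ..., prm (k+m)`; by (W) with `i = k + 1` the
two minors are `δ lastd (A (k-1)) > 0` and `δ lastd (A k)`; the condition `t W1 ≤ W0` is
`t ≤ rr k`.
`stage_indep` (m ≥ 2): two consecutive columns of a stage are independent: both unprimed: total
positivity; `(A k, prm (k+1))` : `prm (k+1) = A (k+1) - r A k`; `(prm j, prm (j+1))`, `j ≥ 1`,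
`j + m ≤ M` : (W); if `j + m > M` both are unprimed.
Independent vectors `x, y` have a `u` with `om u x y ≠ 0` (extend to a basis, take dual vectors).
-/

set_option autoImplicit false

open Matrix

namespace Pool.Agent.TR

noncomputable def lastd (m M : ℕ) (A : ℕ → Fin (m + 1) → ℝ) (x : Fin (m + 1) → ℝ) : ℝ :=
  dt (Matrix.vecCons x (fun k : Fin m => A (M - m + k)))

noncomputable def rr (m M : ℕ) (A : ℕ → Fin (m + 1) → ℝ) (j : ℕ) : ℝ :=
  lastd m M A (A j) / lastd m M A (A (j - 1))

noncomputable def prm (m M : ℕ) (A : ℕ → Fin (m + 1) → ℝ) : ℕ → Fin (m + 1) → ℝ :=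
  fun j => if 1 ≤ j ∧ j + m < M then A j - rr m M A j • A (j - 1) else A j

noncomputable def stg (m M : ℕ) (A : ℕ → Fin (m + 1) → ℝ) (k : ℕ) : ℕ → Fin (m + 1) → ℝ :=
  fun j => if j ≤ k then A j else prm m M A j

/-- a determinant is linear in its first row. -/
theorem STG_gdot {m : ℕ} (w : Fin m → Fin (m + 1) → ℝ) :
    ∃ f : Fin (m + 1) → ℝ, ∀ x, dt (Matrix.vecCons x w) = f ⬝ᵥ x := by
  refine ⟨fun j => (-1) ^ (j : ℕ) *
    ((Matrix.of (Matrix.vecCons 0 w)).submatrix Fin.succ j.succAbove).det, fun x => ?_⟩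
  unfold dt
  rw [Matrix.det_succ_row_zero]
  simp only [dotProduct]
  apply Finset.sum_congr rfl
  intro j _
  have : (Matrix.of (Matrix.vecCons x w)).submatrix Fin.succ j.succAbove =
      (Matrix.of (Matrix.vecCons 0 w)).submatrix Fin.succ j.succAbove := by
    ext a b
    simp
  rw [this]
  simp only [Matrix.of_apply, Matrix.cons_val_zero]
  ring

/-- `lastd` is the scalar product with a fixed vector. -/
theorem lastd_dot (m M : ℕ) (A : ℕ → Fin (m + 1) → ℝ) :
    ∃ f : Fin (m + 1) → ℝ, ∀ x, lastd m M A x = f ⬝ᵥ x := STG_gdot _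

theorem lastd_pos {m M j : ℕ} {A : ℕ → Fin (m + 1) → ℝ} (hA : TPos (m + 1) M A)
    (hj : j + m < M) : 0 < lastd m M A (A j) := by
  have h := hA (fun i : Fin (m + 1) => if (i : ℕ) = 0 then j else M - m + (i - 1))
    (by
      intro a b hab
      have h1 : (a : ℕ) < b := hab
      have h2 := b.2
      show (if (a : ℕ) = 0 then j else M - m + (a - 1)) <
        (if (b : ℕ) = 0 then j else M - m + (b - 1))
      split_ifs <;> omega)
    (by
      intro i
      have h2 := i.2
      show (if (i : ℕ) = 0 then j else M - m + (i - 1)) < M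
      split_ifs <;> omega)
  unfold lastd
  convert h using 2
  funext i
  refine Fin.cases ?_ ?_ i
  · simp
  · intro k
    simp

theorem rr_pos {m M k : ℕ} {A : ℕ → Fin (m + 1) → ℝ} (hA : TPos (m + 1) M A) (hk : 1 ≤ k)
    (hkM : k + m < M) : 0 < rr m M A k :=
  div_pos (lastd_pos hA hkM) (lastd_pos hA (by omega))

theorem lastd_prm {m M j : ℕ} {A : ℕ → Fin (m + 1) → ℝ} (hM : m + 1 ≤ M)
    (hA : TPos (m + 1) M A) (hj : 1 ≤ j) (hjM : j < M) : lastd m M A (prm m M A j) = 0 := by
  by_cases h : j + m < M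
  · unfold prm
    rw [if_pos ⟨hj, h⟩]
    obtain ⟨f, hf⟩ := lastd_dot m M A
    have h1 := lastd_pos (j := j - 1) hA (by omega)
    rw [hf, dotProduct_sub, dotProduct_smul, ← hf, ← hf, smul_eq_mul]
    unfold rr
    field_simp
    ring
  · unfold prm
    rw [if_neg (fun hc => h hc.2)]
    unfold lastd dt
    refine Matrix.det_zero_of_row_eq (i := 0) (j := Fin.succ ⟨j - (M - m), by omega⟩)
      (Fin.succ_ne_zero _).symm ?_
    ext a
    simp only [Matrix.of_apply, Matrix.cons_val_zero, Matrix.cons_val_succ]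
    congr 2
    omega

/-- windows of primed columns. -/
theorem STG_win {m M i : ℕ} {A : ℕ → Fin (m + 1) → ℝ} (hM : m + 1 ≤ M)
    (hA : TPos (m + 1) M A) (hi : 1 ≤ i) (hiM : i + m ≤ M) :
    ∃ δ : ℝ, 0 < δ ∧ ∀ x, dt (Matrix.vecCons x (fun k : Fin m => prm m M A (i + k))) =
      δ * lastd m M A x := by
  obtain ⟨f, hf⟩ := lastd_dot m M A
  obtain ⟨g, hg⟩ := STG_gdot (fun k : Fin m => prm m M A (i + k))
  have hf0 : f ≠ 0 := by
    rintro rfl
    have h1 := lastd_pos (j := 0) hA (by omega)
    rw [hf, zero_dotProduct] at h1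
    exact lt_irrefl _ h1
  have key : ∀ x, f ⬝ᵥ x = 0 → g ⬝ᵥ x = 0 := by
    intro x hx
    rw [← hg]
    unfold dt
    refine Matrix.exists_mulVec_eq_zero_iff.mp ⟨f, hf0, ?_⟩
    ext r
    refine Fin.cases ?_ ?_ r
    · show x ⬝ᵥ f = 0
      rw [dotProduct_comm]
      exact hx
    · intro k
      show prm m M A (i + k) ⬝ᵥ f = 0
      rw [dotProduct_comm, ← hf]
      have := k.2
      exact lastd_prm hM hA (by omega) (by omega)
  have hx0 : 0 < f ⬝ᵥ A (i - 1) := by
    rw [← hf]
    exact lastd_pos hA (by omega)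
  have hgx0 : 0 < g ⬝ᵥ A (i - 1) := by
    rw [← hg]
    have h1 := hA (fun κ : Fin (m + 1) => i - 1 + κ)
      (by
        intro a b hab
        have h1 : (a : ℕ) < b := hab
        show i - 1 + (a : ℕ) < i - 1 + (b : ℕ)
        omega)
      (by
        intro a
        have := a.2
        show i - 1 + (a : ℕ) < M
        omega)
    have h2 : dt (fun κ : Fin (m + 1) => A (i - 1 + κ)) =
        dt (Matrix.vecCons (A (i - 1)) (fun k : Fin m => prm m M A (i + k))) := by
      unfold dt
      refine Matrix.det_eq_of_forall_row_eq_smul_add_pred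
        (fun k : Fin m => if 1 ≤ i + (k : ℕ) ∧ i + (k : ℕ) + m < M then rr m M A (i + k) else 0)
        ?_ ?_
      · intro j
        simp
      · intro k j
        have e1 : i - 1 + ((k.succ : Fin (m + 1)) : ℕ) = i + k := by
          rw [Fin.val_succ]; omega
        have e2 : i - 1 + ((k.castSucc : Fin (m + 1)) : ℕ) = i + k - 1 := by
          rw [Fin.val_castSucc]; omega
        simp only [Matrix.of_apply, Matrix.cons_val_succ, e1, e2]
        unfold prm
        split_ifs with hc
        · simp only [Pi.sub_apply, Pi.smul_apply, smul_eq_mul]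
          ring
        · simp
    rw [← h2]
    exact h1
  refine ⟨(g ⬝ᵥ A (i - 1)) / (f ⬝ᵥ A (i - 1)), div_pos hgx0 hx0, fun x => ?_⟩
  rw [hg, hf]
  have h3 := key (x - ((f ⬝ᵥ x) / (f ⬝ᵥ A (i - 1))) • A (i - 1)) (by
    rw [dotProduct_sub, dotProduct_smul, smul_eq_mul]
    field_simp
    ring)
  rw [dotProduct_sub, dotProduct_smul, smul_eq_mul, sub_eq_zero] at h3
  rw [h3]
  ring

theorem STG_stg_last {m M : ℕ} {A : ℕ → Fin (m + 1) → ℝ} {k : ℕ} (hk : M ≤ k + m + 1) (j : ℕ) :
    A j = stg m M A k j := by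
  unfold stg prm
  split_ifs with h1 h2
  · rfl
  · omega
  · rfl

theorem STG_stg_step {m M : ℕ} {A : ℕ → Fin (m + 1) → ℝ} {k : ℕ} (hk : k + 1 + m < M) :
    Function.update (stg m M A (k + 1)) (k + 1) (A (k + 1) - rr m M A (k + 1) • A (k + 1 - 1)) =
      stg m M A k := by
  funext j
  by_cases hj : j = k + 1
  · subst hj
    rw [Function.update_self]
    unfold stg prm
    rw [if_neg (by omega), if_pos ⟨by omega, hk⟩]
  · rw [Function.update_of_ne hj]
    unfold stg
    by_cases h2 : j ≤ k
    · rw [if_pos (by omega), if_pos h2]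
    · rw [if_neg (by omega), if_neg h2]

/-- one elementary move at a closed stage. -/
theorem STG_move {m M k : ℕ} {A : ℕ → Fin (m + 1) → ℝ} (hM : m + 1 ≤ M)
    (hA : TPos (m + 1) M A) (hk : 1 ≤ k) (hkM : k + m < M) (hS : TPc (m + 1) M (stg m M A k))
    {t : ℝ} (ht0 : 0 ≤ t) (ht : t ≤ rr m M A k) :
    TPc (m + 1) M (Function.update (stg m M A k) k (A k - t • A (k - 1))) := by
  obtain ⟨δ, hδ, hw⟩ := STG_win (i := k + 1) hM hA (by omega) (by omega)
  have e0 : stg m M A k k = A k := if_pos le_rfl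
  have e1 : stg m M A k (k - 1) = A (k - 1) := if_pos (by omega)
  have w1 : (fun κ : Fin (m + 1) => if (κ : ℕ) = 0 then stg m M A k (k - 1) else
      stg m M A k (k + κ)) =
      Matrix.vecCons (A (k - 1)) (fun κ : Fin m => prm m M A (k + 1 + κ)) := by
    funext κ
    refine Fin.cases ?_ ?_ κ
    · simp [e1]
    · intro j
      have h2 : stg m M A k (k + ((j.succ : Fin (m + 1)) : ℕ)) = prm m M A (k + 1 + j) := by
        rw [Fin.val_succ]
        unfold stg
        rw [if_neg (by omega)]
        congr 1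
        omega
      rw [if_neg (by rw [Fin.val_succ]; omega), h2, Matrix.cons_val_succ]
  have w0 : (fun κ : Fin (m + 1) => stg m M A k (k + κ)) =
      Matrix.vecCons (A k) (fun κ : Fin m => prm m M A (k + 1 + κ)) := by
    funext κ
    refine Fin.cases ?_ ?_ κ
    · simp [e0]
    · intro j
      have h2 : stg m M A k (k + ((j.succ : Fin (m + 1)) : ℕ)) = prm m M A (k + 1 + j) := by
        rw [Fin.val_succ]
        unfold stg
        rw [if_neg (by omega)]
        congr 1
        omega
      rw [h2, Matrix.cons_val_succ]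
  have hp1 := lastd_pos (j := k - 1) hA (by omega)
  have hp0 := lastd_pos hA hkM
  have h := tpc_move (m := m + 1) (i := k) (by omega) hS hk (by omega)
    (by
      rw [w1, hw]
      exact mul_pos hδ hp1) ht0
    (by
      rw [w1, w0, hw, hw]
      unfold rr at ht
      rw [le_div_iff₀ hp1] at ht
      nlinarith)
  rw [e0, e1] at h
  exact h

theorem stage_closed {m M k : ℕ} {A : ℕ → Fin (m + 1) → ℝ} (hm : 1 ≤ m) (hM : m + 1 ≤ M)
    (hA : TPos (m + 1) M A) (hk : 1 ≤ k) (hkM : k + m < M) {t : ℝ} (ht0 : 0 ≤ t)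
    (ht : t ≤ rr m M A k) :
    TPc (m + 1) M (Function.update (stg m M A k) k (A k - t • A (k - 1))) := by
  have main : ∀ d k : ℕ, 1 ≤ k → k + m + 1 + d = M → ∀ t : ℝ, 0 ≤ t → t ≤ rr m M A k →
      TPc (m + 1) M (Function.update (stg m M A k) k (A k - t • A (k - 1))) := by
    intro d
    induction d with
    | zero =>
      intro k hk hkM t ht0 ht
      exact STG_move hM hA hk (by omega)
        (tpc_congr (fun j _ => STG_stg_last (by omega) j) (tpc_of_tpos hA)) ht0 ht
    | succ d ih =>
      intro k hk hkM t ht0 ht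
      have h1 := ih (k + 1) (by omega) (by omega) (rr m M A (k + 1))
        (rr_pos hA (by omega) (by omega)).le le_rfl
      rw [STG_stg_step (by omega)] at h1
      exact STG_move hM hA hk (by omega) h1 ht0 ht
  exact main (M - (k + m + 1)) k hk (by omega) t ht0 ht

/-- two rows of a nonsingular matrix. -/
theorem STG_pair {m : ℕ} {s : Fin (m + 1) → Fin (m + 1) → ℝ} (hs : dt s ≠ 0)
    {a b : Fin (m + 1)} (hab : a ≠ b) {x y : Fin (m + 1) → ℝ} (hx : s a = x) (hy : s b = y) :
    ∃ u : Fin 2 → Fin (m + 1) → ℝ, om u x y ≠ 0 := by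
  have hu : IsUnit (Matrix.of s).det := isUnit_iff_ne_zero.mpr hs
  have h1 : Matrix.of s * (Matrix.of s)⁻¹ = 1 := Matrix.mul_nonsing_inv _ hu
  have h2 : ∀ c d, (fun i => (Matrix.of s)⁻¹ i d) ⬝ᵥ s c = if c = d then 1 else 0 := by
    intro c d
    have := congrFun (congrFun h1 c) d
    rw [Matrix.mul_apply, Matrix.one_apply] at this
    rw [dotProduct_comm, ← this]
    rfl
  refine ⟨fun k => if k = 0 then (fun i => (Matrix.of s)⁻¹ i a) else
    (fun i => (Matrix.of s)⁻¹ i b), ?_⟩
  unfold om
  simp only [if_true, Fin.isValue, one_ne_zero, if_false]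
  rw [← hx, ← hy, h2, h2, h2, h2]
  simp [hab, hab.symm]

/-- two consecutive unprimed columns. -/
theorem STG_unprimed {m M j : ℕ} {A : ℕ → Fin (m + 1) → ℝ} (hm : 1 ≤ m) (hM : m + 1 ≤ M)
    (hA : TPos (m + 1) M A) (hj : j + 1 < M) :
    ∃ u : Fin 2 → Fin (m + 1) → ℝ, om u (A j) (A (j + 1)) ≠ 0 := by
  by_cases h : j + m < M
  · have h1 := hA (fun κ : Fin (m + 1) => j + κ)
      (by
        intro a b hab
        have h1 : (a : ℕ) < b := hab
        show j + (a : ℕ) < j + (b : ℕ)
        omega)
      (by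
        intro a
        have := a.2
        show j + (a : ℕ) < M
        omega)
    exact STG_pair h1.ne' (a := ⟨0, by omega⟩) (b := ⟨1, by omega⟩) (by simp) rfl rfl
  · have h1 := hA (fun κ : Fin (m + 1) => M - (m + 1) + κ)
      (by
        intro a b hab
        have h1 : (a : ℕ) < b := hab
        show M - (m + 1) + (a : ℕ) < M - (m + 1) + (b : ℕ)
        omega)
      (by
        intro a
        have := a.2
        show M - (m + 1) + (a : ℕ) < M
        omega)
    refine STG_pair h1.ne' (a := ⟨j - (M - (m + 1)), by omega⟩)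
      (b := ⟨j + 1 - (M - (m + 1)), by omega⟩) ?_ ?_ ?_
    · intro hc
      have := congrArg Fin.val hc
      simp only at this
      omega
    · show A (M - (m + 1) + (j - (M - (m + 1)))) = A j
      congr 1
      omega
    · show A (M - (m + 1) + (j + 1 - (M - (m + 1)))) = A (j + 1)
      congr 1
      omega

theorem stage_indep {m M k j : ℕ} {A : ℕ → Fin (m + 1) → ℝ} (hm : 2 ≤ m) (hM : m + 1 ≤ M)
    (hA : TPos (m + 1) M A) (hkM : k + m < M) (hj : j + 1 < M) :
    ∃ u : Fin 2 → Fin (m + 1) → ℝ, om u (stg m M A k j) (stg m M A k (j + 1)) ≠ 0 := by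
  rcases lt_trichotomy j k with h | h | h
  · -- both unprimed
    have e1 : stg m M A k j = A j := if_pos (by omega)
    have e2 : stg m M A k (j + 1) = A (j + 1) := if_pos (by omega)
    rw [e1, e2]
    exact STG_unprimed (by omega) hM hA hj
  · subst h
    have e1 : stg m M A j j = A j := if_pos le_rfl
    have e2 : stg m M A j (j + 1) = prm m M A (j + 1) := if_neg (by omega)
    rw [e1, e2]
    obtain ⟨δ, hδ, hw⟩ := STG_win (i := j + 1) hM hA (by omega) (by omega)
    have h1 := mul_pos hδ (lastd_pos hA hkM)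
    rw [← hw] at h1
    exact STG_pair h1.ne' (a := ⟨0, by omega⟩) (b := ⟨0 + 1, by omega⟩) (by simp) rfl
      (by
        show Matrix.vecCons (A j) (fun k : Fin m => prm m M A (j + 1 + k))
          (Fin.succ ⟨0, by omega⟩) = _
        rw [Matrix.cons_val_succ]
        rfl)
  · have e1 : stg m M A k j = prm m M A j := if_neg (by omega)
    have e2 : stg m M A k (j + 1) = prm m M A (j + 1) := if_neg (by omega)
    rw [e1, e2]
    by_cases h2 : j + m ≤ M
    · obtain ⟨δ, hδ, hw⟩ := STG_win (i := j) hM hA (by omega) (by omega)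
      have h1 := mul_pos hδ (lastd_pos (j := j - 1) hA (by omega))
      rw [← hw] at h1
      exact STG_pair h1.ne' (a := ⟨0 + 1, by omega⟩) (b := ⟨1 + 1, by omega⟩) (by simp)
        (by
          show Matrix.vecCons (A (j - 1)) (fun k : Fin m => prm m M A (j + k))
            (Fin.succ ⟨0, by omega⟩) = _
          rw [Matrix.cons_val_succ]
          rfl)
        (by
          show Matrix.vecCons (A (j - 1)) (fun k : Fin m => prm m M A (j + k))
            (Fin.succ ⟨1, by omega⟩) = _
          rw [Matrix.cons_val_succ])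
    · have e3 : prm m M A j = A j := if_neg (by omega)
      have e4 : prm m M A (j + 1) = A (j + 1) := if_neg (by omega)
      rw [e3, e4]
      exact STG_unprimed (by omega) hM hA hj

end Pool.Agent.TR
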