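import Pool.Agent.Helper65.TR.RED

/-!
# TRL TPM : the elementary move `A i ↦ A i - t A (i-1)` preserves total positivity

as long as `t` is smaller than the ratio of the minors `(i, i+1, ..., i+m-1)` and
`(i-1, i+1, ..., i+m-1)`.

PROOF. Case `m = 1` is direct.  Let `m ≥ 2`.  Minors which do not contain `i`, or contain both
`i - 1` and `i`, do not change.  For a set `T` of `m - 1` indices `< M`, `i - 1, i ∉ T`, put
`r(T) = mi A (T ∪ {i}) / mi A (T ∪ {i-1})`; the new minor of `T ∪ {i}` is
`mi A (T ∪ {i}) - t mi A (T ∪ {i-1})`, so we must show `t < r(T)`.  Let `S = {i+1, ..., i+m-1}`;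
`t < r(S)` is the hypothesis.  Let `T` minimise `r` (finitely many sets).  If `T ≠ S` choose
`s ∈ S \ T` and `t' ∈ T \ S` and put `R = T \ {t'}` (`m - 2` elements), `T1 = R ∪ {s}`.  By `red`
applied to `R` the four minors are `2 × 2` minors of a family `b` which is positive:
`[p, q] > 0` for `p < q` outside `R`.  Three-term relation for `2 × 2` minors: either `t' > s`
(then `i-1 < i < s < t'`) : `[i,s] [i-1,t'] = [i-1,s] [i,t'] - [i-1,i] [s,t'] < [i-1,s] [i,t']`, or
`t' < i-1` : `[t',i-1] [i,s] = [t',i] [i-1,s] - [t',s] [i-1,i] < [t',i] [i-1,s]`.  Both say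
`r(T1) < r(T)`, a contradiction.  So `r(T) ≥ r(S) > t` for all `T`.
-/

set_option autoImplicit false

namespace Pool.Agent.TR

namespace TPM

lemma mi_eq_dt {m : ℕ} (A : ℕ → Fin m → ℝ) {s : Fin m → ℕ} (hs : StrictMono s) {T : Finset ℕ}
    (hT : T.card = m) (h : ∀ k, s k ∈ T) : mi A T = dt (fun k => A (s k)) := by
  unfold mi
  rw [dif_pos hT, Finset.orderEmbOfFin_unique hT h hs]

lemma dt_cons_sub {n : ℕ} (x y : Fin (n + 1) → ℝ) (t : ℝ) (G : Fin n → Fin (n + 1) → ℝ) :
    dt (Fin.cons (x - t • y) G : Fin (n + 1) → Fin (n + 1) → ℝ) =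
      dt (Fin.cons x G : Fin (n + 1) → Fin (n + 1) → ℝ) -
        t * dt (Fin.cons y G : Fin (n + 1) → Fin (n + 1) → ℝ) := by
  have key : ∀ z : Fin (n + 1) → ℝ, dt (Fin.cons z G : Fin (n + 1) → Fin (n + 1) → ℝ) =
      ∑ j : Fin (n + 1), z j * ((-1) ^ (j : ℕ) * (Matrix.det
        (Matrix.of fun (k : Fin n) (l : Fin n) => G k (j.succAbove l)))) := by
    intro z
    unfold dt
    rw [Matrix.det_succ_row_zero]
    refine Finset.sum_congr rfl fun j _ => ?_
    have h : (Matrix.of (Fin.cons z G : Fin (n + 1) → Fin (n + 1) → ℝ)).submatrix Fin.succ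
        j.succAbove = Matrix.of fun (k : Fin n) (l : Fin n) => G k (j.succAbove l) := by
      ext k l
      simp
    rw [h, Matrix.of_apply, Fin.cons_zero]
    ring
  rw [key, key x, key y, Finset.mul_sum, ← Finset.sum_sub_distrib]
  refine Finset.sum_congr rfl fun j _ => ?_
  simp only [Pi.sub_apply, Pi.smul_apply, smul_eq_mul]
  ring

lemma mi_insert_eq {n : ℕ} (A : ℕ → Fin (n + 1) → ℝ) {T : Finset ℕ} (hT : T.card = n) {p : ℕ}
    (hp : p ∉ T) : mi A (insert p T) = (-1) ^ (T.filter (fun t => t < p)).card *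
      dt (Fin.cons (A p) (fun l => A (T.orderEmbOfFin hT l)) :
        Fin (n + 1) → Fin (n + 1) → ℝ) := by
  have hS : (insert p T).card = n + 1 := by rw [Finset.card_insert_of_notMem hp, hT]
  obtain ⟨k, hk1, hk2⟩ := RED.emb_insert hT hp hS
  unfold mi
  rw [dif_pos hS, ← hk1, ← RED.dt_insertNth]
  congr 1
  funext i
  rw [hk2]
  rcases Fin.eq_self_or_eq_succAbove k i with h | ⟨j, h⟩
  · rw [h, Fin.insertNth_apply_same, Fin.insertNth_apply_same]
  · rw [h, Fin.insertNth_apply_succAbove, Fin.insertNth_apply_succAbove]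

/-- the minors of the moved family. -/
lemma mi_move {n i : ℕ} (A : ℕ → Fin (n + 1) → ℝ) (hi : 1 ≤ i) (t : ℝ) {T : Finset ℕ}
    (hT : T.card = n) (hiT : i ∉ T) :
    mi (Function.update A i (A i - t • A (i - 1))) (insert i T) =
      mi A (insert i T) - t * (if i - 1 ∈ T then 0 else mi A (insert (i - 1) T)) := by
  rw [mi_insert_eq _ hT hiT, mi_insert_eq _ hT hiT]
  have h1 : (fun l => Function.update A i (A i - t • A (i - 1)) (T.orderEmbOfFin hT l)) =
      fun l => A (T.orderEmbOfFin hT l) := by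
    funext l
    apply Function.update_of_ne
    intro h
    exact hiT (h ▸ Finset.orderEmbOfFin_mem T hT l)
  rw [h1, Function.update_self, dt_cons_sub, mul_sub]
  congr 1
  split_ifs with hc
  · have h2 : i - 1 ∈ Set.range (T.orderEmbOfFin hT) := by
      rw [Finset.range_orderEmbOfFin]; exact hc
    obtain ⟨l, hl⟩ := h2
    have h3 : dt (Fin.cons (A (i - 1)) (fun l => A (T.orderEmbOfFin hT l)) :
        Fin (n + 1) → Fin (n + 1) → ℝ) = 0 := by
      unfold dt
      refine Matrix.det_zero_of_row_eq (i := 0) (j := l.succ) (Fin.succ_ne_zero l).symm ?_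
      funext c
      simp [hl]
    rw [h3]
    ring
  · rw [mi_insert_eq _ hT hc]
    have h4 : T.filter (fun t => t < i) = T.filter (fun t => t < i - 1) := by
      apply Finset.filter_congr
      intro x hx
      have : x ≠ i - 1 := fun h => hc (h ▸ hx)
      constructor
      · intro h; omega
      · intro h; omega
    rw [h4]
    ring

lemma mi_of_notMem {m i : ℕ} (A : ℕ → Fin m → ℝ) (x : Fin m → ℝ) {T : Finset ℕ} (hiT : i ∉ T) :
    mi (Function.update A i x) T = mi A T := by
  unfold mi
  split_ifs with h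
  · congr 1
    funext k
    apply Function.update_of_ne
    intro h'
    exact hiT (h' ▸ Finset.orderEmbOfFin_mem T h k)
  · rfl

/-- exchange step. -/
lemma exch {n i : ℕ} {A : ℕ → Fin (n + 1) → ℝ} {M : ℕ}
    (hA : ∀ T : Finset ℕ, T.card = n + 1 → (∀ j ∈ T, j < M) → 0 < mi A T) (hi : 1 ≤ i)
    (hM : i + (n + 1) ≤ M) {T : Finset ℕ} (hT : T.card = n) (hTM : ∀ j ∈ T, j < M)
    (h1 : i ∉ T) (h2 : i - 1 ∉ T) {s u : ℕ} (hs : s ∈ Finset.Ioc i (i + n)) (hsT : s ∉ T)
    (hu : u ∈ T) (huS : u ∉ Finset.Ioc i (i + n)) :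
    mi A (insert i (insert s (T.erase u))) * mi A (insert (i - 1) T) <
      mi A (insert (i - 1) (insert s (T.erase u))) * mi A (insert i T) := by
  rw [Finset.mem_Ioc] at hs huS
  obtain ⟨k, rfl⟩ : ∃ k, n = k + 1 := by
    refine ⟨n - 1, ?_⟩
    have : 0 < T.card := Finset.card_pos.2 ⟨u, hu⟩
    omega
  set R := T.erase u with hR
  have hRc : R.card = k := by rw [hR, Finset.card_erase_of_mem hu, hT]; rfl
  have hTR : T = insert u R := (Finset.insert_erase hu).symm
  have hiR : i ∉ R := fun h => h1 (Finset.mem_of_mem_erase h)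
  have hiR' : i - 1 ∉ R := fun h => h2 (Finset.mem_of_mem_erase h)
  have hsR : s ∉ R := fun h => hsT (Finset.mem_of_mem_erase h)
  have huR : u ∉ R := Finset.notMem_erase u T
  have hRM : ∀ j ∈ R, j < M := fun j hj => hTM j (Finset.mem_of_mem_erase hj)
  have hui : u ≠ i := fun h => h1 (h ▸ hu)
  have hui' : u ≠ i - 1 := fun h => h2 (h ▸ hu)
  have huM := hTM u hu
  obtain ⟨b, hb⟩ := red A R hRc
  have hpos : ∀ p ∉ R, ∀ q ∉ R, p < q → p < M → q < M →
      0 < b p 0 * b q 1 - b p 1 * b q 0 := by
    intro p hp q hq hpq hpM hqM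
    rw [← hb p hp q hq hpq]
    apply hA
    · rw [Finset.card_insert_of_notMem, Finset.card_insert_of_notMem hq, hRc]
      rw [Finset.mem_insert]
      push Not
      exact ⟨hpq.ne, hp⟩
    · intro j hj
      rw [Finset.mem_insert, Finset.mem_insert] at hj
      rcases hj with rfl | rfl | hj
      · exact hpM
      · exact hqM
      · exact hRM j hj
  rw [hTR]
  rw [hb i hiR s hsR (by omega), hb (i - 1) hiR' s hsR (by omega)]
  rcases lt_or_ge s u with hsu | hsu
  · rw [hb i hiR u huR (by omega), hb (i - 1) hiR' u huR (by omega)]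
    have a1 := hpos (i - 1) hiR' i hiR (by omega) (by omega) (by omega)
    have a2 := hpos s hsR u huR hsu (by omega) huM
    nlinarith [mul_pos a1 a2]
  · have hu1 : u < i - 1 := by
      rcases Nat.lt_or_ge u (i - 1) with h | h
      · exact h
      · exfalso
        have h3 : i < u := by omega
        exact huS ⟨h3, by omega⟩
    rw [Finset.insert_comm i u, Finset.insert_comm (i - 1) u,
      hb u huR i hiR (by omega), hb u huR (i - 1) hiR' (by omega)]
    have a1 := hpos (i - 1) hiR' i hiR (by omega) (by omega) (by omega)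
    have a2 := hpos u huR s hsR (by omega) huM (by omega)
    nlinarith [mul_pos a1 a2]

end TPM

open TPM in
theorem tp_move {m M i : ℕ} {A : ℕ → Fin m → ℝ} (hm : 1 ≤ m) (hA : TPos m M A) (hi : 1 ≤ i)
    (hM : i + m ≤ M) {t : ℝ} (ht0 : 0 ≤ t)
    (ht : t * dt (fun k : Fin m => if (k : ℕ) = 0 then A (i - 1) else A (i + k)) <
      dt (fun k : Fin m => A (i + k))) :
    TPos m M (Function.update A i (A i - t • A (i - 1))) := by
  obtain ⟨n, rfl⟩ : ∃ n, m = n + 1 := ⟨m - 1, by omega⟩
  rw [tpos_iff_mi] at hA ⊢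
  set S : Finset ℕ := Finset.Ioc i (i + n) with hS
  have hSc : S.card = n := by rw [hS, Nat.card_Ioc]; omega
  have hSi : i ∉ S := by rw [hS, Finset.mem_Ioc]; omega
  have hSi' : i - 1 ∉ S := by rw [hS, Finset.mem_Ioc]; omega
  have hSM : ∀ j ∈ S, j < M := by
    intro j hj
    rw [hS, Finset.mem_Ioc] at hj
    omega
  -- the hypothesis in terms of `S`
  have e1 : mi A (insert i S) = dt (fun k : Fin (n + 1) => A (i + k)) := by
    apply mi_eq_dt A (s := fun k : Fin (n + 1) => i + (k : ℕ))
    · intro a b hab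
      have : (a : ℕ) < b := hab
      simp only
      omega
    · rw [Finset.card_insert_of_notMem hSi, hSc]
    · intro k
      have := k.2
      rw [Finset.mem_insert, hS, Finset.mem_Ioc]
      omega
  have e2 : mi A (insert (i - 1) S) =
      dt (fun k : Fin (n + 1) => if (k : ℕ) = 0 then A (i - 1) else A (i + k)) := by
    have h := mi_eq_dt A (s := fun k : Fin (n + 1) => if (k : ℕ) = 0 then i - 1 else i + (k : ℕ))
      (T := insert (i - 1) S) ?_ ?_ ?_
    · rw [h]
      congr 1
      funext k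
      split_ifs <;> rfl
    · intro a b hab
      have : (a : ℕ) < b := hab
      simp only
      split_ifs <;> omega
    · rw [Finset.card_insert_of_notMem hSi', hSc]
    · intro k
      have := k.2
      rw [Finset.mem_insert, hS, Finset.mem_Ioc]
      split_ifs <;> omega
  rw [← e1, ← e2] at ht
  -- all admissible sets
  set F : Finset (Finset ℕ) := (((Finset.range M).erase i).erase (i - 1)).powersetCard n with hF
  have hmemF : ∀ T : Finset ℕ, T ∈ F ↔ (∀ j ∈ T, j < M) ∧ i ∉ T ∧ i - 1 ∉ T ∧ T.card = n := by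
    intro T
    rw [hF, Finset.mem_powersetCard]
    constructor
    · rintro ⟨h1, h2⟩
      refine ⟨fun j hj => ?_, fun h => ?_, fun h => ?_, h2⟩
      · have := h1 hj
        rw [Finset.mem_erase, Finset.mem_erase, Finset.mem_range] at this
        exact this.2.2
      · have := h1 h
        rw [Finset.mem_erase, Finset.mem_erase] at this
        exact this.2.1 rfl
      · have := h1 h
        rw [Finset.mem_erase] at this
        exact this.1 rfl
    · rintro ⟨h1, h2, h3, h4⟩
      refine ⟨fun j hj => ?_, h4⟩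
      rw [Finset.mem_erase, Finset.mem_erase, Finset.mem_range]
      exact ⟨fun h => h3 (h ▸ hj), fun h => h2 (h ▸ hj), h1 j hj⟩
  have hpos : ∀ p < M, ∀ T : Finset ℕ, (∀ j ∈ T, j < M) → p ∉ T → T.card = n →
      0 < mi A (insert p T) := by
    intro p hp T h1 h2 h3
    apply hA
    · rw [Finset.card_insert_of_notMem h2, h3]
    · intro j hj
      rw [Finset.mem_insert] at hj
      rcases hj with rfl | hj
      · exact hp
      · exact h1 j hj
  have hSF : S ∈ F := (hmemF S).2 ⟨hSM, hSi, hSi', hSc⟩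
  obtain ⟨T0, hT0, hmin⟩ := Finset.exists_min_image F
    (fun T => mi A (insert i T) / mi A (insert (i - 1) T)) ⟨S, hSF⟩
  obtain ⟨g1, g2, g3, g4⟩ := (hmemF T0).1 hT0
  have hT0S : T0 = S := by
    by_contra hne
    have hc1 : ∃ s ∈ S, s ∉ T0 := by
      by_contra hc
      push Not at hc
      exact hne (Finset.eq_of_subset_of_card_le hc (by rw [g4, hSc])).symm
    have hc2 : ∃ u ∈ T0, u ∉ S := by
      by_contra hc
      push Not at hc
      exact hne (Finset.eq_of_subset_of_card_le hc (by rw [g4, hSc]))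
    obtain ⟨s, hs, hsT⟩ := hc1
    obtain ⟨u, hu, huS⟩ := hc2
    have hex := exch hA hi hM g4 g1 g2 g3 hs hsT hu huS
    have hs' := hs
    rw [hS, Finset.mem_Ioc] at hs'
    have hmem1 : insert s (T0.erase u) ∈ F := by
      rw [hmemF]
      refine ⟨fun j hj => ?_, fun h => ?_, fun h => ?_, ?_⟩
      · rw [Finset.mem_insert] at hj
        rcases hj with rfl | hj
        · omega
        · exact g1 j (Finset.mem_of_mem_erase hj)
      · rw [Finset.mem_insert] at h
        rcases h with h | h
        · omega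
        · exact g2 (Finset.mem_of_mem_erase h)
      · rw [Finset.mem_insert] at h
        rcases h with h | h
        · omega
        · exact g3 (Finset.mem_of_mem_erase h)
      · rw [Finset.card_insert_of_notMem (fun h => hsT (Finset.mem_of_mem_erase h)),
          Finset.card_erase_of_mem hu, g4]
        have : 0 < T0.card := Finset.card_pos.2 ⟨u, hu⟩
        omega
    obtain ⟨f1, f2, f3, f4⟩ := (hmemF _).1 hmem1
    have hle := hmin _ hmem1
    have p1 := hpos (i - 1) (by omega) T0 g1 g3 g4
    have p2 := hpos (i - 1) (by omega) _ f1 f3 f4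
    rw [div_le_div_iff₀ p1 p2] at hle
    linarith
  have hall : ∀ T ∈ F, t * mi A (insert (i - 1) T) < mi A (insert i T) := by
    intro T hT
    obtain ⟨f1, f2, f3, f4⟩ := (hmemF _).1 hT
    have hle := hmin T hT
    rw [hT0S] at hle
    have p1 := hpos (i - 1) (by omega) T f1 f3 f4
    have p2 := hpos (i - 1) (by omega) S hSM hSi' hSc
    have h3 : t < mi A (insert i S) / mi A (insert (i - 1) S) := by
      rw [lt_div_iff₀ p2]
      exact ht
    have h4 := h3.trans_le hle
    rwa [lt_div_iff₀ p1] at h4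
  intro T' hT' hTM'
  by_cases hiT : i ∈ T'
  · have hc : (T'.erase i).card = n := by rw [Finset.card_erase_of_mem hiT, hT']; rfl
    have h1 : i ∉ T'.erase i := Finset.notMem_erase i T'
    have hM1 : ∀ j ∈ T'.erase i, j < M := fun j hj => hTM' j (Finset.mem_of_mem_erase hj)
    rw [← Finset.insert_erase hiT, mi_move A hi t hc h1]
    split_ifs with h2
    · rw [mul_zero, sub_zero]
      exact hpos i (by omega) _ hM1 h1 hc
    · have := hall _ ((hmemF _).2 ⟨hM1, h1, h2, hc⟩)
      linarith
  · rw [mi_of_notMem A _ hiT]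
    exact hA T' hT' hTM'

end Pool.Agent.TR
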